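import Pool.Agent.H61.ST.Jord

set_option autoImplicit false

/-! A group of isometries of a finite dimensional space, whose image has polynomial growth, is
virtually abelian: abstract form. -/

namespace Pool.H61.ST.AbelAbs

section fg

variable {Γ : Type} [Group Γ]

lemma exists_fin_closure (X : Set Γ) (h : Γ) (hh : h ∈ Subgroup.closure X) :
    ∃ T : Finset Γ, (T : Set Γ) ⊆ X ∧ h ∈ Subgroup.closure (T : Set Γ) := by
  classical
  induction hh using Subgroup.closure_induction with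
  | mem x hx => exact ⟨{x}, by simpa using hx, Subgroup.subset_closure (by simp)⟩
  | one => exact ⟨∅, by simp, Subgroup.one_mem _⟩
  | mul x y _ _ ihx ihy =>
    obtain ⟨T, h1, h2⟩ := ihx
    obtain ⟨T', h1', h2'⟩ := ihy
    refine ⟨T ∪ T', by rw [Finset.coe_union]; exact Set.union_subset h1 h1', ?_⟩
    rw [Finset.coe_union]
    exact Subgroup.mul_mem _ (Subgroup.closure_mono Set.subset_union_left h2)
      (Subgroup.closure_mono Set.subset_union_right h2')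
  | inv x _ ih =>
    obtain ⟨T, h1, h2⟩ := ih
    exact ⟨T, h1, Subgroup.inv_mem _ h2⟩

/-- a generating set of a finitely generated subgroup contains a finite one -/
lemma exists_fin_gen (X : Set Γ) (hX : (Subgroup.closure X).FG) :
    ∃ T : Finset Γ, (T : Set Γ) ⊆ X ∧ Subgroup.closure (T : Set Γ) = Subgroup.closure X := by
  classical
  obtain ⟨S, hS⟩ := hX
  have h1 : ∀ s ∈ S, ∃ T : Finset Γ, (T : Set Γ) ⊆ X ∧ s ∈ Subgroup.closure (T : Set Γ) := by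
    intro s hs
    refine exists_fin_closure X s ?_
    rw [← hS]
    exact Subgroup.subset_closure hs
  choose! T hT1 hT2 using h1
  refine ⟨S.biUnion T, ?_, ?_⟩
  · intro x hx
    rw [Finset.mem_coe, Finset.mem_biUnion] at hx
    obtain ⟨s, hs, hx⟩ := hx
    exact hT1 s hs hx
  · refine le_antisymm (Subgroup.closure_mono ?_) ?_
    · intro x hx
      rw [Finset.mem_coe, Finset.mem_biUnion] at hx
      obtain ⟨s, hs, hx⟩ := hx
      exact hT1 s hs hx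
    · rw [← hS, Subgroup.closure_le]
      intro s hs
      refine Subgroup.closure_mono ?_ (hT2 s hs)
      intro x hx
      rw [Finset.mem_coe, Finset.mem_biUnion]
      exact ⟨s, hs, hx⟩

end fg

variable {A : Type} [NormedRing A] {Γ : Type} [Group Γ] (ρ : Γ →* A)

/-- compactness: the subgroup generated by the elements close to the identity has finitely many
cosets -/
lemma exists_cover (hA : TotallyBounded (Set.range ρ)) (hρ : ∀ g, ‖ρ g‖ ≤ 1) (ε : ℝ)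
    (hε : 0 < ε) : ∃ F : Finset Γ, ∀ g, ∃ f ∈ F, ‖ρ (f⁻¹ * g) - 1‖ ≤ ε := by
  classical
  obtain ⟨t, hts, htf, hcov⟩ := Metric.finite_approx_of_totallyBounded hA ε hε
  have h1 : ∀ a ∈ t, ∃ g, ρ g = a := fun a ha => hts ha
  choose! s hs using h1
  refine ⟨htf.toFinset.image s, fun g => ?_⟩
  have h2 := hcov (Set.mem_range_self g)
  rw [Set.mem_iUnion₂] at h2
  obtain ⟨a, ha, h3⟩ := h2
  refine ⟨s a, Finset.mem_image_of_mem s (htf.mem_toFinset.2 ha), ?_⟩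
  rw [Metric.mem_ball, dist_eq_norm, ← hs a ha] at h3
  have h4 : ρ ((s a)⁻¹ * g) - 1 = ρ (s a)⁻¹ * (ρ g - ρ (s a)) := by
    rw [mul_sub, ← map_mul, ← map_mul, inv_mul_cancel, map_one]
  rw [h4]
  calc ‖ρ (s a)⁻¹ * (ρ g - ρ (s a))‖ ≤ ‖ρ (s a)⁻¹‖ * ‖ρ g - ρ (s a)‖ := norm_mul_le _ _
    _ ≤ 1 * ε := mul_le_mul (hρ _) h3.le (norm_nonneg _) zero_le_one
    _ = ε := one_mul _

lemma fin_index_of_cover (H : Subgroup Γ) (F : Finset Γ) (h : ∀ g, ∃ f ∈ F, f⁻¹ * g ∈ H) :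
    H.FiniteIndex := by
  have : Finite (Γ ⧸ H) := by
    refine Finite.of_surjective (fun f : F => (QuotientGroup.mk f.1 : Γ ⧸ H)) ?_
    intro q
    induction q using QuotientGroup.induction_on with
    | H g =>
      obtain ⟨f, hf, hg⟩ := h g
      exact ⟨⟨f, hf⟩, QuotientGroup.eq.2 hg⟩
  exact Subgroup.finiteIndex_of_finite_quotient

/-- the elements which commute with `x` in the image -/
def cent (x : Γ) : Subgroup Γ where
  carrier := {g | ρ (g * x) = ρ (x * g)}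
  one_mem' := by simp
  mul_mem' := by
    intro a b ha hb
    simp only [Set.mem_ofPred_eq, map_mul] at *
    rw [mul_assoc, hb, ← mul_assoc, ha, mul_assoc]
  inv_mem' := by
    intro a ha
    simp only [Set.mem_ofPred_eq, map_mul] at *
    have h1 : ρ a⁻¹ * ρ a = 1 := by rw [← map_mul, inv_mul_cancel, map_one]
    have h2 : ρ a * ρ a⁻¹ = 1 := by rw [← map_mul, mul_inv_cancel, map_one]
    calc ρ a⁻¹ * ρ x = ρ a⁻¹ * (ρ x * ρ a) * ρ a⁻¹ := by
          rw [mul_assoc, mul_assoc (ρ x), h2, mul_one]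
      _ = ρ a⁻¹ * (ρ a * ρ x) * ρ a⁻¹ := by rw [ha]
      _ = ρ x * ρ a⁻¹ := by rw [← mul_assoc, h1, one_mul]

lemma comm_closure (T : Set Γ) (h : ∀ s ∈ T, ∀ t ∈ T, ρ (s * t) = ρ (t * s)) :
    ∀ g ∈ Subgroup.closure T, ∀ k ∈ Subgroup.closure T, ρ (g * k) = ρ (k * g) := by
  have h1 : ∀ t ∈ T, ∀ g ∈ Subgroup.closure T, ρ (g * t) = ρ (t * g) := by
    intro t ht g hg
    have : Subgroup.closure T ≤ cent ρ t := by
      rw [Subgroup.closure_le]
      intro s hs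
      exact h s hs t ht
    exact this hg
  intro g hg k hk
  have : Subgroup.closure T ≤ cent ρ k := by
    rw [Subgroup.closure_le]
    intro s hs
    exact (h1 s hs k hk).symm
  exact this hg

/-- saturation of a subgroup by the kernel -/
def sat (H : Subgroup Γ) : Subgroup Γ where
  carrier := {g | ∃ h ∈ H, ρ g = ρ h}
  one_mem' := ⟨1, H.one_mem, rfl⟩
  mul_mem' := by
    rintro a b ⟨x, hx, hax⟩ ⟨y, hy, hby⟩
    exact ⟨x * y, H.mul_mem hx hy, by rw [map_mul, map_mul, hax, hby]⟩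
  inv_mem' := by
    rintro a ⟨x, hx, hax⟩
    refine ⟨x⁻¹, H.inv_mem hx, ?_⟩
    have h1 : ρ a⁻¹ * ρ a = 1 := by rw [← map_mul, inv_mul_cancel, map_one]
    have h2 : ρ x * ρ x⁻¹ = 1 := by rw [← map_mul, mul_inv_cancel, map_one]
    calc ρ a⁻¹ = ρ a⁻¹ * (ρ x * ρ x⁻¹) := by rw [h2, mul_one]
      _ = ρ a⁻¹ * ρ a * ρ x⁻¹ := by rw [hax, mul_assoc]
      _ = ρ x⁻¹ := by rw [h1, one_mul]

lemma mem_sat (H : Subgroup Γ) (g : Γ) : g ∈ sat ρ H ↔ ∃ h ∈ H, ρ g = ρ h := Iff.rfl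

theorem abs_abel [NormedAlgebra ℝ A] (hA : TotallyBounded (Set.range ρ)) (hρ : ∀ g, ‖ρ g‖ ≤ 1) (D : ℕ) (ℓ : Γ → ℕ)
    (hone : ℓ 1 = 0) (hmul : ∀ g h, ℓ (g * h) ≤ ℓ g + ℓ h) (hinv : ∀ g, ℓ g⁻¹ = ℓ g)
    (hgen : ∀ g, g ∈ Subgroup.closure {s | ℓ s ≤ 1}) (C1 : ℝ) (hC1 : 0 ≤ C1) (Vf : ℕ → ℝ)
    (hmono : Monotone Vf)
    (hfin : ∀ (r : ℕ) (F : Finset A), (∀ a ∈ F, ∃ g, ℓ g ≤ r ∧ ρ g = a) →
      (F.card : ℝ) ≤ C1 * Vf r)
    (hpg : ∀ N : ℕ, ∃ r ≥ N, Vf r ≤ (r : ℝ) ^ D) :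
    ∃ Γ₀ : Subgroup Γ, Γ₀.FiniteIndex ∧ ∀ g ∈ Γ₀, ∀ h ∈ Γ₀, ρ (g * h) = ρ (h * g) := by
  classical
  set ε : ℝ := 1 / (17 * 2 ^ (D + 2)) with hε
  have hε0 : 0 < ε := by positivity
  -- the image of the generating set is finite
  have hS1 : (ρ '' {s | ℓ s ≤ 1}).Finite := by
    by_contra hinf
    obtain ⟨n, hn⟩ := exists_nat_gt (C1 * Vf 1)
    obtain ⟨F, hF1, hF2⟩ := Set.Infinite.exists_subset_card_eq hinf n
    have h1 := hfin 1 F (fun a ha => by
      obtain ⟨g, hg, hga⟩ := hF1 ha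
      exact ⟨g, hg, hga⟩)
    rw [hF2] at h1
    linarith
  have hS2 : ∀ a ∈ hS1.toFinset, ∃ g, ρ g = a := by
    intro a ha
    rw [Set.Finite.mem_toFinset] at ha
    obtain ⟨g, _, hga⟩ := ha
    exact ⟨g, hga⟩
  choose! s hs using hS2
  set S : Finset Γ := hS1.toFinset.image s with hS
  set Δ : Subgroup Γ := Subgroup.closure (S : Set Γ) with hΔ
  have hsat : ∀ g, g ∈ sat ρ Δ := by
    intro g
    have : Subgroup.closure {s | ℓ s ≤ 1} ≤ sat ρ Δ := by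
      rw [Subgroup.closure_le]
      intro x hx
      have hx' : ρ x ∈ hS1.toFinset := by
        rw [Set.Finite.mem_toFinset]
        exact ⟨x, hx, rfl⟩
      refine ⟨s (ρ x), Subgroup.subset_closure ?_, (hs _ hx').symm⟩
      rw [hS, Finset.mem_coe]
      exact Finset.mem_image_of_mem s hx'
    exact this (hgen g)
  -- the finitely generated group
  have hfg : Group.FG Δ := by rw [hΔ]; infer_instance
  set σ : Δ →* A := ρ.comp Δ.subtype with hσ
  have hAσ : TotallyBounded (Set.range σ) := hA.subset (by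
    rintro a ⟨g, rfl⟩
    exact ⟨g.1, rfl⟩)
  obtain ⟨F, hF⟩ := exists_cover σ hAσ (fun g => hρ g.1) ε hε0
  set X : Set Δ := {g | ‖σ g - 1‖ ≤ ε} with hX
  have hXfi : (Subgroup.closure X).FiniteIndex :=
    fin_index_of_cover _ F fun g => by
      obtain ⟨f, hf, h⟩ := hF g
      exact ⟨f, hf, Subgroup.subset_closure h⟩
  have hXfg : (Subgroup.closure X).FG := by
    rw [← Group.fg_iff_subgroup_fg]
    infer_instance
  obtain ⟨T, hTX, hTc⟩ := exists_fin_gen X hXfg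
  -- growth
  set k0 : ℕ := T.sup (fun t => ℓ t.1) + 1 with hk0
  have hTl : ∀ t : Δ, (t ∈ T ∨ t⁻¹ ∈ T) → ℓ t.1 ≤ k0 := by
    intro t ht
    rcases ht with ht | ht
    · have : ℓ t.1 ≤ T.sup (fun t => ℓ t.1) := Finset.le_sup (f := fun t : Δ => ℓ t.1) ht
      omega
    · have : ℓ (t⁻¹).1 ≤ T.sup (fun t => ℓ t.1) := Finset.le_sup (f := fun t : Δ => ℓ t.1) ht
      have h2 : ℓ (t⁻¹ : Δ).1 = ℓ t.1 := by
        rw [Subgroup.coe_inv]; exact hinv _
      omega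
  have hword : ∀ l : List Δ, (∀ g ∈ l, g ∈ T ∨ g⁻¹ ∈ T) → ℓ (l.prod : Δ).1 ≤ k0 * l.length := by
    intro l
    induction l with
    | nil => intro _; simp [hone]
    | cons a l ih =>
      intro h
      rw [List.prod_cons, Subgroup.coe_mul, List.length_cons]
      have h1 := hmul a.1 (l.prod : Δ).1
      have h2 := hTl a (h a (by simp))
      have h3 := ih (fun g hg => h g (List.mem_cons_of_mem _ hg))
      calc ℓ (a.1 * (l.prod : Δ).1) ≤ ℓ a.1 + ℓ (l.prod : Δ).1 := h1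
        _ ≤ k0 + k0 * l.length := by omega
        _ = k0 * (l.length + 1) := by ring
  have hgrow : ∀ N : ℕ, ∃ R ≥ N, ∀ F : Finset A,
      (∀ a ∈ F, ∃ l : List Δ, l.length ≤ R ∧ (∀ g ∈ l, g ∈ T ∨ g⁻¹ ∈ T) ∧ σ l.prod = a) →
      (F.card : ℝ) ≤ (C1 * (2 * k0) ^ D) * (R : ℝ) ^ D := by
    intro N
    obtain ⟨r, hr, hV⟩ := hpg (k0 * (N + 1))
    have hk0p : 0 < k0 := by omega
    have hR1 : N + 1 ≤ r / k0 := (Nat.le_div_iff_mul_le hk0p).2 (by rw [mul_comm]; exact hr)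
    refine ⟨r / k0, by omega, fun F hF => ?_⟩
    have h1 : k0 * (r / k0) ≤ r := Nat.mul_div_le r k0
    have h2 : r < k0 * (r / k0 + 1) := by
      have := Nat.lt_mul_div_succ r hk0p
      simpa using this
    have h3 := hfin (k0 * (r / k0)) F (fun a ha => by
      obtain ⟨l, hl1, hl2, hl3⟩ := hF a ha
      refine ⟨(l.prod : Δ).1, (hword l hl2).trans (Nat.mul_le_mul_left _ hl1), hl3⟩)
    have h4 : Vf (k0 * (r / k0)) ≤ (r : ℝ) ^ D := (hmono h1).trans hV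
    have h5 : (r : ℝ) ≤ 2 * k0 * ((r / k0 : ℕ) : ℝ) := by
      have h6 : (r : ℝ) ≤ k0 * (((r / k0 : ℕ) : ℝ) + 1) := by exact_mod_cast h2.le
      have h7 : (1 : ℝ) ≤ ((r / k0 : ℕ) : ℝ) := by
        exact_mod_cast (by omega : 1 ≤ r / k0)
      have h8 : (0 : ℝ) < k0 := by exact_mod_cast hk0p
      nlinarith
    calc (F.card : ℝ) ≤ C1 * Vf (k0 * (r / k0)) := h3
      _ ≤ C1 * (r : ℝ) ^ D := mul_le_mul_of_nonneg_left h4 hC1
      _ ≤ C1 * (2 * k0 * ((r / k0 : ℕ) : ℝ)) ^ D := by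
        refine mul_le_mul_of_nonneg_left ?_ hC1
        exact pow_le_pow_left₀ (Nat.cast_nonneg r) h5 D
      _ = _ := by rw [mul_pow]; ring
  have hcomm := jordan_comm σ (fun g => hρ g.1) D ε hε0 le_rfl T
    (fun t ht => hTX ht) (C1 * (2 * k0) ^ D) hgrow
  have hcl := comm_closure σ (T : Set Δ) hcomm
  set H : Subgroup Γ := (Subgroup.closure (T : Set Δ)).map Δ.subtype with hH
  refine ⟨sat ρ H, ?_, ?_⟩
  · refine fin_index_of_cover _ (F.image (fun f => f.1)) fun g => ?_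
    obtain ⟨g', hg', hgg⟩ := hsat g
    obtain ⟨f, hf, h⟩ := hF ⟨g', hg'⟩
    refine ⟨f.1, Finset.mem_image_of_mem _ hf, ?_⟩
    refine ⟨(f⁻¹ * ⟨g', hg'⟩ : Δ).1, ?_, ?_⟩
    · rw [hH, Subgroup.mem_map]
      refine ⟨f⁻¹ * ⟨g', hg'⟩, ?_, rfl⟩
      rw [hTc]
      exact Subgroup.subset_closure h
    · rw [map_mul, hgg, ← map_mul]
      rfl
  · rintro g ⟨a, ha, hga⟩ k ⟨b, hb, hkb⟩
    rw [hH, Subgroup.mem_map] at ha hb
    obtain ⟨a', ha', rfl⟩ := ha
    obtain ⟨b', hb', rfl⟩ := hb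
    have h5 : σ (a' * b') = σ (b' * a') := hcl a' ha' b' hb'
    rw [map_mul, map_mul] at h5
    rw [map_mul, map_mul, hga, hkb]
    exact h5

end Pool.H61.ST.AbelAbs
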