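import Pool.Agent.H61.ST.Act
import Pool.Agent.H61.ST.AbelAbs

set_option autoImplicit false

/-! The action on Lipschitz harmonic functions is virtually abelian. -/

namespace Pool.H61.ST

open Finset Pool.Agent.H61.SW Pool.H98.C

namespace Abel

variable {V : Type} {G : SimpleGraph V} (hG : TG G)

/-- Lipschitz constant -/
noncomputable def lc (G : SimpleGraph V) (u : V → ℝ) : ℝ := sInf {C : ℝ | 0 ≤ C ∧ Lip G C u}

lemma lc_nonneg (u : V → ℝ) : 0 ≤ lc G u := Real.sInf_nonneg fun _ h => h.1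

lemma lc_le {u : V → ℝ} {C : ℝ} (hC : 0 ≤ C) (h : Lip G C u) : lc G u ≤ C :=
  csInf_le ⟨0, fun _ h => h.1⟩ ⟨hC, h⟩

lemma lip_nonneg {u : V → ℝ} {C : ℝ} (h : Lip G C u) : Lip G (max C 0) u :=
  fun x y hxy => (h x y hxy).trans (le_max_left _ _)

lemma lip_lc {u : V → ℝ} (h : ∃ C, Lip G C u) : Lip G (lc G u) u := by
  obtain ⟨C, hC⟩ := h
  intro x y hxy
  refine le_csInf ⟨max C 0, le_max_right _ _, lip_nonneg hC⟩ ?_
  rintro b ⟨_, hb⟩
  exact hb x y hxy

/-- the space with its norm -/
def W (hG : TG G) (o : V) : Type := ↥(LH hG o)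

noncomputable instance (o : V) : AddCommGroup (W hG o) := inferInstanceAs (AddCommGroup ↥(LH hG o))

noncomputable instance (o : V) : Module ℝ (W hG o) := inferInstanceAs (Module ℝ ↥(LH hG o))

noncomputable instance (o : V) : Norm (W hG o) := ⟨fun u => lc G u.1⟩

lemma norm_def (o : V) (u : W hG o) : ‖u‖ = lc G u.1 := rfl

lemma W.lip (o : V) (u : W hG o) : Lip G ‖u‖ u.1 := lip_lc u.2.2.2

lemma add_coe (o : V) (u v : W hG o) : (u + v).1 = u.1 + v.1 := rfl

lemma smul_coe (o : V) (c : ℝ) (u : W hG o) : (c • u).1 = c • u.1 := rfl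

lemma zero_coe (o : V) : (0 : W hG o).1 = 0 := rfl

lemma norm_smul_le' (o : V) (c : ℝ) (u : W hG o) : ‖c • u‖ ≤ ‖c‖ * ‖u‖ := by
  refine lc_le (mul_nonneg (norm_nonneg _) (lc_nonneg _)) ?_
  intro x y hxy
  rw [smul_coe]
  simp only [Pi.smul_apply, smul_eq_mul]
  rw [← mul_sub, abs_mul]
  exact mul_le_mul_of_nonneg_left (W.lip hG o u x y hxy) (abs_nonneg c)

lemma eq_zero_of_const {o : V} {u : V → ℝ} (h0 : u o = 0) (h : ∀ x y, G.Adj x y → u x = u y)
    (hc : G.Connected) : u = 0 := by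
  have h1 : ∀ (x y : V) (p : G.Walk x y), u x = u y := by
    intro x y p
    induction p with
    | nil => rfl
    | cons h' _ ih => exact (h _ _ h').trans ih
  funext x
  obtain ⟨p⟩ := hc.preconnected x o
  rw [h1 x o p, h0]; rfl

lemma core (o : V) : NormedSpace.Core ℝ (W hG o) where
  norm_nonneg u := lc_nonneg _
  norm_smul c u := by
    refine le_antisymm (norm_smul_le' hG o c u) ?_
    by_cases hc : c = 0
    · subst hc
      rw [norm_zero, zero_mul]; exact lc_nonneg _
    · have h1 := norm_smul_le' hG o c⁻¹ (c • u)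
      rw [smul_smul, inv_mul_cancel₀ hc, one_smul, norm_inv] at h1
      have h2 : 0 < ‖c‖ := norm_pos_iff.2 hc
      calc ‖c‖ * ‖u‖ ≤ ‖c‖ * (‖c‖⁻¹ * ‖c • u‖) := mul_le_mul_of_nonneg_left h1 h2.le
        _ = ‖c • u‖ := by rw [← mul_assoc, mul_inv_cancel₀ h2.ne', one_mul]
  norm_triangle u v := by
    refine lc_le (add_nonneg (lc_nonneg _) (lc_nonneg _)) ?_
    intro x y hxy
    have h1 := W.lip hG o u x y hxy
    have h2 := W.lip hG o v x y hxy
    rw [add_coe]
    simp only [Pi.add_apply]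
    calc |u.1 x + v.1 x - (u.1 y + v.1 y)| = |(u.1 x - u.1 y) + (v.1 x - v.1 y)| := by
          congr 1; ring
      _ ≤ |u.1 x - u.1 y| + |v.1 x - v.1 y| := abs_add_le _ _
      _ ≤ _ := add_le_add h1 h2
  norm_eq_zero_iff u := by
    constructor
    · intro h
      have h1 := W.lip hG o u
      rw [h] at h1
      have h2 : u.1 = 0 := eq_zero_of_const u.2.1 (fun x y hxy => by
        have := h1 x y hxy
        have h3 := abs_nonpos_iff.1 this
        linarith) hG.conn
      exact Subtype.ext h2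
    · rintro rfl
      refine le_antisymm (lc_le le_rfl ?_) (lc_nonneg _)
      intro x y _
      rw [zero_coe]; simp

noncomputable instance (o : V) : NormedAddCommGroup (W hG o) := NormedAddCommGroup.ofCore (core hG o)

noncomputable instance (o : V) : NormedSpace ℝ (W hG o) := NormedSpace.ofCore (core hG o)

lemma norm_def' (o : V) (u : W hG o) : ‖u‖ = lc G u.1 := rfl

/-! ### the action -/

lemma lap_const_sub (u : V → ℝ) (c : ℝ) (x : V) : lap hG (fun y => u y - c) x = lap hG u x := by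
  unfold lap
  exact Finset.sum_congr rfl fun y _ => by ring

lemma act_lip (o : V) (g : G ≃g G) {u : V → ℝ} {C : ℝ} (h : Lip G C u) : Lip G C (act o g u) := by
  intro x y hxy
  have h1 : G.Adj (g.symm x) (g.symm y) := g.symm.map_adj_iff.2 hxy
  have h2 := h _ _ h1
  unfold act
  rw [sub_sub_sub_cancel_right]
  exact h2

lemma act_mem (o : V) (g : G ≃g G) (u : V → ℝ) (hu : u ∈ LH hG o) : act o g u ∈ LH hG o := by
  obtain ⟨h1, h2, C, h3⟩ := hu
  refine ⟨?_, ?_, C, act_lip o g h3⟩
  · unfold act; simp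
  · intro x
    unfold act
    rw [lap_const_sub]
    have := lap_comp hG g.symm u x
    rw [show (fun x => u (g.symm x)) = u ∘ g.symm from rfl, this, h2]

lemma act_mul (o : V) (g h : G ≃g G) (u : V → ℝ) : act o (g * h) u = act o g (act o h u) := by
  funext x
  have e : ∀ z, (g * h).symm z = h.symm (g.symm z) := fun z => rfl
  unfold act
  rw [e, e]; ring

lemma act_one (o : V) (u : V → ℝ) (h : u o = 0) : act o (1 : G ≃g G) u = u := by
  funext x
  unfold act
  have e : ∀ z, (1 : G ≃g G).symm z = z := fun z => rfl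
  rw [e, e, h, sub_zero]

/-- the action as a linear map -/
noncomputable def actL (o : V) (g : G ≃g G) : W hG o →ₗ[ℝ] W hG o where
  toFun u := ⟨act o g u.1, act_mem hG o g u.1 u.2⟩
  map_add' u v := by
    apply Subtype.ext
    funext x
    show act o g (u + v).1 x = act o g u.1 x + act o g v.1 x
    rw [add_coe]
    unfold act
    simp only [Pi.add_apply]; ring
  map_smul' c u := by
    apply Subtype.ext
    funext x
    show act o g (c • u).1 x = c * act o g u.1 x
    rw [smul_coe]
    unfold act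
    simp only [Pi.smul_apply, smul_eq_mul]; ring

lemma actL_coe (o : V) (g : G ≃g G) (u : W hG o) : (actL hG o g u).1 = act o g u.1 := rfl

lemma actL_norm (o : V) (g : G ≃g G) (u : W hG o) : ‖actL hG o g u‖ ≤ 1 * ‖u‖ := by
  rw [one_mul]
  exact lc_le (lc_nonneg _) (act_lip o g (W.lip hG o u))

/-- the action as a homomorphism to bounded operators -/
noncomputable def rho (o : V) : (G ≃g G) →* (W hG o →L[ℝ] W hG o) where
  toFun g := (actL hG o g).mkContinuous 1 (actL_norm hG o g)
  map_one' := by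
    ext u
    apply Subtype.ext
    show act o 1 u.1 = u.1
    exact act_one o u.1 u.2.1
  map_mul' g h := by
    ext u
    apply Subtype.ext
    show act o (g * h) u.1 = act o g (act o h u.1)
    exact act_mul o g h u.1

lemma rho_coe (o : V) (g : G ≃g G) (u : W hG o) : (rho hG o g u).1 = act o g u.1 := rfl

lemma rho_norm (o : V) (g : G ≃g G) : ‖rho hG o g‖ ≤ 1 :=
  (actL hG o g).mkContinuous_norm_le zero_le_one (actL_norm hG o g)

/-! ### finitely many operators -/

/-- functions vanishing on the ball of radius `R` -/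
noncomputable def ker (o : V) (R : ℕ) : Submodule ℝ (W hG o) where
  carrier := {u | ∀ x ∈ bl hG o R, u.1 x = 0}
  add_mem' := by
    intro a b ha hb x hx
    rw [add_coe, Pi.add_apply, ha x hx, hb x hx, add_zero]
  zero_mem' := fun x _ => rfl
  smul_mem' := by
    intro c a ha x hx
    rw [smul_coe, Pi.smul_apply, ha x hx, smul_zero]

lemma exists_det (o : V) (hfd : Module.Finite ℝ (LH hG o)) :
    ∃ R : ℕ, ∀ u ∈ LH hG o, (∀ x ∈ bl hG o R, u x = 0) → u = 0 := by
  have hfd' : Module.Finite ℝ (W hG o) := hfd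
  have hanti : Antitone (ker hG o) := by
    intro m n hmn u hu x hx
    refine hu x ?_
    rw [mem_bl] at hx ⊢
    exact hx.trans hmn
  obtain ⟨n, hn⟩ := IsArtinian.monotone_stabilizes (R := ℝ) (M := W hG o)
    ⟨fun R => OrderDual.toDual (ker hG o R), fun m n hmn => hanti hmn⟩
  refine ⟨n, fun u hu h => ?_⟩
  funext x
  have h1 : (⟨u, hu⟩ : W hG o) ∈ ker hG o n := h
  have h2 : ker hG o n = ker hG o (max n (G.dist o x)) := hn _ (le_max_left _ _)
  rw [h2] at h1
  have := h1 x (by rw [mem_bl]; exact le_max_right _ _)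
  exact this

lemma rho_eq_of_agree (o : V) (R : ℕ)
    (hR : ∀ u ∈ LH hG o, (∀ x ∈ bl hG o R, u x = 0) → u = 0) (g h : G ≃g G)
    (hgh : ∀ x ∈ bl hG o R, g.symm x = h.symm x) : rho hG o g = rho hG o h := by
  ext u
  apply Subtype.ext
  rw [rho_coe, rho_coe]
  have h1 : act o g u.1 - act o h u.1 ∈ LH hG o :=
    (LH hG o).sub_mem (act_mem hG o g u.1 u.2) (act_mem hG o h u.1 u.2)
  have h2 := hR _ h1 (by
    intro x hx
    simp only [Pi.sub_apply, act]
    rw [hgh x hx, hgh o (self_mem_bl hG o R), sub_self])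
  exact sub_eq_zero.1 h2

lemma finite_stab (o : V) (R : ℕ)
    (hR : ∀ u ∈ LH hG o, (∀ x ∈ bl hG o R, u x = 0) → u = 0) :
    (rho hG o '' {g | g o = o}).Finite := by
  classical
  have hmap : ∀ g : G ≃g G, g o = o → ∀ x : ↥(bl hG o R), g.symm x.1 ∈ bl hG o R := by
    intro g hg x
    rw [mem_bl]
    have h1 : g.symm o = o := by
      rw [RelIso.symm_apply_eq]; exact hg.symm
    have h2 := dist_iso hG.conn g.symm o x.1
    rw [h1] at h2
    rw [h2]
    exact (mem_bl hG _ _ _).1 x.2
  let f : (↥(bl hG o R) → ↥(bl hG o R)) → (W hG o →L[ℝ] W hG o) := fun φ =>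
    if h : ∃ g : G ≃g G, g o = o ∧ ∀ x : ↥(bl hG o R), g.symm x.1 = (φ x).1 then
      rho hG o h.choose else 1
  refine (Set.finite_range f).subset ?_
  rintro a ⟨g, hg, rfl⟩
  refine ⟨fun x => ⟨g.symm x.1, hmap g hg x⟩, ?_⟩
  have h : ∃ g' : G ≃g G, g' o = o ∧ ∀ x : ↥(bl hG o R), g'.symm x.1 = g.symm x.1 :=
    ⟨g, hg, fun x => rfl⟩
  show (if h : ∃ g' : G ≃g G, g' o = o ∧ ∀ x : ↥(bl hG o R), g'.symm x.1 = g.symm x.1 then
      rho hG o h.choose else 1) = _
  rw [dif_pos h]
  refine rho_eq_of_agree hG o R hR _ _ fun x hx => ?_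
  exact h.choose_spec.2 ⟨x, hx⟩

lemma card_rho (o : V) (R : ℕ)
    (hR : ∀ u ∈ LH hG o, (∀ x ∈ bl hG o R, u x = 0) → u = 0) (r : ℕ)
    (F : Finset (W hG o →L[ℝ] W hG o))
    (hF : ∀ a ∈ F, ∃ g : G ≃g G, G.dist o (g o) ≤ r ∧ rho hG o g = a) :
    F.card ≤ (finite_stab hG o R hR).toFinset.card * (bl hG o r).card := by
  classical
  rw [← Finset.card_product]
  have h1 : F ⊆ ((finite_stab hG o R hR).toFinset ×ˢ bl hG o r).image
      (fun p => p.1 * rho hG o (tau hG o p.2)⁻¹) := by
    intro a ha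
    obtain ⟨g, hg, rfl⟩ := hF a ha
    rw [Finset.mem_image]
    refine ⟨(rho hG o (g * tau hG o (g.symm o)), g.symm o), ?_, ?_⟩
    · rw [Finset.mem_product]
      refine ⟨?_, ?_⟩
      · rw [Set.Finite.mem_toFinset]
        refine ⟨_, ?_, rfl⟩
        show g (tau hG o (g.symm o) o) = o
        rw [tau_apply]
        exact g.apply_symm_apply o
      · rw [mem_bl]
        have := dist_iso hG.conn g o (g.symm o)
        rw [g.apply_symm_apply] at this
        rw [← this, SimpleGraph.dist_comm]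
        exact hg
    · show rho hG o (g * tau hG o (g.symm o)) * rho hG o (tau hG o (g.symm o))⁻¹ = _
      rw [← map_mul, mul_assoc, mul_inv_cancel, mul_one]
  exact (Finset.card_le_card h1).trans Finset.card_image_le

include hG in
lemma exists_prev (o z : V) (n : ℕ) (hn : G.dist o z = n + 1) :
    ∃ y, G.dist o y = n ∧ G.dist y z ≤ 1 := by
  obtain ⟨p, hp⟩ := hG.conn.exists_walk_length_eq_dist z o
  rw [SimpleGraph.dist_comm, hn] at hp
  cases p with
  | nil => simp at hp
  | @cons _ y _ h q =>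
    rw [SimpleGraph.Walk.length_cons] at hp
    have h1 : G.dist y o ≤ n := by
      have := SimpleGraph.dist_le q
      omega
    have h2 : G.dist y z ≤ 1 := by
      rw [SimpleGraph.dist_comm, SimpleGraph.dist_eq_one_iff_adj.2 h]
    have h3 := hG.tri o y z
    rw [hn] at h3
    rw [SimpleGraph.dist_comm] at h1
    exact ⟨y, by omega, h2⟩

include hG in
lemma gen (o : V) (g : G ≃g G) :
    g ∈ Subgroup.closure {s : G ≃g G | G.dist o (s o) ≤ 1} := by
  induction hn : G.dist o (g o) generalizing g with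
  | zero => exact Subgroup.subset_closure (by simp [hn])
  | succ n ih =>
    obtain ⟨y, hy1, hy2⟩ : ∃ y, G.dist o y = n ∧ G.dist y (g o) ≤ 1 :=
      exists_prev hG o (g o) n hn
    have h1 : tau hG o y ∈ Subgroup.closure {s : G ≃g G | G.dist o (s o) ≤ 1} :=
      ih (tau hG o y) (by rw [tau_apply]; exact hy1)
    have h2 : (tau hG o y)⁻¹ * g ∈ Subgroup.closure {s : G ≃g G | G.dist o (s o) ≤ 1} := by
      refine Subgroup.subset_closure ?_
      show G.dist o ((tau hG o y).symm (g o)) ≤ 1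
      have := dist_iso hG.conn (tau hG o y) o ((tau hG o y).symm (g o))
      rw [RelIso.apply_symm_apply, tau_apply] at this
      rw [← this]; exact hy2
    have h3 := Subgroup.mul_mem _ h1 h2
    rwa [mul_inv_cancel_left] at h3

end Abel

variable {V : Type} {G : SimpleGraph V} (hG : TG G)

theorem virt_abel (o : V) (D : ℕ) (hpg : PG hG o D) (hfd : Module.Finite ℝ (LH hG o)) :
    ∃ Γ₀ : Subgroup (G ≃g G), Γ₀.FiniteIndex ∧ ∀ g ∈ Γ₀, ∀ h ∈ Γ₀, ∀ u ∈ LH hG o,
      act o (g * h) u = act o (h * g) u := by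
  classical
  obtain ⟨R, hR⟩ := Abel.exists_det hG o hfd
  have hfd' : Module.Finite ℝ (Abel.W hG o) := hfd
  have hprop : ProperSpace (Abel.W hG o →L[ℝ] Abel.W hG o) :=
    FiniteDimensional.proper ℝ _
  have hA : TotallyBounded (Set.range (Abel.rho hG o)) := by
    refine TotallyBounded.subset ?_ (isCompact_closedBall
      (0 : Abel.W hG o →L[ℝ] Abel.W hG o) 1).totallyBounded
    rintro a ⟨g, rfl⟩
    rw [mem_closedBall_zero_iff]
    exact Abel.rho_norm hG o g
  obtain ⟨Γ₀, h1, h2⟩ := AbelAbs.abs_abel (Abel.rho hG o) hA (Abel.rho_norm hG o) D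
    (fun g => G.dist o (g o)) (by simp)
    (fun g h => by
      show G.dist o (g (h o)) ≤ _
      have h3 := hG.tri o (g o) (g (h o))
      rw [dist_iso hG.conn g o (h o)] at h3
      exact h3)
    (fun g => by
      show G.dist o (g.symm o) = _
      have h3 := dist_iso hG.conn g o (g.symm o)
      rw [g.apply_symm_apply] at h3
      rw [← h3, SimpleGraph.dist_comm])
    (Abel.gen hG o) ((Abel.finite_stab hG o R hR).toFinset.card : ℝ) (Nat.cast_nonneg _)
    (fun r => ((bl hG o r).card : ℝ))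
    (fun m n hmn => by
      show ((bl hG o m).card : ℝ) ≤ ((bl hG o n).card : ℝ)
      exact_mod_cast Finset.card_le_card (fun x hx => by
        rw [mem_bl] at hx ⊢
        exact hx.trans hmn))
    (fun r F hF => by
      have := Abel.card_rho hG o R hR r F hF
      exact_mod_cast this)
    hpg
  refine ⟨Γ₀, h1, fun g hg h hh u hu => ?_⟩
  have h3 := h2 g hg h hh
  have h4 : Abel.rho hG o (g * h) ⟨u, hu⟩ = Abel.rho hG o (h * g) ⟨u, hu⟩ := by rw [h3]
  exact congrArg Subtype.val h4

end Pool.H61.ST
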