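import Pool.Agent.H61.ST.Defs

set_option autoImplicit false

/-! The action of the automorphism group on functions vanishing at the base point. -/

namespace Pool.H61.ST

open Finset Pool.Agent.H61.SW Pool.H98.C

variable {V : Type} {G : SimpleGraph V}

/-- action on functions vanishing at `o` -/
def act (o : V) (g : G ≃g G) (u : V → ℝ) : V → ℝ := fun x => u (g.symm x) - u (g.symm o)

end Pool.H61.ST
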