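import Pool.Agent.H61.ST.Defs

set_option autoImplicit false

/-! Module CACC: Caccioppoli inequality for harmonic functions. -/

namespace Pool.H61.ST

open Finset Pool.Agent.H61.SW Pool.H98.C

section CACC
variable {V : Type} {G : SimpleGraph V} (hG : TG G)

/-- cutoff function -/
private noncomputable def zt (z : V) (G : SimpleGraph V) (R : ℕ) (x : V) : ℝ :=
  max 0 (min 1 ((2 * R - G.dist z x : ℝ) / R))

private lemma zt_one (z : V) (R : ℕ) (hR : 1 ≤ R) (x : V) (hx : G.dist z x ≤ R) :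
    zt z G R x = 1 := by
  unfold zt
  have h1 : (0 : ℝ) < R := by exact_mod_cast hR
  have h2 : (1 : ℝ) ≤ (2 * R - G.dist z x : ℝ) / R := by
    rw [le_div_iff₀ h1]
    have : (G.dist z x : ℝ) ≤ R := by exact_mod_cast hx
    linarith
  rw [min_eq_left h2, max_eq_right zero_le_one]

private lemma zt_zero (z : V) (R : ℕ) (hR : 1 ≤ R) (x : V) (hx : 2 * R ≤ G.dist z x) :
    zt z G R x = 0 := by
  unfold zt
  have h1 : (0 : ℝ) < R := by exact_mod_cast hR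
  have h2 : (2 * R - G.dist z x : ℝ) / R ≤ 0 := by
    apply div_nonpos_of_nonpos_of_nonneg _ h1.le
    have : (2 * R : ℝ) ≤ G.dist z x := by exact_mod_cast hx
    linarith
  exact max_eq_left ((min_le_right _ _).trans h2)

private lemma zt_sub (z : V) (R : ℕ) (hR : 1 ≤ R) (x y : V) (hx : G.dist z x ≤ G.dist z y + 1)
    (hy : G.dist z y ≤ G.dist z x + 1) : (zt z G R x - zt z G R y) ^ 2 ≤ 1 / (R : ℝ) ^ 2 := by
  have h1 : (0 : ℝ) < R := by exact_mod_cast hR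
  have h2 : |zt z G R x - zt z G R y| ≤ 1 / R := by
    unfold zt
    refine (abs_max_sub_max_le_max _ _ _ _).trans ?_
    rw [sub_self, abs_zero, max_le_iff]
    refine ⟨by positivity, (abs_min_sub_min_le_max _ _ _ _).trans ?_⟩
    rw [sub_self, abs_zero, max_le_iff]
    refine ⟨by positivity, ?_⟩
    rw [← sub_div, abs_div, abs_of_pos h1]
    apply div_le_div_of_nonneg_right _ h1.le
    have h3 : (G.dist z x : ℝ) ≤ G.dist z y + 1 := by exact_mod_cast hx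
    have h4 : (G.dist z y : ℝ) ≤ G.dist z x + 1 := by exact_mod_cast hy
    rw [abs_le]
    constructor <;> linarith
  calc (zt z G R x - zt z G R y) ^ 2 = |zt z G R x - zt z G R y| ^ 2 := (sq_abs _).symm
    _ ≤ (1 / R) ^ 2 := pow_le_pow_left₀ (abs_nonneg _) h2 2
    _ = 1 / (R : ℝ) ^ 2 := by rw [div_pow, one_pow]

private lemma key_ineq (s t p q : ℝ) :
    (s ^ 2 + t ^ 2) * (p - q) ^ 2 ≤
      4 * ((p - q) * (s ^ 2 * p - t ^ 2 * q)) + 2 * ((s - t) ^ 2 * (p + q) ^ 2) := by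
  nlinarith [sq_nonneg ((s + t) * (p - q) + 2 * ((s - t) * (p + q))),
    sq_nonneg ((s - t) * (p - q))]

theorem caccioppoli (u : V → ℝ) (hu : ∀ x, lap hG u x = 0) (z : V) (R : ℕ) (hR : 1 ≤ R) :
    ∑ a ∈ bl hG z R, gr hG u a ≤
      (8 * dg hG z : ℝ) / (R : ℝ) ^ 2 * ∑ a ∈ bl hG z (3 * R), (u a) ^ 2 := by
  classical
  have hR0 : (0 : ℝ) < R := by exact_mod_cast hR
  set B := bl hG z (3 * R) with hB
  set ζ := zt z G R with hζ
  -- neighbours inside the big ball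
  let N : V → Finset V := fun x => (nb hG x).filter (fun y => y ∈ B)
  have hadj : ∀ x y, G.Adj x y → G.dist z y ≤ G.dist z x + 1 := by
    intro x y h
    have h1 := hG.tri z x y
    have h2 : G.dist x y ≤ 1 := by
      rw [SimpleGraph.dist_eq_one_iff_adj.2 h]
    omega
  have hN : ∀ x, G.dist z x ≤ 2 * R → N x = nb hG x := by
    intro x hx
    apply Finset.filter_true_of_mem
    intro y hy
    rw [hB, mem_bl]
    have := hadj x y ((mem_nb hG).1 hy)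
    omega
  -- symmetry of double sums
  have hsym : ∀ F : V → V → ℝ, ∑ x ∈ B, ∑ y ∈ N x, F x y = ∑ x ∈ B, ∑ y ∈ N x, F y x := by
    intro F
    have hmem : ∀ x y, (x ∈ B ∧ y ∈ N x) ↔ (x ∈ N y ∧ y ∈ B) := by
      intro x y
      simp only [N, Finset.mem_filter, mem_nb, G.adj_comm x y]
      tauto
    rw [Finset.sum_comm' hmem]
  have h0 : ∑ x ∈ B, ∑ y ∈ N x, (u x - u y) * (ζ x ^ 2 * u x) = 0 := by
    apply Finset.sum_eq_zero
    intro x _
    by_cases hx : G.dist z x ≤ 2 * R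
    · rw [hN x hx, ← Finset.sum_mul]
      have : ∑ y ∈ nb hG x, (u x - u y) = 0 := by
        have h1 := hu x
        unfold lap at h1
        rw [← neg_eq_zero, ← h1, ← Finset.sum_neg_distrib]
        exact Finset.sum_congr rfl fun y _ => by ring
      rw [this, zero_mul]
    · have : ζ x = 0 := zt_zero z R hR x (by omega)
      rw [this]
      simp
  have h1 : ∑ x ∈ B, ∑ y ∈ N x, (u x - u y) * (ζ x ^ 2 * u x - ζ y ^ 2 * u y) = 0 := by
    have h2 : ∑ x ∈ B, ∑ y ∈ N x, (u x - u y) * (ζ y ^ 2 * u y) = 0 := by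
      rw [hsym]
      rw [← neg_eq_zero, ← h0, ← Finset.sum_neg_distrib]
      refine Finset.sum_congr rfl fun x _ => ?_
      rw [← Finset.sum_neg_distrib]
      exact Finset.sum_congr rfl fun y _ => by ring
    calc ∑ x ∈ B, ∑ y ∈ N x, (u x - u y) * (ζ x ^ 2 * u x - ζ y ^ 2 * u y)
        = ∑ x ∈ B, ∑ y ∈ N x, (u x - u y) * (ζ x ^ 2 * u x)
          - ∑ x ∈ B, ∑ y ∈ N x, (u x - u y) * (ζ y ^ 2 * u y) := by
          rw [← Finset.sum_sub_distrib]
          refine Finset.sum_congr rfl fun x _ => ?_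
          rw [← Finset.sum_sub_distrib]
          exact Finset.sum_congr rfl fun y _ => by ring
      _ = 0 := by rw [h0, h2, sub_zero]
  -- lower bound
  have h2 : ∑ a ∈ bl hG z R, gr hG u a ≤
      ∑ x ∈ B, ∑ y ∈ N x, (ζ x ^ 2 + ζ y ^ 2) * (u x - u y) ^ 2 := by
    have hsub : bl hG z R ⊆ B := by
      intro x hx
      rw [mem_bl] at hx
      rw [hB, mem_bl]
      omega
    refine le_trans ?_ (Finset.sum_le_sum_of_subset_of_nonneg hsub ?_)
    · refine Finset.sum_le_sum fun x hx => ?_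
      rw [mem_bl] at hx
      rw [hN x (by omega)]
      unfold gr
      refine Finset.sum_le_sum fun y _ => ?_
      have h3 : ζ x = 1 := zt_one z R hR x hx
      rw [h3]
      nlinarith [sq_nonneg (u x - u y), mul_nonneg (sq_nonneg (ζ y)) (sq_nonneg (u x - u y))]
    · intro x _ _
      exact Finset.sum_nonneg fun y _ => by positivity
  -- upper bound
  have h3 : ∑ x ∈ B, ∑ y ∈ N x, (ζ x ^ 2 + ζ y ^ 2) * (u x - u y) ^ 2 ≤
      ∑ x ∈ B, ∑ y ∈ N x, (4 * ((u x - u y) * (ζ x ^ 2 * u x - ζ y ^ 2 * u y)) +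
        4 / (R : ℝ) ^ 2 * (u x ^ 2 + u y ^ 2)) := by
    refine Finset.sum_le_sum fun x _ => Finset.sum_le_sum fun y hy => ?_
    have hxy : G.Adj x y := (mem_nb hG).1 (Finset.mem_filter.1 hy).1
    have h4 := key_ineq (ζ x) (ζ y) (u x) (u y)
    have h5 : (ζ x - ζ y) ^ 2 ≤ 1 / (R : ℝ) ^ 2 :=
      zt_sub z R hR x y (hadj y x hxy.symm) (hadj x y hxy)
    have h6 : (ζ x - ζ y) ^ 2 * (u x + u y) ^ 2 ≤ 1 / (R : ℝ) ^ 2 * (2 * (u x ^ 2 + u y ^ 2)) := by
      apply mul_le_mul h5 _ (sq_nonneg _) (by positivity)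
      nlinarith [sq_nonneg (u x - u y)]
    have h7 : 4 / (R : ℝ) ^ 2 * (u x ^ 2 + u y ^ 2) =
        2 * (1 / (R : ℝ) ^ 2 * (2 * (u x ^ 2 + u y ^ 2))) := by ring
    rw [h7]
    linarith
  have h4 : ∑ x ∈ B, ∑ y ∈ N x, (4 * ((u x - u y) * (ζ x ^ 2 * u x - ζ y ^ 2 * u y)) +
        4 / (R : ℝ) ^ 2 * (u x ^ 2 + u y ^ 2)) =
      4 / (R : ℝ) ^ 2 * ∑ x ∈ B, ∑ y ∈ N x, (u x ^ 2 + u y ^ 2) := by
    have : ∑ x ∈ B, ∑ y ∈ N x, (4 * ((u x - u y) * (ζ x ^ 2 * u x - ζ y ^ 2 * u y)) +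
        4 / (R : ℝ) ^ 2 * (u x ^ 2 + u y ^ 2)) =
        4 * ∑ x ∈ B, ∑ y ∈ N x, (u x - u y) * (ζ x ^ 2 * u x - ζ y ^ 2 * u y) +
        4 / (R : ℝ) ^ 2 * ∑ x ∈ B, ∑ y ∈ N x, (u x ^ 2 + u y ^ 2) := by
      rw [Finset.mul_sum, Finset.mul_sum, ← Finset.sum_add_distrib]
      refine Finset.sum_congr rfl fun x _ => ?_
      rw [Finset.mul_sum, Finset.mul_sum, ← Finset.sum_add_distrib]
    rw [this, h1, mul_zero, zero_add]
  have h5 : ∑ x ∈ B, ∑ y ∈ N x, (u x ^ 2 + u y ^ 2) ≤ 2 * dg hG z * ∑ a ∈ B, (u a) ^ 2 := by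
    have h6 : ∑ x ∈ B, ∑ y ∈ N x, (u x ^ 2 + u y ^ 2) = 2 * ∑ x ∈ B, ∑ y ∈ N x, u x ^ 2 := by
      have : ∑ x ∈ B, ∑ y ∈ N x, (u x ^ 2 + u y ^ 2) =
          ∑ x ∈ B, ∑ y ∈ N x, u x ^ 2 + ∑ x ∈ B, ∑ y ∈ N x, u y ^ 2 := by
        simp only [Finset.sum_add_distrib]
      rw [this, hsym (fun x y => u y ^ 2)]
      ring
    rw [h6, mul_assoc]
    apply mul_le_mul_of_nonneg_left _ zero_le_two
    rw [Finset.mul_sum]
    refine Finset.sum_le_sum fun x _ => ?_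
    rw [Finset.sum_const, nsmul_eq_mul]
    apply mul_le_mul_of_nonneg_right _ (sq_nonneg _)
    rw [dg_eq hG z x]
    exact_mod_cast Finset.card_le_card (Finset.filter_subset _ _)
  calc ∑ a ∈ bl hG z R, gr hG u a ≤ _ := h2
    _ ≤ _ := h3
    _ = _ := h4
    _ ≤ 4 / (R : ℝ) ^ 2 * (2 * dg hG z * ∑ a ∈ B, (u a) ^ 2) :=
        mul_le_mul_of_nonneg_left h5 (by positivity)
    _ = _ := by ring

end CACC

end Pool.H61.ST
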