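import Pool.Agent.H61.ST.Defs
import Pool.Agent.H61.SWModular

set_option autoImplicit false

/-! Unimodularity and subexponential growth from polynomial growth along a subsequence. -/

namespace Pool.H61.ST

open Finset Pool.Agent.H61.SW Pool.H98.C Filter

variable {V : Type} {G : SimpleGraph V} (hG : TG G)

include hG in
lemma exists_mid (x z : V) (m n : ℕ) (h : G.dist x z ≤ m + n) :
    ∃ y, G.dist x y ≤ m ∧ G.dist y z ≤ n := by
  obtain ⟨p, hp⟩ := hG.conn.exists_walk_length_eq_dist x z
  refine ⟨p.getVert m, ?_, ?_⟩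
  · refine (SimpleGraph.dist_le (p.take m)).trans ?_
    rw [SimpleGraph.Walk.take_length]
    exact min_le_left _ _
  · refine (SimpleGraph.dist_le (p.drop m)).trans ?_
    rw [SimpleGraph.Walk.drop_length]
    omega

lemma card_bl_add (x : V) (m n : ℕ) :
    (bl hG x (m + n)).card ≤ (bl hG x m).card * (bl hG x n).card := by
  classical
  have h1 : bl hG x (m + n) ⊆ (bl hG x m).biUnion (fun y => bl hG y n) := by
    intro z hz
    rw [mem_bl] at hz
    obtain ⟨y, h1, h2⟩ := exists_mid hG x z m n hz
    exact Finset.mem_biUnion.2 ⟨y, (mem_bl hG x y m).2 h1, (mem_bl hG y z n).2 h2⟩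
  refine (Finset.card_le_card h1).trans (Finset.card_biUnion_le.trans ?_)
  rw [Finset.sum_congr rfl fun y _ => card_bl hG y x n, Finset.sum_const, smul_eq_mul]

lemma bl_mono (x : V) {m n : ℕ} (h : m ≤ n) : bl hG x m ⊆ bl hG x n := by
  intro z hz
  rw [mem_bl] at *
  omega

theorem subexp (o : V) (D : ℕ) (hpg : PG hG o D) (q : ℝ) (hq : 1 < q) :
    ∃ C : ℝ, 0 < C ∧ ∀ n : ℕ, ((bl hG o n).card : ℝ) ≤ C * q ^ n := by
  have hq0 : 0 < q := by linarith
  obtain ⟨N, hN⟩ : ∃ N : ℕ, ∀ r ≥ N, (r : ℝ) ^ D ≤ q ^ r := by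
    have h1 := tendsto_pow_const_div_const_pow_of_one_lt D hq
    have h2 := h1.eventually (gt_mem_nhds (zero_lt_one))
    obtain ⟨N, hN⟩ := eventually_atTop.1 h2
    refine ⟨N, fun r hr => ?_⟩
    have h3 := hN r hr
    rw [div_lt_one (by positivity)] at h3
    exact h3.le
  obtain ⟨r, hr1, hr2⟩ := hpg (N + 1)
  have hr : 0 < r := by omega
  have hVr : ((bl hG o r).card : ℝ) ≤ q ^ r := hr2.trans (hN r (by omega))
  have hk : ∀ k s : ℕ, ((bl hG o (k * r + s)).card : ℝ) ≤ (q ^ r) ^ k * (bl hG o s).card := by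
    intro k s
    induction k with
    | zero => simp
    | succ k ih =>
      have h1 := card_bl_add hG o r (k * r + s)
      have e : (k + 1) * r + s = r + (k * r + s) := by ring
      rw [e]
      have h2 : ((bl hG o (r + (k * r + s))).card : ℝ) ≤
          (bl hG o r).card * (bl hG o (k * r + s)).card := by exact_mod_cast h1
      refine h2.trans ?_
      rw [pow_succ', mul_assoc]
      exact mul_le_mul hVr ih (by positivity) (by positivity)
  refine ⟨(bl hG o r).card, by exact_mod_cast card_bl_pos hG o r, fun n => ?_⟩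
  have h1 := hk (n / r) (n % r)
  have e : n / r * r + n % r = n := by rw [mul_comm]; exact Nat.div_add_mod n r
  rw [e] at h1
  have h2 : ((bl hG o (n % r)).card : ℝ) ≤ (bl hG o r).card := by
    exact_mod_cast Finset.card_le_card (bl_mono hG o (Nat.mod_lt n hr).le)
  have h3 : (q ^ r) ^ (n / r) ≤ q ^ n := by
    rw [← pow_mul]
    exact pow_le_pow_right₀ hq.le (Nat.mul_div_le n r)
  calc ((bl hG o n).card : ℝ) ≤ (q ^ r) ^ (n / r) * (bl hG o (n % r)).card := h1
    _ ≤ q ^ n * (bl hG o r).card := mul_le_mul h3 h2 (by positivity) (by positivity)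
    _ = (bl hG o r).card * q ^ n := mul_comm _ _

include hG in
lemma mrat_self' (u : V) : mrat G u u = 1 := by
  unfold mrat
  have := Pool.Agent.H61.SW.orb_pos hG.lf hG.conn u u
  rw [div_self]
  exact_mod_cast this.ne'

include hG in
lemma mrat_eq_one_of_adj (h : ∀ u v, G.Adj u v → mrat G u v = 1) (x y : V) : mrat G x y = 1 := by
  obtain ⟨p⟩ := hG.conn.preconnected x y
  induction p with
  | nil => exact mrat_self' hG _
  | cons hadj p ih => rw [← mrat_mul hG.lf hG.conn _ _ _, h _ _ hadj, ih, one_mul]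

theorem unimod_of_PG (o : V) (D : ℕ) (hpg : PG hG o D) :
    ∀ x y, (Pool.H98.C.orb G x y).ncard = (Pool.H98.C.orb G y x).ncard := by
  -- it suffices that all ratios of adjacent vertices are at most one
  have key : ∀ u v, G.Adj u v → mrat G u v ≤ 1 := by
    intro u v huv
    by_contra hlt
    push Not at hlt
    set lam := mrat G u v with hlam
    have hseq : ∀ n : ℕ, ∃ x, G.dist u x ≤ n ∧ mrat G u x = lam ^ n := by
      intro n
      induction n with
      | zero => exact ⟨u, by simp, by rw [mrat_self' hG, pow_zero]⟩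
      | succ n ih =>
        obtain ⟨x, h1, h2⟩ := ih
        obtain ⟨φ, hφ⟩ := hG.tr u x
        refine ⟨φ v, ?_, ?_⟩
        · have h3 : G.dist x (φ v) = G.dist u v := by rw [← hφ]; exact dist_iso hG.conn φ u v
          have h4 := hG.tri u x (φ v)
          have h5 : G.dist u v = 1 := SimpleGraph.dist_eq_one_iff_adj.2 huv
          omega
        · rw [← mrat_mul hG.lf hG.conn u x (φ v), h2]
          have : mrat G x (φ v) = lam := by rw [← hφ]; exact mrat_map φ u v
          rw [this, pow_succ]
    have hbd : ∀ n : ℕ, lam ^ n ≤ ((bl hG o n).card : ℝ) := by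
      intro n
      obtain ⟨x, h1, h2⟩ := hseq n
      rw [← h2]
      have h3 : (Pool.Agent.H61.SW.orb G u x).ncard ≤ (bl hG u n).card := by
        rw [← Set.ncard_coe_finset]
        apply Set.ncard_le_ncard _ (Finset.finite_toSet _)
        rintro w ⟨φ, h4, rfl⟩
        simp only [Finset.mem_coe, mem_bl]
        calc G.dist u (φ x) = G.dist (φ u) (φ x) := by rw [h4]
          _ = G.dist u x := dist_iso hG.conn φ u x
          _ ≤ n := h1
      have h5 := Pool.Agent.H61.SW.orb_pos hG.lf hG.conn x u
      have h6 : mrat G u x ≤ (Pool.Agent.H61.SW.orb G u x).ncard := by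
        unfold mrat
        apply div_le_self (by positivity)
        exact_mod_cast h5
      refine h6.trans ?_
      rw [card_bl hG o u n]
      exact_mod_cast h3
    set q := (1 + lam) / 2 with hq
    have hq1 : 1 < q := by rw [hq]; linarith
    have hq2 : q < lam := by rw [hq]; linarith
    have hq0 : 0 < q := by linarith
    obtain ⟨C, hC, hsub⟩ := subexp hG o D hpg q hq1
    obtain ⟨n, hn⟩ := pow_unbounded_of_one_lt C ((one_lt_div hq0).2 hq2)
    have h7 := (hbd n).trans (hsub n)
    rw [div_pow, lt_div_iff₀ (by positivity)] at hn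
    linarith
  have key' : ∀ u v, G.Adj u v → mrat G u v = 1 := by
    intro u v huv
    have h1 := key u v huv
    have h2 := key v u huv.symm
    rw [mrat_symm] at h2
    have h3 := mrat_pos hG.lf hG.conn u v
    have h4 := (inv_le_one₀ h3).1 h2
    exact le_antisymm h1 h4
  intro x y
  have h := mrat_eq_one_of_adj hG key' x y
  unfold mrat at h
  have h4 := Pool.Agent.H61.SW.orb_pos hG.lf hG.conn y x
  rw [div_eq_one_iff_eq (by exact_mod_cast h4.ne')] at h
  rw [orb_eq_orb, orb_eq_orb]
  exact_mod_cast h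

end Pool.H61.ST
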