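import Pool.Agent.H61.ST.CaseE0
import Pool.Agent.H61.ST.Unim
import Pool.Agent.H98.C.Fin4

set_option autoImplicit false

/-! Limits of polynomial growth along a subsequence but with superquadratic growth. -/

namespace Pool.H61.ST

open Finset Pool.Agent.H61.SW Pool.H98.C

variable {V : Type} {G : SimpleGraph V}

/-- doubling scales -/
lemma exists_doubling (hG : TG G) (o : V) (D : ℕ) (hpg : PG hG o D) (C : ℕ) (hC : 2 ≤ C)
    (n0 : ℕ) : ∃ n ≥ n0, bb hG o (C * n) ≤ (C : ℝ) ^ (D + 1) * bb hG o n := by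
  by_contra hcon
  push Not at hcon
  obtain ⟨n1, hn1⟩ : ∃ n1, n1 = max n0 1 := ⟨_, rfl⟩
  have h1 : 1 ≤ n1 := by omega
  have h0 : n0 ≤ n1 := by omega
  have hCr : (2 : ℝ) ≤ C := by exact_mod_cast hC
  have key : ∀ j : ℕ, ((C : ℝ) ^ (D + 1)) ^ j ≤ bb hG o (C ^ j * n1) := by
    intro j
    induction j with
    | zero => rw [pow_zero]; exact bb_one_le hG _
    | succ j ih =>
      have h2 := hcon (C ^ j * n1) (h0.trans (Nat.le_mul_of_pos_left _ (by positivity)))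
      have h3 : C ^ (j + 1) * n1 = C * (C ^ j * n1) := by ring
      rw [h3, pow_succ']
      exact (mul_le_mul_of_nonneg_left ih (by positivity)).trans h2.le
  obtain ⟨r, hr1, hr2⟩ := hpg ((C * n1) ^ (D + 1))
  have hn1r : n1 ≤ r := by
    refine le_trans ?_ hr1
    calc n1 ≤ C * n1 := Nat.le_mul_of_pos_left _ (by omega)
      _ ≤ (C * n1) ^ (D + 1) := Nat.le_self_pow (by omega) _
  obtain ⟨j, hj⟩ : ∃ j, j = Nat.log C (r / n1) := ⟨_, rfl⟩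
  have h2 : C ^ j ≤ r / n1 := by
    rw [hj]; exact Nat.pow_log_le_self C (Nat.div_pos hn1r h1).ne'
  have h3 : r / n1 < C ^ (j + 1) := by
    rw [hj]; exact Nat.lt_pow_succ_log_self (by omega) _
  have h4 : C ^ j * n1 ≤ r := (Nat.le_div_iff_mul_le h1).1 h2
  have h5 : r < C ^ (j + 1) * n1 := (Nat.div_lt_iff_lt_mul h1).1 h3
  have h6 := (key j).trans (bb_mono hG h4)
  have h7 : bb hG o r ≤ (r : ℝ) ^ D := hr2
  have h8 : (r : ℝ) ^ D ≤ ((C : ℝ) ^ (j + 1) * n1) ^ D :=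
    pow_le_pow_left₀ (by positivity) (by exact_mod_cast h5.le) D
  have h9 : ((C : ℝ) ^ (D + 1)) ^ j ≤ ((C : ℝ) ^ (j + 1) * n1) ^ D := h6.trans (h7.trans h8)
  have h10 : ((C : ℝ) ^ (j + 1) * n1) ^ D = ((C : ℝ) ^ j) ^ D * (C * n1) ^ D := by
    rw [← mul_pow]; ring
  have h11 : ((C : ℝ) ^ (D + 1)) ^ j = ((C : ℝ) ^ j) ^ D * (C : ℝ) ^ j := by
    rw [← pow_mul, ← pow_mul, ← pow_add]; ring_nf
  rw [h10, h11] at h9
  have h12 : (C : ℝ) ^ j ≤ (C * n1) ^ D := le_of_mul_le_mul_left h9 (by positivity)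
  have h13 : C ^ j ≤ (C * n1) ^ D := by exact_mod_cast h12
  have h14 : C ^ (j + 1) * n1 ≤ (C * n1) ^ (D + 1) := by
    calc C ^ (j + 1) * n1 = C ^ j * (C * n1) := by ring
      _ ≤ (C * n1) ^ D * (C * n1) := Nat.mul_le_mul_right _ h13
      _ = (C * n1) ^ (D + 1) := by ring
  omega

theorem case_E (hG : TG G) (o : V) (D : ℕ) (hpg : PG hG o D)
    (hsq : ∀ K : ℝ, ∃ r0 : ℕ, ∀ r : ℕ, r0 ≤ r → K * (r : ℝ) ^ 2 ≤ ((bl hG o r).card : ℝ))
    {lam : ℝ} (hlam : 0 < lam) (hs : HS G) (g : G ≃g G) (hg : g ∈ hs.Γ) (hχ : 0 < hs.χ g)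
    (x : V) (F : Finset (List V))
    (hF : ∀ s ∈ F, sa G x s ∧ en x s = g x ∧
      ∀ z ∈ x :: s, z ≠ g x → hs.u x ≤ hs.u z ∧ hs.u z < hs.u (g x))
    (hΛ : Real.exp 1 ≤ ∑ s ∈ F, Real.exp (-lam) ^ s.length) :
    ∃ r0 : ℕ, ∀ (V' : Type) [Infinite V'] (G' : SimpleGraph V') (o' : V') (_ : TG G'),
    (∀ R, Nonempty (Homog G' o' R)) → LI G o G' o' r0 →
    ¬ Summable (fun k : ℕ => (cnt (sa G') o' k : ℝ) * Real.exp (-lam) ^ k) := by
  classical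
  obtain ⟨c0, Lp, hc0, hLp, hup, hdn, hlip⟩ := exists_consts hG hs o
  have hχr : (0 : ℝ) < hs.χ g := by exact_mod_cast hχ
  obtain ⟨m, hm⟩ : ∃ m : ℕ, ∀ s ∈ F, s.length ≤ m := ⟨F.sup List.length, fun s hs =>
    Finset.le_sup (f := List.length) hs⟩
  obtain ⟨C1, hC1⟩ := exists_nat_gt (Lp / c0)
  have hC1' : Lp < c0 * C1 := by
    rw [div_lt_iff₀ hc0] at hC1; linarith
  obtain ⟨K, hK⟩ := exists_nat_gt (4 * ((C1 : ℝ) + 1) * lam + 2)
  obtain ⟨Cu, hCu⟩ : ∃ Cu : ℕ, Cu = 2 * C1 + K * m + 4 := ⟨_, rfl⟩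
  have hCu1 : 1 ≤ Cu := by omega
  obtain ⟨k, hk⟩ := exists_pow_ge ((4 * ((C1 : ℝ) + 1) + 95 * Cu) * lam + 2) (76 * Cu * lam)
  obtain ⟨W, hW⟩ : ∃ W : ℕ, W = 5 + 4 * k := ⟨_, rfl⟩
  have hWr : (W : ℝ) = 5 + 4 * k := by rw [hW]; push_cast; ring
  obtain ⟨Cd, hCd⟩ : ∃ Cd : ℕ, Cd = 20 * (W * Cu) := ⟨_, rfl⟩
  have hWCu : Cu ≤ W * Cu := Nat.le_mul_of_pos_left _ (by omega)
  have hCd2 : 2 ≤ Cd := by omega
  have hCdr : (2 : ℝ) ≤ Cd := by exact_mod_cast hCd2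
  obtain ⟨p, hp⟩ : ∃ p : ℝ, p = 1 / (Cd : ℝ) ^ (D + 1) := ⟨_, rfl⟩
  have hp0 : 0 < p := by rw [hp]; positivity
  have hp1 : p ≤ 1 := by
    rw [hp, div_le_one (by positivity)]
    exact one_le_pow₀ (by linarith)
  obtain ⟨M, hM⟩ : ∃ M : ℝ, M = 12 / p := ⟨_, rfl⟩
  have hM0 : 0 < M := by rw [hM]; positivity
  obtain ⟨δf, hδf⟩ : ∃ δf : ℝ, δf = p / (32 * (1 + 2 * M) ^ (k + 1)) := ⟨_, rfl⟩
  have hδ0 : 0 < δf := by rw [hδf]; positivity
  obtain ⟨KY, hKY⟩ : ∃ KY : ℕ, KY = (5 + 19 * W + 6 * 2 ^ k) * Cu := ⟨_, rfl⟩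
  have hKY1 : 1 ≤ KY := by rw [hKY]; exact Nat.mul_pos (by omega) hCu1
  obtain ⟨r1, hr1⟩ := hsq (4 * (KY : ℝ) ^ 2 / δf + 80 * (Cu : ℝ) ^ 2 / δf)
  -- subexponential growth
  obtain ⟨q, hq⟩ : ∃ q : ℝ, q = Real.exp (1 / (16 * Cu)) := ⟨_, rfl⟩
  have hq1 : 1 < q := by
    rw [hq]; exact Real.one_lt_exp_iff.2 (by positivity)
  obtain ⟨Cs, hCs0, hCs⟩ := subexp hG o D hpg q hq1
  obtain ⟨n1, hn1⟩ := ev_log (1 + Real.log Cs - Real.log (p / 2) +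
    2 * Real.log (2 * (2 ^ k * (6 * Cu)))) 2 (1 / 2) (by norm_num)
  obtain ⟨n2, hn2⟩ := ev_log (2 * Real.log KY - Real.log (p / 2)) 2 (1 / 2) (by norm_num)
  obtain ⟨n, hn, hdoub⟩ := exists_doubling hG o D hpg Cd hCd2 (1 + r1 + n1 + n2)
  have hn1' : 1 ≤ n := by omega
  have hnr : (1 : ℝ) ≤ n := by exact_mod_cast hn1'
  obtain ⟨u, hu⟩ : ∃ u : ℕ, u = Cu * n := ⟨_, rfl⟩
  have hur : (u : ℝ) = Cu * n := by rw [hu]; push_cast; ring
  obtain ⟨v, hv⟩ : ∃ v : ℕ, v = (C1 + 1) * n := ⟨_, rfl⟩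
  have hvr : (v : ℝ) = (C1 + 1) * n := by rw [hv]; push_cast; ring
  have hvu : v ≤ u := by rw [hu, hv]; exact Nat.mul_le_mul_right _ (by omega)
  have hnv : n ≤ v := by rw [hv]; exact Nat.le_mul_of_pos_left _ (by omega)
  have hnu : n ≤ u := hnv.trans hvu
  have hL : 2 * (C1 * n) + K * n * m + 4 * n ≤ 4 * u := by
    have : 2 * (C1 * n) + K * n * m + 4 * n = Cu * n := by rw [hCu]; ring
    rw [this, hu]; omega
  have h20 : 20 * ((5 + 4 * k) * u) = Cd * n := by rw [hCd, hu, hW]; ring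
  have hCrn : Cd * n ≤ Cd * n + 3 * (2 * (C1 * n) + K * n * m) := Nat.le_add_right _ _
  refine ⟨Cd * n + 3 * (2 * (C1 * n) + K * n * m), fun V' _ G' o' hG' hH I => ?_⟩
  have hbb : ∀ s, s ≤ Cd * n → bb hG' o' s = bb hG o s := fun s h =>
    I.bb_eq hG hG' (h.trans hCrn)
  have hle : ∀ a : ℕ, a ≤ Cd → a * n ≤ Cd * n := fun a h => Nat.mul_le_mul_right n h
  have h4u : 4 * u ≤ Cd * n := by
    rw [hu, ← mul_assoc]
    exact hle _ (by omega)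
  have huC : u ≤ Cd * n := by omega
  have hquad : (4 * (KY : ℝ) ^ 2 / δf + 80 * (Cu : ℝ) ^ 2 / δf) * (n : ℝ) ^ 2 ≤ bb hG o n :=
    hr1 n (by omega)
  have hKYu : (5 + 19 * (5 + 4 * k) + 6 * 2 ^ k) * u = KY * n := by rw [hKY, hu, hW]; ring
  refine fin_core2 hG' (k := k) (u := u) (v := v) (A0 := C1 * n) (S0 := n)
    (L0 := 2 * (C1 * n) + K * n * m) (p := p) (M := M) (δf := δf) (X := K * n) (w := n)
    hlam rfl hH ?_ hn1' (hn1'.trans hnv) hvu (by rw [hv]; ring_nf; omega) hL hp0 hp1 ?_ hM hδf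
    ?_ ?_ ?_ ?_
  · intro R H
    obtain ⟨z, F', h1, h2⟩ := exists_fam hG hG' I hs.u hc0 hLp hup hdn hlip g x F m C1 hC1' hχr
      (fun z => hs.equi g hg z) (fun s hs' => ⟨(hF s hs').1, (hF s hs').2.1, hm s hs',
        (hF s hs').2.2⟩) (Real.exp (-lam)) hΛ n (K * n) hn1' (Nat.le_add_left _ _) R H
    refine ⟨z, F', h1, ?_⟩
    push_cast at h2
    exact h2
  · -- hp
    rw [h20, hbb _ le_rfl, hbb _ huC, le_div_iff₀ (bb_pos hG _), hp, one_div, inv_mul_le_iff₀ (by positivity)]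
    exact hdoub.trans (mul_le_mul_of_nonneg_left (bb_mono hG hnu) (by positivity))
  · -- hq
    rw [hKYu, hbb _ (hvu.trans huC)]
    have e1 : bb hG o n ≤ bb hG o v := bb_mono hG hnv
    have e2 : 4 * (KY : ℝ) ^ 2 / δf * (n : ℝ) ^ 2 ≤ bb hG o v := by
      refine le_trans ?_ (hquad.trans e1)
      have : 0 ≤ 80 * (Cu : ℝ) ^ 2 / δf * (n : ℝ) ^ 2 := by positivity
      linarith
    rw [mul_one_div, div_le_iff₀ (bb_pos hG _)]
    rw [div_mul_eq_mul_div, div_le_iff₀ hδ0] at e2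
    push_cast
    linarith
  · -- hra
    rw [hbb n (by omega)]
    have e2 : 80 * (Cu : ℝ) ^ 2 / δf * (n : ℝ) ^ 2 ≤ bb hG o n := by
      refine le_trans ?_ hquad
      have : 0 ≤ 4 * (KY : ℝ) ^ 2 / δf * (n : ℝ) ^ 2 := by positivity
      linarith
    rw [mul_one_div, div_le_iff₀ (bb_pos hG _)]
    rw [div_mul_eq_mul_div, div_le_iff₀ hδ0] at e2
    rw [hur]
    linarith
  · -- hx
    rw [hbb _ h4u]
    have e1 : Real.log (bb hG o (4 * u)) ≤ Real.log Cs + n / 4 := by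
      have e2 := Real.log_le_log (bb_pos hG (4 * u)) (hCs (4 * u))
      rw [Real.log_mul hCs0.ne' (by positivity), Real.log_pow, hq, Real.log_exp] at e2
      have e3 : ((4 * u : ℕ) : ℝ) * (1 / (16 * Cu)) = n / 4 := by
        push_cast
        rw [hur]
        field_simp
        ring
      linarith
    have e4 : Real.log (2 * (2 ^ k * (6 * u))) = Real.log (2 * (2 ^ k * (6 * Cu))) + Real.log n := by
      rw [← Real.log_mul (by positivity) (by positivity), hur]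
      congr 1; ring
    have e5 := hn1 n (by omega)
    have e6 : (4 * ((C1 : ℝ) + 1) * lam + 2) * n ≤ K * n :=
      mul_le_mul_of_nonneg_right hK.le (by positivity)
    rw [e4, hvr]
    linarith
  · -- hfin
    rw [hKYu]
    have e1 := hn2 n (by omega)
    have e2 : Real.log (((KY * n : ℕ)) : ℝ) = Real.log KY + Real.log n := by
      push_cast
      rw [Real.log_mul (by positivity) (by positivity)]
    have e3 : ((4 * v + 19 * ((5 + 4 * k) * u) : ℕ) : ℝ) =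
        (4 * ((C1 : ℝ) + 1) + 19 * (5 + 4 * k) * Cu) * n := by
      push_cast
      rw [hvr, hur]
      ring
    have e4 : (4 * ((C1 : ℝ) + 1) + 19 * (5 + 4 * k) * Cu) * lam + 2 ≤ 2 ^ k := by linarith
    have e5 := mul_le_mul_of_nonneg_right e4 (show (0 : ℝ) ≤ n by positivity)
    rw [e2, e3]
    linarith

end Pool.H61.ST
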