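import Pool.Agent.H61.ST.Pow

set_option autoImplicit false

/-! Heavy geometric blocks with monotone arms around powers of a tube family. -/

namespace Pool.H61.ST

open Finset Pool.Agent.H61.SW Pool.H98.C

variable {V : Type} {G : SimpleGraph V}

/-- blocks with monotone arms -/
theorem exists_gblk [DecidableEq V] (hG : TG G) (w : V → ℝ) {c0 Lp χ : ℝ} (hc0 : 0 < c0)
    (hLp : 0 < Lp)
    (hup : ∀ x, ∃ y, G.Adj x y ∧ w x + c0 ≤ w y) (hdn : ∀ x, ∃ y, G.Adj x y ∧ w y + c0 ≤ w x)
    (hlip : ∀ x y, G.Adj x y → |w x - w y| ≤ Lp) (g : G ≃g G) (x : V) (F : Finset (List V))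
    (m C1 : ℕ) (hC1 : Lp < c0 * C1) (hχ : 0 < χ) (hg : ∀ z, w (g z) = w z + χ)
    (hF : ∀ s ∈ F, sa G x s ∧ en x s = g x ∧ s.length ≤ m ∧
      ∀ z ∈ x :: s, z ≠ g x → w x ≤ w z ∧ w z < w (g x)) (n N : ℕ) (hn : 1 ≤ n) :
    ∃ (z : V) (a b : List V), en z a = x ∧
      ∀ c ∈ pw g F N, GBlk G n (C1 * n) (2 * (C1 * n) + N * m) z a c b := by
  obtain ⟨s, s1, s2, s3, s4, s5⟩ := exists_ray (w := fun v => - w v) hc0 (fun x => by
    obtain ⟨y, h1, h2⟩ := hdn x
    exact ⟨y, h1, by linarith⟩) (C1 * n) x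
  obtain ⟨b, b1, b2, b3, b4, b5⟩ := exists_ray hc0 hup (C1 * n) ((g ^ N) x)
  refine ⟨en x s, rv x s, b, en_rv x s, fun c hc => ?_⟩
  obtain ⟨c1, c2, c3, c4, c5, c6⟩ := pw_spec w g x F χ m hχ hg hF N c hc
  have hn' : (1 : ℝ) ≤ n := by exact_mod_cast hn
  have hNχ : 0 ≤ (N : ℝ) * χ := by positivity
  have hstep : (n : ℝ) * Lp < (C1 * n : ℕ) * c0 := by
    push_cast
    have := mul_lt_mul_of_pos_right hC1 (show (0 : ℝ) < n by linarith)
    linarith
  have hCn0 : (0 : ℝ) ≤ (C1 * n : ℕ) * c0 := by positivity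
  -- heights
  have hA : ∀ v ∈ en x s :: rv x s, w v ≤ w x ∧ (v ≠ x → w v < w x) := by
    intro v hv
    rw [mem_rv] at hv
    rcases List.mem_cons.1 hv with h | h
    · rw [h]; exact ⟨le_rfl, fun h' => absurd rfl h'⟩
    · have := s3 v h
      exact ⟨by linarith, fun _ => by linarith⟩
  have hB : ∀ v ∈ b, w ((g ^ N) x) < w v := fun v hv => by
    have := b3 v hv; linarith
  have hC : ∀ v ∈ c, w x ≤ w v ∧ w v ≤ w ((g ^ N) x) ∧ v ≠ x := by
    intro v hv
    have h1 := c5 v (List.mem_cons_of_mem _ hv)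
    refine ⟨h1.1, by rw [c4]; exact h1.2, ?_⟩
    rintro rfl
    exact (List.nodup_cons.1 c1.2).1 hv
  have hwz : w (en x s) + (C1 * n : ℕ) * c0 ≤ w x := by linarith
  have hwx : w x ≤ w ((g ^ N) x) := by rw [c4]; linarith
  -- the whole walk
  have hen1 : en (en x s) (rv x s ++ c) = (g ^ N) x := by
    rw [en_append, en_rv, c2]
  have hend : en (en x s) (rv x s ++ (c ++ b)) = en ((g ^ N) x) b := by
    rw [en_append, en_rv, en_append, c2]
  have hch : ch G (en x s) (rv x s ++ (c ++ b)) := by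
    rw [ch_append, en_rv, ch_append, c2]
    exact ⟨ch_rv x s s2.1, c1.1, b2.1⟩
  have hnd : (en x s :: (rv x s ++ (c ++ b))).Nodup := by
    rw [← List.cons_append]
    refine List.Nodup.append ?_ ?_ ?_
    · rw [cons_rv, List.nodup_reverse]; exact s2.2
    · refine List.Nodup.append (List.nodup_cons.1 c1.2).2 (List.nodup_cons.1 b2.2).2 ?_
      intro v h1 h2
      have := hC v h1
      have := hB v h2
      linarith
    · intro v h1 h2
      have h3 := hA v h1
      rcases List.mem_append.1 h2 with h | h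
      · have h4 := hC v h
        have := h3.2 h4.2.2
        linarith
      · have h4 := hB v h
        linarith
  -- far from the low end
  have far : ∀ v, w x ≤ w v → n < G.dist (en x s) v := by
    intro v hv
    by_contra hcon
    push Not at hcon
    have h1 := lip_dist hG hlip (en x s) v
    have h2 : Lp * (G.dist (en x s) v : ℝ) ≤ Lp * n :=
      mul_le_mul_of_nonneg_left (by exact_mod_cast hcon) hLp.le
    have h3 := (abs_le.1 (h1.trans h2)).1
    linarith
  have far' : ∀ v, w v ≤ w ((g ^ N) x) → n < G.dist (en ((g ^ N) x) b) v := by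
    intro v hv
    by_contra hcon
    push Not at hcon
    have h1 := lip_dist hG hlip (en ((g ^ N) x) b) v
    have h2 : Lp * (G.dist (en ((g ^ N) x) b) v : ℝ) ≤ Lp * n :=
      mul_le_mul_of_nonneg_left (by exact_mod_cast hcon) hLp.le
    have h3 := (abs_le.1 (h1.trans h2)).2
    linarith
  refine ⟨⟨hch, hnd⟩, ?_, ?_, ?_, ?_, ?_, ?_⟩
  · intro v hv
    rw [en_rv] at hv
    refine far v ?_
    rcases List.mem_cons.1 hv with h | h
    · rw [h]
    · rcases List.mem_append.1 h with h | h
      · exact (hC v h).1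
      · have := hB v h; linarith
  · intro v hv
    rw [hend]
    refine far' v ?_
    rw [← List.cons_append] at hv
    rcases List.mem_append.1 hv with h | h
    · exact (hA v h).1.trans hwx
    · exact (hC v h).2.1
  · rw [hend]
    by_contra hcon
    push Not at hcon
    have h1 := lip_dist hG hlip (en x s) (en ((g ^ N) x) b)
    have h2 : Lp * (G.dist (en x s) (en ((g ^ N) x) b) : ℝ) ≤ Lp * (2 * n : ℕ) :=
      mul_le_mul_of_nonneg_left (by exact_mod_cast hcon) hLp.le
    have h3 := (abs_le.1 (h1.trans h2)).1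
    push_cast at h3
    push_cast at hstep hwz b4
    linarith
  · rw [length_rv, s1]
  · rw [b1]
  · rw [List.length_append, List.length_append, length_rv, s1, b1]
    omega

/-- the family of blocks transported to another graph -/
theorem exists_fam [DecidableEq V] {V' : Type} {G' : SimpleGraph V'} {o : V} {o' : V'} {r : ℕ}
    (hG : TG G)
    (hG' : TG G') (I : LI G o G' o' r) (w : V → ℝ) {c0 Lp χ : ℝ} (hc0 : 0 < c0) (hLp : 0 < Lp)
    (hup : ∀ x, ∃ y, G.Adj x y ∧ w x + c0 ≤ w y) (hdn : ∀ x, ∃ y, G.Adj x y ∧ w y + c0 ≤ w x)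
    (hlip : ∀ x y, G.Adj x y → |w x - w y| ≤ Lp) (g : G ≃g G) (x : V) (F : Finset (List V))
    (m C1 : ℕ) (hC1 : Lp < c0 * C1) (hχ : 0 < χ) (hg : ∀ z, w (g z) = w z + χ)
    (hF : ∀ s ∈ F, sa G x s ∧ en x s = g x ∧ s.length ≤ m ∧
      ∀ z ∈ x :: s, z ≠ g x → w x ≤ w z ∧ w z < w (g x)) (t : ℝ)
    (hΛ : Real.exp 1 ≤ ∑ s ∈ F, t ^ s.length) (n N : ℕ) (hn : 1 ≤ n)
    (hr : 3 * (2 * (C1 * n) + N * m) ≤ r) (R : ℕ) (H : Homog G' o' R) :
    ∃ (z : V') (F' : Finset (V' × List V')),
      Fam hG' H n (1 / 40000) (C1 * n) (2 * (C1 * n) + N * m) z (fun _ => True) F' ∧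
      Real.exp N ≤ wt t F' := by
  classical
  obtain ⟨z, a, b, ha, hB⟩ := exists_gblk hG w hc0 hLp hup hdn hlip g x F m C1 hC1 hχ hg hF n N hn
  have I' := I.reroot hG hG' z o'
  refine ⟨o', (pw g F N).image fun c => (I'.f x, c.map I'.f), ?_, ?_⟩
  · intro p hp
    obtain ⟨c, hc, rfl⟩ := Finset.mem_image.1 hp
    refine ⟨a.map I'.f, b.map I'.f, ?_, ?_, trivial⟩
    · show en o' (a.map I'.f) = I'.f x
      have h1 : en (I'.f z) (a.map I'.f) = I'.f x := by rw [en_map, ha]
      have h2 := I'.fo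
      generalize I'.f = φ at *
      rw [← h2]; exact h1
    · exact ((hB c hc).map hG hG' I' hr).blk hG' H (by norm_num)
  · have hinj : Set.InjOn (fun c : List V => (I'.f x, c.map I'.f)) ((pw g F N : Finset (List V)) : Set (List V)) := by
      intro c hc c' hc' h
      have h1 : c.map I'.f = c'.map I'.f := (Prod.ext_iff.1 h).2
      have hball : ∀ c ∈ pw g F N, ∀ v ∈ c, G.dist z v ≤ r := by
        intro c hc v hv
        have B := hB c hc
        have h2 := (dist_mem_ch B.sa.1 (List.mem_cons_of_mem z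
          (List.mem_append_right a (List.mem_append_left b hv)))).trans B.ll
        omega
      have key : ∀ (c c' : List V), (∀ v ∈ c, G.dist z v ≤ r) → (∀ v ∈ c', G.dist z v ≤ r) →
          c.map I'.f = c'.map I'.f → c = c' := by
        intro c
        induction c with
        | nil => intro c' _ _ h; simpa using h.symm
        | cons y c ih =>
          intro c' h3 h4 h5
          cases c' with
          | nil => simp at h5
          | cons y' c' =>
            rw [List.map_cons, List.map_cons, List.cons.injEq] at h5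
            rw [I'.inj (h3 y (by simp)) (h4 y' (by simp)) h5.1,
              ih c' (fun v hv => h3 v (List.mem_cons_of_mem _ hv))
                (fun v hv => h4 v (List.mem_cons_of_mem _ hv)) h5.2]
      exact key c c' (hball c hc) (hball c' hc') h1
    unfold wt
    rw [Finset.sum_image hinj]
    simp only [List.length_map]
    rw [pw_sum w g x F m t hF N]
    calc Real.exp N = (Real.exp 1) ^ N := by rw [← Real.exp_nat_mul, mul_one]
      _ ≤ (∑ s ∈ F, t ^ s.length) ^ N := pow_le_pow_left₀ (Real.exp_pos _).le hΛ N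

end Pool.H61.ST
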