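import Pool.Agent.H61.ST.Defs2

set_option autoImplicit false

/-! Module KAP: geodesic lines; thin graphs or quadratic growth. -/

namespace Pool.H61.ST

open Finset Pool.Agent.H61.SW Pool.H98.C Filter

namespace Kap

variable {V : Type} {G : SimpleGraph V} (hG : TG G)

lemma chain_dist (c : ℕ → V) (d : ℕ) (h : ∀ i < d, G.Adj (c i) (c (i + 1))) (hc : G.Connected)
    (i k : ℕ) (hi : i + k ≤ d) : G.dist (c i) (c (i + k)) ≤ k := by
  induction k with
  | zero => simp
  | succ k ih =>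
    have h1 := ih (by omega)
    have h2 := h (i + k) (by omega)
    have h3 := hc.dist_triangle (u := c i) (v := c (i + k)) (w := c (i + k + 1))
    rw [SimpleGraph.dist_eq_one_iff_adj.2 h2] at h3
    rw [← add_assoc]
    omega

include hG in
lemma exists_seg (hinf : Infinite V) (o : V) (n : ℕ) :
    ∃ σ : ℤ → V, IsSeg G n σ ∧ σ 0 = o := by
  obtain ⟨y, hy⟩ : ∃ y, y ∉ bl hG o (2 * n) := by
    by_contra hcon
    push Not at hcon
    exact Set.infinite_univ.not_finite.elim ((bl hG o (2 * n)).finite_toSet.subset fun x _ => hcon x)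
  have hy' : 2 * n < G.dist o y := by
    by_contra h
    exact hy ((mem_bl hG o y _).2 (by omega))
  obtain ⟨p, hp⟩ := hG.conn.exists_walk_length_eq_dist o y
  set d := p.length with hd
  have hch : ∀ i < d, G.Adj (p.getVert i) (p.getVert (i + 1)) := fun i hi =>
    p.adj_getVert_succ hi
  have hexact : ∀ i k : ℕ, i + k ≤ d → G.dist (p.getVert i) (p.getVert (i + k)) = k := by
    intro i k hik
    have h1 := chain_dist p.getVert d hch hG.conn i k hik
    have h2 := chain_dist p.getVert d hch hG.conn 0 i (by omega)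
    have h3 := chain_dist p.getVert d hch hG.conn (i + k) (d - (i + k)) (by omega)
    rw [zero_add, p.getVert_zero] at h2
    rw [show i + k + (d - (i + k)) = d by omega, hd, p.getVert_length] at h3
    have h4 := hG.conn.dist_triangle (u := o) (v := p.getVert i) (w := y)
    have h5 := hG.conn.dist_triangle (u := p.getVert i) (v := p.getVert (i + k)) (w := y)
    omega
  obtain ⟨φ, hφ⟩ := hG.tr (p.getVert n) o
  refine ⟨fun i => φ (p.getVert (n + i).toNat), ?_, ?_⟩
  · intro i j hi hj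
    rw [abs_le] at hi hj
    rw [dist_iso hG.conn]
    rcases le_total i j with hij | hij
    · have := hexact (n + i).toNat (j - i).toNat (by omega)
      rw [show (n + i).toNat + (j - i).toNat = (n + j).toNat by omega] at this
      rw [this, abs_sub_comm, abs_of_nonneg (by omega)]
      omega
    · have := hexact (n + j).toNat (i - j).toNat (by omega)
      rw [show (n + j).toNat + (i - j).toNat = (n + i).toNat by omega] at this
      rw [SimpleGraph.dist_comm, this, abs_of_nonneg (by omega)]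
      omega
  · simpa using hφ

include hG in
/-- limits of geodesic segments -/
lemma exists_limit (o : V) (σ : ℕ → ℤ → V) (h0 : ∀ n, σ n 0 = o) (hs : ∀ n, IsSeg G n (σ n)) :
    ∃ γ : ℤ → V, IsLine G γ ∧ γ 0 = o ∧
      ∀ i, ∀ᶠ n in (Filter.hyperfilter ℕ : Filter ℕ), σ n i = γ i := by
  have h1 : ∀ i : ℤ, ∃ a : V, ∀ᶠ n in (Filter.hyperfilter ℕ : Filter ℕ), σ n i = a := by
    intro i
    have h2 : ∀ᶠ n in (Filter.hyperfilter ℕ : Filter ℕ),
        ∃ a ∈ (bl hG o i.natAbs : Set V), σ n i = a := by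
      have : ∀ᶠ n : ℕ in atTop, ∃ a ∈ (bl hG o i.natAbs : Set V), σ n i = a := by
        filter_upwards [eventually_ge_atTop i.natAbs] with n hn
        refine ⟨σ n i, ?_, rfl⟩
        have h3 := hs n 0 i (by simp) (by rw [Int.abs_eq_natAbs]; exact_mod_cast hn)
        rw [h0, zero_sub, abs_neg, Int.abs_eq_natAbs] at h3
        have h4 : G.dist o (σ n i) = i.natAbs := by exact_mod_cast h3
        exact (mem_bl hG o _ _).2 h4.le
      exact this.filter_mono Nat.hyperfilter_le_atTop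
    obtain ⟨a, _, ha⟩ := (Ultrafilter.eventually_exists_mem_iff (bl hG o i.natAbs).finite_toSet).1 h2
    exact ⟨a, ha⟩
  choose γ hγ using h1
  refine ⟨γ, ?_, ?_, hγ⟩
  · intro i j
    have h2 : ∀ᶠ n in (Filter.hyperfilter ℕ : Filter ℕ), max i.natAbs j.natAbs ≤ n :=
      (eventually_ge_atTop _).filter_mono Nat.hyperfilter_le_atTop
    obtain ⟨n, ⟨h3, h4⟩, h5⟩ := (((hγ i).and (hγ j)).and h2).exists
    rw [← h3, ← h4]
    exact hs n i j (by rw [Int.abs_eq_natAbs]; exact_mod_cast (le_max_left _ _).trans h5)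
      (by rw [Int.abs_eq_natAbs]; exact_mod_cast (le_max_right _ _).trans h5)
  · obtain ⟨n, hn⟩ := (hγ 0).exists
    rw [← hn, h0]

/-! ### Boundaries -/

open Classical

/-- closed neighbourhood -/
noncomputable def nh (Q : Finset V) : Finset V := Q ∪ Q.biUnion (nb hG)

lemma mem_nh {Q : Finset V} {y : V} : y ∈ nh hG Q ↔ y ∈ Q ∨ ∃ x ∈ Q, G.Adj x y := by
  simp [nh]

lemma sub_nh (Q : Finset V) : Q ⊆ nh hG Q := fun _ h => (mem_nh hG).2 (Or.inl h)

/-- size of the outer vertex boundary -/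
noncomputable def bd (Q : Finset V) : ℕ := (nh hG Q).card - Q.card

lemma bd_add (Q : Finset V) : bd hG Q + Q.card = (nh hG Q).card := by
  have := Finset.card_le_card (sub_nh hG Q)
  unfold bd; omega

lemma bd_eq (Q : Finset V) : bd hG Q = (nh hG Q \ Q).card := by
  rw [Finset.card_sdiff_of_subset (sub_nh hG Q)]; rfl

lemma submod (A B : Finset V) : bd hG (A ∪ B) + bd hG (A ∩ B) ≤ bd hG A + bd hG B := by
  have h1 : nh hG (A ∪ B) = nh hG A ∪ nh hG B := by
    ext y
    simp only [mem_nh, Finset.mem_union]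
    constructor
    · rintro ((h | h) | ⟨x, h | h, h'⟩)
      · exact Or.inl (Or.inl h)
      · exact Or.inr (Or.inl h)
      · exact Or.inl (Or.inr ⟨x, h, h'⟩)
      · exact Or.inr (Or.inr ⟨x, h, h'⟩)
    · rintro ((h | ⟨x, h, h'⟩) | (h | ⟨x, h, h'⟩))
      · exact Or.inl (Or.inl h)
      · exact Or.inr ⟨x, Or.inl h, h'⟩
      · exact Or.inl (Or.inr h)
      · exact Or.inr ⟨x, Or.inr h, h'⟩
  have h2 : nh hG (A ∩ B) ⊆ nh hG A ∩ nh hG B := by
    intro y
    simp only [mem_nh, Finset.mem_inter]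
    rintro (⟨h, h'⟩ | ⟨x, ⟨h, h'⟩, h''⟩)
    · exact ⟨Or.inl h, Or.inl h'⟩
    · exact ⟨Or.inr ⟨x, h, h''⟩, Or.inr ⟨x, h', h''⟩⟩
  have h3 := Finset.card_le_card h2
  have h4 := Finset.card_union_add_card_inter (nh hG A) (nh hG B)
  have h5 := Finset.card_union_add_card_inter A B
  have e1 := bd_add hG (A ∪ B)
  have e2 := bd_add hG (A ∩ B)
  have e3 := bd_add hG A
  have e4 := bd_add hG B
  rw [h1] at e1
  omega

lemma bd_map (g : G ≃g G) (Q : Finset V) : bd hG (Q.map g.toEquiv.toEmbedding) = bd hG Q := by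
  have h1 : nh hG (Q.map g.toEquiv.toEmbedding) = (nh hG Q).map g.toEquiv.toEmbedding := by
    ext y
    simp only [mem_nh, Finset.mem_map]
    constructor
    · rintro (⟨x, hx, rfl⟩ | ⟨_, ⟨x, hx, rfl⟩, hy⟩)
      · exact ⟨x, Or.inl hx, rfl⟩
      · refine ⟨g.symm y, Or.inr ⟨x, hx, ?_⟩, g.apply_symm_apply y⟩
        rw [← g.map_adj_iff, g.apply_symm_apply]; exact hy
    · rintro ⟨z, hz | ⟨x, hx, hxz⟩, rfl⟩
      · exact Or.inl ⟨z, hz, rfl⟩
      · exact Or.inr ⟨g x, ⟨x, hx, rfl⟩, g.map_adj_iff.2 hxz⟩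
  unfold bd
  rw [h1, Finset.card_map, Finset.card_map]

/-- smallest boundary of a finite set containing the ball -/
noncomputable def kap (o : V) (r : ℕ) : ℕ := sInf {b | ∃ Q : Finset V, bl hG o r ⊆ Q ∧ bd hG Q = b}

lemma kap_mem (o : V) (r : ℕ) : ∃ Q : Finset V, bl hG o r ⊆ Q ∧ bd hG Q = kap hG o r :=
  Nat.sInf_mem (s := {b | ∃ Q : Finset V, bl hG o r ⊆ Q ∧ bd hG Q = b}) ⟨_, bl hG o r, subset_rfl, rfl⟩

lemma kap_le (o : V) (r : ℕ) (Q : Finset V) (h : bl hG o r ⊆ Q) : kap hG o r ≤ bd hG Q :=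
  Nat.sInf_le ⟨Q, h, rfl⟩

lemma kap_le' (o x : V) (r : ℕ) (Q : Finset V) (h : bl hG x r ⊆ Q) : kap hG o r ≤ bd hG Q := by
  rw [← bd_map hG (tau hG x o) Q]
  apply kap_le
  have := bl_iso hG (tau hG x o) x r
  rw [tau_apply] at this
  rw [← this]
  exact Finset.map_subset_map.2 h

lemma bl_mono (o : V) {r s : ℕ} (h : r ≤ s) : bl hG o r ⊆ bl hG o s := fun x hx =>
  (mem_bl hG o x s).2 (((mem_bl hG o x r).1 hx).trans h)

lemma kap_mono (o : V) (r : ℕ) : kap hG o r ≤ kap hG o (r + 1) := by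
  obtain ⟨Q, h1, h2⟩ := kap_mem hG o (r + 1)
  rw [← h2]
  exact kap_le hG o r Q ((bl_mono hG o (Nat.le_succ r)).trans h1)

/-- crossing the boundary -/
lemma cross (U : Finset V) (x y : V) (hx : x ∈ U) (hy : y ∉ U) :
    ∃ z ∈ nh hG U \ U, G.dist x z ≤ G.dist x y := by
  have key : ∀ (x y : V) (p : G.Walk x y), x ∈ U → y ∉ U →
      ∃ z ∈ nh hG U \ U, G.dist x z ≤ p.length := by
    intro x y p
    induction p with
    | nil => intro h1 h2; exact absurd h1 h2
    | @cons u v w h p ih =>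
      intro h1 h2
      by_cases hv : v ∈ U
      · obtain ⟨z, hz, hd⟩ := ih hv h2
        refine ⟨z, hz, ?_⟩
        have h3 := hG.tri u v z
        rw [SimpleGraph.dist_eq_one_iff_adj.2 h] at h3
        rw [SimpleGraph.Walk.length_cons]
        omega
      · refine ⟨v, Finset.mem_sdiff.2 ⟨(mem_nh hG).2 (Or.inr ⟨u, h1, h⟩), hv⟩, ?_⟩
        rw [SimpleGraph.dist_eq_one_iff_adj.2 h, SimpleGraph.Walk.length_cons]
        omega
  obtain ⟨p, hp⟩ := hG.conn.exists_walk_length_eq_dist x y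
  rw [← hp]
  exact key x y p hx hy

lemma kap_pos (hinf : Infinite V) (o : V) (r : ℕ) : 0 < kap hG o r := by
  obtain ⟨Q, h1, h2⟩ := kap_mem hG o r
  rw [← h2, bd_eq, Finset.card_pos]
  obtain ⟨y, hy⟩ : ∃ y, y ∉ Q := by
    by_contra hcon
    push Not at hcon
    exact Set.infinite_univ.not_finite.elim (Q.finite_toSet.subset fun x _ => hcon x)
  obtain ⟨z, hz, _⟩ := cross hG Q o y (h1 (self_mem_bl hG o r)) hy
  exact ⟨z, hz⟩

lemma nh_bl (o : V) (r : ℕ) : nh hG (bl hG o r) ⊆ bl hG o (r + 1) := by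
  intro y hy
  rw [mem_nh] at hy
  rw [mem_bl]
  rcases hy with h | ⟨x, hx, h⟩
  · have := (mem_bl hG o y r).1 h
    omega
  · have h1 := (mem_bl hG o x r).1 hx
    have h2 := hG.tri o x y
    rw [SimpleGraph.dist_eq_one_iff_adj.2 h] at h2
    omega

/-- first alternative: quadratic growth -/
lemma quad_of_strict (hinf : Infinite V) (o : V) (h : ∀ r, kap hG o r < kap hG o (r + 1)) (R : ℕ) :
    (R : ℝ) ^ 2 / 2 ≤ (bl hG o R).card := by
  have h1 : ∀ r, r + 1 ≤ kap hG o r := by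
    intro r
    induction r with
    | zero => exact kap_pos hG hinf o 0
    | succ r ih => have := h r; omega
  have h2 : ∀ r, r * (r + 1) + 2 ≤ 2 * (bl hG o r).card := by
    intro r
    induction r with
    | zero => have := card_bl_pos hG o 0; omega
    | succ r ih =>
      have e1 := bd_add hG (bl hG o r)
      have e2 := Finset.card_le_card (nh_bl hG o r)
      have e3 := kap_le hG o r _ subset_rfl
      have e4 := h1 r
      nlinarith
  have h3 := h2 R
  have h4 : (R : ℝ) * (R + 1) + 2 ≤ 2 * (bl hG o R).card := by exact_mod_cast h3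
  nlinarith [(Nat.cast_nonneg R : (0 : ℝ) ≤ R)]

/-- second alternative: a ball inside a neighbourhood of the line -/
lemma thin_ball (o : V) (r : ℕ) (h : kap hG o (r + 1) = kap hG o r) :
    ∃ K : ℕ, ∀ γ : ℤ → V, IsLine G γ → ∀ R : ℕ, ∃ j : ℤ, ∀ v, G.dist (γ j) v ≤ R →
      ∃ i : ℤ, G.dist v (γ i) ≤ K := by
  obtain ⟨Q, hQ1, hQ2⟩ := kap_mem hG o (r + 1)
  obtain ⟨K, hK⟩ : ∃ K : ℕ, ∀ x ∈ Q, G.dist o x ≤ K :=
    ⟨Q.sup (fun x => G.dist o x), fun x hx => Finset.le_sup (f := fun x => G.dist o x) hx⟩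
  set k := kap hG o r
  refine ⟨K, fun γ hγ R => ?_⟩
  by_contra hcon
  push Not at hcon
  set Qi : ℕ → Finset V := fun i => Q.map (tau hG o (γ i)).toEquiv.toEmbedding with hQi
  have hQi1 : ∀ i : ℕ, bl hG (γ i) (r + 1) ⊆ Qi i := by
    intro i
    have := bl_iso hG (tau hG o (γ i)) o (r + 1)
    rw [tau_apply] at this
    rw [← this]
    exact Finset.map_subset_map.2 hQ1
  have hQi2 : ∀ i : ℕ, bd hG (Qi i) = k := fun i => by rw [hQi, bd_map, hQ2, h]
  have hQi3 : ∀ i : ℕ, ∀ v ∈ Qi i, G.dist v (γ i) ≤ K := by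
    intro i v hv
    obtain ⟨x, hx, rfl⟩ := Finset.mem_map.1 hv
    have h1 : G.dist ((tau hG o (γ i)) x) ((tau hG o (γ i)) o) = G.dist x o := dist_iso hG.conn _ _ _
    rw [tau_apply] at h1
    have h2 := hK x hx
    rw [SimpleGraph.dist_comm] at h2
    exact h1.le.trans h2
  set U : ℕ → Finset V := fun m => (range (m + 1)).biUnion Qi with hU
  have hUs : ∀ m, U (m + 1) = U m ∪ Qi (m + 1) := by
    intro m
    rw [hU]
    simp only
    rw [Finset.range_add_one (n := m + 1), Finset.biUnion_insert, Finset.union_comm]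
  have hUb : ∀ m, bd hG (U m) ≤ k := by
    intro m
    induction m with
    | zero =>
      have : U 0 = Qi 0 := by
        rw [hU]; simp
      rw [this, hQi2]
    | succ m ih =>
      rw [hUs]
      have h1 := submod hG (U m) (Qi (m + 1))
      have h2 : k ≤ bd hG (U m ∩ Qi (m + 1)) := by
        refine kap_le' hG o (γ m) r _ fun x hx => ?_
        have h3 := (mem_bl hG _ x r).1 hx
        rw [Finset.mem_inter]
        constructor
        · exact Finset.mem_biUnion.2 ⟨m, Finset.mem_range.2 (by omega),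
            hQi1 m ((mem_bl hG _ x _).2 (by omega))⟩
        · refine hQi1 (m + 1) ((mem_bl hG _ x _).2 ?_)
          have h4 := hG.tri (γ ((m + 1 : ℕ) : ℤ)) (γ m) x
          have h5 := hγ ((m + 1 : ℕ) : ℤ) m
          have h6 : |((m + 1 : ℕ) : ℤ) - m| = 1 := by push_cast; simp
          rw [h6] at h5
          omega
      rw [hQi2] at h1
      omega
  -- every centre has a boundary vertex nearby
  set M := (2 * R + 1) * k with hM
  have hb : ∀ j : ℕ, j ≤ M → ∃ z ∈ nh hG (U M) \ U M, G.dist (γ j) z ≤ R := by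
    intro j hj
    obtain ⟨v, hv1, hv2⟩ := hcon j
    have hvU : v ∉ U M := by
      intro hv
      obtain ⟨i, _, hi⟩ := Finset.mem_biUnion.1 hv
      have := hQi3 i v hi
      have := hv2 i
      omega
    have hjU : γ j ∈ U M := Finset.mem_biUnion.2 ⟨j, Finset.mem_range.2 (by omega),
      hQi1 j (self_mem_bl hG _ _)⟩
    obtain ⟨z, hz, hd⟩ := cross hG (U M) _ v hjU hvU
    exact ⟨z, hz, hd.trans hv1⟩
  have hb' : ∀ i ∈ range (k + 1), ∃ z ∈ nh hG (U M) \ U M,
      G.dist (γ (((2 * R + 1) * i : ℕ) : ℤ)) z ≤ R := by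
    intro i hi
    refine hb _ ?_
    have := Finset.mem_range.1 hi
    rw [hM]
    exact Nat.mul_le_mul_left _ (by omega)
  have : Nonempty V := ⟨o⟩
  choose! z hz1 hz2 using hb'
  have hcard : (range (k + 1)).card ≤ (nh hG (U M) \ U M).card := by
    refine Finset.card_le_card_of_injOn z (fun i hi => hz1 i hi) ?_
    intro i hi j hj hij
    have h1 := hz2 i hi
    have h2 := hz2 j hj
    rw [← hij] at h2
    have h3 := hG.tri (γ (((2 * R + 1) * i : ℕ) : ℤ)) (z i) (γ (((2 * R + 1) * j : ℕ) : ℤ))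
    rw [SimpleGraph.dist_comm (u := z i)] at h3
    have h4 := hγ (((2 * R + 1) * i : ℕ) : ℤ) (((2 * R + 1) * j : ℕ) : ℤ)
    have h5 : |(((2 * R + 1) * i : ℕ) : ℤ) - (((2 * R + 1) * j : ℕ) : ℤ)| ≤ 2 * R := by
      rw [← h4]; omega
    by_contra hne
    have h6 : (((2 * R + 1) * i : ℕ) : ℤ) - (((2 * R + 1) * j : ℕ) : ℤ) =
        (2 * R + 1) * ((i : ℤ) - j) := by push_cast; ring
    rw [h6, abs_mul, abs_of_nonneg (by positivity : (0 : ℤ) ≤ 2 * R + 1)] at h5
    have h7 : 1 ≤ |(i : ℤ) - j| := by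
      exact Int.one_le_abs (sub_ne_zero.2 (by exact_mod_cast hne))
    nlinarith [(Nat.cast_nonneg R : (0 : ℤ) ≤ R)]
  rw [← bd_eq, Finset.card_range] at hcard
  have := hUb M
  omega

end Kap

section KAP
variable {V : Type} {G : SimpleGraph V} (hG : TG G)

include hG in
theorem exists_line (hinf : Infinite V) (o : V) : ∃ γ : ℤ → V, IsLine G γ ∧ γ 0 = o := by
  have h := fun n => Kap.exists_seg hG hinf o n
  choose σ h1 h2 using h
  obtain ⟨γ, h3, h4, _⟩ := Kap.exists_limit hG o σ h2 h1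
  exact ⟨γ, h3, h4⟩

theorem thin_or_quad (hinf : Infinite V) (o : V) :
    (∃ (f : V → ℤ) (C : ℕ), QLn G f C) ∨ ∀ R : ℕ, (R : ℝ) ^ 2 / 2 ≤ (bl hG o R).card := by
  by_cases hst : ∀ r, Kap.kap hG o r < Kap.kap hG o (r + 1)
  · exact Or.inr (Kap.quad_of_strict hG hinf o hst)
  left
  push Not at hst
  obtain ⟨r, hr⟩ := hst
  obtain ⟨K, hK⟩ := Kap.thin_ball hG o r (le_antisymm hr (Kap.kap_mono hG o r))
  obtain ⟨γ, hγ, _⟩ := exists_line hG hinf o
  have h1 := hK γ hγ
  choose j hj using h1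
  set σ : ℕ → ℤ → V := fun n i => tau hG (γ (j n)) o (γ (i + j n)) with hσ
  have hσd : ∀ n i i', G.dist (σ n i) (σ n i') = G.dist (γ (i + j n)) (γ (i' + j n)) := fun n i i' =>
    dist_iso hG.conn _ _ _
  have hσl : ∀ n, IsLine G (σ n) := by
    intro n i i'
    rw [hσd, hγ]
    congr 1
    ring
  have hσ0 : ∀ n, σ n 0 = o := fun n => by rw [hσ]; simp
  obtain ⟨γ', hl', _, hlim⟩ := Kap.exists_limit hG o σ hσ0 (fun n i i' _ _ => hσl n i i')
  have hcov : ∀ v, ∃ i : ℤ, G.dist v (γ' i) ≤ K := by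
    intro v
    have h2 : ∀ᶠ n in (Filter.hyperfilter ℕ : Filter ℕ),
        ∃ i ∈ Set.Icc (-(G.dist o v + K : ℤ)) (G.dist o v + K), G.dist v (σ n i) ≤ K := by
      have : ∀ᶠ n : ℕ in atTop,
          ∃ i ∈ Set.Icc (-(G.dist o v + K : ℤ)) (G.dist o v + K), G.dist v (σ n i) ≤ K := by
        filter_upwards [eventually_ge_atTop (G.dist o v)] with n hn
        set φ := tau hG (γ (j n)) o
        have h3 : G.dist (γ (j n)) (φ.symm v) ≤ n := by
          rw [← dist_iso hG.conn φ, φ.apply_symm_apply, tau_apply]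
          exact hn
        obtain ⟨i, hi⟩ := hj n _ h3
        have h4 : G.dist v (σ n (i - j n)) ≤ K := by
          rw [hσ]
          simp only [sub_add_cancel]
          rw [← dist_iso hG.conn φ, φ.apply_symm_apply] at hi
          exact hi
        refine ⟨i - j n, ?_, h4⟩
        have h5 := hσl n 0 (i - j n)
        rw [hσ0, zero_sub, abs_neg] at h5
        have h6 := hG.tri o v (σ n (i - j n))
        rw [Set.mem_Icc, ← abs_le, ← h5]
        exact_mod_cast h6.trans (by omega)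
      exact this.filter_mono Nat.hyperfilter_le_atTop
    obtain ⟨i, _, hi⟩ := (Ultrafilter.eventually_exists_mem_iff (Set.finite_Icc _ _)).1 h2
    obtain ⟨n, h3, h4⟩ := (hi.and (hlim i)).exists
    exact ⟨i, by rw [← h4]; exact h3⟩
  choose f hf using hcov
  refine ⟨f, 2 * K, fun y z => ?_⟩
  have e1 := hl' (f y) (f z)
  have e2 := hf y
  have e3 := hf z
  have t1 := hG.tri (γ' (f y)) y (γ' (f z))
  have t2 := hG.tri y z (γ' (f z))
  have t3 := hG.tri y (γ' (f y)) z
  have t4 := hG.tri (γ' (f y)) (γ' (f z)) z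
  rw [SimpleGraph.dist_comm (u := γ' (f y)) (v := y)] at t1
  rw [SimpleGraph.dist_comm (u := γ' (f z)) (v := z)] at t4
  rw [← e1, abs_le]
  push_cast
  constructor <;> omega

end KAP

end Pool.H61.ST
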