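import Pool.Agent.H61.ST.Chain2Core
import Pool.Agent.H61.ST.Kap

set_option autoImplicit false

/-! Module CHAIN2: superblocks along a geodesic line. -/

namespace Pool.H61.ST

open Finset Pool.Agent.H61.SW Pool.H98.C Filter

section CHAIN2
variable {V : Type} {G : SimpleGraph V} (hG : TG G)

include hG in
theorem chain2 (hinf : Infinite V) (o : V) (t : ℝ) (ht : 0 < t) (ht1 : t ≤ 1) (p ρ : ℕ)
    (hρ : 2 * ρ < p) (hS : Super G t p ρ) :
    ¬ Summable (fun k : ℕ => (cnt (sa G) o k : ℝ) * t ^ k) := by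
  obtain ⟨γ, hγ, -⟩ := exists_line hG hinf o
  exact Chain2.chain_line hG hγ o t ht ht1 p ρ hρ hS

end CHAIN2

end Pool.H61.ST
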