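import Pool.Agent.H61.ST.Defs2

set_option autoImplicit false

/-! Module CHAIN2: superblocks along a geodesic line (the line is an argument here). -/

namespace Pool.H61.ST

open Finset Pool.Agent.H61.SW Pool.H98.C Filter

namespace Chain2

variable {V : Type} {G : SimpleGraph V}

lemma fm_mono {x y : V} {A B : Set V} {F : Finset (List V)} (h : Fm G x y A F) (hAB : A ⊆ B) :
    Fm G x y B F := fun s hs => ⟨(h s hs).1, (h s hs).2.1, fun z hz => hAB ((h s hs).2.2 z hz)⟩

/-- a self-avoiding walk is determined by its concatenation with another one once the junction is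
known -/
lemma split_unique {x y : V} {s1 s2 u1 u2 : List V} (h1 : en x s1 = y) (h2 : en x s2 = y)
    (hn : (x :: (s1 ++ u1)).Nodup) (h : s1 ++ u1 = s2 ++ u2) : s1 = s2 ∧ u1 = u2 := by
  induction s1 generalizing x s2 with
  | nil =>
    cases s2 with
    | nil => exact ⟨rfl, by simpa using h⟩
    | cons a s2 =>
      exfalso
      simp only [en_nil] at h1
      subst h1
      simp only [List.nil_append] at h hn
      rw [h] at hn
      have h3 : x ∈ a :: s2 := by
        have := en_mem x (a :: s2) (by simp)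
        rw [h2] at this; exact this
      rw [List.nodup_cons] at hn
      exact hn.1 (List.mem_append_left _ h3)
  | cons a s1 ih =>
    cases s2 with
    | nil =>
      exfalso
      simp only [en_nil] at h2
      subst h2
      have h3 : x ∈ a :: s1 := by
        have := en_mem x (a :: s1) (by simp)
        rw [h1] at this; exact this
      rw [List.nodup_cons] at hn
      exact hn.1 (List.mem_append_left _ h3)
    | cons b s2 =>
      simp only [List.cons_append, List.cons.injEq] at h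
      obtain ⟨rfl, h⟩ := h
      have hn' : (a :: (s1 ++ u1)).Nodup := (List.nodup_cons.1 hn).2
      obtain ⟨h3, h4⟩ := ih (x := a) (s2 := s2) (by simpa using h1) (by simpa using h2) hn' h
      exact ⟨by rw [h3], h4⟩

/-- concatenation of two families -/
lemma comb {x y z : V} {A B : Set V} {F₁ F₂ : Finset (List V)} (t : ℝ)
    (h1 : Fm G x y A F₁) (h2 : Fm G y z B F₂) (hAB : ∀ v, v ∈ A → v ∈ B → v = y) :
    ∃ F, Fm G x z (A ∪ B) F ∧ fw t F = fw t F₁ * fw t F₂ := by
  classical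
  have key : ∀ s1 ∈ F₁, ∀ s2 ∈ F₂, sa G x (s1 ++ s2) := by
    intro s1 hs1 s2 hs2
    obtain ⟨a1, a2, a3⟩ := h1 s1 hs1
    obtain ⟨b1, b2, b3⟩ := h2 s2 hs2
    refine ⟨(ch_append _ _ _).2 ⟨a1.1, by rw [a2]; exact b1.1⟩, ?_⟩
    rw [← List.cons_append, List.nodup_append]
    refine ⟨a1.2, (List.nodup_cons.1 b1.2).2, ?_⟩
    rintro v hv w hw rfl
    have := hAB v (a3 v hv) (b3 v (List.mem_cons_of_mem _ hw))
    subst this
    exact (List.nodup_cons.1 b1.2).1 hw
  refine ⟨(F₁ ×ˢ F₂).image fun q => q.1 ++ q.2, ?_, ?_⟩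
  · intro s hs
    rw [Finset.mem_image] at hs
    obtain ⟨⟨s1, s2⟩, hq, rfl⟩ := hs
    rw [Finset.mem_product] at hq
    obtain ⟨a1, a2, a3⟩ := h1 s1 hq.1
    obtain ⟨b1, b2, b3⟩ := h2 s2 hq.2
    refine ⟨key s1 hq.1 s2 hq.2, by rw [en_append, a2, b2], ?_⟩
    intro v hv
    rw [← List.cons_append, List.mem_append] at hv
    rcases hv with hv | hv
    · exact Or.inl (a3 v hv)
    · exact Or.inr (b3 v (List.mem_cons_of_mem _ hv))
  · unfold fw
    rw [Finset.sum_image, Finset.sum_product, Finset.sum_mul]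
    · refine Finset.sum_congr rfl fun s1 _ => ?_
      rw [Finset.mul_sum]
      refine Finset.sum_congr rfl fun s2 _ => ?_
      rw [List.length_append, pow_add]
    · rintro ⟨s1, s2⟩ hs ⟨u1, u2⟩ hu h
      simp only [Finset.coe_product, Set.mem_prod, Finset.mem_coe] at hs hu
      obtain ⟨h3, h4⟩ := split_unique (x := x) (y := y) (h1 s1 hs.1).2.1 (h1 u1 hu.1).2.1
        (key s1 hs.1 s2 hs.2).2 h
      rw [h3, h4]

/-- pieces of a line -/
def pc (γ : ℤ → V) (a : ℤ) (n : ℕ) : List V := (List.range n).map fun i : ℕ => γ (a + i + 1)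

lemma pc_succ (γ : ℤ → V) (a : ℤ) (n : ℕ) : pc γ a (n + 1) = γ (a + 1) :: pc γ (a + 1) n := by
  unfold pc
  rw [List.range_succ_eq_map, List.map_cons, List.map_map]
  simp only [Nat.cast_zero, add_zero, List.cons.injEq, true_and]
  refine List.map_congr_left fun i _ => ?_
  simp only [Function.comp_apply, Nat.cast_succ]
  congr 1
  ring

lemma mem_pc {γ : ℤ → V} {a : ℤ} {n : ℕ} {z : V} (hz : z ∈ γ a :: pc γ a n) :
    ∃ i : ℤ, a ≤ i ∧ i ≤ a + n ∧ z = γ i := by
  rcases List.mem_cons.1 hz with rfl | hz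
  · exact ⟨a, le_rfl, by omega, rfl⟩
  · unfold pc at hz
    rw [List.mem_map] at hz
    obtain ⟨i, hi, rfl⟩ := hz
    rw [List.mem_range] at hi
    exact ⟨a + i + 1, by omega, by omega, rfl⟩

lemma line_inj {γ : ℤ → V} (hγ : IsLine G γ) {i j : ℤ} (h : γ i = γ j) : i = j := by
  have := hγ i j
  rw [h, SimpleGraph.dist_self] at this
  have h2 : |i - j| = 0 := by simpa using this.symm
  have := abs_eq_zero.1 h2
  omega

lemma pc_sa {γ : ℤ → V} (hγ : IsLine G γ) (a : ℤ) (n : ℕ) :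
    sa G (γ a) (pc γ a n) ∧ en (γ a) (pc γ a n) = γ (a + n) ∧ (pc γ a n).length = n := by
  refine ⟨⟨?_, ?_⟩, ?_, by simp [pc]⟩
  · induction n generalizing a with
    | zero => simp [pc, ch]
    | succ n ih =>
      rw [pc_succ]
      refine ⟨?_, ih (a + 1)⟩
      rw [← SimpleGraph.dist_eq_one_iff_adj]
      have := hγ a (a + 1)
      have h2 : |a - (a + 1)| = 1 := by
        rw [show a - (a + 1) = -1 by ring]; rfl
      rw [h2] at this
      exact_mod_cast this
  · rw [List.nodup_cons]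
    constructor
    · intro h
      unfold pc at h
      rw [List.mem_map] at h
      obtain ⟨i, hi, h⟩ := h
      have := line_inj hγ h
      omega
    · unfold pc
      refine (List.nodup_map_iff_inj_on List.nodup_range).2 ?_
      intro i _ j _ h
      have := line_inj hγ h
      omega
  · induction n generalizing a with
    | zero => simp [pc]
    | succ n ih =>
      rw [pc_succ, en_cons, ih (a + 1)]
      congr 1
      push_cast
      ring

/-- a summable generating function bounds the weight of every finite family -/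
lemma fw_le (hG : TG G) (o x : V) (t : ℝ) (ht : 0 < t)
    (hsum : Summable (fun k : ℕ => (cnt (sa G) o k : ℝ) * t ^ k)) (F : Finset (List V))
    (hF : ∀ s ∈ F, sa G x s) : fw t F ≤ ∑' k : ℕ, (cnt (sa G) o k : ℝ) * t ^ k := by
  classical
  have hc : ∀ k, cnt (sa G) x k = cnt (sa G) o k := by
    intro k
    obtain ⟨φ, hφ⟩ := hG.tr o x
    rw [← hφ, cnt_map (sa G) φ o (fun s => sa_map φ o s)]
  obtain ⟨N, hN⟩ : ∃ N, ∀ s ∈ F, s.length < N := by
    refine ⟨F.sup List.length + 1, fun s hs => ?_⟩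
    exact Nat.lt_succ_of_le (Finset.le_sup (f := List.length) hs)
  have h1 : fw t F ≤ ∑ k ∈ Finset.range N, (cnt (sa G) o k : ℝ) * t ^ k := by
    unfold fw
    rw [← Finset.sum_fiberwise_of_maps_to (s := F) (t := Finset.range N)
      (g := fun s : List V => s.length) (fun s hs => Finset.mem_range.2 (hN s hs))]
    refine Finset.sum_le_sum fun k _ => ?_
    have h2 : ∑ s ∈ F with s.length = k, t ^ s.length = ((F.filter fun s => s.length = k).card : ℝ) * t ^ k := by
      rw [Finset.sum_congr rfl (g := fun _ => t ^ k)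
        (fun s hs => by rw [(Finset.mem_filter.1 hs).2]), Finset.sum_const, nsmul_eq_mul]
    rw [h2]
    refine mul_le_mul_of_nonneg_right ?_ (pow_nonneg ht.le _)
    rw [← hc k]
    have hfin : {s : List V | s.length = k ∧ sa G x s}.Finite :=
      fin_of_imp hG.lf (fun _ _ h => h.1) k x
    unfold cnt
    rw [Set.ncard_eq_toFinset_card _ hfin]
    exact_mod_cast Finset.card_le_card fun s hs => by
      rw [Finset.mem_filter] at hs
      rw [Set.Finite.mem_toFinset]
      exact ⟨hs.2, hF s hs.1⟩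
  exact h1.trans (hsum.sum_le_tsum _ (fun k _ => mul_nonneg (Nat.cast_nonneg _) (pow_nonneg ht.le _)))

/-- the chain of superblocks -/
lemma chain (hG : TG G) {γ : ℤ → V} (hγ : IsLine G γ) (t : ℝ) (ht : 0 < t) (ht1 : t ≤ 1) (p ρ : ℕ)
    (hρ : 2 * ρ < p) (τ₁ τ₂ : ℤ → ℤ) (H : ℤ → Finset (List V))
    (hτ : ∀ k, -(ρ : ℤ) ≤ τ₁ k ∧ τ₁ k ≤ τ₂ k ∧ τ₂ k ≤ ρ)
    (hH : ∀ k, ∀ s ∈ H k, sa G (γ (p * k + τ₁ k)) s ∧ en (γ (p * k + τ₁ k)) s = γ (p * k + τ₂ k) ∧
      (∀ z ∈ s, G.dist (γ (p * k)) z ≤ ρ) ∧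
        ∀ i : ℤ, |i| ≤ p → (i < τ₁ k ∨ τ₂ k < i) → γ (p * k + i) ∉ s)
    (hw : ∀ k, 2 ≤ fw t (H k) * t ^ (p - (τ₂ k - τ₁ k).toNat)) (K : ℕ) :
    ∃ F : Finset (List V), Fm G (γ (τ₁ 0)) (γ (p * K + τ₁ K))
      {z | (∃ j : ℤ, j < K ∧ G.dist (γ (p * j)) z ≤ ρ) ∨ ∃ i : ℤ, i ≤ p * K + τ₁ K ∧ z = γ i} F ∧
      2 ^ K * t ^ (2 * ρ) ≤ fw t F * t ^ (ρ - τ₁ K).toNat := by
  classical
  induction K with
  | zero =>
    refine ⟨{[]}, ?_, ?_⟩
    · intro s hs
      rw [Finset.mem_singleton] at hs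
      subst hs
      refine ⟨sa_nil _, by simp, ?_⟩
      intro z hz
      rw [List.mem_singleton] at hz
      exact Or.inr ⟨τ₁ 0, by simp, hz⟩
    · simp only [pow_zero, one_mul, fw, Finset.sum_singleton, List.length_nil, Nat.cast_zero]
      refine pow_le_pow_of_le_one ht.le ht1 ?_
      have := hτ 0
      omega
  | succ K ih =>
    obtain ⟨F, hF, hFw⟩ := ih
    obtain ⟨c1, c2, c3⟩ := hτ K
    obtain ⟨d1, d2, d3⟩ := hτ (K + 1)
    have hmul : (p : ℤ) * (K + 1) = p * K + p := by ring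
    have hB : Fm G (γ (p * K + τ₁ K)) (γ (p * K + τ₂ K))
        {z | z = γ (p * K + τ₁ K) ∨ (G.dist (γ (p * K)) z ≤ ρ ∧
          ∀ i : ℤ, |i| ≤ p → (i < τ₁ K ∨ τ₂ K < i) → z ≠ γ (p * K + i))} (H K) := by
      intro s hs
      obtain ⟨a1, a2, a3, a4⟩ := hH K s hs
      refine ⟨a1, a2, fun z hz => ?_⟩
      rcases List.mem_cons.1 hz with rfl | hz
      · exact Or.inl rfl
      · refine Or.inr ⟨a3 z hz, fun i hi hi' h => ?_⟩
        rw [h] at hz
        exact a4 i hi hi' hz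
    have far : ∀ j : ℤ, j < K → ∀ v, G.dist (γ (p * j)) v ≤ ρ → G.dist (γ (p * K)) v ≤ ρ → False := by
      intro j hj v hj' hv1
      have h1 := hγ (p * j) (p * K)
      have h2 : (G.dist (γ (p * j)) (γ (p * K)) : ℤ) ≤ 2 * ρ := by
        have := hG.tri (γ (p * j)) v (γ (p * K))
        rw [G.dist_comm (u := v)] at this
        omega
      rw [h1, ← mul_sub, abs_mul] at h2
      have h3 : (1 : ℤ) ≤ |j - K| := by
        rw [abs_sub_comm, abs_of_pos] <;> omega
      have h4 : |(p : ℤ)| = p := abs_of_nonneg (by omega)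
      rw [h4] at h2
      nlinarith
    obtain ⟨F1, hF1, hw1⟩ := comb t hF hB (by
      rintro v hv (hv' | ⟨hv1, hv2⟩)
      · exact hv'
      · rcases hv with ⟨j, hj, hj'⟩ | ⟨i, hi, rfl⟩
        · exact (far j hj v hj' hv1).elim
        · have h1 := hγ (p * K) i
          have h5 : |p * K - i| ≤ ρ := by rw [← h1]; exact_mod_cast hv1
          by_cases h6 : i = p * K + τ₁ K
          · rw [h6]
          · exfalso
            refine hv2 (i - p * K) ?_ (Or.inl (by omega)) (by congr 1; ring)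
            rw [abs_sub_comm]
            omega)
    set n : ℕ := (p * (K + 1) + τ₁ (K + 1) - (p * K + τ₂ K)).toNat with hn
    have hn' : (n : ℤ) = p * (K + 1) + τ₁ (K + 1) - (p * K + τ₂ K) := by
      rw [hn, Int.toNat_of_nonneg]; rw [hmul]; omega
    have hC : Fm G (γ (p * K + τ₂ K)) (γ (p * ((K + 1 : ℕ) : ℤ) + τ₁ ((K + 1 : ℕ) : ℤ)))
        {z | ∃ i : ℤ, p * K + τ₂ K ≤ i ∧ i ≤ p * (K + 1) + τ₁ (K + 1) ∧ z = γ i}
        {pc γ (p * K + τ₂ K) n} := by
      intro s hs
      rw [Finset.mem_singleton] at hs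
      subst hs
      obtain ⟨a1, a2, a3⟩ := pc_sa hγ (p * K + τ₂ K) n
      refine ⟨a1, ?_, fun z hz => ?_⟩
      · rw [a2]
        congr 1
        push_cast
        rw [hn']
        ring
      · obtain ⟨i, h1, h2, h3⟩ := mem_pc hz
        exact ⟨i, h1, by omega, h3⟩
    obtain ⟨F2, hF2, hw2⟩ := comb t hF1 hC (by
      rintro v hv ⟨i, hi1, hi2, rfl⟩
      rcases hv with hv | hv
      · rcases hv with ⟨j, hj, hj'⟩ | ⟨i', hi', h⟩
        · exfalso
          have h1 := hγ (p * j) i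
          have h5 : |p * j - i| ≤ ρ := by rw [← h1]; exact_mod_cast hj'
          rw [abs_le] at h5
          have h6 : (p : ℤ) * j ≤ p * K - p := by
            have : (p : ℤ) * j ≤ p * (K - 1) := mul_le_mul_of_nonneg_left (by omega) (by omega)
            rw [mul_sub, mul_one] at this
            exact this
          omega
        · have := line_inj hγ h
          congr 1
          omega
      · rcases hv with hv | ⟨hv1, hv2⟩
        · have := line_inj hγ hv
          congr 1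
          omega
        · by_cases h6 : i = p * K + τ₂ K
          · rw [h6]
          · exfalso
            have h1 := hγ (p * K) i
            have h5 : |p * K - i| ≤ ρ := by rw [← h1]; exact_mod_cast hv1
            refine hv2 (i - p * K) ?_ (Or.inr (by omega)) (by congr 1; ring)
            rw [abs_sub_comm]
            omega)
    refine ⟨F2, fm_mono hF2 ?_, ?_⟩
    · rintro z ((hz | hz) | hz)
      · rcases hz with ⟨j, hj, hj'⟩ | ⟨i, hi, hi'⟩
        · exact Or.inl ⟨j, by push_cast; omega, hj'⟩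
        · refine Or.inr ⟨i, ?_, hi'⟩
          push_cast
          rw [hmul]
          omega
      · rcases hz with hz | ⟨hz, -⟩
        · refine Or.inr ⟨_, ?_, hz⟩
          push_cast
          rw [hmul]
          omega
        · exact Or.inl ⟨K, by push_cast; omega, hz⟩
      · obtain ⟨i, hi1, hi2, hi3⟩ := hz
        exact Or.inr ⟨i, by push_cast; exact hi2, hi3⟩
    · have e1 : fw t {pc γ (p * K + τ₂ K) n} = t ^ n := by
        simp [fw, (pc_sa hγ (p * K + τ₂ K) n).2.2]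
      rw [hw2, hw1, e1]
      have e2 : (ρ - τ₁ ((K + 1 : ℕ) : ℤ)).toNat + n = (p - (τ₂ K - τ₁ K).toNat) + (ρ - τ₁ K).toNat := by
        push_cast
        rw [hmul] at hn'
        omega
      have e3 : fw t F * fw t (H K) * t ^ n * t ^ (ρ - τ₁ ((K + 1 : ℕ) : ℤ)).toNat =
          (fw t (H K) * t ^ (p - (τ₂ K - τ₁ K).toNat)) * (fw t F * t ^ (ρ - τ₁ K).toNat) := by
        calc _ = fw t F * fw t (H K) * t ^ ((ρ - τ₁ ((K + 1 : ℕ) : ℤ)).toNat + n) := by
              rw [pow_add]; ring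
          _ = _ := by rw [e2, pow_add]; ring
      rw [e3, pow_succ]
      have h7 : 0 ≤ fw t F * t ^ (ρ - τ₁ K).toNat := by
        refine mul_nonneg ?_ (pow_nonneg ht.le _)
        exact Finset.sum_nonneg fun _ _ => pow_nonneg ht.le _
      calc 2 ^ K * 2 * t ^ (2 * ρ) = 2 * (2 ^ K * t ^ (2 * ρ)) := by ring
        _ ≤ 2 * (fw t F * t ^ (ρ - τ₁ K).toNat) := mul_le_mul_of_nonneg_left hFw (by norm_num)
        _ ≤ _ := mul_le_mul_of_nonneg_right (hw K) h7

theorem chain_line (hG : TG G) {γ : ℤ → V} (hγ : IsLine G γ) (o : V) (t : ℝ) (ht : 0 < t)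
    (ht1 : t ≤ 1) (p ρ : ℕ) (hρ : 2 * ρ < p) (hS : Super G t p ρ) :
    ¬ Summable (fun k : ℕ => (cnt (sa G) o k : ℝ) * t ^ k) := by
  intro hsum
  have h1 : ∀ k : ℤ, ∃ (τ₁ τ₂ : ℤ) (F : Finset (List V)),
      (-(ρ : ℤ) ≤ τ₁ ∧ τ₁ ≤ τ₂ ∧ τ₂ ≤ ρ) ∧
      (∀ s ∈ F, sa G (γ (p * k + τ₁)) s ∧ en (γ (p * k + τ₁)) s = γ (p * k + τ₂) ∧
        (∀ z ∈ s, G.dist (γ (p * k)) z ≤ ρ) ∧
        ∀ i : ℤ, |i| ≤ p → (i < τ₁ ∨ τ₂ < i) → γ (p * k + i) ∉ s) ∧
      2 ≤ fw t F * t ^ (p - (τ₂ - τ₁).toNat) := by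
    intro k
    obtain ⟨τ₁, τ₂, F, a1, a2, a3, a4, a5⟩ := hS (fun i => γ (p * k + i)) (by
      intro i j _ _
      rw [hγ]
      congr 1
      ring)
    simp only [add_zero] at a4
    exact ⟨τ₁, τ₂, F, ⟨a1, a2, a3⟩, a4, a5⟩
  choose τ₁ τ₂ H hτ hH hw using h1
  set S := ∑' k : ℕ, (cnt (sa G) o k : ℝ) * t ^ k with hS'
  have h2 : ∀ K : ℕ, 2 ^ K * t ^ (2 * ρ) ≤ S := by
    intro K
    obtain ⟨F, hF, hFw⟩ := chain hG hγ t ht ht1 p ρ hρ τ₁ τ₂ H hτ hH hw K
    have h3 : fw t F ≤ S := fw_le hG o (γ (τ₁ 0)) t ht hsum F fun s hs => (hF s hs).1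
    have h4 : 0 ≤ fw t F := Finset.sum_nonneg fun _ _ => pow_nonneg ht.le _
    have h5 : t ^ (ρ - τ₁ K).toNat ≤ 1 := pow_le_one₀ ht.le ht1
    calc _ ≤ fw t F * t ^ (ρ - τ₁ K).toNat := hFw
      _ ≤ fw t F * 1 := mul_le_mul_of_nonneg_left h5 h4
      _ ≤ S := by rw [mul_one]; exact h3
  have h6 : 0 < t ^ (2 * ρ) := pow_pos ht _
  obtain ⟨K, hK⟩ := pow_unbounded_of_one_lt (S / t ^ (2 * ρ)) (one_lt_two (α := ℝ))
  rw [div_lt_iff₀ h6] at hK
  exact absurd (h2 K) (not_le.2 hK)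

end Chain2

end Pool.H61.ST
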