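import Mathlib

set_option autoImplicit false

/-! Coarse isometries of the integers have a sign. -/

namespace Pool.H61.ST

lemma coarse_key (L A α β K : ℤ) (_hK : 0 ≤ K) (hL : 4 * K < L) (hA : 0 ≤ A)
    (h1 : |(|A| - |L|)| ≤ K) (h2 : |(|α| - |β|)| ≤ K) (h3 : |(|α - A| - |β - L|)| ≤ K) :
    |α - β| ≤ 4 * K := by
  rw [abs_le] at *
  rw [abs_of_nonneg hA, abs_of_nonneg (by omega : (0 : ℤ) ≤ L)] at h1
  obtain ⟨h2, h2'⟩ := h2
  obtain ⟨h3, h3'⟩ := h3
  obtain ⟨h1, h1'⟩ := h1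
  rcases abs_cases α with ⟨e1, f1⟩ | ⟨e1, f1⟩ <;>
  rcases abs_cases β with ⟨e2, f2⟩ | ⟨e2, f2⟩ <;>
  rcases abs_cases (α - A) with ⟨e3, f3⟩ | ⟨e3, f3⟩ <;>
  rcases abs_cases (β - L) with ⟨e4, f4⟩ | ⟨e4, f4⟩ <;>
  rw [e1, e2] at h2 h2' <;> rw [e3, e4] at h3 h3' <;> constructor <;> omega

theorem coarse_sign {S : Type} (a b : S → ℤ) (K : ℕ)
    (h : ∀ y z, |(|a y - a z|) - (|b y - b z|)| ≤ (K : ℤ)) :
    (∀ y z, |a y - a z - (b y - b z)| ≤ 9 * (K : ℤ)) ∨
      (∀ y z, |a y - a z + (b y - b z)| ≤ 9 * (K : ℤ)) := by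
  have hK : (0 : ℤ) ≤ K := by positivity
  by_cases h1 : ∀ y z, |b y - b z| ≤ 4 * (K : ℤ)
  · left
    intro y z
    have h2 := h1 y z
    have h3 := h y z
    rw [abs_le] at h2 h3 ⊢
    rcases abs_cases (a y - a z) with ⟨h4, h5⟩ | ⟨h4, h5⟩ <;>
    rcases abs_cases (b y - b z) with ⟨h6, h7⟩ | ⟨h6, h7⟩ <;>
    rw [h4, h6] at h3 <;> constructor <;> linarith [h2.1, h2.2, h3.1, h3.2]
  · push Not at h1
    obtain ⟨y1, y0, h1⟩ := h1
    -- choose the order so that b is increasing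
    obtain ⟨y1, y0, h1⟩ : ∃ y1 y0, 4 * (K : ℤ) < b y1 - b y0 := by
      rcases abs_cases (b y1 - b y0) with ⟨e, f⟩ | ⟨e, f⟩
      · exact ⟨y1, y0, by rw [e] at h1; exact h1⟩
      · exact ⟨y0, y1, by rw [e] at h1; linarith⟩
    rcases le_total 0 (a y1 - a y0) with hs | hs
    · left
      have key : ∀ y, |a y - a y0 - (b y - b y0)| ≤ 4 * (K : ℤ) := by
        intro y
        refine coarse_key (b y1 - b y0) (a y1 - a y0) _ _ K hK h1 hs (h y1 y0) (h y y0) ?_
        have e1 : a y - a y0 - (a y1 - a y0) = a y - a y1 := by ring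
        have e2 : b y - b y0 - (b y1 - b y0) = b y - b y1 := by ring
        rw [e1, e2]; exact h y y1
      intro y z
      have k1 := key y
      have k2 := key z
      rw [abs_le] at *
      constructor <;> linarith [k1.1, k1.2, k2.1, k2.2]
    · right
      have key : ∀ y, |(-a y) - (-a y0) - (b y - b y0)| ≤ 4 * (K : ℤ) := by
        intro y
        have h' : ∀ y z, |(|(-a y) - (-a z)|) - (|b y - b z|)| ≤ (K : ℤ) := by
          intro y z
          have e1 : (-a y) - (-a z) = -(a y - a z) := by ring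
          rw [e1, abs_neg]; exact h y z
        refine coarse_key (b y1 - b y0) ((-a y1) - (-a y0)) _ _ K hK h1 (by linarith)
          (h' y1 y0) (h' y y0) ?_
        have e1 : -a y - -a y0 - (-a y1 - -a y0) = -a y - -a y1 := by ring
        have e2 : b y - b y0 - (b y1 - b y0) = b y - b y1 := by ring
        rw [e1, e2]; exact h' y y1
      intro y z
      have k1 := key y
      have k2 := key z
      rw [abs_le] at *
      constructor <;> linarith [k1.1, k1.2, k2.1, k2.2]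

end Pool.H61.ST
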