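import Pool.Agent.H61.ST.Defs

set_option autoImplicit false

/-! Constants of a height structure: step size, Lipschitz constant, monotone rays. -/

namespace Pool.H61.ST

open Finset Pool.Agent.H61.SW Pool.H98.C

variable {V : Type} {G : SimpleGraph V}

/-- finitely many orbit representatives for a subgroup of finite index -/
lemma exists_reps_const (hG : TG G) (Γ : Subgroup (G ≃g G)) (hfi : Γ.FiniteIndex) (o : V) :
    ∃ S : Finset V, S.Nonempty ∧ ∀ x, ∃ g ∈ Γ, ∃ s ∈ S, g s = x := by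
  classical
  have := hfi
  have : Finite ((G ≃g G) ⧸ Γ) := Subgroup.finite_quotient_of_finiteIndex
  have : Fintype ((G ≃g G) ⧸ Γ) := Fintype.ofFinite _
  refine ⟨Finset.univ.image fun q : (G ≃g G) ⧸ Γ => (q.out)⁻¹ o, ?_, fun x => ?_⟩
  · exact Finset.univ_nonempty.image _
  · obtain ⟨φ, hφ⟩ := hG.tr o x
    set a : G ≃g G := ((φ⁻¹ : G ≃g G) : (G ≃g G) ⧸ Γ).out with ha
    have h1 : a⁻¹ * φ⁻¹ ∈ Γ := by
      rw [← QuotientGroup.eq, ha, QuotientGroup.out_eq']
    refine ⟨(a⁻¹ * φ⁻¹)⁻¹, Γ.inv_mem h1, a⁻¹ o, ?_, ?_⟩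
    · exact Finset.mem_image.2 ⟨_, Finset.mem_univ _, rfl⟩
    · rw [mul_inv_rev, inv_inv, inv_inv, RelIso.mul_apply]
      have : a (a⁻¹ o) = o := RelIso.apply_inv_self a o
      rw [this, hφ]

/-- a uniform positive step and a Lipschitz constant -/
theorem exists_consts (hG : TG G) (hs : HS G) (o : V) : ∃ c0 Lp : ℝ, 0 < c0 ∧ 0 < Lp ∧
    (∀ x, ∃ y, G.Adj x y ∧ hs.u x + c0 ≤ hs.u y) ∧ (∀ x, ∃ y, G.Adj x y ∧ hs.u y + c0 ≤ hs.u x) ∧
    (∀ x y, G.Adj x y → |hs.u x - hs.u y| ≤ Lp) := by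
  classical
  obtain ⟨S, hSne, hS⟩ := exists_reps_const hG hs.Γ hs.fi o
  choose up hup1 hup2 using hs.up
  choose dn hdn1 hdn2 using hs.dn
  have equi' : ∀ g ∈ hs.Γ, ∀ x y, hs.u (g x) - hs.u (g y) = hs.u x - hs.u y := by
    intro g hg x y
    rw [hs.equi g hg, hs.equi g hg]; ring
  obtain ⟨s1, hs1, hmin1⟩ := S.exists_min_image (fun s => hs.u (up s) - hs.u s) hSne
  obtain ⟨s2, hs2, hmin2⟩ := S.exists_min_image (fun s => hs.u s - hs.u (dn s)) hSne
  refine ⟨min (hs.u (up s1) - hs.u s1) (hs.u s2 - hs.u (dn s2)),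
    1 + ∑ s ∈ S, ∑ y ∈ nb hG s, |hs.u s - hs.u y|, ?_, ?_, ?_, ?_, ?_⟩
  · exact lt_min (sub_pos.2 (hup2 s1)) (sub_pos.2 (hdn2 s2))
  · positivity
  · intro x
    obtain ⟨g, hg, s, hs', rfl⟩ := hS x
    refine ⟨g (up s), g.map_adj_iff.2 (hup1 s), ?_⟩
    have h1 := hmin1 s hs'
    have h2 := equi' g hg (up s) s
    have h3 := min_le_left (hs.u (up s1) - hs.u s1) (hs.u s2 - hs.u (dn s2))
    linarith
  · intro x
    obtain ⟨g, hg, s, hs', rfl⟩ := hS x
    refine ⟨g (dn s), g.map_adj_iff.2 (hdn1 s), ?_⟩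
    have h1 := hmin2 s hs'
    have h2 := equi' g hg s (dn s)
    have h3 := min_le_right (hs.u (up s1) - hs.u s1) (hs.u s2 - hs.u (dn s2))
    linarith
  · intro x y hxy
    obtain ⟨g, hg, s, hs', rfl⟩ := hS x
    have h1 : G.Adj s (g.symm y) := by
      rw [← g.map_adj_iff, g.apply_symm_apply]; exact hxy
    have h2 := equi' g hg s (g.symm y)
    rw [g.apply_symm_apply] at h2
    rw [h2]
    have h3 : |hs.u s - hs.u (g.symm y)| ≤ ∑ y ∈ nb hG s, |hs.u s - hs.u y| :=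
      Finset.single_le_sum (f := fun y => |hs.u s - hs.u y|) (fun _ _ => abs_nonneg _)
        ((mem_nb hG).2 h1)
    have h4 : ∑ y ∈ nb hG s, |hs.u s - hs.u y| ≤ ∑ s ∈ S, ∑ y ∈ nb hG s, |hs.u s - hs.u y| :=
      Finset.single_le_sum (f := fun s => ∑ y ∈ nb hG s, |hs.u s - hs.u y|)
        (fun _ _ => Finset.sum_nonneg fun _ _ => abs_nonneg _) hs'
    linarith

/-- Lipschitz functions and distances -/
lemma lip_dist (hG : TG G) {w : V → ℝ} {Lp : ℝ} (h : ∀ x y, G.Adj x y → |w x - w y| ≤ Lp)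
    (x y : V) : |w x - w y| ≤ Lp * G.dist x y := by
  have key : ∀ (s : List V) (x : V), ch G x s → |w x - w (en x s)| ≤ Lp * s.length := by
    intro s
    induction s with
    | nil => intro x _; simp
    | cons a s ih =>
      intro x hx
      have h1 := h x a hx.1
      have h2 := ih a hx.2
      rw [en_cons, List.length_cons]
      push_cast
      have h3 : w x - w (en a s) = (w x - w a) + (w a - w (en a s)) := by ring
      rw [h3]
      refine (abs_add_le _ _).trans ?_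
      linarith
  have := key (geo hG x y) x (ch_geo hG x y)
  rwa [en_geo, length_geo] at this

/-- rays along which `w` increases by at least `c0` at every step -/
lemma exists_ray {w : V → ℝ} {c0 : ℝ} (hc0 : 0 < c0) (h : ∀ x, ∃ y, G.Adj x y ∧ w x + c0 ≤ w y)
    (l : ℕ) (x : V) : ∃ s : List V, s.length = l ∧ sa G x s ∧ (∀ y ∈ s, w x + c0 ≤ w y) ∧
      w x + l * c0 ≤ w (en x s) ∧ ∀ y ∈ x :: s, w y ≤ w (en x s) := by
  induction l generalizing x with
  | zero => exact ⟨[], rfl, sa_nil x, by simp, by simp, by simp⟩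
  | succ l ih =>
    obtain ⟨y, hy1, hy2⟩ := h x
    obtain ⟨s, h1, h2, h3, h4, h5⟩ := ih y
    have h6 : ∀ z ∈ y :: s, w x + c0 ≤ w z := by
      intro z hz
      rcases List.mem_cons.1 hz with rfl | hz
      · exact hy2
      · have := h3 z hz; linarith
    refine ⟨y :: s, by simp [h1], ⟨⟨hy1, h2.1⟩, ?_⟩, h6, ?_, ?_⟩
    · rw [List.nodup_cons]
      refine ⟨fun hx => ?_, h2.2⟩
      have := h6 x hx
      linarith
    · rw [en_cons]; push_cast; linarith
    · intro z hz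
      rw [en_cons]
      rcases List.mem_cons.1 hz with rfl | hz
      · have := h5 y (by simp)
        linarith
      · exact h5 z hz

end Pool.H61.ST
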