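import Pool.Agent.H61.ST.Final

set_option autoImplicit false

/-! Continuity of the connective constant in terms of one ball. -/

namespace Pool.H61.ST

open Finset Filter Topology Pool.Agent.H61.SW Pool.H98.C

/-- restriction of an isomorphism of balls to a smaller ball -/
theorem BI_mono {V W : Type} {G : SimpleGraph V} {H : SimpleGraph W} (hG : TG G) (hH : TG H)
    {o : V} {p : W} {r n : ℕ} (hn : n ≤ r) (h : BI G o H p r) : BI G o H p n := by
  obtain ⟨φ, hφ⟩ := h
  obtain ⟨J⟩ := LI.of_iso p o r φ hφ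
  have I : LI G o H p n := (J.mono hH hG hn).symm
  refine ⟨⟨⟨fun x => ⟨I.f x, I.mem x x.2⟩, fun y => ⟨I.f' y, I.mem' y y.2⟩,
    fun x => Subtype.ext (I.inv x x.2), fun y => Subtype.ext (I.inv' y y.2)⟩, ?_⟩, ?_⟩
  · intro x y
    constructor
    · intro h
      have h1 := I.adj' _ _ (I.mem x x.2) (I.mem y y.2) h
      rw [I.inv x x.2, I.inv y y.2] at h1
      exact h1
    · intro h
      exact I.adj _ _ x.2 y.2 h
  · intro x hx
    show I.f x = p
    rw [hx, I.fo]

theorem ball_continuity {V : Type} [Infinite V] {G : SimpleGraph V} (hG : TG G) (o : V) {μ : ℝ}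
    (hμ : Tendsto (fun n : ℕ => (cnt (sa G) o n : ℝ) ^ ((1 : ℝ) / n)) atTop (𝓝 μ))
    (ε : ℝ) (hε : 0 < ε) :
    ∃ r : ℕ, ∀ (W : Type) [Infinite W] (H : SimpleGraph W) (p : W) (m : ℝ), TG H →
      Tendsto (fun n : ℕ => (cnt (sa H) p n : ℝ) ^ ((1 : ℝ) / n)) atTop (𝓝 m) →
      BI G o H p r → |m - μ| < ε := by
  have hμ1 : 1 ≤ μ := one_le_mu hG o hμ
  have heqG : ∀ v n, cnt (sa G) v n = cnt (sa G) o n := fun v n => cnt_eq hG v n
  -- upper bound
  obtain ⟨n, h1, h2⟩ := ((hμ.eventually (gt_mem_nhds (show μ < μ + ε by linarith))).and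
    (eventually_gt_atTop 0)).exists
  -- lower bound
  have hlow : ∃ n0 : ℕ, ∀ (W : Type) [Infinite W] (H : SimpleGraph W) (p : W) (m : ℝ), TG H →
      Tendsto (fun n : ℕ => (cnt (sa H) p n : ℝ) ^ ((1 : ℝ) / n)) atTop (𝓝 m) →
      (∀ n ≤ n0, BI G o H p n) → μ - ε < m := by
    by_cases hgr : ∃ c : ℝ, 0 < c ∧ ∀ r : ℕ, 1 ≤ r →
      c * (r : ℝ) ^ 5 ≤ ((Set.ncard {v : V | G.dist o v ≤ r} : ℕ) : ℝ)
    · obtain ⟨c, hc, hgrow⟩ := hgr
      have hpow : ∀ n, μ ^ n ≤ (cnt (sa G) o n : ℝ) := by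
        intro n
        rcases Nat.eq_zero_or_pos n with rfl | hn
        · rw [pow_zero, sigma_zero]; norm_num
        have h4 := mu_pow_le hG.lf o heqG hμ n hn
        calc μ ^ n ≤ ((cnt (sa G) o n : ℝ) ^ ((1 : ℝ) / n)) ^ n :=
              pow_le_pow_left₀ (by linarith) h4 n
          _ = (cnt (sa G) o n : ℝ) := by
            rw [← Real.rpow_natCast, ← Real.rpow_mul (Nat.cast_nonneg _)]
            have : (n : ℝ) ≠ 0 := by exact_mod_cast hn.ne'
            rw [one_div_mul_cancel this, Real.rpow_one]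
      obtain ⟨n0, hn0⟩ := lower_bound μ c (max 1 (cnt (sa G) o 1 : ℝ)) hc (le_max_left _ _)
        (fun n => cnt (sa G) o n) (fun r => Set.ncard {v | G.dist o v ≤ r}) (le_max_right _ _)
        hpow hgrow (μ - ε) (by linarith) (by linarith)
      refine ⟨n0, fun W _ H p m hH hm hB => hn0 W H p m hH hm (fun k hk => ?_) fun k hk => ?_⟩
      · obtain ⟨φ, hφ⟩ := hB k hk
        exact (cnt_sa_eq_of_iso o p k hG.lf hH.lf φ hφ).symm
      · obtain ⟨φ, hφ⟩ := hB k hk
        show Set.ncard {v | H.dist p v ≤ k} = Set.ncard {v | G.dist o v ≤ k}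
        rw [← Nat.card_coe_set_eq, ← Nat.card_coe_set_eq]
        exact (Nat.card_congr φ.toEquiv).symm
    · have hpg : PG hG o 5 := by
        intro N
        by_contra hN
        push Not at hN
        refine hgr ⟨1 / ((N : ℝ) + 1) ^ 5, by positivity, fun r hr => ?_⟩
        have h2 : ((Set.ncard {v : V | G.dist o v ≤ r} : ℕ) : ℝ) = ((bl hG o r).card : ℝ) := by
          rw [card_bl_ncard]
        have hr1 : (1 : ℝ) ≤ ((bl hG o r).card : ℝ) := by
          exact_mod_cast card_bl_pos hG o r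
        rw [h2, one_div_mul_eq_div, div_le_iff₀ (by positivity)]
        by_cases h : N ≤ r
        · have h1 := hN r h
          have h3 : (1 : ℝ) ≤ ((N : ℝ) + 1) ^ 5 :=
            one_le_pow₀ (by linarith [Nat.cast_nonneg (α := ℝ) N])
          nlinarith
        · have h4 : (r : ℝ) ≤ (N : ℝ) + 1 := by
            have : r ≤ N + 1 := by omega
            exact_mod_cast this
          have h5 : (r : ℝ) ^ 5 ≤ ((N : ℝ) + 1) ^ 5 := pow_le_pow_left₀ (Nat.cast_nonneg _) h4 5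
          nlinarith [pow_nonneg (by positivity : (0 : ℝ) ≤ (N : ℝ) + 1) 5]
      obtain ⟨n0, hn0⟩ := pg_lower hG o 5 hpg hμ (μ - ε) (by linarith)
      exact ⟨n0, fun W _ H p m hH hm hB => hn0 W H p m hH hm hB⟩
  obtain ⟨n0, hn0⟩ := hlow
  refine ⟨n0 + n, fun W _ H p m hH hm hB => ?_⟩
  have hup : m < μ + ε := by
    obtain ⟨φ, hφ⟩ := BI_mono hG hH (Nat.le_add_left n n0) hB
    have h3 := cnt_sa_eq_of_iso o p n hG.lf hH.lf φ hφ
    have h4 := mu_pow_le hH.lf p (fun v k => cnt_eq hH v k) hm n h2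
    rw [← h3] at h4
    exact h4.trans_lt h1
  have hlo := hn0 W H p m hH hm fun k hk => BI_mono hG hH (by omega) hB
  rw [abs_lt]
  constructor <;> linarith

end Pool.H61.ST
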