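import Pool.Agent.H98.C.Uni
import Pool.Agent.H98.C.ExpoDefs

set_option autoImplicit false

/-! Structure theory of transitive graphs of polynomial growth: definitions. -/

namespace Pool.H61.ST

open Finset Pool.Agent.H61.SW Pool.H98.C

variable {V : Type} {G : SimpleGraph V} (hG : TG G)

/-- neighbours of a vertex -/
noncomputable def nb (x : V) : Finset V := (hG.lf x).toFinset

@[simp] lemma mem_nb {x y : V} : y ∈ nb hG x ↔ G.Adj x y := by simp [nb]

lemma mem_nb_comm {x y : V} : y ∈ nb hG x ↔ x ∈ nb hG y := by simp [G.adj_comm]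

lemma nb_iso (g : G ≃g G) (x : V) : (nb hG x).map g.toEquiv.toEmbedding = nb hG (g x) := by
  ext y
  simp only [Finset.mem_map, mem_nb]
  constructor
  · rintro ⟨z, hz, rfl⟩
    exact g.map_adj_iff.2 hz
  · intro hy
    refine ⟨g.symm y, ?_, g.apply_symm_apply y⟩
    rw [← g.map_adj_iff, g.apply_symm_apply]; exact hy

lemma sum_nb_iso {M : Type*} [AddCommMonoid M] (g : G ≃g G) (x : V) (f : V → M) :
    ∑ y ∈ nb hG x, f (g y) = ∑ y ∈ nb hG (g x), f y := by
  rw [← nb_iso hG g x, Finset.sum_map]; rfl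

/-- the degree -/
noncomputable def dg (x : V) : ℕ := (nb hG x).card

lemma dg_eq (x y : V) : dg hG x = dg hG y := by
  obtain ⟨g, rfl⟩ := hG.tr x y
  unfold dg
  rw [← nb_iso hG g x, Finset.card_map]

/-- the Laplacian -/
noncomputable def lap (u : V → ℝ) (x : V) : ℝ := ∑ y ∈ nb hG x, (u y - u x)

/-- squared gradient -/
noncomputable def gr (u : V → ℝ) (x : V) : ℝ := ∑ y ∈ nb hG x, (u y - u x) ^ 2

lemma gr_nonneg (u : V → ℝ) (x : V) : 0 ≤ gr hG u x := Finset.sum_nonneg fun _ _ => sq_nonneg _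

lemma lap_comp (g : G ≃g G) (u : V → ℝ) (x : V) : lap hG (u ∘ g) x = lap hG u (g x) := by
  unfold lap
  rw [← sum_nb_iso hG g x (fun y => u y - u (g x))]; rfl

lemma gr_comp (g : G ≃g G) (u : V → ℝ) (x : V) : gr hG (u ∘ g) x = gr hG u (g x) := by
  unfold gr
  rw [← sum_nb_iso hG g x (fun y => (u y - u (g x)) ^ 2)]; rfl

lemma lap_add (u v : V → ℝ) (x : V) : lap hG (u + v) x = lap hG u x + lap hG v x := by
  unfold lap
  rw [← Finset.sum_add_distrib]
  exact Finset.sum_congr rfl fun y _ => by simp only [Pi.add_apply]; ring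

lemma lap_smul (c : ℝ) (u : V → ℝ) (x : V) : lap hG (c • u) x = c * lap hG u x := by
  unfold lap
  rw [Finset.mul_sum]
  exact Finset.sum_congr rfl fun y _ => by simp only [Pi.smul_apply, smul_eq_mul]; ring

/-- polynomial growth along a subsequence -/
def PG (o : V) (D : ℕ) : Prop := ∀ N : ℕ, ∃ r ≥ N, ((bl hG o r).card : ℝ) ≤ (r : ℝ) ^ D

/-- Lipschitz functions -/
def Lip (G : SimpleGraph V) (C : ℝ) (u : V → ℝ) : Prop := ∀ x y, G.Adj x y → |u x - u y| ≤ C

/-- Lipschitz harmonic functions vanishing at `o` -/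
noncomputable def LH (o : V) : Submodule ℝ (V → ℝ) where
  carrier := {u | u o = 0 ∧ (∀ x, lap hG u x = 0) ∧ ∃ C, Lip G C u}
  add_mem' := by
    rintro u v ⟨h1, h2, C, h3⟩ ⟨h4, h5, C', h6⟩
    refine ⟨by simp [h1, h4], fun x => by rw [lap_add, h2, h5, add_zero], C + C', fun x y h => ?_⟩
    have h7 := h3 x y h
    have h8 := h6 x y h
    simp only [Pi.add_apply]
    rw [abs_le] at *
    constructor <;> linarith [h7.1, h7.2, h8.1, h8.2]
  zero_mem' := ⟨rfl, fun x => by simp [lap], 0, fun x y _ => by simp⟩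
  smul_mem' := by
    rintro c u ⟨h1, h2, C, h3⟩
    refine ⟨by simp [h1], fun x => by rw [lap_smul, h2, mul_zero], |c| * C, fun x y h => ?_⟩
    simp only [Pi.smul_apply, smul_eq_mul]
    rw [← mul_sub, abs_mul]
    exact mul_le_mul_of_nonneg_left (h3 x y h) (abs_nonneg c)

/-- A height structure: finite index normal subgroup `Γ` of the automorphism group, homomorphism
`χ` to the integers, height function `u` with exact equivariance, and every vertex has a strictly
higher and a strictly lower neighbour. -/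
structure HS (G : SimpleGraph V) where
  Γ : Subgroup (G ≃g G)
  nor : Γ.Normal
  fi : Γ.FiniteIndex
  χ : (G ≃g G) → ℤ
  mul : ∀ g ∈ Γ, ∀ h ∈ Γ, χ (g * h) = χ g + χ h
  ne : ∃ g ∈ Γ, χ g ≠ 0
  u : V → ℝ
  equi : ∀ g ∈ Γ, ∀ x, u (g x) = u x + χ g
  up : ∀ x, ∃ y, G.Adj x y ∧ u x < u y
  dn : ∀ x, ∃ y, G.Adj x y ∧ u y < u x

end Pool.H61.ST
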