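import Pool.Agent.H61.ST.Defs

set_option autoImplicit false

/-! Definitions for the chaining arguments (lines, quasi-lines, superblocks, families of walks). -/

namespace Pool.H61.ST

open Finset Pool.Agent.H61.SW Pool.H98.C

/-- a bi-infinite geodesic -/
def IsLine {V : Type} (G : SimpleGraph V) (γ : ℤ → V) : Prop :=
  ∀ i j : ℤ, (G.dist (γ i) (γ j) : ℤ) = |i - j|

/-- a geodesic segment with indices in `[-p, p]` -/
def IsSeg {V : Type} (G : SimpleGraph V) (p : ℕ) (σ : ℤ → V) : Prop :=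
  ∀ i j : ℤ, |i| ≤ p → |j| ≤ p → (G.dist (σ i) (σ j) : ℤ) = |i - j|

/-- a coarse isometry to the integers -/
def QLn {V : Type} (G : SimpleGraph V) (f : V → ℤ) (C : ℕ) : Prop :=
  ∀ y z : V, |(|f y - f z|) - (G.dist y z : ℤ)| ≤ C

/-- every geodesic segment can be replaced, near its centre, by a heavy family of walks -/
def Super {V : Type} (G : SimpleGraph V) (t : ℝ) (p ρ : ℕ) : Prop :=
  ∀ σ : ℤ → V, IsSeg G p σ →
    ∃ (τ₁ τ₂ : ℤ) (F : Finset (List V)), -(ρ : ℤ) ≤ τ₁ ∧ τ₁ ≤ τ₂ ∧ τ₂ ≤ ρ ∧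
      (∀ s ∈ F, sa G (σ τ₁) s ∧ en (σ τ₁) s = σ τ₂ ∧ (∀ z ∈ s, G.dist (σ 0) z ≤ ρ) ∧
        ∀ i : ℤ, |i| ≤ p → (i < τ₁ ∨ τ₂ < i) → σ i ∉ s) ∧
      2 ≤ (∑ s ∈ F, t ^ s.length) * t ^ (p - (τ₂ - τ₁).toNat)

/-- all walks of `F` run from `x` to `y` inside `A` -/
def Fm {V : Type} (G : SimpleGraph V) (x y : V) (A : Set V) (F : Finset (List V)) : Prop :=
  ∀ s ∈ F, sa G x s ∧ en x s = y ∧ ∀ z ∈ x :: s, z ∈ A

/-- weight of a family of walks -/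
noncomputable def fw {V : Type} (t : ℝ) (F : Finset (List V)) : ℝ := ∑ s ∈ F, t ^ s.length

/-- orbit of `x` under the kernel of the height homomorphism -/
def orbK {V : Type} {G : SimpleGraph V} (hs : HS G) (x : V) : Set V :=
  {y | ∃ l ∈ hs.Γ, hs.χ l = 0 ∧ l x = y}

/-- graph on the kernel orbit: vertices at distance at most `C` are adjacent -/
def slab {V : Type} {G : SimpleGraph V} (hs : HS G) (x : V) (C : ℕ) :
    SimpleGraph ↥(orbK hs x) where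
  Adj y z := y ≠ z ∧ G.dist (y : V) z ≤ C
  symm := ⟨fun y z h => ⟨h.1.symm, by rw [SimpleGraph.dist_comm]; exact h.2⟩⟩
  loopless := ⟨fun y h => h.1 rfl⟩

/-- `(i, j) ↦ s^i g^j x` is a quasi-isometry from the square lattice onto the graph -/
structure LatQI {V : Type} (G : SimpleGraph V) (s g : G ≃g G) (x : V) (C : ℕ) : Prop where
  q1 : ∀ j : ℤ, G.dist ((g ^ j) x) (s ((g ^ j) x)) ≤ C
  q2 : ∀ i j i' j' : ℤ, |i - i'| + |j - j'| ≤
    C * (G.dist ((s ^ i) ((g ^ j) x)) ((s ^ i') ((g ^ j') x)) + 1)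
  q3 : ∀ v, ∃ i j : ℤ, G.dist v ((s ^ i) ((g ^ j) x)) ≤ C

/-- region of a row of tubes: near the lattice rectangle, and everything below height `u x` is near
the bottom connectors -/
def RowReg {V : Type} (G : SimpleGraph V) (u : V → ℝ) (s g : G ≃g G) (x : V)
    (Ce J b iB N : ℕ) : Set V :=
  {v | (∃ i j : ℤ, 0 ≤ i ∧ i ≤ iB ∧ -(J : ℤ) ≤ j ∧ j ≤ N + J ∧
      G.dist v ((s ^ i) ((g ^ j) x)) ≤ Ce) ∧
    (u v < u x → ∃ i j : ℤ, (b : ℤ) ≤ i ∧ i ≤ iB - b ∧ -(J : ℤ) ≤ j ∧ j ≤ 0 ∧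
      G.dist v ((s ^ i) ((g ^ j) x)) ≤ Ce)}

end Pool.H61.ST
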