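import Mathlib

set_option autoImplicit false

/-! Two quadratic forms. -/

namespace Pool.H61.ST

open Matrix

lemma sym_diag {m : ℕ} (M : Matrix (Fin m) (Fin m) ℝ) (h : M.IsHermitian) :
    ∃ (P : Matrix (Fin m) (Fin m) ℝ) (l : Fin m → ℝ), Pᵀ * P = 1 ∧ P * Pᵀ = 1 ∧
      M = P * diagonal l * Pᵀ ∧ l = h.eigenvalues := by
  have h1 : ((h.eigenvectorUnitary : Matrix (Fin m) (Fin m) ℝ))ᵀ *
      (h.eigenvectorUnitary : Matrix (Fin m) (Fin m) ℝ) = 1 := by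
    have := Unitary.coe_star_mul_self h.eigenvectorUnitary
    rwa [Matrix.star_eq_conjTranspose, Matrix.conjTranspose_eq_transpose_of_trivial] at this
  refine ⟨(h.eigenvectorUnitary : Matrix (Fin m) (Fin m) ℝ), h.eigenvalues, h1, ?_, ?_, rfl⟩
  · exact mul_eq_one_comm.1 h1
  · have := h.spectral_theorem
    rw [Unitary.conjStarAlgAut_apply, Matrix.star_eq_conjTranspose,
      Matrix.conjTranspose_eq_transpose_of_trivial] at this
    exact this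

lemma exists_sqrt {m : ℕ} (M : Matrix (Fin m) (Fin m) ℝ) (h : M.PosDef) :
    ∃ C : Matrix (Fin m) (Fin m) ℝ, M = Cᵀ * C := by
  obtain ⟨P, l, hP1, hP2, hM, hl⟩ := sym_diag M h.1
  have hl0 : ∀ i, 0 < l i := by
    intro i; rw [hl]; exact h.eigenvalues_pos i
  refine ⟨diagonal (fun i => Real.sqrt (l i)) * Pᵀ, ?_⟩
  have h2 : diagonal (fun i => Real.sqrt (l i)) * diagonal (fun i => Real.sqrt (l i)) =
      diagonal l := by
    rw [Matrix.diagonal_mul_diagonal]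
    congr 1
    ext i
    exact Real.mul_self_sqrt (hl0 i).le
  rw [hM, Matrix.transpose_mul, Matrix.transpose_transpose, Matrix.diagonal_transpose, ← h2]
  simp only [Matrix.mul_assoc]

lemma simul {m : ℕ} (M₁ M₂ : Matrix (Fin m) (Fin m) ℝ) (h1 : M₁.PosSemidef)
    (h2 : M₂.PosDef) :
    ∃ (Q : Matrix (Fin m) (Fin m) ℝ) (l : Fin m → ℝ), Q.det ≠ 0 ∧ M₂ = Qᵀ * Q ∧
      M₁ = Qᵀ * diagonal l * Q := by
  obtain ⟨C, hCC⟩ := exists_sqrt M₂ h2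
  have hCd : C.det ≠ 0 := by
    intro h
    have : M₂.det = 0 := by rw [hCC, Matrix.det_mul, h, mul_zero]
    exact h2.det_pos.ne' this
  have hCu : IsUnit C.det := isUnit_iff_ne_zero.2 hCd
  obtain ⟨N, hNH, hM1⟩ : ∃ N : Matrix (Fin m) (Fin m) ℝ, N.IsHermitian ∧ M₁ = Cᵀ * N * C := by
    refine ⟨(C⁻¹)ᵀ * M₁ * C⁻¹, ?_, ?_⟩
    · have := (h1.conjTranspose_mul_mul_same C⁻¹).1
      rwa [Matrix.conjTranspose_eq_transpose_of_trivial] at this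
    · have h3 : Cᵀ * (C⁻¹)ᵀ = 1 := by
        rw [← Matrix.transpose_mul, Matrix.nonsing_inv_mul C hCu, Matrix.transpose_one]
      calc M₁ = (Cᵀ * (C⁻¹)ᵀ) * M₁ * (C⁻¹ * C) := by
            rw [h3, Matrix.nonsing_inv_mul C hCu, Matrix.one_mul, Matrix.mul_one]
        _ = _ := by simp only [Matrix.mul_assoc]
  obtain ⟨P, l, hP1, hP2, hN, -⟩ := sym_diag N hNH
  refine ⟨Pᵀ * C, l, ?_, ?_, ?_⟩
  · rw [Matrix.det_mul]
    refine mul_ne_zero ?_ hCd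
    intro h
    have : (P * Pᵀ).det = 1 := by rw [hP2, Matrix.det_one]
    rw [Matrix.det_mul, h, mul_zero] at this
    exact zero_ne_one this
  · rw [hCC, Matrix.transpose_mul, Matrix.transpose_transpose]
    calc Cᵀ * C = Cᵀ * (P * Pᵀ) * C := by rw [hP2, Matrix.mul_one]
      _ = _ := by simp only [Matrix.mul_assoc]
  · rw [hM1, hN, Matrix.transpose_mul, Matrix.transpose_transpose]
    simp only [Matrix.mul_assoc]

lemma quad_diag {m : ℕ} (Q : Matrix (Fin m) (Fin m) ℝ) (l : Fin m → ℝ) (x : Fin m → ℝ) :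
    x ⬝ᵥ ((Qᵀ * diagonal l * Q) *ᵥ x) = ∑ i, l i * ((Q *ᵥ x) i) ^ 2 := by
  have h1 : (Qᵀ * diagonal l * Q) *ᵥ x = Qᵀ *ᵥ (diagonal l *ᵥ (Q *ᵥ x)) := by
    rw [Matrix.mulVec_mulVec, Matrix.mulVec_mulVec]
  rw [h1, Matrix.dotProduct_mulVec, Matrix.vecMul_transpose]
  simp only [dotProduct, Matrix.mulVec_diagonal]
  exact Finset.sum_congr rfl fun i _ => by ring

lemma quad_one {m : ℕ} (Q : Matrix (Fin m) (Fin m) ℝ) (x : Fin m → ℝ) :
    x ⬝ᵥ ((Qᵀ * Q) *ᵥ x) = ∑ i, ((Q *ᵥ x) i) ^ 2 := by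
  have := quad_diag Q (fun _ => 1) x
  rw [Matrix.diagonal_one, Matrix.mul_one] at this
  rw [this]
  exact Finset.sum_congr rfl fun i _ => by ring

lemma simul_bd {m : ℕ} (M₁ M₂ : Matrix (Fin m) (Fin m) ℝ) (h1 : M₁.PosSemidef)
    (h2 : M₂.PosDef) (hle : ∀ x : Fin m → ℝ, x ⬝ᵥ (M₁ *ᵥ x) ≤ x ⬝ᵥ (M₂ *ᵥ x)) :
    ∃ (Q : Matrix (Fin m) (Fin m) ℝ) (l : Fin m → ℝ), Q.det ≠ 0 ∧ M₂ = Qᵀ * Q ∧
      M₁ = Qᵀ * diagonal l * Q ∧ (∀ i, 0 ≤ l i) ∧ (∀ i, l i ≤ 1) ∧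
      M₁.det = M₂.det * ∏ i, l i := by
  obtain ⟨Q, l, hQ, hM2, hM1⟩ := simul M₁ M₂ h1 h2
  have hQu : IsUnit Q.det := isUnit_iff_ne_zero.2 hQ
  have hv : ∀ i, Q *ᵥ (Q⁻¹ *ᵥ (Pi.single i 1)) = Pi.single i 1 := by
    intro i
    rw [Matrix.mulVec_mulVec, Matrix.mul_nonsing_inv Q hQu, Matrix.one_mulVec]
  have k1 : ∀ i, (Q⁻¹ *ᵥ (Pi.single i 1)) ⬝ᵥ (M₁ *ᵥ (Q⁻¹ *ᵥ (Pi.single i 1))) = l i := by
    intro i
    rw [hM1, quad_diag, hv i]
    simp [Pi.single_apply]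
  have k2 : ∀ i, (Q⁻¹ *ᵥ (Pi.single i 1)) ⬝ᵥ (M₂ *ᵥ (Q⁻¹ *ᵥ (Pi.single i 1))) = 1 := by
    intro i
    rw [hM2, quad_one, hv i]
    simp [Pi.single_apply]
  refine ⟨Q, l, hQ, hM2, hM1, fun i => ?_, fun i => ?_, ?_⟩
  · rw [← k1 i]
    have := h1.dotProduct_mulVec_nonneg (Q⁻¹ *ᵥ (Pi.single i 1))
    simpa using this
  · have h5 := hle (Q⁻¹ *ᵥ (Pi.single i 1))
    rw [k1 i, k2 i] at h5
    exact h5
  · rw [hM1, hM2]
    simp only [Matrix.det_mul, Matrix.det_transpose, Matrix.det_diagonal]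
    ring

theorem half_space {m : ℕ} (M₁ M₂ : Matrix (Fin m) (Fin m) ℝ) (h1 : M₁.PosSemidef)
    (h2 : M₂.PosDef) (hle : ∀ x : Fin m → ℝ, x ⬝ᵥ (M₁ *ᵥ x) ≤ x ⬝ᵥ (M₂ *ᵥ x)) (c : ℝ)
    (hc0 : 0 < c) (hc1 : c ≤ 1) (hdet : c ^ m * M₂.det ≤ M₁.det) :
    ∃ U : Submodule ℝ (Fin m → ℝ), m ≤ 2 * Module.finrank ℝ U ∧
      ∀ x ∈ U, c ^ 2 * (x ⬝ᵥ (M₂ *ᵥ x)) ≤ x ⬝ᵥ (M₁ *ᵥ x) := by
  classical
  obtain ⟨Q, l, hQ, hM2, hM1, hl0, hl1, hd⟩ := simul_bd M₁ M₂ h1 h2 hle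
  set S : Finset (Fin m) := Finset.univ.filter (fun i => l i < c ^ 2) with hS
  have hSc : 2 * S.card ≤ m := by
    by_contra hcon
    push Not at hcon
    have hprod : c ^ m ≤ ∏ i, l i := by
      rw [hd, mul_comm] at hdet
      exact le_of_mul_le_mul_left hdet h2.det_pos
    have hpos : 0 < ∏ i, l i := lt_of_lt_of_le (pow_pos hc0 m) hprod
    have hlp : ∀ i, 0 < l i := fun i => lt_of_le_of_ne (hl0 i) fun h => by
      rw [Finset.prod_eq_zero (Finset.mem_univ i) h.symm] at hpos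
      exact lt_irrefl _ hpos
    have hle1 : ∏ i, l i ≤ ∏ i ∈ S, l i := by
      rw [← Finset.prod_sdiff (Finset.subset_univ S)]
      have : ∏ i ∈ Finset.univ \ S, l i ≤ 1 := Finset.prod_le_one (fun i _ => hl0 i) fun i _ => hl1 i
      calc (∏ i ∈ Finset.univ \ S, l i) * ∏ i ∈ S, l i ≤ 1 * ∏ i ∈ S, l i :=
            mul_le_mul_of_nonneg_right this (Finset.prod_nonneg fun i _ => hl0 i)
        _ = _ := one_mul _
    have hne : S.Nonempty := by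
      rw [← Finset.card_pos]; omega
    have hlt : ∏ i ∈ S, l i < ∏ _i ∈ S, c ^ 2 :=
      Finset.prod_lt_prod_of_nonempty (fun i _ => hlp i) (fun i hi => (Finset.mem_filter.1 hi).2) hne
    rw [Finset.prod_const, ← pow_mul] at hlt
    have : c ^ (2 * S.card) ≤ c ^ m := pow_le_pow_of_le_one hc0.le hc1 (by omega)
    linarith
  let L : (Fin m → ℝ) →ₗ[ℝ] (S → ℝ) :=
    { toFun := fun x i => (Q *ᵥ x) i.1
      map_add' := fun x y => by ext i; simp [Matrix.mulVec_add]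
      map_smul' := fun a x => by ext i; simp [Matrix.mulVec_smul] }
  refine ⟨LinearMap.ker L, ?_, ?_⟩
  · have hr := LinearMap.finrank_range_add_finrank_ker L
    rw [Module.finrank_fin_fun] at hr
    have hr2 : Module.finrank ℝ (LinearMap.range L) ≤ S.card := by
      calc Module.finrank ℝ (LinearMap.range L) ≤ Module.finrank ℝ (S → ℝ) :=
            Submodule.finrank_le _
        _ = S.card := by rw [Module.finrank_fintype_fun_eq_card, Fintype.card_coe]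
    omega
  · intro x hx
    have hx' : ∀ i ∈ S, (Q *ᵥ x) i = 0 := by
      intro i hi
      have : L x = 0 := hx
      exact congrFun this ⟨i, hi⟩
    rw [hM1, hM2, quad_diag, quad_one, Finset.mul_sum]
    refine Finset.sum_le_sum fun i _ => ?_
    by_cases hi : i ∈ S
    · rw [hx' i hi]; simp
    · have : c ^ 2 ≤ l i := by
        by_contra h
        push Not at h
        exact hi (Finset.mem_filter.2 ⟨Finset.mem_univ i, h⟩)
      exact mul_le_mul_of_nonneg_right this (sq_nonneg _)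

theorem det_le_det {m : ℕ} (M₁ M₂ : Matrix (Fin m) (Fin m) ℝ) (h1 : M₁.PosSemidef)
    (h2 : M₂.PosDef) (hle : ∀ x : Fin m → ℝ, x ⬝ᵥ (M₁ *ᵥ x) ≤ x ⬝ᵥ (M₂ *ᵥ x)) :
    M₁.det ≤ M₂.det := by
  obtain ⟨Q, l, hQ, hM2, hM1, hl0, hl1, hd⟩ := simul_bd M₁ M₂ h1 h2 hle
  rw [hd]
  have : ∏ i, l i ≤ 1 := Finset.prod_le_one (fun i _ => hl0 i) fun i _ => hl1 i
  calc M₂.det * ∏ i, l i ≤ M₂.det * 1 := mul_le_mul_of_nonneg_left this h2.det_pos.le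
    _ = _ := mul_one _

end Pool.H61.ST
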