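import Mathlib

set_option autoImplicit false

/-! Choice of scales (module SCALE). -/

namespace Pool.H61.ST

theorem exists_scale (v φ : ℕ → ℝ) (hv : Monotone v) (hφ : Monotone φ) (a b : ℝ) (ha : 0 < a)
    (hK : ∀ N : ℕ, ∃ K ≥ N, v K ≤ a * K + b ∧ φ K ≤ a * K + b) (w k₀ : ℕ) :
    ∃ k ≥ k₀, w + 1 ≤ k ∧ φ (k + 1) - φ k ≤ 5 * a ∧
      v (k - w + 1) - v (k - w - 1) ≤ 10 * a ∧
      v (k + 1) - v (k - w - 1) ≤ 5 * (w + 2) * a := by
  by_contra hcon
  push Not at hcon
  have hw : (0 : ℝ) < 5 * (w + 2) * a := by positivity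
  set S : ℕ → ℝ := fun j => ∑ i ∈ Finset.range (w + 2), v (j + i) with hS
  set Φ : ℕ → ℝ := fun j => φ (j + w + 1) / (5 * a) + (v j + v (j + 1)) / (10 * a) +
    S j / (5 * (w + 2) * a) with hΦ
  have hSs : ∀ j, S (j + 1) - S j = v (j + w + 2) - v j := by
    intro j
    have h1 : S (j + 1) = ∑ i ∈ Finset.range (w + 1), v (j + 1 + i) + v (j + 1 + (w + 1)) := by
      simp only [hS]; rw [Finset.sum_range_succ]
    have h2 : S j = ∑ i ∈ Finset.range (w + 1), v (j + (i + 1)) + v (j + 0) := by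
      simp only [hS]; rw [Finset.sum_range_succ']
    rw [h1, h2]
    have h3 : ∑ i ∈ Finset.range (w + 1), v (j + 1 + i) = ∑ i ∈ Finset.range (w + 1), v (j + (i + 1)) :=
      Finset.sum_congr rfl fun i _ => by congr 1; ring
    rw [h3]
    have h4 : j + 1 + (w + 1) = j + w + 2 := by ring
    rw [h4, add_zero]; ring
  have hstep : ∀ j ≥ k₀, Φ j + 1 ≤ Φ (j + 1) := by
    intro j hj
    have e1 : Φ (j + 1) - Φ j = (φ (j + w + 2) - φ (j + w + 1)) / (5 * a) +
        (v (j + 2) - v j) / (10 * a) + (v (j + w + 2) - v j) / (5 * (w + 2) * a) := by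
      have e2 : j + 1 + w + 1 = j + w + 2 := by ring
      simp only [hΦ]
      rw [e2, ← hSs j]
      ring
    have p1 : 0 ≤ (φ (j + w + 2) - φ (j + w + 1)) / (5 * a) :=
      div_nonneg (sub_nonneg.2 (hφ (by omega))) (by positivity)
    have p2 : 0 ≤ (v (j + 2) - v j) / (10 * a) :=
      div_nonneg (sub_nonneg.2 (hv (by omega))) (by positivity)
    have p3 : 0 ≤ (v (j + w + 2) - v j) / (5 * (w + 2) * a) :=
      div_nonneg (sub_nonneg.2 (hv (by omega))) hw.le
    have hc := hcon (j + w + 1) (by omega) (by omega)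
    have e3 : j + w + 1 - w + 1 = j + 2 := by omega
    have e4 : j + w + 1 - w - 1 = j := by omega
    have e5 : j + w + 1 + 1 = j + w + 2 := by omega
    rw [e3, e4, e5] at hc
    by_cases c1 : φ (j + w + 2) - φ (j + w + 1) ≤ 5 * a
    · by_cases c2 : v (j + 2) - v j ≤ 10 * a
      · have c3 := hc c1 c2
        have : 1 ≤ (v (j + w + 2) - v j) / (5 * (w + 2) * a) := by
          rw [le_div_iff₀ hw]; linarith
        linarith
      · have : 1 ≤ (v (j + 2) - v j) / (10 * a) := by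
          rw [le_div_iff₀ (by positivity)]; push Not at c2; linarith
        linarith
    · have : 1 ≤ (φ (j + w + 2) - φ (j + w + 1)) / (5 * a) := by
        rw [le_div_iff₀ (by positivity)]; push Not at c1; linarith
      linarith
  have hgrow : ∀ n : ℕ, Φ k₀ + n ≤ Φ (k₀ + n) := by
    intro n
    induction n with
    | zero => simp
    | succ n ih =>
      have := hstep (k₀ + n) (by omega)
      push_cast
      rw [← add_assoc k₀ n 1]
      linarith
  have hup : ∀ j, Φ j ≤ (φ (j + w + 2) + 2 * v (j + w + 2)) / (5 * a) := by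
    intro j
    have q1 : φ (j + w + 1) / (5 * a) ≤ φ (j + w + 2) / (5 * a) :=
      div_le_div_of_nonneg_right (hφ (by omega)) (by positivity)
    have q2 : (v j + v (j + 1)) / (10 * a) ≤ (2 * v (j + w + 2)) / (10 * a) := by
      apply div_le_div_of_nonneg_right _ (by positivity)
      have := hv (show j ≤ j + w + 2 by omega)
      have := hv (show j + 1 ≤ j + w + 2 by omega)
      linarith
    have q3 : S j / (5 * (w + 2) * a) ≤ ((w + 2) * v (j + w + 2)) / (5 * (w + 2) * a) := by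
      apply div_le_div_of_nonneg_right _ hw.le
      have : S j ≤ ∑ i ∈ Finset.range (w + 2), v (j + w + 2) :=
        Finset.sum_le_sum fun i hi => hv (by have := Finset.mem_range.1 hi; omega)
      simpa using this
    have q4 : ((w + 2 : ℝ) * v (j + w + 2)) / (5 * (w + 2) * a) = v (j + w + 2) / (5 * a) := by
      have : (w + 2 : ℝ) ≠ 0 := by positivity
      field_simp
    have q5 : (2 * v (j + w + 2)) / (10 * a) = v (j + w + 2) / (5 * a) := by
      field_simp; ring
    have q6 : (φ (j + w + 2) + 2 * v (j + w + 2)) / (5 * a) =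
        φ (j + w + 2) / (5 * a) + v (j + w + 2) / (5 * a) + v (j + w + 2) / (5 * a) := by
      ring
    rw [q6]
    simp only [hΦ]
    linarith
  -- choose K
  obtain ⟨N, hN⟩ := exists_nat_gt ((5 / 2) * (3 * b / (5 * a) + w + 2 + k₀ - Φ k₀))
  obtain ⟨K, hK1, hK2, hK3⟩ := hK (N + w + 2 + k₀)
  obtain ⟨n, rfl⟩ : ∃ n, K = k₀ + n + w + 2 := ⟨K - (k₀ + w + 2), by omega⟩
  have h1 := hgrow n
  have h2 := hup (k₀ + n)
  have h3 : (φ (k₀ + n + w + 2) + 2 * v (k₀ + n + w + 2)) / (5 * a) ≤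
      3 * ((k₀ + n + w + 2 : ℕ) : ℝ) / 5 + 3 * b / (5 * a) := by
    have e : 3 * ((k₀ + n + w + 2 : ℕ) : ℝ) / 5 + 3 * b / (5 * a) =
        (3 * (a * ((k₀ + n + w + 2 : ℕ) : ℝ) + b)) / (5 * a) := by
      field_simp
    rw [e]
    apply div_le_div_of_nonneg_right _ (by positivity)
    linarith
  have h4 : (N : ℝ) ≤ n := by exact_mod_cast (by omega : N ≤ n)
  push_cast at h3
  have hk : (0 : ℝ) ≤ k₀ := Nat.cast_nonneg _
  have hw' : (0 : ℝ) ≤ w := Nat.cast_nonneg _
  have h5 : (N : ℝ) ≤ (5 / 2) * (3 * b / (5 * a) + w + 2 + k₀ - Φ k₀) := by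
    have : Φ k₀ + n ≤ 3 * (k₀ + n + w + 2) / 5 + 3 * b / (5 * a) := by linarith
    linarith
  linarith

end Pool.H61.ST
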