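import Pool.Agent.H61.ST.FdimC
import Pool.Agent.H61.ST.Linalg
import Pool.Agent.H61.ST.Scale

set_option autoImplicit false

/-! The space of Lipschitz harmonic functions is finite dimensional (helper93). -/

namespace Pool.H61.ST

open Finset Pool.Agent.H61.SW Pool.H98.C Matrix

variable {V : Type} {G : SimpleGraph V} (hG : TG G)

/-- the volume function on a logarithmic scale -/
noncomputable def lv (o : V) (k : ℕ) : ℝ := Real.log ((bl hG o (16 ^ k)).card : ℝ)

lemma card_pos (o : V) (r : ℕ) : (0 : ℝ) < (bl hG o r).card := by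
  exact_mod_cast Finset.card_pos.2 (bl_nonempty hG o r)

lemma lv_mono (o : V) : Monotone (lv hG o) := by
  intro a b hab
  refine Real.log_le_log (card_pos hG o _) ?_
  exact_mod_cast card_bl_mono hG o (Nat.pow_le_pow_right (by norm_num) hab)

/-- from a bound of log volumes to a bound of volumes -/
lemma vol_of_lv (o : V) (i j : ℕ) (c : ℝ) (h : lv hG o j - lv hG o i ≤ c) :
    ((bl hG o (16 ^ j)).card : ℝ) ≤ Real.exp c * (bl hG o (16 ^ i)).card := by
  have h1 : lv hG o j ≤ c + lv hG o i := by linarith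
  have h2 := Real.exp_le_exp.2 h1
  rw [Real.exp_add] at h2
  unfold lv at h2
  rwa [Real.exp_log (card_pos hG o _), Real.exp_log (card_pos hG o _)] at h2

/-- the bound for the number of linearly independent functions -/
theorem li_bound (o : V) (D : ℕ) (hpg : PG hG o D) (hh : ∀ R, Nonempty (Homog G o R)) (w : ℕ)
    (hw : 4 * (dg hG o : ℝ) * Real.exp (30 * ((D + 2) * Real.log 16)) < 16 ^ w)
    {m : ℕ} (hm : 0 < m) (u : Fin m → V → ℝ) (hu : ∀ i, u i ∈ LH hG o)
    (hli : LinearIndependent ℝ u) :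
    (m : ℝ) ≤ 2 * Real.exp (5 * ((w + 1 : ℕ) + 2) * ((D + 2) * Real.log 16)) := by
  classical
  have hlog : 0 < Real.log 16 := Real.log_pos (by norm_num)
  set a : ℝ := (D + 2) * Real.log 16 with ha
  have ha0 : 0 < a := by positivity
  have hmR : (0 : ℝ) < m := by exact_mod_cast hm
  -- common Lipschitz constant
  choose h0 hharm hlip using fun i => mem_LH hG (hu i)
  choose C hC using hlip
  set L : ℝ := 1 + ∑ i, |C i| with hLdef
  have hL1 : 1 ≤ L := by
    have : 0 ≤ ∑ i, |C i| := Finset.sum_nonneg fun i _ => abs_nonneg _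
    linarith
  have hL : ∀ i, Lip G L (u i) := by
    intro i x y hxy
    refine (hC i x y hxy).trans ?_
    have h1 : |C i| ≤ ∑ i, |C i| :=
      Finset.single_le_sum (f := fun i => |C i|) (fun i _ => abs_nonneg _) (Finset.mem_univ i)
    linarith [le_abs_self (C i)]
  -- radius from which the Gram matrices are definite
  obtain ⟨R0, hR0⟩ := exists_R0 hG o u hli
  set k0 : ℕ := R0 with hk0
  have hk0' : ∀ k, k0 ≤ k → R0 ≤ 16 ^ k := by
    intro k hk
    exact hk.trans (Nat.lt_pow_self (by norm_num)).le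
  have hPD : ∀ k, k0 ≤ k → (GM hG o u (16 ^ k)).PosDef := fun k hk =>
    GM_posDef hG o u _ (hR0 _ (hk0' k hk))
  set φ : ℕ → ℝ := fun k => (1 / m : ℝ) * Real.log (GM hG o u (16 ^ (max k k0))).det with hφ
  have hφm : Monotone φ := by
    intro i j hij
    have h1 : 16 ^ (max i k0) ≤ 16 ^ (max j k0) :=
      Nat.pow_le_pow_right (by norm_num) (max_le_max_right _ hij)
    have h2 := det_le_det _ _ (GM_posSemidef hG o u (16 ^ (max i k0)))
      (hPD (max j k0) (le_max_right _ _)) (fun x => GM_le hG o u h1 x)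
    have h3 := (hPD (max i k0) (le_max_right _ _)).det_pos
    exact mul_le_mul_of_nonneg_left (Real.log_le_log h3 h2) (by positivity)
  set b : ℝ := D * Real.log 16 + (1 / m : ℝ) * Real.log (m.factorial : ℝ) + 2 * Real.log L with hb
  have hlogL : 0 ≤ Real.log L := Real.log_nonneg hL1
  have hlogm : 0 ≤ Real.log (m.factorial : ℝ) :=
    Real.log_nonneg (by exact_mod_cast Nat.one_le_iff_ne_zero.2 (Nat.factorial_ne_zero m))
  have hK : ∀ N : ℕ, ∃ K ≥ N, lv hG o K ≤ a * K + b ∧ φ K ≤ a * K + b := by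
    intro N
    obtain ⟨r, hr, hr2⟩ := hpg (16 ^ (max N k0))
    set K := Nat.log 16 r with hKdef
    have hr0 : r ≠ 0 := by
      have : 0 < 16 ^ (max N k0) := by positivity
      omega
    have hK1 : 16 ^ K ≤ r := Nat.pow_log_le_self 16 hr0
    have hK2 : r < 16 ^ (K + 1) := Nat.lt_pow_succ_log_self (by norm_num) r
    have hK3 : max N k0 ≤ K := by
      have h1 : 16 ^ (max N k0) < 16 ^ (K + 1) := lt_of_le_of_lt hr hK2
      have h2 := (Nat.pow_lt_pow_iff_right (by norm_num : 1 < 16)).1 h1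
      omega
    have hlvK : lv hG o K ≤ D * (K + 1) * Real.log 16 := by
      have h1 : ((bl hG o (16 ^ K)).card : ℝ) ≤ ((16 : ℝ) ^ (K + 1)) ^ D := by
        have h2 : ((bl hG o (16 ^ K)).card : ℝ) ≤ (bl hG o r).card := by
          exact_mod_cast card_bl_mono hG o hK1
        refine h2.trans (hr2.trans ?_)
        refine pow_le_pow_left₀ (Nat.cast_nonneg r) ?_ D
        have : (r : ℝ) ≤ ((16 ^ (K + 1) : ℕ) : ℝ) := by exact_mod_cast hK2.le
        simpa using this
      have h3 := Real.log_le_log (card_pos hG o _) h1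
      rw [Real.log_pow, Real.log_pow] at h3
      unfold lv
      refine h3.trans (le_of_eq ?_)
      push_cast
      ring
    refine ⟨K, (le_max_left _ _).trans hK3, ?_, ?_⟩
    · refine hlvK.trans ?_
      have h1 : 0 ≤ (1 / m : ℝ) * Real.log (m.factorial : ℝ) := by positivity
      have h2 : 0 ≤ 2 * (K : ℝ) * Real.log 16 := by positivity
      rw [ha, hb]
      nlinarith
    · have hmax : max K k0 = K := max_eq_left ((le_max_right _ _).trans hK3)
      have h1 := GM_det_le hG o u L (by linarith) hL h0 (16 ^ K)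
      have h2 : 0 < (GM hG o u (16 ^ K)).det :=
        (hPD K ((le_max_right _ _).trans hK3)).det_pos
      have h3 := Real.log_le_log h2 h1
      have hV := card_pos hG o (16 ^ K)
      have hLp : 0 < L := by linarith
      have h16 : (0 : ℝ) < ((16 ^ K : ℕ) : ℝ) := by positivity
      rw [Real.log_mul (by positivity) (by positivity), Real.log_pow,
        Real.log_mul (by positivity) (by positivity), Real.log_mul (by positivity) (by positivity),
        Real.log_pow, Real.log_pow] at h3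
      have h4 : Real.log (((16 ^ K : ℕ) : ℝ)) = K * Real.log 16 := by
        push_cast
        rw [Real.log_pow]
      rw [h4] at h3
      have h5 : φ K ≤ (1 / m : ℝ) * (Real.log (m.factorial : ℝ) +
          m * ((2 : ℕ) * Real.log L + (2 : ℕ) * (K * Real.log 16) + lv hG o K)) := by
        show (1 / m : ℝ) * Real.log (GM hG o u (16 ^ (max K k0))).det ≤ _
        rw [hmax]
        exact mul_le_mul_of_nonneg_left h3 (by positivity)
      have h6 : (1 / m : ℝ) * (Real.log (m.factorial : ℝ) +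
          m * ((2 : ℕ) * Real.log L + (2 : ℕ) * (K * Real.log 16) + lv hG o K)) =
          (1 / m : ℝ) * Real.log (m.factorial : ℝ) +
          (2 * Real.log L + 2 * (K * Real.log 16) + lv hG o K) := by
        field_simp
        push_cast
        ring
      rw [h6] at h5
      rw [ha, hb]
      nlinarith
  obtain ⟨k, hk, hwk, hs1, hs2, hs3⟩ :=
    exists_scale (lv hG o) φ (lv_mono hG o) hφm a b ha0 hK (w + 1) k0
  -- the subspace
  have hkk : max k k0 = k := max_eq_left hk
  have hkk' : max (k + 1) k0 = k + 1 := max_eq_left (by omega)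
  have hd1 := (hPD k hk).det_pos
  have hd2 := (hPD (k + 1) (by omega)).det_pos
  have hdet : Real.exp (-(5 * a)) ^ m * (GM hG o u (16 ^ (k + 1))).det ≤
      (GM hG o u (16 ^ k)).det := by
    have h1 : (1 / m : ℝ) * Real.log (GM hG o u (16 ^ (k + 1))).det -
        (1 / m : ℝ) * Real.log (GM hG o u (16 ^ k)).det ≤ 5 * a := by
      have := hs1
      simp only [hφ] at this
      rw [hkk, hkk'] at this
      exact this
    have h2 : Real.log (GM hG o u (16 ^ (k + 1))).det ≤
        m * (5 * a) + Real.log (GM hG o u (16 ^ k)).det := by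
      rw [← mul_sub] at h1
      have h3 := mul_le_mul_of_nonneg_left h1 hmR.le
      rw [← mul_assoc, mul_one_div_cancel hmR.ne', one_mul] at h3
      linarith
    have h4 := Real.exp_le_exp.2 h2
    rw [Real.exp_add, Real.exp_log hd1, Real.exp_log hd2] at h4
    rw [← Real.exp_nat_mul]
    have h5 : Real.exp ((m : ℝ) * -(5 * a)) * (Real.exp (m * (5 * a)) *
        (GM hG o u (16 ^ k)).det) = (GM hG o u (16 ^ k)).det := by
      rw [← mul_assoc, ← Real.exp_add]
      simp
    calc Real.exp ((m : ℝ) * -(5 * a)) * (GM hG o u (16 ^ (k + 1))).det ≤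
        Real.exp ((m : ℝ) * -(5 * a)) * (Real.exp (m * (5 * a)) *
        (GM hG o u (16 ^ k)).det) := mul_le_mul_of_nonneg_left h4 (Real.exp_pos _).le
      _ = _ := h5
  obtain ⟨U, hU1, hU2⟩ := half_space _ _ (GM_posSemidef hG o u (16 ^ k)) (hPD (k + 1) (by omega))
    (fun x => GM_le hG o u (Nat.pow_le_pow_right (by norm_num) (by omega)) x)
    (Real.exp (-(5 * a))) (Real.exp_pos _) (Real.exp_le_one_iff.2 (by linarith)) hdet
  -- the net
  obtain ⟨j, rfl⟩ : ∃ j, k = j + 1 + (w + 1) := ⟨k - (w + 1) - 1, by omega⟩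
  set ρ : ℕ := 16 ^ (j + 1) with hρ
  set R : ℕ := 16 ^ (j + 1 + (w + 1)) with hR
  have hj1 : j + 1 + (w + 1) - (w + 1) + 1 = j + 2 := by omega
  have hj2 : j + 1 + (w + 1) - (w + 1) - 1 = j := by omega
  rw [hj1, hj2] at hs2
  rw [hj2] at hs3
  have hv2 := vol_of_lv hG o _ _ _ hs2
  have hv3 := vol_of_lv hG o _ _ _ hs3
  have hρ0 : 0 < 16 ^ j := by positivity
  have hρ1 : ρ = 16 * 16 ^ j := by rw [hρ, pow_succ]; ring
  have hRρ : R = 16 ^ (w + 1) * ρ := by rw [hR, hρ, pow_add]; ring
  have hRρ' : 16 * ρ ≤ R := by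
    rw [hRρ, pow_succ]
    have : 0 < 16 ^ w := by positivity
    nlinarith
  obtain ⟨N, hN1, hN2, hN3⟩ := exists_sep_net hG o R ρ
  have hNc : (N.card : ℝ) ≤ Real.exp (5 * ((w + 1 : ℕ) + 2) * a) := by
    have q1 := sep_card hG o o R ρ N hN1 hN2
    have q2 : (bl hG o (R + ρ / 2)).card ≤ (bl hG o (16 ^ (j + 1 + (w + 1) + 1))).card := by
      refine card_bl_mono hG o ?_
      have : 16 ^ (j + 1 + (w + 1) + 1) = 16 * R := by rw [hR, pow_succ]; ring
      omega
    have q3 : (bl hG o (16 ^ j)).card ≤ (bl hG o (ρ / 2)).card := card_bl_mono hG o (by omega)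
    have q4 : (N.card : ℝ) * (bl hG o (16 ^ j)).card ≤
        Real.exp (5 * ((w + 1 : ℕ) + 2) * a) * (bl hG o (16 ^ j)).card := by
      refine le_trans ?_ hv3
      have : N.card * (bl hG o (16 ^ j)).card ≤ N.card * (bl hG o (ρ / 2)).card :=
        Nat.mul_le_mul_left _ q3
      exact_mod_cast this.trans (q1.trans q2)
    exact le_of_mul_le_mul_right q4 (card_pos hG o _)
  by_contra hcon
  rw [not_le] at hcon
  have hcard : N.card < Module.finrank ℝ U := by
    have h1 : (m : ℝ) ≤ 2 * (Module.finrank ℝ U : ℝ) := by exact_mod_cast hU1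
    have h2 : (N.card : ℝ) < (Module.finrank ℝ U : ℝ) := by linarith
    exact_mod_cast h2
  obtain ⟨x, hxU, hx0, hxb⟩ := exists_bal hG u U N ρ hcard
  obtain ⟨H⟩ := hh (2 * ρ)
  set α : ℝ := Real.exp (10 * a) with hα
  have hα1 : ((bl hG o (2 * ρ)).card : ℝ) ≤ α * (bl hG o ρ).card := by
    have e1 : ((bl hG o (2 * ρ)).card : ℝ) ≤ (bl hG o (16 ^ (j + 2))).card := by
      have : 16 ^ (j + 2) = 16 * ρ := by rw [hρ1]; ring
      exact_mod_cast card_bl_mono hG o (by omega)
    have e2 : ((bl hG o (16 ^ j)).card : ℝ) ≤ (bl hG o ρ).card := by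
      exact_mod_cast card_bl_mono hG o (by omega)
    exact e1.trans (hv2.trans (mul_le_mul_of_nonneg_left e2 (Real.exp_pos _).le))
  have hα2 : ((bl hG o (4 * ρ)).card : ℝ) ≤ α * (bl hG o (ρ / 2)).card := by
    have e1 : ((bl hG o (4 * ρ)).card : ℝ) ≤ (bl hG o (16 ^ (j + 2))).card := by
      have : 16 ^ (j + 2) = 16 * ρ := by rw [hρ1]; ring
      exact_mod_cast card_bl_mono hG o (by omega)
    have e2 : ((bl hG o (16 ^ j)).card : ℝ) ≤ (bl hG o (ρ / 2)).card := by
      exact_mod_cast card_bl_mono hG o (by omega)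
    exact e1.trans (hv2.trans (mul_le_mul_of_nonneg_left e2 (Real.exp_pos _).le))
  have hest := loc_est hG o (ev u x) (lap_ev hG u x hharm) R ρ (by omega) (by omega) H N hN1 hN2
    hN3 hxb α hα1 hα2
  -- comparison of the two scales
  have hcmp := hU2 x hxU
  rw [GM_form, GM_form] at hcmp
  have hQpos : 0 < ∑ y ∈ bl hG o R, (ev u x y) ^ 2 := by
    have h1 := (hPD (j + 1 + (w + 1)) hk).dotProduct_mulVec_pos hx0
    have h2 : star x = x := by ext i; simp
    rw [h2, GM_form] at h1
    exact h1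
  set Q := ∑ y ∈ bl hG o R, (ev u x y) ^ 2 with hQ
  set Q' := ∑ y ∈ bl hG o (16 ^ (j + 1 + (w + 1) + 1)), (ev u x y) ^ 2 with hQ'
  have hQ6 : ∑ y ∈ bl hG o (6 * R), (ev u x y) ^ 2 ≤ Q' := by
    refine Finset.sum_le_sum_of_subset_of_nonneg (fd_bl_mono hG o ?_) fun y _ _ => sq_nonneg _
    have : 16 ^ (j + 1 + (w + 1) + 1) = 16 * R := by rw [hR, pow_succ]; ring
    omega
  have hQQ : Q' ≤ Real.exp (10 * a) * Q := by
    have h1 : Real.exp (-(5 * a)) ^ 2 = Real.exp (-(10 * a)) := by
      rw [← Real.exp_nat_mul]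
      congr 1
      push_cast
      ring
    rw [h1] at hcmp
    have h2 := mul_le_mul_of_nonneg_left hcmp (Real.exp_pos (10 * a)).le
    rw [← mul_assoc, ← Real.exp_add] at h2
    simpa using h2
  have hratio : ((ρ : ℝ) / R) = 1 / 16 ^ (w + 1) := by
    rw [hRρ]
    push_cast
    have : (ρ : ℝ) ≠ 0 := by
      have : 0 < ρ := by omega
      exact_mod_cast this.ne'
    field_simp
  rw [hratio] at hest
  have hfin : Q ≤ 4 * (dg hG o : ℝ) * Real.exp (30 * a) * (1 / 16 ^ (w + 1)) ^ 2 * Q := by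
    have h3 : α ^ 2 * Real.exp (10 * a) = Real.exp (30 * a) := by
      rw [hα, ← Real.exp_nat_mul, ← Real.exp_add]
      congr 1
      push_cast
      ring
    calc Q ≤ _ := hest
      _ ≤ 4 * dg hG o * α ^ 2 * ((1 : ℝ) / 16 ^ (w + 1)) ^ 2 * (Real.exp (10 * a) * Q) :=
          mul_le_mul_of_nonneg_left (hQ6.trans hQQ) (by positivity)
      _ = _ := by rw [← h3]; ring
  have hlt : 4 * (dg hG o : ℝ) * Real.exp (30 * a) * (1 / 16 ^ (w + 1)) ^ 2 < 1 := by
    have h4 : (0 : ℝ) < 16 ^ w := by positivity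
    have h5 : (1 : ℝ) ≤ 16 ^ w := one_le_pow₀ (by norm_num)
    rw [div_pow, one_pow, mul_one_div, div_lt_one (by positivity)]
    refine lt_of_lt_of_le hw ?_
    have h6 : (16 : ℝ) ^ (w + 1) = 16 ^ w * 16 := pow_succ _ _
    rw [h6]
    generalize (16 : ℝ) ^ w = t at h4 h5
    nlinarith [mul_nonneg h4.le (sub_nonneg.2 h5)]
  nlinarith

/-- **The space of Lipschitz harmonic functions is finite dimensional.** -/
theorem finite_LH (o : V) (D : ℕ) (hpg : PG hG o D) (hh : ∀ R, Nonempty (Homog G o R)) :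
    Module.Finite ℝ (LH hG o) := by
  obtain ⟨w, hw⟩ := pow_unbounded_of_one_lt
    (4 * (dg hG o : ℝ) * Real.exp (30 * ((D + 2) * Real.log 16))) (by norm_num : (1 : ℝ) < 16)
  refine finite_of_bound ⌈2 * Real.exp (5 * ((w + 1 : ℕ) + 2) * ((D + 2) * Real.log 16))⌉₊ ?_
  intro m u hli
  rcases Nat.eq_zero_or_pos m with rfl | hm
  · exact Nat.zero_le _
  have h1 : LinearIndependent ℝ (fun i => (u i : V → ℝ)) :=
    hli.map' (LH hG o).subtype (Submodule.ker_subtype _)
  have h2 := li_bound hG o D hpg hh w hw hm (fun i => (u i : V → ℝ)) (fun i => (u i).2) h1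
  exact_mod_cast h2.trans (Nat.le_ceil _)

end Pool.H61.ST
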