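import Pool.Agent.H61.ST.Defs

set_option autoImplicit false

/-! Auxiliary lemmas for the module FDIM (helper93). -/

namespace Pool.H61.ST

open Finset Pool.Agent.H61.SW Pool.H98.C

section general

theorem finite_of_bound {W : Type} [AddCommGroup W] [Module ℝ W] (N0 : ℕ)
    (h : ∀ (m : ℕ) (u : Fin m → W), LinearIndependent ℝ u → m ≤ N0) : Module.Finite ℝ W := by
  by_contra hcon
  have h1 : Cardinal.aleph0 ≤ Module.rank ℝ W := by
    by_contra h2
    rw [not_le] at h2
    exact hcon (Module.rank_lt_aleph0_iff.1 h2)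
  have h2 : ((N0 + 1 : ℕ) : Cardinal) ≤ Module.rank ℝ W :=
    (Cardinal.natCast_lt_aleph0).le.trans h1
  rw [le_rank_iff_exists_linearIndependent_finset] at h2
  obtain ⟨s, hs, hli⟩ := h2
  have h3 := h (N0 + 1) (fun i => ((s.equivFinOfCardEq hs).symm i : W))
    (hli.comp (s.equivFinOfCardEq hs).symm (s.equivFinOfCardEq hs).symm.injective)
  omega

theorem sq_sum_pairs {V : Type} (B : Finset V) (u : V → ℝ) (h0 : ∑ x ∈ B, u x = 0) :
    ∑ x ∈ B, ∑ y ∈ B, (u x - u y) ^ 2 = 2 * B.card * ∑ x ∈ B, (u x) ^ 2 := by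
  have h1 : ∀ x ∈ B, ∑ y ∈ B, (u x - u y) ^ 2
      = B.card * (u x) ^ 2 - 2 * u x * (∑ y ∈ B, u y) + ∑ y ∈ B, (u y) ^ 2 := by
    intro x _
    have : ∀ y ∈ B, (u x - u y) ^ 2 = (u x) ^ 2 - 2 * u x * u y + (u y) ^ 2 := fun y _ => by ring
    rw [Finset.sum_congr rfl this, Finset.sum_add_distrib, Finset.sum_sub_distrib,
      ← Finset.mul_sum, Finset.sum_const, nsmul_eq_mul]
  rw [Finset.sum_congr rfl h1]
  simp only [h0, mul_zero, sub_zero]
  rw [Finset.sum_add_distrib, ← Finset.mul_sum, Finset.sum_const, nsmul_eq_mul]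
  ring

end general

variable {V : Type} {G : SimpleGraph V} (hG : TG G)

include hG in
/-- a maximal separated net of a ball -/
theorem exists_sep_net (o : V) (R ρ : ℕ) : ∃ N : Finset V, (∀ n ∈ N, G.dist o n ≤ R) ∧
    (∀ a ∈ N, ∀ b ∈ N, a ≠ b → ρ < G.dist a b) ∧
    (∀ y, G.dist o y ≤ R → ∃ n ∈ N, G.dist n y ≤ ρ) := by
  classical
  set F : Finset (Finset V) := (bl hG o R).powerset.filter
    (fun N => ∀ a ∈ N, ∀ b ∈ N, a ≠ b → ρ < G.dist a b) with hF
  have hne : F.Nonempty := ⟨∅, by simp [hF]⟩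
  obtain ⟨N, hN, hmax⟩ := Finset.exists_max_image F Finset.card hne
  rw [hF, Finset.mem_filter, Finset.mem_powerset] at hN
  obtain ⟨hsub, hsep⟩ := hN
  have hD : ∀ n ∈ N, G.dist o n ≤ R := fun n hn => (mem_bl hG o n R).1 (hsub hn)
  refine ⟨N, hD, hsep, ?_⟩
  intro y hy
  by_contra hcon
  push Not at hcon
  have hyN : y ∉ N := by
    intro h
    have := hcon y h
    simp at this
  have h1 : insert y N ∈ F := by
    rw [hF, Finset.mem_filter, Finset.mem_powerset]
    refine ⟨?_, ?_⟩
    · intro z hz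
      rcases Finset.mem_insert.1 hz with rfl | hz
      · exact (mem_bl hG o z R).2 hy
      · exact hsub hz
    · intro a ha b hb hab
      rcases Finset.mem_insert.1 ha with rfl | ha
      · rcases Finset.mem_insert.1 hb with rfl | hb
        · exact absurd rfl hab
        · rw [SimpleGraph.dist_comm]; exact hcon b hb
      · rcases Finset.mem_insert.1 hb with hb | hb
        · rw [hb]; exact hcon a ha
        · exact hsep a ha b hb hab
  have h2 := hmax _ h1
  rw [Finset.card_insert_of_notMem hyN] at h2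
  omega

/-- packing bound for separated sets near a point -/
theorem sep_card (o a : V) (S ρ : ℕ) (N : Finset V) (hN : ∀ n ∈ N, G.dist a n ≤ S)
    (hsep : ∀ x ∈ N, ∀ y ∈ N, x ≠ y → ρ < G.dist x y) :
    N.card * (bl hG o (ρ / 2)).card ≤ (bl hG o (S + ρ / 2)).card := by
  classical
  have hdisj : (N : Set V).PairwiseDisjoint (fun n => bl hG n (ρ / 2)) := by
    intro x hx y hy hxy
    rw [Function.onFun, Finset.disjoint_left]
    intro z hz1 hz2
    rw [mem_bl] at hz1 hz2
    have h1 := hsep x hx y hy hxy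
    have h2 := hG.tri x z y
    rw [SimpleGraph.dist_comm (u := z) (v := y)] at h2
    omega
  have h1 : N.biUnion (fun n => bl hG n (ρ / 2)) ⊆ bl hG a (S + ρ / 2) := by
    intro z hz
    rw [Finset.mem_biUnion] at hz
    obtain ⟨n, hn, hz⟩ := hz
    rw [mem_bl] at hz ⊢
    have h2 := hG.tri a n z
    have h3 := hN n hn
    omega
  have h2 := Finset.card_le_card h1
  rw [Finset.card_biUnion hdisj] at h2
  have h3 : ∀ n ∈ N, (bl hG n (ρ / 2)).card = (bl hG o (ρ / 2)).card := fun n _ =>
    card_bl hG n o _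
  rw [Finset.sum_congr rfl h3, Finset.sum_const, smul_eq_mul, card_bl hG a o] at h2
  exact h2

lemma fd_bl_mono (x : V) {r s : ℕ} (h : r ≤ s) : bl hG x r ⊆ bl hG x s := by
  intro y hy
  rw [mem_bl] at hy ⊢
  omega

lemma card_bl_mono (x : V) {r s : ℕ} (h : r ≤ s) : (bl hG x r).card ≤ (bl hG x s).card :=
  Finset.card_le_card (fd_bl_mono hG x h)

lemma mem_LH {o : V} {u : V → ℝ} (hu : u ∈ LH hG o) :
    u o = 0 ∧ (∀ x, lap hG u x = 0) ∧ ∃ C, Lip G C u := hu

include hG in
/-- Lipschitz bound -/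
lemma fd_lip_dist (o : V) {C : ℝ} (hC : 0 ≤ C) {u : V → ℝ} (h : Lip G C u) (h0 : u o = 0) (x : V) :
    |u x| ≤ C * G.dist o x := by
  obtain ⟨p, hp⟩ := hG.conn.exists_walk_length_eq_dist o x
  have key : ∀ (a b : V) (p : G.Walk a b), |u b - u a| ≤ C * p.length := by
    intro a b p
    induction p with
    | nil => simp
    | cons hadj q ih =>
      rename_i a c b
      have h1 := h _ _ hadj
      have h2 : |u b - u a| ≤ |u b - u c| + |u a - u c| := by
        have : u b - u a = (u b - u c) - (u a - u c) := by ring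
        rw [this]
        exact abs_sub _ _
      rw [SimpleGraph.Walk.length_cons]
      push_cast
      nlinarith
  have := key o x p
  rw [h0, sub_zero, hp] at this
  exact this

end Pool.H61.ST
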