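import Pool.Agent.H61.ST.FdimA

set_option autoImplicit false

/-! Gram matrices for the module FDIM (helper93). -/

namespace Pool.H61.ST

open Finset Pool.Agent.H61.SW Pool.H98.C Matrix

variable {V : Type} {G : SimpleGraph V} (hG : TG G)

/-- linear combination -/
noncomputable def ev {m : ℕ} (u : Fin m → V → ℝ) (w : Fin m → ℝ) (x : V) : ℝ := ∑ i, w i * u i x

/-- Gram matrix on a ball -/
noncomputable def GM (o : V) {m : ℕ} (u : Fin m → V → ℝ) (R : ℕ) : Matrix (Fin m) (Fin m) ℝ :=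
  Matrix.of fun i j => ∑ x ∈ bl hG o R, u i x * u j x

theorem GM_form (o : V) {m : ℕ} (u : Fin m → V → ℝ) (R : ℕ) (w : Fin m → ℝ) :
    w ⬝ᵥ (GM hG o u R *ᵥ w) = ∑ x ∈ bl hG o R, (ev u w x) ^ 2 := by
  unfold ev
  have h1 : ∀ x, (∑ i, w i * u i x) ^ 2 = ∑ i, ∑ j, w i * (u i x * u j x) * w j := by
    intro x
    rw [sq, Finset.sum_mul_sum]
    exact Finset.sum_congr rfl fun i _ => Finset.sum_congr rfl fun j _ => by ring
  simp_rw [h1]
  rw [Finset.sum_comm]
  unfold dotProduct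
  refine Finset.sum_congr rfl fun i _ => ?_
  unfold Matrix.mulVec dotProduct
  rw [Finset.mul_sum, Finset.sum_comm]
  refine Finset.sum_congr rfl fun j _ => ?_
  show w i * ((∑ x ∈ bl hG o R, u i x * u j x) * w j) = _
  rw [Finset.sum_mul, Finset.mul_sum]
  exact Finset.sum_congr rfl fun x _ => by ring

theorem GM_symm (o : V) {m : ℕ} (u : Fin m → V → ℝ) (R : ℕ) : (GM hG o u R).IsHermitian := by
  ext i j
  show (∑ x ∈ bl hG o R, u j x * u i x) = ∑ x ∈ bl hG o R, u i x * u j x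
  exact Finset.sum_congr rfl fun x _ => by ring

theorem GM_posSemidef (o : V) {m : ℕ} (u : Fin m → V → ℝ) (R : ℕ) :
    (GM hG o u R).PosSemidef := by
  refine Matrix.PosSemidef.of_dotProduct_mulVec_nonneg (GM_symm hG o u R) fun w => ?_
  have : star w = w := by ext i; simp
  rw [this, GM_form]
  exact Finset.sum_nonneg fun x _ => sq_nonneg _

theorem GM_le (o : V) {m : ℕ} (u : Fin m → V → ℝ) {R S : ℕ} (h : R ≤ S) (w : Fin m → ℝ) :
    w ⬝ᵥ (GM hG o u R *ᵥ w) ≤ w ⬝ᵥ (GM hG o u S *ᵥ w) := by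
  rw [GM_form, GM_form]
  exact Finset.sum_le_sum_of_subset_of_nonneg (fd_bl_mono hG o h) fun x _ _ => sq_nonneg _

theorem GM_posDef (o : V) {m : ℕ} (u : Fin m → V → ℝ) (R : ℕ)
    (h0 : ∀ w : Fin m → ℝ, (∀ x ∈ bl hG o R, ev u w x = 0) → w = 0) :
    (GM hG o u R).PosDef := by
  refine Matrix.PosDef.of_dotProduct_mulVec_pos (GM_symm hG o u R) fun w hw => ?_
  have : star w = w := by ext i; simp
  rw [this, GM_form]
  have h1 : 0 ≤ ∑ x ∈ bl hG o R, (ev u w x) ^ 2 := Finset.sum_nonneg fun x _ => sq_nonneg _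
  refine lt_of_le_of_ne h1 fun h2 => hw (h0 w fun x hx => ?_)
  have h3 := (Finset.sum_eq_zero_iff_of_nonneg (fun x _ => sq_nonneg (ev u w x))).1 h2.symm x hx
  exact pow_eq_zero_iff (two_ne_zero) |>.1 h3

/-- combinations vanishing on a ball -/
noncomputable def KR (o : V) {m : ℕ} (u : Fin m → V → ℝ) (R : ℕ) :
    Submodule ℝ (Fin m → ℝ) where
  carrier := {w | ∀ x ∈ bl hG o R, ev u w x = 0}
  add_mem' := by
    intro a b ha hb x hx
    have : ev u (a + b) x = ev u a x + ev u b x := by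
      unfold ev
      rw [← Finset.sum_add_distrib]
      exact Finset.sum_congr rfl fun i _ => by simp only [Pi.add_apply]; ring
    rw [this, ha x hx, hb x hx, add_zero]
  zero_mem' := by
    intro x _
    simp [ev]
  smul_mem' := by
    intro c a ha x hx
    have : ev u (c • a) x = c * ev u a x := by
      unfold ev
      rw [Finset.mul_sum]
      exact Finset.sum_congr rfl fun i _ => by simp only [Pi.smul_apply, smul_eq_mul]; ring
    rw [this, ha x hx, mul_zero]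

theorem exists_R0 (o : V) {m : ℕ} (u : Fin m → V → ℝ) (hli : LinearIndependent ℝ u) :
    ∃ R0 : ℕ, ∀ R ≥ R0, ∀ w : Fin m → ℝ, (∀ x ∈ bl hG o R, ev u w x = 0) → w = 0 := by
  have hanti : ∀ {R S : ℕ}, R ≤ S → KR hG o u S ≤ KR hG o u R := by
    intro R S h w hw x hx
    exact hw x (fd_bl_mono hG o h hx)
  obtain ⟨R0, hR0⟩ : ∃ R0, ∀ S, Module.finrank ℝ (KR hG o u R0) ≤ Module.finrank ℝ (KR hG o u S) := by
    have hne : (Set.range fun R => Module.finrank ℝ (KR hG o u R)).Nonempty := ⟨_, 0, rfl⟩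
    obtain ⟨R0, hR0⟩ := Nat.sInf_mem hne
    exact ⟨R0, fun S => by
      show (fun R => Module.finrank ℝ (KR hG o u R)) R0 ≤ _
      rw [hR0]
      exact Nat.sInf_le ⟨S, rfl⟩⟩
  have hbot : ∀ w, w ∈ KR hG o u R0 → w = 0 := by
    intro w hw
    have hall : ∀ x, ev u w x = 0 := by
      intro x
      have heq : KR hG o u (max R0 (G.dist o x)) = KR hG o u R0 :=
        Submodule.eq_of_le_of_finrank_le (hanti (le_max_left _ _)) (hR0 _)
      rw [← heq] at hw
      exact hw x ((mem_bl hG o x _).2 (le_max_right _ _))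
    rw [Fintype.linearIndependent_iff] at hli
    funext i
    refine hli w ?_ i
    funext x
    have := hall x
    unfold ev at this
    simpa [Finset.sum_apply] using this
  refine ⟨R0, fun R hR w hw => hbot w ?_⟩
  exact hanti hR hw

theorem GM_entry (o : V) {m : ℕ} (u : Fin m → V → ℝ) (L : ℝ) (hL : 0 ≤ L)
    (hu : ∀ i, Lip G L (u i)) (h0 : ∀ i, u i o = 0) (R : ℕ) (i j : Fin m) :
    |GM hG o u R i j| ≤ L ^ 2 * (R : ℝ) ^ 2 * (bl hG o R).card := by
  show |∑ x ∈ bl hG o R, u i x * u j x| ≤ _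
  refine (Finset.abs_sum_le_sum_abs _ _).trans ?_
  have h1 : ∀ x ∈ bl hG o R, |u i x * u j x| ≤ L ^ 2 * (R : ℝ) ^ 2 := by
    intro x hx
    rw [mem_bl] at hx
    have h2 : (G.dist o x : ℝ) ≤ R := by exact_mod_cast hx
    have h3 := (fd_lip_dist hG o hL (hu i) (h0 i) x).trans (mul_le_mul_of_nonneg_left h2 hL)
    have h4 := (fd_lip_dist hG o hL (hu j) (h0 j) x).trans (mul_le_mul_of_nonneg_left h2 hL)
    rw [abs_mul]
    calc |u i x| * |u j x| ≤ (L * R) * (L * R) :=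
          mul_le_mul h3 h4 (abs_nonneg _) (by positivity)
      _ = L ^ 2 * (R : ℝ) ^ 2 := by ring
  calc ∑ x ∈ bl hG o R, |u i x * u j x| ≤ ∑ _x ∈ bl hG o R, L ^ 2 * (R : ℝ) ^ 2 :=
        Finset.sum_le_sum h1
    _ = L ^ 2 * (R : ℝ) ^ 2 * (bl hG o R).card := by
        rw [Finset.sum_const, nsmul_eq_mul]
        ring

theorem GM_det_le (o : V) {m : ℕ} (u : Fin m → V → ℝ) (L : ℝ) (hL : 0 ≤ L)
    (hu : ∀ i, Lip G L (u i)) (h0 : ∀ i, u i o = 0) (R : ℕ) :
    (GM hG o u R).det ≤ (m.factorial : ℝ) * (L ^ 2 * (R : ℝ) ^ 2 * (bl hG o R).card) ^ m := by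
  have h1 := Matrix.det_le (A := GM hG o u R) (abv := AbsoluteValue.abs)
    (x := L ^ 2 * (R : ℝ) ^ 2 * (bl hG o R).card) (fun i j => GM_entry hG o u L hL hu h0 R i j)
  rw [Fintype.card_fin, nsmul_eq_mul] at h1
  exact (le_abs_self _).trans h1

end Pool.H61.ST
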