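import Pool.Agent.H61.ST.Defs

set_option autoImplicit false

/-! Poincare inequality on transitive graphs with a homogeneous family of automorphisms. -/

namespace Pool.H61.ST

open Finset Pool.Agent.H61.SW Pool.H98.C

section POIN
variable {V : Type} {G : SimpleGraph V} (hG : TG G)

include hG in
lemma poin_sq_le_gr (w : V → ℝ) {x a : V} (h : G.Adj x a) : (w a - w x) ^ 2 ≤ gr hG w a := by
  have h1 : (w x - w a) ^ 2 ≤ gr hG w a :=
    Finset.single_le_sum (f := fun y => (w y - w a) ^ 2) (fun _ _ => sq_nonneg _)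
      ((mem_nb hG).2 h.symm)
  calc (w a - w x) ^ 2 = (w x - w a) ^ 2 := by ring
    _ ≤ _ := h1

/-- telescoping along a walk -/
lemma poin_tel (w : V → ℝ) (x : V) (s : List V) (h : ch G x s) :
    (w (en x s) - w x) ^ 2 ≤ s.length * (s.map (gr hG w)).sum := by
  induction s generalizing x with
  | nil => simp
  | cons a s ih =>
    have h1 := ih a h.2
    have h2 := poin_sq_le_gr hG w h.1
    have hS : 0 ≤ (s.map (gr hG w)).sum :=
      List.sum_nonneg (by
        intro y hy
        obtain ⟨v, _, rfl⟩ := List.mem_map.1 hy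
        exact gr_nonneg hG w v)
    rw [en_cons, List.length_cons, List.map_cons, List.sum_cons]
    push_cast
    set S := (s.map (gr hG w)).sum
    set g := gr hG w a
    set n : ℝ := (s.length : ℝ) with hn
    have hn0 : 0 ≤ n := Nat.cast_nonneg _
    set A := w (en a s) - w a
    set B := w a - w x
    have hAB : w (en a s) - w x = A + B := by simp only [A, B]; ring
    rw [hAB]
    rcases hn0.eq_or_lt with h0 | h0
    · rw [← h0] at h1 ⊢
      have hA : A = 0 := by nlinarith [sq_nonneg A]
      rw [hA]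
      nlinarith
    · have key : n * ((A + B) ^ 2) ≤ n * ((n + 1) * (g + S)) := by
        nlinarith [sq_nonneg (A - n * B), mul_nonneg h0.le hS, mul_le_mul_of_nonneg_left h1 h0.le,
          mul_le_mul_of_nonneg_left h2 (mul_nonneg h0.le (by linarith : (0 : ℝ) ≤ n + 1))]
      exact le_of_mul_le_mul_left key h0

/-- averaged counting -/
lemma poin_avg {o : V} {R : ℕ} (H : Homog G o R) (g : V → ℝ) (hg : ∀ a, 0 ≤ g a) (c : V)
    (hc : G.dist o c ≤ R) (X A : Finset V) (hA : ∀ x ∈ X, ∀ θ, H.T x θ c ∈ A) :
    ∑ x ∈ X, Ex (fun θ => g (H.T x θ c)) ≤ ∑ a ∈ A, g a := by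
  classical
  have h1 : ∀ x ∈ X, Ex (fun θ => g (H.T x θ c)) =
      ∑ a ∈ A, g a * Pr (fun θ => H.T x θ c = a) := by
    intro x hx
    have h2 : (fun θ => g (H.T x θ c)) =
        fun θ => ∑ a ∈ A, g a * (if H.T x θ c = a then 1 else 0) := by
      funext θ
      rw [Finset.sum_eq_single (H.T x θ c)]
      · simp
      · intro b _ hb
        rw [if_neg (fun h => hb h.symm), mul_zero]
      · intro h
        exact absurd (hA x hx θ) h
    rw [h2, Ex_sum]
    refine Finset.sum_congr rfl (fun a _ => ?_)
    rw [Ex_const_mul, Pr]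
  rw [Finset.sum_congr rfl h1, Finset.sum_comm]
  refine Finset.sum_le_sum (fun a _ => ?_)
  rw [← Finset.mul_sum]
  have := mul_le_mul_of_nonneg_left (H.sp c a hc X) (hg a)
  linarith

theorem poincare (o : V) (R : ℕ) (H : Homog G o (2 * R)) (z : V) (u : V → ℝ) :
    ∑ x ∈ bl hG z R, ∑ y ∈ bl hG z R, (u x - u y) ^ 2 ≤
      (2 * R : ℝ) ^ 2 * (bl hG o (2 * R)).card * ∑ a ∈ bl hG z (3 * R), gr hG u a := by
  classical
  set Γ := ∑ a ∈ bl hG z (3 * R), gr hG u a
  have hΓ : 0 ≤ Γ := Finset.sum_nonneg (fun a _ => gr_nonneg hG u a)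
  -- one vertex
  have h1 : ∀ x ∈ bl hG z R, ∑ y ∈ bl hG z R, (u x - u y) ^ 2 ≤
      ∑ c ∈ bl hG o (2 * R), (G.dist o c : ℝ) *
        ((geo hG o c).map (fun v => Ex (fun θ => gr hG u (H.T x θ v)))).sum := by
    intro x hx
    have h2 : ∀ θ : H.Θ, ∑ y ∈ bl hG z R, (u x - u y) ^ 2 ≤
        ∑ c ∈ bl hG o (2 * R), (G.dist o c : ℝ) *
          ((geo hG o c).map (fun v => gr hG u (H.T x θ v))).sum := by
      intro θ
      have hsub : bl hG z R ⊆ (bl hG o (2 * R)).map (H.T x θ).toEquiv.toEmbedding := by
        rw [bl_iso, H.T_o]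
        intro y hy
        rw [mem_bl] at hx hy ⊢
        have := hG.tri x z y
        rw [SimpleGraph.dist_comm] at hx
        omega
      calc ∑ y ∈ bl hG z R, (u x - u y) ^ 2 ≤
          ∑ y ∈ (bl hG o (2 * R)).map (H.T x θ).toEquiv.toEmbedding, (u x - u y) ^ 2 :=
            Finset.sum_le_sum_of_subset_of_nonneg hsub (fun _ _ _ => sq_nonneg _)
        _ = ∑ c ∈ bl hG o (2 * R), (u x - u (H.T x θ c)) ^ 2 := by rw [Finset.sum_map]; rfl
        _ ≤ _ := by
          refine Finset.sum_le_sum (fun c _ => ?_)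
          have h3 := poin_tel hG (u ∘ H.T x θ) o (geo hG o c) (ch_geo hG o c)
          rw [en_geo, length_geo] at h3
          have h4 : ((u ∘ H.T x θ) c - (u ∘ H.T x θ) o) ^ 2 = (u x - u (H.T x θ c)) ^ 2 := by
            simp only [Function.comp, H.T_o]; ring
          rw [h4] at h3
          refine h3.trans (le_of_eq ?_)
          congr 2
          exact List.map_congr_left (fun v _ => gr_comp hG (H.T x θ) u v)
    have h5 : ∑ y ∈ bl hG z R, (u x - u y) ^ 2 =
        Ex (fun _ : H.Θ => ∑ y ∈ bl hG z R, (u x - u y) ^ 2) := (Ex_const _).symm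
    rw [h5]
    refine (Ex_mono h2).trans (le_of_eq ?_)
    rw [Ex_sum]
    refine Finset.sum_congr rfl (fun c _ => ?_)
    rw [Ex_const_mul, Ex_list_sum]
  calc ∑ x ∈ bl hG z R, ∑ y ∈ bl hG z R, (u x - u y) ^ 2 ≤
      ∑ x ∈ bl hG z R, ∑ c ∈ bl hG o (2 * R), (G.dist o c : ℝ) *
        ((geo hG o c).map (fun v => Ex (fun θ => gr hG u (H.T x θ v)))).sum :=
        Finset.sum_le_sum h1
    _ = ∑ c ∈ bl hG o (2 * R), (G.dist o c : ℝ) * ∑ x ∈ bl hG z R,
        ((geo hG o c).map (fun v => Ex (fun θ => gr hG u (H.T x θ v)))).sum := by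
        rw [Finset.sum_comm]
        exact Finset.sum_congr rfl (fun c _ => (Finset.mul_sum _ _ _).symm)
    _ ≤ ∑ c ∈ bl hG o (2 * R), (2 * R : ℝ) * ((2 * R : ℝ) * Γ) := by
        refine Finset.sum_le_sum (fun c hc => ?_)
        rw [mem_bl] at hc
        have hcR : (G.dist o c : ℝ) ≤ 2 * R := by exact_mod_cast hc
        have h6 : ∑ x ∈ bl hG z R,
            ((geo hG o c).map (fun v => Ex (fun θ => gr hG u (H.T x θ v)))).sum ≤
              (2 * R : ℝ) * Γ := by
          have h7 : ∀ l : List V, (∀ v ∈ l, G.dist o v ≤ 2 * R) → ∑ x ∈ bl hG z R,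
              (l.map (fun v => Ex (fun θ => gr hG u (H.T x θ v)))).sum ≤ l.length * Γ := by
            intro l
            induction l with
            | nil => intro _; simp
            | cons v l ih =>
              intro hl
              simp only [List.map_cons, List.sum_cons, List.length_cons]
              rw [Finset.sum_add_distrib]
              have h8 := ih (fun w hw => hl w (List.mem_cons_of_mem _ hw))
              have h9 := poin_avg H (gr hG u) (gr_nonneg hG u) v (hl v List.mem_cons_self)
                (bl hG z R) (bl hG z (3 * R)) (by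
                  intro x hx θ
                  rw [mem_bl] at hx ⊢
                  have h10 := hG.tri z x (H.T x θ v)
                  have h11 : G.dist x (H.T x θ v) = G.dist o v := by
                    have := dist_iso hG.conn (H.T x θ) o v
                    rwa [H.T_o] at this
                  have h12 := hl v List.mem_cons_self
                  omega)
              push_cast
              linarith
          refine (h7 (geo hG o c) (fun v hv => (mem_geo_dist hG hv).trans hc)).trans ?_
          rw [length_geo]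
          exact mul_le_mul_of_nonneg_right hcR hΓ
        have h13 : 0 ≤ (2 * R : ℝ) * Γ := by positivity
        calc (G.dist o c : ℝ) * _ ≤ (G.dist o c : ℝ) * ((2 * R : ℝ) * Γ) :=
              mul_le_mul_of_nonneg_left h6 (Nat.cast_nonneg _)
          _ ≤ _ := mul_le_mul_of_nonneg_right hcR h13
    _ = _ := by
        rw [Finset.sum_const, nsmul_eq_mul]
        ring

end POIN

end Pool.H61.ST
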