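import Pool.Agent.H61.ST.FdimB
import Pool.Agent.H61.ST.Poin
import Pool.Agent.H61.ST.Cacc

set_option autoImplicit false

/-! Local estimate for the module FDIM (helper93). -/

namespace Pool.H61.ST

open Finset Pool.Agent.H61.SW Pool.H98.C

variable {V : Type} {G : SimpleGraph V} (hG : TG G)

theorem lap_ev {m : ℕ} (u : Fin m → V → ℝ) (w : Fin m → ℝ) (hu : ∀ i x, lap hG (u i) x = 0)
    (x : V) : lap hG (ev u w) x = 0 := by
  have h1 : lap hG (ev u w) x = ∑ i, w i * lap hG (u i) x := by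
    unfold lap ev
    rw [Finset.sum_congr rfl fun y _ => (Finset.sum_sub_distrib _ _).symm, Finset.sum_comm]
    refine Finset.sum_congr rfl fun i _ => ?_
    rw [Finset.mul_sum]
    exact Finset.sum_congr rfl fun y _ => by ring
  rw [h1]
  exact Finset.sum_eq_zero fun i _ => by rw [hu, mul_zero]

/-- the sum over a ball as a linear functional of the coefficients -/
noncomputable def avL {m : ℕ} (u : Fin m → V → ℝ) (B : Finset V) : (Fin m → ℝ) →ₗ[ℝ] ℝ where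
  toFun w := ∑ x ∈ B, ev u w x
  map_add' := by
    intro a b
    rw [← Finset.sum_add_distrib]
    refine Finset.sum_congr rfl fun x _ => ?_
    unfold ev
    rw [← Finset.sum_add_distrib]
    exact Finset.sum_congr rfl fun i _ => by simp only [Pi.add_apply]; ring
  map_smul' := by
    intro c a
    rw [RingHom.id_apply, smul_eq_mul, Finset.mul_sum]
    refine Finset.sum_congr rfl fun x _ => ?_
    unfold ev
    rw [Finset.mul_sum]
    exact Finset.sum_congr rfl fun i _ => by simp only [Pi.smul_apply, smul_eq_mul]; ring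

theorem exists_bal {m : ℕ} (u : Fin m → V → ℝ) (U : Submodule ℝ (Fin m → ℝ)) (N : Finset V)
    (R : ℕ) (h : N.card < Module.finrank ℝ U) :
    ∃ w ∈ U, w ≠ 0 ∧ ∀ n ∈ N, ∑ x ∈ bl hG n R, ev u w x = 0 := by
  set F : U →ₗ[ℝ] (N → ℝ) :=
    LinearMap.pi (fun n : N => (avL u (bl hG n R)).comp U.subtype) with hF
  have h1 : Module.finrank ℝ (N → ℝ) < Module.finrank ℝ U := by
    rw [Module.finrank_fintype_fun_eq_card, Fintype.card_coe]; exact h
  have h2 : LinearMap.ker F ≠ ⊥ := LinearMap.ker_ne_bot_of_finrank_lt h1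
  obtain ⟨w, hw, hw0⟩ := (Submodule.ne_bot_iff _).1 h2
  refine ⟨w, w.2, fun h => hw0 (Subtype.ext h), fun n hn => ?_⟩
  have h3 := congrFun (LinearMap.mem_ker.1 hw) ⟨n, hn⟩
  exact h3

theorem sum_le_balls (X N : Finset V) (r : ℕ) (g : V → ℝ) (hg : ∀ x, 0 ≤ g x)
    (h : ∀ x ∈ X, ∃ n ∈ N, G.dist n x ≤ r) :
    ∑ x ∈ X, g x ≤ ∑ n ∈ N, ∑ x ∈ bl hG n r, g x := by
  classical
  have h1 : ∀ x ∈ X, g x ≤ ∑ n ∈ N, if G.dist n x ≤ r then g x else 0 := by
    intro x hx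
    obtain ⟨n, hn, hd⟩ := h x hx
    have h2 := Finset.single_le_sum (f := fun n => if G.dist n x ≤ r then g x else 0)
      (fun n _ => by
        show 0 ≤ if G.dist n x ≤ r then g x else 0
        split_ifs
        · exact hg x
        · exact le_refl _) hn
    simp only [if_pos hd] at h2
    exact h2
  refine (Finset.sum_le_sum h1).trans ?_
  rw [Finset.sum_comm]
  refine Finset.sum_le_sum fun n _ => ?_
  rw [← Finset.sum_filter]
  refine Finset.sum_le_sum_of_subset_of_nonneg ?_ fun x _ _ => hg x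
  intro x hx
  rw [Finset.mem_filter] at hx
  exact (mem_bl hG n x r).2 hx.2

theorem balls_le_sum (X N : Finset V) (r : ℕ) (g : V → ℝ) (hg : ∀ x, 0 ≤ g x) (K : ℝ)
    (hX : ∀ n ∈ N, bl hG n r ⊆ X)
    (h : ∀ x ∈ X, (((N.filter fun n => G.dist n x ≤ r).card : ℕ) : ℝ) ≤ K) :
    ∑ n ∈ N, ∑ x ∈ bl hG n r, g x ≤ K * ∑ x ∈ X, g x := by
  classical
  have h1 : ∀ n ∈ N, ∑ x ∈ bl hG n r, g x = ∑ x ∈ X, if G.dist n x ≤ r then g x else 0 := by
    intro n hn
    rw [← Finset.sum_filter]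
    refine Finset.sum_congr ?_ fun _ _ => rfl
    ext x
    rw [Finset.mem_filter, mem_bl]
    exact ⟨fun hx => ⟨hX n hn ((mem_bl hG n x r).2 hx), hx⟩, fun hx => hx.2⟩
  rw [Finset.sum_congr rfl h1, Finset.sum_comm, Finset.mul_sum]
  refine Finset.sum_le_sum fun x hx => ?_
  rw [← Finset.sum_filter, Finset.sum_const, nsmul_eq_mul]
  exact mul_le_mul_of_nonneg_right (h x hx) (hg x)

/-- local estimate -/
theorem loc_est (o : V) (f : V → ℝ) (hf : ∀ x, lap hG f x = 0) (R ρ : ℕ) (hρ : 1 ≤ ρ)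
    (hR : 3 * ρ ≤ R) (H : Homog G o (2 * ρ)) (N : Finset V) (hN : ∀ n ∈ N, G.dist o n ≤ R)
    (hsep : ∀ a ∈ N, ∀ b ∈ N, a ≠ b → ρ < G.dist a b)
    (hcov : ∀ y, G.dist o y ≤ R → ∃ n ∈ N, G.dist n y ≤ ρ)
    (hbal : ∀ n ∈ N, ∑ x ∈ bl hG n ρ, f x = 0) (α : ℝ)
    (h1 : ((bl hG o (2 * ρ)).card : ℝ) ≤ α * (bl hG o ρ).card)
    (h2 : ((bl hG o (4 * ρ)).card : ℝ) ≤ α * (bl hG o (ρ / 2)).card) :
    ∑ x ∈ bl hG o R, (f x) ^ 2 ≤
      4 * dg hG o * α ^ 2 * ((ρ : ℝ) / R) ^ 2 * ∑ x ∈ bl hG o (6 * R), (f x) ^ 2 := by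
  classical
  have hc0 : ∀ r, (0 : ℝ) < (bl hG o r).card := fun r => by
    exact_mod_cast Finset.card_pos.2 (bl_nonempty hG o r)
  have hα : 0 ≤ α := by
    by_contra hneg
    rw [not_le] at hneg
    nlinarith [hc0 (2 * ρ), hc0 ρ]
  have hRpos : 0 < R := by omega
  have hR0 : (0 : ℝ) < R := by exact_mod_cast hRpos
  -- covering
  have s1 : ∑ x ∈ bl hG o R, (f x) ^ 2 ≤ ∑ n ∈ N, ∑ x ∈ bl hG n ρ, (f x) ^ 2 :=
    sum_le_balls hG _ N ρ (fun x => (f x) ^ 2) (fun x => sq_nonneg _) fun x hx =>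
      hcov x ((mem_bl hG o x R).1 hx)
  -- Poincare
  have s2 : ∀ n ∈ N, ∑ x ∈ bl hG n ρ, (f x) ^ 2 ≤
      2 * (ρ : ℝ) ^ 2 * α * ∑ a ∈ bl hG n (3 * ρ), gr hG f a := by
    intro n hn
    have p1 := poincare hG o ρ H n f
    rw [sq_sum_pairs _ _ (hbal n hn), card_bl hG n o] at p1
    have hS : 0 ≤ ∑ a ∈ bl hG n (3 * ρ), gr hG f a :=
      Finset.sum_nonneg fun a _ => gr_nonneg hG f a
    have p2 : (2 * (ρ : ℝ)) ^ 2 * (bl hG o (2 * ρ)).card * ∑ a ∈ bl hG n (3 * ρ), gr hG f a ≤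
        (2 * (ρ : ℝ)) ^ 2 * (α * (bl hG o ρ).card) * ∑ a ∈ bl hG n (3 * ρ), gr hG f a :=
      mul_le_mul_of_nonneg_right (mul_le_mul_of_nonneg_left h1 (by positivity)) hS
    have p3 : (bl hG o ρ).card * (2 * ∑ x ∈ bl hG n ρ, (f x) ^ 2) ≤
        (bl hG o ρ).card * ((2 * (ρ : ℝ)) ^ 2 * α * ∑ a ∈ bl hG n (3 * ρ), gr hG f a) := by
      calc ((bl hG o ρ).card : ℝ) * (2 * ∑ x ∈ bl hG n ρ, (f x) ^ 2)
          = 2 * (bl hG o ρ).card * ∑ x ∈ bl hG n ρ, (f x) ^ 2 := by ring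
        _ ≤ _ := p1.trans p2
        _ = _ := by ring
    have p4 := le_of_mul_le_mul_left p3 (hc0 ρ)
    linarith
  have s3 : ∑ n ∈ N, ∑ x ∈ bl hG n ρ, (f x) ^ 2 ≤
      2 * (ρ : ℝ) ^ 2 * α * ∑ n ∈ N, ∑ a ∈ bl hG n (3 * ρ), gr hG f a := by
    rw [Finset.mul_sum]
    exact Finset.sum_le_sum s2
  -- overlap
  have s4 : ∑ n ∈ N, ∑ a ∈ bl hG n (3 * ρ), gr hG f a ≤
      α * ∑ a ∈ bl hG o (2 * R), gr hG f a := by
    refine balls_le_sum hG _ N (3 * ρ) _ (gr_nonneg hG f) α ?_ ?_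
    · intro n hn y hy
      rw [mem_bl] at hy ⊢
      have := hG.tri o n y
      have := hN n hn
      omega
    · intro x _
      have q1 := sep_card hG o x (3 * ρ) ρ (N.filter fun n => G.dist n x ≤ 3 * ρ)
        (fun n hn => by
          rw [SimpleGraph.dist_comm]
          exact (Finset.mem_filter.1 hn).2)
        (fun a ha b hb hab => hsep a (Finset.mem_filter.1 ha).1 b (Finset.mem_filter.1 hb).1 hab)
      have q2 : (bl hG o (3 * ρ + ρ / 2)).card ≤ (bl hG o (4 * ρ)).card :=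
        card_bl_mono hG o (by omega)
      have q3 : (((N.filter fun n => G.dist n x ≤ 3 * ρ).card : ℕ) : ℝ) *
          (bl hG o (ρ / 2)).card ≤ α * (bl hG o (ρ / 2)).card := by
        refine le_trans ?_ h2
        exact_mod_cast q1.trans q2
      exact le_of_mul_le_mul_right q3 (hc0 _)
  -- Caccioppoli
  have s5 := caccioppoli hG f hf o (2 * R) (by omega)
  rw [show 3 * (2 * R) = 6 * R by ring] at s5
  set S := ∑ x ∈ bl hG o (6 * R), (f x) ^ 2 with hS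
  calc ∑ x ∈ bl hG o R, (f x) ^ 2 ≤ 2 * (ρ : ℝ) ^ 2 * α *
        (α * ((8 * dg hG o : ℝ) / ((2 * R : ℕ) : ℝ) ^ 2 * S)) := by
        refine s1.trans (s3.trans ?_)
        refine mul_le_mul_of_nonneg_left (s4.trans ?_) (by positivity)
        exact mul_le_mul_of_nonneg_left s5 hα
    _ = 4 * dg hG o * α ^ 2 * ((ρ : ℝ) / R) ^ 2 * S := by
        push_cast
        field_simp
        ring

end Pool.H61.ST
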