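import Pool.Agent.H61.ST.Defs

set_option autoImplicit false

/-! A nonconstant Lipschitz harmonic function. -/

namespace Pool.H61.ST

open Finset Pool.Agent.H61.SW Pool.H98.C Filter

section HARM
variable {V : Type} {G : SimpleGraph V} (hG : TG G)

/-- transplanted sums -/
lemma homog_sum_le {o : V} {R : ℕ} (H : Homog G o R) (S Z : Finset V) (g : V → ℝ)
    (hg : ∀ a, 0 ≤ g a) (hS : ∀ a, a ∉ S → g a = 0) (x : V) (hx : G.dist o x ≤ R) :
    ∑ z ∈ Z, Ex (fun θ => g (H.T z θ x)) ≤ ∑ a ∈ S, g a := by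
  classical
  have h1 : ∀ z, Ex (fun θ => g (H.T z θ x)) = ∑ a ∈ S, g a * Pr (fun θ => H.T z θ x = a) := by
    intro z
    have h2 : (fun θ => g (H.T z θ x)) =
        fun θ => ∑ a ∈ S, g a * (if H.T z θ x = a then (1 : ℝ) else 0) := by
      ext θ
      by_cases h : H.T z θ x ∈ S
      · rw [Finset.sum_eq_single (H.T z θ x)]
        · simp
        · intro b _ hb
          simp [Ne.symm hb]
        · exact fun h' => absurd h h'
      · rw [hS _ h]
        symm
        refine Finset.sum_eq_zero fun a ha => ?_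
        have : H.T z θ x ≠ a := fun h' => h (h' ▸ ha)
        simp [this]
    rw [h2, Ex_sum]
    refine Finset.sum_congr rfl fun a _ => ?_
    rw [Ex_const_mul]
    unfold Pr
    congr 2
  simp_rw [h1]
  rw [Finset.sum_comm]
  refine Finset.sum_le_sum fun a _ => ?_
  rw [← Finset.mul_sum]
  exact mul_le_of_le_one_right (hg a) (H.sp x a hx Z)

/-- the vector of a function of `(z, θ)` -/
noncomputable def vec {Θ : Type} [Fintype Θ] (S : Finset V) (φ : V → Θ → ℝ) :
    EuclideanSpace ℝ (↥S × Θ) :=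
  WithLp.toLp 2 (fun p => φ p.1 p.2 / √(Fintype.card Θ : ℝ))

lemma norm_vec {Θ : Type} [Fintype Θ] (S : Finset V) (φ : V → Θ → ℝ) :
    ‖vec S φ‖ ^ 2 = ∑ z ∈ S, Ex (fun θ => φ z θ ^ 2) := by
  rw [EuclideanSpace.real_norm_sq_eq, Fintype.sum_prod_type]
  rw [← Finset.sum_coe_sort S]
  refine Finset.sum_congr rfl fun z _ => ?_
  unfold Ex
  rw [Finset.sum_div]
  refine Finset.sum_congr rfl fun θ _ => ?_
  simp only [vec, div_pow]
  rw [Real.sq_sqrt (Nat.cast_nonneg _)]

lemma vec_sub {Θ : Type} [Fintype Θ] (S : Finset V) (φ ψ : V → Θ → ℝ) :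
    vec S φ - vec S ψ = vec S (fun z θ => φ z θ - ψ z θ) := by
  ext p
  simp [vec, sub_div]

lemma vec_sum {Θ : Type} [Fintype Θ] {ι : Type} (t : Finset ι) (S : Finset V)
    (φ : ι → V → Θ → ℝ) :
    ∑ i ∈ t, vec S (φ i) = vec S (fun z θ => ∑ i ∈ t, φ i z θ) := by
  ext p
  simp [vec, Finset.sum_div]

lemma exists_step (o : V) (k : ℕ) (H : Homog G o k) (η : ℝ) (f : V → ℝ) (S : Finset V)
    (hS : ∀ x, x ∉ S → f x = 0 ∧ gr hG f x = 0 ∧ lap hG f x = 0)
    (h1 : ∑ x ∈ S, gr hG f x = 1) (h2 : ∑ x ∈ S, (lap hG f x) ^ 2 ≤ η) :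
    ∃ h : V → ℝ, h o = 0 ∧
      (∀ x y, G.Adj x y → G.dist o x ≤ k → |h x - h y| ≤ 1) ∧
      (∀ x, G.dist o x ≤ k → (lap hG h x) ^ 2 ≤ η) ∧
      1 ≤ (dg hG o : ℝ) * ∑ y ∈ nb hG o, h y ^ 2 := by
  classical
  set F : V → EuclideanSpace ℝ (↥S × H.Θ) := fun x => vec S (fun z θ => f (H.T z θ x)) with hF
  -- edges
  have hedge : ∀ x y, G.Adj x y → G.dist o x ≤ k → ‖F y - F x‖ ≤ 1 := by
    intro x y hxy hx
    have h3 : ‖F y - F x‖ ^ 2 ≤ 1 := by
      rw [hF]
      simp only [vec_sub]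
      rw [norm_vec, ← h1]
      refine le_trans (Finset.sum_le_sum fun z _ => Ex_mono fun θ => ?_)
        (homog_sum_le H S S (gr hG f) (gr_nonneg hG f) (fun a ha => (hS a ha).2.1) x hx)
      show (f (H.T z θ y) - f (H.T z θ x)) ^ 2 ≤ gr hG f (H.T z θ x)
      unfold gr
      exact Finset.single_le_sum (f := fun w => (f w - f (H.T z θ x)) ^ 2)
        (fun w _ => sq_nonneg _) ((mem_nb hG).2 ((H.T z θ).map_adj_iff.2 hxy))
    nlinarith [norm_nonneg (F y - F x)]
  have hlap : ∀ x, G.dist o x ≤ k → ‖∑ y ∈ nb hG x, (F y - F x)‖ ^ 2 ≤ η := by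
    intro x hx
    have h3 : ∑ y ∈ nb hG x, (F y - F x) = vec S (fun z θ => lap hG f (H.T z θ x)) := by
      rw [hF]
      simp only [vec_sub]
      rw [vec_sum]
      congr 1
      ext z θ
      unfold lap
      rw [← sum_nb_iso hG (H.T z θ) x (fun y => f y - f (H.T z θ x))]
    rw [h3, norm_vec]
    refine le_trans ?_ h2
    exact homog_sum_le H S S (fun a => (lap hG f a) ^ 2) (fun a => sq_nonneg _)
      (fun a ha => by simp [(hS a ha).2.2]) x hx
  have hsum : ∑ y ∈ nb hG o, ‖F y - F o‖ ^ 2 = 1 := by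
    have h3 : ∀ y ∈ nb hG o, ‖F y - F o‖ ^ 2 =
        ∑ z ∈ S, Ex (fun θ => (f (H.T z θ y) - f z) ^ 2) := by
      intro y _
      rw [hF]
      simp only [vec_sub]
      rw [norm_vec]
      simp only [H.T_o]
    rw [Finset.sum_congr rfl h3, Finset.sum_comm, ← h1]
    refine Finset.sum_congr rfl fun z _ => ?_
    rw [← Ex_sum]
    have h4 : (fun θ : H.Θ => ∑ y ∈ nb hG o, (f (H.T z θ y) - f z) ^ 2) = fun _ => gr hG f z := by
      ext θ
      rw [sum_nb_iso hG (H.T z θ) o (fun y => (f y - f z) ^ 2), H.T_o]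
      rfl
    rw [h4, Ex_const]
  obtain ⟨y₀, hy₀, hy₁⟩ : ∃ y ∈ nb hG o, 1 ≤ (dg hG o : ℝ) * ‖F y - F o‖ ^ 2 := by
    by_contra hcon
    push Not at hcon
    have hne : (nb hG o).Nonempty := by
      rw [Finset.nonempty_iff_ne_empty]
      intro h
      rw [h] at hsum
      simp at hsum
    have h4 : ∑ y ∈ nb hG o, (dg hG o : ℝ) * ‖F y - F o‖ ^ 2 < ∑ y ∈ nb hG o, (1 : ℝ) :=
      Finset.sum_lt_sum_of_nonempty hne hcon
    rw [← Finset.mul_sum, hsum, Finset.sum_const, nsmul_eq_mul] at h4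
    unfold dg at h4
    linarith
  set v := F y₀ - F o with hv
  have hv0 : 0 < ‖v‖ := by
    rw [norm_pos_iff]
    intro h
    rw [h] at hy₁
    simp at hy₁
    linarith
  set e := (1 / ‖v‖) • v with he
  have hen : ‖e‖ = 1 := by
    rw [he, norm_smul, norm_div, norm_one, norm_norm]
    field_simp
  have hadd : ∀ x y, inner ℝ (F x - F o) e - inner ℝ (F y - F o) e = inner ℝ (F x - F y) e := by
    intro x y
    rw [← inner_sub_left]
    congr 1
    abel
  refine ⟨fun x => inner ℝ (F x - F o) e, by simp, ?_, ?_, ?_⟩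
  · intro x y hxy hx
    simp only
    rw [hadd]
    refine (abs_real_inner_le_norm _ _).trans ?_
    rw [hen, mul_one, norm_sub_rev]
    exact hedge x y hxy hx
  · intro x hx
    have h3 : lap hG (fun x => inner ℝ (F x - F o) e) x = inner ℝ (∑ y ∈ nb hG x, (F y - F x)) e := by
      unfold lap
      simp only [hadd]
      rw [sum_inner]
    rw [h3, ← sq_abs]
    refine le_trans ?_ (hlap x hx)
    have h4 := abs_real_inner_le_norm (∑ y ∈ nb hG x, (F y - F x)) e
    rw [hen, mul_one] at h4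
    exact pow_le_pow_left₀ (abs_nonneg _) h4 2
  · refine hy₁.trans (mul_le_mul_of_nonneg_left ?_ (Nat.cast_nonneg _))
    have h5 : inner ℝ (F y₀ - F o) e = ‖v‖ := by
      rw [he, inner_smul_right, ← hv, real_inner_self_eq_norm_sq]
      field_simp
    calc ‖v‖ ^ 2 = (inner ℝ (F y₀ - F o) e) ^ 2 := by rw [h5]
      _ ≤ _ := Finset.single_le_sum (f := fun y => (inner ℝ (F y - F o) e) ^ 2)
          (fun y _ => sq_nonneg _) hy₀

lemma abs_le_of_ch {o : V} {k : ℕ} {h : V → ℝ}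
    (hl : ∀ x y, G.Adj x y → G.dist o x ≤ k → |h x - h y| ≤ 1) :
    ∀ (s : List V) (x : V), ch G x s → (∀ v ∈ x :: s, G.dist o v ≤ k) →
      |h x - h (en x s)| ≤ s.length := by
  intro s
  induction s with
  | nil => intro x _ _; simp
  | cons a s ih =>
    intro x hc hd
    have h1 := hl x a hc.1 (hd x (by simp))
    have h2 := ih a hc.2 (fun v hv => hd v (List.mem_cons_of_mem _ hv))
    simp only [en_cons, List.length_cons]
    push_cast
    have h3 : h x - h (en a s) = (h x - h a) + (h a - h (en a s)) := by ring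
    rw [h3]
    refine (abs_add_le _ _).trans ?_
    linarith

theorem exists_harmonic (o : V) (hh : ∀ R, Nonempty (Homog G o R))
    (hlow : ∀ η : ℝ, 0 < η → ∃ (f : V → ℝ) (S : Finset V),
      (∀ x, x ∉ S → f x = 0 ∧ gr hG f x = 0 ∧ lap hG f x = 0) ∧
      ∑ x ∈ S, gr hG f x = 1 ∧ ∑ x ∈ S, (lap hG f x) ^ 2 ≤ η) :
    ∃ u ∈ LH hG o, u ≠ 0 := by
  classical
  have hstep : ∀ k : ℕ, ∃ h : V → ℝ, h o = 0 ∧
      (∀ x y, G.Adj x y → G.dist o x ≤ k → |h x - h y| ≤ 1) ∧
      (∀ x, G.dist o x ≤ k → (lap hG h x) ^ 2 ≤ 1 / ((k : ℝ) + 1)) ∧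
      1 ≤ (dg hG o : ℝ) * ∑ y ∈ nb hG o, h y ^ 2 := by
    intro k
    obtain ⟨H⟩ := hh k
    obtain ⟨f, S, hS, h1, h2⟩ := hlow (1 / ((k : ℝ) + 1)) (by positivity)
    exact exists_step hG o k H _ f S hS h1 h2
  choose h h0 hl hla hn using hstep
  have habs : ∀ k x, G.dist o x ≤ k → |h k x| ≤ G.dist o x := by
    intro k x hx
    have h1 := abs_le_of_ch (hl k) (geo hG o x) o (ch_geo hG o x) (by
      intro v hv
      rcases List.mem_cons.1 hv with rfl | hv
      · simp
      · exact (mem_geo_dist hG hv).trans hx)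
    rw [en_geo, length_geo, h0, zero_sub, abs_neg] at h1
    exact h1
  set h' : ℕ → V → ℝ := fun k x => if G.dist o x ≤ k then h k x else 0 with hh'
  set K : Set (V → ℝ) := Set.pi Set.univ
    (fun x => Set.Icc (-(G.dist o x : ℝ)) (G.dist o x : ℝ)) with hK
  have hKc : IsCompact K := isCompact_univ_pi fun x => isCompact_Icc
  have hmem : ∀ k, h' k ∈ K := by
    intro k x _
    simp only [hh']
    split_ifs with hx
    · exact abs_le.1 (habs k x hx)
    · constructor <;> simp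
  set U : Ultrafilter ℕ := Filter.hyperfilter ℕ with hU
  obtain ⟨u, -, hu⟩ := hKc.ultrafilter_le_nhds (U.map h') (by
    rw [le_principal_iff]
    exact Ultrafilter.mem_map.2 (Filter.univ_mem' hmem))
  have hu' : Tendsto h' U (nhds u) := hu
  have hux : ∀ x, Tendsto (fun k => h' k x) U (nhds (u x)) := fun x =>
    (tendsto_pi_nhds.1 hu') x
  have hU_le : (U : Filter ℕ) ≤ atTop := by
    rw [hU, ← Nat.cofinite_eq_atTop]
    exact Filter.hyperfilter_le_cofinite
  have hev : ∀ n : ℕ, ∀ᶠ k in (U : Filter ℕ), n ≤ k := fun n =>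
    hU_le (eventually_ge_atTop n)
  have hne : (U : Filter ℕ).NeBot := U.neBot
  have hlim_lap : ∀ x, Tendsto (fun k => lap hG (h' k) x) U (nhds (lap hG u x)) := by
    intro x
    unfold lap
    exact tendsto_finsetSum _ fun y _ => (hux y).sub (hux x)
  refine ⟨u, ⟨?_, ?_, 1, ?_⟩, ?_⟩
  · -- u o = 0
    have h1 : Tendsto (fun k => h' k o) U (nhds 0) := by
      refine (tendsto_congr fun k => ?_).2 tendsto_const_nhds
      simp [hh', h0]
    exact tendsto_nhds_unique (hux o) h1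
  · -- harmonic
    intro x
    have h1 : Tendsto (fun k : ℕ => 1 / ((k : ℝ) + 1)) U (nhds 0) :=
      tendsto_one_div_add_atTop_nhds_zero_nat.mono_left hU_le
    have h2 : (lap hG u x) ^ 2 ≤ 0 := by
      refine le_of_tendsto_of_tendsto ((hlim_lap x).pow 2) h1 ?_
      filter_upwards [hev (G.dist o x + 1)] with k hk
      have h3 : lap hG (h' k) x = lap hG (h k) x := by
        unfold lap
        refine Finset.sum_congr rfl fun y hy => ?_
        have h4 : G.dist o x ≤ k := by omega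
        have h5 : G.dist o y ≤ k := by
          have h6 := hG.tri o x y
          have h7 : G.dist x y = 1 := SimpleGraph.dist_eq_one_iff_adj.2 ((mem_nb hG).1 hy)
          omega
        simp [hh', h4, h5]
      rw [h3]
      exact hla k x (by omega)
    exact pow_eq_zero_iff (two_ne_zero) |>.1 (le_antisymm h2 (sq_nonneg _))
  · intro x y hxy
    refine le_of_tendsto ((hux x).sub (hux y)).abs ?_
    filter_upwards [hev (G.dist o x + G.dist o y)] with k hk
    have h4 : G.dist o x ≤ k := by omega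
    have h5 : G.dist o y ≤ k := by omega
    simp only [hh', h4, h5, if_true]
    exact hl k x y hxy h4
  · intro hu0
    have h1 : Tendsto (fun k => (dg hG o : ℝ) * ∑ y ∈ nb hG o, h' k y ^ 2) U
        (nhds ((dg hG o : ℝ) * ∑ y ∈ nb hG o, u y ^ 2)) :=
      (tendsto_finsetSum _ fun y _ => (hux y).pow 2).const_mul _
    have h2 : (1 : ℝ) ≤ (dg hG o : ℝ) * ∑ y ∈ nb hG o, u y ^ 2 := by
      refine ge_of_tendsto h1 ?_
      filter_upwards [hev 1] with k hk
      have h3 : ∑ y ∈ nb hG o, h' k y ^ 2 = ∑ y ∈ nb hG o, h k y ^ 2 := by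
        refine Finset.sum_congr rfl fun y hy => ?_
        have h7 : G.dist o y = 1 := SimpleGraph.dist_eq_one_iff_adj.2 ((mem_nb hG).1 hy)
        have h8 : G.dist o y ≤ k := by omega
        simp [hh', h8]
      rw [h3]
      exact hn k
    rw [hu0] at h2
    simp at h2
    linarith

end HARM

end Pool.H61.ST
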