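import Pool.Agent.H61.ST.Defs

set_option autoImplicit false

/-! Module POIS: harmonic representatives of homomorphisms of a finite index subgroup. -/

namespace Pool.H61.ST

open Finset Pool.Agent.H61.SW Pool.H98.C

section POIS
variable {V : Type} {G : SimpleGraph V} (hG : TG G)

/-- functions invariant under the subgroup -/
def pInv (Γ₁ : Subgroup (G ≃g G)) : Submodule ℝ (V → ℝ) where
  carrier := {φ | ∀ g ∈ Γ₁, ∀ x, φ (g x) = φ x}
  add_mem' := by
    intro a b ha hb g hg x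
    rw [Pi.add_apply, Pi.add_apply, ha g hg, hb g hg]
  zero_mem' := fun g _ x => rfl
  smul_mem' := by
    intro c a ha g hg x
    rw [Pi.smul_apply, Pi.smul_apply, ha g hg]

lemma pois_out (Γ₁ : Subgroup (G ≃g G)) {M : Type*} (F : (G ≃g G) → M)
    (hF : ∀ g, ∀ γ ∈ Γ₁, F (g * γ) = F g) (g : G ≃g G) :
    F ((g : (G ≃g G) ⧸ Γ₁).out) = F g := by
  obtain ⟨h, hh⟩ := QuotientGroup.mk_out_eq_mul Γ₁ g
  rw [hh]
  exact hF g h h.2

lemma pois_sum (Γ₁ : Subgroup (G ≃g G)) [Fintype ((G ≃g G) ⧸ Γ₁)] {M : Type*} [AddCommMonoid M]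
    (F : (G ≃g G) → M) (hF : ∀ g, ∀ γ ∈ Γ₁, F (g * γ) = F g) (h : G ≃g G) :
    ∑ c : (G ≃g G) ⧸ Γ₁, F (h * c.out) = ∑ c : (G ≃g G) ⧸ Γ₁, F c.out := by
  have h1 : ∀ c : (G ≃g G) ⧸ Γ₁, F (h * c.out) = F ((h • c).out) := by
    intro c
    have h2 : (h • c) = ((h * c.out : G ≃g G) : (G ≃g G) ⧸ Γ₁) := by
      conv_lhs => rw [← QuotientGroup.out_eq' c]
      rfl
    rw [h2, pois_out Γ₁ F hF]
  rw [Finset.sum_congr rfl fun c _ => h1 c]
  exact (MulAction.bijective h).sum_comp (fun c : (G ≃g G) ⧸ Γ₁ => F c.out)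

include hG in
lemma pois_range (Γ₁ : Subgroup (G ≃g G)) (o : V) (u : V → ℝ)
    (hu : ∀ g ∈ Γ₁, ∀ x, u (g x) = u x) (x : V) :
    ∃ c : (G ≃g G) ⧸ Γ₁, u x = u ((c.out⁻¹ : G ≃g G) o) := by
  obtain ⟨g, hg⟩ := hG.tr x o
  refine ⟨(g : (G ≃g G) ⧸ Γ₁), ?_⟩
  rw [pois_out Γ₁ (fun g : G ≃g G => u ((g⁻¹ : G ≃g G) o)) ?_ g]
  · rw [← hg, RelIso.inv_apply_self]
  · intro g γ hγ
    simp only [mul_inv_rev, RelIso.mul_apply]
    exact hu _ (Γ₁.inv_mem hγ) _

/-- invariant harmonic functions are constant -/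
theorem const_of_inv (Γ₁ : Subgroup (G ≃g G)) (hfi : Γ₁.FiniteIndex) (u : V → ℝ)
    (hu : ∀ g ∈ Γ₁, ∀ x, u (g x) = u x) (hh : ∀ x, lap hG u x = 0) : ∀ x y, u x = u y := by
  classical
  obtain ⟨o⟩ := hG.conn.nonempty
  have hfin : Finite ((G ≃g G) ⧸ Γ₁) := Subgroup.finite_quotient_of_finiteIndex
  obtain ⟨c₀, hc₀⟩ := Finite.exists_max (fun c : (G ≃g G) ⧸ Γ₁ => u ((c.out⁻¹ : G ≃g G) o))
  set x₀ : V := (c₀.out⁻¹ : G ≃g G) o with hx₀
  have hmax : ∀ x, u x ≤ u x₀ := by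
    intro x
    obtain ⟨c, hc⟩ := pois_range hG Γ₁ o u hu x
    rw [hc]
    exact hc₀ c
  have hstep : ∀ x y, G.Adj x y → u x = u x₀ → u y = u x₀ := by
    intro x y hxy hx
    have h1 : ∀ z ∈ nb hG x, 0 ≤ u x - u z := fun z _ => by
      have := hmax z
      linarith
    have h2 : ∑ z ∈ nb hG x, (u x - u z) = 0 := by
      have h3 := hh x
      unfold lap at h3
      have h4 : ∑ z ∈ nb hG x, (u x - u z) = -∑ z ∈ nb hG x, (u z - u x) := by
        rw [← Finset.sum_neg_distrib]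
        exact Finset.sum_congr rfl fun z _ => by ring
      rw [h4, h3, neg_zero]
    have h5 := (Finset.sum_eq_zero_iff_of_nonneg h1).1 h2 y ((mem_nb hG).2 hxy)
    linarith
  have hall : ∀ x, u x = u x₀ := by
    intro x
    obtain ⟨p⟩ := hG.conn.preconnected x₀ x
    have : ∀ {a b : V} (p : G.Walk a b), u a = u x₀ → u b = u x₀ := by
      intro a b p
      induction p with
      | nil => exact id
      | cons h p ih => exact fun ha => ih (hstep _ _ h ha)
    exact this p rfl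
  intro x y
  rw [hall x, hall y]

/-- invariant functions of pairs: mass transport -/
lemma pois_mass (o : V)
    (huni : ∀ x y, (Pool.H98.C.orb G x y).ncard = (Pool.H98.C.orb G y x).ncard)
    (a : V → V → ℝ) (ha : ∀ (g : G ≃g G) x y, a (g x) (g y) = a x y) :
    ∑ y ∈ nb hG o, a o y = ∑ y ∈ nb hG o, a y o := by
  classical
  have key : ∀ r : ℝ, ((nb hG o).filter (fun y => a o y = r)).card =
      ((nb hG o).filter (fun y => a y o = r)).card := by
    intro r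
    have h := mass_transport hG.lf hG.conn hG.tr huni (fun x y => G.Adj x y ∧ a x y = r)
      (by
        intro φ u v
        rw [ha, φ.map_adj_iff]) o
      ((hG.lf o).subset (fun y hy => hy.1)) ((hG.lf o).subset (fun y hy => hy.1.symm))
    have e1 : {x | G.Adj o x ∧ a o x = r} = ((nb hG o).filter (fun y => a o y = r) : Finset V) := by
      ext y
      simp
    have e2 : {x | G.Adj x o ∧ a x o = r} = ((nb hG o).filter (fun y => a y o = r) : Finset V) := by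
      ext y
      simp [G.adj_comm]
    rw [e1, e2, Set.ncard_coe_finset, Set.ncard_coe_finset] at h
    exact h
  have hm : (nb hG o).1.map (fun y => a o y) = (nb hG o).1.map (fun y => a y o) := by
    ext r
    rw [Multiset.count_map, Multiset.count_map]
    have := key r
    rw [Finset.card_def, Finset.card_def, Finset.filter_val, Finset.filter_val] at this
    convert this using 3 <;> exact eq_comm
  show ((nb hG o).1.map (fun y => a o y)).sum = ((nb hG o).1.map (fun y => a y o)).sum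
  rw [hm]

/-- the divergence of an invariant antisymmetric flow has mean zero -/
lemma pois_div (o : V)
    (huni : ∀ x y, (Pool.H98.C.orb G x y).ncard = (Pool.H98.C.orb G y x).ncard)
    (Γ₁ : Subgroup (G ≃g G)) [Fintype ((G ≃g G) ⧸ Γ₁)]
    (a : V → V → ℝ) (ha : ∀ g ∈ Γ₁, ∀ x y, a (g x) (g y) = a x y)
    (hanti : ∀ x y, a y x = -a x y) :
    ∑ c : (G ≃g G) ⧸ Γ₁, ∑ y ∈ nb hG ((c.out⁻¹ : G ≃g G) o), a ((c.out⁻¹ : G ≃g G) o) y = 0 := by
  set a' : V → V → ℝ := fun x y => ∑ c : (G ≃g G) ⧸ Γ₁,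
    a ((c.out⁻¹ : G ≃g G) x) ((c.out⁻¹ : G ≃g G) y) with ha'
  have h1 : ∀ (g : G ≃g G) x y, a' (g x) (g y) = a' x y := by
    intro g x y
    have h2 := pois_sum Γ₁ (fun h : G ≃g G => a ((h⁻¹ : G ≃g G) x) ((h⁻¹ : G ≃g G) y)) (by
      intro h γ hγ
      simp only [mul_inv_rev, RelIso.mul_apply]
      exact ha _ (Γ₁.inv_mem hγ) _ _) g⁻¹
    rw [ha']
    simp only
    rw [← h2]
    refine Finset.sum_congr rfl fun c _ => ?_
    simp only [mul_inv_rev, RelIso.mul_apply, inv_inv]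
  have h3 := pois_mass hG o huni a' h1
  have h4 : ∑ y ∈ nb hG o, a' y o = -∑ y ∈ nb hG o, a' o y := by
    rw [← Finset.sum_neg_distrib]
    refine Finset.sum_congr rfl fun y _ => ?_
    rw [ha']
    simp only
    rw [← Finset.sum_neg_distrib]
    exact Finset.sum_congr rfl fun c _ => hanti _ _
  rw [h4] at h3
  have h5 : ∑ y ∈ nb hG o, a' o y = 0 := by linarith
  rw [← h5, ha']
  simp only
  rw [Finset.sum_comm]
  refine Finset.sum_congr rfl fun c _ => ?_
  rw [← sum_nb_iso hG (c.out⁻¹ : G ≃g G) o (fun y => a ((c.out⁻¹ : G ≃g G) o) y)]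

/-- a function with prescribed increments -/
lemma pois_eta (Γ₁ : Subgroup (G ≃g G)) (χ : (G ≃g G) → ℤ)
    (hmul : ∀ g ∈ Γ₁, ∀ h ∈ Γ₁, χ (g * h) = χ g + χ h)
    (hst : ∀ g ∈ Γ₁, ∀ x, g x = x → χ g = 0) :
    ∃ η : V → ℝ, ∀ g ∈ Γ₁, ∀ x, η (g x) = η x + χ g := by
  classical
  let S : Setoid V :=
    { r := fun x y => ∃ g ∈ Γ₁, g x = y
      iseqv :=
        { refl := fun x => ⟨1, Γ₁.one_mem, rfl⟩
          symm := by
            rintro x y ⟨g, hg, rfl⟩
            exact ⟨g⁻¹, Γ₁.inv_mem hg, RelIso.inv_apply_self g x⟩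
          trans := by
            rintro x y z ⟨g, hg, rfl⟩ ⟨h, hh, rfl⟩
            exact ⟨h * g, Γ₁.mul_mem hh hg, by rw [RelIso.mul_apply]⟩ } }
  let rep : V → V := fun x => (Quotient.mk S x).out
  have hrep : ∀ x, ∃ g ∈ Γ₁, g (rep x) = x := fun x => Quotient.mk_out (s := S) x
  choose γ hγ hγx using hrep
  refine ⟨fun x => (χ (γ x) : ℝ), ?_⟩
  intro g hg x
  have h1 : rep (g x) = rep x := by
    have : Quotient.mk S (g x) = Quotient.mk S x :=
      Quotient.sound (s := S) (S.symm ⟨g, hg, rfl⟩)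
    show (Quotient.mk S (g x)).out = (Quotient.mk S x).out
    rw [this]
  have hinv : χ (γ (g x))⁻¹ = -χ (γ (g x)) := by
    have h2 := hmul _ (hγ (g x)) _ (Γ₁.inv_mem (hγ (g x)))
    rw [mul_inv_cancel] at h2
    have h3 := hmul 1 Γ₁.one_mem 1 Γ₁.one_mem
    rw [mul_one] at h3
    omega
  have h2 : χ ((γ (g x))⁻¹ * (g * γ x)) = 0 := by
    refine hst _ (Γ₁.mul_mem (Γ₁.inv_mem (hγ _)) (Γ₁.mul_mem hg (hγ _))) (rep x) ?_
    rw [RelIso.mul_apply, RelIso.mul_apply, hγx x]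
    have h3 := hγx (g x)
    rw [h1] at h3
    nth_rewrite 2 [← h3]
    exact RelIso.inv_apply_self _ _
  rw [hmul _ (Γ₁.inv_mem (hγ _)) _ (Γ₁.mul_mem hg (hγ _)), hmul _ hg _ (hγ _), hinv] at h2
  have h4 : χ (γ (g x)) = χ (γ x) + χ g := by omega
  simp only
  rw [h4]
  push_cast
  ring

lemma pois_lap_inv (Γ₁ : Subgroup (G ≃g G)) (χ : (G ≃g G) → ℤ) (η : V → ℝ)
    (hη : ∀ g ∈ Γ₁, ∀ x, η (g x) = η x + χ g) : ∀ g ∈ Γ₁, ∀ x, lap hG η (g x) = lap hG η x := by
  intro g hg x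
  unfold lap
  rw [← sum_nb_iso hG g x (fun y => η y - η (g x))]
  refine Finset.sum_congr rfl fun y _ => ?_
  rw [hη g hg, hη g hg]
  ring

theorem exists_harm_rep (o : V)
    (huni : ∀ x y, (Pool.H98.C.orb G x y).ncard = (Pool.H98.C.orb G y x).ncard)
    (Γ₁ : Subgroup (G ≃g G)) (hn : Γ₁.Normal) (hfi : Γ₁.FiniteIndex) (χ : (G ≃g G) → ℤ)
    (hmul : ∀ g ∈ Γ₁, ∀ h ∈ Γ₁, χ (g * h) = χ g + χ h)
    (hst : ∀ g ∈ Γ₁, ∀ x, g x = x → χ g = 0) :
    ∃ u : V → ℝ, (∀ g ∈ Γ₁, ∀ x, u (g x) = u x + χ g) ∧ ∀ x, lap hG u x = 0 := by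
  classical
  have hfin : Finite ((G ≃g G) ⧸ Γ₁) := Subgroup.finite_quotient_of_finiteIndex
  letI : Fintype ((G ≃g G) ⧸ Γ₁) := Fintype.ofFinite _
  obtain ⟨η, hη⟩ := pois_eta Γ₁ χ hmul hst
  -- the functional
  let ev : (V → ℝ) →ₗ[ℝ] ((G ≃g G) ⧸ Γ₁ → ℝ) :=
    { toFun := fun φ c => φ ((c.out⁻¹ : G ≃g G) o)
      map_add' := fun _ _ => rfl
      map_smul' := fun _ _ => rfl }
  let l : (V → ℝ) →ₗ[ℝ] ℝ :=
    { toFun := fun φ => ∑ c : (G ≃g G) ⧸ Γ₁, φ ((c.out⁻¹ : G ≃g G) o)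
      map_add' := fun φ ψ => by simp only [Pi.add_apply]; exact Finset.sum_add_distrib
      map_smul' := fun r φ => by
        simp only [Pi.smul_apply, smul_eq_mul, RingHom.id_apply]
        rw [Finset.mul_sum] }
  have hevinj : Function.Injective (ev.comp (pInv Γ₁).subtype) := by
    rw [← LinearMap.ker_eq_bot, LinearMap.ker_eq_bot']
    rintro ⟨φ, hφ⟩ h0
    apply Subtype.ext
    funext x
    obtain ⟨c, hc⟩ := pois_range hG Γ₁ o φ hφ x
    show φ x = 0
    rw [hc]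
    exact congrFun h0 c
  haveI : Module.Finite ℝ (pInv Γ₁) := Module.Finite.of_injective _ hevinj
  have hl_lap : ∀ φ : V → ℝ, (∀ g ∈ Γ₁, ∀ x y, φ (g y) - φ (g x) = φ y - φ x) →
      l (lap hG φ) = 0 := by
    intro φ hφ
    exact pois_div hG o huni Γ₁ (fun x y => φ y - φ x) hφ (fun x y => by ring)
  have hl1 : l (fun _ => 1) = (Fintype.card ((G ≃g G) ⧸ Γ₁) : ℝ) := by
    show ∑ c : (G ≃g G) ⧸ Γ₁, (1 : ℝ) = _
    simp
  have hpos : (0 : ℝ) < (Fintype.card ((G ≃g G) ⧸ Γ₁) : ℝ) := by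
    exact_mod_cast Fintype.card_pos
  -- the operator
  let T : pInv Γ₁ →ₗ[ℝ] pInv Γ₁ :=
    { toFun := fun φ => ⟨fun x => lap hG φ.1 x + l φ.1, by
        intro g hg x
        have h1 := pois_lap_inv hG Γ₁ (fun _ => 0) φ.1
          (fun g hg x => by rw [φ.2 g hg x]; simp) g hg x
        simp only
        rw [h1]⟩
      map_add' := fun φ ψ => by
        apply Subtype.ext
        funext x
        show lap hG (φ.1 + ψ.1) x + l (φ.1 + ψ.1) = (lap hG φ.1 x + l φ.1) + (lap hG ψ.1 x + l ψ.1)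
        rw [lap_add, map_add]
        ring
      map_smul' := fun r φ => by
        apply Subtype.ext
        funext x
        show lap hG (r • φ.1) x + l (r • φ.1) = r * (lap hG φ.1 x + l φ.1)
        rw [lap_smul, map_smul, smul_eq_mul]
        ring }
  have hTl : ∀ φ : pInv Γ₁, l (T φ).1 = l φ.1 * Fintype.card ((G ≃g G) ⧸ Γ₁) := by
    intro φ
    have h1 : (T φ).1 = lap hG φ.1 + (l φ.1) • (fun _ => (1 : ℝ)) := by
      funext x
      show lap hG φ.1 x + l φ.1 = lap hG φ.1 x + l φ.1 * 1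
      rw [mul_one]
    rw [h1, map_add, map_smul, hl1, hl_lap φ.1 (fun g hg x y => by rw [φ.2 g hg, φ.2 g hg]),
      smul_eq_mul, zero_add]
  have hinj : Function.Injective T := by
    rw [← LinearMap.ker_eq_bot, LinearMap.ker_eq_bot']
    intro φ h0
    have h1 := hTl φ
    rw [h0] at h1
    have h2 : l φ.1 = 0 := by
      have h3 : l (0 : pInv Γ₁).1 = 0 := map_zero l
      rw [h3] at h1
      rcases mul_eq_zero.1 h1.symm with h | h
      · exact h
      · exact absurd h hpos.ne'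
    have h3 : ∀ x, lap hG φ.1 x = 0 := by
      intro x
      have h4 := congrFun (congrArg Subtype.val h0) x
      have h5 : lap hG φ.1 x + l φ.1 = 0 := h4
      rw [h2, add_zero] at h5
      exact h5
    have h4 := const_of_inv hG Γ₁ hfi φ.1 φ.2 h3
    apply Subtype.ext
    funext x
    have h5 : φ.1 = (φ.1 x) • (fun _ => (1 : ℝ)) := by
      funext y
      show φ.1 y = φ.1 x * 1
      rw [mul_one]
      exact h4 y x
    rw [h5, map_smul, hl1, smul_eq_mul] at h2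
    rcases mul_eq_zero.1 h2 with h | h
    · exact h
    · exact absurd h hpos.ne'
  have hsurj := LinearMap.injective_iff_surjective.1 hinj
  obtain ⟨φ, hφ⟩ := hsurj ⟨lap hG η, pois_lap_inv hG Γ₁ χ η hη⟩
  have h1 := hTl φ
  rw [hφ] at h1
  have h2 : l (lap hG η) = 0 := hl_lap η (fun g hg x y => by rw [hη g hg, hη g hg]; ring)
  have h3 : l φ.1 = 0 := by
    have h4 : (0 : ℝ) = l φ.1 * Fintype.card ((G ≃g G) ⧸ Γ₁) := h2.symm.trans h1
    rcases mul_eq_zero.1 h4.symm with h | h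
    · exact h
    · exact absurd h hpos.ne'
  refine ⟨η - φ.1, ?_, ?_⟩
  · intro g hg x
    rw [Pi.sub_apply, Pi.sub_apply, hη g hg, φ.2 g hg]
    ring
  · intro x
    have h5 : lap hG φ.1 x + l φ.1 = lap hG η x := congrFun (congrArg Subtype.val hφ) x
    rw [h3, add_zero] at h5
    have h6 : η - φ.1 = η + (-1 : ℝ) • φ.1 := by
      funext y
      simp [sub_eq_add_neg]
    rw [h6, lap_add, lap_smul, h5]
    ring

end POIS

end Pool.H61.ST
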