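import Pool.Agent.H61.ST.Act
import Pool.Agent.H61.ST.Pois

set_option autoImplicit false

/-! Module HOM: homomorphism to the integers. -/

namespace Pool.H61.ST

open Finset Pool.Agent.H61.SW Pool.H98.C

/-! ### commutative algebra -/

lemma hom_exists_int {A : Type*} [AddCommGroup A] [Module.Finite ℤ A] [Infinite A] :
    ∃ φ : A →+ ℤ, ∃ a, φ a ≠ 0 := by
  let Q := A ⧸ Submodule.torsion ℤ A
  rcases subsingleton_or_nontrivial Q with h | h
  · exfalso
    have h1 : Submodule.torsion ℤ A = ⊤ := Submodule.Quotient.subsingleton_iff.1 h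
    have h2 : Module.IsTorsion ℤ A := Submodule.isTorsion'_iff_torsion'_eq_top _ |>.2 h1
    have h3 := Module.finite_of_fg_torsion A h2
    exact not_finite A
  · have : Module.Free ℤ Q := Module.free_of_finite_type_torsion_free'
    let b := Module.Free.chooseBasis ℤ Q
    obtain ⟨i⟩ := b.index_nonempty
    obtain ⟨a, ha⟩ := Submodule.mkQ_surjective (Submodule.torsion ℤ A) (b i)
    refine ⟨((b.coord i).comp (Submodule.mkQ (Submodule.torsion ℤ A))).toAddMonoidHom, a, ?_⟩
    change b.coord i (Submodule.mkQ (Submodule.torsion ℤ A) a) ≠ 0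
    rw [ha]
    simp

lemma hom_exists_chi {Γ' : Type} [Group Γ'] {B : Type} [AddCommGroup B] (c : Γ' → B)
    (hc : ∀ g h, c (g * h) = c g + c h) (S : Set Γ') (hS : Subgroup.closure S = ⊤)
    (hfin : (c '' S).Finite) (hinf : (Set.range c).Infinite) :
    ∃ χ : Γ' → ℤ, (∀ g h, χ (g * h) = χ g + χ h) ∧ (∃ g, χ g ≠ 0) ∧
      ∀ g, (∃ n : ℕ, 0 < n ∧ n • c g = 0) → χ g = 0 := by
  let cA : Γ' →* Multiplicative B :=
    { toFun := fun g => Multiplicative.ofAdd (c g)
      map_one' := by
        have h1 := hc 1 1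
        rw [mul_one] at h1
        have h2 : c 1 = 0 := by simpa using h1
        rw [h2]; rfl
      map_mul' := fun g h => by rw [hc]; rfl }
  let A := Additive cA.range
  have hfg : Group.FG cA.range := by
    rw [Group.fg_iff]
    refine ⟨cA.rangeRestrict '' S, ?_, ?_⟩
    · rw [← MonoidHom.map_closure, hS, ← MonoidHom.range_eq_map]
      exact MonoidHom.range_eq_top.2 cA.rangeRestrict_surjective
    · have h1 : (Subtype.val '' (cA.rangeRestrict '' S)).Finite := by
        rw [← Set.image_comp]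
        exact hfin
      exact h1.of_finite_image Subtype.val_injective.injOn
  have hfinA : Module.Finite ℤ A := by
    rw [Module.Finite.iff_addGroup_fg]
    exact GroupFG.iff_add_fg.1 hfg
  have hinfA : Infinite A := by
    have h1 : (cA.range : Set (Multiplicative B)).Infinite := by
      have : (cA.range : Set (Multiplicative B)) = Set.range c := rfl
      rw [this]; exact hinf
    exact h1.to_subtype
  obtain ⟨φ, a, ha⟩ := hom_exists_int (A := A)
  let χ : Γ' → ℤ := fun g => φ (Additive.ofMul (cA.rangeRestrict g))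
  have hχ : ∀ g h, χ (g * h) = χ g + χ h := by
    intro g h
    simp only [χ, map_mul, ofMul_mul, map_add]
  refine ⟨χ, hχ, ?_, ?_⟩
  · obtain ⟨g, hg⟩ := cA.rangeRestrict_surjective (Additive.toMul a)
    exact ⟨g, by simp only [χ, hg]; exact ha⟩
  · rintro g ⟨n, hn, hng⟩
    have h1 : (cA.rangeRestrict g) ^ n = 1 := by
      apply Subtype.ext
      exact hng
    have h2 : n • (Additive.ofMul (cA.rangeRestrict g)) = 0 := by
      rw [← ofMul_pow, h1]; rfl
    have h3 := congrArg φ h2
    rw [map_nsmul, map_zero, nsmul_eq_mul, mul_eq_zero] at h3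
    rcases h3 with h3 | h3
    · exact absurd (by exact_mod_cast h3) hn.ne'
    · exact h3

section
variable {V : Type} {G : SimpleGraph V} (hG : TG G)

/-! ### the action -/

lemma hom_act_mem (o : V) (g : G ≃g G) {u : V → ℝ} (hu : u ∈ LH hG o) : act o g u ∈ LH hG o := by
  obtain ⟨h1, h2, C, h3⟩ := hu
  refine ⟨by simp [act], fun x => ?_, C, fun x y hxy => ?_⟩
  · have e : lap hG (act o g u) x = lap hG (u ∘ g.symm) x := by
      unfold lap act
      exact Finset.sum_congr rfl fun y _ => by simp only [Function.comp]; ring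
    rw [e, lap_comp, h2]
  · have := h3 (g.symm x) (g.symm y) (g.symm.map_adj_iff.2 hxy)
    simp only [act]
    rwa [sub_sub_sub_cancel_right]

/-- the representation -/
noncomputable def homRho (o : V) : (G ≃g G) →* Module.End ℝ (LH hG o) where
  toFun g :=
    { toFun := fun u => ⟨act o g u.1, hom_act_mem hG o g u.2⟩
      map_add' := fun u v => Subtype.ext (by
        funext x
        simp only [act, Submodule.coe_add, Pi.add_apply]; ring)
      map_smul' := fun c u => Subtype.ext (by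
        funext x
        simp only [act, Submodule.coe_smul, Pi.smul_apply, smul_eq_mul, RingHom.id_apply]; ring) }
  map_one' := by
    refine LinearMap.ext fun u => Subtype.ext ?_
    funext x
    have h0 : u.1 o = 0 := u.2.1
    change u.1 ((1 : G ≃g G).symm x) - u.1 ((1 : G ≃g G).symm o) = u.1 x
    have h1 : ∀ y, (1 : G ≃g G).symm y = y := fun y => rfl
    rw [h1, h1, h0, sub_zero]
  map_mul' g h := by
    refine LinearMap.ext fun u => Subtype.ext ?_
    funext x
    change u.1 ((g * h).symm x) - u.1 ((g * h).symm o) =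
      (u.1 (h.symm (g.symm x)) - u.1 (h.symm o)) - (u.1 (h.symm (g.symm o)) - u.1 (h.symm o))
    have h1 : ∀ y, (g * h).symm y = h.symm (g.symm y) := fun y => rfl
    rw [h1, h1]; ring

lemma homRho_apply (o : V) (g : G ≃g G) (u : LH hG o) (x : V) :
    (homRho hG o g u).1 x = u.1 (g.symm x) - u.1 (g.symm o) := rfl

/-- functions in `LH` are determined on a ball -/
lemma hom_exists_R (o : V) (hfd : Module.Finite ℝ (LH hG o)) :
    ∃ R : ℕ, ∀ u : LH hG o, (∀ x, G.dist o x ≤ R → u.1 x = 0) → u = 0 := by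
  let K : ℕ → Submodule ℝ (LH hG o) := fun R =>
    { carrier := {u | ∀ x, G.dist o x ≤ R → u.1 x = 0}
      add_mem' := fun {u v} hu hv x hx => by
        simp only [Submodule.coe_add, Pi.add_apply, hu x hx, hv x hx, add_zero]
      zero_mem' := fun x _ => rfl
      smul_mem' := fun c u hu x hx => by
        simp only [Submodule.coe_smul, Pi.smul_apply, hu x hx, smul_zero] }
  have hanti : ∀ {m n : ℕ}, m ≤ n → K n ≤ K m := fun h u hu x hx => hu x (hx.trans h)
  obtain ⟨R, hR⟩ := IsArtinian.monotone_stabilizes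
    (⟨fun n => OrderDual.toDual (K n), fun m n h => hanti h⟩ : ℕ →o (Submodule ℝ (LH hG o))ᵒᵈ)
  refine ⟨R, fun u hu => Subtype.ext (funext fun x => ?_)⟩
  have h1 := hR (max R (G.dist o x)) (le_max_left _ _)
  have h2 : K R = K (max R (G.dist o x)) := h1
  have h3 : u ∈ K (max R (G.dist o x)) := h2 ▸ (hu : u ∈ K R)
  exact h3 x (le_max_right _ _)

/-- elements moving `o` a bounded amount have finitely many images -/
lemma hom_finite (o : V) (hfd : Module.Finite ℝ (LH hG o)) (K : ℕ) :
    {a | ∃ g : G ≃g G, G.dist o (g o) ≤ K ∧ homRho hG o g = a}.Finite := by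
  classical
  obtain ⟨R, hR⟩ := hom_exists_R hG o hfd
  have hdet : ∀ g h : G ≃g G, (∀ x, G.dist o x ≤ R → g.symm x = h.symm x) →
      homRho hG o g = homRho hG o h := by
    intro g h hgh
    refine LinearMap.ext fun u => ?_
    rw [← sub_eq_zero]
    apply hR
    intro x hx
    change (u.1 (g.symm x) - u.1 (g.symm o)) - (u.1 (h.symm x) - u.1 (h.symm o)) = 0
    rw [hgh x hx, hgh o (by simp)]; ring
  let F : (G ≃g G) → ↥(bl hG o R) → V := fun g x => g.symm x
  have hFin : (F '' {g | G.dist o (g o) ≤ K}).Finite := by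
    let T : Set (↥(bl hG o R) → V) := Set.pi Set.univ (fun _ => (bl hG o (K + R) : Set V))
    have hT : T.Finite := Set.Finite.pi fun _ => Finset.finite_toSet _
    refine hT.subset ?_
    rintro _ ⟨g, hg, rfl⟩ x _
    rw [Finset.mem_coe, mem_bl]
    have h1 : G.dist o (g.symm o) = G.dist (g o) o := by
      rw [← dist_iso hG.conn g o (g.symm o), g.apply_symm_apply]
    have h2 : G.dist (g.symm o) (g.symm x.1) = G.dist o x.1 := dist_iso hG.conn g.symm o x.1
    have h3 := hG.tri o (g.symm o) (g.symm x.1)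
    have h4 : G.dist o x.1 ≤ R := (mem_bl hG o x.1 R).1 x.2
    have h5 : G.dist o (g o) ≤ K := hg
    rw [SimpleGraph.dist_comm] at h5
    change G.dist o (g.symm x.1) ≤ K + R
    omega
  let P : (↥(bl hG o R) → V) → Module.End ℝ (LH hG o) := fun f =>
    if h : ∃ g, F g = f then homRho hG o h.choose else 0
  refine (hFin.image P).subset ?_
  rintro _ ⟨g, hg, rfl⟩
  refine ⟨F g, ⟨g, hg, rfl⟩, ?_⟩
  have hex : ∃ g', F g' = F g := ⟨g, rfl⟩
  simp only [P, dif_pos hex]
  apply hdet
  intro x hx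
  exact congrFun hex.choose_spec ⟨x, (mem_bl hG o x R).2 hx⟩

/-! ### generation -/

include hG in
lemma hom_step (x y : V) (hne : x ≠ y) :
    ∃ z, G.dist z y = 1 ∧ G.dist x z = G.dist x y - 1 := by
  obtain ⟨p, hp⟩ := hG.conn.exists_walk_length_eq_dist y x
  cases p with
  | nil => exact absurd rfl hne
  | @cons _ z _ hadj q =>
    rw [SimpleGraph.Walk.length_cons] at hp
    have h2 := SimpleGraph.dist_le q
    have h3 := hG.tri x z y
    have h4 : G.dist z y = 1 := SimpleGraph.dist_eq_one_iff_adj.2 hadj.symm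
    refine ⟨z, h4, ?_⟩
    rw [SimpleGraph.dist_comm] at h2
    have h5 : G.dist y x = G.dist x y := SimpleGraph.dist_comm
    omega

include hG in
lemma hom_closure_one (o : V) :
    Subgroup.closure {g : G ≃g G | G.dist o (g o) ≤ 1} = ⊤ := by
  have key : ∀ n : ℕ, ∀ g : G ≃g G, G.dist o (g o) = n →
      g ∈ Subgroup.closure {g : G ≃g G | G.dist o (g o) ≤ 1} := by
    intro n
    induction n using Nat.strong_induction_on with
    | _ n ih =>
    intro g hn
    by_cases h1 : n ≤ 1
    · exact Subgroup.subset_closure (by rw [Set.mem_ofPred_eq, hn]; exact h1)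
    · push Not at h1
      have hne : o ≠ g o := by
        intro h
        rw [← h, SimpleGraph.dist_self] at hn
        omega
      obtain ⟨y, hy, hyo⟩ := hom_step hG o (g o) hne
      rw [hn] at hyo
      obtain ⟨h, hh⟩ := hG.tr o y
      have e : g = h * (h⁻¹ * g) := by group
      rw [e]
      refine mul_mem (ih (n - 1) (by omega) h (by rw [hh]; exact hyo)) ?_
      refine Subgroup.subset_closure ?_
      rw [Set.mem_ofPred_eq]
      have e2 : (h⁻¹ * g) o = h.symm (g o) := rfl
      have e3 : h.symm y = o := by rw [← hh, h.symm_apply_apply]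
      rw [e2]
      have := dist_iso hG.conn h.symm y (g o)
      rw [e3] at this
      rw [this, hy]
  rw [eq_top_iff]
  intro g _
  exact key _ g rfl

include hG in
lemma hom_gen (o : V) (H : Subgroup (G ≃g G)) (hfi : H.FiniteIndex) :
    ∃ K : ℕ, Subgroup.closure {h : H | G.dist o (h.1 o) ≤ K} = ⊤ := by
  obtain ⟨R₀, hR, hR1⟩ := H.exists_isComplement_right 1
  have hRfin : R₀.Finite := hR.finite_right
  obtain ⟨K0, hK0⟩ : ∃ K0 : ℕ, ∀ r ∈ R₀, G.dist o (r o) ≤ K0 := by
    obtain ⟨K0, hK0⟩ := (hRfin.image (fun r : G ≃g G => G.dist o (r o))).bddAbove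
    exact ⟨K0, fun r hr => hK0 ⟨r, hr, rfl⟩⟩
  refine ⟨K0 + 1 + K0, ?_⟩
  have h1 := Subgroup.closure_mul_image_eq_top hR hR1 (hom_closure_one hG o)
  rw [eq_top_iff, ← h1]
  refine Subgroup.closure_mono ?_
  rintro _ ⟨_, ⟨r, hr, s, hs, rfl⟩, rfl⟩
  rw [Set.mem_ofPred_eq]
  set r' := (hR.toRightFun (r * s) : G ≃g G) with hr'
  have hr'm : r' ∈ R₀ := (hR.toRightFun (r * s)).2
  have e1 : ((r * s) * r'⁻¹) o = r (s (r'.symm o)) := rfl
  change G.dist o (((r * s) * r'⁻¹) o) ≤ _
  rw [e1]
  have a1 := hG.tri o (r o) (r (s (r'.symm o)))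
  rw [dist_iso hG.conn r] at a1
  have a2 := hG.tri o (s o) (s (r'.symm o))
  rw [dist_iso hG.conn s] at a2
  have a3 : G.dist o (r'.symm o) = G.dist (r' o) o := by
    rw [← dist_iso hG.conn r' o (r'.symm o), r'.apply_symm_apply]
  have a4 := hK0 r hr
  have a5 := hK0 r' hr'm
  rw [SimpleGraph.dist_comm] at a5
  have a6 : G.dist o (s o) ≤ 1 := hs
  omega

lemma hom_fin_pow {M : Type*} [Group M] {N : Type*} [Monoid N] (f : M →* N) (g : M) (S : Set N)
    (hS : S.Finite) (h : ∀ n : ℕ, f (g ^ n) ∈ S) : ∃ n : ℕ, 0 < n ∧ f g ^ n = 1 := by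
  obtain ⟨m, n, hmn, he⟩ := Set.Finite.exists_lt_map_eq_of_forall_mem
    (f := fun n : ℕ => f (g ^ n)) h hS
  refine ⟨n - m, by omega, ?_⟩
  rw [← map_pow]
  have e : g ^ (n - m) = (g ^ m)⁻¹ * g ^ n := by
    rw [eq_inv_mul_iff_mul_eq, ← pow_add]
    congr 1
    omega
  have he' : f (g ^ m) = f (g ^ n) := he
  rw [e, map_mul, ← he', ← map_mul, inv_mul_cancel, map_one]

lemma hom_pow_fix {g : G ≃g G} {x : V} (hx : g x = x) (n : ℕ) : (g ^ n) x = x := by
  induction n with
  | zero => rw [pow_zero]; rfl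
  | succ n ih => rw [pow_succ, RelIso.mul_apply, hx, ih]

/-- stabilisers act by elements of finite order -/
lemma hom_finOrder (o : V) (hfd : Module.Finite ℝ (LH hG o)) {g : G ≃g G} {x : V} (hx : g x = x) :
    ∃ n : ℕ, 0 < n ∧ (homRho hG o g) ^ n = 1 := by
  refine hom_fin_pow (homRho hG o) g _ (hom_finite hG o hfd (2 * G.dist o x)) ?_
  intro n
  refine ⟨g ^ n, ?_, rfl⟩
  have h1 := hG.tri o x ((g ^ n) o)
  have h2 := dist_iso hG.conn (g ^ n) x o
  rw [hom_pow_fix hx n] at h2
  rw [SimpleGraph.dist_comm (u := x) (v := o)] at h2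
  omega

theorem exists_hom (hinf : Infinite V) (o : V) (hfd : Module.Finite ℝ (LH hG o))
    (hne : ∃ u ∈ LH hG o, u ≠ 0) (Γ₀ : Subgroup (G ≃g G)) (hfi : Γ₀.FiniteIndex)
    (hab : ∀ g ∈ Γ₀, ∀ h ∈ Γ₀, ∀ u ∈ LH hG o, act o (g * h) u = act o (h * g) u) :
    ∃ (Γ₁ : Subgroup (G ≃g G)) (χ : (G ≃g G) → ℤ), Γ₁.FiniteIndex ∧
      (∀ g ∈ Γ₁, ∀ h ∈ Γ₁, χ (g * h) = χ g + χ h) ∧ (∃ g ∈ Γ₁, χ g ≠ 0) ∧
      ∀ g ∈ Γ₁, ∀ x, g x = x → χ g = 0 := by
  classical
  -- extension of a homomorphism defined on a subgroup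
  have ext : ∀ (Γ₁ : Subgroup (G ≃g G)) (_ : Γ₁.FiniteIndex) (χ : Γ₁ → ℤ),
      (∀ g h, χ (g * h) = χ g + χ h) → (∃ g, χ g ≠ 0) →
      (∀ g : Γ₁, ∀ x, g.1 x = x → χ g = 0) →
      ∃ (Γ₁ : Subgroup (G ≃g G)) (χ : (G ≃g G) → ℤ), Γ₁.FiniteIndex ∧
      (∀ g ∈ Γ₁, ∀ h ∈ Γ₁, χ (g * h) = χ g + χ h) ∧ (∃ g ∈ Γ₁, χ g ≠ 0) ∧
      ∀ g ∈ Γ₁, ∀ x, g x = x → χ g = 0 := by
    intro Γ₁ hf χ h1 h2 h3
    refine ⟨Γ₁, fun g => if h : g ∈ Γ₁ then χ ⟨g, h⟩ else 0, hf, ?_, ?_, ?_⟩
    · intro g hg h hh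
      beta_reduce
      rw [dif_pos hg, dif_pos hh, dif_pos (mul_mem hg hh)]
      exact h1 ⟨g, hg⟩ ⟨h, hh⟩
    · obtain ⟨g, hg⟩ := h2
      exact ⟨g.1, g.2, by beta_reduce; rw [dif_pos g.2]; exact hg⟩
    · intro g hg x hx
      beta_reduce
      rw [dif_pos hg]
      exact h3 ⟨g, hg⟩ x hx
  let ρ := (homRho hG o).toHomUnits
  let f : Γ₀ →* (Module.End ℝ (LH hG o))ˣ := ρ.comp Γ₀.subtype
  have hρval : ∀ g, ((ρ g : (Module.End ℝ (LH hG o))ˣ) : Module.End ℝ (LH hG o)) =
      homRho hG o g := fun g => rfl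
  have hcomm : ∀ a b : f.range, a * b = b * a := by
    rintro ⟨_, g, rfl⟩ ⟨_, h, rfl⟩
    apply Subtype.ext
    apply Units.ext
    change homRho hG o g.1 * homRho hG o h.1 = homRho hG o h.1 * homRho hG o g.1
    rw [← map_mul, ← map_mul]
    refine LinearMap.ext fun u => Subtype.ext ?_
    exact hab g.1 g.2 h.1 h.2 u.1 u.2
  let _ : CommGroup f.range := { (inferInstance : Group f.range) with mul_comm := hcomm }
  by_cases hran : (Set.range (fun g : Γ₀ => f.rangeRestrict g)).Infinite
  · -- infinite image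
    obtain ⟨K, hK⟩ := hom_gen hG o Γ₀ hfi
    obtain ⟨χ, h1, h2, h3⟩ := hom_exists_chi (Γ' := Γ₀) (B := Additive f.range)
      (fun g => Additive.ofMul (f.rangeRestrict g)) (fun g h => by rw [map_mul]; rfl) _ hK (by
        have hfin := hom_finite hG o hfd K
        have h4 : ((fun a : Additive f.range =>
            (((Additive.toMul a).1 : (Module.End ℝ (LH hG o))ˣ) : Module.End ℝ (LH hG o))) ''
            ((fun g : Γ₀ => Additive.ofMul (f.rangeRestrict g)) ''
              {h : Γ₀ | G.dist o (h.1 o) ≤ K})).Finite := by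
          refine hfin.subset ?_
          rintro _ ⟨_, ⟨g, hg, rfl⟩, rfl⟩
          exact ⟨g.1, hg, rfl⟩
        refine h4.of_finite_image ?_
        intro a _ b _ hab'
        exact Subtype.ext (Units.ext hab')) hran
    refine ext Γ₀ hfi χ h1 h2 ?_
    intro g x hx
    apply h3
    obtain ⟨n, hn, hpow⟩ := hom_finOrder hG o hfd hx
    refine ⟨n, hn, ?_⟩
    have h5 : (f.rangeRestrict g) ^ n = 1 := by
      apply Subtype.ext
      apply Units.ext
      exact hpow
    rw [← ofMul_pow, h5]; rfl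
  · -- finite image
    rw [Set.not_infinite] at hran
    obtain ⟨u, hu, hu0⟩ := hne
    let Γ₁ : Subgroup (G ≃g G) := Γ₀ ⊓ ρ.ker
    have hfi₁ : Γ₁.FiniteIndex := by
      have hfr : Finite f.range := by
        have h1 : (Set.univ : Set f.range).Finite := by
          refine hran.subset ?_
          rintro a -
          exact f.rangeRestrict_surjective a
        exact Set.finite_univ_iff.1 h1
      have h1 : f.ker.index ≠ 0 := by
        rw [Subgroup.index_ker]
        exact Nat.card_pos.ne'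
      have h2 : f.ker = ρ.ker.subgroupOf Γ₀ := by
        ext g; rfl
      have h3 : Γ₁.relIndex Γ₀ ≠ 0 := by
        change (Γ₀ ⊓ ρ.ker).relIndex Γ₀ ≠ 0
        rw [Subgroup.inf_relIndex_left]
        rw [h2] at h1
        exact h1
      refine ⟨?_⟩
      rw [← Subgroup.relIndex_mul_index (inf_le_left : Γ₁ ≤ Γ₀)]
      exact mul_ne_zero h3 hfi.index_ne_zero
    have hact : ∀ g ∈ Γ₁, ∀ x, u (g x) = u x + u (g o) := by
      intro g hg x
      have h1 : g⁻¹ ∈ Γ₁ := inv_mem hg
      have h2 : ρ g⁻¹ = 1 := h1.2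
      have h3 : homRho hG o g⁻¹ = 1 := by
        rw [← hρval, h2]; rfl
      have h4 := congrArg (fun a => (a ⟨u, hu⟩ : LH hG o).1 x) h3
      have h5 : u ((g⁻¹).symm x) - u ((g⁻¹).symm o) = u x := h4
      have h6 : ∀ y, (g⁻¹).symm y = g y := fun y => rfl
      rw [h6, h6] at h5
      linarith
    obtain ⟨K, hK⟩ := hom_gen hG o Γ₁ hfi₁
    let c : Γ₁ → ℝ := fun g => u (g.1 o)
    have hc : ∀ g h, c (g * h) = c g + c h := by
      intro g h
      change u (g.1 (h.1 o)) = u (g.1 o) + u (h.1 o)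
      rw [hact g.1 g.2]; ring
    have hcne : ∃ g, c g ≠ 0 := by
      by_contra hcon
      push Not at hcon
      have hinv : ∀ g ∈ Γ₁, ∀ x, u (g x) = u x := by
        intro g hg x
        rw [hact g hg x]
        have := hcon ⟨g, hg⟩
        change u (g o) = 0 at this
        rw [this, add_zero]
      have hconst := const_of_inv hG Γ₁ hfi₁ u hinv hu.2.1
      apply hu0
      funext x
      rw [hconst x o, hu.1]; rfl
    obtain ⟨χ, h1, h2, h3⟩ := hom_exists_chi (Γ' := Γ₁) (B := ℝ) c hc _ hK (by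
        refine ((bl hG o K).finite_toSet.image u).subset ?_
        rintro _ ⟨g, hg, rfl⟩
        exact ⟨g.1 o, (mem_bl hG o _ K).2 hg, rfl⟩) (by
        obtain ⟨g, hg⟩ := hcne
        have hpow : ∀ n : ℕ, c (g ^ n) = n * c g := by
          intro n
          induction n with
          | zero =>
            have : c 1 = 0 := by
              have := hc 1 1
              rw [mul_one] at this
              linarith
            simp [this]
          | succ n ih => rw [pow_succ, hc, ih]; push_cast; ring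
        refine Set.infinite_of_injective_forall_mem (f := fun n : ℕ => (n : ℝ) * c g) ?_ ?_
        · intro m n hmn
          have := mul_right_cancel₀ hg hmn
          exact_mod_cast this
        · intro n
          exact ⟨g ^ n, hpow n⟩)
    refine ext Γ₁ hfi₁ χ h1 h2 ?_
    intro g x hx
    apply h3
    refine ⟨1, one_pos, ?_⟩
    rw [one_nsmul]
    have := hact g.1 g.2 x
    rw [hx] at this
    change u (g.1 o) = 0
    linarith

end

end Pool.H61.ST
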