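import Pool.Agent.H61.ST.Defs

set_option autoImplicit false

/-! Hammersley-Welsh decomposition of self-avoiding walks into monotone pieces. -/

namespace Pool.H61.ST

open Finset Pool.Agent.H61.SW Pool.H98.C

variable {V : Type} {G : SimpleGraph V}

/-- monotone pieces: start and end are the extreme heights -/
def Pc (G : SimpleGraph V) (u : V → ℝ) (v : V) (c : List V) : Prop :=
  sa G v c ∧ ((∀ z ∈ v :: c, u v ≤ u z ∧ u z ≤ u (en v c)) ∨
    (∀ z ∈ v :: c, u z ≤ u v ∧ u (en v c) ≤ u z))

lemma Pc_neg (u : V → ℝ) (v : V) (c : List V) : Pc G (-u) v c ↔ Pc G u v c := by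
  unfold Pc
  simp only [Pi.neg_apply, neg_le_neg_iff]
  constructor
  · rintro ⟨h, h1 | h1⟩
    · exact ⟨h, Or.inr h1⟩
    · exact ⟨h, Or.inl h1⟩
  · rintro ⟨h, h1 | h1⟩
    · exact ⟨h, Or.inr h1⟩
    · exact ⟨h, Or.inl h1⟩

lemma Pc_neg_eq (u : V → ℝ) : Pc G (-u) = Pc G u := by
  funext v c
  exact propext (Pc_neg u v c)

lemma Pc_rv {u : V → ℝ} {v : V} {c : List V} (h : Pc G u v c) : Pc G u (en v c) (rv v c) := by
  obtain ⟨h1, h2⟩ := h
  refine ⟨sa_rv v c h1, ?_⟩
  rw [en_rv]
  rcases h2 with h2 | h2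
  · refine Or.inr fun z hz => ?_
    have := h2 z (mem_rv.1 hz)
    exact ⟨this.2, this.1⟩
  · refine Or.inl fun z hz => ?_
    have := h2 z (mem_rv.1 hz)
    exact ⟨this.2, this.1⟩

lemma CP_app {P : V → List V → Prop} (n m : ℕ) (v : V) (s t : List V) (h1 : CP P n v s)
    (h2 : CP P m (en v s) t) : CP P (n + m) v (s ++ t) := by
  induction n generalizing v s with
  | zero =>
    have : s = [] := h1
    subst this
    simpa using h2
  | succ n ih =>
    obtain ⟨c, s', rfl, hc, hs'⟩ := h1
    rw [show n + 1 + m = (n + m) + 1 by ring]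
    refine ⟨c, s' ++ t, by simp, hc, ih _ _ hs' ?_⟩
    rwa [en_append] at h2

lemma CP_rv {P : V → List V → Prop} (hP : ∀ v c, P v c → P (en v c) (rv v c)) (n : ℕ) (v : V)
    (s : List V) (h : CP P n v s) : CP P n (en v s) (rv v s) := by
  induction n generalizing v s with
  | zero =>
    have : s = [] := h
    subst this
    exact rfl
  | succ n ih =>
    obtain ⟨c, s', rfl, hc, hs'⟩ := h
    rw [rv_append, en_append]
    refine CP_app n 1 _ _ _ (ih _ _ hs') ?_
    rw [en_rv]
    exact ⟨rv v c, [], by simp, hP _ _ hc, rfl⟩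

/-- splitting at the last vertex of minimal height -/
lemma split_min (u : V → ℝ) (v : V) (s : List V) :
    ∃ c t, s = c ++ t ∧ (∀ z ∈ v :: s, u (en v c) ≤ u z) ∧ ∀ z ∈ t, u (en v c) < u z := by
  induction s generalizing v with
  | nil => exact ⟨[], [], rfl, by simp, by simp⟩
  | cons a s ih =>
    obtain ⟨c, t, rfl, h1, h2⟩ := ih a
    by_cases h : u (en a c) ≤ u v
    · refine ⟨a :: c, t, rfl, ?_, h2⟩
      intro z hz
      rcases List.mem_cons.1 hz with rfl | hz
      · exact h
      · exact h1 z hz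
    · rw [not_le] at h
      refine ⟨[], a :: (c ++ t), rfl, ?_, ?_⟩
      · intro z hz
        rcases List.mem_cons.1 hz with rfl | hz
        · exact le_refl _
        · exact (h.trans_le (h1 z hz)).le
      · intro z hz
        exact h.trans_le (h1 z hz)

/-- descending decomposition -/
lemma dec_aux (D : Finset ℝ) (H : ℕ) : ∀ (N : ℕ) (w : V → ℝ),
    (∀ x c, ch G x c → c.length < H → |w (en x c) - w x| ∈ D) →
    ∀ (v : V) (t : List V) (b : ℝ), t.length ≤ N → sa G v t →
    (∀ z ∈ t, w z < w v ∧ w v - w z < b) →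
    ∃ n, CP (Pc G w) n v t ∧ n * H ≤ t.length + H * (D.filter (fun d => d < b)).card := by
  intro N
  induction N with
  | zero =>
    intro w hD v t b hN _ _
    have : t = [] := List.length_eq_zero_iff.1 (by omega)
    subst this
    exact ⟨0, rfl, by simp⟩
  | succ N ih =>
    intro w hD v t b hN hsa ht
    by_cases hnil : t = []
    · subst hnil
      exact ⟨0, rfl, by simp⟩
    obtain ⟨c, t', rfl, h1, h2⟩ := split_min w v t
    -- the minimum is strictly below `w v`
    obtain ⟨a, ha⟩ := List.exists_mem_of_ne_nil _ hnil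
    have hlt : w (en v c) < w v := (h1 a (List.mem_cons_of_mem _ ha)).trans_lt (ht a ha).1
    have hc : c ≠ [] := by
      rintro rfl
      simp at hlt
    have hclen : 0 < c.length := List.length_pos_iff.2 hc
    have hmem : en v c ∈ c ++ t' := List.mem_append_left _ (en_mem v c hc)
    set d := w v - w (en v c) with hd
    have hdb : d < b := (ht _ hmem).2
    have hPc : Pc G w v c := by
      refine ⟨sa_append_left hsa, Or.inr fun z hz => ?_⟩
      rcases List.mem_cons.1 hz with rfl | hz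
      · exact ⟨le_refl _, hlt.le⟩
      · exact ⟨(ht z (List.mem_append_left _ hz)).1.le,
          h1 z (List.mem_cons_of_mem _ (List.mem_append_left _ hz))⟩
    have hlen : c.length + t'.length ≤ N + 1 := by simpa using hN
    obtain ⟨n, hn1, hn2⟩ := ih (-w) (fun x c' h h' => by
        have := hD x c' h h'
        simp only [Pi.neg_apply]
        rw [show -w (en x c') - -w x = -(w (en x c') - w x) by ring, abs_neg]
        exact this) (en v c) t' d (by omega) (sa_append_right hsa) (fun z hz => by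
        simp only [Pi.neg_apply]
        refine ⟨by linarith [h2 z hz], ?_⟩
        have := (ht z (List.mem_append_right _ hz)).1
        rw [hd]; linarith)
    rw [Pc_neg_eq] at hn1
    refine ⟨n + 1, ⟨c, t', rfl, hPc, hn1⟩, ?_⟩
    have hsub : D.filter (fun x => x < d) ⊆ D.filter (fun x => x < b) := by
      intro x hx
      rw [Finset.mem_filter] at hx ⊢
      exact ⟨hx.1, hx.2.trans hdb⟩
    rw [List.length_append]
    by_cases hcH : c.length < H
    · have hdD : d ∈ D := by
        have := hD v c ((ch_append v c t').1 hsa.1).1 hcH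
        rw [abs_sub_comm, abs_of_pos (by linarith : 0 < w v - w (en v c))] at this
        exact this
      have hss : insert d (D.filter (fun x => x < d)) ⊆ D.filter (fun x => x < b) := by
        intro x hx
        rcases Finset.mem_insert.1 hx with rfl | hx
        · exact Finset.mem_filter.2 ⟨hdD, hdb⟩
        · exact hsub hx
      have hcard := Finset.card_le_card hss
      rw [Finset.card_insert_of_notMem (by simp)] at hcard
      calc (n + 1) * H = n * H + H := by ring
        _ ≤ t'.length + H * (D.filter (fun x => x < d)).card + H := by omega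
        _ = t'.length + H * ((D.filter (fun x => x < d)).card + 1) := by ring
        _ ≤ t'.length + H * (D.filter (fun x => x < b)).card :=
            Nat.add_le_add_left (Nat.mul_le_mul_left _ hcard) _
        _ ≤ _ := by omega
    · rw [not_lt] at hcH
      have hcard := Finset.card_le_card hsub
      calc (n + 1) * H = n * H + H := by ring
        _ ≤ t'.length + H * (D.filter (fun x => x < d)).card + c.length := by omega
        _ ≤ t'.length + H * (D.filter (fun x => x < b)).card + c.length := by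
            have := Nat.mul_le_mul_left H hcard
            omega
        _ = _ := by ring

/-- decomposition of a walk starting at its maximum -/
lemma dec_half (D : Finset ℝ) (H : ℕ) (w : V → ℝ)
    (hD : ∀ x c, ch G x c → c.length < H → |w (en x c) - w x| ∈ D) (v : V) (t : List V)
    (hsa : sa G v t) (ht : ∀ z ∈ t, w z ≤ w v) :
    ∃ n, CP (Pc G w) n v t ∧ n * H ≤ t.length + H * (D.card + 1) := by
  obtain ⟨c, t', rfl, h1, h2⟩ := split_min w v t
  have hPc : Pc G w v c := by
    refine ⟨sa_append_left hsa, Or.inr fun z hz => ?_⟩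
    rcases List.mem_cons.1 hz with rfl | hz
    · exact ⟨le_refl _, h1 _ (List.mem_cons_self ..)⟩
    · exact ⟨ht z (List.mem_append_left _ hz),
        h1 z (List.mem_cons_of_mem _ (List.mem_append_left _ hz))⟩
  obtain ⟨n, hn1, hn2⟩ := dec_aux (G := G) D H t'.length (-w) (fun x c' h h' => by
      have := hD x c' h h'
      simp only [Pi.neg_apply]
      rw [show -w (en x c') - -w x = -(w (en x c') - w x) by ring, abs_neg]
      exact this) (en v c) t' (w v - w (en v c) + 1) le_rfl (sa_append_right hsa) (fun z hz => by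
      simp only [Pi.neg_apply]
      refine ⟨by linarith [h2 z hz], ?_⟩
      have := ht z (List.mem_append_right _ hz)
      linarith)
  rw [Pc_neg_eq] at hn1
  refine ⟨n + 1, ⟨c, t', rfl, hPc, hn1⟩, ?_⟩
  have hcard := Finset.card_filter_le D (fun d => d < w v - w (en v c) + 1)
  have := Nat.mul_le_mul_left H hcard
  rw [List.length_append]
  calc (n + 1) * H = n * H + H := by ring
    _ ≤ t'.length + H * D.card + H := by omega
    _ ≤ _ := by ring_nf; omega

/-- decomposition of an arbitrary walk -/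
lemma dec_full (D : Finset ℝ) (H : ℕ) (w : V → ℝ)
    (hD : ∀ x c, ch G x c → c.length < H → |w (en x c) - w x| ∈ D) (v : V) (s : List V)
    (hsa : sa G v s) :
    ∃ n, CP (Pc G w) n v s ∧ n * H ≤ s.length + 2 * H * (D.card + 1) := by
  have hD' : ∀ x c, ch G x c → c.length < H → |(-w) (en x c) - (-w) x| ∈ D := by
    intro x c h h'
    have := hD x c h h'
    simp only [Pi.neg_apply]
    rw [show -w (en x c) - -w x = -(w (en x c) - w x) by ring, abs_neg]
    exact this
  obtain ⟨p, q, rfl, h1, -⟩ := split_min w v s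
  -- the second half
  obtain ⟨n2, hn2, hb2⟩ := dec_half D H (-w) hD' (en v p) q (sa_append_right hsa) (fun z hz => by
    simp only [Pi.neg_apply]
    linarith [h1 z (List.mem_cons_of_mem _ (List.mem_append_right _ hz))])
  -- the first half, reversed
  obtain ⟨n1, hn1, hb1⟩ := dec_half D H (-w) hD' (en v p) (rv v p) (sa_rv v p (sa_append_left hsa))
    (fun z hz => by
      simp only [Pi.neg_apply]
      have hz' : z ∈ v :: p := mem_rv.1 (List.mem_cons_of_mem _ hz)
      have hz'' : z ∈ v :: (p ++ q) := by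
        rcases List.mem_cons.1 hz' with rfl | hz'
        · exact List.mem_cons_self ..
        · exact List.mem_cons_of_mem _ (List.mem_append_left _ hz')
      linarith [h1 z hz''])
  rw [Pc_neg_eq] at hn1 hn2
  have hn1' := CP_rv (P := Pc G w) (fun v c h => Pc_rv h) n1 _ _ hn1
  rw [en_rv, rv_rv] at hn1'
  refine ⟨n1 + n2, CP_app n1 n2 v p q hn1' hn2, ?_⟩
  rw [length_rv] at hb1
  rw [List.length_append]
  calc (n1 + n2) * H = n1 * H + n2 * H := by ring
    _ ≤ (p.length + H * (D.card + 1)) + (q.length + H * (D.card + 1)) := by omega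
    _ = _ := by ring

/-- representatives of the orbits of `Γ` -/
lemma exists_reps (hG : TG G) (hs : HS G) : ∃ (ι : Type) (_ : Fintype ι) (r : ι → V),
    ∀ x, ∃ i, ∃ g ∈ hs.Γ, g (r i) = x := by
  classical
  have := hs.fi
  have := hs.nor
  obtain ⟨o⟩ := hG.conn.nonempty
  have : Finite ((G ≃g G) ⧸ hs.Γ) := inferInstance
  refine ⟨(G ≃g G) ⧸ hs.Γ, Fintype.ofFinite _, fun q => q.out o, fun x => ?_⟩
  obtain ⟨φ, hφ⟩ := hG.tr o x
  refine ⟨(QuotientGroup.mk φ : (G ≃g G) ⧸ hs.Γ), φ * (QuotientGroup.mk φ : (G ≃g G) ⧸ hs.Γ).out⁻¹,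
    ?_, ?_⟩
  · have h1 : ((QuotientGroup.mk φ : (G ≃g G) ⧸ hs.Γ).out)⁻¹ * φ ∈ hs.Γ := by
      rw [← QuotientGroup.eq]
      exact Quotient.out_eq _
    have h2 := hs.nor.conj_mem _ h1 (QuotientGroup.mk φ : (G ≃g G) ⧸ hs.Γ).out
    rwa [mul_inv_cancel_left] at h2
  · show φ ((QuotientGroup.mk φ : (G ≃g G) ⧸ hs.Γ).out⁻¹ ((QuotientGroup.mk φ :
      (G ≃g G) ⧸ hs.Γ).out o)) = x
    rw [← hφ]
    congr 1
    exact RelIso.symm_apply_apply _ _

/-- the height is Lipschitz -/
lemma exists_lip (hG : TG G) (hs : HS G) : ∃ C : ℕ, ∀ x y, G.Adj x y → |hs.u y - hs.u x| ≤ C := by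
  classical
  obtain ⟨ι, hι, r, hr⟩ := exists_reps hG hs
  let B : ℝ := ∑ i, ∑ y ∈ nb hG (r i), |hs.u y - hs.u (r i)|
  refine ⟨⌈B⌉₊, fun x y hxy => ?_⟩
  obtain ⟨i, g, hg, rfl⟩ := hr x
  have hy : g (g.symm y) = y := g.apply_symm_apply y
  have hadj : G.Adj (r i) (g.symm y) := by
    rw [← g.map_adj_iff, hy]; exact hxy
  have h1 := hs.equi g hg (r i)
  have h2 := hs.equi g hg (g.symm y)
  rw [hy] at h2
  rw [h1, h2, add_sub_add_right_eq_sub]
  refine le_trans ?_ (Nat.le_ceil B)
  calc |hs.u (g.symm y) - hs.u (r i)|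
      ≤ ∑ y ∈ nb hG (r i), |hs.u y - hs.u (r i)| :=
        Finset.single_le_sum (f := fun y => |hs.u y - hs.u (r i)|) (fun _ _ => abs_nonneg _)
          ((mem_nb hG).2 hadj)
    _ ≤ B := Finset.single_le_sum (f := fun i => ∑ y ∈ nb hG (r i), |hs.u y - hs.u (r i)|)
          (fun _ _ => Finset.sum_nonneg fun _ _ => abs_nonneg _) (Finset.mem_univ i)

lemma lip_ch {w : V → ℝ} {C : ℕ} (hC : ∀ x y, G.Adj x y → |w y - w x| ≤ C) (x : V) (c : List V)
    (h : ch G x c) : |w (en x c) - w x| ≤ C * c.length := by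
  induction c generalizing x with
  | nil => simp
  | cons a c ih =>
    obtain ⟨h1, h2⟩ := h
    have h3 := ih a h2
    have h4 := hC x a h1
    rw [en_cons, List.length_cons]
    push_cast
    calc |w (en a c) - w x| = |(w (en a c) - w a) + (w a - w x)| := by ring_nf
      _ ≤ |w (en a c) - w a| + |w a - w x| := abs_add_le _ _
      _ ≤ C * c.length + C := add_le_add h3 h4
      _ = _ := by ring

/-- short height differences -/
lemma exists_diffs (hG : TG G) (hs : HS G) : ∃ A₀ : ℕ, ∀ H : ℕ, 1 ≤ H → ∃ D : Finset ℝ,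
    D.card ≤ A₀ * H ∧ ∀ x c, ch G x c → c.length < H → |hs.u (en x c) - hs.u x| ∈ D := by
  classical
  obtain ⟨ι, hι, r, hr⟩ := exists_reps hG hs
  obtain ⟨C, hC⟩ := exists_lip hG hs
  let B : ℝ := ∑ p : ι × ι, |hs.u (r p.1) - hs.u (r p.2)|
  let K : ℕ := ⌈B⌉₊
  have hK : ∀ i j, |hs.u (r i) - hs.u (r j)| ≤ K := fun i j =>
    (Finset.single_le_sum (f := fun p : ι × ι => |hs.u (r p.1) - hs.u (r p.2)|)
      (fun _ _ => abs_nonneg _) (Finset.mem_univ (i, j))).trans (Nat.le_ceil B)
  refine ⟨Fintype.card (ι × ι) * (2 * (C + K) + 1), fun H hH => ?_⟩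
  let M : ℤ := ((C * H + K : ℕ) : ℤ)
  refine ⟨((Finset.univ : Finset (ι × ι)) ×ˢ Finset.Icc (-M) M).image
    (fun p => |hs.u (r p.1.1) - hs.u (r p.1.2) + (p.2 : ℝ)|), ?_, ?_⟩
  · refine Finset.card_image_le.trans ?_
    rw [Finset.card_product, Finset.card_univ, Int.card_Icc, mul_assoc]
    refine Nat.mul_le_mul_left _ ?_
    have h1 : (M + 1 - -M).toNat = 2 * (C * H + K) + 1 := by
      show (((C * H + K : ℕ) : ℤ) + 1 - -((C * H + K : ℕ) : ℤ)).toNat = _
      generalize C * H + K = m
      omega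
    rw [h1]
    have h2 : K ≤ K * H := Nat.le_mul_of_pos_right _ hH
    nlinarith
  · intro x c hch hlen
    obtain ⟨i, g, hg, hx⟩ := hr x
    obtain ⟨j, g', hg', hy⟩ := hr (en x c)
    have h1 := hs.equi g hg (r i)
    have h2 := hs.equi g' hg' (r j)
    rw [hx] at h1
    rw [hy] at h2
    rw [Finset.mem_image]
    refine ⟨((j, i), hs.χ g' - hs.χ g), ?_, ?_⟩
    · rw [Finset.mem_product]
      refine ⟨Finset.mem_univ _, ?_⟩
      have h3 := lip_ch hC x c hch
      have h4 : (c.length : ℝ) ≤ H := by exact_mod_cast hlen.le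
      have h5 : (C : ℝ) * c.length ≤ C * H := mul_le_mul_of_nonneg_left h4 (Nat.cast_nonneg _)
      have h6 := hK j i
      have h7 : |((hs.χ g' - hs.χ g : ℤ) : ℝ)| ≤ ((C * H + K : ℕ) : ℝ) := by
        push_cast
        calc |(hs.χ g' : ℝ) - hs.χ g|
            = |(hs.u (en x c) - hs.u x) - (hs.u (r j) - hs.u (r i))| := by
              rw [h1, h2]; ring_nf
          _ ≤ |hs.u (en x c) - hs.u x| + |hs.u (r j) - hs.u (r i)| := abs_sub _ _
          _ ≤ C * H + K := add_le_add (h3.trans h5) h6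
      have h8 : |hs.χ g' - hs.χ g| ≤ M := by exact_mod_cast h7
      rw [Finset.mem_Icc]
      exact abs_le.1 h8
    · show |hs.u (r j) - hs.u (r i) + ((hs.χ g' - hs.χ g : ℤ) : ℝ)| = _
      rw [h1, h2]
      push_cast
      ring_nf

/-- Hammersley-Welsh decomposition -/
theorem hw_dec (hG : TG G) (hs : HS G) : ∃ A₀ : ℕ, ∀ (v : V) (s : List V), sa G v s →
    ∀ H : ℕ, 1 ≤ H → ∃ n, CP (Pc G hs.u) n v s ∧ n * H ≤ s.length + 2 * H * (A₀ * H + 1) := by
  obtain ⟨A₀, hA⟩ := exists_diffs hG hs
  refine ⟨A₀, fun v s hsa H hH => ?_⟩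
  obtain ⟨D, hD1, hD2⟩ := hA H hH
  obtain ⟨n, hn1, hn2⟩ := dec_full D H hs.u hD2 v s hsa
  refine ⟨n, hn1, hn2.trans ?_⟩
  have := Nat.mul_le_mul_left (2 * H) (Nat.add_le_add_right hD1 1)
  omega

end Pool.H61.ST
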