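import Pool.Agent.H61.ST.Defs2
import Pool.Agent.H61.ST.Hwd

set_option autoImplicit false

/-! Growth of the kernel orbit of a height structure. -/

namespace Pool.H61.ST

open Finset Pool.Agent.H61.SW Pool.H98.C

variable {V : Type} {G : SimpleGraph V}

namespace LG

lemma chi_zpow (hs : HS G) {g : G ≃g G} (hg : g ∈ hs.Γ) (j : ℤ) : hs.χ (g ^ j) = j * hs.χ g := by
  let ψ : hs.Γ →* Multiplicative ℤ :=
    { toFun := fun γ => Multiplicative.ofAdd (hs.χ (γ : G ≃g G))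
      map_one' := by
        have h := hs.mul 1 hs.Γ.one_mem 1 hs.Γ.one_mem
        rw [mul_one] at h
        have h0 : hs.χ 1 = 0 := by omega
        show Multiplicative.ofAdd (hs.χ ((1 : hs.Γ) : G ≃g G)) = 1
        rw [OneMemClass.coe_one, h0]; rfl
      map_mul' := fun a b => by
        show Multiplicative.ofAdd (hs.χ ((a * b : hs.Γ) : G ≃g G)) = _
        rw [Subgroup.coe_mul, hs.mul _ a.2 _ b.2, ofAdd_add] }
  have h := map_zpow ψ ⟨g, hg⟩ j
  have h' : Multiplicative.ofAdd (hs.χ (g ^ j)) = (Multiplicative.ofAdd (hs.χ g)) ^ j := h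
  rw [← ofAdd_zsmul] at h'
  have := Multiplicative.ofAdd.injective h'
  simpa using this

lemma u_zpow (hs : HS G) {g : G ≃g G} (hg : g ∈ hs.Γ) (j : ℤ) (x : V) :
    hs.u ((g ^ j) x) = hs.u x + j * hs.χ g := by
  rw [hs.equi _ (hs.Γ.zpow_mem hg j), chi_zpow hs hg]
  push_cast; ring

lemma u_pow (hs : HS G) {g : G ≃g G} (hg : g ∈ hs.Γ) (j : ℕ) (x : V) :
    hs.u ((g ^ j) x) = hs.u x + j * hs.χ g := by
  have := u_zpow hs hg (j : ℤ) x
  rw [zpow_natCast] at this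
  simpa using this

lemma exists_pos (hs : HS G) : ∃ t ∈ hs.Γ, 0 < hs.χ t := by
  obtain ⟨g, hg, hne⟩ := hs.ne
  rcases lt_or_gt_of_ne hne with h | h
  · refine ⟨g⁻¹, hs.Γ.inv_mem hg, ?_⟩
    have := chi_zpow hs hg (-1)
    rw [zpow_neg_one] at this
    rw [this]; omega
  · exact ⟨g, hg, h⟩

lemma orbK_u (hs : HS G) {x y : V} (hy : y ∈ orbK hs x) : hs.u y = hs.u x := by
  obtain ⟨l, hl, h0, rfl⟩ := hy
  rw [hs.equi l hl, h0]; simp

lemma dist_pow (hG : TG G) (t : G ≃g G) (x : V) (j : ℕ) :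
    G.dist x ((t ^ j) x) ≤ j * G.dist x (t x) := by
  induction j with
  | zero => simp
  | succ j ih =>
    have h1 := hG.tri x ((t ^ j) x) ((t ^ j) (t x))
    rw [dist_iso hG.conn] at h1
    rw [pow_succ, RelIso.mul_apply]
    calc _ ≤ _ := h1
      _ ≤ j * G.dist x (t x) + G.dist x (t x) := by omega
      _ = _ := by ring

/-- the finite piece of the kernel orbit -/
noncomputable def Sf (hG : TG G) (hs : HS G) (x : V) (r : ℕ) : Finset V :=
  open Classical in (bl hG x r).filter (· ∈ orbK hs x)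

lemma mem_Sf (hG : TG G) (hs : HS G) (x y : V) (r : ℕ) :
    y ∈ Sf hG hs x r ↔ G.dist x y ≤ r ∧ y ∈ orbK hs x := by
  simp [Sf]

lemma ncard_Sf (hG : TG G) (hs : HS G) (x : V) (r : ℕ) :
    Set.ncard {y | y ∈ orbK hs x ∧ G.dist x y ≤ r} = (Sf hG hs x r).card := by
  rw [← Set.ncard_coe_finset]
  congr 1
  ext y
  simp [mem_Sf, and_comm]

lemma count (hG : TG G) (hs : HS G) (x : V) {t : G ≃g G} (ht : t ∈ hs.Γ) (hχ : 0 < hs.χ t)
    (r : ℕ) : (Sf hG hs x r).card * (r + 1) ≤ (bl hG x (r * (1 + G.dist x (t x)))).card := by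
  classical
  have h1 : ((Sf hG hs x r) ×ˢ (Finset.range (r + 1))).card ≤
      (bl hG x (r * (1 + G.dist x (t x)))).card := by
    refine Finset.card_le_card_of_injOn (fun p => (t ^ p.2) p.1) ?_ ?_
    · rintro ⟨z, j⟩ hp
      rw [Finset.mem_coe, Finset.mem_product, mem_Sf, Finset.mem_range] at hp
      obtain ⟨⟨hz, -⟩, hj⟩ := hp
      rw [Finset.mem_coe, mem_bl]
      have h1 := hG.tri x ((t ^ j) x) ((t ^ j) z)
      rw [dist_iso hG.conn] at h1
      have h2 := dist_pow hG t x j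
      have h3 : j * G.dist x (t x) ≤ r * G.dist x (t x) := Nat.mul_le_mul_right _ (by omega)
      calc _ ≤ _ := h1
        _ ≤ r * G.dist x (t x) + r := by simp only at hz; omega
        _ = _ := by ring
    · rintro ⟨z, j⟩ hp ⟨z', j'⟩ hp' h
      rw [Finset.mem_coe, Finset.mem_product, mem_Sf] at hp hp'
      simp only at h hp hp'
      have h2 := congrArg hs.u h
      rw [u_pow hs ht, u_pow hs ht, orbK_u hs hp.1.2, orbK_u hs hp'.1.2] at h2
      have h3 : (j : ℝ) * hs.χ t = j' * hs.χ t := by linarith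
      have h4 : (hs.χ t : ℝ) ≠ 0 := by exact_mod_cast hχ.ne'
      have h5 : j = j' := by exact_mod_cast mul_right_cancel₀ h4 h3
      subst h5
      rw [(t ^ j).injective h]
  rwa [Finset.card_product, Finset.card_range] at h1

end LG

theorem orb_linear (hG : TG G) (hs : HS G) (o x : V)
    (hquad : ∃ F : ℝ, ∀ N : ℕ, ∃ r ≥ N, ((bl hG o r).card : ℝ) ≤ F * (r : ℝ) ^ 2) :
    ∃ A : ℝ, ∀ N : ℕ, ∃ r ≥ N, ((Set.ncard {y | y ∈ orbK hs x ∧ G.dist x y ≤ r} : ℕ) : ℝ) ≤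
      A * r := by
  obtain ⟨t, ht, hχ⟩ := LG.exists_pos hs
  obtain ⟨F, hF⟩ := hquad
  set τ := 1 + G.dist x (t x) with hτ
  have hτ1 : 1 ≤ τ := by omega
  refine ⟨4 * |F| * (τ : ℝ) ^ 2, fun N => ?_⟩
  obtain ⟨r', hr', hV⟩ := hF ((N + 1) * τ)
  have hr1 : N + 1 ≤ r' / τ := (Nat.le_div_iff_mul_le (by omega)).2 hr'
  refine ⟨r' / τ, by omega, ?_⟩
  set r := r' / τ with hr
  rw [LG.ncard_Sf hG]
  have h1 := LG.count hG hs x ht hχ r
  rw [← hτ] at h1
  have h2 : (bl hG x (r * τ)).card ≤ (bl hG o r').card := by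
    rw [card_bl hG x o]
    refine Finset.card_le_card fun y hy => ?_
    rw [mem_bl] at hy ⊢
    exact hy.trans (Nat.div_mul_le_self r' τ)
  have h3 : r' ≤ 2 * r * τ := by
    have h4 : r' < (r + 1) * τ := by
      have := Nat.lt_div_mul_add (a := r') (b := τ) (by omega)
      rw [← hr] at this
      calc r' < r * τ + τ := this
        _ = _ := by ring
    have h5 : (r + 1) * τ ≤ 2 * r * τ := Nat.mul_le_mul_right _ (by omega)
    omega
  have h4 : ((LG.Sf hG hs x r).card : ℝ) * (r + 1) ≤ |F| * (2 * r * τ) ^ 2 := by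
    calc ((LG.Sf hG hs x r).card : ℝ) * (r + 1) ≤ ((bl hG o r').card : ℝ) := by
          exact_mod_cast h1.trans h2
      _ ≤ F * (r' : ℝ) ^ 2 := hV
      _ ≤ |F| * (r' : ℝ) ^ 2 := mul_le_mul_of_nonneg_right (le_abs_self F) (by positivity)
      _ ≤ |F| * (2 * r * τ) ^ 2 := by
          have h6 : (r' : ℝ) ≤ 2 * r * τ := by exact_mod_cast h3
          gcongr
  have hrpos : (0 : ℝ) < r := by
    have : 0 < r := by omega
    exact_mod_cast this
  have h5 : ((LG.Sf hG hs x r).card : ℝ) * r ≤ |F| * (2 * r * τ) ^ 2 :=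
    le_trans (mul_le_mul_of_nonneg_left (by linarith) (by positivity)) h4
  have h6 : ((LG.Sf hG hs x r).card : ℝ) * r ≤ (4 * |F| * (τ : ℝ) ^ 2 * r) * r := by
    calc _ ≤ _ := h5
      _ = _ := by ring
  exact le_of_mul_le_mul_right h6 hrpos

theorem orb_infinite (hG : TG G) (hs : HS G) (o x : V)
    (hlow : ∀ R : ℕ, (R : ℝ) ^ 2 / 2 ≤ (bl hG o R).card) : (orbK hs x).Infinite := by
  classical
  intro hfin
  obtain ⟨t, ht, hχ⟩ := LG.exists_pos hs
  obtain ⟨ι, hι, rep, hrep⟩ := exists_reps hG hs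
  obtain ⟨Lp, hLp⟩ := exists_lip hG hs
  -- bound for the kernel orbit
  obtain ⟨C2, hC2⟩ : ∃ C2 : ℕ, ∀ y ∈ orbK hs x, G.dist y x ≤ C2 := by
    refine ⟨hfin.toFinset.sup (fun y => G.dist y x), fun y hy => ?_⟩
    exact Finset.le_sup (f := fun y => G.dist y x) (hfin.mem_toFinset.2 hy)
  -- a representative for every residue
  let γ : ℕ → (G ≃g G) := fun s => if h : ∃ g ∈ hs.Γ, hs.χ g = s then h.choose else 1
  have hγ : ∀ s : ℕ, (∃ g ∈ hs.Γ, hs.χ g = s) → γ s ∈ hs.Γ ∧ hs.χ (γ s) = s := by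
    intro s h
    simp only [γ, dif_pos h]
    exact h.choose_spec
  obtain ⟨C1, hC1⟩ : ∃ C1 : ℕ, ∀ i : ι, ∀ s : ℕ, s < (hs.χ t).toNat →
      G.dist (γ s (rep i)) x ≤ C1 := by
    refine ⟨∑ i, ∑ s ∈ Finset.range (hs.χ t).toNat, G.dist (γ s (rep i)) x, fun i s hs' => ?_⟩
    calc G.dist (γ s (rep i)) x ≤ ∑ s ∈ Finset.range (hs.χ t).toNat, G.dist (γ s (rep i)) x :=
          Finset.single_le_sum (f := fun s => G.dist (γ s (rep i)) x) (fun _ _ => Nat.zero_le _)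
            (Finset.mem_range.2 hs')
      _ ≤ _ := Finset.single_le_sum
            (f := fun i => ∑ s ∈ Finset.range (hs.χ t).toNat, G.dist (γ s (rep i)) x)
            (fun _ _ => Nat.zero_le _) (Finset.mem_univ i)
  have key : ∀ y : V, ∃ q : ℤ, G.dist y ((t ^ q) x) ≤ C1 + C2 := by
    intro y
    obtain ⟨i, g, hg, rfl⟩ := hrep y
    let q := hs.χ g / hs.χ t
    let s := (hs.χ g % hs.χ t).toNat
    have hs0 : 0 ≤ hs.χ g % hs.χ t := Int.emod_nonneg _ hχ.ne'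
    have hs1 : hs.χ g % hs.χ t < hs.χ t := Int.emod_lt_of_pos _ hχ
    have hg' : t ^ (-q) * g ∈ hs.Γ := hs.Γ.mul_mem (hs.Γ.zpow_mem ht _) hg
    have hχ' : hs.χ (t ^ (-q) * g) = s := by
      rw [hs.mul _ (hs.Γ.zpow_mem ht _) _ hg, LG.chi_zpow hs ht]
      have := Int.mul_ediv_add_emod (hs.χ g) (hs.χ t)
      simp only [s, q]
      rw [Int.toNat_of_nonneg hs0]
      linarith [mul_comm (hs.χ t) (hs.χ g / hs.χ t)]
    obtain ⟨h1, h2⟩ := hγ s ⟨_, hg', hχ'⟩
    let l : G ≃g G := t ^ (-q) * g * (γ s)⁻¹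
    have hl : l ∈ hs.Γ := hs.Γ.mul_mem hg' (hs.Γ.inv_mem h1)
    have hl0 : hs.χ l = 0 := by
      have h3 := LG.chi_zpow hs h1 (-1)
      rw [zpow_neg_one] at h3
      show hs.χ (t ^ (-q) * g * (γ s)⁻¹) = 0
      rw [hs.mul _ hg' _ (hs.Γ.inv_mem h1), hχ', h3, h2]
      ring
    refine ⟨q, ?_⟩
    have h4 : g (rep i) = (t ^ q) (l (γ s (rep i))) := by
      have : g = t ^ q * l * γ s := by
        show g = t ^ q * (t ^ (-q) * g * (γ s)⁻¹) * γ s
        group
      conv_lhs => rw [this]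
      rfl
    rw [h4, dist_iso hG.conn]
    have h5 := hG.tri (l (γ s (rep i))) (l x) x
    rw [dist_iso hG.conn] at h5
    have h6 := hC1 i s (by omega)
    have h7 := hC2 (l x) ⟨l, hl, hl0, rfl⟩
    omega
  set C := C1 + C2 with hC
  -- heights bound the exponent
  have hq : ∀ (R : ℕ) (y : V), G.dist x y ≤ R → ∀ q : ℤ, G.dist y ((t ^ q) x) ≤ C →
      |q| ≤ (Lp * (R + C) : ℕ) := by
    intro R y hy q hq
    have h1 : G.dist x ((t ^ q) x) ≤ R + C := (hG.tri x y _).trans (by omega)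
    have h2 := lip_ch hLp x (geo hG x ((t ^ q) x)) (ch_geo hG _ _)
    rw [en_geo, length_geo, LG.u_zpow hs ht] at h2
    have h3 : |(q : ℝ) * hs.χ t| ≤ Lp * (R + C : ℕ) := by
      have h4 : hs.u x + (q : ℝ) * hs.χ t - hs.u x = (q : ℝ) * hs.χ t := by ring
      rw [h4] at h2
      refine h2.trans (mul_le_mul_of_nonneg_left ?_ (by positivity))
      exact_mod_cast h1
    have h5 : |q * hs.χ t| ≤ (Lp * (R + C) : ℕ) := by
      have : ((|q * hs.χ t| : ℤ) : ℝ) ≤ ((Lp * (R + C) : ℕ) : ℝ) := by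
        push_cast at h3 ⊢
        exact h3
      exact_mod_cast this
    rw [abs_mul] at h5
    refine le_trans ?_ h5
    have h6 : 1 ≤ |hs.χ t| := by rw [abs_of_pos hχ]; omega
    exact le_mul_of_one_le_right (abs_nonneg q) h6
  -- counting
  have hcard : ∀ R : ℕ, (bl hG x R).card ≤ (2 * (Lp * (R + C)) + 1) * (bl hG x C).card := by
    intro R
    have hsub : bl hG x R ⊆ (Finset.Icc (-((Lp * (R + C) : ℕ) : ℤ)) ((Lp * (R + C) : ℕ) : ℤ)).biUnion
        (fun q => bl hG ((t ^ q) x) C) := by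
      intro y hy
      rw [mem_bl] at hy
      obtain ⟨q, hq'⟩ := key y
      have h1 := hq R y hy q hq'
      rw [Finset.mem_biUnion]
      refine ⟨q, ?_, ?_⟩
      · rw [Finset.mem_Icc]; exact abs_le.1 h1
      · rw [mem_bl, SimpleGraph.dist_comm]; exact hq'
    refine (Finset.card_le_card hsub).trans (Finset.card_biUnion_le.trans ?_)
    rw [Finset.sum_congr rfl fun q _ => card_bl hG ((t ^ q) x) x C, Finset.sum_const,
      Int.card_Icc, smul_eq_mul]
    refine Nat.mul_le_mul_right _ (le_of_eq ?_)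
    omega
  set B := (bl hG x C).card with hB
  let R := 2 * (2 * Lp * B) + 2 * ((2 * Lp * C + 1) * B) + 2
  have h1 := hlow R
  rw [card_bl hG o x] at h1
  have h2 : ((bl hG x R).card : ℝ) ≤ (2 * (Lp * (R + C)) + 1) * B := by exact_mod_cast hcard R
  have h3 : (R : ℝ) = 2 * (2 * Lp * B) + 2 * ((2 * Lp * C + 1) * B) + 2 := by
    simp only [R]; push_cast; ring
  have h4 : (0 : ℝ) ≤ Lp := by positivity
  have h5 : (0 : ℝ) ≤ B := by positivity
  have h6 : (0 : ℝ) ≤ C := by positivity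
  have h7 : (0 : ℝ) ≤ (2 * Lp * C + 1) * B := by positivity
  have hR1 : (1 : ℝ) ≤ R := by
    rw [h3]
    have : (0 : ℝ) ≤ 2 * Lp * B := by positivity
    linarith
  have h8 : (R : ℝ) ^ 2 / 2 = R * (2 * Lp * B) + R * ((2 * Lp * C + 1) * B) + R := by
    have : (R : ℝ) ^ 2 / 2 = R * (R / 2) := by ring
    rw [this]
    conv_lhs => rw [h3]
    rw [← h3]
    nlinarith [h3]
  have h9 : (2 * (Lp * (R + C)) + 1) * (B : ℝ) = R * (2 * Lp * B) + (2 * Lp * C + 1) * B := by ring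
  nlinarith [mul_le_mul_of_nonneg_right hR1 h7]

end Pool.H61.ST
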