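import Pool.Agent.H61.ST.Defs

set_option autoImplicit false

/-! Module LOW: low frequency functions (lazy random walk on finitely supported functions). -/

namespace Pool.H61.ST

open Finset Pool.Agent.H61.SW Pool.H98.C Filter

namespace Low

/-! ### Abstract part: symmetric positive operators -/

section Abs
variable {W : Type*} [AddCommGroup W] [Module ℝ W]
variable (B : W →ₗ[ℝ] W →ₗ[ℝ] ℝ) (P : W →ₗ[ℝ] W)

/-- moments -/
noncomputable def mo (f : W) (j : ℕ) : ℝ := B ((P ^ j) f) f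

variable {B P}

structure Pos (B : W →ₗ[ℝ] W →ₗ[ℝ] ℝ) (P : W →ₗ[ℝ] W) : Prop where
  symm : ∀ f g, B f g = B g f
  sa : ∀ f g, B (P f) g = B f (P g)
  nn : ∀ f, 0 ≤ B f f
  pn : ∀ f, 0 ≤ B (P f) f
  le : ∀ f, B (P f) f ≤ B f f

variable (h : Pos B P)
include h

lemma Pos.sa_pow (n : ℕ) (f g : W) : B ((P ^ n) f) g = B f ((P ^ n) g) := by
  induction n generalizing f g with
  | zero => simp
  | succ n ih =>
    rw [pow_succ, Module.End.mul_apply, ih, h.sa, ← Module.End.mul_apply, ← pow_succ']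
    rfl

lemma Pos.split (a b : ℕ) (f : W) : B ((P ^ a) f) ((P ^ b) f) = mo B P f (a + b) := by
  unfold mo
  rw [← h.sa_pow b, ← Module.End.mul_apply, ← pow_add, add_comm b a]

lemma Pos.mo_nonneg (f : W) (j : ℕ) : 0 ≤ mo B P f j := by
  rcases Nat.even_or_odd' j with ⟨i, rfl | rfl⟩
  · rw [two_mul, ← h.split]; exact h.nn _
  · rw [show 2 * i + 1 = (i + 1) + i by ring, ← h.split, pow_succ', Module.End.mul_apply]
    exact h.pn _

lemma Pos.mo_anti_succ (f : W) (j : ℕ) : mo B P f (j + 1) ≤ mo B P f j := by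
  rcases Nat.even_or_odd' j with ⟨i, rfl | rfl⟩
  · rw [show 2 * i + 1 = (i + 1) + i by ring, show 2 * i = i + i by ring, ← h.split, ← h.split,
      pow_succ', Module.End.mul_apply]
    exact h.le _
  · rw [show 2 * i + 1 + 1 = (i + 1) + (i + 1) by ring, show 2 * i + 1 = (i + 1) + i by ring,
      ← h.split, ← h.split, pow_succ', Module.End.mul_apply]
    set g := (P ^ i) f
    have h1 := h.le (P g)
    have h2 := h.pn (g - P g)
    have h3 : B (P (g - P g)) (g - P g) = B (P g) g - 2 * B (P g) (P g) + B (P (P g)) (P g) := by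
      simp only [map_sub, LinearMap.sub_apply]
      rw [h.sa (P g) g]
      ring
    rw [h3] at h2
    linarith

lemma Pos.mo_anti (f : W) : Antitone (mo B P f) := antitone_nat_of_succ_le (h.mo_anti_succ f)

lemma Pos.mo_convex (f : W) (j : ℕ) :
    mo B P f (j + 1) - mo B P f (j + 2) ≤ mo B P f j - mo B P f (j + 1) := by
  have h1 := h.mo_nonneg (f - P f) j
  have h2 : mo B P (f - P f) j = mo B P f j - 2 * mo B P f (j + 1) + mo B P f (j + 2) := by
    unfold mo
    have e1 : (P ^ (j + 1)) f = (P ^ j) (P f) := by rw [pow_succ]; rfl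
    have e2 : (P ^ (j + 2)) f = (P ^ j) (P (P f)) := by rw [pow_succ, pow_succ]; rfl
    have e3 : B ((P ^ j) f) (P f) = B ((P ^ j) (P f)) f := by
      rw [← h.sa, ← Module.End.mul_apply, ← pow_succ', pow_succ]; rfl
    have e4 : B ((P ^ j) (P f)) (P f) = B ((P ^ j) (P (P f))) f := by
      rw [← h.sa, ← Module.End.mul_apply, ← pow_succ', pow_succ]; rfl
    simp only [map_sub, LinearMap.sub_apply]
    rw [e1, e2, e3, e4]
    ring
  linarith

lemma Pos.mo_step (f : W) (j : ℕ) :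
    mo B P f j - mo B P f (j + 1) ≤ mo B P f 0 - mo B P f 1 := by
  induction j with
  | zero => simp
  | succ j ih => exact (h.mo_convex f j).trans ih

lemma Pos.mo_lower (f : W) (j : ℕ) :
    mo B P f 0 - j * (mo B P f 0 - mo B P f 1) ≤ mo B P f j := by
  induction j with
  | zero => simp
  | succ j ih =>
    have := h.mo_step f j
    push_cast
    linarith

/-- polarisation: the sequence `B (P^n f) g` converges -/
lemma Pos.exists_lim (f g : W) : ∃ l : ℝ, Tendsto (fun n => B ((P ^ n) f) g) atTop (nhds l) := by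
  have key : ∀ u : W, ∃ l : ℝ, Tendsto (fun n => mo B P u n) atTop (nhds l) := fun u =>
    ⟨_, tendsto_atTop_ciInf (h.mo_anti u) ⟨0, by rintro _ ⟨n, rfl⟩; exact h.mo_nonneg u n⟩⟩
  obtain ⟨l1, h1⟩ := key (f + g)
  obtain ⟨l2, h2⟩ := key (f - g)
  refine ⟨(l1 - l2) / 4, ?_⟩
  refine ((h1.sub h2).div_const 4).congr fun n => ?_
  unfold mo
  have h3 : B ((P ^ n) g) f = B ((P ^ n) f) g := by
    rw [h.sa_pow, h.symm]
  simp only [map_sub, map_add, LinearMap.sub_apply, LinearMap.add_apply]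
  rw [h3]
  ring

/-- the telescoping sum -/
lemma Pos.energy (f : W) (n J : ℕ) (hJ : J ≤ n) (δ : ℝ) (h1 : ∀ j < J, δ ≤ mo B P f j - mo B P f (j + n)) :
    J * δ ≤ B (∑ j ∈ range n, (P ^ j) f - P (∑ j ∈ range n, (P ^ j) f))
      (∑ j ∈ range n, (P ^ j) f) := by
  have e0 : ∑ j ∈ range n, (P ^ j) f - P (∑ j ∈ range n, (P ^ j) f) = f - (P ^ n) f := by
    rw [map_sum, ← Finset.sum_sub_distrib]
    have : ∀ j ∈ range n, (P ^ j) f - P ((P ^ j) f) = (P ^ j) f - (P ^ (j + 1)) f := fun j _ => by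
      rw [pow_succ', Module.End.mul_apply]
    rw [Finset.sum_congr rfl this, Finset.sum_range_sub' (fun j => (P ^ j) f)]
    simp
  rw [e0, map_sum]
  have e1 : ∀ j ∈ range n, B (f - (P ^ n) f) ((P ^ j) f) = mo B P f j - mo B P f (j + n) := by
    intro j _
    have := h.split n j f
    have h2 := h.split 0 j f
    simp only [pow_zero, zero_add, Module.End.one_apply] at h2
    rw [map_sub, LinearMap.sub_apply, this, h2, add_comm n j]
  rw [Finset.sum_congr rfl e1]
  calc (J : ℝ) * δ = ∑ j ∈ range J, δ := by simp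
    _ ≤ ∑ j ∈ range J, (mo B P f j - mo B P f (j + n)) :=
        Finset.sum_le_sum fun j hj => h1 j (Finset.mem_range.1 hj)
    _ ≤ ∑ j ∈ range n, (mo B P f j - mo B P f (j + n)) := by
        refine Finset.sum_le_sum_of_subset_of_nonneg (Finset.range_subset_range.2 hJ) fun j _ _ => ?_
        have := h.mo_anti f (Nat.le_add_right j n)
        linarith

lemma Pos.defect (f : W) (n : ℕ) :
    B (∑ j ∈ range n, (P ^ j) f - P (∑ j ∈ range n, (P ^ j) f))
      (∑ j ∈ range n, (P ^ j) f - P (∑ j ∈ range n, (P ^ j) f)) ≤ mo B P f 0 := by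
  have e0 : ∑ j ∈ range n, (P ^ j) f - P (∑ j ∈ range n, (P ^ j) f) = f - (P ^ n) f := by
    rw [map_sum, ← Finset.sum_sub_distrib]
    have : ∀ j ∈ range n, (P ^ j) f - P ((P ^ j) f) = (P ^ j) f - (P ^ (j + 1)) f := fun j _ => by
      rw [pow_succ', Module.End.mul_apply]
    rw [Finset.sum_congr rfl this, Finset.sum_range_sub' (fun j => (P ^ j) f)]
    simp
  rw [e0]
  have h1 := h.split 0 0 f
  have h2 := h.split n 0 f
  have h3 := h.split 0 n f
  have h4 := h.split n n f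
  simp only [pow_zero, zero_add, add_zero, Module.End.one_apply] at h1 h2 h3
  simp only [map_sub, LinearMap.sub_apply]
  rw [h1, h2, h3, h4]
  have h5 := h.mo_anti f (Nat.le_add_right n n)
  have h6 := h.mo_nonneg f n
  linarith

end Abs

/-! ### The lazy random walk -/

section Walk
open Classical
variable {V : Type} {G : SimpleGraph V} (hG : TG G)

/-- inner product of finitely supported functions -/
noncomputable def ip : (V →₀ ℝ) →ₗ[ℝ] (V →₀ ℝ) →ₗ[ℝ] ℝ :=
  Finsupp.lsum ℝ (fun x => LinearMap.toSpanSingleton ℝ _ (Finsupp.lapply x))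

lemma ip_apply (f g : V →₀ ℝ) : ip f g = f.sum fun x a => a * g x := by
  simp [ip, Finsupp.sum, LinearMap.sum_apply]

lemma ip_eq (f g : V →₀ ℝ) (S : Finset V) (h : f.support ⊆ S) :
    ip f g = ∑ x ∈ S, f x * g x := by
  rw [ip_apply, Finsupp.sum_of_support_subset _ h _ (by simp)]

lemma ip_comm (f g : V →₀ ℝ) : ip f g = ip g f := by
  rw [ip_eq f g (f.support ∪ g.support) Finset.subset_union_left,
    ip_eq g f (f.support ∪ g.support) Finset.subset_union_right]
  exact Finset.sum_congr rfl fun x _ => mul_comm _ _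

/-- adjacency operator -/
noncomputable def Ad : (V →₀ ℝ) →ₗ[ℝ] (V →₀ ℝ) :=
  Finsupp.linearCombination ℝ (fun x => ∑ y ∈ nb hG x, Finsupp.single y (1 : ℝ))

lemma Ad_single (z : V) : Ad hG (Finsupp.single z 1) = ∑ y ∈ nb hG z, Finsupp.single y (1 : ℝ) := by
  simp [Ad]

lemma Ad_apply (f : V →₀ ℝ) (x : V) : Ad hG f x = ∑ y ∈ nb hG x, f y := by
  have : (Finsupp.lapply x).comp (Ad hG) =
      ∑ y ∈ nb hG x, (Finsupp.lapply y : (V →₀ ℝ) →ₗ[ℝ] ℝ) := by
    ext z
    simp only [LinearMap.comp_apply, Finsupp.lapply_apply, Finsupp.lsingle_apply,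
      LinearMap.sum_apply]
    rw [Ad_single, Finsupp.finsetSum_apply]
    simp only [Finsupp.single_apply]
    rw [Finset.sum_ite_eq', Finset.sum_ite_eq]
    simp only [mem_nb, G.adj_comm]
  have h2 := LinearMap.congr_fun this f
  simpa [LinearMap.sum_apply] using h2

lemma ip_Ad (f g : V →₀ ℝ) : ip (Ad hG f) g = ip f (Ad hG g) := by
  have : ip.comp (Ad hG) = (ip : (V →₀ ℝ) →ₗ[ℝ] (V →₀ ℝ) →ₗ[ℝ] ℝ).compl₂ (Ad hG) := by
    ext x y
    simp only [LinearMap.comp_apply, Finsupp.lsingle_apply, LinearMap.compl₂_apply]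
    rw [ip_comm (Ad hG _), ip_apply, ip_apply]
    rw [Finsupp.sum_single_index (by simp), Finsupp.sum_single_index (by simp)]
    rw [Ad_single, Ad_single, Finsupp.finsetSum_apply, Finsupp.finsetSum_apply]
    simp only [Finsupp.single_apply]
    rw [Finset.sum_ite_eq', Finset.sum_ite_eq']
    simp only [mem_nb, G.adj_comm]
  exact LinearMap.congr_fun (LinearMap.congr_fun this f) g

/-- the support and its neighbours -/
noncomputable def sp (f : V →₀ ℝ) : Finset V := f.support.biUnion fun x => insert x (nb hG x)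

lemma sp_supp (f : V →₀ ℝ) : f.support ⊆ sp hG f := fun x hx =>
  Finset.mem_biUnion.2 ⟨x, hx, Finset.mem_insert_self _ _⟩

lemma not_sp {f : V →₀ ℝ} {x : V} (h : x ∉ sp hG f) : f x = 0 ∧ ∀ y ∈ nb hG x, f y = 0 := by
  constructor
  · by_contra h1
    exact h (sp_supp hG f (Finsupp.mem_support_iff.2 h1))
  · intro y hy
    by_contra h1
    refine h (Finset.mem_biUnion.2 ⟨y, Finsupp.mem_support_iff.2 h1, Finset.mem_insert_of_mem ?_⟩)
    rw [mem_nb_comm]; exact hy

lemma sum_nb_sq (o : V) (f : V →₀ ℝ) :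
    ∑ x ∈ sp hG f, ∑ y ∈ nb hG x, f y ^ 2 = dg hG o * ip f f := by
  have h1 : ∀ x ∈ sp hG f, ∑ y ∈ nb hG x, f y ^ 2 =
      ∑ y ∈ f.support, if G.Adj x y then f y ^ 2 else 0 := by
    intro x _
    rw [← Finset.sum_filter]
    symm
    refine Finset.sum_subset_zero_on_sdiff ?_ ?_ (fun _ _ => rfl)
    · intro y hy
      simp only [Finset.mem_filter] at hy
      simp [hy.2]
    · intro y hy
      simp only [Finset.mem_sdiff, Finset.mem_filter, not_and, mem_nb] at hy
      have : y ∉ f.support := fun h => hy.2 h hy.1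
      rw [Finsupp.notMem_support_iff.1 this]; simp
  rw [Finset.sum_congr rfl h1, Finset.sum_comm, ip_eq f f f.support subset_rfl, Finset.mul_sum]
  refine Finset.sum_congr rfl fun y hy => ?_
  rw [← Finset.sum_filter, Finset.sum_const, nsmul_eq_mul, dg_eq hG o y, sq]
  congr 2
  unfold dg
  congr 1
  ext x
  simp only [Finset.mem_filter, mem_nb, G.adj_comm x y]
  constructor
  · exact fun h => h.2
  · exact fun h => ⟨Finset.mem_biUnion.2 ⟨y, hy, Finset.mem_insert_of_mem (by simpa using h)⟩, h⟩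

lemma sum_gr_aux (o : V) (f : V →₀ ℝ) (s : ℝ) (hs : s ^ 2 = 1) :
    ∑ x ∈ sp hG f, ∑ y ∈ nb hG x, (f y + s * f x) ^ 2 =
      2 * dg hG o * ip f f + 2 * s * ip (Ad hG f) f := by
  have h1 : ∀ x ∈ sp hG f, ∑ y ∈ nb hG x, (f y + s * f x) ^ 2 =
      ∑ y ∈ nb hG x, f y ^ 2 + dg hG o * (f x * f x) + 2 * s * (f x * Ad hG f x) := by
    intro x _
    rw [Ad_apply, Finset.mul_sum, Finset.mul_sum, dg_eq hG o x, dg, ← nsmul_eq_mul,
      ← Finset.sum_const, ← Finset.sum_add_distrib, ← Finset.sum_add_distrib]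
    refine Finset.sum_congr rfl fun y _ => ?_
    linear_combination (f x) ^ 2 * hs
  rw [Finset.sum_congr rfl h1, Finset.sum_add_distrib, Finset.sum_add_distrib, sum_nb_sq hG o,
    ← Finset.mul_sum, ← Finset.mul_sum, ← ip_eq f f _ (sp_supp hG f),
    ← ip_eq f (Ad hG f) _ (sp_supp hG f), ip_Ad]
  ring

lemma sum_gr (o : V) (f : V →₀ ℝ) :
    ∑ x ∈ sp hG f, gr hG f x = 2 * dg hG o * ip f f - 2 * ip (Ad hG f) f := by
  have := sum_gr_aux hG o f (-1) (by norm_num)
  rw [show 2 * (dg hG o : ℝ) * ip f f - 2 * ip (Ad hG f) f =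
    2 * dg hG o * ip f f + 2 * (-1) * ip (Ad hG f) f by ring, ← this]
  refine Finset.sum_congr rfl fun x _ => Finset.sum_congr rfl fun y _ => ?_
  ring

/-- the lazy random walk -/
noncomputable def Pl (o : V) : (V →₀ ℝ) →ₗ[ℝ] (V →₀ ℝ) :=
  (1 / 2 : ℝ) • LinearMap.id + (1 / (2 * dg hG o : ℝ)) • Ad hG

lemma Pl_apply (o : V) (f : V →₀ ℝ) (x : V) :
    Pl hG o f x = f x / 2 + 1 / (2 * dg hG o : ℝ) * ∑ y ∈ nb hG x, f y := by
  rw [← Ad_apply]
  simp [Pl]
  ring

lemma Pl_pos (o : V) (hd : 0 < dg hG o) : Pos ip (Pl hG o) := by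
  have hd' : (0 : ℝ) < dg hG o := by exact_mod_cast hd
  refine ⟨ip_comm, ?_, ?_, ?_, ?_⟩
  · intro f g
    simp [Pl, ip_Ad]
  · intro f
    rw [ip_eq f f _ subset_rfl]
    exact Finset.sum_nonneg fun x _ => mul_self_nonneg _
  · intro f
    have h1 := sum_gr_aux hG o f 1 (by norm_num)
    have h2 : 0 ≤ ∑ x ∈ sp hG f, ∑ y ∈ nb hG x, (f y + 1 * f x) ^ 2 :=
      Finset.sum_nonneg fun _ _ => Finset.sum_nonneg fun _ _ => sq_nonneg _
    have h3 : ip (Pl hG o f) f = 1 / (4 * dg hG o) *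
        (2 * dg hG o * ip f f + 2 * 1 * ip (Ad hG f) f) := by
      simp [Pl]
      field_simp
      ring
    rw [h3, ← h1]
    positivity
  · intro f
    have h1 := sum_gr hG o f
    have h2 : 0 ≤ ∑ x ∈ sp hG f, gr hG f x := Finset.sum_nonneg fun _ _ => gr_nonneg hG _ _
    have h3 : ip f f - ip (Pl hG o f) f = 1 / (4 * dg hG o) *
        (2 * dg hG o * ip f f - 2 * ip (Ad hG f) f) := by
      simp [Pl]
      field_simp
      ring
    rw [← h1] at h3
    have h4 : 0 ≤ ip f f - ip (Pl hG o f) f := by rw [h3]; positivity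
    linarith

lemma lap_eq (o : V) (hd : 0 < dg hG o) (f : V →₀ ℝ) (x : V) :
    lap hG f x = -(2 * dg hG o) * (f - Pl hG o f) x := by
  have hd' : (0 : ℝ) < dg hG o := by exact_mod_cast hd
  rw [Finsupp.sub_apply, Pl_apply, lap, Finset.sum_sub_distrib, Finset.sum_const, nsmul_eq_mul,
    ← dg, dg_eq hG x o]
  field_simp
  ring

lemma lap_zero {f : V →₀ ℝ} {x : V} (h : x ∉ sp hG f) : lap hG f x = 0 := by
  obtain ⟨h1, h2⟩ := not_sp hG h
  exact Finset.sum_eq_zero fun y hy => by rw [h1, h2 y hy]; simp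

lemma gr_zero {f : V →₀ ℝ} {x : V} (h : x ∉ sp hG f) : gr hG f x = 0 := by
  obtain ⟨h1, h2⟩ := not_sp hG h
  exact Finset.sum_eq_zero fun y hy => by rw [h1, h2 y hy]; simp

lemma sum_gr' (o : V) (hd : 0 < dg hG o) (f : V →₀ ℝ) :
    ∑ x ∈ sp hG f, gr hG f x = 4 * dg hG o * ip (f - Pl hG o f) f := by
  have hd' : (0 : ℝ) < dg hG o := by exact_mod_cast hd
  rw [sum_gr hG o]
  simp [Pl]
  field_simp
  ring

lemma sum_lap (o : V) (hd : 0 < dg hG o) (f : V →₀ ℝ) :
    ∑ x ∈ sp hG f, (lap hG f x) ^ 2 =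
      (2 * dg hG o) ^ 2 * ip (f - Pl hG o f) (f - Pl hG o f) := by
  have hd' : (0 : ℝ) < dg hG o := by exact_mod_cast hd
  have hs : (f - Pl hG o f).support ⊆ sp hG f := by
    intro x hx
    by_contra h1
    have h2 := lap_zero hG h1
    rw [lap_eq hG o hd] at h2
    have h3 := Finsupp.mem_support_iff.1 hx
    rcases mul_eq_zero.1 h2 with h4 | h4
    · linarith
    · exact h3 h4
  rw [ip_eq _ _ _ hs, Finset.mul_sum]
  refine Finset.sum_congr rfl fun x _ => ?_
  rw [lap_eq hG o hd]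
  ring

/-! ### Decay of the moments -/

lemma ip_single (f : V →₀ ℝ) (x : V) : ip f (Finsupp.single x 1) = f x := by
  rw [ip_comm, ip_apply, Finsupp.sum_single_index (by simp)]
  simp

lemma closed_all (hc : G.Connected) (Q : V → Prop) (hQ : ∀ x y, G.Adj x y → Q x → Q y) (x0 : V)
    (h0 : Q x0) (y : V) : Q y := by
  obtain ⟨p⟩ := hc.preconnected x0 y
  induction p with
  | nil => exact h0
  | cons h p ih => exact ih (hQ _ _ h h0)

/-- square summable harmonic functions vanish -/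
lemma l2_harm (hinf : Infinite V) (h : V → ℝ) (M : ℝ)
    (hM : ∀ T : Finset V, ∑ x ∈ T, h x ^ 2 ≤ M)
    (hh : ∀ x, (dg hG x : ℝ) * h x = ∑ y ∈ nb hG x, h y) (x : V) : h x = 0 := by
  by_contra hx
  have ha : 0 < |h x| := abs_pos.2 hx
  have hfin : {y : V | |h x| ≤ |h y|}.Finite := by
    by_contra hnf
    obtain ⟨n, hn⟩ := exists_nat_gt (M / |h x| ^ 2)
    obtain ⟨T, hT, hc⟩ := (Set.Infinite.exists_subset_card_eq hnf n)
    have h1 := hM T
    have h2 : (n : ℝ) * |h x| ^ 2 ≤ ∑ y ∈ T, h y ^ 2 := by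
      rw [← hc, ← nsmul_eq_mul, ← Finset.sum_const]
      refine Finset.sum_le_sum fun y hy => ?_
      have h3 : |h x| ≤ |h y| := hT hy
      rw [← sq_abs (h y)]
      exact pow_le_pow_left₀ ha.le h3 2
    rw [div_lt_iff₀ (by positivity)] at hn
    linarith
  obtain ⟨z, hz, hmax⟩ := hfin.exists_maximalFor (fun y => |h y|) _ ⟨x, le_refl |h x|⟩
  have hz' : ∀ y, |h y| ≤ |h z| := by
    intro y
    by_cases hy : |h x| ≤ |h y|
    · by_contra hlt
      push Not at hlt
      exact absurd (hmax hy hlt.le) (not_le.2 hlt)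
    · push Not at hy
      exact hy.le.trans hz
  have hstep : ∀ a b, G.Adj a b → |h a| = |h z| → |h b| = |h z| := by
    intro a b hab ha'
    have h1 : (dg hG a : ℝ) * |h a| ≤ ∑ y ∈ nb hG a, |h y| := by
      calc (dg hG a : ℝ) * |h a| = |(dg hG a : ℝ) * h a| := by rw [abs_mul, Nat.abs_cast]
        _ = |∑ y ∈ nb hG a, h y| := by rw [hh]
        _ ≤ _ := Finset.abs_sum_le_sum_abs _ _
    have h2 : ∑ y ∈ nb hG a, (|h z| - |h y|) ≤ 0 := by
      rw [Finset.sum_sub_distrib, Finset.sum_const, nsmul_eq_mul, ← dg, ← ha']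
      linarith
    have h3 := Finset.single_le_sum (f := fun y => |h z| - |h y|)
      (fun y _ => sub_nonneg.2 (hz' y)) ((mem_nb hG).2 hab)
    have := hz' b
    linarith
  have hall : ∀ y, |h y| = |h z| := fun y => closed_all hG.conn (fun y => |h y| = |h z|) hstep z rfl y
  have : {y : V | |h x| ≤ |h y|} = Set.univ := by
    ext y
    simp [hall y, hall x]
  rw [this] at hfin
  exact Set.infinite_univ hfin

lemma lim_zero (hinf : Infinite V) (o : V) (hd : 0 < dg hG o) (φ : V →₀ ℝ) :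
    Tendsto (mo ip (Pl hG o) φ) atTop (nhds 0) := by
  have hd' : (0 : ℝ) < dg hG o := by exact_mod_cast hd
  have hP := Pl_pos hG o hd
  have h1 : ∀ x : V, ∃ l : ℝ, Tendsto (fun n => ((Pl hG o ^ n) φ) x) atTop (nhds l) := by
    intro x
    obtain ⟨l, hl⟩ := hP.exists_lim φ (Finsupp.single x 1)
    exact ⟨l, hl.congr fun n => ip_single _ _⟩
  choose h hlim using h1
  have hharm : ∀ x, (dg hG x : ℝ) * h x = ∑ y ∈ nb hG x, h y := by
    intro x
    have e1 : Tendsto (fun n => ((Pl hG o ^ (n + 1)) φ) x) atTop (nhds (h x)) :=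
      (hlim x).comp (tendsto_add_atTop_nat 1)
    have e2 : Tendsto (fun n => ((Pl hG o ^ (n + 1)) φ) x) atTop
        (nhds (h x / 2 + 1 / (2 * dg hG o : ℝ) * ∑ y ∈ nb hG x, h y)) := by
      have : ∀ n, ((Pl hG o ^ (n + 1)) φ) x = ((Pl hG o ^ n) φ) x / 2 +
          1 / (2 * dg hG o : ℝ) * ∑ y ∈ nb hG x, ((Pl hG o ^ n) φ) y := by
        intro n
        rw [pow_succ', Module.End.mul_apply, Pl_apply]
      simp only [this]
      exact ((hlim x).div_const 2).add
        ((tendsto_finsetSum _ fun y _ => hlim y).const_mul _)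
    have e3 := tendsto_nhds_unique e1 e2
    rw [dg_eq hG x o]
    field_simp at e3
    linarith
  have hM : ∀ T : Finset V, ∑ x ∈ T, h x ^ 2 ≤ mo ip (Pl hG o) φ 0 := by
    intro T
    refine le_of_tendsto (tendsto_finsetSum _ fun x _ => (hlim x).pow 2)
      (Eventually.of_forall fun n => ?_)
    have e1 := hP.split n n φ
    have e2 := hP.mo_anti φ (Nat.zero_le (n + n))
    rw [← e1] at e2
    refine le_trans ?_ e2
    rw [ip_eq _ _ (((Pl hG o ^ n) φ).support ∪ T) Finset.subset_union_left]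
    calc ∑ x ∈ T, (((Pl hG o ^ n) φ) x) ^ 2 = ∑ x ∈ T, ((Pl hG o ^ n) φ) x * ((Pl hG o ^ n) φ) x :=
          Finset.sum_congr rfl fun x _ => sq _
      _ ≤ _ := Finset.sum_le_sum_of_subset_of_nonneg Finset.subset_union_right
          fun x _ _ => mul_self_nonneg _
  have hz := l2_harm hG hinf h _ hM hharm
  have h2 : Tendsto (fun n => ∑ x ∈ φ.support, φ x * ((Pl hG o ^ n) φ) x) atTop
      (nhds (∑ x ∈ φ.support, φ x * h x)) :=
    tendsto_finsetSum _ fun x _ => (hlim x).const_mul _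
  rw [show ∑ x ∈ φ.support, φ x * h x = 0 from Finset.sum_eq_zero fun x _ => by rw [hz]; simp] at h2
  refine h2.congr fun n => ?_
  rw [mo, ip_comm, ip_eq _ _ _ subset_rfl]

/-! ### Balls with small boundary -/

lemma exists_small_boundary (o : V) (D : ℕ) (hpg : PG hG o D) (ε : ℝ) (hε : 0 < ε) :
    ∃ r, ((bl hG o (r + 1)).card : ℝ) ≤ (1 + ε) * (bl hG o r).card := by
  by_contra hcon
  push Not at hcon
  have h1 : ∀ r : ℕ, (1 + ε) ^ r ≤ ((bl hG o r).card : ℝ) := by
    intro r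
    induction r with
    | zero =>
      have := card_bl_pos hG o 0
      simp only [pow_zero]
      exact_mod_cast this
    | succ r ih =>
      calc (1 + ε) ^ (r + 1) = (1 + ε) * (1 + ε) ^ r := pow_succ' _ _
        _ ≤ (1 + ε) * (bl hG o r).card := by gcongr
        _ ≤ _ := (hcon r).le
  have h2 := tendsto_pow_const_div_const_pow_of_one_lt D (show (1 : ℝ) < 1 + ε by linarith)
  have h3 := h2.eventually (gt_mem_nhds (show (0 : ℝ) < 1 by norm_num))
  obtain ⟨N, hN⟩ := eventually_atTop.1 h3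
  obtain ⟨r, hr, hr'⟩ := hpg N
  have h4 := hN r hr
  rw [div_lt_one (by positivity)] at h4
  have h5 := h1 r
  linarith

/-- indicator functions -/
noncomputable def ind (S : Finset V) : V →₀ ℝ :=
  Finsupp.onFinset S (fun x => if x ∈ S then 1 else 0) (fun x hx => by
    by_contra h; simp [h] at hx)

lemma ind_apply (S : Finset V) (x : V) : ind S x = if x ∈ S then 1 else 0 := rfl

lemma ip_ind (f : V →₀ ℝ) (S : Finset V) : ip f (ind S) = ∑ x ∈ S, f x := by
  rw [ip_comm, ip_eq _ _ S (by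
    intro x hx
    by_contra h
    rw [Finsupp.mem_support_iff, ind_apply, if_neg h] at hx
    exact hx rfl)]
  refine Finset.sum_congr rfl fun x hx => ?_
  rw [ind_apply, if_pos hx, one_mul]

lemma ip_ball (o : V) (r : ℕ) :
    (dg hG o : ℝ) * (bl hG o r).card -
      dg hG o * ((bl hG o (r + 1)).card - (bl hG o r).card) ≤
      ip (Ad hG (ind (bl hG o r))) (ind (bl hG o r)) := by
  set B := bl hG o r
  set B' := bl hG o (r + 1)
  have hsub : B ⊆ B' := fun x hx => by
    have := (mem_bl hG o x r).1 hx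
    exact (mem_bl hG o x (r + 1)).2 (by omega)
  have h1 : ip (Ad hG (ind B')) (ind B) = dg hG o * B.card := by
    rw [ip_ind, mul_comm, ← nsmul_eq_mul, ← Finset.sum_const]
    refine Finset.sum_congr rfl fun x hx => ?_
    rw [Ad_apply, ← dg_eq hG x o, dg, Finset.card_eq_sum_ones]
    push_cast
    refine Finset.sum_congr rfl fun y hy => ?_
    rw [ind_apply, if_pos]
    have e1 := (mem_bl hG o x r).1 hx
    have e2 := hG.tri o x y
    have e3 : G.dist x y ≤ 1 := by
      have := (mem_nb hG).1 hy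
      exact (SimpleGraph.dist_eq_one_iff_adj.2 this).le
    exact (mem_bl hG o y (r + 1)).2 (by omega)
  have h2 : ip (Ad hG (ind B')) (ind B) - ip (Ad hG (ind B)) (ind B) =
      ∑ y ∈ B' \ B, Ad hG (ind B) y := by
    rw [ip_Ad, ip_comm, ip_ind, ip_ind, ← Finset.sum_sdiff hsub]
    ring
  have h3 : ∑ y ∈ B' \ B, Ad hG (ind B) y ≤ ∑ y ∈ B' \ B, (dg hG o : ℝ) := by
    refine Finset.sum_le_sum fun y _ => ?_
    rw [Ad_apply, ← dg_eq hG y o, dg, Finset.card_eq_sum_ones]
    push_cast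
    refine Finset.sum_le_sum fun z _ => ?_
    rw [ind_apply]
    split_ifs <;> norm_num
  rw [Finset.sum_const, nsmul_eq_mul, Finset.card_sdiff_of_subset hsub,
    Nat.cast_sub (Finset.card_le_card hsub)] at h3
  linarith

end Walk

end Low

section LOW
variable {V : Type} {G : SimpleGraph V} (hG : TG G)

lemma Low.dg_pos (hinf : Infinite V) (o : V) : 0 < dg hG o := by
  obtain ⟨y, hy⟩ := exists_ne o
  obtain ⟨p⟩ := hG.conn.preconnected o y
  cases p with
  | nil => exact absurd rfl hy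
  | cons h p => exact Finset.card_pos.2 ⟨_, (mem_nb hG).2 h⟩

open Low in
theorem exists_low (hinf : Infinite V) (o : V) (D : ℕ) (hpg : PG hG o D) (η : ℝ) (hη : 0 < η) :
    ∃ (f : V → ℝ) (S : Finset V), (∀ x, x ∉ S → f x = 0 ∧ gr hG f x = 0 ∧ lap hG f x = 0) ∧
      ∑ x ∈ S, gr hG f x = 1 ∧ ∑ x ∈ S, (lap hG f x) ^ 2 ≤ η := by
  have hd := dg_pos hG hinf o
  have hd' : (0 : ℝ) < dg hG o := by exact_mod_cast hd
  have hP := Pl_pos hG o hd
  obtain ⟨J, hJ⟩ := exists_nat_gt (max 1 (2 * dg hG o / η))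
  have hJ1 : (1 : ℝ) < J := (le_max_left _ _).trans_lt hJ
  have hJ2 : 2 * dg hG o / η < J := (le_max_right _ _).trans_lt hJ
  have hJ0 : (0 : ℝ) < J := by linarith
  obtain ⟨r, hr⟩ := exists_small_boundary hG o D hpg (1 / (2 * J)) (by positivity)
  set φ := ind (bl hG o r) with hφ
  set M : ℝ := ((bl hG o r).card : ℝ) with hM
  have hMpos : 0 < M := by
    have := card_bl_pos hG o r
    rw [hM]; exact_mod_cast this
  have hm0 : mo ip (Pl hG o) φ 0 = M := by
    rw [mo, pow_zero, Module.End.one_apply, hφ, ip_ind, hM, Finset.card_eq_sum_ones]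
    push_cast
    exact Finset.sum_congr rfl fun x hx => by rw [ind_apply, if_pos hx]
  have hm1 : M - mo ip (Pl hG o) φ 1 ≤ M / (4 * J) := by
    have h1 := ip_ball hG o r
    have h2 : mo ip (Pl hG o) φ 1 = M / 2 + 1 / (2 * dg hG o) * ip (Ad hG φ) φ := by
      rw [mo, pow_one, ← hm0, mo, pow_zero, Module.End.one_apply]
      simp [Pl]
      ring
    have h3 : (dg hG o : ℝ) * M - dg hG o * (M / (2 * J)) ≤ ip (Ad hG φ) φ := by
      refine le_trans ?_ h1
      have : ((bl hG o (r + 1)).card : ℝ) - M ≤ M / (2 * J) := by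
        have : (1 + 1 / (2 * (J : ℝ))) * M = M + M / (2 * J) := by ring
        linarith
      have := mul_le_mul_of_nonneg_left this hd'.le
      linarith
    have h4 : 1 / (2 * (dg hG o : ℝ)) * ((dg hG o : ℝ) * M - dg hG o * (M / (2 * J))) ≤
        1 / (2 * dg hG o) * ip (Ad hG φ) φ := by gcongr
    have h5 : 1 / (2 * (dg hG o : ℝ)) * ((dg hG o : ℝ) * M - dg hG o * (M / (2 * J))) =
        M / 2 - M / (4 * J) := by
      field_simp
      ring
    linarith
  have hlim := lim_zero hG hinf o hd φ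
  obtain ⟨N, hN⟩ := eventually_atTop.1
    (hlim.eventually (gt_mem_nhds (show (0 : ℝ) < M / 4 by positivity)))
  set n := max N J
  have hn1 : mo ip (Pl hG o) φ n < M / 4 := hN n (le_max_left _ _)
  have hδ : ∀ j < J, M / 2 ≤ mo ip (Pl hG o) φ j - mo ip (Pl hG o) φ (j + n) := by
    intro j hj
    have h1 := hP.mo_lower φ j
    have h2 := hP.mo_anti φ (Nat.le_add_left n j)
    have h3 : (j : ℝ) * (mo ip (Pl hG o) φ 0 - mo ip (Pl hG o) φ 1) ≤ J * (M / (4 * J)) := by
      have : (j : ℝ) ≤ J := by exact_mod_cast hj.le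
      have h0 : 0 ≤ mo ip (Pl hG o) φ 0 - mo ip (Pl hG o) φ 1 := by
        have := hP.mo_anti_succ φ 0
        simp only [zero_add] at this
        linarith
      rw [hm0] at h0 ⊢
      gcongr
    have h4 : (J : ℝ) * (M / (4 * J)) = M / 4 := by field_simp
    rw [hm0] at h1 h3
    linarith
  have hE := hP.energy φ n J (le_max_right _ _) (M / 2) hδ
  have hDf := hP.defect φ n
  set F : V →₀ ℝ := ∑ j ∈ range n, (Pl hG o ^ j) φ
  set E := ∑ x ∈ sp hG F, gr hG F x with hEdef
  have hE1 : 2 * dg hG o * J * M ≤ E := by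
    rw [hEdef, sum_gr' hG o hd]
    have := mul_le_mul_of_nonneg_left hE (show (0 : ℝ) ≤ 4 * dg hG o by positivity)
    linarith
  have hEpos : 0 < E := lt_of_lt_of_le (by positivity) hE1
  have hL1 : ∑ x ∈ sp hG F, (lap hG F x) ^ 2 ≤ (2 * dg hG o) ^ 2 * M := by
    rw [sum_lap hG o hd, ← hm0]
    gcongr
  have hsq : (1 / √E) ^ 2 = 1 / E := by
    rw [div_pow, one_pow, Real.sq_sqrt hEpos.le]
  have hgs : ∀ x, gr hG ((1 / √E) • (F : V → ℝ)) x = 1 / E * gr hG F x := by
    intro x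
    unfold gr
    rw [Finset.mul_sum, ← hsq]
    refine Finset.sum_congr rfl fun y _ => ?_
    simp only [Pi.smul_apply, smul_eq_mul]
    ring
  refine ⟨(1 / √E) • (F : V → ℝ), sp hG F, ?_, ?_, ?_⟩
  · intro x hx
    refine ⟨?_, ?_, ?_⟩
    · rw [Pi.smul_apply, (not_sp hG hx).1, smul_zero]
    · rw [hgs, gr_zero hG hx, mul_zero]
    · rw [lap_smul, lap_zero hG hx, mul_zero]
  · simp only [hgs]
    rw [← Finset.mul_sum, ← hEdef]
    field_simp
  · have : ∀ x, (lap hG ((1 / √E) • (F : V → ℝ)) x) ^ 2 = 1 / E * (lap hG F x) ^ 2 := by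
      intro x
      rw [lap_smul, mul_pow, hsq]
    simp only [this]
    rw [← Finset.mul_sum, one_div, inv_mul_le_iff₀ hEpos]
    refine hL1.trans ?_
    rw [div_lt_iff₀ hη] at hJ2
    have h1 : (2 * dg hG o : ℝ) ^ 2 * M = (2 * dg hG o * M) * (2 * dg hG o) := by ring
    rw [h1]
    calc (2 * dg hG o * M) * (2 * dg hG o) ≤ (2 * dg hG o * M) * (J * η) := by gcongr
      _ = (2 * dg hG o * J * M) * η := by ring
      _ ≤ E * η := by gcongr

end LOW

end Pool.H61.ST
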