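import Pool.Agent.H61.ST.Defs

set_option autoImplicit false

/-! Strict height structures (core: the two statements of module POIS are hypotheses). -/

namespace Pool.H61.ST

open Finset Pool.Agent.H61.SW Pool.H98.C

variable {V : Type} {G : SimpleGraph V} (hG : TG G)

/-- pairs: homomorphism and equivariant harmonic function -/
structure HP (Γ : Subgroup (G ≃g G)) (ψ : (G ≃g G) → ℤ) (u : V → ℝ) : Prop where
  mul : ∀ g ∈ Γ, ∀ h ∈ Γ, ψ (g * h) = ψ g + ψ h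
  equi : ∀ g ∈ Γ, ∀ x, u (g x) = u x + ψ g
  harm : ∀ x, lap hG u x = 0

/-- the function is locally constant at `x` -/
def Bad (G : SimpleGraph V) (u : V → ℝ) (x : V) : Prop := ∀ y, G.Adj x y → u y = u x

variable {hG}

lemma HP.add {Γ : Subgroup (G ≃g G)} {ψ ψ' : (G ≃g G) → ℤ} {u u' : V → ℝ}
    (h : HP hG Γ ψ u) (h' : HP hG Γ ψ' u') (n : ℤ) :
    HP hG Γ (fun g => ψ g + n * ψ' g) (fun x => u x + n * u' x) := by
  refine ⟨fun g hg k hk => ?_, fun g hg x => ?_, fun x => ?_⟩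
  · simp only [h.mul g hg k hk, h'.mul g hg k hk]; ring
  · simp only [h.equi g hg x, h'.equi g hg x]; push_cast; ring
  · have : (fun x => u x + n * u' x) = u + (n : ℝ) • u' := by
      ext x; simp
    rw [this, lap_add, lap_smul, h.harm, h'.harm]; simp

lemma HP.conj {Γ : Subgroup (G ≃g G)} (hn : Γ.Normal) {ψ : (G ≃g G) → ℤ} {u : V → ℝ}
    (h : HP hG Γ ψ u) (k : G ≃g G) :
    HP hG Γ (fun g => ψ (k * g * k⁻¹)) (fun x => u (k x)) := by
  refine ⟨fun g hg g' hg' => ?_, fun g hg x => ?_, fun x => ?_⟩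
  · rw [← h.mul _ (hn.conj_mem g hg k) _ (hn.conj_mem g' hg' k)]
    congr 1
    group
  · have h1 := h.equi _ (hn.conj_mem g hg k) (k x)
    have h2 : (k * g * k⁻¹ : G ≃g G) (k x) = k (g x) := by
      rw [RelIso.mul_apply, RelIso.mul_apply]
      congr 2
      exact RelIso.inv_apply_self k x
    rw [h2] at h1
    exact h1
  · have := lap_comp hG k u x
    rw [h.harm] at this
    exact this

lemma bad_conj (u : V → ℝ) (k : G ≃g G) (x : V) (h : Bad G (fun z => u (k z)) x) :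
    Bad G u (k x) := by
  intro y hy
  have h1 := h (k.symm y) (by
    rw [← k.map_adj_iff, k.apply_symm_apply]; exact hy)
  simpa using h1

lemma HP.bad_orbit {Γ : Subgroup (G ≃g G)} {ψ : (G ≃g G) → ℤ} {u : V → ℝ}
    (h : HP hG Γ ψ u) (g : G ≃g G) (hg : g ∈ Γ) (x : V) (hb : Bad G u (g x)) : Bad G u x := by
  intro y hy
  have h1 := hb (g y) (g.map_adj_iff.2 hy)
  rw [h.equi g hg, h.equi g hg] at h1
  linarith

lemma bad_comb {u u' : V → ℝ} {x : V} {n m : ℤ} (hnm : n ≠ m)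
    (h1 : Bad G (fun x => u x + n * u' x) x) (h2 : Bad G (fun x => u x + m * u' x) x) :
    Bad G u x ∧ Bad G u' x := by
  have hne : (n : ℝ) - m ≠ 0 := by
    rw [sub_ne_zero]; exact_mod_cast hnm
  have key : Bad G u' x := by
    intro y hy
    have a1 := h1 y hy
    have a2 := h2 y hy
    simp only at a1 a2
    have : ((n : ℝ) - m) * (u' y - u' x) = 0 := by linarith
    rcases mul_eq_zero.1 this with h | h
    · exact absurd h hne
    · linarith
  refine ⟨fun y hy => ?_, key⟩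
  have a1 := h1 y hy
  have a3 := key y hy
  simp only at a1
  rw [a3] at a1
  linarith

/-- simultaneous avoidance -/
lemma exists_good (Γ : Subgroup (G ≃g G)) (h0 : ∃ ψ u, HP hG Γ ψ u)
    (hx : ∀ x, ∃ ψ u, HP hG Γ ψ u ∧ ¬ Bad G u x) (S : Finset V) :
    ∃ ψ u, HP hG Γ ψ u ∧ ∀ x ∈ S, ¬ Bad G u x := by
  classical
  induction S using Finset.induction_on with
  | empty =>
    obtain ⟨ψ, u, h⟩ := h0
    exact ⟨ψ, u, h, by simp⟩
  | insert a S ha ih =>
    obtain ⟨ψ, u, h, hS⟩ := ih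
    obtain ⟨ψ', u', h', ha'⟩ := hx a
    -- for each `x` at most one bad integer
    have key : ∀ x ∈ insert a S, {n : ℤ | Bad G (fun x => u x + n * u' x) x}.Finite := by
      intro x hxS
      apply Set.Subsingleton.finite
      intro n hn m hm
      by_contra hnm
      obtain ⟨b1, b2⟩ := bad_comb hnm hn hm
      rcases Finset.mem_insert.1 hxS with rfl | hxS
      · exact ha' b2
      · exact hS x hxS b1
    have hfin : (⋃ x ∈ insert a S, {n : ℤ | Bad G (fun x => u x + n * u' x) x}).Finite :=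
      Set.Finite.biUnion (Finset.finite_toSet _) key
    obtain ⟨n, hn⟩ := hfin.exists_notMem
    refine ⟨_, _, h.add h' n, fun x hxS hb => hn ?_⟩
    simp only [Set.mem_iUnion]
    exact ⟨x, hxS, hb⟩

/-- finitely many orbits of a finite index subgroup -/
lemma exists_orbit_reps (hG : TG G) (o : V) (Γ : Subgroup (G ≃g G)) (hfi : Γ.FiniteIndex) :
    ∃ S : Finset V, ∀ x, ∃ y ∈ S, ∃ g ∈ Γ, g x = y := by
  classical
  have : Finite ((G ≃g G) ⧸ Γ) := Subgroup.finite_quotient_of_finiteIndex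
  have := Fintype.ofFinite ((G ≃g G) ⧸ Γ)
  refine ⟨Finset.univ.image fun q : (G ≃g G) ⧸ Γ => (q.out⁻¹ : G ≃g G) o, fun x => ?_⟩
  obtain ⟨k, hk⟩ := hG.tr o x
  -- `k⁻¹ = q.out * g` with `g ∈ Γ`
  let q : (G ≃g G) ⧸ Γ := QuotientGroup.mk (k⁻¹)
  refine ⟨(q.out⁻¹ : G ≃g G) o, Finset.mem_image_of_mem _ (Finset.mem_univ q),
    (q.out⁻¹ * k⁻¹ : G ≃g G), ?_, ?_⟩
  · exact QuotientGroup.eq.1 (by simp [q])
  · rw [RelIso.mul_apply]
    congr 1
    rw [← hk]
    exact RelIso.inv_apply_self k o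

theorem exists_HS_core (hG : TG G) (o : V)
    (hrep : ∀ (Γ₁ : Subgroup (G ≃g G)), Γ₁.Normal → Γ₁.FiniteIndex → ∀ (χ : (G ≃g G) → ℤ),
      (∀ g ∈ Γ₁, ∀ h ∈ Γ₁, χ (g * h) = χ g + χ h) →
      (∀ g ∈ Γ₁, ∀ x, g x = x → χ g = 0) →
      ∃ u : V → ℝ, (∀ g ∈ Γ₁, ∀ x, u (g x) = u x + χ g) ∧ ∀ x, lap hG u x = 0)
    (hconst : ∀ (Γ₁ : Subgroup (G ≃g G)), Γ₁.FiniteIndex → ∀ (u : V → ℝ),
      (∀ g ∈ Γ₁, ∀ x, u (g x) = u x) → (∀ x, lap hG u x = 0) → ∀ x y, u x = u y)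
    (Γ₁ : Subgroup (G ≃g G)) (hfi : Γ₁.FiniteIndex) (χ : (G ≃g G) → ℤ)
    (hmul : ∀ g ∈ Γ₁, ∀ h ∈ Γ₁, χ (g * h) = χ g + χ h) (hne : ∃ g ∈ Γ₁, χ g ≠ 0)
    (hst : ∀ g ∈ Γ₁, ∀ x, g x = x → χ g = 0) : Nonempty (HS G) := by
  classical
  set Γ := Γ₁.normalCore with hΓ
  have hle : Γ ≤ Γ₁ := Subgroup.normalCore_le _
  have hn : Γ.Normal := Subgroup.normalCore_normal _
  have hfi' : Γ.FiniteIndex := Subgroup.finiteIndex_normalCore _
  -- the restriction is not zero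
  obtain ⟨g₀, hg₀, hχ⟩ := hne
  have hone : χ 1 = 0 := by
    have := hmul 1 Γ₁.one_mem 1 Γ₁.one_mem
    rw [mul_one] at this
    linarith
  have hpow : ∀ n : ℕ, χ (g₀ ^ n) = n * χ g₀ := by
    intro n
    induction n with
    | zero => simp [hone]
    | succ n ih =>
      rw [pow_succ, hmul _ (Γ₁.pow_mem hg₀ n) _ hg₀, ih]
      push_cast; ring
  obtain ⟨n, hn0, hnΓ⟩ : ∃ n : ℕ, 0 < n ∧ g₀ ^ n ∈ Γ := by
    obtain ⟨n, h1, -, h2⟩ := Subgroup.exists_pow_mem_of_index_ne_zero hfi'.index_ne_zero g₀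
    exact ⟨n, h1, h2⟩
  obtain ⟨u₀, hu1, hu2⟩ := hrep Γ hn hfi' χ (fun g hg h hh => hmul g (hle hg) h (hle hh))
    (fun g hg x hx => hst g (hle hg) x hx)
  have hp0 : HP hG Γ χ u₀ := ⟨fun g hg h hh => hmul g (hle hg) h (hle hh), hu1, hu2⟩
  -- some vertex is good
  obtain ⟨x₀, hx₀⟩ : ∃ x, ¬ Bad G u₀ x := by
    by_contra hcon
    push Not at hcon
    have hc : ∀ x y, u₀ x = u₀ y := by
      intro x y
      obtain ⟨p⟩ := hG.conn.preconnected x y
      induction p with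
      | nil => rfl
      | cons h p ih => rw [← ih, hcon _ _ h]
    have h1 := hu1 _ hnΓ o
    rw [hc _ o, hpow] at h1
    have h2 : ((n * χ g₀ : ℤ) : ℝ) = 0 := by linarith
    have h3 : (n * χ g₀ : ℤ) = 0 := by exact_mod_cast h2
    rcases mul_eq_zero.1 h3 with h | h
    · have : n = 0 := by exact_mod_cast h
      omega
    · exact hχ h
  have hx : ∀ x, ∃ ψ u, HP hG Γ ψ u ∧ ¬ Bad G u x := by
    intro x
    obtain ⟨k, hk⟩ := hG.tr x x₀
    refine ⟨_, _, hp0.conj hn k, fun hb => hx₀ ?_⟩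
    rw [← hk]
    exact bad_conj u₀ k x hb
  obtain ⟨S, hS⟩ := exists_orbit_reps hG o Γ hfi'
  obtain ⟨ψ, u, hp, hgood⟩ := exists_good Γ ⟨_, _, hp0⟩ hx S
  have hall : ∀ x, ¬ Bad G u x := by
    intro x hb
    obtain ⟨y, hy, g, hg, rfl⟩ := hS x
    apply hgood _ hy
    have h1 : (g⁻¹ : G ≃g G) (g x) = x := RelIso.inv_apply_self g x
    exact hp.bad_orbit g⁻¹ (Γ.inv_mem hg) (g x) (by rw [h1]; exact hb)
  have hex : ∀ x, ∃ y, G.Adj x y ∧ u y - u x ≠ 0 := by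
    intro x
    have := hall x
    unfold Bad at this
    push Not at this
    obtain ⟨y, hy, hne⟩ := this
    exact ⟨y, hy, sub_ne_zero.2 hne⟩
  refine ⟨⟨Γ, hn, hfi', ψ, hp.mul, ?_, u, hp.equi, ?_, ?_⟩⟩
  · by_contra hcon
    push Not at hcon
    have hinv : ∀ g ∈ Γ, ∀ x, u (g x) = u x := by
      intro g hg x
      rw [hp.equi g hg, hcon g hg]; simp
    obtain ⟨y, hy, h⟩ := hex o
    exact h (sub_eq_zero.2 (hconst Γ hfi' u hinv hp.harm y o))
  · intro x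
    obtain ⟨y, hy, h⟩ := hex x
    obtain ⟨z, hz, hz0⟩ := Finset.exists_pos_of_sum_zero_of_exists_nonzero
      (fun y => u y - u x) (hp.harm x) ⟨y, (mem_nb hG).2 hy, h⟩
    exact ⟨z, (mem_nb hG).1 hz, by linarith⟩
  · intro x
    obtain ⟨y, hy, h⟩ := hex x
    obtain ⟨z, hz, hz0⟩ := Finset.exists_pos_of_sum_zero_of_exists_nonzero
      (fun y => -(u y - u x)) (by
        have := hp.harm x
        unfold lap at this
        rw [Finset.sum_neg_distrib, this, neg_zero]) ⟨y, (mem_nb hG).2 hy, neg_ne_zero.2 h⟩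
    exact ⟨z, (mem_nb hG).1 hz, by linarith⟩

end Pool.H61.ST
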