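import Pool.Agent.H61.ST.QiCore3
import Pool.Agent.H61.ST.StrCore
import Pool.Agent.H61.ST.Defs2

set_option autoImplicit false

/-! Module QI: lattice coordinates in the quadratic case. -/

namespace Pool.H61.ST

open Finset Pool.Agent.H61.SW Pool.H98.C

namespace Qi

section
variable {V : Type} {G : SimpleGraph V}

lemma chi_one (hs : HS G) : hs.χ 1 = 0 := by
  have h := hs.mul 1 hs.Γ.one_mem 1 hs.Γ.one_mem
  rw [mul_one] at h
  omega

lemma chi_inv (hs : HS G) {a : G ≃g G} (ha : a ∈ hs.Γ) : hs.χ a⁻¹ = -hs.χ a := by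
  have h := hs.mul a ha a⁻¹ (hs.Γ.inv_mem ha)
  rw [mul_inv_cancel, chi_one] at h
  omega

lemma chi_pow (hs : HS G) {a : G ≃g G} (ha : a ∈ hs.Γ) (n : ℕ) :
    hs.χ (a ^ n) = n * hs.χ a := by
  induction n with
  | zero => simp [chi_one]
  | succ n ih =>
    rw [pow_succ, hs.mul _ (hs.Γ.pow_mem ha n) _ ha, ih]
    push_cast; ring

lemma chi_zpow (hs : HS G) {a : G ≃g G} (ha : a ∈ hs.Γ) (n : ℤ) :
    hs.χ (a ^ n) = n * hs.χ a := by
  rcases le_total 0 n with hn | hn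
  · obtain ⟨m, rfl⟩ := Int.eq_ofNat_of_zero_le hn
    exact chi_pow hs ha m
  · obtain ⟨m, hm⟩ := Int.eq_ofNat_of_zero_le (neg_nonneg.2 hn)
    have h1 : n = -(m : ℤ) := by omega
    rw [h1, zpow_neg, chi_inv hs (hs.Γ.zpow_mem ha _), zpow_natCast, chi_pow hs ha]
    ring

/-- kernel of the height homomorphism -/
def kr (hs : HS G) : Subgroup (G ≃g G) where
  carrier := {l | l ∈ hs.Γ ∧ hs.χ l = 0}
  mul_mem' := fun {a b} ha hb => ⟨hs.Γ.mul_mem ha.1 hb.1, by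
    rw [hs.mul a ha.1 b hb.1, ha.2, hb.2]; rfl⟩
  one_mem' := ⟨hs.Γ.one_mem, chi_one hs⟩
  inv_mem' := fun {a} ha => ⟨hs.Γ.inv_mem ha.1, by rw [chi_inv hs ha.1, ha.2]; rfl⟩

lemma mem_kr (hs : HS G) {l : G ≃g G} : l ∈ kr hs ↔ l ∈ hs.Γ ∧ hs.χ l = 0 := Iff.rfl

lemma conj_mem (hs : HS G) {g l : G ≃g G} (hg : g ∈ hs.Γ) (hl : l ∈ kr hs) (j : ℤ) :
    g ^ (-j) * l * g ^ j ∈ kr hs := by
  have h1 := hs.Γ.zpow_mem hg (-j)
  have h2 := hs.Γ.zpow_mem hg j
  refine ⟨hs.Γ.mul_mem (hs.Γ.mul_mem h1 hl.1) h2, ?_⟩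
  rw [hs.mul _ (hs.Γ.mul_mem h1 hl.1) _ h2, hs.mul _ h1 _ hl.1, hl.2, chi_zpow hs hg,
    chi_zpow hs hg]
  ring

lemma orb_mem (hs : HS G) (x : V) {l : G ≃g G} (hl : l ∈ kr hs) : l x ∈ orbK hs x :=
  ⟨l, hl.1, hl.2, rfl⟩

lemma orb_act (hs : HS G) (x : V) {l : G ≃g G} (hl : l ∈ kr hs) {y : V} (hy : y ∈ orbK hs x) :
    l y ∈ orbK hs x := by
  obtain ⟨k, h1, h2, rfl⟩ := hy
  exact orb_mem hs x ((kr hs).mul_mem hl ⟨h1, h2⟩)

/-- the action of the kernel on the slab -/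
def slabIso (hG : TG G) (hs : HS G) (x : V) (C : ℕ) (l : G ≃g G) (hl : l ∈ kr hs) :
    slab hs x C ≃g slab hs x C where
  toFun y := ⟨l y, orb_act hs x hl y.2⟩
  invFun y := ⟨(l⁻¹ : G ≃g G) y, orb_act hs x ((kr hs).inv_mem hl) y.2⟩
  left_inv y := Subtype.ext (RelIso.inv_apply_self l y)
  right_inv y := Subtype.ext (RelIso.apply_inv_self l y)
  map_rel_iff' := by
    intro y z
    change ((⟨l y, orb_act hs x hl y.2⟩ : ↥(orbK hs x)) ≠ ⟨l z, orb_act hs x hl z.2⟩ ∧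
      G.dist (l y) (l z) ≤ C) ↔ (y ≠ z ∧ G.dist (y : V) z ≤ C)
    rw [dist_iso hG.conn l]
    constructor
    · rintro ⟨h1, h2⟩
      exact ⟨fun h => h1 (by rw [h]), h2⟩
    · rintro ⟨h1, h2⟩
      refine ⟨fun h => h1 ?_, h2⟩
      have h3 : l (y : V) = l (z : V) := congrArg Subtype.val h
      exact Subtype.ext (l.injective h3)

lemma dist_slab (hG : TG G) (hs : HS G) (x : V) (C : ℕ) (hT : TG (slab hs x C))
    (y z : ↥(orbK hs x)) : G.dist (y : V) z ≤ C * (slab hs x C).dist y z := by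
  obtain ⟨p, hp⟩ := hT.conn.exists_walk_length_eq_dist y z
  rw [← hp]
  clear hp
  induction p with
  | nil => simp
  | cons h p ih =>
    rename_i u v w
    have h1 : G.dist (u : V) v ≤ C := h.2
    have h2 := hG.tri (u : V) v w
    rw [SimpleGraph.Walk.length_cons, mul_add, mul_one]
    omega

/-- heights are Lipschitz -/
lemma exists_lip (hG : TG G) (hs : HS G) (x : V) :
    ∃ Lp : ℝ, 0 ≤ Lp ∧ ∀ y z, |hs.u y - hs.u z| ≤ Lp * G.dist y z := by
  classical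
  obtain ⟨S, hS⟩ := exists_orbit_reps hG x hs.Γ hs.fi
  obtain ⟨Lp, hLp⟩ : ∃ Lp : ℝ, Lp = ∑ y ∈ S, ∑ z ∈ nb hG y, |hs.u y - hs.u z| := ⟨_, rfl⟩
  have hL0 : 0 ≤ Lp := by
    rw [hLp]
    exact Finset.sum_nonneg fun _ _ => Finset.sum_nonneg fun _ _ => abs_nonneg _
  have hadj : ∀ y z, G.Adj y z → |hs.u y - hs.u z| ≤ Lp := by
    intro y z hyz
    obtain ⟨y₀, hy₀, g, hg, hgy⟩ := hS y
    have h1 : |hs.u y - hs.u z| = |hs.u y₀ - hs.u (g z)| := by
      rw [← hgy, hs.equi g hg, hs.equi g hg]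
      congr 1; ring
    rw [h1, hLp]
    have h2 : g z ∈ nb hG y₀ := by
      rw [mem_nb, ← hgy]
      exact g.map_adj_iff.2 hyz
    refine le_trans ?_ (Finset.single_le_sum (f := fun y => ∑ z ∈ nb hG y, |hs.u y - hs.u z|)
      (fun _ _ => Finset.sum_nonneg fun _ _ => abs_nonneg _) hy₀)
    exact Finset.single_le_sum (f := fun z => |hs.u y₀ - hs.u z|) (fun _ _ => abs_nonneg _) h2
  refine ⟨Lp, hL0, fun y z => ?_⟩
  obtain ⟨p, hp⟩ := hG.conn.exists_walk_length_eq_dist y z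
  rw [← hp]
  clear hp
  induction p with
  | nil => simp
  | cons h p ih =>
    rename_i u v w
    have h1 := hadj u v h
    have h2 := abs_sub_le (hs.u u) (hs.u v) (hs.u w)
    rw [SimpleGraph.Walk.length_cons]
    push_cast
    rw [mul_add, mul_one]
    linarith

end

end Qi

section QI
variable {V : Type} {G : SimpleGraph V} (hG : TG G)

include hG in
theorem exists_lat (hs : HS G) (x : V) (hinf : (orbK hs x).Infinite)
    (hlin : ∃ A : ℝ, ∀ N : ℕ, ∃ r ≥ N,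
      ((Set.ncard {y | y ∈ orbK hs x ∧ G.dist x y ≤ r} : ℕ) : ℝ) ≤ A * r)
    (hsl : ∃ (C : ℕ) (f : ↥(orbK hs x) → ℤ) (C' : ℕ), TG (slab hs x C) ∧ QLn (slab hs x C) f C')
    (g : G ≃g G) (hg : g ∈ hs.Γ) (hχ : 0 < hs.χ g) :
    ∃ (s : G ≃g G) (C : ℕ), s ∈ hs.Γ ∧ hs.χ s = 0 ∧ LatQI G s g x C := by
  classical
  obtain ⟨C, f, C', hT, hf⟩ := hsl
  obtain ⟨N, hN⟩ : ∃ N : (G ≃g G) → ℕ, ∀ a, N a = G.dist x (a x) := ⟨_, fun _ => rfl⟩
  obtain ⟨φ, hφ⟩ : ∃ φ : (G ≃g G) → ℤ, ∀ (a : G ≃g G) (h : a x ∈ orbK hs x),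
      φ a = f ⟨a x, h⟩ := by
    refine ⟨fun a => if h : a x ∈ orbK hs x then f ⟨a x, h⟩ else 0, fun a h => ?_⟩
    simp only [h, dif_pos]
  have hN1 : N 1 = 0 := by
    rw [hN]
    change G.dist x x = 0
    exact SimpleGraph.dist_self
  have hmul : ∀ a b, N (a * b) ≤ N a + N b := by
    intro a b
    rw [hN, hN, hN, RelIso.mul_apply]
    have h1 := hG.tri x (a x) (a (b x))
    rwa [dist_iso hG.conn a x (b x)] at h1
  have hinv : ∀ a, N a⁻¹ = N a := by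
    intro a
    rw [hN, hN, ← dist_iso hG.conn a x ((a⁻¹ : G ≃g G) x)]
    have : a ((a⁻¹ : G ≃g G) x) = x := RelIso.apply_inv_self a x
    rw [this, SimpleGraph.dist_comm]
  have hNd : ∀ a b : G ≃g G, N (a⁻¹ * b) = G.dist (a x) (b x) := by
    intro a b
    rw [hN, RelIso.mul_apply, ← dist_iso hG.conn a x ((a⁻¹ : G ≃g G) (b x))]
    have : a ((a⁻¹ : G ≃g G) (b x)) = b x := RelIso.apply_inv_self a (b x)
    rw [this]
  have hφS : ∀ a (ha : a ∈ Qi.kr hs) b (hb : b ∈ Qi.kr hs),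
      |(|φ a - φ b|) - ((slab hs x C).dist ⟨a x, Qi.orb_mem hs x ha⟩
        ⟨b x, Qi.orb_mem hs x hb⟩ : ℤ)| ≤ C' := by
    intro a ha b hb
    rw [hφ a (Qi.orb_mem hs x ha), hφ b (Qi.orb_mem hs x hb)]
    exact hf _ _
  obtain ⟨s, hsL, C₀, hq1, hq2, hq3⟩ := Qi.core N hN1 hmul hinv (Qi.kr hs) g
    (fun l hl j => Qi.conj_mem hs hg hl j) φ (2 * C') (C * (C' + 1)) (by
      -- I1
      intro a ha b hb c hc
      have h1 := hφS (a * b) ((Qi.kr hs).mul_mem ha hb) (a * c) ((Qi.kr hs).mul_mem ha hc)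
      have h2 := hφS b hb c hc
      have h3 := dist_iso hT.conn (Qi.slabIso hG hs x C a ha) ⟨b x, Qi.orb_mem hs x hb⟩
        ⟨c x, Qi.orb_mem hs x hc⟩
      change (slab hs x C).dist ⟨(a * b) x, _⟩ ⟨(a * c) x, _⟩ = _ at h3
      rw [h3] at h1
      push_cast
      rw [abs_le] at *
      omega) (by
      -- I2
      intro a ha b hb
      rw [hNd]
      have h1 := Qi.dist_slab hG hs x C hT ⟨a x, Qi.orb_mem hs x ha⟩ ⟨b x, Qi.orb_mem hs x hb⟩
      have h2 := hφS a ha b hb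
      have h3 : ((slab hs x C).dist ⟨a x, Qi.orb_mem hs x ha⟩ ⟨b x, Qi.orb_mem hs x hb⟩ : ℤ) ≤
          (C' + 1) * (|φ a - φ b| + 1) := by
        have h4 := (abs_le.1 h2).1
        have h5 : 0 ≤ |φ a - φ b| := abs_nonneg _
        nlinarith
      have h4 : (G.dist (a x) (b x) : ℤ) ≤ C * ((slab hs x C).dist ⟨a x, Qi.orb_mem hs x ha⟩
          ⟨b x, Qi.orb_mem hs x hb⟩ : ℤ) := by exact_mod_cast h1
      push_cast
      calc (G.dist (a x) (b x) : ℤ) ≤ _ := h4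
        _ ≤ C * ((C' + 1) * (|φ a - φ b| + 1)) := mul_le_mul_of_nonneg_left h3 (by positivity)
        _ = _ := by ring) (by
      -- I3
      intro B
      by_contra hcon
      push Not at hcon
      apply hinf
      have hfin := ball_finite hT.lf hT.conn (⟨x, Qi.orb_mem hs x (Qi.kr hs).one_mem⟩ :
        ↥(orbK hs x)) (B + C').toNat
      refine (hfin.image Subtype.val).subset ?_
      intro y hy
      obtain ⟨l, h1, h2, rfl⟩ := hy
      refine ⟨⟨l x, Qi.orb_mem hs x ⟨h1, h2⟩⟩, ?_, rfl⟩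
      have h3 := hcon l ⟨h1, h2⟩
      have h4 := hφS l ⟨h1, h2⟩ 1 (Qi.kr hs).one_mem
      have h5 := (abs_le.1 h4).1
      have h6 : (slab hs x C).dist ⟨x, Qi.orb_mem hs x (Qi.kr hs).one_mem⟩
          ⟨l x, Qi.orb_mem hs x ⟨h1, h2⟩⟩ = (slab hs x C).dist
          ⟨l x, Qi.orb_mem hs x ⟨h1, h2⟩⟩ ⟨(1 : G ≃g G) x, Qi.orb_mem hs x (Qi.kr hs).one_mem⟩ :=
        SimpleGraph.dist_comm
      change (slab hs x C).dist ⟨x, _⟩ ⟨l x, _⟩ ≤ _
      rw [h6]
      omega) (by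
      -- I4
      intro s hs' hgrow
      obtain ⟨A, hA⟩ := hlin
      obtain ⟨A', hA'0, hAA'⟩ : ∃ A' : ℝ, 0 ≤ A' ∧ A ≤ A' := ⟨max A 0, le_max_right _ _,
        le_max_left _ _⟩
      refine ⟨1 / (2 * (A' + 1)), by positivity, ?_⟩
      by_contra hcon
      push Not at hcon
      obtain ⟨n₀, hn₀⟩ := hcon
      obtain ⟨η, hη⟩ : ∃ η : ℝ, η = 1 / (2 * (A' + 1)) := ⟨_, rfl⟩
      have hη0 : 0 < η := by rw [hη]; positivity
      rw [← hη] at hn₀
      have hn₀pos : 0 < n₀ := by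
        rcases Nat.eq_zero_or_pos n₀ with h | h
        · rw [h] at hn₀
          simp [hN1] at hn₀
        · exact h
      have hsub : ∀ m n : ℕ, N (s ^ (m + n)) ≤ N (s ^ m) + N (s ^ n) := fun m n => by
        rw [pow_add]; exact hmul _ _
      have hpw : ∀ q m : ℕ, N (s ^ (q * m)) ≤ q * N (s ^ m) := by
        intro q m
        induction q with
        | zero => simp [hN1]
        | succ q ih =>
          have h1 : (q + 1) * m = q * m + m := by ring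
          have h2 : (q + 1) * N (s ^ m) = q * N (s ^ m) + N (s ^ m) := by ring
          rw [h1, h2]
          exact (hsub _ _).trans (Nat.add_le_add_right ih _)
      obtain ⟨M, hM⟩ : ∃ M : ℕ, M = n₀ * N s := ⟨_, rfl⟩
      have hDu : ∀ n : ℕ, (N (s ^ n) : ℝ) ≤ η * n + M := by
        intro n
        have h1 : n = (n / n₀) * n₀ + n % n₀ := (Nat.div_add_mod' n n₀).symm
        have h2 : N (s ^ n) ≤ (n / n₀) * N (s ^ n₀) + (n % n₀) * N s := by
          calc N (s ^ n) = N (s ^ ((n / n₀) * n₀ + n % n₀)) := by rw [← h1]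
            _ ≤ N (s ^ ((n / n₀) * n₀)) + N (s ^ (n % n₀)) := hsub _ _
            _ ≤ _ := by
                refine Nat.add_le_add (hpw _ _) ?_
                have := hpw (n % n₀) 1
                rwa [mul_one, pow_one] at this
        have h3 : (n % n₀) * N s ≤ M := by
          rw [hM]; exact Nat.mul_le_mul_right _ (Nat.mod_lt _ hn₀pos).le
        have h4 : (N (s ^ n) : ℝ) ≤ ((n / n₀ : ℕ) : ℝ) * N (s ^ n₀) + M := by
          exact_mod_cast h2.trans (Nat.add_le_add_left h3 _)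
        have h5 : ((n / n₀ : ℕ) : ℝ) * n₀ ≤ n := by
          exact_mod_cast Nat.div_mul_le_self n n₀
        have h6 : ((n / n₀ : ℕ) : ℝ) * N (s ^ n₀) ≤ ((n / n₀ : ℕ) : ℝ) * (η * n₀) :=
          mul_le_mul_of_nonneg_left hn₀.le (by positivity)
        nlinarith [h4, h5, h6, hη0]
      -- choose a radius
      obtain ⟨R, hR⟩ := exists_nat_gt (2 * (A' + 1) * M + 1)
      obtain ⟨r, hr, hcount⟩ := hA R
      obtain ⟨k, hk⟩ : ∃ k : ℕ, k = ⌊(r - M : ℝ) / η⌋₊ := ⟨_, rfl⟩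
      have hrR : (R : ℝ) ≤ r := by exact_mod_cast hr
      have hM0 : (0 : ℝ) ≤ M := by positivity
      have hrM : (0 : ℝ) ≤ (r - M : ℝ) := by nlinarith
      have hkle : (k : ℝ) ≤ (r - M) / η := by
        rw [hk]; exact Nat.floor_le (by positivity)
      have hklt : (r - M : ℝ) / η < k + 1 := by rw [hk]; exact Nat.lt_floor_add_one _
      -- the points `s ^ n x`, `n < k + 1`
      have hfin : {y | y ∈ orbK hs x ∧ G.dist x y ≤ r}.Finite :=
        (ball_finite hG.lf hG.conn x r).subset fun y hy => hy.2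
      have hcard : k + 1 ≤ Set.ncard {y | y ∈ orbK hs x ∧ G.dist x y ≤ r} := by
        have h1 : (↑(Finset.univ.image fun i : Fin (k + 1) => (s ^ (i : ℕ)) x) : Set V) ⊆
            {y | y ∈ orbK hs x ∧ G.dist x y ≤ r} := by
          intro y hy
          rw [Finset.coe_image] at hy
          obtain ⟨i, -, rfl⟩ := hy
          refine ⟨Qi.orb_mem hs x ((Qi.kr hs).pow_mem hs' _), ?_⟩
          have h2 := hDu i
          rw [hN] at h2
          have h3 : ((i : ℕ) : ℝ) ≤ k := by exact_mod_cast Nat.lt_succ_iff.1 i.2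
          have h4 : η * ((i : ℕ) : ℝ) ≤ r - M := by
            have := h3.trans hkle
            rw [le_div_iff₀ hη0] at this
            linarith
          have h5 : (G.dist x ((s ^ (i : ℕ)) x) : ℝ) ≤ r := by linarith
          exact_mod_cast h5
        have h2 := Set.ncard_le_ncard h1 hfin
        rw [Set.ncard_coe_finset, Finset.card_image_of_injective, Finset.card_univ,
          Fintype.card_fin] at h2
        · exact h2
        · intro i j hij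
          simp only at hij
          have h3 : (s ^ (((j : ℕ) : ℤ) - ((i : ℕ) : ℤ))) x = x := by
            rw [sub_eq_neg_add, zpow_add, zpow_neg, zpow_natCast, zpow_natCast,
              RelIso.mul_apply, ← hij]
            exact RelIso.inv_apply_self _ _
          have h4 := hgrow (((j : ℕ) : ℤ) - ((i : ℕ) : ℤ))
          have h5 : φ (s ^ (((j : ℕ) : ℤ) - ((i : ℕ) : ℤ))) = φ 1 := by
            rw [hφ _ (Qi.orb_mem hs x ((Qi.kr hs).zpow_mem hs' _)),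
              hφ 1 (Qi.orb_mem hs x (Qi.kr hs).one_mem)]
            congr 1
            exact Subtype.ext h3
          rw [h5, sub_self, abs_zero] at h4
          have h6 := abs_nonpos_iff.1 h4
          exact Fin.ext (by omega)
      have h1 : ((k : ℝ) + 1) ≤ A * r := by
        have : ((k + 1 : ℕ) : ℝ) ≤ (Set.ncard {y | y ∈ orbK hs x ∧ G.dist x y ≤ r} : ℕ) := by
          exact_mod_cast hcard
        push_cast at this
        linarith
      have h2 : (r - M : ℝ) / η = 2 * (A' + 1) * (r - M) := by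
        rw [hη, div_div_eq_mul_div, div_one]; ring
      rw [h2] at hklt
      have h3 : A * r ≤ A' * r := mul_le_mul_of_nonneg_right hAA' (by positivity)
      nlinarith [h1, hklt, h3, hR, hrR, hA'0, hM0])
  obtain ⟨Lp, hLp0, hLp⟩ := Qi.exists_lip hG hs x
  obtain ⟨Lq, hLq⟩ := exists_nat_ge Lp
  have hu : ∀ i j : ℤ, hs.u ((s ^ i) ((g ^ j) x)) = hs.u x + j * hs.χ g := by
    intro i j
    rw [hs.equi _ (hs.Γ.zpow_mem hsL.1 i), hs.equi _ (hs.Γ.zpow_mem hg j),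
      Qi.chi_zpow hs hsL.1, Qi.chi_zpow hs hg, hsL.2]
    push_cast; ring
  -- finitely many orbits
  obtain ⟨S, hS⟩ := exists_orbit_reps hG x hs.Γ hs.fi
  obtain ⟨D₁, hD₁⟩ : ∃ D : ℕ, ∀ y ∈ S, G.dist y x ≤ D :=
    ⟨∑ y ∈ S, G.dist y x, fun y hy =>
      Finset.single_le_sum (f := fun y => G.dist y x) (fun _ _ => Nat.zero_le _) hy⟩
  -- residues of heights
  obtain ⟨D₂, hD₂⟩ : ∃ D : ℕ, ∀ γ ∈ hs.Γ, ∃ t ∈ hs.Γ, hs.χ g ∣ hs.χ γ - hs.χ t ∧ N t ≤ D := by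
    have h1 : ∀ r : Fin (hs.χ g).toNat, ∃ t, (∃ γ ∈ hs.Γ, hs.χ γ % hs.χ g = (r : ℕ)) →
        (t ∈ hs.Γ ∧ hs.χ t % hs.χ g = (r : ℕ)) := by
      intro r
      by_cases h : ∃ γ ∈ hs.Γ, hs.χ γ % hs.χ g = (r : ℕ)
      · obtain ⟨γ, h1, h2⟩ := h
        exact ⟨γ, fun _ => ⟨h1, h2⟩⟩
      · exact ⟨1, fun h' => absurd h' h⟩
    choose t ht using h1
    refine ⟨∑ r, N (t r), fun γ hγ => ?_⟩
    have h2 : 0 ≤ hs.χ γ % hs.χ g := Int.emod_nonneg _ hχ.ne'
    have h3 : hs.χ γ % hs.χ g < hs.χ g := Int.emod_lt_of_pos _ hχ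
    obtain ⟨r, hr⟩ := Int.eq_ofNat_of_zero_le h2
    have h4 : r < (hs.χ g).toNat := by omega
    obtain ⟨h5, h6⟩ := ht ⟨r, h4⟩ ⟨γ, hγ, hr⟩
    refine ⟨_, h5, ?_, Finset.single_le_sum (f := fun r => N (t r)) (fun _ _ => Nat.zero_le _)
      (Finset.mem_univ _)⟩
    exact Int.ModEq.dvd (by rw [Int.ModEq, h6, hr])
  have hpw : ∀ n : ℤ, (N (g ^ n) : ℤ) ≤ |n| * N g := by
    have h1 : ∀ n : ℕ, N (g ^ n) ≤ n * N g := by
      intro n
      induction n with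
      | zero => simp [hN1]
      | succ n ih =>
        rw [pow_succ, add_mul, one_mul]
        exact (hmul _ _).trans (Nat.add_le_add_right ih _)
    intro n
    rcases Int.natAbs_eq n with h | h
    · have h2 := h1 n.natAbs
      rw [h, zpow_natCast, Nat.abs_cast]
      exact_mod_cast h2
    · have h2 := h1 n.natAbs
      rw [h, zpow_neg, hinv, zpow_natCast, abs_neg, Nat.abs_cast]
      exact_mod_cast h2
  obtain ⟨Cf, hCf⟩ : ∃ Cf : ℕ, Cf = C₀ * (1 + Lq * N g) + Lq + (D₁ + D₂ + C₀) := ⟨_, rfl⟩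
  refine ⟨s, Cf, hsL.1, hsL.2, ⟨fun j => ?_, fun i j i' j' => ?_, fun v => ?_⟩⟩
  · have h1 := hNd (g ^ j) (s * g ^ j)
    rw [RelIso.mul_apply] at h1
    rw [← h1]
    have h2 : (g ^ j)⁻¹ * (s * g ^ j) = g ^ (-j) * s * g ^ j := by rw [zpow_neg, mul_assoc]
    rw [h2]
    have := hq1 j
    have h3 : C₀ ≤ Cf := by rw [hCf]; omega
    omega
  · obtain ⟨d, hd⟩ : ∃ d : ℕ, d = G.dist ((s ^ i) ((g ^ j) x)) ((s ^ i') ((g ^ j') x)) :=
      ⟨_, rfl⟩
    rw [← hd]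
    have h1 := hLp ((s ^ i) ((g ^ j) x)) ((s ^ i') ((g ^ j') x))
    rw [hu, hu, ← hd] at h1
    have h2 : (|j - j'| : ℝ) * hs.χ g ≤ Lq * d := by
      have h3 : (hs.u x + (j : ℝ) * hs.χ g - (hs.u x + (j' : ℝ) * hs.χ g)) =
          ((j : ℝ) - j') * hs.χ g := by ring
      have h4 : (0 : ℝ) < hs.χ g := by exact_mod_cast hχ
      rw [h3, abs_mul, abs_of_pos h4] at h1
      exact h1.trans (mul_le_mul_of_nonneg_right hLq (by positivity))
    have h3 : |j - j'| ≤ Lq * d := by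
      have h4 : |j - j'| * hs.χ g ≤ Lq * d := by exact_mod_cast h2
      have h5 : 0 ≤ |j - j'| := abs_nonneg _
      nlinarith
    have h4 : G.dist ((s ^ i') ((g ^ j') x)) ((s ^ i') ((g ^ j) x)) = N (g ^ (j - j')) := by
      rw [dist_iso hG.conn, ← hNd]
      congr 1
      rw [← zpow_neg, ← zpow_add]
      congr 1; ring
    have h5 := hpw (j - j')
    have h6 : G.dist ((s ^ i) ((g ^ j) x)) ((s ^ i') ((g ^ j) x)) =
        N (g ^ (-j) * s ^ (i' - i) * g ^ j) := by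
      have := hNd (s ^ i * g ^ j) (s ^ i' * g ^ j)
      rw [RelIso.mul_apply, RelIso.mul_apply] at this
      rw [← this]
      congr 1
      group
    have h7 := hG.tri ((s ^ i) ((g ^ j) x)) ((s ^ i') ((g ^ j') x)) ((s ^ i') ((g ^ j) x))
    rw [← hd, h4, h6] at h7
    have h8 := hq2 j (i' - i)
    have h9 : |i - i'| = |i' - i| := abs_sub_comm _ _
    have h10 : (N (g ^ (-j) * s ^ (i' - i) * g ^ j) : ℤ) ≤ d + N (g ^ (j - j')) := by
      exact_mod_cast h7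
    have h11 : |j - j'| * (N g : ℤ) ≤ Lq * d * N g :=
      mul_le_mul_of_nonneg_right h3 (by positivity)
    have h12 : (N (g ^ (-j) * s ^ (i' - i) * g ^ j) : ℤ) + 1 ≤ (1 + Lq * N g) * (d + 1) := by
      have : (0 : ℤ) ≤ Lq * N g := by positivity
      nlinarith
    have h13 : (C₀ : ℤ) * ((N (g ^ (-j) * s ^ (i' - i) * g ^ j) : ℤ) + 1) ≤
        C₀ * ((1 + Lq * N g) * (d + 1)) := mul_le_mul_of_nonneg_left h12 (by positivity)
    have h14 : (Cf : ℤ) = C₀ * (1 + Lq * N g) + Lq + (D₁ + D₂ + C₀) := by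
      rw [hCf]; push_cast; ring
    rw [h9, h14]
    have h15 : (0 : ℤ) ≤ (D₁ + D₂ + C₀ : ℤ) * (d + 1) := by positivity
    have h16 : (0 : ℤ) ≤ (Lq : ℤ) := by positivity
    nlinarith [h8, h13, h3, h15, h16]
  · obtain ⟨y, hy, γ₀, hγ₀, hv⟩ := hS v
    obtain ⟨γ, hγ⟩ : ∃ γ, γ = γ₀⁻¹ := ⟨_, rfl⟩
    have hγΓ : γ ∈ hs.Γ := hγ ▸ hs.Γ.inv_mem hγ₀
    have hvγ : v = γ y := by
      rw [hγ, ← hv]
      exact (RelIso.inv_apply_self γ₀ v).symm
    obtain ⟨t, ht, ⟨j, hj⟩, htN⟩ := hD₂ γ hγΓ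
    have hlΓ : γ * t⁻¹ ∈ hs.Γ := hs.Γ.mul_mem hγΓ (hs.Γ.inv_mem ht)
    have hl' : g ^ (-j) * (γ * t⁻¹) ∈ Qi.kr hs := by
      refine ⟨hs.Γ.mul_mem (hs.Γ.zpow_mem hg _) hlΓ, ?_⟩
      rw [hs.mul _ (hs.Γ.zpow_mem hg _) _ hlΓ, hs.mul _ hγΓ _ (hs.Γ.inv_mem ht),
        Qi.chi_inv hs ht, Qi.chi_zpow hs hg]
      linarith
    obtain ⟨n, hn⟩ := hq3 j _ hl'
    refine ⟨n, j, ?_⟩
    have h1 : G.dist ((s ^ n) ((g ^ j) x)) ((γ * t⁻¹ : G ≃g G) x) ≤ C₀ := by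
      have := hNd (s ^ n * g ^ j) (γ * t⁻¹)
      rw [RelIso.mul_apply (s ^ n)] at this
      rw [← this]
      have h2 : (s ^ n * g ^ j)⁻¹ * (γ * t⁻¹) =
          (g ^ (-j) * s ^ n * g ^ j)⁻¹ * (g ^ (-j) * (γ * t⁻¹)) := by group
      rw [h2]
      exact hn
    have h2 : G.dist (γ x) ((γ * t⁻¹ : G ≃g G) x) ≤ D₂ := by
      rw [← hNd, inv_mul_cancel_left, hinv]
      exact htN
    have h3 : G.dist v (γ x) ≤ D₁ := by
      rw [hvγ, dist_iso hG.conn]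
      exact hD₁ y hy
    have h4 := hG.tri v (γ x) ((s ^ n) ((g ^ j) x))
    have h5 := hG.tri (γ x) ((γ * t⁻¹ : G ≃g G) x) ((s ^ n) ((g ^ j) x))
    rw [SimpleGraph.dist_comm] at h1
    have h6 : D₁ + D₂ + C₀ ≤ Cf := by rw [hCf]; omega
    omega

end QI

end Pool.H61.ST
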