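import Pool.Agent.H61.ST.Defs2
import Pool.Agent.H61.ST.Hwd

set_option autoImplicit false

/-! Walks inside sets, columns and rows of the lattice, heights near lattice points. -/

namespace Pool.H61.ST

open Finset Pool.Agent.H61.SW Pool.H98.C

namespace Row

variable {V : Type} {G : SimpleGraph V}

/-- there is a walk from `y` to `z` inside `A` of length at most `n` -/
def Wk (G : SimpleGraph V) (A : Set V) (n : ℕ) (y z : V) : Prop :=
  ∃ l : List V, ch G y l ∧ en y l = z ∧ l.length ≤ n ∧ ∀ v ∈ y :: l, v ∈ A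

lemma Wk.mono {A B : Set V} {n m : ℕ} {y z : V} (h : Wk G A n y z) (hAB : ∀ v ∈ A, v ∈ B)
    (hnm : n ≤ m) : Wk G B m y z := by
  obtain ⟨l, h1, h2, h3, h4⟩ := h
  exact ⟨l, h1, h2, h3.trans hnm, fun v hv => hAB v (h4 v hv)⟩

lemma Wk.refl {A : Set V} {n : ℕ} {y : V} (hy : y ∈ A) : Wk G A n y y :=
  ⟨[], trivial, rfl, by simp, by simpa using hy⟩

lemma Wk.trans {A : Set V} {n m : ℕ} {y z w : V} (h : Wk G A n y z) (h' : Wk G A m z w) :
    Wk G A (n + m) y w := by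
  obtain ⟨l, h1, h2, h3, h4⟩ := h
  obtain ⟨l', h1', h2', h3', h4'⟩ := h'
  refine ⟨l ++ l', ?_, ?_, ?_, ?_⟩
  · rw [ch_append, h2]; exact ⟨h1, h1'⟩
  · rw [en_append, h2, h2']
  · simp; omega
  · intro v hv
    rw [← List.cons_append, List.mem_append] at hv
    rcases hv with hv | hv
    · exact h4 v hv
    · exact h4' v (List.mem_cons_of_mem _ hv)

lemma Wk.symm {A : Set V} {n : ℕ} {y z : V} (h : Wk G A n y z) : Wk G A n z y := by
  obtain ⟨l, h1, h2, h3, h4⟩ := h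
  refine ⟨rv y l, ?_, ?_, ?_, ?_⟩
  · rw [← h2]; exact ch_rv y l h1
  · rw [← h2]; exact en_rv y l
  · rw [length_rv]; exact h3
  · intro v hv
    rw [← h2] at hv
    exact h4 v (mem_rv.1 hv)

lemma Wk.map {A B : Set V} {n : ℕ} {y z : V} (h : Wk G A n y z) (φ : G ≃g G)
    (hAB : ∀ v ∈ A, φ v ∈ B) : Wk G B n (φ y) (φ z) := by
  obtain ⟨l, h1, h2, h3, h4⟩ := h
  refine ⟨l.map φ, (ch_map φ y l).2 h1, ?_, by simpa using h3, ?_⟩
  · rw [en_map, h2]
  · intro v hv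
    rw [← List.map_cons, List.mem_map] at hv
    obtain ⟨w, hw, rfl⟩ := hv
    exact hAB w (h4 w hw)

lemma wk_geo (hG : TG G) {C : ℕ} {y z : V} (h : G.dist y z ≤ C) :
    Wk G {v | G.dist v y ≤ C} C y z := by
  refine ⟨geo hG y z, ch_geo hG y z, en_geo hG y z, by rw [length_geo]; exact h, ?_⟩
  intro v hv
  show G.dist v y ≤ C
  rw [SimpleGraph.dist_comm]
  rcases List.mem_cons.1 hv with rfl | hv
  · simp
  · exact (mem_geo_dist hG hv).trans h

/-- loop erasure gives a one-element family -/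
lemma Wk.fm {A : Set V} {n : ℕ} {y z : V} (h : Wk G A n y z) (t : ℝ) (ht : 0 < t) (ht1 : t ≤ 1) :
    ∃ F : Finset (List V), Fm G y z A F ∧ t ^ n ≤ fw t F := by
  classical
  obtain ⟨l, h1, h2, h3, h4⟩ := h
  obtain ⟨l', a1, a2, a3, a4⟩ := loop_erase y l h1
  refine ⟨{l'}, ?_, ?_⟩
  · intro s hs
    rw [Finset.mem_singleton] at hs
    subst hs
    refine ⟨a1, a2.trans h2, ?_⟩
    intro v hv
    rcases List.mem_cons.1 hv with rfl | hv
    · exact h4 _ (by simp)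
    · exact h4 _ (List.mem_cons_of_mem _ (a4 v hv))
  · simp only [fw, Finset.sum_singleton]
    exact pow_le_pow_of_le_one ht.le ht1 (a3.trans h3)

/-- powers of an element of `Γ` -/
lemma u_zpow (hs : HS G) {h : G ≃g G} (hh : h ∈ hs.Γ) (n : ℤ) (z : V) :
    hs.u ((h ^ n) z) = hs.u z + n * hs.χ h := by
  induction n using Int.induction_on generalizing z with
  | zero => simp
  | succ n ih =>
    rw [zpow_add_one]
    show hs.u ((h ^ (n : ℤ)) (h z)) = _
    rw [ih, hs.equi h hh]; push_cast; ring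
  | pred n ih =>
    have h1 := ih (h.symm z)
    have h2 := hs.equi h hh (h⁻¹ z)
    have h3 : h (h⁻¹ z) = z := h.apply_symm_apply z
    rw [h3] at h2
    rw [zpow_sub_one]
    show hs.u ((h ^ (-(n : ℤ))) (h⁻¹ z)) = _
    have h4 := ih (h⁻¹ z)
    rw [h4]; push_cast at *; linarith

/-- lattice points -/
def pt (s g : G ≃g G) (x : V) (i j : ℤ) : V := (s ^ i) ((g ^ j) x)

lemma pt_shift (s g : G ≃g G) (x : V) (i j k : ℤ) : (s ^ k) (pt s g x i j) = pt s g x (k + i) j := by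
  unfold pt; rw [zpow_add]; rfl

lemma pt_zero (s g : G ≃g G) (x : V) : pt s g x 0 0 = x := by
  unfold pt; simp

lemma u_pt (hs : HS G) {s g : G ≃g G} (hsΓ : s ∈ hs.Γ) (hχs : hs.χ s = 0) (hg : g ∈ hs.Γ) (x : V)
    (i j : ℤ) : hs.u (pt s g x i j) = hs.u x + j * hs.χ g := by
  unfold pt
  rw [u_zpow hs hsΓ, u_zpow hs hg, hχs]; simp

lemma u_s (hs : HS G) {s : G ≃g G} (hsΓ : s ∈ hs.Γ) (hχs : hs.χ s = 0) (i : ℤ) (z : V) :
    hs.u ((s ^ i) z) = hs.u z := by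
  rw [u_zpow hs hsΓ, hχs]; simp

/-- one copy of `w₀` -/
lemma wk_one (hG : TG G) (hs : HS G) {s g : G ≃g G} {x : V} (hsΓ : s ∈ hs.Γ) (hχs : hs.χ s = 0)
    (hg : g ∈ hs.Γ) (hχ0 : 0 < hs.χ g) {F : Finset (List V)}
    (hF : Fm G x (g x) {z | z = g x ∨ (hs.u x ≤ hs.u z ∧ hs.u z < hs.u (g x))} F)
    {l₀ : ℕ} {w₀ : List V} (hw₀ : w₀ ∈ F) (hl₀ : w₀.length ≤ l₀) (i j : ℤ) :
    Wk G {v | G.dist v (pt s g x i j) ≤ l₀ ∧ hs.u x + j * hs.χ g ≤ hs.u v ∧
      (v = pt s g x i (j + 1) ∨ hs.u v < hs.u x + (j + 1) * hs.χ g)} l₀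
      (pt s g x i j) (pt s g x i (j + 1)) := by
  obtain ⟨h1, h2, h3⟩ := hF w₀ hw₀
  have hw : Wk G {z | G.dist x z ≤ l₀ ∧
      (z = g x ∨ (hs.u x ≤ hs.u z ∧ hs.u z < hs.u (g x)))} l₀ x (g x) :=
    ⟨w₀, h1.1, h2, hl₀, fun v hv => ⟨(dist_mem_ch h1.1 hv).trans hl₀, h3 v hv⟩⟩
  have e1 : (s ^ i * g ^ j) x = pt s g x i j := rfl
  have e2 : (s ^ i * g ^ j) (g x) = pt s g x i (j + 1) := by
    unfold pt; rw [zpow_add_one]; rfl
  have hu : ∀ z, hs.u ((s ^ i * g ^ j) z) = hs.u z + j * hs.χ g := by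
    intro z
    show hs.u ((s ^ i) ((g ^ j) z)) = _
    rw [u_zpow hs hsΓ, u_zpow hs hg, hχs]; simp
  have hw' := hw.map (s ^ i * g ^ j) (B := {v | G.dist v (pt s g x i j) ≤ l₀ ∧
      hs.u x + j * hs.χ g ≤ hs.u v ∧
      (v = pt s g x i (j + 1) ∨ hs.u v < hs.u x + (j + 1) * hs.χ g)}) ?_
  · rwa [e1, e2] at hw'
  · rintro v ⟨hv1, hv2⟩
    refine ⟨?_, ?_, ?_⟩
    · rw [← e1, dist_iso hG.conn, SimpleGraph.dist_comm]; exact hv1
    · rw [hu]
      rcases hv2 with rfl | hv2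
      · have h4 := hs.equi g hg x
        have h5 := hχ0
        have h6 : (0 : ℝ) < hs.χ g := by exact_mod_cast h5
        linarith
      · linarith [hv2.1]
    · rcases hv2 with rfl | hv2
      · left; exact e2
      · right; rw [hu]
        have := hv2.2
        rw [hs.equi g hg] at this
        linarith

/-- a column of copies of `w₀` -/
lemma wk_col (hG : TG G) (hs : HS G) {s g : G ≃g G} {x : V} (hsΓ : s ∈ hs.Γ) (hχs : hs.χ s = 0)
    (hg : g ∈ hs.Γ) (hχ0 : 0 < hs.χ g) {F : Finset (List V)}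
    (hF : Fm G x (g x) {z | z = g x ∨ (hs.u x ≤ hs.u z ∧ hs.u z < hs.u (g x))} F)
    {l₀ : ℕ} {w₀ : List V} (hw₀ : w₀ ∈ F) (hl₀ : w₀.length ≤ l₀) (i j : ℤ) (n : ℕ) :
    Wk G {v | (∃ k : ℤ, j ≤ k ∧ k ≤ j + n ∧ G.dist v (pt s g x i k) ≤ l₀) ∧
      hs.u x + j * hs.χ g ≤ hs.u v ∧
      (v = pt s g x i (j + n) ∨ hs.u v < hs.u x + (j + n) * hs.χ g)} (n * l₀)
      (pt s g x i j) (pt s g x i (j + n)) := by
  have hc : (0 : ℝ) < hs.χ g := by exact_mod_cast hχ0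
  induction n with
  | zero =>
    simp only [Nat.cast_zero, add_zero]
    refine Wk.refl ⟨⟨j, le_rfl, le_rfl, by simp⟩, ?_, Or.inl rfl⟩
    rw [u_pt hs hsΓ hχs hg]
  | succ n ih =>
    have h1 := wk_one hG hs hsΓ hχs hg hχ0 hF hw₀ hl₀ i (j + n)
    have e1 : j + ((n + 1 : ℕ) : ℤ) = j + n + 1 := by push_cast; ring
    rw [e1]
    have e2 : (n + 1) * l₀ = n * l₀ + l₀ := by ring
    rw [e2]
    refine (ih.mono ?_ le_rfl).trans (h1.mono ?_ le_rfl)
    · rintro v ⟨⟨k, k1, k2, k3⟩, hv2, hv3⟩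
      refine ⟨⟨k, k1, by omega, k3⟩, hv2, Or.inr ?_⟩
      push_cast
      rcases hv3 with rfl | hv3
      · rw [u_pt hs hsΓ hχs hg]; push_cast; nlinarith
      · nlinarith
    · rintro v ⟨hv1, hv2, hv3⟩
      refine ⟨⟨j + n, by omega, by omega, hv1⟩, ?_, ?_⟩
      · push_cast at hv2
        have : (0 : ℝ) ≤ n * hs.χ g := by positivity
        nlinarith
      · rcases hv3 with rfl | hv3
        · left; rfl
        · right; push_cast at *; nlinarith

/-- a horizontal path -/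
lemma wk_row (hG : TG G) {s g : G ≃g G} {x : V} {C : ℕ} (hL : LatQI G s g x C) (i j : ℤ) (n : ℕ) :
    Wk G {v | ∃ k : ℤ, i ≤ k ∧ k ≤ i + n ∧ G.dist v (pt s g x k j) ≤ C} (n * C)
      (pt s g x i j) (pt s g x (i + n) j) := by
  induction n with
  | zero =>
    simp only [Nat.cast_zero, add_zero]
    exact Wk.refl ⟨i, le_rfl, le_rfl, by simp⟩
  | succ n ih =>
    have h1 : G.dist (pt s g x (i + n) j) (pt s g x (i + n + 1) j) ≤ C := by
      have : pt s g x (i + n + 1) j = (s ^ (i + n)) (s ((g ^ j) x)) := by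
        unfold pt; rw [zpow_add_one]; rfl
      rw [this]
      unfold pt
      rw [dist_iso hG.conn]
      exact hL.q1 j
    have e1 : i + ((n + 1 : ℕ) : ℤ) = i + n + 1 := by push_cast; ring
    rw [e1]
    have e2 : (n + 1) * C = n * C + C := by ring
    rw [e2]
    refine (ih.mono ?_ le_rfl).trans ((wk_geo hG h1).mono ?_ le_rfl)
    · rintro v ⟨k, k1, k2, k3⟩
      exact ⟨k, k1, by omega, k3⟩
    · intro v hv
      exact ⟨i + n, by omega, by omega, hv⟩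

/-- heights near a lattice point -/
lemma u_near (hG : TG G) (hs : HS G) {s g : G ≃g G} {x : V} (hsΓ : s ∈ hs.Γ) (hχs : hs.χ s = 0)
    (hg : g ∈ hs.Γ) {Lp : ℕ} (hLp : ∀ y z, G.Adj y z → |hs.u z - hs.u y| ≤ Lp) {v : V} {i j : ℤ}
    {D : ℕ} (h : G.dist v (pt s g x i j) ≤ D) :
    |hs.u v - (hs.u x + j * hs.χ g)| ≤ Lp * D := by
  have h1 := lip_ch hLp (pt s g x i j) (geo hG (pt s g x i j) v) (ch_geo hG _ _)
  rw [en_geo, length_geo, u_pt hs hsΓ hχs hg] at h1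
  refine h1.trans ?_
  rw [SimpleGraph.dist_comm]
  exact mul_le_mul_of_nonneg_left (by exact_mod_cast h) (by positivity)

/-- points near different columns are different -/
lemma far_cols (hG : TG G) {s g : G ≃g G} {x : V} {C : ℕ} (hL : LatQI G s g x C) {v : V}
    {i j i' j' : ℤ} {D : ℕ} (h : G.dist v (pt s g x i j) ≤ D) (h' : G.dist v (pt s g x i' j') ≤ D) :
    i' - i ≤ C * (2 * D + 1) := by
  have h1 := hL.q2 i j i' j'
  have h2 : G.dist (pt s g x i j) (pt s g x i' j') ≤ 2 * D := by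
    have := hG.tri (pt s g x i j) v (pt s g x i' j')
    rw [SimpleGraph.dist_comm] at h
    omega
  have h3 : i' - i ≤ |i - i'| + |j - j'| := by
    have := neg_abs_le (i - i')
    have := abs_nonneg (j - j')
    omega
  have h4 : (C : ℤ) * (G.dist (pt s g x i j) (pt s g x i' j') + 1) ≤ C * (2 * D + 1) :=
    mul_le_mul_of_nonneg_left (by omega) (by positivity)
  exact h3.trans (h1.trans h4)

end Row

end Pool.H61.ST
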