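import Pool.Agent.H61.ST.Fms
import Pool.Agent.H61.ST.Row0

set_option autoImplicit false

/-! A row of parallel tubes joined by connectors. -/

namespace Pool.H61.ST

open Finset Pool.Agent.H61.SW Pool.H98.C

namespace Row



variable {V : Type} {G : SimpleGraph V}

lemma fm_mono {x y : V} {A B : Set V} {F : Finset (List V)} (h : Fm G x y A F)
    (hAB : ∀ v ∈ A, v ∈ B) : Fm G x y B F :=
  fun s hs => ⟨(h s hs).1, (h s hs).2.1, fun z hz => hAB z ((h s hs).2.2 z hz)⟩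

lemma fw_nonneg {t : ℝ} (ht : 0 < t) (F : Finset (List V)) : 0 ≤ fw t F :=
  Finset.sum_nonneg fun _ _ => by positivity

/-- tube over column `i` -/
def Tb (G : SimpleGraph V) (u : V → ℝ) (s g : G ≃g G) (x : V) (c : ℤ) (l₀ N : ℕ) (i : ℤ) : Set V :=
  {v | (∃ j : ℤ, 0 ≤ j ∧ j ≤ N ∧ G.dist v (pt s g x i j) ≤ l₀) ∧ u x ≤ u v ∧
    (v = pt s g x i N ∨ u v < u x + N * c)}

/-- family of walks in the tube over column `0` -/
lemma tube0 (hG : TG G) (hs : HS G) {s g : G ≃g G} {x : V} (hsΓ : s ∈ hs.Γ) (hχs : hs.χ s = 0)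
    (hg : g ∈ hs.Γ) (hχ0 : 0 < hs.χ g) {F : Finset (List V)}
    (hF : Fm G x (g x) {z | z = g x ∨ (hs.u x ≤ hs.u z ∧ hs.u z < hs.u (g x))} F)
    {l₀ : ℕ} (hl₀ : ∀ w ∈ F, w.length ≤ l₀) (t : ℝ) (N : ℕ) (hN : 1 ≤ N) :
    ∃ F₁, Fm G (pt s g x 0 0) (pt s g x 0 N) (Tb G hs.u s g x (hs.χ g) l₀ N 0) F₁ ∧
      fw t F₁ = (fw t F) ^ N := by
  have hc : (0 : ℝ) < hs.χ g := by exact_mod_cast hχ0
  have hgx := hs.equi g hg x
  have hF' : Fm G x (g x) {z | G.dist x z ≤ l₀ ∧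
      (z = g x ∨ (hs.u x ≤ hs.u z ∧ hs.u z < hs.u (g x)))} F := fun w hw =>
    ⟨(hF w hw).1, (hF w hw).2.1, fun z hz =>
      ⟨(dist_mem_ch (hF w hw).1.1 hz).trans (hl₀ w hw), (hF w hw).2.2 z hz⟩⟩
  obtain ⟨F₁, h1, h2⟩ := fm_pow t g hF' (by
    rintro k hk z ⟨-, hz⟩ w ⟨-, hw⟩ rfl
    have hu : hs.u ((g ^ k) w) = hs.u w + k * hs.χ g := by
      have := u_zpow hs hg k w
      simpa using this
    have hw' : hs.u x ≤ hs.u w := by
      rcases hw with rfl | hw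
      · linarith
      · exact hw.1
    have hk' : (1 : ℝ) ≤ k := by exact_mod_cast hk
    have h3 : (1 : ℝ) * hs.χ g ≤ k * hs.χ g := mul_le_mul_of_nonneg_right hk' hc.le
    rcases hz with hz | hz
    · refine ⟨?_, hz⟩
      rw [hz, hgx] at hu
      have h4 : (k : ℝ) * hs.χ g ≤ 1 * hs.χ g := by linarith
      have h5 : (k : ℝ) ≤ 1 := le_of_mul_le_mul_right h4 hc
      have : k ≤ 1 := by exact_mod_cast h5
      omega
    · exfalso
      have := hz.2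
      rw [hu, hgx] at this
      linarith) N
  refine ⟨F₁, ?_, h2⟩
  have e0 : pt s g x 0 0 = x := pt_zero s g x
  have eN : pt s g x 0 N = (g ^ N) x := by unfold pt; simp
  rw [e0, eN]
  refine fm_mono h1 ?_
  rintro v (rfl | ⟨k, hk, w, ⟨hw1, hw2⟩, rfl⟩)
  · refine ⟨⟨0, le_rfl, by positivity, by rw [e0]; simp⟩, le_rfl, Or.inr ?_⟩
    have : (1 : ℝ) ≤ N := by exact_mod_cast hN
    nlinarith
  · have hu : hs.u ((g ^ k) w) = hs.u w + k * hs.χ g := by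
      have := u_zpow hs hg k w
      simpa using this
    have hkx : pt s g x 0 k = (g ^ k) x := by unfold pt; simp
    refine ⟨⟨k, by positivity, by exact_mod_cast hk.le, ?_⟩, ?_, ?_⟩
    · rw [hkx, dist_iso hG.conn, SimpleGraph.dist_comm]; exact hw1
    · rw [hu]
      have : (0 : ℝ) ≤ k * hs.χ g := by positivity
      rcases hw2 with rfl | hw2
      · linarith
      · linarith [hw2.1]
    · have hk' : (k : ℝ) + 1 ≤ N := by exact_mod_cast hk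
      rcases hw2 with rfl | hw2
      · by_cases hkN : k + 1 = N
        · left
          rw [eN, ← hkN, pow_succ]; rfl
        · right
          have : (k : ℝ) + 2 ≤ N := by
            have : k + 2 ≤ N := by omega
            exact_mod_cast this
          rw [hu, hgx]; nlinarith
      · right
        rw [hu]
        have := hw2.2
        rw [hgx] at this
        nlinarith

/-- family of walks in the tube over column `i` -/
lemma tube (hG : TG G) (hs : HS G) {s g : G ≃g G} {x : V} (hsΓ : s ∈ hs.Γ) (hχs : hs.χ s = 0)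
    (hg : g ∈ hs.Γ) (hχ0 : 0 < hs.χ g) {F : Finset (List V)}
    (hF : Fm G x (g x) {z | z = g x ∨ (hs.u x ≤ hs.u z ∧ hs.u z < hs.u (g x))} F)
    {l₀ : ℕ} (hl₀ : ∀ w ∈ F, w.length ≤ l₀) (t : ℝ) (N : ℕ) (hN : 1 ≤ N) (i : ℤ) :
    ∃ F₁, Fm G (pt s g x i 0) (pt s g x i N) (Tb G hs.u s g x (hs.χ g) l₀ N i) F₁ ∧
      fw t F₁ = (fw t F) ^ N := by
  obtain ⟨F₁, h1, h2⟩ := tube0 hG hs hsΓ hχs hg hχ0 hF hl₀ t N hN
  obtain ⟨F₂, h3, h4⟩ := fm_map t h1 (s ^ i)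
  rw [pt_shift, pt_shift, add_zero] at h3
  refine ⟨F₂, fm_mono h3 ?_, h4.trans h2⟩
  rintro v ⟨w, ⟨⟨j, j1, j2, j3⟩, hw2, hw3⟩, rfl⟩
  refine ⟨⟨j, j1, j2, ?_⟩, ?_, ?_⟩
  · have : pt s g x i j = (s ^ i) (pt s g x 0 j) := by rw [pt_shift, add_zero]
    rw [this, dist_iso hG.conn]; exact j3
  · rw [u_s hs hsΓ hχs]; exact hw2
  · rcases hw3 with rfl | hw3
    · left; rw [pt_shift, add_zero]
    · right; rw [u_s hs hsΓ hχs]; exact hw3

/-- near a lattice point of a rectangle -/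
def Nr (G : SimpleGraph V) (s g : G ≃g G) (x : V) (i₀ i₁ j₀ j₁ : ℤ) (D : ℕ) : Set V :=
  {v | ∃ i j : ℤ, i₀ ≤ i ∧ i ≤ i₁ ∧ j₀ ≤ j ∧ j ≤ j₁ ∧ G.dist v (pt s g x i j) ≤ D}

/-- top connector -/
lemma top_conn (hG : TG G) (hs : HS G) {s g : G ≃g G} {x : V} {C : ℕ} (hL : LatQI G s g x C)
    (hsΓ : s ∈ hs.Γ) (hχs : hs.χ s = 0) (hg : g ∈ hs.Γ) (hχ0 : 0 < hs.χ g) {F : Finset (List V)}
    (hF : Fm G x (g x) {z | z = g x ∨ (hs.u x ≤ hs.u z ∧ hs.u z < hs.u (g x))} F)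
    {l₀ : ℕ} {w₀ : List V} (hw₀ : w₀ ∈ F) (hl₀ : w₀.length ≤ l₀)
    {Lp : ℕ} (hLp : ∀ y z, G.Adj y z → |hs.u z - hs.u y| ≤ Lp) (N b : ℕ) :
    Wk G {v | v ∈ Nr G s g x 0 b N (N + (Lp * C + 1 : ℕ)) (l₀ + C) ∧
      hs.u x + N * hs.χ g ≤ hs.u v} ((Lp * C + 1) * l₀ + b * C + (Lp * C + 1) * l₀)
      (pt s g x 0 N) (pt s g x b N) := by
  have hc : (1 : ℝ) ≤ hs.χ g := by exact_mod_cast hχ0
  set J := Lp * C + 1 with hJ
  have hJ' : (J : ℝ) = Lp * C + 1 := by rw [hJ]; push_cast; ring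
  have h1 := wk_col hG hs hsΓ hχs hg hχ0 hF hw₀ hl₀ 0 N J
  have h2 := wk_row hG hL 0 (N + J) b
  have h3 := (wk_col hG hs hsΓ hχs hg hχ0 hF hw₀ hl₀ b N J).symm
  rw [zero_add] at h2
  refine ((h1.mono ?_ le_rfl).trans (h2.mono ?_ le_rfl)).trans (h3.mono ?_ le_rfl)
  · rintro v ⟨⟨k, k1, k2, k3⟩, hv2, -⟩
    exact ⟨⟨0, k, le_rfl, by positivity, k1, k2, k3.trans (by omega)⟩, by push_cast at hv2; exact hv2⟩
  · rintro v ⟨k, k1, k2, k3⟩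
    refine ⟨⟨k, N + J, k1, by omega, by omega, le_rfl, k3.trans (by omega)⟩, ?_⟩
    have h4 := u_near hG hs hsΓ hχs hg hLp k3
    have h5 := (abs_le.1 h4).1
    push_cast at h5
    have : (J : ℝ) * 1 ≤ J * hs.χ g := mul_le_mul_of_nonneg_left hc (by positivity)
    nlinarith
  · rintro v ⟨⟨k, k1, k2, k3⟩, hv2, -⟩
    exact ⟨⟨b, k, by positivity, le_rfl, k1, k2, k3.trans (by omega)⟩, by push_cast at hv2; exact hv2⟩

/-- bottom connector -/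
lemma bot_conn (hG : TG G) (hs : HS G) {s g : G ≃g G} {x : V} {C : ℕ} (hL : LatQI G s g x C)
    (hsΓ : s ∈ hs.Γ) (hχs : hs.χ s = 0) (hg : g ∈ hs.Γ) (hχ0 : 0 < hs.χ g) {F : Finset (List V)}
    (hF : Fm G x (g x) {z | z = g x ∨ (hs.u x ≤ hs.u z ∧ hs.u z < hs.u (g x))} F)
    {l₀ : ℕ} {w₀ : List V} (hw₀ : w₀ ∈ F) (hl₀ : w₀.length ≤ l₀)
    {Lp : ℕ} (hLp : ∀ y z, G.Adj y z → |hs.u z - hs.u y| ≤ Lp) (b : ℕ) :
    Wk G {v | v ∈ Nr G s g x b (2 * b) (-(Lp * C + 1 : ℕ)) 0 (l₀ + C) ∧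
      (v = pt s g x b 0 ∨ v = pt s g x (2 * b) 0 ∨ hs.u v < hs.u x)}
      ((Lp * C + 1) * l₀ + b * C + (Lp * C + 1) * l₀)
      (pt s g x b 0) (pt s g x (2 * b) 0) := by
  have hc : (1 : ℝ) ≤ hs.χ g := by exact_mod_cast hχ0
  set J := Lp * C + 1 with hJ
  have hJ' : (J : ℝ) = Lp * C + 1 := by rw [hJ]; push_cast; ring
  have h1 := (wk_col hG hs hsΓ hχs hg hχ0 hF hw₀ hl₀ b (-J) J).symm
  have h2 := wk_row hG hL b (-J) b
  have h3 := wk_col hG hs hsΓ hχs hg hχ0 hF hw₀ hl₀ (2 * b) (-J) J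
  have e1 : (b : ℤ) + b = 2 * b := by ring
  have e2 : -(J : ℤ) + J = 0 := by ring
  have e3 : ((-(J : ℤ) : ℤ) : ℝ) + J = 0 := by push_cast; ring
  rw [e2, e3] at h1 h3
  rw [e1] at h2
  simp only [zero_mul, add_zero] at h1 h3
  refine ((h1.mono ?_ le_rfl).trans (h2.mono ?_ le_rfl)).trans (h3.mono ?_ le_rfl)
  · rintro v ⟨⟨k, k1, k2, k3⟩, -, hv⟩
    refine ⟨⟨b, k, le_rfl, by omega, k1, k2, k3.trans (by omega)⟩, ?_⟩
    rcases hv with hv | hv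
    · exact Or.inl hv
    · exact Or.inr (Or.inr hv)
  · rintro v ⟨k, k1, k2, k3⟩
    refine ⟨⟨k, -J, k1, by omega, le_rfl, by omega, k3.trans (by omega)⟩, Or.inr (Or.inr ?_)⟩
    have h4 := u_near hG hs hsΓ hχs hg hLp k3
    have h5 := (abs_le.1 h4).2
    push_cast at h5
    have : (J : ℝ) * 1 ≤ J * hs.χ g := mul_le_mul_of_nonneg_left hc (by positivity)
    nlinarith
  · rintro v ⟨⟨k, k1, k2, k3⟩, -, hv⟩
    refine ⟨⟨2 * b, k, by omega, le_rfl, k1, k2, k3.trans (by omega)⟩, ?_⟩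
    rcases hv with hv | hv
    · exact Or.inr (Or.inl hv)
    · exact Or.inr (Or.inr hv)

/-- hairpin -/
lemma hairpin (hG : TG G) (hs : HS G) {s g : G ≃g G} {x : V} {C : ℕ} (hL : LatQI G s g x C)
    (hsΓ : s ∈ hs.Γ) (hχs : hs.χ s = 0) (hg : g ∈ hs.Γ) (hχ0 : 0 < hs.χ g) {F : Finset (List V)}
    (hF : Fm G x (g x) {z | z = g x ∨ (hs.u x ≤ hs.u z ∧ hs.u z < hs.u (g x))} F)
    {l₀ : ℕ} (hl₀ : ∀ w ∈ F, w.length ≤ l₀) (hne : F.Nonempty)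
    {Lp : ℕ} (hLp : ∀ y z, G.Adj y z → |hs.u z - hs.u y| ≤ Lp)
    (t : ℝ) (ht : 0 < t) (ht1 : t ≤ 1) (N : ℕ) (hN : 1 ≤ N) (b : ℕ)
    (hb : C * (2 * (l₀ + C) + 1) < b) :
    ∃ F' : Finset (List V), Fm G (pt s g x 0 0) (pt s g x b 0)
      {v | v ∈ Nr G s g x 0 b 0 (N + (Lp * C + 1 : ℕ)) (l₀ + C) ∧ hs.u x ≤ hs.u v} F' ∧
      (fw t F) ^ N * t ^ ((Lp * C + 1) * l₀ + b * C + (Lp * C + 1) * l₀) * (fw t F) ^ N ≤
        fw t F' := by
  have hc : (0 : ℝ) < hs.χ g := by exact_mod_cast hχ0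
  obtain ⟨w₀, hw₀⟩ := hne
  obtain ⟨F₁, h1, h1w⟩ := tube hG hs hsΓ hχs hg hχ0 hF hl₀ t N hN 0
  obtain ⟨F₃', h3', h3w'⟩ := tube hG hs hsΓ hχs hg hχ0 hF hl₀ t N hN b
  obtain ⟨F₃, h3, h3w⟩ := fm_rev t h3'
  rw [h3w'] at h3w
  obtain ⟨F₂, h2, h2w⟩ := (top_conn hG hs hL hsΓ hχs hg hχ0 hF hw₀ (hl₀ w₀ hw₀) hLp N b).fm t ht ht1
  have hNc : (0 : ℝ) < N * hs.χ g := by
    have : (1 : ℝ) ≤ N := by exact_mod_cast hN
    positivity
  obtain ⟨F₄, h4, h4w⟩ := fm_comb t h1 h2 (by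
    rintro v ⟨-, -, hv⟩ ⟨-, hv2⟩
    rcases hv with hv | hv
    · exact hv
    · linarith)
  obtain ⟨F₅, h5, h5w⟩ := fm_comb t h4 h3 (by
    rintro v hv ⟨⟨j, j1, j2, j3⟩, -, hv3⟩
    rcases hv with ⟨⟨i', i1, i2, i3⟩, -, -⟩ | ⟨-, hv⟩
    · exfalso
      have h6 := far_cols hG hL (D := l₀ + C) (i3.trans (by omega)) (j3.trans (by omega))
      have : (b : ℤ) - 0 < b := lt_of_le_of_lt h6 (by exact_mod_cast hb)
      omega
    · rcases hv3 with hv3 | hv3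
      · exact hv3
      · linarith)
  refine ⟨F₅, fm_mono h5 ?_, ?_⟩
  · rintro v ((⟨⟨j, j1, j2, j3⟩, hv2, -⟩ | ⟨⟨i, j, i1, i2, j1, j2, j3⟩, hv2⟩) |
      ⟨⟨j, j1, j2, j3⟩, hv2, -⟩)
    · exact ⟨⟨0, j, le_rfl, by positivity, j1, by omega, j3.trans (by omega)⟩, hv2⟩
    · exact ⟨⟨i, j, i1, i2, by omega, j2, j3⟩, by linarith⟩
    · exact ⟨⟨b, j, by positivity, le_rfl, j1, by omega, j3.trans (by omega)⟩, hv2⟩
  · rw [h5w, h4w, h1w, h3w]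
    have h0 := fw_nonneg (t := t) ht F
    gcongr

/-- one step of the row: hairpin and bottom connector -/
lemma step (hG : TG G) (hs : HS G) {s g : G ≃g G} {x : V} {C : ℕ} (hL : LatQI G s g x C)
    (hsΓ : s ∈ hs.Γ) (hχs : hs.χ s = 0) (hg : g ∈ hs.Γ) (hχ0 : 0 < hs.χ g) {F : Finset (List V)}
    (hF : Fm G x (g x) {z | z = g x ∨ (hs.u x ≤ hs.u z ∧ hs.u z < hs.u (g x))} F)
    {l₀ : ℕ} (hl₀ : ∀ w ∈ F, w.length ≤ l₀) (hne : F.Nonempty)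
    {Lp : ℕ} (hLp : ∀ y z, G.Adj y z → |hs.u z - hs.u y| ≤ Lp)
    (t : ℝ) (ht : 0 < t) (ht1 : t ≤ 1) (N : ℕ) (b : ℕ)
    (hb : C * (2 * (l₀ + C) + 1) < b) {F₁ : Finset (List V)} (hF₁ : Fm G (pt s g x 0 0) (pt s g x b 0)
      {v | v ∈ Nr G s g x 0 b 0 (N + (Lp * C + 1 : ℕ)) (l₀ + C) ∧ hs.u x ≤ hs.u v} F₁) :
    ∃ F' : Finset (List V), Fm G (pt s g x 0 0) (pt s g x (2 * b) 0)
      ({v | v ∈ Nr G s g x 0 b 0 (N + (Lp * C + 1 : ℕ)) (l₀ + C) ∧ hs.u x ≤ hs.u v} ∪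
        {v | v ∈ Nr G s g x b (2 * b) (-(Lp * C + 1 : ℕ)) 0 (l₀ + C) ∧
      (v = pt s g x b 0 ∨ v = pt s g x (2 * b) 0 ∨ hs.u v < hs.u x)}) F' ∧
      fw t F₁ * t ^ ((Lp * C + 1) * l₀ + b * C + (Lp * C + 1) * l₀) ≤ fw t F' := by
  obtain ⟨w₀, hw₀⟩ := hne
  obtain ⟨F₂, h2, h2w⟩ := (bot_conn hG hs hL hsΓ hχs hg hχ0 hF hw₀ (hl₀ w₀ hw₀) hLp b).fm t ht ht1
  obtain ⟨F₃, h3, h3w⟩ := fm_comb t hF₁ h2 (by
    rintro v ⟨⟨i, j, i1, i2, -, -, i3⟩, hv1⟩ ⟨-, hv2⟩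
    rcases hv2 with hv2 | rfl | hv2
    · exact hv2
    · exfalso
      have h6 := far_cols hG hL (D := l₀ + C) (v := pt s g x (2 * b) 0) i3
        (i' := 2 * b) (j' := 0) (by simp)
      have : (2 * b : ℤ) - i < b := lt_of_le_of_lt h6 (by exact_mod_cast hb)
      omega
    · linarith)
  refine ⟨F₃, h3, ?_⟩
  rw [h3w]
  exact mul_le_mul_of_nonneg_left h2w (fw_nonneg ht _)

/-- region of a hairpin and of a bottom connector -/
def SS (G : SimpleGraph V) (u : V → ℝ) (s g : G ≃g G) (x : V) (b N J Ce : ℕ) : Set V :=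
  {v | v ∈ Nr G s g x 0 b 0 (N + J) Ce ∧ u x ≤ u v} ∪
    {v | v ∈ Nr G s g x b (2 * b) (-J) 0 Ce ∧
      (v = pt s g x b 0 ∨ v = pt s g x (2 * b) 0 ∨ u v < u x)}

/-- translates of the step region by different amounts are almost disjoint -/
lemma disj (hG : TG G) (hs : HS G) {s g : G ≃g G} {x : V} {C : ℕ} (hL : LatQI G s g x C)
    (hsΓ : s ∈ hs.Γ) (hχs : hs.χ s = 0) {Ce N J : ℕ} (b : ℕ)
    (hb : C * (2 * Ce + 1) < b) (k : ℕ) (hk : 1 ≤ k) (z w : V)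
    (hz : z ∈ SS G hs.u s g x b N J Ce) (hw : w ∈ SS G hs.u s g x b N J Ce)
    (hzw : z = (s ^ (2 * b * k : ℤ)) w) : k = 1 ∧ z = pt s g x (2 * b) 0 := by
  have hk' : (1 : ℤ) ≤ k := by exact_mod_cast hk
  have hb0 : (0 : ℤ) < b := by omega
  have hbk : (2 * b : ℤ) * 1 ≤ 2 * b * k := mul_le_mul_of_nonneg_left hk' (by positivity)
  have hu : hs.u z = hs.u w := by rw [hzw, u_s hs hsΓ hχs]
  have key : ∀ i j i' j' : ℤ, G.dist w (pt s g x i j) ≤ Ce → G.dist z (pt s g x i' j') ≤ Ce →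
      2 * b * k + i - i' < b := by
    intro i j i' j' h1 h2
    have h3 : G.dist z (pt s g x (2 * b * k + i) j) ≤ Ce := by
      rw [← pt_shift, hzw, dist_iso hG.conn]; exact h1
    exact lt_of_le_of_lt (far_cols hG hL h2 h3) (by exact_mod_cast hb)
  rcases hw with ⟨⟨i, j, i1, i2, -, -, i3⟩, hw⟩ | ⟨⟨i, j, i1, i2, -, -, i3⟩, -⟩
  · rcases hz with ⟨⟨i', j', i1', i2', -, -, i3'⟩, hz⟩ | ⟨-, hz⟩
    · have := key i j i' j' i3 i3'
      omega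
    · rcases hz with hz | hz | hz
      · have := key i j b 0 i3 (by rw [hz]; simp)
        omega
      · refine ⟨?_, hz⟩
        have h4 := key i j (2 * b) 0 i3 (by rw [hz]; simp)
        by_contra hk1
        have hk2 : (2 : ℤ) ≤ k := by
          have : 2 ≤ k := by omega
          exact_mod_cast this
        have : (2 * b : ℤ) * 2 ≤ 2 * b * k := mul_le_mul_of_nonneg_left hk2 (by positivity)
        omega
      · rw [hu] at hz; linarith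
  · exfalso
    have hz' : ∃ i' j' : ℤ, i' ≤ 2 * b ∧ G.dist z (pt s g x i' j') ≤ Ce := by
      rcases hz with ⟨⟨i', j', i1', i2', -, -, i3'⟩, hz⟩ | ⟨⟨i', j', i1', i2', -, -, i3'⟩, hz⟩
      · exact ⟨i', j', by omega, i3'⟩
      · exact ⟨i', j', i2', i3'⟩
    obtain ⟨i', j', h1, h2⟩ := hz'
    have := key i j i' j' i3 h2
    omega

end Row

open Row in
theorem exists_row {V : Type} {G : SimpleGraph V} (hG : TG G) (hs : HS G) (s g : G ≃g G) (x : V)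
    (C : ℕ) (hL : LatQI G s g x C)
    (hsΓ : s ∈ hs.Γ) (hχs : hs.χ s = 0) (hg : g ∈ hs.Γ) (hχ : 0 < hs.χ g)
    (F : Finset (List V))
    (hF : Fm G x (g x) {z | z = g x ∨ (hs.u x ≤ hs.u z ∧ hs.u z < hs.u (g x))} F)
    (t : ℝ) (ht : 0 < t) (ht1 : t ≤ 1) (hw : 2 ≤ fw t F) :
    ∃ Ce J b₀ : ℕ, ∀ b ≥ b₀, ∀ M ≥ 1, ∃ c : ℕ, ∀ N ≥ 1, ∃ F' : Finset (List V),
      Fm G x ((s ^ ((2 * M - 1) * b : ℕ)) x)
        (RowReg G hs.u s g x Ce J b ((2 * M - 1) * b) N) F' ∧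
      (2 : ℝ) ^ (2 * M * N) * t ^ c ≤ fw t F' := by
  classical
  obtain ⟨Lp, hLp⟩ := exists_lip hG hs
  set l₀ : ℕ := F.sup List.length with hl₀d
  have hl₀ : ∀ w ∈ F, w.length ≤ l₀ := fun w hw => Finset.le_sup (f := List.length) hw
  have hne : F.Nonempty := by
    rw [Finset.nonempty_iff_ne_empty]
    rintro rfl
    simp [fw] at hw
    linarith
  refine ⟨l₀ + C, Lp * C + 1, C * (2 * (l₀ + C) + 1) + 1, fun b hb M hM => ?_⟩
  have hb' : C * (2 * (l₀ + C) + 1) < b := hb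
  obtain ⟨m, rfl⟩ : ∃ m, M = m + 1 := ⟨M - 1, by omega⟩
  set c₀ : ℕ := (Lp * C + 1) * l₀ + b * C + (Lp * C + 1) * l₀ with hc₀
  refine ⟨2 * c₀ * m + c₀, fun N hN => ?_⟩
  obtain ⟨H, hH, hHw⟩ := hairpin hG hs hL hsΓ hχs hg hχ hF hl₀ hne hLp t ht ht1 N hN b hb'
  obtain ⟨S, hS, hSw⟩ := step hG hs hL hsΓ hχs hg hχ hF hl₀ hne hLp t ht ht1 N b hb' hH
  have hpow : ∀ (k : ℕ) (z : V), ((s ^ (2 * b : ℤ)) ^ k) z = (s ^ (2 * b * k : ℤ)) z := by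
    intro k z
    rw [zpow_mul s (2 * b : ℤ) (k : ℤ), zpow_natCast]
  have hS' : Fm G (pt s g x 0 0) ((s ^ (2 * b : ℤ)) (pt s g x 0 0))
      (SS G hs.u s g x b N (Lp * C + 1) (l₀ + C)) S := by
    rw [pt_shift, add_zero]; exact hS
  obtain ⟨P, hP, hPw⟩ := fm_pow t (s ^ (2 * b : ℤ)) hS' (by
    intro k hk z hz w hw' hzw
    rw [hpow] at hzw
    have := disj hG hs hL hsΓ hχs b hb' k hk z w hz hw' hzw
    rw [pt_shift, add_zero]
    exact this) m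
  obtain ⟨Q, hQ, hQw⟩ := fm_map t hH ((s ^ (2 * b : ℤ)) ^ m)
  have hx0 : pt s g x 0 0 ∈ {v | v ∈ Nr G s g x 0 b 0 (N + (Lp * C + 1 : ℕ)) (l₀ + C) ∧
      hs.u x ≤ hs.u v} := by
    refine ⟨⟨0, 0, le_rfl, by positivity, le_rfl, by positivity, by simp⟩, ?_⟩
    rw [pt_zero]
  obtain ⟨R, hR, hRw⟩ := fm_comb t hP hQ (by
    rintro z hz ⟨w', hw', rfl⟩
    rcases hz with hz | ⟨k, hk, w, hw'', hz⟩
    · rcases Nat.eq_zero_or_pos m with rfl | hm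
      · rw [hz]; simp
      · exfalso
        rw [hpow] at hz
        have h1 := disj hG hs hL hsΓ hχs b hb' m hm (pt s g x 0 0) w' (Or.inl hx0) (Or.inl hw')
          hz.symm
        have h2 := far_cols hG hL (D := l₀ + C) (v := pt s g x 0 0) (i := 0) (j := 0)
          (i' := 2 * b) (j' := 0) (by simp) (by rw [← h1.2]; simp)
        have : (2 * b : ℤ) - 0 < b := lt_of_le_of_lt h2 (by exact_mod_cast hb')
        omega
    · have h1 : w = ((s ^ (2 * b : ℤ)) ^ (m - k)) w' := by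
        have h2 : ((s ^ (2 * b : ℤ)) ^ m) w' =
            ((s ^ (2 * b : ℤ)) ^ k) (((s ^ (2 * b : ℤ)) ^ (m - k)) w') := by
          rw [← Nat.add_sub_cancel' hk.le, pow_add, Nat.add_sub_cancel_left]; rfl
        rw [h2] at hz
        exact (((s ^ (2 * b : ℤ)) ^ k).injective hz).symm
      rw [hpow] at h1
      have h3 := disj hG hs hL hsΓ hχs b hb' (m - k) (by omega) w w' hw'' (Or.inl hw')
        (by rw [h1])
      have hmk : m = k + 1 := by omega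
      rw [hz, h3.2, hmk, pow_succ]
      show ((s ^ (2 * b : ℤ)) ^ k) _ = ((s ^ (2 * b : ℤ)) ^ k) ((s ^ (2 * b : ℤ)) (pt s g x 0 0))
      rw [pt_shift, add_zero])
  refine ⟨R, ?_, ?_⟩
  · have e1 : pt s g x 0 0 = x := pt_zero s g x
    have e2 : ((s ^ (2 * b : ℤ)) ^ m) (pt s g x b 0) = (s ^ ((2 * (m + 1) - 1) * b : ℕ)) x := by
      rw [hpow, pt_shift]
      unfold pt
      have : ((2 * (m + 1) - 1 : ℕ)) = 2 * m + 1 := by omega
      rw [this, zpow_zero, ← zpow_natCast]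
      have h3 : (2 * b * m + b : ℤ) = (((2 * m + 1) * b : ℕ) : ℤ) := by push_cast; ring
      rw [h3]; rfl
    rw [e1] at hR
    rw [e2] at hR
    refine fm_mono hR ?_
    have hiB : (((2 * (m + 1) - 1) * b : ℕ) : ℤ) = 2 * b * m + b := by
      have : ((2 * (m + 1) - 1 : ℕ)) = 2 * m + 1 := by omega
      rw [this]; push_cast; ring
    have hshift : ∀ (k : ℕ) (w : V) (i j : ℤ), G.dist w (pt s g x i j) ≤ l₀ + C →
        G.dist (((s ^ (2 * b : ℤ)) ^ k) w) (pt s g x (2 * b * k + i) j) ≤ l₀ + C := by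
      intro k w i j h
      rw [hpow, ← pt_shift, dist_iso hG.conn]; exact h
    have hushift : ∀ (k : ℕ) (w : V), hs.u (((s ^ (2 * b : ℤ)) ^ k) w) = hs.u w := by
      intro k w
      rw [hpow, u_s hs hsΓ hχs]
    have hb0 : (0 : ℤ) ≤ b := by positivity
    rintro v ((rfl | ⟨k, hk, w, hw', rfl⟩) | ⟨w, ⟨⟨i, j, i1, i2, j1, j2, i3⟩, hw'⟩, rfl⟩)
    · refine ⟨⟨0, 0, le_rfl, by positivity, by omega, by positivity, ?_⟩, fun h => ?_⟩
      · show G.dist v (pt s g v 0 0) ≤ l₀ + C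
        rw [pt_zero]; simp
      · exact absurd h (lt_irrefl _)
    · have hkm : (k : ℤ) + 1 ≤ m := by exact_mod_cast hk
      have hbk : (2 * b : ℤ) * (k + 1) ≤ 2 * b * m := mul_le_mul_of_nonneg_left hkm (by positivity)
      have hbk0 : (0 : ℤ) ≤ 2 * b * k := by positivity
      rcases hw' with ⟨⟨i, j, i1, i2, j1, j2, i3⟩, hw'⟩ | ⟨⟨i, j, i1, i2, j1, j2, i3⟩, hw'⟩
      · refine ⟨⟨2 * b * k + i, j, by omega, ?_, by omega, j2, hshift k w i j i3⟩, fun h => ?_⟩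
        · rw [hiB]; nlinarith
        · rw [hushift] at h; linarith
      · refine ⟨⟨2 * b * k + i, j, by omega, ?_, j1, by omega, hshift k w i j i3⟩, fun h => ?_⟩
        · rw [hiB]; nlinarith
        · refine ⟨2 * b * k + i, j, by omega, ?_, j1, j2, hshift k w i j i3⟩
          rw [hiB]; nlinarith
    · have hbm0 : (0 : ℤ) ≤ 2 * b * m := by positivity
      refine ⟨⟨2 * b * m + i, j, by omega, ?_, by omega, j2, hshift m w i j i3⟩, fun h => ?_⟩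
      · rw [hiB]; omega
      · rw [hushift] at h; linarith
  · rw [hRw, hPw, hQw]
    have hf2 : (2 : ℝ) ^ N ≤ (fw t F) ^ N := pow_le_pow_left₀ (by norm_num) hw N
    have hHw' : (2 : ℝ) ^ N * t ^ c₀ * 2 ^ N ≤ fw t H := by
      refine le_trans ?_ hHw
      gcongr
    have hSw' : (2 : ℝ) ^ N * t ^ c₀ * 2 ^ N * t ^ c₀ ≤ fw t S := by
      refine le_trans ?_ hSw
      gcongr
    calc (2 : ℝ) ^ (2 * (m + 1) * N) * t ^ (2 * c₀ * m + c₀)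
        = ((2 : ℝ) ^ N * t ^ c₀ * 2 ^ N * t ^ c₀) ^ m * ((2 : ℝ) ^ N * t ^ c₀ * 2 ^ N) := by
          rw [show (2 * (m + 1) * N) = (N + N) * m + (N + N) by ring,
            show 2 * c₀ * m + c₀ = (c₀ + c₀) * m + c₀ by ring, pow_add, pow_mul, pow_add,
            pow_add t, pow_mul, pow_add]
          rw [show ((2 : ℝ) ^ N * t ^ c₀ * 2 ^ N * t ^ c₀) = (2 ^ N * 2 ^ N) * (t ^ c₀ * t ^ c₀) by
            ring, mul_pow]
          ring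
      _ ≤ fw t S ^ m * fw t H := mul_le_mul (pow_le_pow_left₀ (by positivity) hSw' m) hHw'
          (by positivity) (pow_nonneg (fw_nonneg ht S) m)

end Pool.H61.ST
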