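import Pool.Agent.H61.ST.QsupCore
import Pool.Agent.H61.ST.Row
import Pool.Agent.H61.ST.Leg

set_option autoImplicit false

/-! Module QSUP: superblocks in the quadratic case. -/

namespace Pool.H61.ST

open Finset Pool.Agent.H61.SW Pool.H98.C

variable {V : Type} {G : SimpleGraph V}

theorem quad_super (hG : TG G) (hs : HS G) (s g : G ≃g G) (x : V) (C : ℕ)
    (hL : LatQI G s g x C)
    (hsΓ : s ∈ hs.Γ) (hχs : hs.χ s = 0) (hg : g ∈ hs.Γ) (hχ : 0 < hs.χ g)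
    (F : Finset (List V))
    (hF : Fm G x (g x) {z | z = g x ∨ (hs.u x ≤ hs.u z ∧ hs.u z < hs.u (g x))} F)
    (t : ℝ) (ht : 0 < t) (ht1 : t ≤ 1) (hw : 2 ≤ fw t F) :
    ∃ p ρ : ℕ, 2 * ρ < p ∧ Super G t p ρ :=
  quad_super_of hG hs s g x C hL F hF t ht ht1 hw
    (exists_row hG hs s g x C hL hsΓ hχs hg hχ F hF t ht ht1 hw)
    (fun w₀ hw₀ Ce J K₀ => exists_legs hG hs s g x C hL hsΓ hχs hg hχ w₀ hw₀ Ce J K₀)

end Pool.H61.ST
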