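import Pool.Agent.H61.ST.Unim
import Pool.Agent.H61.ST.Defs2

set_option autoImplicit false

/-! The orbit of the kernel of the height homomorphism is coarsely connected (Milnor). -/

namespace Pool.H61.ST

open Finset Pool.Agent.H61.SW Pool.H98.C Filter

section KERN
variable {V : Type} {G : SimpleGraph V}

/-- the products of Milnor's argument -/
noncomputable def kQ (t l : G ≃g G) (s : Finset ℕ) : ℕ → (G ≃g G)
  | 0 => 1
  | n + 1 => t⁻¹ * (if n ∈ s then l else 1) * kQ t l s n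

/-- the subgroup generated by the conjugates `t ^ i a t ^ (-i)`, `i < n`, `a ∈ E` -/
def kA (t : G ≃g G) (E : Set (G ≃g G)) (n : ℕ) : Subgroup (G ≃g G) :=
  Subgroup.closure {g | ∃ i < n, ∃ a ∈ E, g = t ^ i * a * (t ^ i)⁻¹}

lemma kA_mono {t : G ≃g G} {E : Set (G ≃g G)} {m n : ℕ} (h : m ≤ n) : kA t E m ≤ kA t E n := by
  apply Subgroup.closure_mono
  rintro g ⟨i, hi, a, ha, rfl⟩
  exact ⟨i, by omega, a, ha, rfl⟩

lemma kA_le {t : G ≃g G} {E : Set (G ≃g G)} {n : ℕ} {L : Subgroup (G ≃g G)}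
    (h : ∀ i < n, ∀ a ∈ E, t ^ i * a * (t ^ i)⁻¹ ∈ L) : kA t E n ≤ L := by
  rw [kA, Subgroup.closure_le]
  rintro g ⟨i, hi, a, ha, rfl⟩
  exact h i hi a ha

lemma kQ_mem (t l : G ≃g G) {E : Set (G ≃g G)} (hl : l ∈ E) (s : Finset ℕ) (n : ℕ) :
    t ^ n * kQ t l s n ∈ kA t E n := by
  induction n with
  | zero => simp [kQ, one_mem]
  | succ n ih =>
    have h1 : t ^ (n + 1) * kQ t l s (n + 1) =
        (t ^ n * (if n ∈ s then l else 1) * (t ^ n)⁻¹) * (t ^ n * kQ t l s n) := by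
      simp only [kQ, pow_succ]
      group
    rw [h1]
    refine mul_mem ?_ (kA_mono (Nat.le_succ n) ih)
    split_ifs with h
    · exact Subgroup.subset_closure ⟨n, by omega, l, hl, rfl⟩
    · rw [mul_one, mul_inv_cancel]
      exact one_mem _

lemma kQ_collide (t l : G ≃g G) {E : Set (G ≃g G)} (hl : l ∈ E) (L : Subgroup (G ≃g G)) (x : V)
    (hlx : l x ≠ x) (hEL : ∀ i : ℕ, ∀ a ∈ E, t ^ i * a * (t ^ i)⁻¹ ∈ L)
    (hst : ∀ a ∈ L, a x = x → a ∈ E) (n : ℕ) :
    ∀ s s' : Finset ℕ, (∃ i < n, ¬ (i ∈ s ↔ i ∈ s')) → kQ t l s n x = kQ t l s' n x →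
      ∃ p < n, t ^ p * l * (t ^ p)⁻¹ ∈ kA t E p := by
  induction n with
  | zero => rintro s s' ⟨i, hi, -⟩; omega
  | succ n ih =>
    have key : ∀ s s' : Finset ℕ, n ∈ s → n ∉ s' → kQ t l s (n + 1) x = kQ t l s' (n + 1) x →
        ∃ p < n + 1, t ^ p * l * (t ^ p)⁻¹ ∈ kA t E p := by
      intro s s' h1 h2 h3
      have h4 : l (kQ t l s n x) = kQ t l s' n x := by
        simp only [kQ, h1, h2, if_true, if_false, mul_one, RelIso.mul_apply] at h3
        exact (t⁻¹).injective h3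
      set a : G ≃g G := (kQ t l s' n)⁻¹ * l * kQ t l s n with ha
      have hax : a x = x := by
        rw [ha, RelIso.mul_apply, RelIso.mul_apply, h4]
        exact (kQ t l s' n).symm_apply_apply x
      have hconj : t ^ n * l * (t ^ n)⁻¹ =
          (t ^ n * kQ t l s' n) * a * (t ^ n * kQ t l s n)⁻¹ := by
        rw [ha]; group
      have haL : a ∈ L := by
        have h5 : a = (t ^ n * kQ t l s' n)⁻¹ * (t ^ n * l * (t ^ n)⁻¹) * (t ^ n * kQ t l s n) := by
          rw [ha]; group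
        rw [h5]
        have h6 : kA t E n ≤ L := kA_le fun i _ a ha => hEL i a ha
        exact mul_mem (mul_mem (inv_mem (h6 (kQ_mem t l hl s' n))) (hEL n l hl))
          (h6 (kQ_mem t l hl s n))
      have haE : a ∈ E := hst a haL hax
      refine ⟨n, by omega, ?_⟩
      rcases Nat.eq_zero_or_pos n with h0 | h0
      · exfalso
        subst h0
        simp only [kQ] at h4
        exact hlx h4
      · rw [hconj]
        refine mul_mem (mul_mem (kQ_mem t l hl s' n) ?_) (inv_mem (kQ_mem t l hl s n))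
        exact Subgroup.subset_closure ⟨0, h0, a, haE, by simp⟩
    rintro s s' ⟨i, hi, hne⟩ heq
    by_cases hn : n ∈ s
    · by_cases hn' : n ∈ s'
      · have h3 : kQ t l s n x = kQ t l s' n x := by
          simp only [kQ, hn, hn', if_true, RelIso.mul_apply] at heq
          exact l.injective ((t⁻¹).injective heq)
        obtain ⟨p, hp1, hp2⟩ := ih s s' ⟨i, by
          rcases Nat.lt_succ_iff_lt_or_eq.1 hi with h | h
          · exact h
          · subst h; exact absurd (by simp [hn, hn']) hne, hne⟩ h3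
        exact ⟨p, by omega, hp2⟩
      · exact key s s' hn hn' heq
    · by_cases hn' : n ∈ s'
      · exact key s' s hn' hn heq.symm
      · have h3 : kQ t l s n x = kQ t l s' n x := by
          simp only [kQ, hn, hn', if_false, mul_one, RelIso.mul_apply] at heq
          exact (t⁻¹).injective heq
        obtain ⟨p, hp1, hp2⟩ := ih s s' ⟨i, by
          rcases Nat.lt_succ_iff_lt_or_eq.1 hi with h | h
          · exact h
          · subst h; exact absurd (by simp [hn, hn']) hne, hne⟩ h3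
        exact ⟨p, by omega, hp2⟩

variable (hG : TG G)

include hG in
lemma dist_mul_le (x : V) (a b : G ≃g G) :
    G.dist x ((a * b) x) ≤ G.dist x (a x) + G.dist x (b x) := by
  have h1 := hG.tri x (a x) ((a * b) x)
  rw [RelIso.mul_apply, dist_iso hG.conn a x (b x)] at h1
  exact h1

include hG in
lemma dist_inv (x : V) (a : G ≃g G) : G.dist x (a⁻¹ x) = G.dist x (a x) := by
  have h1 := dist_iso hG.conn a x (a⁻¹ x)
  have h2 : a (a⁻¹ x) = x := a.apply_symm_apply x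
  rw [h2, SimpleGraph.dist_comm] at h1
  exact h1.symm

include hG in
lemma kern_dist_pow_le (x : V) (a : G ≃g G) (n : ℕ) :
    G.dist x ((a ^ n) x) ≤ n * G.dist x (a x) := by
  induction n with
  | zero => simp
  | succ n ih =>
    rw [pow_succ]
    have h1 := dist_mul_le hG x (a ^ n) a
    rw [Nat.succ_mul]
    omega

include hG in
lemma dist_kQ_le (x : V) (t l : G ≃g G) (s : Finset ℕ) (c : ℕ) (hc : G.dist x (l x) ≤ c) (n : ℕ) :
    G.dist x (kQ t l s n x) ≤ n * (G.dist x (t x) + c) := by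
  induction n with
  | zero => simp [kQ]
  | succ n ih =>
    have h1 := dist_mul_le hG x (t⁻¹ * (if n ∈ s then l else 1)) (kQ t l s n)
    have h2 := dist_mul_le hG x t⁻¹ (if n ∈ s then l else 1)
    have h3 : G.dist x ((if n ∈ s then l else 1) x) ≤ c := by
      split_ifs
      · exact hc
      · simp
    rw [dist_inv hG] at h2
    rw [Nat.succ_mul]
    simp only [kQ]
    omega

include hG in
/-- conjugates by all nonnegative powers of `t` lie in the group generated by boundedly many -/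
lemma kern_side (t : G ≃g G) (L : Subgroup (G ≃g G)) (x : V) (c : ℕ)
    (hL : ∀ i : ℕ, ∀ a ∈ L, t ^ i * a * (t ^ i)⁻¹ ∈ L)
    (l₀ : G ≃g G) (hl₀ : l₀ ∈ L) (hl₀c : G.dist x (l₀ x) ≤ c) (hl₀x : l₀ x ≠ x) (n₀ : ℕ)
    (hn₀ : (bl hG x (n₀ * (G.dist x (t x) + c))).card < 2 ^ n₀) (j : ℕ) :
    ∀ l ∈ L, G.dist x (l x) ≤ c →
      t ^ j * l * (t ^ j)⁻¹ ∈ kA t {l | l ∈ L ∧ G.dist x (l x) ≤ c} n₀ := by
  classical
  set E : Set (G ≃g G) := {l | l ∈ L ∧ G.dist x (l x) ≤ c} with hE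
  induction j using Nat.strong_induction_on with
  | _ j ih =>
  have main : ∀ l ∈ L, G.dist x (l x) ≤ c → l x ≠ x → t ^ j * l * (t ^ j)⁻¹ ∈ kA t E n₀ := by
    intro l hl hlc hlx
    rcases lt_or_ge j n₀ with hj | hj
    · exact Subgroup.subset_closure ⟨j, hj, l, ⟨hl, hlc⟩, rfl⟩
    have hcol : ∃ s ∈ (Finset.range n₀).powerset, ∃ s' ∈ (Finset.range n₀).powerset, s ≠ s' ∧
        kQ t l s n₀ x = kQ t l s' n₀ x := by
      apply Finset.exists_ne_map_eq_of_card_lt_of_maps_to (t := bl hG x (n₀ * (G.dist x (t x) + c)))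
      · rw [Finset.card_powerset, Finset.card_range]
        exact hn₀
      · intro s _
        rw [Finset.mem_coe, mem_bl]
        exact dist_kQ_le hG x t l s c hlc n₀
    obtain ⟨s, hs, s', hs', hne, heq⟩ := hcol
    rw [Finset.mem_powerset] at hs hs'
    have hdiff : ∃ i < n₀, ¬ (i ∈ s ↔ i ∈ s') := by
      by_contra hcon
      push Not at hcon
      apply hne
      ext i
      by_cases hi : i < n₀
      · exact hcon i hi
      · constructor
        · intro h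
          exact absurd (Finset.mem_range.1 (hs h)) hi
        · intro h
          exact absurd (Finset.mem_range.1 (hs' h)) hi
    obtain ⟨p, hp, hp2⟩ := kQ_collide t l (E := E) ⟨hl, hlc⟩ L x hlx
      (fun i a ha => hL i a ha.1) (fun a ha hax => ⟨ha, by rw [hax]; simp⟩) n₀ s s' hdiff heq
    have h1 : kA t E p ≤ (kA t E n₀).comap (MulAut.conj (t ^ (j - p))).toMonoidHom := by
      refine kA_le fun i hi a ha => ?_
      have h2 := ih (j - p + i) (by omega) a ha.1 ha.2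
      rw [Subgroup.mem_comap]
      have h3 : (MulAut.conj (t ^ (j - p))).toMonoidHom (t ^ i * a * (t ^ i)⁻¹) =
          t ^ (j - p + i) * a * (t ^ (j - p + i))⁻¹ := by
        simp only [MulEquiv.toMonoidHom_eq_coe, MonoidHom.coe_coe, MulAut.conj_apply, pow_add]
        group
      rw [h3]
      exact h2
    have h2 := h1 hp2
    rw [Subgroup.mem_comap] at h2
    have h3 : (MulAut.conj (t ^ (j - p))).toMonoidHom (t ^ p * l * (t ^ p)⁻¹) =
        t ^ j * l * (t ^ j)⁻¹ := by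
      have h4 : t ^ j = t ^ (j - p) * t ^ p := by
        rw [← pow_add]
        congr 1
        omega
      simp only [MulEquiv.toMonoidHom_eq_coe, MonoidHom.coe_coe, MulAut.conj_apply, h4]
      group
    rw [h3] at h2
    exact h2
  intro l hl hlc
  by_cases hlx : l x = x
  · have h1 := main l₀ hl₀ hl₀c hl₀x
    have h2 := main (l₀ * l) (mul_mem hl₀ hl) (by rw [RelIso.mul_apply, hlx]; exact hl₀c)
      (by rw [RelIso.mul_apply, hlx]; exact hl₀x)
    have h3 : t ^ j * l * (t ^ j)⁻¹ =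
        (t ^ j * l₀ * (t ^ j)⁻¹)⁻¹ * (t ^ j * (l₀ * l) * (t ^ j)⁻¹) := by group
    rw [h3]
    exact mul_mem (inv_mem h1) h2
  · exact main l hl hlc hlx

/-- the kernel of the height homomorphism -/
def kerS (hs : HS G) : Subgroup (G ≃g G) where
  carrier := {l | l ∈ hs.Γ ∧ hs.χ l = 0}
  mul_mem' := by
    rintro a b ⟨h1, h2⟩ ⟨h3, h4⟩
    exact ⟨mul_mem h1 h3, by rw [hs.mul a h1 b h3, h2, h4, add_zero]⟩
  one_mem' := by
    refine ⟨one_mem _, ?_⟩
    have h1 := hs.mul 1 (one_mem _) 1 (one_mem _)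
    rw [mul_one] at h1
    omega
  inv_mem' := by
    rintro a ⟨h1, h2⟩
    refine ⟨inv_mem h1, ?_⟩
    have h3 := hs.mul a h1 a⁻¹ (inv_mem h1)
    have h4 := hs.mul 1 (one_mem _) 1 (one_mem _)
    rw [mul_one] at h4
    rw [mul_inv_cancel, h2] at h3
    omega

lemma mem_kerS (hs : HS G) (l : G ≃g G) : l ∈ kerS hs ↔ l ∈ hs.Γ ∧ hs.χ l = 0 := Iff.rfl

lemma chi_one (hs : HS G) : hs.χ 1 = 0 := ((mem_kerS hs 1).1 (one_mem _)).2

lemma chi_inv (hs : HS G) {a : G ≃g G} (ha : a ∈ hs.Γ) : hs.χ a⁻¹ = - hs.χ a := by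
  have h3 := hs.mul a ha a⁻¹ (inv_mem ha)
  rw [mul_inv_cancel, chi_one] at h3
  omega

lemma chi_pow (hs : HS G) {a : G ≃g G} (ha : a ∈ hs.Γ) (n : ℕ) : hs.χ (a ^ n) = n * hs.χ a := by
  induction n with
  | zero => simp [chi_one]
  | succ n ih =>
    rw [pow_succ, hs.mul _ (pow_mem ha n) _ ha, ih]
    push_cast
    ring

lemma chi_zpow (hs : HS G) {a : G ≃g G} (ha : a ∈ hs.Γ) (k : ℤ) : hs.χ (a ^ k) = k * hs.χ a := by
  cases k with
  | ofNat n => simpa using chi_pow hs ha n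
  | negSucc n =>
    rw [zpow_negSucc, chi_inv hs (pow_mem ha _), chi_pow hs ha]
    push_cast [Int.negSucc_eq]
    ring

lemma conj_mem_kerS (hs : HS G) {t a : G ≃g G} (ht : t ∈ hs.Γ) (ha : a ∈ kerS hs) :
    t * a * t⁻¹ ∈ kerS hs := by
  refine ⟨mul_mem (mul_mem ht ha.1) (inv_mem ht), ?_⟩
  rw [hs.mul _ (mul_mem ht ha.1) _ (inv_mem ht), hs.mul _ ht _ ha.1, chi_inv hs ht, ha.2]
  omega

/-- minimal positive height -/
lemma exists_gen (hs : HS G) : ∃ t ∈ hs.Γ, 0 < hs.χ t ∧ ∀ g ∈ hs.Γ, ∃ k : ℤ, hs.χ g = k * hs.χ t := by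
  classical
  have hex : ∃ n : ℕ, 0 < n ∧ ∃ g ∈ hs.Γ, hs.χ g = n := by
    obtain ⟨g, hg, hne⟩ := hs.ne
    rcases lt_or_gt_of_ne hne with h | h
    · refine ⟨(-hs.χ g).toNat, by omega, g⁻¹, inv_mem hg, ?_⟩
      rw [chi_inv hs hg]; omega
    · exact ⟨(hs.χ g).toNat, by omega, g, hg, by omega⟩
  obtain ⟨h0, t, ht, hχ⟩ := Nat.find_spec hex
  refine ⟨t, ht, by omega, fun g hg => ⟨hs.χ g / hs.χ t, ?_⟩⟩
  have hpos : 0 < hs.χ t := by omega
  have h1 : hs.χ (g * t ^ (-(hs.χ g / hs.χ t))) = hs.χ g % hs.χ t := by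
    rw [hs.mul _ hg _ (zpow_mem ht _), chi_zpow hs ht]
    have := Int.emod_add_mul_ediv (hs.χ g) (hs.χ t)
    linarith [this, mul_comm (hs.χ g / hs.χ t) (hs.χ t)]
  have h2 : 0 ≤ hs.χ g % hs.χ t := Int.emod_nonneg _ hpos.ne'
  have h3 : hs.χ g % hs.χ t < hs.χ t := Int.emod_lt_of_pos _ hpos
  have h4 : hs.χ g % hs.χ t = 0 := by
    by_contra hne
    have h5 : (hs.χ g % hs.χ t).toNat < Nat.find hex := by omega
    refine Nat.find_min hex h5 ⟨by omega, g * t ^ (-(hs.χ g / hs.χ t)),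
      mul_mem hg (zpow_mem ht _), ?_⟩
    rw [h1]; omega
  have h5 := Int.emod_add_mul_ediv (hs.χ g) (hs.χ t)
  rw [h4, zero_add] at h5
  rw [mul_comm]; exact h5.symm

include hG in
/-- the orbit of the finite index subgroup is coarsely dense -/
lemma exists_near (hs : HS G) (x : V) : ∃ R : ℕ, ∀ v, ∃ γ ∈ hs.Γ, G.dist v (γ x) ≤ R := by
  classical
  have := hs.fi
  have := hs.nor
  have hfin : Finite ((G ≃g G) ⧸ hs.Γ) := Subgroup.finite_quotient_of_finiteIndex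
  obtain ⟨R, hR⟩ := (Set.finite_range
    (fun q : (G ≃g G) ⧸ hs.Γ => G.dist x (q.out x))).bddAbove
  refine ⟨R, fun v => ?_⟩
  obtain ⟨g, rfl⟩ := hG.tr x v
  set q : (G ≃g G) ⧸ hs.Γ := QuotientGroup.mk g with hq
  have h1 : (q.out)⁻¹ * g ∈ hs.Γ := by
    rw [← QuotientGroup.eq, QuotientGroup.out_eq']
  have h2 : g * (q.out)⁻¹ ∈ hs.Γ := by
    have h3 := hs.nor.conj_mem _ h1 (q.out)
    have h4 : q.out * ((q.out)⁻¹ * g) * (q.out)⁻¹ = g * (q.out)⁻¹ := by group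
    rwa [h4] at h3
  refine ⟨g * (q.out)⁻¹, h2, ?_⟩
  have h5 : G.dist (g x) ((g * (q.out)⁻¹) x) = G.dist x (q.out x) := by
    rw [RelIso.mul_apply, dist_iso hG.conn, dist_inv hG]
  rw [h5]
  exact hR ⟨q, rfl⟩

include hG in
theorem kern_chain (hs : HS G) (o : V) (D : ℕ) (hpg : PG hG o D) (x : V) :
    ∃ C : ℕ, ∀ y ∈ orbK hs x, Relation.ReflTransGen
      (fun a b : V => a ∈ orbK hs x ∧ b ∈ orbK hs x ∧ G.dist a b ≤ C) x y := by
  classical
  by_cases htriv : ∀ l ∈ kerS hs, l x = x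
  · refine ⟨0, ?_⟩
    rintro y ⟨l, hl, hl0, rfl⟩
    rw [htriv l ⟨hl, hl0⟩]
  push Not at htriv
  obtain ⟨l₀, hl₀, hl₀x⟩ := htriv
  obtain ⟨R, hR⟩ := exists_near hG hs x
  obtain ⟨t, ht, hχt, hgen⟩ := exists_gen hs
  -- the constant `c`
  let kk : V → ℤ := fun y => ⌊(hs.u y - hs.u x) / hs.χ t⌋
  let C₄ : ℕ := 2 * R + 1
  let C₅ : ℕ := (bl hG x C₄).sup fun y => G.dist x ((t ^ (-(kk y))) x)
  let c : ℕ := max (C₄ + C₅) (G.dist x (l₀ x))
  have hbd : ∀ γ ∈ hs.Γ, G.dist x (γ x) ≤ C₄ → ∃ k : ℤ, γ * t ^ (-k) ∈ kerS hs ∧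
      G.dist x ((γ * t ^ (-k)) x) ≤ c := by
    intro γ hγ hd
    obtain ⟨k, hk⟩ := hgen γ hγ
    refine ⟨k, ⟨mul_mem hγ (zpow_mem ht _), ?_⟩, ?_⟩
    · rw [hs.mul _ hγ _ (zpow_mem ht _), chi_zpow hs ht, hk]; ring
    · have h1 : kk (γ x) = k := by
        show ⌊(hs.u (γ x) - hs.u x) / hs.χ t⌋ = k
        rw [hs.equi γ hγ x, hk]
        have h2 : ((hs.χ t : ℤ) : ℝ) ≠ 0 := by
          have : (0 : ℝ) < (hs.χ t : ℝ) := by exact_mod_cast hχt
          exact this.ne'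
        have h3 : (hs.u x + ((k * hs.χ t : ℤ) : ℝ) - hs.u x) / ((hs.χ t : ℤ) : ℝ) = (k : ℝ) := by
          push_cast
          field_simp
          ring
        rw [h3, Int.floor_intCast]
      have h2 : G.dist x ((t ^ (-(kk (γ x)))) x) ≤ C₅ :=
        Finset.le_sup (f := fun y => G.dist x ((t ^ (-(kk y))) x))
          ((mem_bl hG x (γ x) C₄).2 hd)
      rw [h1] at h2
      have h3 := dist_mul_le hG x γ (t ^ (-k))
      have h4 : C₄ + C₅ ≤ c := le_max_left _ _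
      omega
  -- growth
  have hgrow : ∀ K : ℕ, ∃ n : ℕ, (bl hG x (n * K)).card < 2 ^ n := by
    intro K
    obtain ⟨A, hA0, hA⟩ := subexp hG o D hpg ((2 : ℝ) ^ ((1 : ℝ) / (2 * (K + 1))))
      (Real.one_lt_rpow (by norm_num) (by positivity))
    obtain ⟨m, hm⟩ := pow_unbounded_of_one_lt A (by norm_num : (1 : ℝ) < 2)
    refine ⟨2 * m, ?_⟩
    have h1 := hA (2 * m * K)
    rw [card_bl hG o x] at h1
    have h2 : ((2 : ℝ) ^ ((1 : ℝ) / (2 * (K + 1)))) ^ (2 * m * K) ≤ 2 ^ m := by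
      rw [← Real.rpow_natCast, ← Real.rpow_mul (by norm_num), ← Real.rpow_natCast 2 m]
      apply Real.rpow_le_rpow_of_exponent_le (by norm_num)
      rw [div_mul_eq_mul_div, one_mul, div_le_iff₀ (by positivity)]
      push_cast
      nlinarith [(Nat.cast_nonneg m : (0 : ℝ) ≤ m), (Nat.cast_nonneg K : (0 : ℝ) ≤ K)]
    have h3 : ((bl hG x (2 * m * K)).card : ℝ) < 2 ^ (2 * m) := by
      calc ((bl hG x (2 * m * K)).card : ℝ) ≤ A * _ := h1
        _ ≤ A * 2 ^ m := mul_le_mul_of_nonneg_left h2 hA0.le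
        _ < 2 ^ m * 2 ^ m := by
          apply mul_lt_mul_of_pos_right hm (by positivity)
        _ = 2 ^ (2 * m) := by rw [← pow_add]; congr 1; ring
    exact_mod_cast h3
  obtain ⟨n₁, hn₁⟩ := hgrow (G.dist x (t x) + c)
  have hLt : ∀ i : ℕ, ∀ a ∈ kerS hs, t ^ i * a * (t ^ i)⁻¹ ∈ kerS hs :=
    fun i a ha => conj_mem_kerS hs (pow_mem ht i) ha
  have hLt' : ∀ i : ℕ, ∀ a ∈ kerS hs, t⁻¹ ^ i * a * (t⁻¹ ^ i)⁻¹ ∈ kerS hs :=
    fun i a ha => conj_mem_kerS hs (pow_mem (inv_mem ht) i) ha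
  have hside := kern_side hG t (kerS hs) x c hLt l₀ hl₀ (le_max_right _ _) hl₀x n₁ hn₁
  have hside' := kern_side hG t⁻¹ (kerS hs) x c hLt' l₀ hl₀ (le_max_right _ _) hl₀x n₁
    (by rw [dist_inv hG]; exact hn₁)
  let C : ℕ := 2 * (n₁ * G.dist x (t x)) + c
  let B : Subgroup (G ≃g G) := Subgroup.closure {l | l ∈ kerS hs ∧ G.dist x (l x) ≤ C}
  have hB : ∀ s : G ≃g G, (∀ i : ℕ, ∀ a ∈ kerS hs, s ^ i * a * (s ^ i)⁻¹ ∈ kerS hs) →
      G.dist x (s x) = G.dist x (t x) →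
      kA s {l | l ∈ kerS hs ∧ G.dist x (l x) ≤ c} n₁ ≤ B := by
    intro s h1 h2
    refine kA_le fun i hi a ha => Subgroup.subset_closure ⟨h1 i a ha.1, ?_⟩
    have h3 := dist_mul_le hG x (s ^ i * a) (s ^ i)⁻¹
    have h4 := dist_mul_le hG x (s ^ i) a
    have h5 := kern_dist_pow_le hG x s i
    rw [dist_inv hG] at h3
    rw [h2] at h5
    have h6 : i * G.dist x (t x) ≤ n₁ * G.dist x (t x) := Nat.mul_le_mul_right _ hi.le
    have h7 := ha.2
    show _ ≤ 2 * (n₁ * G.dist x (t x)) + c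
    omega
  have hconj : ∀ k : ℤ, ∀ l ∈ kerS hs, G.dist x (l x) ≤ c → t ^ k * l * (t ^ k)⁻¹ ∈ B := by
    intro k l hl hlc
    cases k with
    | ofNat n =>
      have := hB t hLt rfl (hside n l hl hlc)
      simpa using this
    | negSucc n =>
      have := hB t⁻¹ hLt' (dist_inv hG x t) (hside' (n + 1) l hl hlc)
      simpa [zpow_negSucc] using this
  -- every element of Γ is `b t ^ k`
  have hall : ∀ γ ∈ hs.Γ, ∃ b ∈ B, ∃ k : ℤ, γ = b * t ^ k := by
    have hstep : ∀ γ' ∈ hs.Γ, (∃ b ∈ B, ∃ k : ℤ, γ' = b * t ^ k) → ∀ γ ∈ hs.Γ,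
        G.dist (γ' x) (γ x) ≤ C₄ → ∃ b ∈ B, ∃ k : ℤ, γ = b * t ^ k := by
      rintro γ' hγ' ⟨b, hb, k, rfl⟩ γ hγ hd
      have h1 : G.dist x (((b * t ^ k)⁻¹ * γ) x) ≤ C₄ := by
        have h2 := dist_iso hG.conn (b * t ^ k) x (((b * t ^ k)⁻¹ * γ) x)
        rw [← RelIso.mul_apply, mul_inv_cancel_left] at h2
        rw [← h2]; exact hd
      obtain ⟨m, hm1, hm2⟩ := hbd _ (mul_mem (inv_mem hγ') hγ) h1
      have h3 := hconj k _ hm1 hm2
      refine ⟨b * (t ^ k * ((b * t ^ k)⁻¹ * γ * t ^ (-m)) * (t ^ k)⁻¹), mul_mem hb h3, k + m, ?_⟩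
      rw [zpow_add]
      group
    have hwalk : ∀ v, ∀ γ ∈ hs.Γ, G.dist v (γ x) ≤ R → ∃ b ∈ B, ∃ k : ℤ, γ = b * t ^ k := by
      intro v
      have hr : G.Reachable x v := hG.conn.preconnected x v
      obtain ⟨w⟩ := hr.symm
      have : ∀ (a b : V) (w : G.Walk a b), b = x →
          ∀ γ ∈ hs.Γ, G.dist a (γ x) ≤ R → ∃ b ∈ B, ∃ k : ℤ, γ = b * t ^ k := by
        intro a b w
        induction w with
        | nil =>
          rintro rfl γ hγ hd
          refine hstep 1 (one_mem _) ⟨1, one_mem _, 0, by simp⟩ γ hγ ?_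
          show G.dist _ _ ≤ 2 * R + 1
          simp only [RelIso.coe_one, id]
          omega
        | @cons a a' b hadj w ih =>
          rintro hb γ hγ hd
          obtain ⟨γ', hγ', hd'⟩ := hR a'
          refine hstep γ' hγ' (ih hb γ' hγ' hd') γ hγ ?_
          have h1 := hG.tri (γ' x) a' (γ x)
          have h2 := hG.tri a' a (γ x)
          have h3 : G.dist a' a = 1 := SimpleGraph.dist_eq_one_iff_adj.2 hadj.symm
          rw [SimpleGraph.dist_comm] at hd'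
          show _ ≤ 2 * R + 1
          omega
      exact this v x w rfl
    intro γ hγ
    exact hwalk (γ x) γ hγ (by simp)
  refine ⟨C, ?_⟩
  -- chains
  set rel : V → V → Prop := fun a b : V => a ∈ orbK hs x ∧ b ∈ orbK hs x ∧ G.dist a b ≤ C with hrel
  have hmap : ∀ l ∈ kerS hs, ∀ a b, Relation.ReflTransGen rel a b →
      Relation.ReflTransGen rel (l a) (l b) := by
    intro l hl a b h
    refine Relation.ReflTransGen.lift (p := rel) l ?_ a b h
    rintro p q ⟨⟨l1, h1, h2, rfl⟩, ⟨l2, h3, h4, rfl⟩, h5⟩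
    have e1 : l * l1 ∈ kerS hs := mul_mem hl ⟨h1, h2⟩
    have e2 : l * l2 ∈ kerS hs := mul_mem hl ⟨h3, h4⟩
    exact ⟨⟨l * l1, e1.1, e1.2, rfl⟩, ⟨l * l2, e2.1, e2.2, rfl⟩, by
      rw [dist_iso hG.conn]; exact h5⟩
  have hsymm : ∀ a b, rel a b → rel b a := by
    rintro a b ⟨h1, h2, h3⟩
    exact ⟨h2, h1, by rw [SimpleGraph.dist_comm]; exact h3⟩
  have hchain : ∀ b ∈ B, b ∈ kerS hs ∧ Relation.ReflTransGen rel x (b x) := by
    intro b hb
    induction hb using Subgroup.closure_induction with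
    | mem l hl =>
      refine ⟨hl.1, Relation.ReflTransGen.single ⟨⟨1, one_mem _, chi_one hs, rfl⟩,
        ⟨l, hl.1.1, hl.1.2, rfl⟩, hl.2⟩⟩
    | one => exact ⟨one_mem _, Relation.ReflTransGen.refl⟩
    | mul a b _ _ ha hb =>
      refine ⟨mul_mem ha.1 hb.1, ha.2.trans ?_⟩
      exact hmap a ha.1 _ _ hb.2
    | inv a _ ha =>
      refine ⟨inv_mem ha.1, ?_⟩
      have h1 : Relation.ReflTransGen rel (a x) x := by
        have h2 := ha.2
        have : Std.Symm rel := ⟨hsymm⟩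
        exact symm h2
      have h3 := hmap a⁻¹ (inv_mem ha.1) _ _ h1
      have h4 : a⁻¹ (a x) = x := a.symm_apply_apply x
      rwa [h4] at h3
  rintro y ⟨l, hl, hl0, rfl⟩
  obtain ⟨b, hb, k, hk⟩ := hall l hl
  have hbk := hchain b hb
  have h1 : hs.χ l = k * hs.χ t := by
    rw [hk, hs.mul _ hbk.1.1 _ (zpow_mem ht _), chi_zpow hs ht, hbk.1.2, zero_add]
  have hk0 : k = 0 := by
    rw [hl0] at h1
    rcases mul_eq_zero.1 h1.symm with h | h
    · exact h
    · omega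
  rw [hk, hk0, zpow_zero, mul_one]
  exact hbk.2

end KERN

end Pool.H61.ST
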