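import Pool.Agent.H61.ST.Defs2
import Pool.Agent.H61.ST.Kern
import Pool.Agent.H61.ST.Ling
import Pool.Agent.H61.ST.Kap

set_option autoImplicit false

/-! Module SLAB: the kernel orbit is a quasi-line. -/

namespace Pool.H61.ST

open Finset Pool.Agent.H61.SW Pool.H98.C Filter

variable {V : Type} {G : SimpleGraph V} (hG : TG G)

theorem h59_orbK_self (hs : HS G) (x : V) : x ∈ orbK hs x := by
  refine ⟨1, hs.Γ.one_mem, ?_, rfl⟩
  have := hs.mul 1 hs.Γ.one_mem 1 hs.Γ.one_mem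
  rw [one_mul] at this
  omega

theorem h59_chi_inv (hs : HS G) (g : G ≃g G) (hg : g ∈ hs.Γ) : hs.χ g⁻¹ = - hs.χ g := by
  have h1 := hs.mul g hg g⁻¹ (hs.Γ.inv_mem hg)
  have h2 := hs.mul 1 hs.Γ.one_mem 1 hs.Γ.one_mem
  rw [one_mul] at h2
  rw [mul_inv_cancel] at h1
  omega

/-- elements of the kernel act on the orbit -/
theorem h59_orbK_act (hs : HS G) (x : V) (l : G ≃g G) (hl : l ∈ hs.Γ) (hχ : hs.χ l = 0) (y : V) :
    l y ∈ orbK hs x ↔ y ∈ orbK hs x := by
  constructor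
  · rintro ⟨k, hk, hk0, hkx⟩
    refine ⟨l⁻¹ * k, hs.Γ.mul_mem (hs.Γ.inv_mem hl) hk, ?_, ?_⟩
    · rw [hs.mul _ (hs.Γ.inv_mem hl) _ hk, h59_chi_inv hs l hl, hχ, hk0]; rfl
    · show l⁻¹ (k x) = y
      rw [hkx]
      exact l.symm_apply_apply y
  · rintro ⟨k, hk, hk0, hkx⟩
    refine ⟨l * k, hs.Γ.mul_mem hl hk, ?_, ?_⟩
    · rw [hs.mul _ hl _ hk, hχ, hk0]; rfl
    · show l (k x) = l y
      rw [hkx]

/-- the induced automorphism of the slab graph -/
noncomputable def h59_slabAut (hG : TG G) (hs : HS G) (x : V) (C : ℕ) (l : G ≃g G) (hl : l ∈ hs.Γ)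
    (hχ : hs.χ l = 0) : slab hs x C ≃g slab hs x C where
  toEquiv := l.toEquiv.subtypeEquiv (fun y => (h59_orbK_act hs x l hl hχ y).symm)
  map_rel_iff' := by
    intro a b
    show (_ ≠ _ ∧ G.dist (l a) (l b) ≤ C) ↔ (a ≠ b ∧ G.dist (a : V) b ≤ C)
    rw [dist_iso hG.conn]
    constructor
    · rintro ⟨h1, h2⟩
      refine ⟨fun h => h1 ?_, h2⟩
      rw [h]
    · rintro ⟨h1, h2⟩
      refine ⟨fun h => h1 ?_, h2⟩
      exact (Equiv.injective _) h

theorem h59_slab_TG (hG : TG G) (hs : HS G) (x : V) (C : ℕ)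
    (hC : ∀ y ∈ orbK hs x, Relation.ReflTransGen
      (fun a b : V => a ∈ orbK hs x ∧ b ∈ orbK hs x ∧ G.dist a b ≤ C) x y) :
    TG (slab hs x C) := by
  have hx := h59_orbK_self hs x
  refine ⟨?_, ?_, ?_⟩
  · have key : ∀ y, Relation.ReflTransGen
        (fun a b : V => a ∈ orbK hs x ∧ b ∈ orbK hs x ∧ G.dist a b ≤ C) x y →
        ∀ hy : y ∈ orbK hs x, (slab hs x C).Reachable ⟨x, hx⟩ ⟨y, hy⟩ := by
      intro y h
      induction h with
      | refl => intro hy; exact SimpleGraph.Reachable.refl _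
      | tail h1 h2 ih =>
        intro hy
        refine (ih h2.1).trans ?_
        rename_i b c
        by_cases hbc : b = c
        · subst hbc; exact SimpleGraph.Reachable.refl _
        · have : (slab hs x C).Adj ⟨b, h2.1⟩ ⟨c, hy⟩ :=
            ⟨fun h => hbc (congrArg Subtype.val h), h2.2.2⟩
          exact this.reachable
    have : Nonempty ↥(orbK hs x) := ⟨⟨x, hx⟩⟩
    refine SimpleGraph.Connected.mk ?_
    intro a b
    exact ((key a (hC a a.2) a.2).symm).trans (key b (hC b b.2) b.2)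
  · intro v
    have h1 : ((fun y : ↥(orbK hs x) => (y : V)) '' (slab hs x C).neighborSet v).Finite := by
      refine (Finset.finite_toSet (bl hG v C)).subset ?_
      rintro _ ⟨y, hy, rfl⟩
      rw [Finset.mem_coe, mem_bl]
      exact hy.2
    exact Set.Finite.of_finite_image h1 (Subtype.val_injective.injOn)
  · intro u v
    obtain ⟨k, hk, hk0, hku⟩ := u.2
    obtain ⟨m, hm, hm0, hmv⟩ := v.2
    refine ⟨h59_slabAut hG hs x C (m * k⁻¹) (hs.Γ.mul_mem hm (hs.Γ.inv_mem hk)) ?_, ?_⟩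
    · rw [hs.mul _ hm _ (hs.Γ.inv_mem hk), h59_chi_inv hs k hk, hk0, hm0]; rfl
    · apply Subtype.ext
      show (m * k⁻¹) (u : V) = v
      rw [← hku, ← hmv]
      show m (k.symm (k x)) = m x
      rw [k.symm_apply_apply]

theorem h59_slab_dist (hG : TG G) (hs : HS G) (x : V) (C : ℕ) (hT : TG (slab hs x C))
    (y z : ↥(orbK hs x)) : G.dist (y : V) z ≤ C * (slab hs x C).dist y z := by
  have key : ∀ (s : List ↥(orbK hs x)) (y : ↥(orbK hs x)), ch (slab hs x C) y s →
      G.dist (y : V) ((en y s : ↥(orbK hs x)) : V) ≤ C * s.length := by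
    intro s
    induction s with
    | nil => intro y _; simp
    | cons a s ih =>
      intro y h
      have h1 := ih a h.2
      have h2 : G.dist (y : V) a ≤ C := h.1.2
      have h3 := hG.tri (y : V) a ((en a s : ↥(orbK hs x)) : V)
      rw [en_cons, List.length_cons, mul_add, mul_one]
      omega
  have := key (geo hT y z) y (ch_geo hT y z)
  rwa [en_geo, length_geo] at this

theorem slab_ql (hs : HS G) (o : V) (D : ℕ) (hpg : PG hG o D) (x : V)
    (hquad : ∃ F : ℝ, ∀ N : ℕ, ∃ r ≥ N, ((bl hG o r).card : ℝ) ≤ F * (r : ℝ) ^ 2)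
    (hinf : (orbK hs x).Infinite) :
    ∃ (C : ℕ) (f : ↥(orbK hs x) → ℤ) (C' : ℕ), TG (slab hs x C) ∧ QLn (slab hs x C) f C' := by
  obtain ⟨C, hC⟩ := kern_chain hG hs o D hpg x
  have hT := h59_slab_TG hG hs x C hC
  have hx := h59_orbK_self hs x
  have : Infinite ↥(orbK hs x) := hinf.to_subtype
  rcases thin_or_quad hT inferInstance ⟨x, hx⟩ with ⟨f, C', hf⟩ | hq
  · exact ⟨C, f, C', hT, hf⟩
  exfalso
  obtain ⟨A, hA⟩ := orb_linear hG hs o x hquad
  have hC1 : 1 ≤ C := by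
    by_contra h0
    have h00 : C = 0 := by omega
    subst h00
    -- every vertex of the orbit equals `x`
    obtain ⟨y, hy, hxy⟩ := hinf.exists_notMem_finset {x}
    rw [Finset.mem_singleton] at hxy
    have key : ∀ y, Relation.ReflTransGen
        (fun a b : V => a ∈ orbK hs x ∧ b ∈ orbK hs x ∧ G.dist a b ≤ 0) x y → y = x := by
      intro y h
      induction h with
      | refl => rfl
      | tail h1 h2 ih =>
        rename_i b c
        have h3 : G.dist b c = 0 := by omega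
        have h4 := (hG.conn.dist_eq_zero_iff).1 h3
        rw [← h4, ih]
    exact hxy (key y (hC y hy))
  -- compare the balls
  have hball : ∀ R r : ℕ, C * R ≤ r → (bl hT ⟨x, hx⟩ R).card ≤
      Set.ncard {y | y ∈ orbK hs x ∧ G.dist x y ≤ r} := by
    intro R r hRr
    have hfin : {y | y ∈ orbK hs x ∧ G.dist x y ≤ r}.Finite :=
      (ball_finite hG.lf hG.conn x r).subset fun y hy => hy.2
    rw [Set.ncard_eq_toFinset_card _ hfin]
    refine Finset.card_le_card_of_injOn (fun y => (y : V)) ?_ (Subtype.val_injective.injOn)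
    intro y hy
    rw [Finset.mem_coe, mem_bl] at hy
    simp only [Finset.mem_coe, Set.Finite.mem_toFinset, Set.mem_ofPred_eq]
    refine ⟨y.2, ?_⟩
    refine (h59_slab_dist hG hs x C hT ⟨x, hx⟩ y).trans ?_
    exact (Nat.mul_le_mul_left C hy).trans hRr
  obtain ⟨N, hN⟩ := exists_nat_gt (4 * |A| * C + 4)
  obtain ⟨r, hr, hrA⟩ := hA (C * (N + 1))
  set R := r / C with hR
  have h1 : C * R ≤ r := Nat.mul_div_le r C
  have h2 : r < C * (R + 1) := Nat.lt_mul_div_succ r (by omega)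
  have h3 : N + 1 ≤ R := by
    rw [hR, Nat.le_div_iff_mul_le (by omega), mul_comm]
    exact hr
  have h4 := hq R
  have h5 : ((bl hT ⟨x, hx⟩ R).card : ℝ) ≤ A * r := by
    refine le_trans ?_ hrA
    exact_mod_cast hball R r h1
  have h6 : A * (r : ℝ) ≤ |A| * (C * (R + 1)) := by
    have h7 : (r : ℝ) ≤ C * (R + 1) := by exact_mod_cast h2.le
    calc A * (r : ℝ) ≤ |A| * r := mul_le_mul_of_nonneg_right (le_abs_self A) (Nat.cast_nonneg _)
      _ ≤ _ := mul_le_mul_of_nonneg_left h7 (abs_nonneg A)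
  have h8 : ((N : ℝ) + 1) ≤ R := by exact_mod_cast h3
  have h9 : (0 : ℝ) ≤ |A| * C := by positivity
  nlinarith

end Pool.H61.ST
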