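import Pool.Agent.H61.ST.StrCore
import Pool.Agent.H61.ST.Pois

set_option autoImplicit false

/-! Strict height structures. -/

namespace Pool.H61.ST

open Finset Pool.Agent.H61.SW Pool.H98.C

section STR
variable {V : Type} {G : SimpleGraph V} (hG : TG G)

include hG in
theorem exists_HS (o : V)
    (huni : ∀ x y, (Pool.H98.C.orb G x y).ncard = (Pool.H98.C.orb G y x).ncard)
    (Γ₁ : Subgroup (G ≃g G)) (hfi : Γ₁.FiniteIndex) (χ : (G ≃g G) → ℤ)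
    (hmul : ∀ g ∈ Γ₁, ∀ h ∈ Γ₁, χ (g * h) = χ g + χ h) (hne : ∃ g ∈ Γ₁, χ g ≠ 0)
    (hst : ∀ g ∈ Γ₁, ∀ x, g x = x → χ g = 0) : Nonempty (HS G) :=
  exists_HS_core hG o
    (fun Γ hn hf ψ h1 h2 => exists_harm_rep hG o huni Γ hn hf ψ h1 h2)
    (fun Γ hf u h1 h2 => const_of_inv hG Γ hf u h1 h2) Γ₁ hfi χ hmul hne hst

end STR

end Pool.H61.ST
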