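import Pool.Agent.H61.ST.Defs2

set_option autoImplicit false

/-! Module SUPTR: transfer of superblocks through isomorphic balls. -/

namespace Pool.H61.ST

open Finset Pool.Agent.H61.SW Pool.H98.C Filter

variable {V W : Type} {G : SimpleGraph V} {G' : SimpleGraph W}

/-- chains in the ball are mapped to chains -/
theorem h59_ch_ball (o : V) (n : ℕ) (f : V → W)
    (hadj : ∀ x y, G.dist o x ≤ n → G.dist o y ≤ n → G.Adj x y → G'.Adj (f x) (f y)) :
    ∀ (s : List V) (v : V), (∀ x ∈ v :: s, G.dist o x ≤ n) → ch G v s → ch G' (f v) (s.map f) := by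
  intro s
  induction s with
  | nil => intros; trivial
  | cons a s ih =>
    intro v h1 h2
    exact ⟨hadj _ _ (h1 v (by simp)) (h1 a (by simp)) h2.1,
      ih a (fun x hx => h1 x (List.mem_cons_of_mem _ hx)) h2.2⟩

/-- distances do not increase under a map of balls -/
theorem h59_dist_ball (hG : TG G) (o : V) (n : ℕ) (f : V → W)
    (hadj : ∀ x y, G.dist o x ≤ n → G.dist o y ≤ n → G.Adj x y → G'.Adj (f x) (f y))
    (x y : V) (h : G.dist o x + G.dist x y ≤ n) : G'.dist (f x) (f y) ≤ G.dist x y := by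
  have h1 := h59_ch_ball o n f hadj (geo hG x y) x (by
    intro z hz
    have h2 := dist_mem_ch (ch_geo hG x y) hz
    rw [length_geo] at h2
    have h3 := hG.tri o x z
    omega) (ch_geo hG x y)
  have h2 := dist_en_le _ _ h1
  rwa [en_map, en_geo, List.length_map, length_geo] at h2

/-- the maps between the balls -/
theorem h59_maps (o : V) (o' : W) (n : ℕ)
    (φ : G.induce {v | G.dist o v ≤ n} ≃g G'.induce {v | G'.dist o' v ≤ n})
    (hφ : ∀ x : {v | G.dist o v ≤ n}, (x : V) = o → ((φ x : {v | G'.dist o' v ≤ n}) : W) = o') :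
    ∃ (f : V → W) (g : W → V), f o = o' ∧ g o' = o ∧
      (∀ x, G.dist o x ≤ n → G'.dist o' (f x) ≤ n ∧ g (f x) = x) ∧
      (∀ y, G'.dist o' y ≤ n → G.dist o (g y) ≤ n ∧ f (g y) = y) ∧
      (∀ x y, G.dist o x ≤ n → G.dist o y ≤ n → G.Adj x y → G'.Adj (f x) (f y)) ∧
      (∀ x y, G'.dist o' x ≤ n → G'.dist o' y ≤ n → G'.Adj x y → G.Adj (g x) (g y)) := by
  classical
  let f : V → W := fun x => if h : G.dist o x ≤ n then (φ ⟨x, h⟩ : W) else o'
  let g : W → V := fun x => if h : G'.dist o' x ≤ n then (φ.symm ⟨x, h⟩ : V) else o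
  have hf : ∀ x (h : G.dist o x ≤ n), f x = (φ ⟨x, h⟩ : W) := fun x h => by simp [f, h]
  have hg : ∀ x (h : G'.dist o' x ≤ n), g x = (φ.symm ⟨x, h⟩ : V) := fun x h => by simp [g, h]
  refine ⟨f, g, ?_, ?_, ?_, ?_, ?_, ?_⟩
  · rw [hf o (by simp)]
    exact hφ ⟨o, by simp⟩ rfl
  · rw [hg o' (by simp)]
    exact iso_symm_root o o' n φ hφ ⟨o', by simp⟩ rfl
  · intro x hx
    rw [hf x hx]
    have h1 : G'.dist o' (φ ⟨x, hx⟩ : W) ≤ n := (φ ⟨x, hx⟩).2
    refine ⟨h1, ?_⟩
    rw [hg _ h1]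
    have : (⟨(φ ⟨x, hx⟩ : W), h1⟩ : {v | G'.dist o' v ≤ n}) = φ ⟨x, hx⟩ := rfl
    rw [this, φ.symm_apply_apply]
  · intro y hy
    rw [hg y hy]
    have h1 : G.dist o (φ.symm ⟨y, hy⟩ : V) ≤ n := (φ.symm ⟨y, hy⟩).2
    refine ⟨h1, ?_⟩
    rw [hf _ h1]
    have : (⟨(φ.symm ⟨y, hy⟩ : V), h1⟩ : {v | G.dist o v ≤ n}) = φ.symm ⟨y, hy⟩ := rfl
    rw [this, φ.apply_symm_apply]
  · intro x y hx hy hxy
    rw [hf x hx, hf y hy]
    have : (G.induce {v | G.dist o v ≤ n}).Adj ⟨x, hx⟩ ⟨y, hy⟩ := hxy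
    exact φ.map_adj_iff.2 this
  · intro x y hx hy hxy
    rw [hg x hx, hg y hy]
    have : (G'.induce {v | G'.dist o' v ≤ n}).Adj ⟨x, hx⟩ ⟨y, hy⟩ := hxy
    exact φ.symm.map_adj_iff.2 this

theorem super_transfer (hG : TG G) (hG' : TG G') (o : V) (o' : W) (t : ℝ) (p ρ : ℕ)
    (hρ : 2 * ρ < p) (n : ℕ) (hn : 4 * p ≤ n)
    (φ : G.induce {v | G.dist o v ≤ n} ≃g G'.induce {v | G'.dist o' v ≤ n})
    (hφ : ∀ x : {v | G.dist o v ≤ n}, (x : V) = o → ((φ x : {v | G'.dist o' v ≤ n}) : W) = o')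
    (hS : Super G t p ρ) : Super G' t p ρ := by
  classical
  obtain ⟨f, g, fo, go, hf, hg, fadj, gadj⟩ := h59_maps o o' n φ hφ
  have fd := h59_dist_ball hG o n f fadj
  have gd := h59_dist_ball hG' o' n g gadj
  have fo' : ∀ x, G.dist o x ≤ n → G'.dist o' (f x) ≤ G.dist o x := fun x hx => by
    have := fd o x (by simpa using hx)
    rwa [fo] at this
  have go' : ∀ y, G'.dist o' y ≤ n → G.dist o (g y) ≤ G'.dist o' y := fun y hy => by
    have := gd o' y (by simpa using hy)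
    rwa [go] at this
  intro σ' hσ'
  obtain ⟨α, hα⟩ := hG'.tr (σ' 0) o'
  -- distances of the moved segment
  have hd : ∀ i j : ℤ, |i| ≤ p → |j| ≤ p → (G'.dist (α (σ' i)) (α (σ' j)) : ℤ) = |i - j| := by
    intro i j hi hj
    rw [dist_iso hG'.conn]
    exact hσ' i j hi hj
  have hd0 : ∀ i : ℤ, |i| ≤ p → (G'.dist o' (α (σ' i)) : ℤ) = |i| := by
    intro i hi
    have := hd 0 i (by simp) hi
    rw [hα] at this
    rw [this, zero_sub, abs_neg]
  have hd0' : ∀ i : ℤ, |i| ≤ p → G'.dist o' (α (σ' i)) ≤ n := by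
    intro i hi
    have := hd0 i hi
    omega
  have hseg : IsSeg G p (fun i => g (α (σ' i))) := by
    intro i j hi hj
    have h1 := hd i j hi hj
    have h2 := hd0 i hi
    have h3 : |i - j| ≤ 2 * p := by
      have := abs_sub i j
      have h4 : |i - j| ≤ |i| + |j| := abs_sub _ _
      omega
    have h4 := gd (α (σ' i)) (α (σ' j)) (by omega)
    have h5 := go' (α (σ' i)) (hd0' i hi)
    have h6 := fd (g (α (σ' i))) (g (α (σ' j))) (by omega)
    rw [(hg _ (hd0' i hi)).2, (hg _ (hd0' j hj)).2] at h6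
    show (G.dist (g (α (σ' i))) (g (α (σ' j))) : ℤ) = |i - j|
    omega
  obtain ⟨τ₁, τ₂, F, t1, t2, t3, hF, hw⟩ := hS _ hseg
  have hτ₁ : |τ₁| ≤ p := by rw [abs_le]; omega
  have hτ₂ : |τ₂| ≤ p := by rw [abs_le]; omega
  have hg0 : g (α (σ' 0)) = o := by rw [hα, go]
  -- everything lies in the ball
  have hball : ∀ s ∈ F, ∀ z ∈ g (α (σ' τ₁)) :: s, G.dist o z ≤ n := by
    intro s hs z hz
    rcases List.mem_cons.1 hz with rfl | hz
    · exact (hg _ (hd0' τ₁ hτ₁)).1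
    · have := (hF s hs).2.2.1 z hz
      rw [hg0] at this
      omega
  have hmapg : ∀ s ∈ F, (s.map f).map g = s := by
    intro s hs
    rw [List.map_map]
    conv_rhs => rw [← List.map_id s]
    refine List.map_congr_left fun z hz => ?_
    exact (hf z (hball s hs z (List.mem_cons_of_mem _ hz))).2
  refine ⟨τ₁, τ₂, F.image (fun s => (s.map f).map α.symm), t1, t2, t3, ?_, ?_⟩
  · intro s' hs'
    obtain ⟨s, hs, rfl⟩ := Finset.mem_image.1 hs'
    obtain ⟨a1, a2, a3, a4⟩ := hF s hs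
    have e1 : f (g (α (σ' τ₁))) = α (σ' τ₁) := (hg _ (hd0' τ₁ hτ₁)).2
    have e2 : f (g (α (σ' τ₂))) = α (σ' τ₂) := (hg _ (hd0' τ₂ hτ₂)).2
    have b1 : sa G' (α (σ' τ₁)) (s.map f) := by
      rw [← e1]
      refine ⟨h59_ch_ball o n f fadj s _ (hball s hs) a1.1, ?_⟩
      show (List.map f (g (α (σ' τ₁)) :: s)).Nodup
      refine List.Nodup.map_on ?_ a1.2
      intro x hx y hy hxy
      have h1 := (hf x (hball s hs x hx)).2
      have h2 := (hf y (hball s hs y hy)).2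
      rw [← h1, ← h2, hxy]
    have b2 : en (α (σ' τ₁)) (s.map f) = α (σ' τ₂) := by
      rw [← e1, en_map, a2, e2]
    refine ⟨?_, ?_, ?_, ?_⟩
    · have := (sa_map α.symm (α (σ' τ₁)) (s.map f)).2 b1
      rwa [α.symm_apply_apply] at this
    · have : en (α.symm (α (σ' τ₁))) ((s.map f).map α.symm) = α.symm (en (α (σ' τ₁)) (s.map f)) :=
        en_map _ _ _
      rw [α.symm_apply_apply] at this
      rw [this, b2, α.symm_apply_apply]
    · intro z hz
      obtain ⟨w, hw1, rfl⟩ := List.mem_map.1 hz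
      obtain ⟨v, hv1, rfl⟩ := List.mem_map.1 hw1
      have h1 := a3 v hv1
      rw [hg0] at h1
      have h2 := fo' v (hball s hs v (List.mem_cons_of_mem _ hv1))
      have h3 : G'.dist (α (σ' 0)) (α (α.symm (f v))) = G'.dist (σ' 0) (α.symm (f v)) :=
        dist_iso hG'.conn α _ _
      rw [hα, α.apply_symm_apply] at h3
      rw [← h3]
      omega
    · intro i hi hi2 hmem
      obtain ⟨w, hw1, hw2⟩ := List.mem_map.1 hmem
      obtain ⟨v, hv1, rfl⟩ := List.mem_map.1 hw1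
      have h1 : f v = α (σ' i) := by rw [← hw2, α.apply_symm_apply]
      have h2 := (hf v (hball s hs v (List.mem_cons_of_mem _ hv1))).2
      rw [h1] at h2
      exact a4 i hi hi2 (by rw [h2]; exact hv1)
  · rw [Finset.sum_image]
    · simpa only [List.length_map] using hw
    · intro s hs s' hs' heq
      have h1 : s.map f = s'.map f := List.map_injective_iff.2 α.symm.injective heq
      rw [← hmapg s hs, ← hmapg s' hs', h1]

end Pool.H61.ST
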