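import Pool.Agent.H61.ST.Heavy
import Pool.Agent.H61.ST.Unim

set_option autoImplicit false

/-! Module TUBE: families of walks between `x` and `g x` (Hammersley-Welsh, closed up by a
bounded detour). -/

namespace Pool.H61.ST

open Finset Pool.Agent.H61.SW Pool.H98.C Filter

variable {V : Type} {G : SimpleGraph V} (hG : TG G)

/-- all walks of `F` go from `x` to `g x`, with heights in `[u x, u (g x))` except at the end -/
def TubeAt (G : SimpleGraph V) (u : V → ℝ) (g : G ≃g G) (x : V) (F : Finset (List V)) : Prop :=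
  ∀ s ∈ F, sa G x s ∧ en x s = g x ∧ ∀ z ∈ x :: s, z ≠ g x → u x ≤ u z ∧ u z < u (g x)

/-! ### Basic facts on height structures -/

/-- the opposite height structure -/
def h59_neg (hs : HS G) : HS G where
  Γ := hs.Γ
  nor := hs.nor
  fi := hs.fi
  χ := fun g => - hs.χ g
  mul := by
    intro g hg h hh
    have := hs.mul g hg h hh
    omega
  ne := by
    obtain ⟨g, hg, h⟩ := hs.ne
    exact ⟨g, hg, by simpa using h⟩
  u := fun x => - hs.u x
  equi := by
    intro g hg x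
    have := hs.equi g hg x
    push_cast
    linarith
  up := by
    intro x
    obtain ⟨y, h1, h2⟩ := hs.dn x
    exact ⟨y, h1, by linarith⟩
  dn := by
    intro x
    obtain ⟨y, h1, h2⟩ := hs.up x
    exact ⟨y, h1, by linarith⟩

/-- finitely many orbit representatives -/
theorem h59_reps (hG : TG G) (Γ : Subgroup (G ≃g G)) (hfi : Γ.FiniteIndex) (o : V) :
    ∃ S : Finset V, ∀ x, ∃ g ∈ Γ, ∃ s ∈ S, g s = x := by
  classical
  have : Finite ((G ≃g G) ⧸ Γ) := Subgroup.finite_quotient_of_finiteIndex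
  have : Fintype ((G ≃g G) ⧸ Γ) := Fintype.ofFinite _
  refine ⟨Finset.univ.image (fun q : (G ≃g G) ⧸ Γ => (q.out)⁻¹ o), ?_⟩
  intro x
  obtain ⟨h, hx⟩ := hG.tr o x
  set k : G ≃g G := (QuotientGroup.mk (h⁻¹) : (G ≃g G) ⧸ Γ).out with hk
  have h1 : k⁻¹ * h⁻¹ ∈ Γ := by
    rw [← QuotientGroup.eq]
    exact Quotient.out_eq _
  refine ⟨h * k, ?_, k⁻¹ o, Finset.mem_image.2 ⟨_, Finset.mem_univ _, rfl⟩, ?_⟩
  · have := Γ.inv_mem h1
    simpa using this
  · have : (h * k) (k⁻¹ o) = (h * k * k⁻¹) o := rfl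
    rw [this, mul_inv_cancel_right]
    exact hx

theorem h59_lip (hG : TG G) (hs : HS G) : ∃ L : ℝ, 0 ≤ L ∧
    ∀ x y, |hs.u x - hs.u y| ≤ L * (G.dist x y : ℝ) := by
  classical
  obtain ⟨o⟩ := hG.conn.nonempty
  obtain ⟨S, hS⟩ := h59_reps hG hs.Γ hs.fi o
  have hb : ∃ L : ℝ, 0 ≤ L ∧ ∀ s ∈ S, ∀ y ∈ nb hG s, |hs.u s - hs.u y| ≤ L := by
    refine ⟨∑ s ∈ S, ∑ y ∈ nb hG s, |hs.u s - hs.u y|,
      Finset.sum_nonneg fun _ _ => Finset.sum_nonneg fun _ _ => abs_nonneg _, ?_⟩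
    intro s h1 y h2
    refine le_trans ?_ (Finset.single_le_sum (f := fun s => ∑ y ∈ nb hG s, |hs.u s - hs.u y|)
      (fun _ _ => Finset.sum_nonneg fun _ _ => abs_nonneg _) h1)
    exact Finset.single_le_sum (f := fun y => |hs.u s - hs.u y|) (fun _ _ => abs_nonneg _) h2
  obtain ⟨L, hL0, hL⟩ := hb
  have hadj : ∀ x y, G.Adj x y → |hs.u x - hs.u y| ≤ L := by
    intro x y hxy
    obtain ⟨g, hg, s, hs1, rfl⟩ := hS x
    have h1 : g (g.symm y) = y := g.apply_symm_apply y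
    have h2 : G.Adj s (g.symm y) := by
      rw [← g.map_adj_iff, h1]; exact hxy
    have h3 := hL s hs1 _ ((mem_nb hG).2 h2)
    have h4 := hs.equi g hg s
    have h5 := hs.equi g hg (g.symm y)
    rw [h1] at h5
    rw [h4, h5]
    rw [show hs.u s + (hs.χ g : ℝ) - (hs.u (g.symm y) + (hs.χ g : ℝ)) =
      hs.u s - hs.u (g.symm y) by ring]
    exact h3
  refine ⟨L, hL0, ?_⟩
  have key : ∀ (s : List V) (x : V), ch G x s → |hs.u x - hs.u (en x s)| ≤ L * s.length := by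
    intro s
    induction s with
    | nil => intro x _; simp
    | cons a s ih =>
      intro x h
      have h1 := hadj x a h.1
      have h2 := ih a h.2
      rw [en_cons, List.length_cons]
      push_cast
      have h3 : |hs.u x - hs.u (en a s)| ≤ |hs.u x - hs.u a| + |hs.u a - hs.u (en a s)| :=
        abs_sub_le _ _ _
      linarith
  intro x y
  have h1 := key (geo hG x y) x (ch_geo hG x y)
  rwa [en_geo, length_geo] at h1

theorem h59_near (hG : TG G) (hs : HS G) : ∃ C : ℕ, ∀ z z' : V, ∃ g ∈ hs.Γ, G.dist z (g z') ≤ C := by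
  classical
  obtain ⟨o⟩ := hG.conn.nonempty
  obtain ⟨S, hS⟩ := h59_reps hG hs.Γ hs.fi o
  refine ⟨∑ a ∈ S, ∑ b ∈ S, G.dist a b, ?_⟩
  intro z z'
  obtain ⟨g1, hg1, a, ha, rfl⟩ := hS z
  obtain ⟨g2, hg2, b, hb, rfl⟩ := hS z'
  refine ⟨g1 * g2⁻¹, hs.Γ.mul_mem hg1 (hs.Γ.inv_mem hg2), ?_⟩
  have h1 : (g1 * g2⁻¹) (g2 b) = g1 b := by
    have : (g1 * g2⁻¹) (g2 b) = (g1 * g2⁻¹ * g2) b := rfl
    rw [this, inv_mul_cancel_right]
  rw [h1, dist_iso hG.conn]
  refine le_trans ?_ (Finset.single_le_sum (f := fun a => ∑ b ∈ S, G.dist a b)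
    (fun _ _ => Nat.zero_le _) ha)
  exact Finset.single_le_sum (f := fun b => G.dist a b) (fun _ _ => Nat.zero_le _) hb

theorem h59_gap (hG : TG G) (hs : HS G) : ∃ c : ℝ, 0 < c ∧
    ∀ x, ∃ y, G.Adj x y ∧ hs.u x + c ≤ hs.u y := by
  classical
  obtain ⟨o⟩ := hG.conn.nonempty
  obtain ⟨S, hS⟩ := h59_reps hG hs.Γ hs.fi o
  choose f hf1 hf2 using hs.up
  have hc : ∃ c : ℝ, 0 < c ∧ ∀ s ∈ S, c ≤ hs.u (f s) - hs.u s := by
    clear hS
    induction S using Finset.induction_on with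
    | empty => exact ⟨1, one_pos, by simp⟩
    | insert a S ha ih =>
      obtain ⟨c, hc0, hc⟩ := ih
      refine ⟨min c (hs.u (f a) - hs.u a), lt_min hc0 (by linarith [hf2 a]), ?_⟩
      intro s hs'
      rcases Finset.mem_insert.1 hs' with rfl | hs'
      · exact min_le_right _ _
      · exact (min_le_left _ _).trans (hc s hs')
  obtain ⟨c, hc0, hc⟩ := hc
  refine ⟨c, hc0, ?_⟩
  intro x
  obtain ⟨g, hg, s, hs1, rfl⟩ := hS x
  refine ⟨g (f s), g.map_adj_iff.2 (hf1 s), ?_⟩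
  rw [hs.equi g hg, hs.equi g hg]
  linarith [hc s hs1]

/-- climbing -/
theorem h59_climb (u : V → ℝ) (c : ℝ) (hc : 0 < c) (hup : ∀ x, ∃ y, G.Adj x y ∧ u x + c ≤ u y)
    (N : ℕ) : ∀ y : V, ∃ l : List V, ch G y l ∧ l.length = N ∧ (∀ z ∈ l, u y < u z) ∧
      (∀ z ∈ y :: l, u z ≤ u (en y l)) ∧ u y + N * c ≤ u (en y l) := by
  induction N with
  | zero => intro y; exact ⟨[], trivial, rfl, by simp, by simp, by simp⟩
  | succ N ih =>
    intro y
    obtain ⟨y1, h1, h2⟩ := hup y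
    obtain ⟨l, a1, a2, a3, a4, a5⟩ := ih y1
    refine ⟨y1 :: l, ⟨h1, a1⟩, by simp [a2], ?_, ?_, ?_⟩
    · intro z hz
      rcases List.mem_cons.1 hz with rfl | hz
      · linarith
      · linarith [a3 z hz]
    · intro z hz
      rw [en_cons]
      rcases List.mem_cons.1 hz with rfl | hz
      · linarith [a4 y1 (by simp)]
      · exact a4 z hz
    · rw [en_cons]
      push_cast
      linarith

/-- the detour: from the top `y` to a translate of the bottom `v` -/
theorem h59_detour (hG : TG G) (hs : HS G) : ∃ K : ℕ, ∀ v y : V, hs.u v ≤ hs.u y →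
    ∃ g ∈ hs.Γ, ∃ p : List V, p.length ≤ K ∧ sa G y p ∧ en y p = g v ∧ hs.u y < hs.u (g v) ∧
      (∀ z ∈ p, hs.u y < hs.u z) ∧ ∀ z ∈ p, z ≠ g v → hs.u z < hs.u (g v) := by
  obtain ⟨L, hL0, hL⟩ := h59_lip hG hs
  obtain ⟨C, hC⟩ := h59_near hG hs
  obtain ⟨c1, hc1, hup⟩ := h59_gap hG hs
  obtain ⟨c2, hc2, hdn⟩ := h59_gap hG (h59_neg hs)
  obtain ⟨N1, hN1⟩ := exists_nat_gt ((2 * L * C + 1) / c1)
  obtain ⟨N2, hN2⟩ := exists_nat_gt ((2 * L * C + 1) / c2)
  rw [div_lt_iff₀ hc1] at hN1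
  rw [div_lt_iff₀ hc2] at hN2
  refine ⟨N1 + (C + N2), ?_⟩
  intro v y hvy
  obtain ⟨l1, a1, a2, a3, a4, a5⟩ := h59_climb hs.u c1 hc1 hup N1 y
  obtain ⟨l2, b1, b2, b3, b4, b5⟩ := h59_climb (h59_neg hs).u c2 hc2 hdn N2 v
  have nu : ∀ z, (h59_neg hs).u z = - hs.u z := fun _ => rfl
  simp only [nu] at b3 b4 b5
  set z1 := en y l1 with hz1
  set q := en v l2 with hq
  obtain ⟨g, hg, hd⟩ := hC z1 q
  have hLz : ∀ w, G.dist z1 w ≤ C → |hs.u z1 - hs.u w| ≤ L * C := by
    intro w hw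
    refine (hL z1 w).trans (mul_le_mul_of_nonneg_left (by exact_mod_cast hw) hL0)
  have hgq := abs_le.1 (hLz _ hd)
  have egv := hs.equi g hg v
  have egq := hs.equi g hg q
  -- heights of the three parts
  have hp1 : ∀ w ∈ l1, hs.u y < hs.u w ∧ hs.u w < hs.u (g v) := by
    intro w hw
    refine ⟨a3 w hw, ?_⟩
    have h1 := a4 w (List.mem_cons_of_mem _ hw)
    linarith [hgq.1, hgq.2]
  have hp2 : ∀ w ∈ geo hG z1 (g q), hs.u y < hs.u w ∧ hs.u w < hs.u (g v) := by
    intro w hw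
    have h1 := abs_le.1 (hLz w ((mem_geo_dist hG hw).trans hd))
    constructor
    · linarith [h1.1, h1.2]
    · linarith [h1.1, h1.2, hgq.1, hgq.2]
  have hp3 : ∀ w ∈ (rv v l2).map g, hs.u y < hs.u w ∧ (w ≠ g v → hs.u w < hs.u (g v)) := by
    intro w hw
    obtain ⟨w', hw', rfl⟩ := List.mem_map.1 hw
    have hw2 : w' ∈ v :: l2 := mem_rv.1 (List.mem_cons_of_mem _ hw')
    have h2 := b4 w' hw2
    have e1 := hs.equi g hg w'
    constructor
    · linarith [hgq.1, hgq.2]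
    · intro hne
      rcases List.mem_cons.1 hw2 with h3 | h3
      · exact absurd (by rw [h3]) hne
      · have := b3 w' h3
        linarith
  have hch : ch G y (l1 ++ (geo hG z1 (g q) ++ (rv v l2).map g)) := by
    rw [ch_append, ch_append]
    refine ⟨a1, ch_geo hG _ _, ?_⟩
    rw [← hz1, en_geo, ch_map]
    exact ch_rv v l2 b1
  have hen : en y (l1 ++ (geo hG z1 (g q) ++ (rv v l2).map g)) = g v := by
    rw [en_append, en_append, ← hz1, en_geo, en_map, en_rv]
  obtain ⟨p, c1', c2', c3', c4'⟩ := loop_erase y _ hch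
  refine ⟨g, hg, p, ?_, c1', by rw [c2', hen], by linarith [hgq.1, hgq.2, b5], ?_, ?_⟩
  · refine c3'.trans ?_
    simp only [List.length_append, List.length_map, length_rv, length_geo]
    omega
  · intro w hw
    have := c4' w hw
    simp only [List.mem_append] at this
    rcases this with h | h | h
    · exact (hp1 w h).1
    · exact (hp2 w h).1
    · exact (hp3 w h).1
  · intro w hw hne
    have := c4' w hw
    simp only [List.mem_append] at this
    rcases this with h | h | h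
    · exact (hp1 w h).2
    · exact (hp2 w h).2
    · exact (hp3 w h).2 hne

/-- the tube from a heavy family with common end points -/
theorem h59_close (hG : TG G) (hs : HS G) : ∃ K : ℕ, ∀ (t : ℝ), 0 < t → t ≤ 1 → ∀ (m : ℕ) (v y : V)
    (F₀ : Finset (List V)), (∀ s ∈ F₀, s.length = m ∧ sa G v s ∧ en v s = y ∧
      ∀ z ∈ v :: s, hs.u v ≤ hs.u z ∧ hs.u z ≤ hs.u y) → F₀.Nonempty →
    ∃ (g : G ≃g G) (F : Finset (List V)), g ∈ hs.Γ ∧ 0 < hs.χ g ∧ TubeAt G hs.u g v F ∧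
      (F₀.card : ℝ) * t ^ m * t ^ K ≤ ∑ s ∈ F, t ^ s.length := by
  classical
  obtain ⟨K, hK⟩ := h59_detour hG hs
  refine ⟨K, ?_⟩
  intro t ht ht1 m v y F₀ hF₀ hne
  obtain ⟨s0, hs0⟩ := hne
  have hvy : hs.u v ≤ hs.u y := by
    have h1 := (hF₀ s0 hs0).2.2.2 v (by simp)
    exact h1.2
  obtain ⟨g, hg, p, b1, b2, b3, hgv, b4, b5⟩ := hK v y hvy
  refine ⟨g, F₀.image (fun s => s ++ p), hg, ?_, ?_, ?_⟩
  · have h1 := hs.equi g hg v
    have : (0 : ℝ) < hs.χ g := by linarith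
    exact_mod_cast this
  · intro s hs'
    obtain ⟨s, hs1, rfl⟩ := Finset.mem_image.1 hs'
    obtain ⟨c1, c2, c3, c4⟩ := hF₀ s hs1
    refine ⟨⟨?_, ?_⟩, ?_, ?_⟩
    · rw [ch_append, c3]
      exact ⟨c2.1, b2.1⟩
    · rw [← List.cons_append, List.nodup_append]
      refine ⟨c2.2, (List.nodup_cons.1 b2.2).2, ?_⟩
      rintro a ha b hb rfl
      exact absurd (b4 a hb) (not_lt.2 (c4 a ha).2)
    · rw [en_append, c3, b3]
    · intro z hz hzne
      rw [← List.cons_append, List.mem_append] at hz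
      rcases hz with hz | hz
      · have := c4 z hz
        exact ⟨this.1, lt_of_le_of_lt this.2 hgv⟩
      · exact ⟨by linarith [b4 z hz], b5 z hz hzne⟩
  · rw [Finset.sum_image (fun x _ y _ h => List.append_cancel_right h)]
    have : ∀ s ∈ F₀, t ^ m * t ^ K ≤ t ^ (s ++ p).length := by
      intro s hs1
      rw [List.length_append, (hF₀ s hs1).1, pow_add]
      exact mul_le_mul_of_nonneg_left (pow_le_pow_of_le_one ht.le ht1 b1) (pow_nonneg ht.le _)
    calc (F₀.card : ℝ) * t ^ m * t ^ K = ∑ s ∈ F₀, t ^ m * t ^ K := by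
          rw [Finset.sum_const, nsmul_eq_mul]; ring
      _ ≤ _ := Finset.sum_le_sum this

/-- pigeonhole for the end point -/
theorem h59_pigeon [DecidableEq V] (hG : TG G) (m : ℕ) (v : V) (T : Finset (List V))
    (hT : ∀ s ∈ T, s.length = m ∧ ch G v s) :
    ∃ y, T.card ≤ (bl hG v m).card * (T.filter (fun s => en v s = y)).card := by
  by_contra hcon
  push Not at hcon
  have h1 : T.card = ∑ y ∈ bl hG v m, (T.filter (fun s => en v s = y)).card := by
    refine Finset.card_eq_sum_card_fiberwise ?_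
    intro s hs
    have h2 := hT s hs
    rw [Finset.mem_coe, mem_bl, ← h2.1]
    exact dist_mem_ch h2.2 (en_mem_cons v s)
  have h2 : ∑ y ∈ bl hG v m, (bl hG v m).card * (T.filter (fun s => en v s = y)).card <
      ∑ _y ∈ bl hG v m, T.card :=
    Finset.sum_lt_sum_of_nonempty (bl_nonempty hG v m) fun y _ => hcon y
  rw [← Finset.mul_sum, ← h1, Finset.sum_const, smul_eq_mul] at h2
  exact lt_irrefl _ h2

theorem exists_tube (hs : HS G) (o : V) (D : ℕ) (hpg : PG hG o D) (t q : ℝ) (ht : 0 < t)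
    (ht1 : t ≤ 1) (hq : 1 < q)
    (hc : ∀ᶠ n : ℕ in atTop, q ^ n ≤ (cnt (sa G) o n : ℝ) * t ^ n) (Λ : ℝ) :
    ∃ (hs' : HS G) (g : G ≃g G) (x : V) (F : Finset (List V)), g ∈ hs'.Γ ∧ 0 < hs'.χ g ∧
      TubeAt G hs'.u g x F ∧ Λ ≤ ∑ s ∈ F, t ^ s.length := by
  classical
  obtain ⟨K1, hK1⟩ := h59_close hG hs
  obtain ⟨K2, hK2⟩ := h59_close hG (h59_neg hs)
  set q1 := Real.sqrt q with hq1d
  have hq1 : 1 < q1 := by
    rw [hq1d]
    exact Real.lt_sqrt_of_sq_lt (by simpa using hq)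
  have hq10 : 0 < q1 := by linarith
  have hq1q : q1 * q1 = q := Real.mul_self_sqrt (by linarith)
  obtain ⟨C, hC0, hC⟩ := subexp hG o D hpg q1 hq1
  set K := max K1 K2 with hK
  obtain ⟨m, v, hmv⟩ := exists_heavy hG hs o (t / q1) q1 (by positivity) hq1 (by
    filter_upwards [hc] with n hn
    rw [div_pow, ← mul_div_assoc, le_div_iff₀ (by positivity), ← mul_pow, hq1q]
    exact hn) (2 * C * ((|Λ| + 1) / t ^ K))
  -- the finite set of pieces
  have hfin := fin_of_imp hG.lf (P := Pc G hs.u) (fun v s h => h.1.1) m v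
  set S := hfin.toFinset with hS
  have hcard : cnt (Pc G hs.u) v m = S.card := by
    rw [cnt, Set.ncard_eq_toFinset_card _ hfin]
  have hmem : ∀ s, s ∈ S ↔ s.length = m ∧ Pc G hs.u v s := fun s => by
    rw [hS, Set.Finite.mem_toFinset]; rfl
  rw [hcard] at hmv
  set Su := S.filter (fun s => ∀ z ∈ v :: s, hs.u v ≤ hs.u z ∧ hs.u z ≤ hs.u (en v s)) with hSu
  set Sd := S.filter (fun s => ∀ z ∈ v :: s, hs.u z ≤ hs.u v ∧ hs.u (en v s) ≤ hs.u z) with hSd
  have hsub : S ⊆ Su ∪ Sd := by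
    intro s hs'
    rcases ((hmem s).1 hs').2.2 with h | h
    · exact Finset.mem_union_left _ (Finset.mem_filter.2 ⟨hs', h⟩)
    · exact Finset.mem_union_right _ (Finset.mem_filter.2 ⟨hs', h⟩)
  have hle : S.card ≤ Su.card + Sd.card :=
    (Finset.card_le_card hsub).trans (Finset.card_union_le _ _)
  -- a general estimate
  have key : ∀ T : Finset (List V), T ⊆ S → S.card ≤ 2 * T.card → ∃ y,
      (|Λ| + 1) / t ^ K < ((T.filter (fun s => en v s = y)).card : ℝ) * t ^ m := by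
    intro T hTS hT2
    obtain ⟨y, hy⟩ := h59_pigeon hG m v T (fun s h => ⟨((hmem s).1 (hTS h)).1,
      ((hmem s).1 (hTS h)).2.1.1⟩)
    refine ⟨y, ?_⟩
    set a := (T.filter (fun s => en v s = y)).card with ha
    have h1 : (S.card : ℝ) ≤ 2 * (C * q1 ^ m * a) := by
      have h2 : (S.card : ℝ) ≤ 2 * (T.card : ℝ) := by exact_mod_cast hT2
      have h3 : (T.card : ℝ) ≤ ((bl hG v m).card : ℝ) * a := by exact_mod_cast hy
      have h4 : ((bl hG v m).card : ℝ) ≤ C * q1 ^ m := by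
        rw [card_bl hG v o m]; exact hC m
      have h5 : ((bl hG v m).card : ℝ) * a ≤ C * q1 ^ m * a :=
        mul_le_mul_of_nonneg_right h4 (Nat.cast_nonneg _)
      linarith
    have h6 : (S.card : ℝ) * (t / q1) ^ m ≤ 2 * C * (a * t ^ m) := by
      have h7 : 0 ≤ (t / q1) ^ m := by positivity
      refine (mul_le_mul_of_nonneg_right h1 h7).trans (le_of_eq ?_)
      rw [div_pow]
      field_simp
    have h8 := lt_of_lt_of_le hmv h6
    exact lt_of_mul_lt_mul_left h8 (by positivity)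
  have hpos : 0 < (|Λ| + 1) / t ^ K := by positivity
  have fin : ∀ (Ki : ℕ) (a : ℝ), Ki ≤ K → (|Λ| + 1) / t ^ K < a → Λ ≤ a * t ^ Ki := by
    intro Ki a h1 h2
    have h3 : t ^ K ≤ t ^ Ki := pow_le_pow_of_le_one ht.le ht1 h1
    have h4 : 0 < t ^ K := by positivity
    rw [div_lt_iff₀ h4] at h2
    have h5 : a * t ^ K ≤ a * t ^ Ki := by
      refine mul_le_mul_of_nonneg_left h3 ?_
      by_contra h6
      push Not at h6
      nlinarith [abs_nonneg Λ]
    linarith [le_abs_self Λ]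
  rcases le_total Sd.card Su.card with h | h
  · obtain ⟨y, hy⟩ := key Su (Finset.filter_subset _ _) (by omega)
    set F₀ := Su.filter (fun s => en v s = y) with hF₀
    have hne : F₀.Nonempty := by
      rw [← Finset.card_pos]
      by_contra h0
      have h00 : F₀.card = 0 := by omega
      rw [h00] at hy
      simp only [Nat.cast_zero, zero_mul] at hy
      linarith
    obtain ⟨g, F, a1, a2, a3, a4⟩ := hK1 t ht ht1 m v y F₀ (by
      intro s h1
      obtain ⟨h2, h3⟩ := Finset.mem_filter.1 h1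
      obtain ⟨h4, h5⟩ := Finset.mem_filter.1 h2
      obtain ⟨h6, h7⟩ := (hmem s).1 h4
      rw [h3] at h5
      exact ⟨h6, h7.1, h3, h5⟩) hne
    exact ⟨hs, g, v, F, a1, a2, a3, (fin K1 _ (le_max_left _ _) hy).trans a4⟩
  · obtain ⟨y, hy⟩ := key Sd (Finset.filter_subset _ _) (by omega)
    set F₀ := Sd.filter (fun s => en v s = y) with hF₀
    have hne : F₀.Nonempty := by
      rw [← Finset.card_pos]
      by_contra h0
      have h00 : F₀.card = 0 := by omega
      rw [h00] at hy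
      simp only [Nat.cast_zero, zero_mul] at hy
      linarith
    obtain ⟨g, F, a1, a2, a3, a4⟩ := hK2 t ht ht1 m v y F₀ (by
      intro s h1
      obtain ⟨h2, h3⟩ := Finset.mem_filter.1 h1
      obtain ⟨h4, h5⟩ := Finset.mem_filter.1 h2
      obtain ⟨h6, h7⟩ := (hmem s).1 h4
      rw [h3] at h5
      refine ⟨h6, h7.1, h3, fun z hz => ?_⟩
      have h8 := h5 z hz
      exact ⟨neg_le_neg h8.1, neg_le_neg h8.2⟩) hne
    exact ⟨h59_neg hs, g, v, F, a1, a2, a3, (fin K2 _ (le_max_right _ _) hy).trans a4⟩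

end Pool.H61.ST
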