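import Pool.Agent.H98.C.Main
import Pool.Agent.H61.ST.Unim
import Pool.Agent.H61.ST.Low
import Pool.Agent.H61.ST.Harm
import Pool.Agent.H61.ST.Fdim
import Pool.Agent.H61.ST.Abel
import Pool.Agent.H61.ST.Hom
import Pool.Agent.H61.ST.Str
import Pool.Agent.H61.ST.Tube
import Pool.Agent.H61.ST.Kap
import Pool.Agent.H61.ST.Ling
import Pool.Agent.H61.ST.Slab
import Pool.Agent.H61.ST.Qi
import Pool.Agent.H61.ST.Suptr
import Pool.Agent.H61.ST.Chain2
import Pool.Agent.H61.ST.Thins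
import Pool.Agent.H61.ST.Qsup
import Pool.Agent.H61.ST.CaseE

set_option autoImplicit false

/-! Lower bound for connective constants near a transitive graph of polynomial growth. -/

namespace Pool.H61.ST

open Finset Filter Topology Pool.Agent.H61.SW Pool.H98.C

theorem exists_HS_of_PG {V : Type} [Infinite V] {G : SimpleGraph V} (hG : TG G) (o : V) (D : ℕ)
    (hpg : PG hG o D) : Nonempty (HS G) := by
  have huni := unimod_of_PG hG o D hpg
  have hh : ∀ R, Nonempty (Homog G o R) := fun R => exists_homog hG o huni R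
  have hne := exists_harmonic hG o hh (fun η hη => exists_low hG ‹_› o D hpg η hη)
  have hfd := finite_LH hG o D hpg hh
  obtain ⟨Γ₀, hfi, hab⟩ := virt_abel hG o D hpg hfd
  obtain ⟨Γ₁, χ, h1, h2, h3, h4⟩ := exists_hom hG ‹_› o hfd hne Γ₀ hfi hab
  exact exists_HS hG o huni Γ₁ h1 χ h2 h3 h4

/-- `G'` looks like `G` up to radius `n` -/
def BI {V W : Type} (G : SimpleGraph V) (o : V) (G' : SimpleGraph W) (o' : W) (n : ℕ) : Prop :=
  ∃ φ : G.induce {v | G.dist o v ≤ n} ≃g G'.induce {v | G'.dist o' v ≤ n},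
      ∀ x : {v | G.dist o v ≤ n}, (x : V) = o → ((φ x : {v | G'.dist o' v ≤ n}) : W) = o'

/-- superblocks settle the matter -/
theorem super_lower {V : Type} [Infinite V] {G : SimpleGraph V} (hG : TG G) (o : V) {t : ℝ}
    (ht : 0 < t) (ht1 : t ≤ 1) (hS : ∃ p ρ : ℕ, 2 * ρ < p ∧ Super G t p ρ) :
    ∃ n0 : ℕ, ∀ (W : Type) [Infinite W] (G' : SimpleGraph W) (o' : W), TG G' →
      (∀ n ≤ n0, BI G o G' o' n) → ¬ Summable (fun k => (cnt (sa G') o' k : ℝ) * t ^ k) := by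
  obtain ⟨p, ρ, hρ, hS⟩ := hS
  refine ⟨4 * p, fun W _ G' o' hG' hB => ?_⟩
  obtain ⟨φ, hφ⟩ := hB (4 * p) le_rfl
  exact chain2 hG' ‹_› o' t ht ht1 p ρ hρ (super_transfer hG hG' o o' t p ρ hρ (4 * p) le_rfl φ hφ hS)

/-- polynomial growth: divergence of the generating function for all transitive unimodular graphs
with the same large ball -/
theorem pg_diverges {V : Type} [Infinite V] {G : SimpleGraph V} (hG : TG G) (o : V) (D : ℕ)
    (hpg : PG hG o D) {lam q : ℝ} (hlam : 0 < lam) (hq : 1 < q)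
    (hc : ∀ᶠ n : ℕ in atTop, q ^ n ≤ (cnt (sa G) o n : ℝ) * Real.exp (-lam) ^ n) :
    ∃ n0 : ℕ, ∀ (W : Type) [Infinite W] (G' : SimpleGraph W) (o' : W), TG G' →
      (∀ R, Nonempty (Homog G' o' R)) → (∀ n ≤ n0, BI G o G' o' n) →
      ¬ Summable (fun k => (cnt (sa G') o' k : ℝ) * Real.exp (-lam) ^ k) := by
  have ht : 0 < Real.exp (-lam) := Real.exp_pos _
  have ht1 : Real.exp (-lam) ≤ 1 := Real.exp_le_one_iff.2 (by linarith)
  obtain ⟨hs0⟩ := exists_HS_of_PG hG o D hpg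
  obtain ⟨hs, g, x, F, hg, hχ, hF, hw⟩ := exists_tube hG hs0 o D hpg (Real.exp (-lam)) q ht ht1 hq
    hc (Real.exp 1)
  have hw2 : 2 ≤ fw (Real.exp (-lam)) F := by
    have h1 : (2 : ℝ) ≤ Real.exp 1 := by have := Real.add_one_le_exp (1 : ℝ); linarith
    exact h1.trans hw
  have hFm : Fm G x (g x) {z | z = g x ∨ (hs.u x ≤ hs.u z ∧ hs.u z < hs.u (g x))} F := by
    intro s hsF
    obtain ⟨h1, h2, h3⟩ := hF s hsF
    refine ⟨h1, h2, fun z hz => ?_⟩
    by_cases h : z = g x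
    · exact Or.inl h
    · exact Or.inr (h3 z hz h)
  have hsup : (∃ p ρ : ℕ, 2 * ρ < p ∧ Super G (Real.exp (-lam)) p ρ) →
      ∃ n0 : ℕ, ∀ (W : Type) [Infinite W] (G' : SimpleGraph W) (o' : W), TG G' →
      (∀ R, Nonempty (Homog G' o' R)) → (∀ n ≤ n0, BI G o G' o' n) →
      ¬ Summable (fun k => (cnt (sa G') o' k : ℝ) * Real.exp (-lam) ^ k) := by
    intro h
    obtain ⟨n0, hn0⟩ := super_lower hG o ht ht1 h
    exact ⟨n0, fun W _ G' o' hG' _ hB => hn0 W G' o' hG' hB⟩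
  rcases thin_or_quad hG ‹_› o with ⟨f, C, hf⟩ | hlow
  · exact hsup (thin_super hG ‹_› hs f C hf g hg hχ x F hFm _ ht ht1 hw2)
  by_cases hquad : ∃ K : ℝ, ∀ N : ℕ, ∃ r ≥ N, ((bl hG o r).card : ℝ) ≤ K * (r : ℝ) ^ 2
  · have hinf := orb_infinite hG hs o x hlow
    have hlin := orb_linear hG hs o x hquad
    have hsl := slab_ql hG hs o D hpg x hquad hinf
    obtain ⟨s, C, hsΓ, hχs, hL⟩ := exists_lat hG hs x hinf hlin hsl g hg hχ
    exact hsup (quad_super hG hs s g x C hL hsΓ hχs hg hχ F hFm _ ht ht1 hw2)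
  · push Not at hquad
    obtain ⟨r0, hr0⟩ := case_E hG o D hpg (fun K => by
      obtain ⟨N, hN⟩ := hquad K
      exact ⟨N, fun r hr => (hN r hr).le⟩) hlam hs g hg hχ x F hF hw
    refine ⟨r0, fun W _ G' o' hG' hH hB => ?_⟩
    obtain ⟨φ, hφ⟩ := hB r0 le_rfl
    obtain ⟨I⟩ := LI.of_iso o' o r0 φ hφ
    exact hr0 W G' o' hG' hH I.symm

/-- the lower bound at limits of polynomial growth -/
theorem pg_lower {V : Type} [Infinite V] {G : SimpleGraph V} (hG : TG G) (o : V) (D : ℕ)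
    (hpg : PG hG o D) {μ : ℝ}
    (hμ : Tendsto (fun n : ℕ => (cnt (sa G) o n : ℝ) ^ ((1 : ℝ) / n)) atTop (𝓝 μ))
    (a : ℝ) (ha : a < μ) :
    ∃ n0 : ℕ, ∀ (W : Type) [Infinite W] (G' : SimpleGraph W) (o' : W) (m : ℝ), TG G' →
    Tendsto (fun n : ℕ => (cnt (sa G') o' n : ℝ) ^ ((1 : ℝ) / n)) atTop (𝓝 m) →
    (∀ n ≤ n0, BI G o G' o' n) → a < m := by
  have hμ1 : 1 ≤ μ := one_le_mu hG o hμ
  have heqG : ∀ v n, cnt (sa G) v n = cnt (sa G) o n := fun v n => cnt_eq hG v n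
  have hpow : ∀ n, μ ^ n ≤ (cnt (sa G) o n : ℝ) := by
    intro n
    rcases Nat.eq_zero_or_pos n with rfl | hn
    · rw [pow_zero, sigma_zero]; norm_num
    have h4 := mu_pow_le hG.lf o heqG hμ n hn
    calc μ ^ n ≤ ((cnt (sa G) o n : ℝ) ^ ((1 : ℝ) / n)) ^ n :=
          pow_le_pow_left₀ (by linarith) h4 n
      _ = (cnt (sa G) o n : ℝ) := by
        rw [← Real.rpow_natCast, ← Real.rpow_mul (Nat.cast_nonneg _)]
        have : (n : ℝ) ≠ 0 := by exact_mod_cast hn.ne'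
        rw [one_div_mul_cancel this, Real.rpow_one]
  by_cases hμ2 : μ ≤ 1
  · exact ⟨0, fun W _ G' o' m hG' hm _ => lt_of_lt_of_le (ha.trans_le hμ2) (one_le_mu hG' o' hm)⟩
  push Not at hμ2
  obtain ⟨a', ha'⟩ : ∃ a', a' = (max a 1 + μ) / 2 := ⟨_, rfl⟩
  have h1 : max a 1 < μ := max_lt ha hμ2
  have h2 : max a 1 < a' := by rw [ha']; linarith
  have h3 : a' < μ := by rw [ha']; linarith
  have h4 : 1 < a' := (le_max_right _ _).trans_lt h2
  have h5 : a < a' := (le_max_left _ _).trans_lt h2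
  have hlam0 : 0 < Real.log a' := Real.log_pos h4
  have hexp : Real.exp (-Real.log a') = 1 / a' := by
    rw [Real.exp_neg, Real.exp_log (by linarith), one_div]
  obtain ⟨n1, hn1⟩ := pg_diverges hG o D hpg hlam0 (q := μ / a') (by
    rw [lt_div_iff₀ (by linarith)]; linarith) (Eventually.of_forall fun n => by
      rw [hexp, div_pow, div_pow, one_pow, ← mul_one_div]
      exact mul_le_mul_of_nonneg_right (hpow n) (by positivity))
  obtain ⟨E, hE⟩ : ∃ E : ℝ, E = max 1 (cnt (sa G) o 1 : ℝ) := ⟨_, rfl⟩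
  have hE1 : 1 ≤ E := by rw [hE]; exact le_max_left _ _
  obtain ⟨n, hn, L, hL, δ, hδ, hδ1, key⟩ := liminf_arg μ E hE1 (by linarith)
    (fun r => Set.ncard {v | G.dist o v ≤ r}) a ha
  refine ⟨n1 + n + L + 1, fun W _ G' o' m hG' hm hB => ?_⟩
  have hcc : ∀ k ≤ n1 + n + L + 1, cnt (sa G') o' k = cnt (sa G) o k := by
    intro k hk
    obtain ⟨φ, hφ⟩ := hB k hk
    exact (cnt_sa_eq_of_iso o o' k hG.lf hG'.lf φ hφ).symm
  by_cases huni : ∀ x y, (Pool.H98.C.orb G' x y).ncard = (Pool.H98.C.orb G' y x).ncard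
  · have hns := hn1 W G' o' hG' (fun R => exists_homog hG' o' huni R) fun n hn => hB n (by omega)
    have h7 := le_of_not_summable (fun k => Nat.cast_nonneg _) (Real.exp_pos _) hm hns
    rw [hexp, one_div_one_div] at h7
    linarith
  · obtain ⟨h, hh⟩ := hasHeight_of_not_uni hG' huni
    have heq' : ∀ v n, cnt (sa G') v n = cnt (sa G') o' n := fun v n => cnt_eq hG' v n
    obtain ⟨s, hs, hb⟩ := height_bound hG'.lf hG'.conn o' hm (h := h) hh δ hδ hδ1 L hL n
    have hm0 : 0 ≤ m := zero_le_one.trans (one_le_mu hG' o' hm)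
    have hballs : Set.ncard {v | G'.dist o' v ≤ L} = Set.ncard {v | G.dist o v ≤ L} := by
      obtain ⟨φ, hφ⟩ := hB L (by omega)
      rw [← Nat.card_coe_set_eq, ← Nat.card_coe_set_eq]
      exact (Nat.card_congr φ.toEquiv).symm
    refine key m hm0 ?_ s (by rw [← hballs]; exact hs) ?_
    · have h9 := mu_pow_le hG'.lf o' heq' hm 1 one_pos
      rw [Nat.cast_one, div_one, Real.rpow_one] at h9
      refine h9.trans ?_
      rw [hcc 1 (by omega), hE]
      exact le_max_right _ _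
    · refine le_trans ?_ hb
      rw [hcc n (by omega)]
      exact hpow n

end Pool.H61.ST
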