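import Pool.Agent.H61.ST.Defs2

set_option autoImplicit false

/-! Combining families of walks. -/

namespace Pool.H61.ST

open Finset Pool.Agent.H61.SW Pool.H98.C

section FMS
variable {V : Type} {G : SimpleGraph V}

lemma Fm.mono {x y : V} {A B : Set V} {F : Finset (List V)} (h : Fm G x y A F)
    (hAB : A ⊆ B) : Fm G x y B F :=
  fun s hs => ⟨(h s hs).1, (h s hs).2.1, fun z hz => hAB ((h s hs).2.2 z hz)⟩

lemma split_unique_aux {x y : V} {s1 s2 s1' s2' : List V} (h1' : sa G x s1')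
    (e1 : en x s1 = y) (e1' : en x s1' = y) (h : s1 ++ s2 = s1' ++ s2')
    (hl : s1.length ≤ s1'.length) : s1 = s1' := by
  obtain ⟨r, rfl⟩ : ∃ r, s1' = s1 ++ r := by
    have : s1 <+: s1' ++ s2' := by rw [← h]; exact List.prefix_append _ _
    obtain ⟨r, hr⟩ := List.prefix_of_prefix_length_le this (List.prefix_append s1' s2') hl
    exact ⟨r, hr.symm⟩
  by_cases hr : r = []
  · rw [hr, List.append_nil]
  · exfalso
    rw [en_append, e1] at e1'
    have h2 : y ∈ r := by
      have := en_mem y r hr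
      rwa [e1'] at this
    have h3 : y ∈ x :: s1 := by rw [← e1]; exact en_mem_cons x s1
    have h4 := h1'.2
    rw [← List.cons_append, List.nodup_append] at h4
    exact h4.2.2 _ h3 _ h2 rfl

lemma split_unique {x y : V} {s1 s2 s1' s2' : List V} (h1 : sa G x s1) (h1' : sa G x s1')
    (e1 : en x s1 = y) (e1' : en x s1' = y) (h : s1 ++ s2 = s1' ++ s2') :
    s1 = s1' ∧ s2 = s2' := by
  have h3 : s1 = s1' := by
    rcases le_total s1.length s1'.length with hl | hl
    · exact split_unique_aux h1' e1 e1' h hl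
    · exact (split_unique_aux h1 e1' e1 h.symm hl).symm
  subst h3
  exact ⟨rfl, List.append_cancel_left h⟩

theorem fm_comb {x y z : V} {A B : Set V} {F₁ F₂ : Finset (List V)} (t : ℝ)
    (h1 : Fm G x y A F₁) (h2 : Fm G y z B F₂) (hAB : ∀ v, v ∈ A → v ∈ B → v = y) :
    ∃ F, Fm G x z (A ∪ B) F ∧ fw t F = fw t F₁ * fw t F₂ := by
  classical
  refine ⟨(F₁ ×ˢ F₂).image (fun p => p.1 ++ p.2), ?_, ?_⟩
  · intro s hs
    obtain ⟨⟨s1, s2⟩, hp, rfl⟩ := Finset.mem_image.1 hs
    obtain ⟨hp1, hp2⟩ := Finset.mem_product.1 hp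
    obtain ⟨a1, a2, a3⟩ := h1 s1 hp1
    obtain ⟨b1, b2, b3⟩ := h2 s2 hp2
    refine ⟨⟨?_, ?_⟩, ?_, ?_⟩
    · rw [ch_append, a2]; exact ⟨a1.1, b1.1⟩
    · show (x :: (s1 ++ s2)).Nodup
      rw [← List.cons_append, List.nodup_append]
      refine ⟨a1.2, (List.nodup_cons.1 b1.2).2, ?_⟩
      rintro v hv w hw rfl
      have h4 : v = y := hAB v (a3 v hv) (b3 v (List.mem_cons_of_mem _ hw))
      rw [h4] at hw
      exact (List.nodup_cons.1 b1.2).1 hw
    · show en x (s1 ++ s2) = z
      rw [en_append, a2, b2]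
    · intro v hv
      rcases List.mem_cons.1 hv with rfl | hv
      · exact Or.inl (a3 v (by simp))
      rcases List.mem_append.1 hv with hv | hv
      · exact Or.inl (a3 v (List.mem_cons_of_mem _ hv))
      · exact Or.inr (b3 v (List.mem_cons_of_mem _ hv))
  · unfold fw
    rw [Finset.sum_image, Finset.sum_product, Finset.sum_mul_sum]
    · refine Finset.sum_congr rfl fun s1 _ => Finset.sum_congr rfl fun s2 _ => ?_
      rw [List.length_append, pow_add]
    · rintro ⟨s1, s2⟩ hp ⟨s1', s2'⟩ hp' heq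
      simp only [Finset.coe_product, Set.mem_prod, Finset.mem_coe] at hp hp'
      obtain ⟨e1, e2⟩ := split_unique (h1 s1 hp.1).1 (h1 s1' hp'.1).1 (h1 s1 hp.1).2.1
        (h1 s1' hp'.1).2.1 heq
      exact Prod.ext e1 e2

theorem fm_rev {x y : V} {A : Set V} {F : Finset (List V)} (t : ℝ) (h : Fm G x y A F) :
    ∃ F', Fm G y x A F' ∧ fw t F' = fw t F := by
  classical
  refine ⟨F.image (rv x), ?_, ?_⟩
  · intro s' hs'
    obtain ⟨s, hs, rfl⟩ := Finset.mem_image.1 hs'
    obtain ⟨a1, a2, a3⟩ := h s hs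
    refine ⟨a2 ▸ sa_rv x s a1, ?_, ?_⟩
    · rw [← a2]; exact en_rv x s
    · intro z hz
      rw [← a2, mem_rv] at hz
      exact a3 z hz
  · unfold fw
    rw [Finset.sum_image]
    · exact Finset.sum_congr rfl fun s _ => by rw [length_rv]
    · intro s hs s' hs' heq
      have e1 := rv_rv x s
      have e2 := rv_rv x s'
      rw [(h s hs).2.1] at e1
      rw [(h s' hs').2.1] at e2
      rw [← e1, ← e2]
      exact congrArg _ heq

theorem fm_map {x y : V} {A : Set V} {F : Finset (List V)} (t : ℝ) (h : Fm G x y A F)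
    (g : G ≃g G) : ∃ F', Fm G (g x) (g y) (g '' A) F' ∧ fw t F' = fw t F := by
  classical
  refine ⟨F.image (List.map g), ?_, ?_⟩
  · intro s' hs'
    obtain ⟨s, hs, rfl⟩ := Finset.mem_image.1 hs'
    obtain ⟨a1, a2, a3⟩ := h s hs
    refine ⟨(sa_map g x s).2 a1, by rw [en_map, a2], ?_⟩
    intro z hz
    rw [← List.map_cons, List.mem_map] at hz
    obtain ⟨w, hw, rfl⟩ := hz
    exact ⟨w, a3 w hw, rfl⟩
  · unfold fw
    rw [Finset.sum_image]
    · exact Finset.sum_congr rfl fun s _ => by rw [List.length_map]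
    · intro s _ s' _ heq
      exact List.map_injective_iff.2 g.injective heq

theorem fm_pow {x : V} {A : Set V} {F : Finset (List V)} (t : ℝ) (h : G ≃g G)
    (hF : Fm G x (h x) A F)
    (hA : ∀ k : ℕ, 1 ≤ k → ∀ z ∈ A, ∀ w ∈ A, z = (h ^ k) w → k = 1 ∧ z = h x) (N : ℕ) :
    ∃ F', Fm G x ((h ^ N) x) {z | z = x ∨ ∃ k < N, ∃ w ∈ A, z = (h ^ k) w} F' ∧
      fw t F' = (fw t F) ^ N := by
  classical
  by_cases hne : F.Nonempty
  swap
  · rw [Finset.not_nonempty_iff_eq_empty] at hne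
    subst hne
    rcases Nat.eq_zero_or_pos N with rfl | hN
    · refine ⟨{[]}, ?_, by simp [fw]⟩
      intro s hs
      rw [Finset.mem_singleton.1 hs]
      exact ⟨sa_nil x, rfl, fun z hz => Or.inl (by simpa using hz)⟩
    · exact ⟨∅, fun s hs => absurd hs (Finset.notMem_empty s), by
        simp [fw, Nat.pos_iff_ne_zero.1 hN]⟩
  obtain ⟨s0, hs0⟩ := hne
  have hxA : x ∈ A := (hF s0 hs0).2.2 x (by simp)
  induction N with
  | zero =>
    refine ⟨{[]}, ?_, by simp [fw]⟩
    intro s hs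
    rw [Finset.mem_singleton.1 hs]
    exact ⟨sa_nil x, rfl, fun z hz => Or.inl (by simpa using hz)⟩
  | succ N ih =>
    obtain ⟨F1, h1, h2⟩ := ih
    obtain ⟨F2, h3, h4⟩ := fm_map t hF (h ^ N)
    have e1 : (h ^ N) (h x) = (h ^ (N + 1)) x := by rw [pow_succ]; rfl
    rw [e1] at h3
    obtain ⟨F', h5, h6⟩ := fm_comb t h1 h3 (by
      rintro v hv ⟨w, hw, rfl⟩
      rcases hv with hv | ⟨k, hk, z', hz', hv⟩
      · rcases Nat.eq_zero_or_pos N with rfl | hN
        · rw [hv]; rfl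
        · obtain ⟨e2, e3⟩ := hA N hN x hxA w hw hv.symm
          subst e2
          rw [hv, pow_one]; exact e3
      · have e2 : z' = (h ^ (N - k)) w := by
          have : (h ^ N) w = (h ^ k) ((h ^ (N - k)) w) := by
            rw [← RelIso.mul_apply, ← pow_add]
            congr 2; omega
          rw [this] at hv
          exact (h ^ k).injective hv.symm
        obtain ⟨e3, e4⟩ := hA (N - k) (by omega) z' hz' w hw e2
        rw [hv, e4]
        rw [← RelIso.mul_apply, ← pow_succ]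
        congr 2; omega)
    refine ⟨F', h5.mono ?_, by rw [h6, h2, h4, pow_succ]⟩
    rintro v (hv | ⟨w, hw, rfl⟩)
    · rcases hv with hv | ⟨k, hk, w, hw, hv⟩
      · exact Or.inl hv
      · exact Or.inr ⟨k, by omega, w, hw, hv⟩
    · exact Or.inr ⟨N, by omega, w, hw, rfl⟩

end FMS

end Pool.H61.ST
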