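import Pool.Agent.H61.ST.Heavy0
import Pool.Agent.H61.ST.Hwd

set_option autoImplicit false

/-! Heavy families of monotone pieces. -/

namespace Pool.H61.ST

open Finset Pool.Agent.H61.SW Pool.H98.C Filter

variable {V : Type} {G : SimpleGraph V}

theorem exists_heavy (hG : TG G) (hs : HS G) (o : V) (t q : ℝ) (ht : 0 < t) (hq : 1 < q)
    (hc : ∀ᶠ n : ℕ in atTop, q ^ n ≤ (cnt (sa G) o n : ℝ) * t ^ n) (A : ℝ) :
    ∃ (m : ℕ) (v : V), A < (cnt (Pc G hs.u) v m : ℝ) * t ^ m := by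
  obtain ⟨A₀, h⟩ := hw_dec hG hs
  exact heavy_of_dec hG (Pc G hs.u) (fun _ _ h => h.1) A₀ h o t q ht hq hc A

end Pool.H61.ST
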