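import Pool.Agent.H98.C.Count

set_option autoImplicit false

/-! Heavy families from a decomposition of walks into few pieces (general form). -/

namespace Pool.H61.ST

open Finset Pool.Agent.H61.SW Pool.H98.C Filter

variable {V : Type} {G : SimpleGraph V}

lemma CP_restrict {P : V → List V → Prop} (K n : ℕ) (v : V) (s : List V) (h : CP P n v s)
    (hs : s.length ≤ K) : CP (fun v c => P v c ∧ c.length ≤ K) n v s := by
  induction n generalizing v s with
  | zero => exact h
  | succ n ih =>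
    obtain ⟨c, t, rfl, h1, h2⟩ := h
    rw [List.length_append] at hs
    exact ⟨c, t, rfl, ⟨h1, by omega⟩, ih _ _ h2 (by omega)⟩

/-- If walks decompose into few pieces with property `P`, some family of pieces is heavy. -/
theorem heavy_of_dec (hG : TG G) (P : V → List V → Prop) (hP : ∀ v s, P v s → sa G v s)
    (A₀ : ℕ) (hdec : ∀ (v : V) (s : List V), sa G v s → ∀ H : ℕ, 1 ≤ H →
      ∃ n, CP P n v s ∧ n * H ≤ s.length + 2 * H * (A₀ * H + 1))
    (o : V) (t q : ℝ) (ht : 0 < t) (hq : 1 < q)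
    (hc : ∀ᶠ n : ℕ in atTop, q ^ n ≤ (cnt (sa G) o n : ℝ) * t ^ n) (A : ℝ) :
    ∃ (m : ℕ) (v : V), A < (cnt P v m : ℝ) * t ^ m := by
  by_contra hcon
  push Not at hcon
  set A' : ℝ := max A 1 with hA'
  have hA1 : 1 ≤ A' := le_max_right _ _
  set C : ℕ := 2 * A₀ + 3 with hC
  -- the basic estimate
  have key : ∀ j : ℕ, 1 ≤ j → (cnt (sa G) o (j * j) : ℝ) * t ^ (j * j) ≤
      (2 * (((j * j : ℕ) : ℝ) + 1) * A') ^ (C * j) := by
    intro j hj
    set m := j * j with hm
    set P' : V → List V → Prop := fun v c => P v c ∧ c.length ≤ m with hP'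
    set W : ℝ := ((m : ℝ) + 1) * A' with hWdef
    have hW1 : 1 ≤ W := by
      have : (0 : ℝ) ≤ m := Nat.cast_nonneg _
      nlinarith
    set N : ℕ := (2 * A₀ + 1) * j + 2 with hN
    have h1 := count_peel hG o t ht P' m (fun v c h => ⟨hP v c h.1, h.2⟩) W hW1 ?_ m 0 N ?_
    · have hcnt0 : cnt (sa G) o 0 = 1 := by
        rw [cnt, Set.ncard_eq_one]
        refine ⟨[], ?_⟩
        ext s
        simp only [Set.mem_ofPred_eq, Set.mem_singleton_iff]
        constructor
        · rintro ⟨h, -⟩; exact List.length_eq_zero_iff.1 h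
        · rintro rfl; exact ⟨rfl, sa_nil o⟩
      have hs0 : (∑ k ∈ Finset.range (0 + 1), (cnt (sa G) o k : ℝ) * t ^ k) = 1 := by
        rw [zero_add, Finset.sum_range_one, hcnt0]; simp
      rw [hs0, one_pow, mul_one] at h1
      refine h1.trans ?_
      have h2 : ((N : ℝ) + 1) ≤ 2 ^ N := by
        have := Nat.lt_two_pow_self (n := N)
        exact_mod_cast this
      have hW0 : 0 ≤ W ^ N := pow_nonneg (by linarith) _
      have h3 : ((N : ℝ) + 1) * W ^ N ≤ (2 * W) ^ N := by
        rw [mul_pow 2 W N]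
        exact mul_le_mul_of_nonneg_right h2 hW0
      refine h3.trans ?_
      have h4 : (2 * W) ^ N ≤ (2 * W) ^ (C * j) := by
        apply pow_le_pow_right₀ (by linarith)
        rw [hN, hC]
        nlinarith
      refine h4.trans (le_of_eq ?_)
      rw [hWdef]; ring
    · intro v
      have h2 : ∀ k ∈ Finset.range (m + 1), (cnt P' v k : ℝ) * t ^ k ≤ A' := by
        intro k _
        refine le_trans ?_ ((hcon k v).trans (le_max_left _ _))
        refine mul_le_mul_of_nonneg_right ?_ (by positivity)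
        rw [Nat.cast_le]
        apply Set.ncard_le_ncard
        · rintro s ⟨h, h'⟩; exact ⟨h, h'.1⟩
        · exact fin_of_imp hG.lf (fun v s h => (hP v s h).1) k v
      refine (Finset.sum_le_sum h2).trans (le_of_eq ?_)
      rw [Finset.sum_const, Finset.card_range, nsmul_eq_mul, hWdef]
      push_cast; ring
    · intro s hs hsm
      obtain ⟨n, hn, hn'⟩ := hdec o s hs j hj
      refine ⟨n, ?_, [], s, [], by simp, by simp, ?_⟩
      · rw [hsm, hm] at hn'
        have h5 : n * j ≤ N * j := by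
          rw [hN]
          nlinarith
        exact Nat.le_of_mul_le_mul_right h5 (by omega)
      · exact CP_restrict m n _ s hn (by omega)
  -- exponential growth against polynomial growth
  have hlim := tendsto_pow_const_div_const_pow_of_one_lt (2 * C) hq
  have hB : 0 < (4 * A') ^ C := by positivity
  have hev : ∀ᶠ j : ℕ in atTop, ((j : ℝ) ^ (2 * C) / q ^ j) < 1 / (4 * A') ^ C := by
    have := hlim.eventually (gt_mem_nhds (show (0 : ℝ) < 1 / (4 * A') ^ C by positivity))
    exact this
  have hc' : ∀ᶠ j : ℕ in atTop, q ^ (j * j) ≤ (cnt (sa G) o (j * j) : ℝ) * t ^ (j * j) := by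
    have : Tendsto (fun j : ℕ => j * j) atTop atTop :=
      tendsto_atTop_mono (fun j => Nat.le_mul_self j) tendsto_id
    exact this.eventually hc
  obtain ⟨j, ⟨hj1, hj2⟩, hj3⟩ := ((hev.and hc').and (eventually_ge_atTop 1)).exists
  have hj4 : (1 : ℝ) ≤ j := by exact_mod_cast hj3
  have h5 := hj2.trans (key j hj3)
  have h6 : (q ^ j) ^ j ≤ ((2 * (((j * j : ℕ) : ℝ) + 1) * A') ^ C) ^ j := by
    rw [← pow_mul, ← pow_mul]; exact h5
  have h7 : q ^ j ≤ (2 * (((j * j : ℕ) : ℝ) + 1) * A') ^ C :=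
    le_of_pow_le_pow_left₀ (by omega) (by positivity) h6
  have h8 : (2 * (((j * j : ℕ) : ℝ) + 1) * A') ≤ (4 * A') * (j : ℝ) ^ 2 := by
    push_cast
    nlinarith [mul_self_nonneg ((j : ℝ) - 1)]
  have h9 : q ^ j ≤ (4 * A') ^ C * (j : ℝ) ^ (2 * C) := by
    refine h7.trans ((pow_le_pow_left₀ (by positivity) h8 C).trans (le_of_eq ?_))
    rw [mul_pow, ← pow_mul]
  have hqj : 0 < q ^ j := by positivity
  rw [div_lt_div_iff₀ hqj hB] at hj1
  linarith

end Pool.H61.ST
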