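import Mathlib

set_option autoImplicit false

/-! Near-identity isometries generating a group of polynomial growth commute. -/

namespace Pool.H61.ST

namespace Jord

section

variable {Γ : Type} [Group Γ] (T : Finset Γ)

/-- `g` is a word of length at most `n` in the generators -/
def Wd (n : ℕ) (g : Γ) : Prop :=
  ∃ l : List Γ, l.length ≤ n ∧ (∀ x ∈ l, x ∈ T ∨ x⁻¹ ∈ T) ∧ l.prod = g

variable {T}

lemma Wd.mono {m n : ℕ} {g : Γ} (h : Wd T m g) (hmn : m ≤ n) : Wd T n g := by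
  obtain ⟨l, h1, h2, h3⟩ := h
  exact ⟨l, h1.trans hmn, h2, h3⟩

lemma Wd.one : Wd T 0 (1 : Γ) := ⟨[], by simp, by simp, rfl⟩

lemma Wd.mul {m n : ℕ} {g h : Γ} (hg : Wd T m g) (hh : Wd T n h) : Wd T (m + n) (g * h) := by
  obtain ⟨l, h1, h2, h3⟩ := hg
  obtain ⟨l', h1', h2', h3'⟩ := hh
  refine ⟨l ++ l', ?_, ?_, ?_⟩
  · rw [List.length_append]; omega
  · intro x hx
    rw [List.mem_append] at hx
    rcases hx with hx | hx
    · exact h2 x hx
    · exact h2' x hx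
  · rw [List.prod_append, h3, h3']

lemma Wd.inv {m : ℕ} {g : Γ} (hg : Wd T m g) : Wd T m g⁻¹ := by
  obtain ⟨l, h1, h2, h3⟩ := hg
  refine ⟨(l.map (fun x => x⁻¹)).reverse, ?_, ?_, ?_⟩
  · rw [List.length_reverse, List.length_map]; exact h1
  · intro x hx
    rw [List.mem_reverse, List.mem_map] at hx
    obtain ⟨y, hy, rfl⟩ := hx
    rcases h2 y hy with h | h
    · right; rw [inv_inv]; exact h
    · left; exact h
  · rw [← h3, List.prod_inv_reverse]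

lemma Wd.pow {m : ℕ} {g : Γ} (hg : Wd T m g) (n : ℕ) : Wd T (n * m) (g ^ n) := by
  induction n with
  | zero => simpa using Wd.one (T := T)
  | succ n ih =>
    rw [pow_succ]
    have := ih.mul hg
    have e : n * m + m = (n + 1) * m := by ring
    rwa [e] at this

lemma Wd.gen {t : Γ} (ht : t ∈ T) : Wd T 1 t :=
  ⟨[t], by simp, by simpa using Or.inl ht, by simp⟩

end

section

variable {A : Type} [NormedRing A] [NormedAlgebra ℝ A] {Γ : Type} [Group Γ] (ρ : Γ →* A)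

/-- the commutator -/
def cm (a b : Γ) : Γ := a * b * a⁻¹ * b⁻¹

lemma rho_inv_mul (g : Γ) : ρ g⁻¹ * ρ g = 1 := by rw [← map_mul]; simp

lemma rho_mul_inv (g : Γ) : ρ g * ρ g⁻¹ = 1 := by rw [← map_mul]; simp

lemma cm_norm (hρ : ∀ g, ‖ρ g‖ ≤ 1) (a b : Γ) :
    ‖ρ (cm a b) - 1‖ ≤ 2 * ‖ρ a - 1‖ * ‖ρ b - 1‖ := by
  have e : ρ (cm a b) - 1 =
      ((ρ a - 1) * (ρ b - 1) - (ρ b - 1) * (ρ a - 1)) * ρ (a⁻¹ * b⁻¹) := by
    have h1 : (ρ a - 1) * (ρ b - 1) - (ρ b - 1) * (ρ a - 1) = ρ a * ρ b - ρ b * ρ a := by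
      noncomm_ring
    rw [h1, sub_mul, ← map_mul, ← map_mul, ← map_mul, ← map_mul]
    have h2 : a * b * (a⁻¹ * b⁻¹) = cm a b := by unfold cm; group
    have h3 : b * a * (a⁻¹ * b⁻¹) = 1 := by group
    rw [h2, h3, map_one]
  rw [e]
  calc _ ≤ ‖(ρ a - 1) * (ρ b - 1) - (ρ b - 1) * (ρ a - 1)‖ * ‖ρ (a⁻¹ * b⁻¹)‖ := norm_mul_le _ _
    _ ≤ ‖(ρ a - 1) * (ρ b - 1) - (ρ b - 1) * (ρ a - 1)‖ * 1 :=
        mul_le_mul_of_nonneg_left (hρ _) (norm_nonneg _)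
    _ ≤ (‖(ρ a - 1) * (ρ b - 1)‖ + ‖(ρ b - 1) * (ρ a - 1)‖) * 1 :=
        mul_le_mul_of_nonneg_right (norm_sub_le _ _) zero_le_one
    _ ≤ (‖ρ a - 1‖ * ‖ρ b - 1‖ + ‖ρ b - 1‖ * ‖ρ a - 1‖) * 1 :=
        mul_le_mul_of_nonneg_right (add_le_add (norm_mul_le _ _) (norm_mul_le _ _)) zero_le_one
    _ = 2 * ‖ρ a - 1‖ * ‖ρ b - 1‖ := by ring

lemma mul_sub_one_norm (hρ : ∀ g, ‖ρ g‖ ≤ 1) (g h : Γ) :
    ‖ρ (g * h) - 1‖ ≤ ‖ρ g - 1‖ + ‖ρ h - 1‖ := by
  have e : ρ (g * h) - 1 = ρ g * (ρ h - 1) + (ρ g - 1) := by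
    rw [map_mul, mul_sub, mul_one]; abel
  rw [e]
  calc _ ≤ ‖ρ g * (ρ h - 1)‖ + ‖ρ g - 1‖ := norm_add_le _ _
    _ ≤ ‖ρ g‖ * ‖ρ h - 1‖ + ‖ρ g - 1‖ := by gcongr; exact norm_mul_le _ _
    _ ≤ 1 * ‖ρ h - 1‖ + ‖ρ g - 1‖ := by
        gcongr
        exact hρ g
    _ = _ := by ring

lemma pow_sub_one_norm (hρ : ∀ g, ‖ρ g‖ ≤ 1) (g : Γ) (n : ℕ) :
    ‖ρ (g ^ n) - 1‖ ≤ n * ‖ρ g - 1‖ := by
  induction n with
  | zero => simp
  | succ n ih =>
    rw [pow_succ]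
    have := mul_sub_one_norm ρ hρ (g ^ n) g
    push_cast
    linarith

/-- second order estimate -/
lemma pow_sub_one_lower (hρ : ∀ g, ‖ρ g‖ ≤ 1) (g : Γ) (n : ℕ) :
    ‖ρ (g ^ n) - 1 - (n : ℝ) • (ρ g - 1)‖ ≤ (n * n / 2 : ℝ) * (‖ρ g - 1‖ * ‖ρ g - 1‖) := by
  induction n with
  | zero => simp
  | succ n ih =>
    have e : ρ (g ^ (n + 1)) - 1 - ((n + 1 : ℕ) : ℝ) • (ρ g - 1) =
        (ρ (g ^ n) - 1 - (n : ℝ) • (ρ g - 1)) + (ρ (g ^ n) - 1) * (ρ g - 1) := by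
      rw [pow_succ, map_mul]
      push_cast
      rw [add_smul, one_smul]
      noncomm_ring
    rw [e]
    have h1 := pow_sub_one_norm ρ hρ g n
    have h2 : ‖(ρ (g ^ n) - 1) * (ρ g - 1)‖ ≤ n * ‖ρ g - 1‖ * ‖ρ g - 1‖ :=
      (norm_mul_le _ _).trans (mul_le_mul_of_nonneg_right h1 (norm_nonneg _))
    have h3 := norm_add_le (ρ (g ^ n) - 1 - (n : ℝ) • (ρ g - 1)) ((ρ (g ^ n) - 1) * (ρ g - 1))
    have h4 : 0 ≤ ‖ρ g - 1‖ * ‖ρ g - 1‖ := mul_nonneg (norm_nonneg _) (norm_nonneg _)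
    push_cast
    nlinarith

lemma pow_sub_one_ge (hρ : ∀ g, ‖ρ g‖ ≤ 1) (g : Γ) {n : ℕ} (hn : 1 ≤ n)
    (hs : (n : ℝ) * ‖ρ g - 1‖ ≤ 1) : ‖ρ g - 1‖ / 2 ≤ ‖ρ (g ^ n) - 1‖ := by
  have h1 := pow_sub_one_lower ρ hρ g n
  have h2 : ‖(n : ℝ) • (ρ g - 1)‖ = n * ‖ρ g - 1‖ := by
    rw [norm_smul]; simp
  have h3 : ‖(n : ℝ) • (ρ g - 1)‖ ≤ ‖ρ (g ^ n) - 1‖ +
      ‖ρ (g ^ n) - 1 - (n : ℝ) • (ρ g - 1)‖ := by
    have e : (n : ℝ) • (ρ g - 1) = (ρ (g ^ n) - 1) - (ρ (g ^ n) - 1 - (n : ℝ) • (ρ g - 1)) := by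
      abel
    conv_lhs => rw [e]
    exact norm_sub_le _ _
  rw [h2] at h3
  have hn' : (1 : ℝ) ≤ n := by exact_mod_cast hn
  set d := ‖ρ g - 1‖ with hd
  have hd0 : 0 ≤ d := norm_nonneg _
  have h4 : (n * n / 2 : ℝ) * (d * d) ≤ n * d / 2 := by
    have : (n * n / 2 : ℝ) * (d * d) = (n * d) * (n * d) / 2 := by ring
    rw [this]
    have h5 : 0 ≤ (n : ℝ) * d := by positivity
    nlinarith
  nlinarith

/-- an element all of whose `2^k`-th powers are close to `1` is `1` -/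
lemma eq_one_of_pow (c : A) (h : ∀ k : ℕ, ‖c ^ (2 ^ k) - 1‖ ≤ 1 / 2) : c = 1 := by
  have hstep : ∀ k : ℕ, (3 / 2 : ℝ) * ‖c ^ (2 ^ k) - 1‖ ≤ ‖c ^ (2 ^ (k + 1)) - 1‖ := by
    intro k
    have e : c ^ (2 ^ (k + 1)) - 1 =
        (2 : ℝ) • (c ^ (2 ^ k) - 1) - (-((c ^ (2 ^ k) - 1) * (c ^ (2 ^ k) - 1))) := by
      rw [pow_succ 2 k, pow_mul, two_smul, pow_two]
      noncomm_ring
    rw [e]
    have h1 := norm_sub_norm_le ((2 : ℝ) • (c ^ (2 ^ k) - 1))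
      (-((c ^ (2 ^ k) - 1) * (c ^ (2 ^ k) - 1)))
    rw [norm_neg, norm_smul] at h1
    have h2 := norm_mul_le (c ^ (2 ^ k) - 1) (c ^ (2 ^ k) - 1)
    have h3 := h k
    have h4 := norm_nonneg (c ^ (2 ^ k) - 1)
    have h5 : ‖(2 : ℝ)‖ = 2 := by norm_num
    rw [h5] at h1
    nlinarith
  have hpow : ∀ k : ℕ, (3 / 2 : ℝ) ^ k * ‖c - 1‖ ≤ ‖c ^ (2 ^ k) - 1‖ := by
    intro k
    induction k with
    | zero => simp
    | succ k ih =>
      have := hstep k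
      rw [pow_succ]
      nlinarith
  by_contra hne
  have hpos : 0 < ‖c - 1‖ := norm_pos_iff.mpr (sub_ne_zero.mpr hne)
  obtain ⟨k, hk⟩ := pow_unbounded_of_one_lt (1 / ‖c - 1‖) (by norm_num : (1 : ℝ) < 3 / 2)
  have h1 := hpow k
  have h2 := h k
  rw [div_lt_iff₀ hpos] at hk
  linarith

/-- a commutator which commutes with its entries and whose second entry is small is trivial -/
lemma cm_trivial (hρ : ∀ g, ‖ρ g‖ ≤ 1) (a b : Γ) (hb : 4 * ‖ρ b - 1‖ ≤ 1 / 2)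
    (hca : ρ (cm a b) * ρ a = ρ a * ρ (cm a b)) : ρ (cm a b) = 1 := by
  set c := ρ (cm a b) with hc
  -- `a^j b a^{-j} = c^j b`
  have key : ∀ j : ℕ, ρ (a ^ j) * ρ b * ρ (a⁻¹ ^ j) = c ^ j * ρ b := by
    intro j
    induction j with
    | zero => simp
    | succ j ih =>
      have h1 : ρ a * ρ b * ρ a⁻¹ = c * ρ b := by
        rw [hc, ← map_mul, ← map_mul, ← map_mul]
        congr 1
        unfold cm
        group
      have hcomm : ∀ i : ℕ, ρ a * c ^ i = c ^ i * ρ a := by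
        intro i
        induction i with
        | zero => simp
        | succ i ih2 => rw [pow_succ, ← mul_assoc, ih2, mul_assoc, ← hca, ← mul_assoc]
      rw [pow_succ' a j, pow_succ a⁻¹ j, map_mul, map_mul]
      calc ρ a * ρ (a ^ j) * ρ b * (ρ (a⁻¹ ^ j) * ρ a⁻¹)
          = ρ a * (ρ (a ^ j) * ρ b * ρ (a⁻¹ ^ j)) * ρ a⁻¹ := by noncomm_ring
        _ = ρ a * (c ^ j * ρ b) * ρ a⁻¹ := by rw [ih]
        _ = (ρ a * c ^ j) * ρ b * ρ a⁻¹ := by noncomm_ring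
        _ = c ^ j * (ρ a * ρ b * ρ a⁻¹) := by rw [hcomm]; noncomm_ring
        _ = c ^ (j + 1) * ρ b := by rw [h1, pow_succ]; noncomm_ring
  have hj : ∀ j : ℕ, c ^ j = ρ (cm (a ^ j) b) := by
    intro j
    have h1 : c ^ j = c ^ j * ρ b * ρ b⁻¹ := by
      rw [mul_assoc, rho_mul_inv, mul_one]
    rw [h1, ← key j, ← map_mul, ← map_mul, ← map_mul]
    unfold cm
    rw [inv_pow]
  apply eq_one_of_pow
  intro k
  rw [hj]
  have h1 := cm_norm ρ hρ (a ^ (2 ^ k)) b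
  have h2 : ‖ρ (a ^ (2 ^ k)) - 1‖ ≤ 2 := by
    calc _ ≤ ‖ρ (a ^ (2 ^ k))‖ + ‖(1 : A)‖ := norm_sub_le _ _
      _ ≤ 1 + 1 := by
        have h3 : ‖(1 : A)‖ ≤ 1 := by
          have := hρ 1
          rwa [map_one] at this
        exact add_le_add (hρ _) h3
      _ = 2 := by norm_num
  have h3 := norm_nonneg (ρ b - 1)
  have h4 := norm_nonneg (ρ (a ^ (2 ^ k)) - 1)
  nlinarith

/-- products of powers of consecutive terms -/
def Pr (g : ℕ → Γ) : ℕ → List ℕ → Γ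
  | _, [] => 1
  | p, i :: l => g p ^ i * Pr g (p + 1) l

lemma Pr_norm (hρ : ∀ g, ‖ρ g‖ ≤ 1) (g : ℕ → Γ) {ε : ℝ} (hε4 : 4 * ε ≤ 1)
    (hd : ∀ n, ‖ρ (g (n + 1)) - 1‖ ≤ 2 * ε * ‖ρ (g n) - 1‖) (M : ℕ) :
    ∀ (l : List ℕ) (p : ℕ), (∀ i ∈ l, i ≤ M) →
      ‖ρ (Pr g p l) - 1‖ ≤ 2 * M * ‖ρ (g p) - 1‖ := by
  intro l
  induction l with
  | nil =>
    intro p _
    unfold Pr
    rw [map_one, sub_self, norm_zero]
    positivity
  | cons i l ih =>
    intro p hl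
    unfold Pr
    have h1 := mul_sub_one_norm ρ hρ (g p ^ i) (Pr g (p + 1) l)
    have h2 := pow_sub_one_norm ρ hρ (g p) i
    have h3 := ih (p + 1) (fun j hj => hl j (List.mem_cons_of_mem _ hj))
    have h4 := hd p
    have h5 : (i : ℝ) ≤ M := by exact_mod_cast hl i List.mem_cons_self
    have h6 := norm_nonneg (ρ (g p) - 1)
    have hM : (0 : ℝ) ≤ M := by positivity
    have h7 : 2 * (M : ℝ) * ‖ρ (g (p + 1)) - 1‖ ≤ 2 * M * (2 * ε * ‖ρ (g p) - 1‖) := by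
      gcongr
    have h8 : 2 * (M : ℝ) * (2 * ε * ‖ρ (g p) - 1‖) = M * ‖ρ (g p) - 1‖ * (4 * ε) := by ring
    have h9 : M * ‖ρ (g p) - 1‖ * (4 * ε) ≤ M * ‖ρ (g p) - 1‖ * 1 := by
      apply mul_le_mul_of_nonneg_left hε4
      positivity
    nlinarith

lemma Pr_inj (hρ : ∀ g, ‖ρ g‖ ≤ 1) (g : ℕ → Γ) {ε : ℝ} (hε0 : 0 ≤ ε) {M : ℕ}
    (hεM : 17 * (M : ℝ) * ε ≤ 1) (hM : 1 ≤ M)
    (hd : ∀ n, ‖ρ (g (n + 1)) - 1‖ ≤ 2 * ε * ‖ρ (g n) - 1‖) (hd0 : ∀ n, 0 < ‖ρ (g n) - 1‖)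
    (hds : ∀ n, (M : ℝ) * ‖ρ (g n) - 1‖ ≤ 1) :
    ∀ (l l' : List ℕ) (p : ℕ), l.length = l'.length → (∀ i ∈ l, i ≤ M) → (∀ i ∈ l', i ≤ M) →
      ρ (Pr g p l) = ρ (Pr g p l') → l = l' := by
  have hM' : (1 : ℝ) ≤ M := by exact_mod_cast hM
  have hε4 : 4 * ε ≤ 1 := by nlinarith
  intro l
  induction l with
  | nil =>
    intro l' p hlen _ _ _
    simp only [List.length_nil] at hlen
    exact (List.eq_nil_of_length_eq_zero hlen.symm).symm
  | cons i l ih =>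
    intro l' p hlen hl hl' heq
    cases l' with
    | nil => simp at hlen
    | cons i' l' =>
      simp only [List.length_cons, Nat.add_right_cancel_iff] at hlen
      have hl2 : ∀ j ∈ l, j ≤ M := fun j hj => hl j (List.mem_cons_of_mem _ hj)
      have hl2' : ∀ j ∈ l', j ≤ M := fun j hj => hl' j (List.mem_cons_of_mem _ hj)
      -- the main contradiction
      have main : ∀ (u v : ℕ) (m m' : List ℕ), v < u → u ≤ M → (∀ j ∈ m, j ≤ M) →
          (∀ j ∈ m', j ≤ M) →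
          ρ (g p ^ u * Pr g (p + 1) m) = ρ (g p ^ v * Pr g (p + 1) m') → False := by
        intro u v m m' huv huM hm hm' he
        obtain ⟨a, rfl⟩ : ∃ a, u = v + a := ⟨u - v, by omega⟩
        have ha : 1 ≤ a := by omega
        -- cancel `g p ^ v`
        have h1 : ρ (g p ^ a * Pr g (p + 1) m) = ρ (Pr g (p + 1) m') := by
          have h2 := congrArg (fun x => ρ (g p ^ v)⁻¹ * x) he
          rw [← map_mul, ← map_mul, pow_add] at h2
          have e1 : (g p ^ v)⁻¹ * (g p ^ v * g p ^ a * Pr g (p + 1) m) =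
              g p ^ a * Pr g (p + 1) m := by group
          have e2 : (g p ^ v)⁻¹ * (g p ^ v * Pr g (p + 1) m') = Pr g (p + 1) m' := by group
          rw [e1, e2] at h2
          exact h2
        have h3 : ρ (g p ^ a) - 1 =
            (ρ (Pr g (p + 1) m') - ρ (Pr g (p + 1) m)) * ρ (Pr g (p + 1) m)⁻¹ := by
          rw [sub_mul, rho_mul_inv, ← h1, ← map_mul]
          congr 2
          group
        have h4 : ‖ρ (g p ^ a) - 1‖ ≤ ‖ρ (Pr g (p + 1) m') - 1‖ + ‖ρ (Pr g (p + 1) m) - 1‖ := by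
          rw [h3]
          calc _ ≤ ‖ρ (Pr g (p + 1) m') - ρ (Pr g (p + 1) m)‖ * ‖ρ (Pr g (p + 1) m)⁻¹‖ :=
                norm_mul_le _ _
            _ ≤ ‖ρ (Pr g (p + 1) m') - ρ (Pr g (p + 1) m)‖ * 1 :=
                mul_le_mul_of_nonneg_left (hρ _) (norm_nonneg _)
            _ = ‖(ρ (Pr g (p + 1) m') - 1) - (ρ (Pr g (p + 1) m) - 1)‖ := by
                rw [mul_one]; congr 1; abel
            _ ≤ _ := norm_sub_le _ _
        have h5 := Pr_norm ρ hρ g hε4 hd M m (p + 1) hm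
        have h6 := Pr_norm ρ hρ g hε4 hd M m' (p + 1) hm'
        have h7 := hd p
        have h8 : (a : ℝ) ≤ M := by
          have : a ≤ M := by omega
          exact_mod_cast this
        have h9 := pow_sub_one_ge ρ hρ (g p) ha (by
          have := hds p
          have h10 := norm_nonneg (ρ (g p) - 1)
          nlinarith)
        have h10 := hd0 p
        have h11 : 2 * (M : ℝ) * ‖ρ (g (p + 1)) - 1‖ ≤ 2 * M * (2 * ε * ‖ρ (g p) - 1‖) := by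
          gcongr
        have h12 : 2 * (M : ℝ) * (2 * ε * ‖ρ (g p) - 1‖) = (4 / 17) *
            ((17 * M * ε) * ‖ρ (g p) - 1‖) := by ring
        have h13 : (17 * M * ε) * ‖ρ (g p) - 1‖ ≤ 1 * ‖ρ (g p) - 1‖ :=
          mul_le_mul_of_nonneg_right hεM (norm_nonneg _)
        nlinarith
      unfold Pr at heq
      rcases lt_trichotomy i i' with h | h | h
      · exact (main i' i l' l h (hl' i' List.mem_cons_self) hl2' hl2 heq.symm).elim
      · subst h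
        have h1 : ρ (Pr g (p + 1) l) = ρ (Pr g (p + 1) l') := by
          have h2 := congrArg (fun x => ρ (g p ^ i)⁻¹ * x) heq
          rw [← map_mul, ← map_mul] at h2
          have e1 : ∀ x : Γ, (g p ^ i)⁻¹ * (g p ^ i * x) = x := by intro x; group
          rw [e1, e1] at h2
          exact h2
        rw [ih l' (p + 1) hlen hl2 hl2' h1]
      · exact (main i i' l l' h (hl i List.mem_cons_self) hl2 hl2' heq).elim

lemma Pr_word {T : Finset Γ} (g : ℕ → Γ) (M : ℕ)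
    (hW : ∀ n, ∃ L, L + 2 ≤ 6 * 2 ^ n ∧ Wd T L (g n)) :
    ∀ (l : List ℕ) (p : ℕ), (∀ i ∈ l, i ≤ M) →
      ∃ n, n + 6 * M * 2 ^ p ≤ 6 * M * 2 ^ (p + l.length) ∧ Wd T n (Pr g p l) := by
  intro l
  induction l with
  | nil =>
    intro p _
    exact ⟨0, by simp, Wd.one⟩
  | cons i l ih =>
    intro p hl
    obtain ⟨n, hn1, hn2⟩ := ih (p + 1) (fun j hj => hl j (List.mem_cons_of_mem _ hj))
    obtain ⟨L, hL1, hL2⟩ := hW p
    have hi := hl i List.mem_cons_self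
    refine ⟨i * L + n, ?_, (hL2.pow i).mul hn2⟩
    rw [List.length_cons]
    have e1 : p + (l.length + 1) = p + 1 + l.length := by ring
    rw [e1]
    have h1 : i * L ≤ M * (6 * 2 ^ p) := Nat.mul_le_mul hi (by omega)
    have h2 : 6 * M * 2 ^ (p + 1) = 6 * M * 2 ^ p + M * (6 * 2 ^ p) := by ring
    omega

end

end Jord

open Jord in
theorem jordan_comm {A : Type} [NormedRing A] [NormedAlgebra ℝ A] {Γ : Type} [Group Γ]
    (ρ : Γ →* A)
    (hρ : ∀ g, ‖ρ g‖ ≤ 1) (D : ℕ) (ε : ℝ) (hε : 0 < ε) (hε' : ε ≤ 1 / (17 * 2 ^ (D + 2)))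
    (T : Finset Γ) (hT : ∀ t ∈ T, ‖ρ t - 1‖ ≤ ε) (C : ℝ)
    (hgrow : ∀ N : ℕ, ∃ R ≥ N, ∀ F : Finset A,
      (∀ a ∈ F, ∃ l : List Γ, l.length ≤ R ∧ (∀ g ∈ l, g ∈ T ∨ g⁻¹ ∈ T) ∧ ρ l.prod = a) →
      (F.card : ℝ) ≤ C * (R : ℝ) ^ D) :
    ∀ s ∈ T, ∀ t ∈ T, ρ (s * t) = ρ (t * s) := by
  classical
  intro s hs t ht
  by_contra hne
  set M : ℕ := 2 ^ (D + 2) with hM
  have hM4 : 4 ≤ M := by
    rw [hM, pow_add]
    have : 1 ≤ 2 ^ D := Nat.one_le_two_pow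
    omega
  have hMr : (M : ℝ) = 2 ^ (D + 2) := by rw [hM]; push_cast; ring
  have hεM : 17 * (M : ℝ) * ε ≤ 1 := by
    rw [hMr]
    rw [le_div_iff₀ (by positivity)] at hε'
    linarith
  have hM4r : (4 : ℝ) ≤ M := by exact_mod_cast hM4
  have hε68 : 68 * ε ≤ 1 := by nlinarith
  -- good elements
  let Good : Γ → Prop := fun g => ∃ a b, b ∈ T ∧ (∃ m, Wd T m a) ∧ g = cm a b ∧ ρ g ≠ 1
  -- every element of the group generated commutes with an element commuting with generators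
  have hcommW : ∀ (c : A), (∀ x ∈ T, c * ρ x = ρ x * c) → ∀ (m : ℕ) (a : Γ), Wd T m a →
      c * ρ a = ρ a * c := by
    intro c hc m a ha
    obtain ⟨l, -, hl2, rfl⟩ := ha
    induction l with
    | nil => simp
    | cons x l ih =>
      have ih' := ih (fun y hy => hl2 y (List.mem_cons_of_mem _ hy))
      have hx : c * ρ x = ρ x * c := by
        rcases hl2 x List.mem_cons_self with h | h
        · exact hc x h
        · have h1 := hc _ h
          calc c * ρ x = (ρ x * ρ x⁻¹) * (c * ρ x) := by rw [rho_mul_inv, one_mul]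
            _ = ρ x * (ρ x⁻¹ * c) * ρ x := by noncomm_ring
            _ = ρ x * (c * ρ x⁻¹) * ρ x := by rw [h1]
            _ = ρ x * c * (ρ x⁻¹ * ρ x) := by noncomm_ring
            _ = ρ x * c := by rw [rho_inv_mul, mul_one]
      rw [List.prod_cons, map_mul, ← mul_assoc, hx, mul_assoc, ih', ← mul_assoc]
  have hstep : ∀ g, Good g → ∃ x ∈ T, ρ (cm g x) ≠ 1 := by
    intro g hg
    by_contra hcon
    push Not at hcon
    obtain ⟨a, b, hb, ⟨m, hm⟩, hgab, hg1⟩ := hg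
    apply hg1
    have hcx : ∀ x ∈ T, ρ g * ρ x = ρ x * ρ g := by
      intro x hx
      have h1 := hcon x hx
      have h2 : ρ (cm g x) * (ρ x * ρ g) = ρ g * ρ x := by
        rw [← map_mul, ← map_mul, ← map_mul]
        congr 1
        unfold cm
        group
      rw [h1, one_mul] at h2
      exact h2.symm
    have h3 := hcommW (ρ g) hcx m a hm
    rw [hgab] at h3 ⊢
    exact cm_trivial ρ hρ a b (by have := hT b hb; nlinarith) h3
  -- the first element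
  have hg0 : Good (cm s t) := by
    refine ⟨s, t, ht, ⟨1, Wd.gen hs⟩, rfl, ?_⟩
    intro h1
    apply hne
    have h2 : ρ (cm s t) * ρ (t * s) = ρ (s * t) := by
      rw [← map_mul]
      congr 1
      unfold cm
      group
    rw [h1, one_mul] at h2
    exact h2.symm
  -- the sequence
  have hex : ∀ g : {g // Good g}, ∃ g' : {g // Good g}, ∃ x ∈ T, g'.1 = cm g.1 x := by
    rintro ⟨g, hg⟩
    obtain ⟨x, hx, hx1⟩ := hstep g hg
    obtain ⟨a, b, hb, ⟨m, hm⟩, hgab, hg1⟩ := hg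
    refine ⟨⟨cm g x, g, x, hx, ?_, rfl, hx1⟩, x, hx, rfl⟩
    rw [hgab]
    unfold cm
    exact ⟨_, ((hm.mul (Wd.gen hb)).mul hm.inv).mul (Wd.gen hb).inv⟩
  choose nx hnx using hex
  let gs : ℕ → {g // Good g} := fun n => nx^[n] ⟨cm s t, hg0⟩
  let g : ℕ → Γ := fun n => (gs n).1
  have hgs : ∀ n, ∃ x ∈ T, g (n + 1) = cm (g n) x := by
    intro n
    have : gs (n + 1) = nx (gs n) := Function.iterate_succ_apply' nx n _
    obtain ⟨x, hx, h⟩ := hnx (gs n)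
    refine ⟨x, hx, ?_⟩
    change (gs (n + 1)).1 = _
    rw [this]
    exact h
  have hd : ∀ n, ‖ρ (g (n + 1)) - 1‖ ≤ 2 * ε * ‖ρ (g n) - 1‖ := by
    intro n
    obtain ⟨x, hx, h⟩ := hgs n
    rw [h]
    have h1 := cm_norm ρ hρ (g n) x
    have h2 := hT x hx
    have h3 := norm_nonneg (ρ (g n) - 1)
    nlinarith
  have hd0 : ∀ n, 0 < ‖ρ (g n) - 1‖ := by
    intro n
    obtain ⟨a, b, -, -, -, h⟩ := (gs n).2
    exact norm_pos_iff.mpr (sub_ne_zero.mpr h)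
  have hds0 : ‖ρ (g 0) - 1‖ ≤ ε := by
    have h1 := cm_norm ρ hρ s t
    have h2 := hT s hs
    have h3 := hT t ht
    have h4 := norm_nonneg (ρ s - 1)
    have h5 := norm_nonneg (ρ t - 1)
    change ‖ρ (cm s t) - 1‖ ≤ ε
    nlinarith
  have hds1 : ∀ n, ‖ρ (g n) - 1‖ ≤ ε := by
    intro n
    induction n with
    | zero => exact hds0
    | succ n ih =>
      have h1 := hd n
      have h2 := norm_nonneg (ρ (g n) - 1)
      nlinarith
  have hds : ∀ n, (M : ℝ) * ‖ρ (g n) - 1‖ ≤ 1 := by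
    intro n
    have h1 := hds1 n
    have h2 := norm_nonneg (ρ (g n) - 1)
    nlinarith
  have hW : ∀ n, ∃ L, L + 2 ≤ 6 * 2 ^ n ∧ Wd T L (g n) := by
    intro n
    induction n with
    | zero =>
      refine ⟨4, by norm_num, ?_⟩
      change Wd T 4 (cm s t)
      unfold cm
      exact (((Wd.gen hs).mul (Wd.gen ht)).mul (Wd.gen hs).inv).mul (Wd.gen ht).inv
    | succ n ih =>
      obtain ⟨L, hL1, hL2⟩ := ih
      obtain ⟨x, hx, h⟩ := hgs n
      refine ⟨L + 1 + L + 1, ?_, ?_⟩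
      · rw [pow_succ]; omega
      · rw [h]
        unfold cm
        exact ((hL2.mul (Wd.gen hx)).mul hL2.inv).mul (Wd.gen hx).inv
  -- counting
  obtain ⟨K, hK⟩ := exists_nat_gt (|C| * (12 * (M : ℝ)) ^ D)
  obtain ⟨R, hR, hcount⟩ := hgrow (12 * M * (K + 1))
  have h6M : 0 < 6 * M := by omega
  set q := R / (6 * M) with hq
  have hq0 : q ≠ 0 := by
    rw [hq]
    have : 0 < R / (6 * M) := Nat.div_pos (by nlinarith) h6M
    omega
  set k := Nat.log 2 q with hk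
  have hk1 : 2 ^ k ≤ q := Nat.pow_log_le_self 2 hq0
  have hk2 : q < 2 ^ (k + 1) := Nat.lt_pow_succ_log_self (by norm_num) q
  have hR1 : 6 * M * 2 ^ k ≤ R := by
    have h1 : 6 * M * q ≤ R := Nat.mul_div_le R (6 * M)
    exact (Nat.mul_le_mul_left _ hk1).trans h1
  have hR2 : R < 12 * M * 2 ^ k := by
    have h1 : R < 6 * M * (q + 1) := Nat.lt_mul_div_succ R h6M
    have h2 : 6 * M * (q + 1) ≤ 6 * M * 2 ^ (k + 1) := Nat.mul_le_mul_left _ hk2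
    have h3 : 6 * M * 2 ^ (k + 1) = 12 * M * 2 ^ k := by rw [pow_succ]; ring
    omega
  -- the family of products
  let φ : (Fin k → Fin (M + 1)) → A := fun i => ρ (Pr g 0 (List.ofFn (fun j => (i j : ℕ))))
  have hle : ∀ i : Fin k → Fin (M + 1), ∀ x ∈ List.ofFn (fun j => (i j : ℕ)), x ≤ M := by
    intro i x hx
    rw [List.mem_ofFn] at hx
    obtain ⟨j, rfl⟩ := hx
    have := (i j).2
    omega
  have hinj : Function.Injective φ := by
    intro i i' h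
    have h1 := Pr_inj ρ hρ g hε.le hεM (by omega) hd hd0 hds (List.ofFn (fun j => (i j : ℕ)))
      (List.ofFn (fun j => (i' j : ℕ))) 0 (by simp) (hle i) (hle i') h
    have h2 := List.ofFn_injective h1
    funext j
    exact Fin.ext (congrFun h2 j)
  have hcard : (Finset.univ.image φ).card = (M + 1) ^ k := by
    rw [Finset.card_image_of_injective _ hinj, Finset.card_univ, Fintype.card_fun,
      Fintype.card_fin, Fintype.card_fin]
  have hc := hcount (Finset.univ.image φ) (by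
    intro a ha
    rw [Finset.mem_image] at ha
    obtain ⟨i, -, rfl⟩ := ha
    obtain ⟨n, hn1, l, hl1, hl2, hl3⟩ := Pr_word g M hW (List.ofFn (fun j => (i j : ℕ))) 0 (hle i)
    refine ⟨l, ?_, hl2, by rw [hl3]⟩
    rw [List.length_ofFn, zero_add] at hn1
    omega)
  rw [hcard] at hc
  have hRr : (R : ℝ) ≤ 12 * M * 2 ^ k := by
    have : R ≤ 12 * M * 2 ^ k := hR2.le
    exact_mod_cast this
  have h1 : ((M : ℝ) ^ k) ≤ |C| * (12 * M * 2 ^ k) ^ D := by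
    calc ((M : ℝ) ^ k) ≤ ((M : ℝ) + 1) ^ k := by gcongr; linarith
      _ = (((M + 1) ^ k : ℕ) : ℝ) := by push_cast; ring
      _ ≤ C * (R : ℝ) ^ D := hc
      _ ≤ |C| * (R : ℝ) ^ D := by gcongr; exact le_abs_self C
      _ ≤ |C| * (12 * M * 2 ^ k) ^ D := by gcongr
  have h2 : ((M : ℝ) ^ k) = (2 ^ k) ^ D * ((2 ^ k) * (2 ^ k)) := by
    rw [hMr, ← pow_mul, ← pow_mul, ← pow_add, ← pow_add]
    congr 1
    ring
  have h3 : |C| * (12 * (M : ℝ) * 2 ^ k) ^ D = (2 ^ k) ^ D * (|C| * (12 * (M : ℝ)) ^ D) := by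
    rw [mul_pow]; ring
  rw [h2, h3] at h1
  have h4 : (2 : ℝ) ^ k * 2 ^ k ≤ |C| * (12 * (M : ℝ)) ^ D :=
    le_of_mul_le_mul_left h1 (by positivity)
  have h5 : K + 1 < 2 ^ k := by
    have : 12 * M * (K + 1) < 12 * M * 2 ^ k := lt_of_le_of_lt hR hR2
    exact Nat.lt_of_mul_lt_mul_left this
  have h6 : (K : ℝ) + 1 < 2 ^ k := by exact_mod_cast h5
  have h7 : (1 : ℝ) ≤ 2 ^ k := one_le_pow₀ (by norm_num)
  nlinarith

end Pool.H61.ST
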