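import Pool.Agent.H98.C.Inf

set_option autoImplicit false

/-! Rooted isomorphisms of balls of two graphs, and what they preserve. -/

namespace Pool.H61.ST

open Finset Pool.Agent.H61.SW Pool.H98.C

variable {V V' : Type} {G : SimpleGraph V} {G' : SimpleGraph V'} {o : V} {o' : V'} {r : ℕ}

/-- rooted isomorphism between the balls of radius `r` about `o` and `o'` -/
structure LI (G : SimpleGraph V) (o : V) (G' : SimpleGraph V') (o' : V') (r : ℕ) where
  f : V → V'
  f' : V' → V
  fo : f o = o'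
  fo' : f' o' = o
  mem : ∀ x, G.dist o x ≤ r → G'.dist o' (f x) ≤ r
  mem' : ∀ y, G'.dist o' y ≤ r → G.dist o (f' y) ≤ r
  inv : ∀ x, G.dist o x ≤ r → f' (f x) = x
  inv' : ∀ y, G'.dist o' y ≤ r → f (f' y) = y
  adj : ∀ x y, G.dist o x ≤ r → G.dist o y ≤ r → G.Adj x y → G'.Adj (f x) (f y)
  adj' : ∀ x y, G'.dist o' x ≤ r → G'.dist o' y ≤ r → G'.Adj x y → G.Adj (f' x) (f' y)

namespace LI

/-- the inverse isomorphism -/
def symm (I : LI G o G' o' r) : LI G' o' G o r where
  f := I.f'
  f' := I.f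
  fo := I.fo'
  fo' := I.fo
  mem := I.mem'
  mem' := I.mem
  inv := I.inv'
  inv' := I.inv
  adj := I.adj'
  adj' := I.adj

lemma inj (I : LI G o G' o' r) {x y : V} (hx : G.dist o x ≤ r) (hy : G.dist o y ≤ r)
    (h : I.f x = I.f y) : x = y := by
  rw [← I.inv x hx, ← I.inv y hy, h]

/-- walks inside the ball are mapped to walks -/
lemma ch (I : LI G o G' o' r) (x : V) (s : List V) (hs : ∀ v ∈ x :: s, G.dist o v ≤ r)
    (h : ch G x s) : Pool.Agent.H61.SW.ch G' (I.f x) (s.map I.f) := by
  induction s generalizing x with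
  | nil => trivial
  | cons a s ih =>
    exact ⟨I.adj _ _ (hs x (by simp)) (hs a (by simp)) h.1,
      ih a (fun v hv => hs v (List.mem_cons_of_mem _ hv)) h.2⟩

lemma sa (I : LI G o G' o' r) (x : V) (s : List V) (hs : ∀ v ∈ x :: s, G.dist o v ≤ r)
    (h : sa G x s) : Pool.Agent.H61.SW.sa G' (I.f x) (s.map I.f) := by
  refine ⟨I.ch x s hs h.1, ?_⟩
  show (List.map I.f (x :: s)).Nodup
  exact h.2.map_on fun a ha b hb hab => I.inj (hs a ha) (hs b hb) hab

/-- distances do not increase as long as a geodesic stays in the ball -/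
lemma dist_le (I : LI G o G' o' r) (hG : TG G) {x y : V}
    (h : G.dist o x + G.dist x y ≤ r) : G'.dist (I.f x) (I.f y) ≤ G.dist x y := by
  have h1 : ∀ v ∈ x :: geo hG x y, G.dist o v ≤ r := by
    intro v hv
    have h2 : G.dist x v ≤ G.dist x y := by
      rcases List.mem_cons.1 hv with rfl | hv
      · simp
      · exact mem_geo_dist hG hv
    have := hG.tri o x v
    omega
  have h3 := dist_en_le (I.f x) _ (I.ch x _ h1 (ch_geo hG x y))
  rw [en_map, en_geo, List.length_map, length_geo] at h3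
  exact h3

lemma dist_root (I : LI G o G' o' r) (hG : TG G) (hG' : TG G') {x : V}
    (h : G.dist o x ≤ r) : G'.dist o' (I.f x) = G.dist o x := by
  have h1 : G'.dist o' (I.f x) ≤ G.dist o x := by
    have := I.dist_le hG (x := o) (y := x) (by simpa using h)
    rwa [I.fo] at this
  refine le_antisymm h1 ?_
  have h2 := I.symm.dist_le hG' (x := o') (y := I.f x) (by
    rw [SimpleGraph.dist_self, zero_add]; exact h1.trans h)
  have h3 : I.symm.f o' = o := I.fo'
  have h4 : I.symm.f (I.f x) = x := I.inv x h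
  rwa [h3, h4] at h2

lemma dist_root' (I : LI G o G' o' r) (hG : TG G) (hG' : TG G') {y : V'}
    (h : G'.dist o' y ≤ r) : G.dist o (I.f' y) = G'.dist o' y :=
  I.symm.dist_root hG' hG h

/-- distances are preserved deep inside the ball -/
lemma dist_eq (I : LI G o G' o' r) (hG : TG G) (hG' : TG G') {x y : V}
    (h : 2 * G.dist o x + G.dist o y ≤ r) : G'.dist (I.f x) (I.f y) = G.dist x y := by
  have hx : G.dist o x ≤ r := by omega
  have hy : G.dist o y ≤ r := by omega
  have h1 : G.dist x y ≤ G.dist o x + G.dist o y := by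
    have := hG.tri x o y
    rwa [SimpleGraph.dist_comm (u := x) (v := o)] at this
  refine le_antisymm (I.dist_le hG (by omega)) ?_
  have h2 : G'.dist (I.f x) (I.f y) ≤ G.dist o x + G.dist o y := by
    have := hG'.tri (I.f x) o' (I.f y)
    rw [SimpleGraph.dist_comm (u := I.f x) (v := o'), I.dist_root hG hG' hx,
      I.dist_root hG hG' hy] at this
    exact this
  have h3 := I.symm.dist_le hG' (x := I.f x) (y := I.f y) (by
    rw [I.dist_root hG hG' hx]; omega)
  have h4 : I.symm.f (I.f x) = x := I.inv x hx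
  have h5 : I.symm.f (I.f y) = y := I.inv y hy
  rwa [h4, h5] at h3

/-- a smaller radius -/
def mono (I : LI G o G' o' r) (hG : TG G) (hG' : TG G') {r' : ℕ} (h : r' ≤ r) :
    LI G o G' o' r' where
  f := I.f
  f' := I.f'
  fo := I.fo
  fo' := I.fo'
  mem := fun x hx => by rw [I.dist_root hG hG' (hx.trans h)]; exact hx
  mem' := fun y hy => by rw [I.dist_root' hG hG' (hy.trans h)]; exact hy
  inv := fun x hx => I.inv x (hx.trans h)
  inv' := fun y hy => I.inv' y (hy.trans h)
  adj := fun x y hx hy => I.adj x y (hx.trans h) (hy.trans h)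
  adj' := fun x y hx hy => I.adj' x y (hx.trans h) (hy.trans h)

/-- composition with automorphisms changes the roots -/
noncomputable def reroot (I : LI G o G' o' r) (hG : TG G) (hG' : TG G') (z : V) (z' : V') :
    LI G z G' z' r where
  f := fun x => tau hG' o' z' (I.f ((tau hG o z).symm x))
  f' := fun y => tau hG o z (I.f' ((tau hG' o' z').symm y))
  fo := by
    have : (tau hG o z).symm z = o := by
      have := (tau hG o z).symm_apply_apply o
      rwa [tau_apply] at this
    rw [this, I.fo, tau_apply]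
  fo' := by
    have : (tau hG' o' z').symm z' = o' := by
      have := (tau hG' o' z').symm_apply_apply o'
      rwa [tau_apply] at this
    rw [this, I.fo', tau_apply]
  mem := fun x hx => by
    have h1 : G.dist o ((tau hG o z).symm x) = G.dist z x := by
      rw [← dist_iso hG.conn (tau hG o z), tau_apply]; simp
    have h2 := I.mem ((tau hG o z).symm x) (by rw [h1]; exact hx)
    rw [← dist_iso hG'.conn (tau hG' o' z'), tau_apply] at h2
    exact h2
  mem' := fun y hy => by
    have h1 : G'.dist o' ((tau hG' o' z').symm y) = G'.dist z' y := by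
      rw [← dist_iso hG'.conn (tau hG' o' z'), tau_apply]; simp
    have h2 := I.mem' ((tau hG' o' z').symm y) (by rw [h1]; exact hy)
    rw [← dist_iso hG.conn (tau hG o z), tau_apply] at h2
    exact h2
  inv := fun x hx => by
    have h1 : G.dist o ((tau hG o z).symm x) = G.dist z x := by
      rw [← dist_iso hG.conn (tau hG o z), tau_apply]; simp
    rw [RelIso.symm_apply_apply, I.inv _ (by rw [h1]; exact hx), RelIso.apply_symm_apply]
  inv' := fun y hy => by
    have h1 : G'.dist o' ((tau hG' o' z').symm y) = G'.dist z' y := by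
      rw [← dist_iso hG'.conn (tau hG' o' z'), tau_apply]; simp
    rw [RelIso.symm_apply_apply, I.inv' _ (by rw [h1]; exact hy), RelIso.apply_symm_apply]
  adj := fun x y hx hy h => by
    have h1 : ∀ x, G.dist o ((tau hG o z).symm x) = G.dist z x := fun x => by
      rw [← dist_iso hG.conn (tau hG o z), tau_apply]; simp
    exact (tau hG' o' z').map_adj_iff.2 (I.adj _ _ (by rw [h1]; exact hx) (by rw [h1]; exact hy)
      ((tau hG o z).symm.map_adj_iff.2 h))
  adj' := fun x y hx hy h => by
    have h1 : ∀ y, G'.dist o' ((tau hG' o' z').symm y) = G'.dist z' y := fun y => by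
      rw [← dist_iso hG'.conn (tau hG' o' z'), tau_apply]; simp
    exact (tau hG o z).map_adj_iff.2 (I.adj' _ _ (by rw [h1]; exact hx) (by rw [h1]; exact hy)
      ((tau hG' o' z').symm.map_adj_iff.2 h))

/-- equal ball sizes -/
lemma card_bl (I : LI G o G' o' r) (hG : TG G) (hG' : TG G') {s : ℕ} (hs : s ≤ r) :
    (bl hG' o' s).card = (bl hG o s).card := by
  symm
  refine Finset.card_bij' (fun x _ => I.f x) (fun y _ => I.f' y) ?_ ?_ ?_ ?_
  · intro x hx
    rw [mem_bl] at hx ⊢
    rw [I.dist_root hG hG' (hx.trans hs)]; exact hx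
  · intro y hy
    rw [mem_bl] at hy ⊢
    rw [I.dist_root' hG hG' (hy.trans hs)]; exact hy
  · intro x hx
    rw [mem_bl] at hx
    exact I.inv x (hx.trans hs)
  · intro y hy
    rw [mem_bl] at hy
    exact I.inv' y (hy.trans hs)

lemma bb_eq (I : LI G o G' o' r) (hG : TG G) (hG' : TG G') {s : ℕ} (hs : s ≤ r) :
    bb hG' o' s = bb hG o s := by
  unfold bb
  rw [I.card_bl hG hG' hs]

/-- equal numbers of short self-avoiding walks -/
lemma cnt_sa (I : LI G o G' o' r) (hG : TG G) (hG' : TG G') {n : ℕ} (hn : n ≤ r) :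
    cnt (Pool.Agent.H61.SW.sa G') o' n = cnt (Pool.Agent.H61.SW.sa G) o n := by
  refine le_antisymm ?_ ?_
  · exact cnt_sa_le_of_ball o' o n hG.lf I.f' I.fo'
      (fun x y hx hy h => I.adj' x y (hx.trans hn) (hy.trans hn) h)
      (fun x y hx hy h => I.symm.inj (hx.trans hn) (hy.trans hn) h)
  · exact cnt_sa_le_of_ball o o' n hG'.lf I.f I.fo
      (fun x y hx hy h => I.adj x y (hx.trans hn) (hy.trans hn) h)
      (fun x y hx hy h => I.inj (hx.trans hn) (hy.trans hn) h)

/-- from an isomorphism of the induced balls -/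
theorem of_iso (o : V) (o' : V') (r : ℕ)
    (φ : G'.induce {v : V' | G'.dist o' v ≤ r} ≃g G.induce {v : V | G.dist o v ≤ r})
    (hφ : ∀ x : ↥{v : V' | G'.dist o' v ≤ r}, (x : V') = o' →
          ((φ x : ↥{v : V | G.dist o v ≤ r}) : V) = o) : Nonempty (LI G o G' o' r) := by
  classical
  have h0 : G.dist o o ≤ r := by simp
  have h0' : G'.dist o' o' ≤ r := by simp
  have e1 : φ ⟨o', h0'⟩ = ⟨o, h0⟩ := Subtype.ext (hφ _ rfl)
  have e2 : φ.symm ⟨o, h0⟩ = ⟨o', h0'⟩ := by rw [← e1]; exact φ.symm_apply_apply _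
  refine ⟨{
    f := fun x => if hx : G.dist o x ≤ r then (φ.symm ⟨x, hx⟩ : V') else o'
    f' := fun y => if hy : G'.dist o' y ≤ r then (φ ⟨y, hy⟩ : V) else o
    fo := ?_
    fo' := ?_
    mem := ?_
    mem' := ?_
    inv := ?_
    inv' := ?_
    adj := ?_
    adj' := ?_ }⟩
  · rw [dif_pos h0, e2]
  · rw [dif_pos h0', e1]
  · intro x hx
    rw [dif_pos hx]
    exact (φ.symm ⟨x, hx⟩).2
  · intro y hy
    rw [dif_pos hy]
    exact (φ ⟨y, hy⟩).2
  · intro x hx
    have h1 : G'.dist o' (φ.symm ⟨x, hx⟩ : V') ≤ r := (φ.symm ⟨x, hx⟩).2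
    rw [dif_pos hx, dif_pos h1]
    simp
  · intro y hy
    have h1 : G.dist o (φ ⟨y, hy⟩ : V) ≤ r := (φ ⟨y, hy⟩).2
    rw [dif_pos hy, dif_pos h1]
    simp
  · intro x y hx hy h
    rw [dif_pos hx, dif_pos hy]
    have h1 : (G.induce {v : V | G.dist o v ≤ r}).Adj ⟨x, hx⟩ ⟨y, hy⟩ := h
    exact φ.symm.map_adj_iff.2 h1
  · intro x y hx hy h
    rw [dif_pos hx, dif_pos hy]
    have h1 : (G'.induce {v : V' | G'.dist o' v ≤ r}).Adj ⟨x, hx⟩ ⟨y, hy⟩ := h
    exact φ.map_adj_iff.2 h1

end LI

end Pool.H61.ST
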