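import Pool.Agent.H61.ST.Const
import Pool.Agent.H61.ST.LI

set_option autoImplicit false

/-! Powers of a tube family, geometric blocks, transfer to a graph with the same ball. -/

namespace Pool.H61.ST

open Finset Pool.Agent.H61.SW Pool.H98.C

variable {V : Type} {G : SimpleGraph V}

/-- two self-avoiding walks with the same ends, one a prefix of the other -/
lemma prefix_eq {x : V} {s r : List V} (h : sa G x (s ++ r)) (he : en x (s ++ r) = en x s) :
    r = [] := by
  by_contra hr
  rw [en_append] at he
  have h1 := en_mem (en x s) r hr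
  rw [he] at h1
  have h2 : en x s ∈ x :: s := en_mem_cons x s
  have h3 : (x :: s ++ r).Nodup := h.2
  exact List.disjoint_of_nodup_append h3 h2 h1

/-- concatenations of `n` translates of the walks in `F` -/
noncomputable def pw [DecidableEq V] (g : G ≃g G) (F : Finset (List V)) : ℕ → Finset (List V)
  | 0 => {[]}
  | n + 1 => (F ×ˢ pw g F n).image fun p => p.1 ++ p.2.map g

theorem pw_spec [DecidableEq V] (w : V → ℝ) (g : G ≃g G) (x : V) (F : Finset (List V)) (χ : ℝ)
    (m : ℕ) (hχ : 0 < χ) (hg : ∀ z, w (g z) = w z + χ)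
    (hF : ∀ s ∈ F, sa G x s ∧ en x s = g x ∧ s.length ≤ m ∧
      ∀ z ∈ x :: s, z ≠ g x → w x ≤ w z ∧ w z < w (g x)) (n : ℕ) :
    ∀ s ∈ pw g F n, sa G x s ∧ en x s = (g ^ n) x ∧ s.length ≤ n * m ∧
      w ((g ^ n) x) = w x + n * χ ∧ (∀ z ∈ x :: s, w x ≤ w z ∧ w z ≤ w x + n * χ) ∧
      (∀ z ∈ x :: s, z ≠ (g ^ n) x → w z < w x + n * χ) := by
  induction n with
  | zero =>
    intro s hs
    have : s = [] := by simpa [pw] using hs
    subst this
    refine ⟨sa_nil x, rfl, by simp, by simp, ?_, ?_⟩
    · intro z hz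
      have : z = x := by simpa using hz
      subst this
      simp
    · intro z hz h
      have : z = x := by simpa using hz
      exact absurd this h
  | succ n ih =>
    intro s hs
    simp only [pw, Finset.mem_image, Finset.mem_product, Prod.exists] at hs
    obtain ⟨s1, s2, ⟨h1, h2⟩, rfl⟩ := hs
    obtain ⟨a1, a2, a3, a4⟩ := hF s1 h1
    obtain ⟨b1, b2, b3, b4, b5, b6⟩ := ih s2 h2
    have c1 : sa G (g x) (s2.map g) := (sa_map g x s2).2 b1
    have hgx : w (g x) = w x + χ := hg x
    have hs1 : ∀ z ∈ x :: s1, w x ≤ w z ∧ w z ≤ w x + χ := by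
      intro z hz
      by_cases h : z = g x
      · rw [h, hgx]; constructor <;> linarith
      · have := a4 z hz h; rw [hgx] at this; exact ⟨this.1, this.2.le⟩
    have hs2 : ∀ z ∈ g x :: s2.map g, w x + χ ≤ w z ∧ w z ≤ w x + (n + 1) * χ := by
      intro z hz
      rw [← List.map_cons, List.mem_map] at hz
      obtain ⟨y, hy, rfl⟩ := hz
      have := b5 y hy
      rw [hg y]; constructor <;> linarith
    have hpow : (g ^ (n + 1)) x = g ((g ^ n) x) := by rw [pow_succ', RelIso.mul_apply]
    have hend : en x (s1 ++ s2.map g) = (g ^ (n + 1)) x := by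
      rw [en_append, a2, en_map, b2, hpow]
    have hgn : w ((g ^ (n + 1)) x) = w x + (n + 1 : ℕ) * χ := by
      rw [hpow, hg, b4]; push_cast; ring
    refine ⟨⟨?_, ?_⟩, hend, ?_, hgn, ?_, ?_⟩
    · rw [ch_append, a2]
      exact ⟨a1.1, c1.1⟩
    · show (x :: (s1 ++ s2.map g)).Nodup
      rw [← List.cons_append]
      refine List.Nodup.append a1.2 (List.nodup_cons.1 c1.2).2 ?_
      intro z hz1 hz2
      have e1 := hs2 z (List.mem_cons_of_mem _ hz2)
      by_cases h : z = g x
      · subst h
        exact (List.nodup_cons.1 c1.2).1 hz2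
      · have e2 := a4 z hz1 h
        rw [hgx] at e2
        linarith
    · rw [List.length_append, List.length_map]
      calc s1.length + s2.length ≤ m + n * m := add_le_add a3 b3
        _ = (n + 1) * m := by ring
    · intro z hz
      push_cast
      rw [← List.cons_append, List.mem_append] at hz
      have hn : (0 : ℝ) ≤ n * χ := by positivity
      rcases hz with hz | hz
      · have := hs1 z hz; constructor <;> linarith
      · have := hs2 z (List.mem_cons_of_mem _ hz); constructor <;> linarith
    · intro z hz hne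
      push_cast
      rw [← List.cons_append, List.mem_append] at hz
      have hn : (0 : ℝ) ≤ n * χ := by positivity
      rcases hz with hz | hz
      · by_cases h : z = g x
        · rcases Nat.eq_zero_or_pos n with h0 | h0
          · subst h0
            exact absurd (by simpa using h) hne
          · have : (0 : ℝ) < n * χ := by
              have : (0 : ℝ) < n := by exact_mod_cast h0
              positivity
            rw [h, hgx]; linarith
        · have := a4 z hz h
          rw [hgx] at this
          linarith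
      · rw [List.mem_map] at hz
        obtain ⟨y, hy, rfl⟩ := hz
        have hy' : y ≠ (g ^ n) x := by
          rintro rfl
          exact hne hpow.symm
        have := b6 y (List.mem_cons_of_mem _ hy) hy'
        rw [hg y]; linarith

theorem pw_sum [DecidableEq V] (w : V → ℝ) (g : G ≃g G) (x : V) (F : Finset (List V))
    (m : ℕ) (t : ℝ)
    (hF : ∀ s ∈ F, sa G x s ∧ en x s = g x ∧ s.length ≤ m ∧
      ∀ z ∈ x :: s, z ≠ g x → w x ≤ w z ∧ w z < w (g x)) (n : ℕ) :
    ∑ s ∈ pw g F n, t ^ s.length = (∑ s ∈ F, t ^ s.length) ^ n := by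
  induction n with
  | zero => simp [pw]
  | succ n ih =>
    have hinj : Set.InjOn (fun p : List V × List V => p.1 ++ p.2.map g)
        ((F ×ˢ pw g F n : Finset (List V × List V)) : Set (List V × List V)) := by
      rintro ⟨s, r⟩ h1 ⟨s', r'⟩ h2 h
      rw [Finset.mem_coe, Finset.mem_product] at h1 h2
      obtain ⟨h1s, h1r⟩ := h1
      obtain ⟨h2s, h2r⟩ := h2
      simp only at h h1s h1r h2s h2r
      have key : s = s' := by
        obtain ⟨a1, a2, -⟩ := hF s h1s
        obtain ⟨b1, b2, -⟩ := hF s' h2s
        rcases List.append_eq_append_iff.1 h with ⟨as, e1, -⟩ | ⟨bs, e1, -⟩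
        · have : as = [] := prefix_eq (x := x) (s := s) (by rw [← e1]; exact b1)
            (by rw [← e1, a2, b2])
          rw [e1, this, List.append_nil]
        · have : bs = [] := prefix_eq (x := x) (s := s') (by rw [← e1]; exact a1)
            (by rw [← e1, a2, b2])
          rw [e1, this, List.append_nil]
      subst key
      have h3 := List.append_cancel_left h
      have h4 : r = r' := List.map_injective_iff.2 g.injective h3
      rw [h4]
    rw [pw, Finset.sum_image hinj, Finset.sum_product, pow_succ', ← ih, Finset.sum_mul_sum]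
    refine Finset.sum_congr rfl fun s _ => Finset.sum_congr rfl fun r _ => ?_
    rw [List.length_append, List.length_map, pow_add]

/-- geometric blocks: both ends are far from everything behind the arms -/
structure GBlk (G : SimpleGraph V) (S A L : ℕ) (z : V) (a c b : List V) : Prop where
  sa : sa G z (a ++ (c ++ b))
  hs : ∀ v ∈ en z a :: (c ++ b), S < G.dist z v
  he : ∀ v ∈ z :: (a ++ c), S < G.dist (en z (a ++ (c ++ b))) v
  qq : 2 * S < G.dist z (en z (a ++ (c ++ b)))
  la : a.length ≤ A
  lb : b.length ≤ A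
  ll : (a ++ (c ++ b)).length ≤ L

lemma hit_eq_zero {o : V} {R : ℕ} (hG : TG G) (H : Homog G o R) (S : ℕ) (x : V) (K : List V)
    (h : ∀ v ∈ K, S < G.dist x v) : hit hG H S x K = 0 := by
  refine Pr_false _ fun ω => ?_
  rintro ⟨v, h1, h2⟩
  have h3 := dist_por hG H x ω v (List.mem_cons_of_mem _ h1)
  have h4 := h v h2
  omega

lemma QQ_eq_zero {o : V} {R : ℕ} (hG : TG G) (H : Homog G o R) (S : ℕ) (x y : V)
    (h : 2 * S < G.dist x y) : QQ hG H S x y = 0 := by
  refine Pr_false _ fun ω => ?_
  rintro ⟨v, h1, h2⟩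
  have h3 := dist_por hG H x ω.1 v (List.mem_cons_of_mem _ h1)
  have h4 := dist_por hG H y ω.2 v (List.mem_cons_of_mem _ h2)
  have h5 := hG.tri x v y
  rw [SimpleGraph.dist_comm (u := v) (v := y)] at h5
  omega

lemma GBlk.blk {o : V} {R : ℕ} (hG : TG G) (H : Homog G o R) {S A L : ℕ} {z : V} {a c b : List V}
    (B : GBlk G S A L z a c b) {δ : ℝ} (hδ : 0 ≤ δ) : Blk hG H S δ A L z a c b where
  sa := B.sa
  hs := by rw [hit_eq_zero hG H S z _ B.hs]; exact hδ
  he := by rw [hit_eq_zero hG H S _ _ B.he]; exact hδ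
  qq := by rw [QQ_eq_zero hG H S _ _ B.qq]; exact hδ
  la := B.la
  lb := B.lb
  ll := B.ll

/-- transfer of a geometric block -/
lemma GBlk.map {V' : Type} {G' : SimpleGraph V'} {z : V} {z' : V'} {r S A L : ℕ} (hG : TG G)
    (hG' : TG G') (I : LI G z G' z' r) {a c b : List V} (B : GBlk G S A L z a c b)
    (hr : 3 * L ≤ r) : GBlk G' S A L z' (a.map I.f) (c.map I.f) (b.map I.f) := by
  have hd : ∀ v ∈ z :: (a ++ (c ++ b)), G.dist z v ≤ L := fun v hv =>
    (dist_mem_ch B.sa.1 hv).trans B.ll
  have hde : ∀ v ∈ z :: (a ++ (c ++ b)), ∀ w ∈ z :: (a ++ (c ++ b)),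
      G'.dist (I.f v) (I.f w) = G.dist v w := fun v hv w hw =>
    I.dist_eq hG hG' (by have := hd v hv; have := hd w hw; omega)
  have hz : z ∈ z :: (a ++ (c ++ b)) := by simp
  have hen : en z (a ++ (c ++ b)) ∈ z :: (a ++ (c ++ b)) := en_mem_cons _ _
  have hsa := I.sa z _ (fun v hv => (hd v hv).trans (by omega)) B.sa
  have h0 := I.fo
  generalize I.f = φ at *
  subst h0
  have e1 : a.map φ ++ (c.map φ ++ b.map φ) = (a ++ (c ++ b)).map φ := by
    rw [List.map_append, List.map_append]
  have e2 : en (φ z) ((a ++ (c ++ b)).map φ) = φ (en z (a ++ (c ++ b))) := by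
    rw [en_map]
  have e3 : en (φ z) (a.map φ) = φ (en z a) := by rw [en_map]
  have hea : en z a ∈ z :: (a ++ (c ++ b)) := by
    rcases List.mem_cons.1 (en_mem_cons z a) with h | h
    · rw [h]; simp
    · exact List.mem_cons_of_mem _ (List.mem_append_left _ h)
  refine ⟨?_, ?_, ?_, ?_, ?_, ?_, ?_⟩
  · rw [e1]
    exact hsa
  · intro v hv
    rw [e3, ← List.map_append, ← List.map_cons, List.mem_map] at hv
    obtain ⟨w, hw, rfl⟩ := hv
    have hw' : w ∈ z :: (a ++ (c ++ b)) := by
      rcases List.mem_cons.1 hw with h | h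
      · rw [h]; exact hea
      · exact List.mem_cons_of_mem _ (List.mem_append_right _ h)
    rw [hde z hz w hw']
    exact B.hs w hw
  · intro v hv
    rw [← List.map_append, ← List.map_cons, List.mem_map] at hv
    obtain ⟨w, hw, rfl⟩ := hv
    have hw' : w ∈ z :: (a ++ (c ++ b)) := by
      rcases List.mem_cons.1 hw with h | h
      · rw [h]; simp
      · rcases List.mem_append.1 h with h | h
        · exact List.mem_cons_of_mem _ (List.mem_append_left _ h)
        · exact List.mem_cons_of_mem _ (List.mem_append_right _ (List.mem_append_left _ h))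
    rw [e1, e2, hde _ hen w hw']
    exact B.he w hw
  · rw [e1, e2, hde z hz _ hen]
    exact B.qq
  · rw [List.length_map]; exact B.la
  · rw [List.length_map]; exact B.lb
  · rw [e1, List.length_map]; exact B.ll

end Pool.H61.ST
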