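import Mathlib

set_option autoImplicit false

/-! Core of module QI: quasi-isometric embeddings of the integers, abstract version. -/

namespace Pool.H61.ST

namespace Qi

/-- sequences with almost constant steps: linear growth -/
lemma seq_lin (φ : ℤ → ℤ) (τ K : ℤ) (h : ∀ n, |φ (n + 1) - φ n - τ| ≤ K) (n : ℤ) :
    |φ n - φ 0 - n * τ| ≤ |n| * K := by
  have hpos : ∀ n : ℕ, |φ n - φ 0 - n * τ| ≤ n * K := by
    intro n
    induction n with
    | zero => simp
    | succ n ih =>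
      have h1 := h n
      push_cast
      rw [abs_le] at *
      constructor <;> nlinarith [ih.1, ih.2, h1.1, h1.2]
  have hneg : ∀ n : ℕ, |φ (-n) - φ 0 - (-n) * τ| ≤ n * K := by
    intro n
    induction n with
    | zero => simp
    | succ n ih =>
      have h1 := h (-(n + 1))
      have h2 : (-((n : ℤ) + 1) + 1) = -n := by ring
      rw [h2] at h1
      push_cast
      have h3 : (-((n : ℤ) + 1)) = -1 + -(n : ℤ) := by ring
      rw [abs_le] at *
      constructor <;> nlinarith [ih.1, ih.2, h1.1, h1.2]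
  rcases le_total 0 n with hn | hn
  · obtain ⟨m, rfl⟩ := Int.eq_ofNat_of_zero_le hn
    rw [abs_of_nonneg hn]
    exact hpos m
  · obtain ⟨m, hm⟩ := Int.eq_ofNat_of_zero_le (neg_nonneg.2 hn)
    have h1 : n = -(m : ℤ) := by omega
    rw [abs_of_nonpos hn, h1, neg_neg]
    exact hneg m

/-- sequences with almost constant steps come close to every value -/
lemma seq_near_pos (φ : ℤ → ℤ) (τ K : ℤ) (h : ∀ n, |φ (n + 1) - φ n - τ| ≤ K) (hK : K < τ)
    (v : ℤ) : ∃ m, |φ m - v| ≤ τ + K := by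
  have hK0 : 0 ≤ K := le_trans (abs_nonneg _) (h 0)
  have hstep : ∀ n, φ n + 1 ≤ φ (n + 1) := fun n => by
    have := abs_le.1 (h n); omega
  have hup : ∀ n : ℕ, ∀ m : ℤ, φ m + n ≤ φ (m + n) := by
    intro n
    induction n with
    | zero => simp
    | succ n ih =>
      intro m
      have h1 := ih m
      have h2 := hstep (m + n)
      push_cast
      rw [← add_assoc, ← add_assoc]
      omega
  have hbd : ∃ b : ℤ, ∀ z : ℤ, φ z ≤ v → z ≤ b := by
    refine ⟨|v - φ 0|, fun z hz => ?_⟩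
    by_contra hlt
    push Not at hlt
    have h0 : 0 ≤ z := le_trans (abs_nonneg _) hlt.le
    obtain ⟨n, rfl⟩ := Int.eq_ofNat_of_zero_le h0
    have h1 := hup n 0
    rw [zero_add] at h1
    have h2 := le_abs_self (v - φ 0)
    have h3 : (Int.ofNat n : ℤ) = (n : ℤ) := rfl
    omega
  have hne : ∃ z : ℤ, φ z ≤ v := by
    refine ⟨-((v - φ 0).natAbs : ℤ), ?_⟩
    have h1 := hup (v - φ 0).natAbs (-((v - φ 0).natAbs : ℤ))
    rw [neg_add_cancel] at h1
    omega
  obtain ⟨m, hm, hmax⟩ := Int.exists_greatest_of_bdd hbd hne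
  refine ⟨m, ?_⟩
  have h1 : v < φ (m + 1) := by
    by_contra hle
    push Not at hle
    have := hmax _ hle
    omega
  have h2 := abs_le.1 (h m)
  rw [abs_le]
  omega

lemma seq_near (φ : ℤ → ℤ) (τ K : ℤ) (h : ∀ n, |φ (n + 1) - φ n - τ| ≤ K) (hK : K < |τ|)
    (v : ℤ) : ∃ m, |φ m - v| ≤ |τ| + K := by
  rcases le_total 0 τ with hτ | hτ
  · rw [abs_of_nonneg hτ] at hK ⊢
    exact seq_near_pos φ τ K h hK v
  · rw [abs_of_nonpos hτ] at hK ⊢
    obtain ⟨m, hm⟩ := seq_near_pos (fun n => φ (-n)) (-τ) K (fun n => by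
      have h1 := h (-(n + 1))
      have h2 : (-((n : ℤ) + 1) + 1) = -n := by ring
      rw [h2] at h1
      rw [abs_le] at *
      constructor <;> linarith [h1.1, h1.2]) hK v
    exact ⟨-m, hm⟩

/-- subadditive sequences bounded below by a linear function: lower and upper linear bounds with
ratio two -/
lemma two_sided (D : ℕ → ℕ) (hsub : ∀ m n, D (m + n) ≤ D m + D n) (h0 : D 0 = 0) (η : ℝ)
    (hη : 0 < η) (hD : ∀ n : ℕ, η * n ≤ D n) :
    ∃ (ε M : ℝ), 0 < ε ∧ 0 ≤ M ∧ (∀ n : ℕ, ε * n ≤ D n) ∧ ∀ n : ℕ, (D n : ℝ) ≤ 2 * ε * n + M := by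
  obtain ⟨ε, hε⟩ : ∃ ε : ℝ, ε = sInf {r : ℝ | ∃ n : ℕ, 1 ≤ n ∧ r = (D n : ℝ) / n} := ⟨_, rfl⟩
  have hne : {r : ℝ | ∃ n : ℕ, 1 ≤ n ∧ r = (D n : ℝ) / n}.Nonempty := ⟨_, 1, le_rfl, rfl⟩
  have hlow : η ≤ ε := by
    rw [hε]
    refine le_csInf hne ?_
    rintro r ⟨n, hn, rfl⟩
    have hn' : (0 : ℝ) < n := by exact_mod_cast hn
    rw [le_div_iff₀ hn']
    exact hD n
  have hbdd : BddBelow {r : ℝ | ∃ n : ℕ, 1 ≤ n ∧ r = (D n : ℝ) / n} := by
    refine ⟨0, ?_⟩
    rintro r ⟨n, hn, rfl⟩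
    positivity
  have hε0 : 0 < ε := lt_of_lt_of_le hη hlow
  obtain ⟨r, ⟨n₀, hn₀, rfl⟩, hr⟩ := exists_lt_of_csInf_lt hne (show sInf _ < 2 * ε by
    rw [← hε]; linarith)
  have hn₀' : (0 : ℝ) < n₀ := by exact_mod_cast hn₀
  rw [div_lt_iff₀ hn₀'] at hr
  have hmul : ∀ q m : ℕ, D (q * m) ≤ q * D m := by
    intro q m
    induction q with
    | zero => simp [h0]
    | succ q ih =>
      have h1 : (q + 1) * m = q * m + m := by ring
      have h2 : (q + 1) * D m = q * D m + D m := by ring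
      rw [h1, h2]
      exact (hsub _ _).trans (Nat.add_le_add_right ih _)
  refine ⟨ε, n₀ * D 1, hε0, by positivity, fun n => ?_, fun n => ?_⟩
  · rcases Nat.eq_zero_or_pos n with rfl | hn
    · simp
    · have hn' : (0 : ℝ) < n := by exact_mod_cast hn
      have h1 : ε ≤ (D n : ℝ) / n := by
        rw [hε]
        exact csInf_le hbdd ⟨n, hn, rfl⟩
      rwa [le_div_iff₀ hn'] at h1
  · have h1 : n = (n / n₀) * n₀ + n % n₀ := (Nat.div_add_mod' n n₀).symm
    have h2 : D n ≤ (n / n₀) * D n₀ + (n % n₀) * D 1 := by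
      calc D n = D ((n / n₀) * n₀ + n % n₀) := by rw [← h1]
        _ ≤ D ((n / n₀) * n₀) + D (n % n₀) := hsub _ _
        _ ≤ (n / n₀) * D n₀ + (n % n₀) * D 1 := by
            refine Nat.add_le_add (hmul _ _) ?_
            have := hmul (n % n₀) 1
            rwa [mul_one] at this
    have h3 : (n % n₀) * D 1 ≤ n₀ * D 1 := Nat.mul_le_mul_right _ (Nat.mod_lt _ hn₀).le
    have h4 : (D n : ℝ) ≤ ((n / n₀ : ℕ) : ℝ) * D n₀ + n₀ * D 1 := by
      exact_mod_cast h2.trans (Nat.add_le_add_left h3 _)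
    have h5 : ((n / n₀ : ℕ) : ℝ) * n₀ ≤ n := by
      exact_mod_cast Nat.div_mul_le_self n n₀
    have h6 : ((n / n₀ : ℕ) : ℝ) * D n₀ ≤ ((n / n₀ : ℕ) : ℝ) * (2 * ε * n₀) :=
      mul_le_mul_of_nonneg_left hr.le (by positivity)
    nlinarith [h4, h5, h6, hε0]

end Qi

end Pool.H61.ST
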