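import Pool.Agent.H61.ST.QiCore
import Pool.Agent.H61.ST.Coarse

set_option autoImplicit false

/-! Core of module QI: the abstract statement. -/

namespace Pool.H61.ST

namespace Qi

section core
variable {A : Type} [Group A] {N : A → ℕ} {L : Subgroup A} {φ : A → ℤ}

/-- orientation preserving -/
def Pos (L : Subgroup A) (φ : A → ℤ) (Q : ℤ) (a : A) : Prop :=
  ∀ y ∈ L, ∀ z ∈ L, |φ (a * y) - φ (a * z) - (φ y - φ z)| ≤ Q

/-- orientation reversing -/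
def Neg (L : Subgroup A) (φ : A → ℤ) (Q : ℤ) (a : A) : Prop :=
  ∀ y ∈ L, ∀ z ∈ L, |φ (a * y) - φ (a * z) + (φ y - φ z)| ≤ Q

lemma pos_or_neg {K : ℕ}
    (I1 : ∀ a ∈ L, ∀ b ∈ L, ∀ c ∈ L, |(|φ (a * b) - φ (a * c)|) - (|φ b - φ c|)| ≤ (K : ℤ))
    {a : A} (ha : a ∈ L) : Pos L φ (9 * K) a ∨ Neg L φ (9 * K) a := by
  rcases coarse_sign (fun y : L => φ (a * y)) (fun y : L => φ y) K
    (fun y z => I1 a ha y y.2 z z.2) with h | h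
  · exact Or.inl fun y hy z hz => h ⟨y, hy⟩ ⟨z, hz⟩
  · exact Or.inr fun y hy z hz => h ⟨y, hy⟩ ⟨z, hz⟩

lemma pos_of_pos {K : ℕ}
    (I1 : ∀ a ∈ L, ∀ b ∈ L, ∀ c ∈ L, |(|φ (a * b) - φ (a * c)|) - (|φ b - φ c|)| ≤ (K : ℤ))
    (I3 : ∀ B : ℤ, ∃ l ∈ L, B < |φ l - φ 1|) {a : A} (ha : a ∈ L) {M : ℤ} (h : Pos L φ M a) :
    Pos L φ (9 * K) a := by
  rcases pos_or_neg I1 ha with h1 | h1
  · exact h1
  · exfalso
    obtain ⟨l, hl, hB⟩ := I3 (M + 9 * K)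
    have h2 := h l hl 1 L.one_mem
    have h3 := h1 l hl 1 L.one_mem
    have hM : 0 ≤ M := le_trans (abs_nonneg _) h2
    rw [abs_le] at h2 h3
    rw [lt_abs] at hB
    omega

lemma pos_mul {Q Q' : ℤ} {a b : A} (hb : b ∈ L) (h1 : Pos L φ Q a) (h2 : Pos L φ Q' b) :
    Pos L φ (Q + Q') (a * b) := by
  intro y hy z hz
  have h3 := h1 (b * y) (L.mul_mem hb hy) (b * z) (L.mul_mem hb hz)
  have h4 := h2 y hy z hz
  rw [mul_assoc, mul_assoc]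
  rw [abs_le] at *
  omega

lemma neg_mul {Q Q' : ℤ} {a b : A} (hb : b ∈ L) (h1 : Neg L φ Q a) (h2 : Neg L φ Q' b) :
    Pos L φ (Q + Q') (a * b) := by
  intro y hy z hz
  have h3 := h1 (b * y) (L.mul_mem hb hy) (b * z) (L.mul_mem hb hz)
  have h4 := h2 y hy z hz
  rw [mul_assoc, mul_assoc]
  rw [abs_le] at *
  omega

lemma neg_inv {Q : ℤ} {a : A} (ha : a ∈ L) (h : Neg L φ Q a) : Neg L φ Q a⁻¹ := by
  intro y hy z hz
  have h1 := h (a⁻¹ * y) (L.mul_mem (L.inv_mem ha) hy) (a⁻¹ * z) (L.mul_mem (L.inv_mem ha) hz)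
  rw [mul_inv_cancel_left, mul_inv_cancel_left] at h1
  rw [abs_le] at *
  omega

lemma sq_pos {K : ℕ}
    (I1 : ∀ a ∈ L, ∀ b ∈ L, ∀ c ∈ L, |(|φ (a * b) - φ (a * c)|) - (|φ b - φ c|)| ≤ (K : ℤ))
    (I3 : ∀ B : ℤ, ∃ l ∈ L, B < |φ l - φ 1|) {a : A} (ha : a ∈ L) :
    Pos L φ (9 * K) (a * a) := by
  rcases pos_or_neg I1 ha with h1 | h1
  · exact pos_of_pos I1 I3 (L.mul_mem ha ha) (pos_mul ha h1 h1)
  · exact pos_of_pos I1 I3 (L.mul_mem ha ha) (neg_mul ha h1 h1)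

lemma exists_pos_large {K : ℕ}
    (I1 : ∀ a ∈ L, ∀ b ∈ L, ∀ c ∈ L, |(|φ (a * b) - φ (a * c)|) - (|φ b - φ c|)| ≤ (K : ℤ))
    (I3 : ∀ B : ℤ, ∃ l ∈ L, B < |φ l - φ 1|) (B : ℤ) :
    ∃ l ∈ L, Pos L φ (9 * K) l ∧ B < |φ l - φ 1| := by
  obtain ⟨l, hl, hB⟩ := I3 B
  rcases pos_or_neg I1 hl with h1 | h1
  · exact ⟨l, hl, h1, hB⟩
  · obtain ⟨l', hl', hB'⟩ := I3 (|φ l - φ 1| + |B| + 9 * K)
    rcases pos_or_neg I1 hl' with h2 | h2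
    · refine ⟨l', hl', h2, lt_of_le_of_lt ?_ hB'⟩
      have h3 := le_abs_self B
      have h4 := abs_nonneg (φ l - φ 1)
      omega
    · have hm := L.mul_mem hl (L.inv_mem hl')
      have h3 : Pos L φ (9 * K) (l * l'⁻¹) :=
        pos_of_pos I1 I3 hm (neg_mul (L.inv_mem hl') h1 (neg_inv hl' h2))
      refine ⟨_, hm, h3, ?_⟩
      have h4 := h3 l' hl' 1 L.one_mem
      rw [inv_mul_cancel_right, mul_one] at h4
      have h5 := le_abs_self B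
      rw [abs_le] at h4
      rw [lt_abs] at *
      rcases abs_cases (φ l - φ 1) with ⟨h6, h7⟩ | ⟨h6, h7⟩ <;> omega

lemma step_pow {Q : ℤ} {a : A} (ha : a ∈ L) (h : Pos L φ Q a) (n : ℤ) :
    |φ (a ^ (n + 1)) - φ (a ^ n) - (φ a - φ 1)| ≤ Q := by
  have h1 := h (a ^ n) (L.zpow_mem ha n) 1 L.one_mem
  rw [mul_one] at h1
  have h2 : a ^ (n + 1) = a * a ^ n := by rw [add_comm, zpow_one_add]
  rw [h2]
  rw [abs_le] at *
  omega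

end core

end Qi

end Pool.H61.ST
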