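import Pool.Agent.H61.ST.QiCore2

set_option autoImplicit false

/-! Core of module QI: the abstract theorem. -/

namespace Pool.H61.ST

namespace Qi

section core
variable {A : Type} [Group A]

lemma rate_upper {L : Subgroup A} {φ : A → ℤ} {Q : ℤ} {a : A} (ha : a ∈ L) (h : Pos L φ Q a)
    (n : ℤ) : |φ (a ^ n) - φ 1| ≤ |n| * (|φ a - φ 1| + Q) := by
  have h1 := seq_lin (fun n => φ (a ^ n)) (φ a - φ 1) Q (step_pow ha h) n
  simp only [zpow_zero] at h1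
  have h2 : |n * (φ a - φ 1)| = |n| * |φ a - φ 1| := abs_mul _ _
  have h3 : |φ (a ^ n) - φ 1| ≤ |φ (a ^ n) - φ 1 - n * (φ a - φ 1)| + |n * (φ a - φ 1)| := by
    have := abs_add_le (φ (a ^ n) - φ 1 - n * (φ a - φ 1)) (n * (φ a - φ 1))
    rwa [sub_add_cancel] at this
  rw [mul_add]
  linarith

lemma rate_lower {L : Subgroup A} {φ : A → ℤ} {Q : ℤ} {a : A} (ha : a ∈ L) (h : Pos L φ Q a)
    (n : ℤ) : |n| * (|φ a - φ 1| - Q) ≤ |φ (a ^ n) - φ 1| := by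
  have h1 := seq_lin (fun n => φ (a ^ n)) (φ a - φ 1) Q (step_pow ha h) n
  simp only [zpow_zero] at h1
  have h2 : |n * (φ a - φ 1)| = |n| * |φ a - φ 1| := abs_mul _ _
  have h3 : |n * (φ a - φ 1)| ≤ |φ (a ^ n) - φ 1 - n * (φ a - φ 1)| + |φ (a ^ n) - φ 1| := by
    have := abs_sub_le (n * (φ a - φ 1)) (φ (a ^ n) - φ 1) 0
    rw [sub_zero, sub_zero, abs_sub_comm (n * (φ a - φ 1)) (φ (a ^ n) - φ 1)] at this
    exact this
  rw [mul_sub]
  linarith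

theorem core (N : A → ℕ) (hN1 : N 1 = 0) (hmul : ∀ a b, N (a * b) ≤ N a + N b)
    (hinv : ∀ a, N a⁻¹ = N a) (L : Subgroup A) (g : A)
    (hgL : ∀ l ∈ L, ∀ j : ℤ, g ^ (-j) * l * g ^ j ∈ L) (φ : A → ℤ) (K C₁ : ℕ)
    (I1 : ∀ a ∈ L, ∀ b ∈ L, ∀ c ∈ L, |(|φ (a * b) - φ (a * c)|) - (|φ b - φ c|)| ≤ (K : ℤ))
    (I2 : ∀ a ∈ L, ∀ b ∈ L, (N (a⁻¹ * b) : ℤ) ≤ C₁ * (|φ a - φ b| + 1))
    (I3 : ∀ B : ℤ, ∃ l ∈ L, B < |φ l - φ 1|)
    (I4 : ∀ s ∈ L, (∀ n : ℤ, |n| ≤ |φ (s ^ n) - φ 1|) →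
      ∃ η : ℝ, 0 < η ∧ ∀ n : ℕ, η * n ≤ N (s ^ n)) :
    ∃ s ∈ L, ∃ C : ℕ, (∀ j : ℤ, N (g ^ (-j) * s * g ^ j) ≤ C) ∧
      (∀ j n : ℤ, |n| ≤ C * ((N (g ^ (-j) * s ^ n * g ^ j) : ℤ) + 1)) ∧
      ∀ j : ℤ, ∀ l ∈ L, ∃ n : ℤ, N ((g ^ (-j) * s ^ n * g ^ j)⁻¹ * l) ≤ C := by
  obtain ⟨Q, hQ⟩ : ∃ Q : ℤ, Q = 9 * K := ⟨_, rfl⟩
  have hQ0 : 0 ≤ Q := by rw [hQ]; positivity
  obtain ⟨l₁, hl₁, hP₁, hB₁⟩ := exists_pos_large I1 I3 (10 * Q + 10)
  obtain ⟨s, hs⟩ : ∃ s, s = l₁ * l₁ := ⟨_, rfl⟩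
  have hsL : s ∈ L := hs ▸ L.mul_mem hl₁ hl₁
  have hsP : Pos L φ Q s := by rw [hs, hQ]; exact sq_pos I1 I3 hl₁
  obtain ⟨T, hT⟩ : ∃ T : ℤ, T = |φ s - φ 1| := ⟨_, rfl⟩
  have hTbig : 19 * Q + 20 ≤ T := by
    have h1 := hP₁ l₁ hl₁ 1 L.one_mem
    rw [mul_one, ← hs, ← hQ] at h1
    rw [hT]
    rw [abs_le] at h1
    rw [lt_abs] at hB₁
    rcases abs_cases (φ s - φ 1) with ⟨h6, h7⟩ | ⟨h6, h7⟩ <;> omega
  have hup := rate_upper hsL hsP
  have hlow := rate_lower hsL hsP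
  rw [← hT] at hup hlow
  obtain ⟨η, hη, hD⟩ := I4 s hsL (fun n => by
    refine le_trans ?_ (hlow n)
    have h1 : 0 ≤ |n| := abs_nonneg n
    nlinarith)
  obtain ⟨ε, M, hε, hM, hDl, hDu⟩ := two_sided (fun n => N (s ^ n))
    (fun m n => by rw [pow_add]; exact hmul _ _) (by simp [hN1]) η hη hD
  have hNabs : ∀ m : ℤ, N (s ^ m) = N (s ^ m.natAbs) := by
    intro m
    rcases Int.natAbs_eq m with h | h
    · conv_lhs => rw [h]
      rw [zpow_natCast]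
    · conv_lhs => rw [h]
      rw [zpow_neg, hinv, zpow_natCast]
  have hNl : ∀ m : ℤ, ε * |(m : ℝ)| ≤ N (s ^ m) := by
    intro m
    have h1 := hDl m.natAbs
    rw [← hNabs, Nat.cast_natAbs, Int.cast_abs] at h1
    exact h1
  have hNu : ∀ m : ℤ, (N (s ^ m) : ℝ) ≤ 2 * ε * |(m : ℝ)| + M := by
    intro m
    have h1 := hDu m.natAbs
    rw [← hNabs, Nat.cast_natAbs, Int.cast_abs] at h1
    exact h1
  -- near points
  obtain ⟨E, hE⟩ : ∃ E : ℤ, E = C₁ * (T + Q + 1) := ⟨_, rfl⟩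
  have hE0 : 0 ≤ E := by rw [hE]; exact mul_nonneg (by positivity) (by omega)
  have hnear : ∀ l ∈ L, ∃ m : ℤ, |φ (s ^ m) - φ l| ≤ T + Q ∧ (N (s ^ m) : ℤ) ≤ N l + E ∧
      (N l : ℤ) ≤ N (s ^ m) + E := by
    intro l hl
    obtain ⟨m, hm⟩ := seq_near (fun n => φ (s ^ n)) (φ s - φ 1) Q (step_pow hsL hsP)
      (by rw [← hT]; omega) (φ l)
    rw [← hT] at hm
    have h1 := I2 (s ^ m) (L.zpow_mem hsL m) l hl
    have h2 : (C₁ : ℤ) * (|φ (s ^ m) - φ l| + 1) ≤ E := by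
      rw [hE]
      exact mul_le_mul_of_nonneg_left (by omega) (by positivity)
    have h3 : N l ≤ N (s ^ m) + N ((s ^ m)⁻¹ * l) := by
      have := hmul (s ^ m) ((s ^ m)⁻¹ * l)
      rwa [mul_inv_cancel_left] at this
    have h4 : N (s ^ m) ≤ N l + N ((s ^ m)⁻¹ * l) := by
      have := hmul l (l⁻¹ * s ^ m)
      rw [mul_inv_cancel_left] at this
      have h5 : (l⁻¹ * s ^ m) = ((s ^ m)⁻¹ * l)⁻¹ := by group
      rwa [h5, hinv] at this
    refine ⟨m, hm, by omega, by omega⟩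
  -- conjugates
  have key : ∀ j : ℤ, ∃ l, l = g ^ (-j) * s * g ^ j ∧ l ∈ L ∧ Pos L φ Q l ∧
      (∀ n : ℤ, l ^ n = g ^ (-j) * s ^ n * g ^ j) ∧ |φ l - φ 1| ≤ 2 * T + 3 * Q ∧
      T - 3 * Q ≤ 2 * |φ l - φ 1| := by
    intro j
    obtain ⟨l, hl⟩ : ∃ l, l = g ^ (-j) * s * g ^ j := ⟨_, rfl⟩
    have hlL : l ∈ L := hl ▸ hgL s hsL j
    have hlP : Pos L φ Q l := by
      have h1 : l = (g ^ (-j) * l₁ * g ^ j) * (g ^ (-j) * l₁ * g ^ j) := by
        rw [hl, hs]; group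
      rw [h1, hQ]
      exact sq_pos I1 I3 (hgL l₁ hl₁ j)
    have hpow : ∀ n : ℤ, l ^ n = g ^ (-j) * s ^ n * g ^ j := by
      intro n
      have h1 : g ^ j = (g ^ (-j))⁻¹ := by rw [zpow_neg, inv_inv]
      rw [hl, h1, conj_zpow]
    obtain ⟨c, hc⟩ : ∃ c : ℕ, c = N (g ^ j) + N (g ^ (-j)) := ⟨_, rfl⟩
    have hc1 : ∀ n : ℤ, N (l ^ n) ≤ N (s ^ n) + c := by
      intro n
      rw [hpow, hc]
      have h1 := hmul (g ^ (-j) * s ^ n) (g ^ j)
      have h2 := hmul (g ^ (-j)) (s ^ n)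
      omega
    have hc2 : ∀ n : ℤ, N (s ^ n) ≤ N (l ^ n) + c := by
      intro n
      have h0 : s ^ n = g ^ j * l ^ n * g ^ (-j) := by rw [hpow]; group
      conv_lhs => rw [h0]
      rw [hc]
      have h1 := hmul (g ^ j * l ^ n) (g ^ (-j))
      have h2 := hmul (g ^ j) (l ^ n)
      omega
    have hlup := rate_upper hlL hlP
    have hllow := rate_lower hlL hlP
    obtain ⟨t, ht⟩ : ∃ t : ℤ, t = |φ l - φ 1| := ⟨_, rfl⟩
    rw [← ht] at hlup hllow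
    have ht0 : 0 ≤ t := ht ▸ abs_nonneg _
    refine ⟨l, hl, hlL, hlP, hpow, ?_, ?_⟩
    · rw [← ht]
      by_contra hlt
      push Not at hlt
      -- for all `n`: `ε n ≤ const`
      have hall : ∀ n : ℕ, ε * n ≤ ε * (T + Q) + (T + Q) * (M + c + E) := by
        intro n
        obtain ⟨m, hm1, hm2, hm3⟩ := hnear (l ^ (n : ℤ)) (L.zpow_mem hlL _)
        have a1 := hllow n
        have a2 : |φ (l ^ (n : ℤ)) - φ 1| ≤ |φ (s ^ m) - φ 1| + (T + Q) := by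
          have := abs_sub_le (φ (l ^ (n : ℤ))) (φ (s ^ m)) (φ 1)
          rw [abs_sub_comm (φ (l ^ (n : ℤ))) (φ (s ^ m))] at this
          omega
        have a3 := hup m
        have a4 : (n : ℤ) * (t - Q) ≤ |m| * (T + Q) + (T + Q) := by
          rw [Nat.abs_cast] at a1
          omega
        have b1 := hNl m
        have b2 := hNu n
        have b3 := hc1 n
        have b4 : (N (s ^ m) : ℝ) ≤ N (l ^ (n : ℤ)) + E := by exact_mod_cast hm2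
        have b5 : (N (l ^ (n : ℤ)) : ℝ) ≤ N (s ^ (n : ℤ)) + c := by exact_mod_cast b3
        have b6 : |((n : ℤ) : ℝ)| = n := by simp
        rw [b6] at b2
        have b7 : ε * |(m : ℝ)| ≤ 2 * ε * n + (M + c + E) := by linarith
        have a5 : (n : ℝ) * (t - Q) ≤ |(m : ℝ)| * (T + Q) + (T + Q) := by exact_mod_cast a4
        have hTQ : (0 : ℝ) ≤ T + Q := by
          have : (0 : ℤ) ≤ T + Q := by omega
          exact_mod_cast this
        have c1 := mul_le_mul_of_nonneg_left a5 hε.le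
        have c2 := mul_le_mul_of_nonneg_left b7 hTQ
        have c3 : (1 : ℝ) ≤ t - 3 * Q - 2 * T := by
          have : (1 : ℤ) ≤ t - 3 * Q - 2 * T := by omega
          exact_mod_cast this
        have c4 : ε * n * 1 ≤ ε * n * (t - 3 * Q - 2 * T) :=
          mul_le_mul_of_nonneg_left c3 (by positivity)
        nlinarith [c1, c2, c4]
      obtain ⟨n, hn⟩ := exists_nat_gt ((ε * (T + Q) + (T + Q) * (M + c + E)) / ε)
      rw [div_lt_iff₀ hε] at hn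
      have := hall n
      linarith
    · rw [← ht]
      by_contra hlt
      push Not at hlt
      have hall : ∀ n : ℕ, ε * n ≤ 2 * ε * (T + Q) + (T - Q) * (M + c + E) := by
        intro n
        obtain ⟨m, hm1, hm2, hm3⟩ := hnear (l ^ (n : ℤ)) (L.zpow_mem hlL _)
        have a1 := hlup n
        have a2 : |φ (s ^ m) - φ 1| ≤ |φ (l ^ (n : ℤ)) - φ 1| + (T + Q) := by
          have := abs_sub_le (φ (s ^ m)) (φ (l ^ (n : ℤ))) (φ 1)
          omega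
        have a3 := hlow m
        have a4 : |m| * (T - Q) ≤ (n : ℤ) * (t + Q) + (T + Q) := by
          rw [Nat.abs_cast] at a1
          omega
        have b1 := hNl n
        have b2 := hNu m
        have b3 := hc2 n
        have b4 : (N (l ^ (n : ℤ)) : ℝ) ≤ N (s ^ m) + E := by exact_mod_cast hm3
        have b5 : (N (s ^ (n : ℤ)) : ℝ) ≤ N (l ^ (n : ℤ)) + c := by exact_mod_cast b3
        have b6 : |((n : ℤ) : ℝ)| = n := by simp
        rw [b6] at b1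
        have b7 : ε * n ≤ 2 * ε * |(m : ℝ)| + (M + c + E) := by linarith
        have a5 : |(m : ℝ)| * (T - Q) ≤ (n : ℝ) * (t + Q) + (T + Q) := by exact_mod_cast a4
        have hTQ : (0 : ℝ) ≤ T - Q := by
          have : (0 : ℤ) ≤ T - Q := by omega
          exact_mod_cast this
        have c1 := mul_le_mul_of_nonneg_left a5 (show (0 : ℝ) ≤ 2 * ε by positivity)
        have c2 := mul_le_mul_of_nonneg_left b7 hTQ
        have c3 : (1 : ℝ) ≤ T - 3 * Q - 2 * t := by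
          have : (1 : ℤ) ≤ T - 3 * Q - 2 * t := by omega
          exact_mod_cast this
        have c4 : ε * n * 1 ≤ ε * n * (T - 3 * Q - 2 * t) :=
          mul_le_mul_of_nonneg_left c3 (by positivity)
        nlinarith [c1, c2, c4]
      obtain ⟨n, hn⟩ := exists_nat_gt ((2 * ε * (T + Q) + (T - Q) * (M + c + E)) / ε)
      rw [div_lt_iff₀ hε] at hn
      have := hall n
      linarith
  -- constants
  obtain ⟨C₂, hC₂⟩ := exists_nat_ge (((T : ℝ) + Q) * (1 + E) / ε + (T + Q))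
  obtain ⟨C₃, hC₃⟩ : ∃ C₃ : ℕ, (C₃ : ℤ) = C₁ * (2 * T + 4 * Q + 1) :=
    ⟨(C₁ * (2 * T + 4 * Q + 1)).toNat,
      Int.toNat_of_nonneg (mul_nonneg (by positivity) (by omega))⟩
  refine ⟨s, hsL, C₂ + C₃, fun j => ?_, fun j n => ?_, fun j l' hl' => ?_⟩
  · obtain ⟨l, hl, hlL, hlP, hpow, hu, hlo⟩ := key j
    rw [← hl]
    have h1 := I2 1 L.one_mem l hlL
    rw [inv_one, one_mul, abs_sub_comm] at h1
    have h2 : (C₁ : ℤ) * (|φ l - φ 1| + 1) ≤ C₃ := by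
      rw [hC₃]
      exact mul_le_mul_of_nonneg_left (by omega) (by positivity)
    omega
  · obtain ⟨l, hl, hlL, hlP, hpow, hu, hlo⟩ := key j
    rw [← hpow]
    obtain ⟨m, hm1, hm2, hm3⟩ := hnear (l ^ n) (L.zpow_mem hlL _)
    have a1 := rate_lower hlL hlP n
    have a2 : |φ (l ^ n) - φ 1| ≤ |φ (s ^ m) - φ 1| + (T + Q) := by
      have := abs_sub_le (φ (l ^ n)) (φ (s ^ m)) (φ 1)
      rw [abs_sub_comm (φ (l ^ n)) (φ (s ^ m))] at this
      omega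
    have a3 := hup m
    have a4 : |n| ≤ |n| * (|φ l - φ 1| - Q) := by
      have : 0 ≤ |n| := abs_nonneg n
      nlinarith
    have a5 : |n| ≤ |m| * (T + Q) + (T + Q) := by omega
    have a6 : (|n| : ℝ) ≤ |(m : ℝ)| * (T + Q) + (T + Q) := by exact_mod_cast a5
    have b1 := hNl m
    have b4 : (N (s ^ m) : ℝ) ≤ N (l ^ n) + E := by exact_mod_cast hm2
    have hTQ : (0 : ℝ) ≤ T + Q := by
      have : (0 : ℤ) ≤ T + Q := by omega
      exact_mod_cast this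
    have hE' : (0 : ℝ) ≤ E := by exact_mod_cast hE0
    have b5 : |(m : ℝ)| ≤ (N (l ^ n) + E) / ε := by
      rw [le_div_iff₀ hε, mul_comm]
      linarith
    have b6 : |(m : ℝ)| ≤ (N (l ^ n) + 1) * ((1 + E) / ε) := by
      refine b5.trans ?_
      rw [← mul_div_assoc, div_le_div_iff_of_pos_right hε]
      have : (0 : ℝ) ≤ N (l ^ n) := by positivity
      nlinarith
    have b7 : (|n| : ℝ) ≤ C₂ * (N (l ^ n) + 1) := by
      have h1 := mul_le_mul_of_nonneg_right b6 hTQ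
      have h2 : (0 : ℝ) ≤ N (l ^ n) := by positivity
      have h3 : (T + Q : ℝ) ≤ (T + Q) * (N (l ^ n) + 1) := by nlinarith
      have h4 : (((T : ℝ) + Q) * (1 + E) / ε + (T + Q)) * (N (l ^ n) + 1) ≤
          C₂ * (N (l ^ n) + 1) := mul_le_mul_of_nonneg_right hC₂ (by positivity)
      have h5 : (((T : ℝ) + Q) * (1 + E) / ε + (T + Q)) * (N (l ^ n) + 1) =
          (N (l ^ n) + 1) * ((1 + E) / ε) * (T + Q) + (T + Q) * (N (l ^ n) + 1) := by ring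
      linarith
    have b8 : |n| ≤ (C₂ : ℤ) * (N (l ^ n) + 1) := by exact_mod_cast b7
    push_cast
    have : (0 : ℤ) ≤ (C₃ : ℤ) * (N (l ^ n) + 1) := by positivity
    rw [add_mul]
    omega
  · obtain ⟨l, hl, hlL, hlP, hpow, hu, hlo⟩ := key j
    obtain ⟨n, hn⟩ := seq_near (fun n => φ (l ^ n)) (φ l - φ 1) Q (step_pow hlL hlP)
      (by omega) (φ l')
    refine ⟨n, ?_⟩
    rw [← hpow]
    have h1 := I2 (l ^ n) (L.zpow_mem hlL n) l' hl'
    have h2 : (C₁ : ℤ) * (|φ (l ^ n) - φ l'| + 1) ≤ C₃ := by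
      rw [hC₃]
      exact mul_le_mul_of_nonneg_left (by omega) (by positivity)
    omega

end core

end Qi

end Pool.H61.ST
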