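import Pool.Agent.H61.ST.Defs2

set_option autoImplicit false

/-! A point at given distance from a geodesic segment (quadratic case). -/

namespace Pool.H61.ST

open Finset Pool.Agent.H61.SW Pool.H98.C

section QPT
variable {V : Type} {G : SimpleGraph V} (hG : TG G)

include hG in
lemma dist_pow_le (s : G ≃g G) (y : V) (n : ℕ) :
    G.dist y ((s ^ n) y) ≤ n * G.dist y (s y) := by
  induction n with
  | zero => simp
  | succ n ih =>
    have h1 : (s ^ (n + 1)) y = (s ^ n) (s y) := by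
      rw [pow_succ, RelIso.mul_apply]
    have h2 := hG.tri y ((s ^ n) y) ((s ^ (n + 1)) y)
    rw [h1, dist_iso hG.conn] at h2
    rw [h1]
    have h3 : (n + 1) * G.dist y (s y) = n * G.dist y (s y) + G.dist y (s y) := by ring
    omega

/-- upper bound for balls -/
lemma lat_upper (s g : G ≃g G) (x : V) (C : ℕ) (hL : LatQI G s g x C) (r : ℕ) :
    (bl hG x r).card ≤ (2 * (C * (r + C + 1)) + 1) ^ 2 * (bl hG x C).card := by
  classical
  set M : ℕ := C * (r + C + 1) with hM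
  have hsub : bl hG x r ⊆ ((Finset.Icc (-(M : ℤ)) M) ×ˢ (Finset.Icc (-(M : ℤ)) M)).biUnion
      fun q => bl hG ((s ^ q.1) ((g ^ q.2) x)) C := by
    intro v hv
    rw [mem_bl] at hv
    obtain ⟨i, j, hij⟩ := hL.q3 v
    have h1 := hL.q2 i j 0 0
    simp only [zpow_zero, RelIso.coe_one, id_eq, sub_zero] at h1
    have h2 : G.dist ((s ^ i) ((g ^ j) x)) x ≤ C + r := by
      have := hG.tri ((s ^ i) ((g ^ j) x)) v x
      rw [SimpleGraph.dist_comm, ← SimpleGraph.dist_comm (u := v) (v := (s ^ i) ((g ^ j) x)),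
        SimpleGraph.dist_comm (u := v) (v := x)] at this
      rw [SimpleGraph.dist_comm]
      omega
    have h3 : |i| + |j| ≤ (M : ℤ) := by
      refine h1.trans ?_
      have h4 : G.dist ((s ^ i) ((g ^ j) x)) x + 1 ≤ r + C + 1 := by omega
      have h5 : C * (G.dist ((s ^ i) ((g ^ j) x)) x + 1) ≤ C * (r + C + 1) :=
        Nat.mul_le_mul_left _ h4
      rw [hM]
      exact_mod_cast h5
    rw [Finset.mem_biUnion]
    refine ⟨(i, j), ?_, ?_⟩
    · rw [Finset.mem_product, Finset.mem_Icc, Finset.mem_Icc]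
      have h6 := abs_nonneg i
      have h7 := abs_nonneg j
      refine ⟨abs_le.1 (by linarith), abs_le.1 (by linarith)⟩
    · rw [mem_bl, SimpleGraph.dist_comm]
      exact hij
  refine (Finset.card_le_card hsub).trans (Finset.card_biUnion_le.trans ?_)
  rw [Finset.sum_congr rfl fun q _ => card_bl hG ((s ^ q.1) ((g ^ q.2) x)) x C]
  rw [Finset.sum_const, Finset.card_product, Int.card_Icc, smul_eq_mul]
  have : ((M : ℤ) + 1 - -(M : ℤ)).toNat = 2 * M + 1 := by omega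
  rw [this, sq]

/-- lower bound for balls -/
lemma lat_lower (s g : G ≃g G) (x : V) (C : ℕ) (hL : LatQI G s g x C) (m : ℕ) :
    (m + 1) ^ 2 ≤ (bl hG x (((C + 1) * (C + G.dist x (g x))) * m)).card := by
  classical
  set T := G.dist x (g x) with hT
  have hinj : Set.InjOn (fun q : ℕ × ℕ => (s ^ ((C + 1) * q.1)) ((g ^ ((C + 1) * q.2)) x))
      ((Finset.range (m + 1)) ×ˢ (Finset.range (m + 1)) : Finset (ℕ × ℕ)) := by
    rintro ⟨a, b⟩ _ ⟨a', b'⟩ _ h
    simp only at h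
    have h1 := hL.q2 (((C + 1) * a : ℕ) : ℤ) (((C + 1) * b : ℕ) : ℤ) (((C + 1) * a' : ℕ) : ℤ)
      (((C + 1) * b' : ℕ) : ℤ)
    simp only [zpow_natCast] at h1
    rw [h, SimpleGraph.dist_self] at h1
    push_cast at h1
    have h2 : ((C : ℤ) + 1) * a - (C + 1) * a' = (C + 1) * (a - a') := by ring
    have h3 : ((C : ℤ) + 1) * b - (C + 1) * b' = (C + 1) * (b - b') := by ring
    rw [h2, h3, abs_mul, abs_mul, abs_of_nonneg (by positivity : (0 : ℤ) ≤ (C : ℤ) + 1)] at h1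
    have h4 : |(a : ℤ) - a'| + |(b : ℤ) - b'| < 1 := by
      by_contra hcon
      push Not at hcon
      have h5 : ((C : ℤ) + 1) * 1 ≤ (C + 1) * (|(a : ℤ) - a'| + |(b : ℤ) - b'|) :=
        mul_le_mul_of_nonneg_left hcon (by positivity)
      have h6 : ((C : ℤ) + 1) * (|(a : ℤ) - a'| + |(b : ℤ) - b'|) =
        (C + 1) * |(a : ℤ) - a'| + (C + 1) * |(b : ℤ) - b'| := by ring
      simp only [mul_one] at h1
      linarith
    have h7 := abs_nonneg ((a : ℤ) - a')
    have h8 := abs_nonneg ((b : ℤ) - b')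
    have h9 : |(a : ℤ) - a'| = 0 := by omega
    have h10 : |(b : ℤ) - b'| = 0 := by omega
    rw [abs_eq_zero] at h9 h10
    ext
    · simp only; omega
    · simp only; omega
  have hmaps : ∀ q ∈ ((Finset.range (m + 1)) ×ˢ (Finset.range (m + 1)) : Finset (ℕ × ℕ)),
      (s ^ ((C + 1) * q.1)) ((g ^ ((C + 1) * q.2)) x) ∈ bl hG x (((C + 1) * (C + T)) * m) := by
    rintro ⟨a, b⟩ hq
    rw [Finset.mem_product, Finset.mem_range, Finset.mem_range] at hq
    simp only at hq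
    rw [mem_bl]
    simp only
    have h1 := dist_pow_le hG g x ((C + 1) * b)
    rw [← hT] at h1
    have h2 := dist_pow_le hG s ((g ^ ((C + 1) * b)) x) ((C + 1) * a)
    have h3 := hL.q1 (((C + 1) * b : ℕ) : ℤ)
    rw [zpow_natCast] at h3
    have h4 := hG.tri x ((g ^ ((C + 1) * b)) x) ((s ^ ((C + 1) * a)) ((g ^ ((C + 1) * b)) x))
    have h5 : (C + 1) * a * G.dist ((g ^ ((C + 1) * b)) x) (s ((g ^ ((C + 1) * b)) x)) ≤
        (C + 1) * m * C := Nat.mul_le_mul (Nat.mul_le_mul_left _ (by omega)) h3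
    have h6 : (C + 1) * b * T ≤ (C + 1) * m * T :=
      Nat.mul_le_mul_right _ (Nat.mul_le_mul_left _ (by omega))
    have h7 : (C + 1) * (C + T) * m = (C + 1) * m * C + (C + 1) * m * T := by ring
    omega
  have := Finset.card_le_card_of_injOn _ hmaps hinj
  rw [Finset.card_product, Finset.card_range] at this
  rw [sq]
  exact this

include hG in
theorem exists_point (s g : G ≃g G) (x : V) (C : ℕ) (hL : LatQI G s g x C) :
    ∃ K₀ : ℕ, ∀ D₁ : ℕ, 1 ≤ D₁ → ∀ (p : ℕ) (σ : ℤ → V), IsSeg G p σ → 3 * K₀ * D₁ ≤ p →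
      ∃ z, G.dist (σ 0) z ≤ K₀ * D₁ ∧ (∀ i : ℤ, |i| ≤ p → D₁ ≤ G.dist z (σ i)) ∧
        ∃ i : ℤ, |i| ≤ (K₀ + 1) * D₁ ∧ G.dist z (σ i) = D₁ := by
  classical
  set E : ℕ := (C + 1) * (C + G.dist x (g x)) + 1 with hE
  set B : ℕ := (2 * (C * (C + 3)) + 1) ^ 2 * (bl hG x C).card with hB
  set L : ℕ := (2 * E + 3) * B with hLdef
  have hB1 : 1 ≤ B := by
    have := card_bl_pos hG x C
    rw [hB]
    exact Nat.mul_pos (by positivity) this
  have hL1 : 1 ≤ L := Nat.mul_pos (by positivity) hB1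
  refine ⟨E * L, fun D₁ hD p σ hσ hp => ?_⟩
  set K₀ := E * L with hK₀
  have hK1 : 1 ≤ K₀ := Nat.mul_pos (by positivity) hL1
  have hup : (bl hG x (2 * D₁)).card ≤ D₁ ^ 2 * B := by
    refine (lat_upper hG s g x C hL (2 * D₁)).trans ?_
    have h1 : 2 * (C * (2 * D₁ + C + 1)) + 1 ≤ D₁ * (2 * (C * (C + 3)) + 1) := by
      have h2 : 2 * D₁ + C + 1 ≤ D₁ * (C + 3) := by nlinarith
      have h3 : C * (2 * D₁ + C + 1) ≤ C * (D₁ * (C + 3)) := Nat.mul_le_mul_left _ h2
      have h4 : D₁ * (2 * (C * (C + 3)) + 1) = 2 * (C * (D₁ * (C + 3))) + D₁ := by ring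
      omega
    calc (2 * (C * (2 * D₁ + C + 1)) + 1) ^ 2 * (bl hG x C).card
        ≤ (D₁ * (2 * (C * (C + 3)) + 1)) ^ 2 * (bl hG x C).card :=
          Nat.mul_le_mul_right _ (Nat.pow_le_pow_left h1 2)
      _ = D₁ ^ 2 * B := by rw [hB]; ring
  have hlow : (L * D₁ + 1) ^ 2 ≤ (bl hG x (K₀ * D₁)).card := by
    refine (lat_lower hG s g x C hL (L * D₁)).trans (Finset.card_le_card ?_)
    intro v hv
    rw [mem_bl] at hv ⊢
    refine hv.trans ?_
    rw [hK₀, hE]
    nlinarith [Nat.zero_le ((C + 1) * (C + G.dist x (g x))), Nat.zero_le (L * D₁)]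
  have hseg : ∀ i : ℤ, |i| ≤ p → (G.dist (σ 0) (σ i) : ℤ) = |i| := by
    intro i hi
    have := hσ 0 i (by simp) hi
    rw [this, zero_sub, abs_neg]
  -- a point far from the segment
  have hfar : ∃ w, G.dist (σ 0) w ≤ K₀ * D₁ ∧ ∀ i : ℤ, |i| ≤ p → D₁ ≤ G.dist w (σ i) := by
    by_contra hcon
    push Not at hcon
    have hsub : bl hG (σ 0) (K₀ * D₁) ⊆
        (Finset.Icc (-((K₀ + 1 : ℕ) : ℤ)) ((K₀ + 1 : ℕ) : ℤ)).biUnion
          fun k => bl hG (σ (k * D₁)) (2 * D₁) := by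
      intro w hw
      rw [mem_bl] at hw
      obtain ⟨i, hi, hwi⟩ := hcon w hw
      have h1 : |i| ≤ ((K₀ + 1) * D₁ : ℕ) := by
        rw [← hseg i hi]
        have h2 := hG.tri (σ 0) w (σ i)
        have h3 : (K₀ + 1) * D₁ = K₀ * D₁ + D₁ := by ring
        have h4 : G.dist (σ 0) (σ i) ≤ (K₀ + 1) * D₁ := by omega
        exact_mod_cast h4
      have hD' : (0 : ℤ) < D₁ := by exact_mod_cast hD
      rw [Finset.mem_biUnion]
      refine ⟨i / D₁, ?_, ?_⟩
      · rw [Finset.mem_Icc]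
        rw [abs_le] at h1
        push_cast at h1 ⊢
        constructor
        · rw [Int.le_ediv_iff_mul_le hD']
          linarith [h1.1]
        · have h5 : i / (D₁ : ℤ) ≤ ((K₀ + 1) * D₁ : ℤ) / D₁ :=
            Int.ediv_le_ediv hD' h1.2
          rwa [Int.mul_ediv_cancel _ hD'.ne'] at h5
      · have h6 := Int.emod_nonneg i hD'.ne'
        have h7 := Int.emod_lt_of_pos i hD'
        have h8 := Int.mul_ediv_add_emod i D₁
        have h9 : i - i / D₁ * D₁ = i % D₁ := by linarith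
        have h10 : |i / D₁ * D₁| ≤ p := by
          have h11 : |i / (D₁ : ℤ)| ≤ (K₀ + 1 : ℤ) := by
            rw [abs_le] at h1 ⊢
            push_cast at h1
            constructor
            · rw [Int.le_ediv_iff_mul_le hD']
              linarith [h1.1]
            · have h5 : i / (D₁ : ℤ) ≤ ((K₀ + 1) * D₁ : ℤ) / D₁ :=
                Int.ediv_le_ediv hD' h1.2
              rwa [Int.mul_ediv_cancel _ hD'.ne'] at h5
          rw [abs_mul, abs_of_pos hD']
          have h12 : |i / (D₁ : ℤ)| * D₁ ≤ (K₀ + 1 : ℤ) * D₁ :=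
            mul_le_mul_of_nonneg_right h11 hD'.le
          have h13 : (K₀ + 1) * D₁ ≤ 3 * K₀ * D₁ := Nat.mul_le_mul_right _ (by omega)
          have h14 : ((K₀ + 1) * D₁ : ℤ) ≤ p := by exact_mod_cast h13.trans hp
          linarith
        have h15 := hσ (i / D₁ * D₁) i h10 hi
        have h16 : |i / (D₁ : ℤ) * D₁ - i| = i % D₁ := by
          rw [abs_sub_comm, h9, abs_of_nonneg h6]
        rw [h16] at h15
        have h17 : G.dist (σ (i / D₁ * D₁)) (σ i) < D₁ := by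
          have : ((G.dist (σ (i / D₁ * D₁)) (σ i) : ℕ) : ℤ) < (D₁ : ℤ) := by
            rw [h15]; exact h7
          exact_mod_cast this
        rw [mem_bl]
        have h18 := hG.tri (σ (i / D₁ * D₁)) (σ i) w
        rw [SimpleGraph.dist_comm (u := σ i) (v := w)] at h18
        omega
    have hcard := (Finset.card_le_card hsub).trans Finset.card_biUnion_le
    rw [Finset.sum_congr rfl fun k _ => card_bl hG (σ (k * D₁)) x (2 * D₁), Finset.sum_const,
      Int.card_Icc, smul_eq_mul, card_bl hG (σ 0) x] at hcard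
    have h19 : (((K₀ + 1 : ℕ) : ℤ) + 1 - -((K₀ + 1 : ℕ) : ℤ)).toNat = 2 * K₀ + 3 := by omega
    rw [h19] at hcard
    have h20 : (L * D₁ + 1) ^ 2 ≤ (2 * K₀ + 3) * (D₁ ^ 2 * B) :=
      hlow.trans (hcard.trans (Nat.mul_le_mul_left _ hup))
    have h21 : (2 * K₀ + 3) * B ≤ L * L := by
      have h22 : (2 * K₀ + 3) ≤ (2 * E + 3) * L := by
        rw [hK₀]; nlinarith
      calc (2 * K₀ + 3) * B ≤ (2 * E + 3) * L * B := Nat.mul_le_mul_right _ h22
        _ = L * L := by rw [hLdef]; ring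
    have h23 : (2 * K₀ + 3) * (D₁ ^ 2 * B) ≤ (L * D₁) ^ 2 := by
      calc (2 * K₀ + 3) * (D₁ ^ 2 * B) = (2 * K₀ + 3) * B * D₁ ^ 2 := by ring
        _ ≤ L * L * D₁ ^ 2 := Nat.mul_le_mul_right _ h21
        _ = (L * D₁) ^ 2 := by ring
    have h24 : (L * D₁) ^ 2 < (L * D₁ + 1) ^ 2 := Nat.pow_lt_pow_left (by omega) (by omega)
    omega
  -- take such a point as near as possible to `σ 0`
  obtain ⟨w, hw1, hw2⟩ := hfar
  have hex : ∃ n, ∃ z, G.dist (σ 0) z = n ∧ ∀ i : ℤ, |i| ≤ p → D₁ ≤ G.dist z (σ i) :=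
    ⟨_, w, rfl, hw2⟩
  obtain ⟨z, hz1, hz2⟩ := Nat.find_spec hex
  have hmin : ∀ y, (∀ i : ℤ, |i| ≤ p → D₁ ≤ G.dist y (σ i)) → G.dist (σ 0) z ≤ G.dist (σ 0) y := by
    intro y hy
    rw [hz1]
    exact Nat.find_min' hex ⟨y, rfl, hy⟩
  have hzK : G.dist (σ 0) z ≤ K₀ * D₁ := (hmin w hw2).trans hw1
  refine ⟨z, hzK, hz2, ?_⟩
  -- a neighbour nearer to `σ 0`
  have hpos : 0 < G.dist (σ 0) z := by
    have := hz2 0 (by simp)
    rw [SimpleGraph.dist_comm] at this
    omega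
  obtain ⟨z', hz'1, hz'2⟩ : ∃ z', G.Adj z' z ∧ G.dist (σ 0) z' < G.dist (σ 0) z := by
    obtain ⟨q, hq⟩ := hG.conn.exists_walk_length_eq_dist z (σ 0)
    cases q with
    | nil => simp at hpos
    | cons h q =>
      rename_i v
      refine ⟨v, h.symm, ?_⟩
      have h1 := SimpleGraph.dist_le q
      rw [SimpleGraph.Walk.length_cons] at hq
      rw [SimpleGraph.dist_comm, SimpleGraph.dist_comm (u := σ 0) (v := z)]
      omega
  have hnot : ¬ ∀ i : ℤ, |i| ≤ p → D₁ ≤ G.dist z' (σ i) := fun h => by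
    have := hmin z' h
    omega
  push Not at hnot
  obtain ⟨i, hi, hi2⟩ := hnot
  have h1 : G.dist z z' ≤ 1 := by
    rw [SimpleGraph.dist_comm]
    exact (SimpleGraph.dist_eq_one_iff_adj.2 hz'1).le
  have h2 := hG.tri z z' (σ i)
  have h3 := hz2 i hi
  have h4 : G.dist z (σ i) = D₁ := by omega
  refine ⟨i, ?_, h4⟩
  rw [← hseg i hi]
  have h5 := hG.tri (σ 0) z (σ i)
  have h6 : (K₀ + 1) * D₁ = K₀ * D₁ + D₁ := by ring
  have h7 : G.dist (σ 0) (σ i) ≤ (K₀ + 1) * D₁ := by omega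
  exact_mod_cast h7

end QPT

end Pool.H61.ST
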