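import Pool.Agent.H61.ST.Fms
import Pool.Agent.H61.ST.Qpt

set_option autoImplicit false

/-! Module QSUP, core: superblocks from a row family, two legs and a guide. -/

namespace Pool.H61.ST

open Finset Pool.Agent.H61.SW Pool.H98.C

variable {V : Type} {G : SimpleGraph V}

lemma q_dist_mem (x : V) (s : List V) (h : ch G x s) (z : V) (hz : z ∈ x :: s) :
    G.dist x z ≤ s.length := by
  rcases List.mem_cons.1 hz with rfl | hz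
  · simp
  · obtain ⟨l, r, rfl⟩ := List.append_of_mem hz
    have h1 : ch G x (l ++ [z]) := by
      have e : l ++ z :: r = (l ++ [z]) ++ r := by simp
      rw [e, ch_append] at h
      exact h.1
    have h2 := dist_en_le x (l ++ [z]) h1
    rw [en_append] at h2
    simp only [en_cons, en_nil, List.length_append, List.length_cons, List.length_nil] at h2 ⊢
    omega

lemma q_join {x y a₀ b₀ : V} {a b : List V} {R : Set V} {F : Finset (List V)} (t : ℝ)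
    (ha : sa G x a) (hae : en x a = a₀) (hb : sa G y b) (hbe : en y b = b₀)
    (hF : Fm G x y R F) (hdis : ∀ z ∈ x :: a, ∀ z' ∈ y :: b, z ≠ z')
    (haR : ∀ z ∈ a, z ∉ R) (hbR : ∀ z ∈ b, z ∉ R) :
    ∃ F', Fm G a₀ b₀ (({z | z ∈ x :: a} ∪ R) ∪ {z | z ∈ y :: b}) F' ∧
      fw t F' = t ^ a.length * fw t F * t ^ b.length := by
  have h1 : Fm G x a₀ {z | z ∈ x :: a} {a} := by
    intro s hs
    rw [Finset.mem_singleton] at hs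
    subst hs
    exact ⟨ha, hae, fun z hz => hz⟩
  obtain ⟨F₁, hF₁, hw₁⟩ := fm_rev t h1
  obtain ⟨F₂, hF₂, hw₂⟩ := fm_comb t hF₁ hF (by
    intro v hv hvR
    rcases List.mem_cons.1 hv with hv | hv
    · exact hv
    · exact absurd hvR (haR v hv))
  have h3 : Fm G y b₀ {z | z ∈ y :: b} {b} := by
    intro s hs
    rw [Finset.mem_singleton] at hs
    subst hs
    exact ⟨hb, hbe, fun z hz => hz⟩
  obtain ⟨F₃, hF₃, hw₃⟩ := fm_comb t hF₂ h3 (by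
    intro v hv hvb
    rcases hv with hv | hv
    · exact absurd rfl (hdis v hv v hvb)
    · rcases List.mem_cons.1 hvb with hvb | hvb
      · exact hvb
      · exact absurd hv (hbR v hvb))
  refine ⟨F₃, hF₃, ?_⟩
  rw [hw₃, hw₂, hw₁]
  simp only [fw, Finset.sum_singleton]

/-- one segment -/
lemma q_seg (hG : TG G) (t : ℝ) (ht : 0 < t) (ht1 : t ≤ 1) (p ρ : ℕ) (σ : ℤ → V)
    (h : G ≃g G) (x y : V) (R : Set V) (F : Finset (List V)) (hF : Fm G x y R F)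
    (hFne : F.Nonempty) (a b : List V) (τA τB : ℤ) (D L K0 : ℕ)
    (hA : |τA| ≤ L) (hB : |τB| ≤ L) (hal : a.length ≤ L) (hbl : b.length ≤ L)
    (ha : sa G x a) (hae : en x a = h (σ τA)) (hb : sa G y b) (hbe : en y b = h (σ τB))
    (hdis : ∀ z ∈ x :: a, ∀ z' ∈ y :: b, z ≠ z')
    (haR : ∀ z ∈ a, z ∉ R) (hbR : ∀ z ∈ b, z ∉ R)
    (haσ : ∀ z ∈ x :: a, ∀ i : ℤ, |i| ≤ p → z = h (σ i) → i = τA)
    (hbσ : ∀ z ∈ y :: b, ∀ i : ℤ, |i| ≤ p → z = h (σ i) → i = τB)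
    (hR : ∀ z ∈ R, G.dist x z < D) (hD : ∀ i : ℤ, |i| ≤ p → D ≤ G.dist x (h (σ i)))
    (h0 : G.dist (h (σ 0)) x ≤ K0) (hρ : K0 + D + L ≤ ρ)
    (hw : 2 ≤ fw t F * t ^ (2 * L + p)) :
    ∃ (τ₁ τ₂ : ℤ) (F : Finset (List V)), -(ρ : ℤ) ≤ τ₁ ∧ τ₁ ≤ τ₂ ∧ τ₂ ≤ ρ ∧
      (∀ s ∈ F, sa G (σ τ₁) s ∧ en (σ τ₁) s = σ τ₂ ∧ (∀ z ∈ s, G.dist (σ 0) z ≤ ρ) ∧
        ∀ i : ℤ, |i| ≤ p → (i < τ₁ ∨ τ₂ < i) → σ i ∉ s) ∧
      2 ≤ (∑ s ∈ F, t ^ s.length) * t ^ (p - (τ₂ - τ₁).toNat) := by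
  obtain ⟨F₁, hF₁, hw₁⟩ := q_join t ha hae hb hbe hF hdis haR hbR
  set A : Set V := (({z | z ∈ x :: a} ∪ R) ∪ {z | z ∈ y :: b}) with hAdef
  -- the weight
  have hfw0 : 0 ≤ fw t F := Finset.sum_nonneg fun _ _ => by positivity
  have hwt : 2 ≤ fw t F₁ * t ^ p := by
    refine hw.trans ?_
    rw [hw₁]
    have h1 : t ^ L ≤ t ^ a.length := pow_le_pow_of_le_one ht.le ht1 hal
    have h2 : t ^ L ≤ t ^ b.length := pow_le_pow_of_le_one ht.le ht1 hbl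
    calc fw t F * t ^ (2 * L + p) = (t ^ L * fw t F * t ^ L) * t ^ p := by ring
      _ ≤ (t ^ a.length * fw t F * t ^ b.length) * t ^ p := by gcongr
  -- the region
  have hyR : G.dist x y < D := by
    obtain ⟨s, hs⟩ := hFne
    obtain ⟨_, e, m⟩ := hF s hs
    refine hR y (m y ?_)
    rw [← e]; exact en_mem_cons x s
  have hreg : ∀ z ∈ A, G.dist (h (σ 0)) z ≤ ρ := by
    intro z hz
    have h1 := hG.tri (h (σ 0)) x z
    rcases hz with (hz | hz) | hz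
    · have h2 := q_dist_mem x a ha.1 z hz
      omega
    · have h2 := hR z hz
      omega
    · have h2 := q_dist_mem y b hb.1 z hz
      have h3 := hG.tri x y z
      omega
  have havoid : ∀ i : ℤ, |i| ≤ p → h (σ i) ∈ A → i = τA ∨ i = τB := by
    intro i hi hz
    rcases hz with (hz | hz) | hz
    · exact Or.inl (haσ _ hz i hi rfl)
    · have h2 := hR _ hz
      have h3 := hD i hi
      omega
    · exact Or.inr (hbσ _ hz i hi rfl)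
  -- finish
  have fin : ∀ (τ₁ τ₂ : ℤ) (F₂ : Finset (List V)), Fm G (h (σ τ₁)) (h (σ τ₂)) A F₂ →
      fw t F₂ = fw t F₁ → τ₁ ≤ τ₂ → (τ₁ = τA ∧ τ₂ = τB ∨ τ₁ = τB ∧ τ₂ = τA) →
      ∃ (τ₁ τ₂ : ℤ) (F : Finset (List V)), -(ρ : ℤ) ≤ τ₁ ∧ τ₁ ≤ τ₂ ∧ τ₂ ≤ ρ ∧
      (∀ s ∈ F, sa G (σ τ₁) s ∧ en (σ τ₁) s = σ τ₂ ∧ (∀ z ∈ s, G.dist (σ 0) z ≤ ρ) ∧
        ∀ i : ℤ, |i| ≤ p → (i < τ₁ ∨ τ₂ < i) → σ i ∉ s) ∧
      2 ≤ (∑ s ∈ F, t ^ s.length) * t ^ (p - (τ₂ - τ₁).toNat) := by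
    intro τ₁ τ₂ F₂ hF₂ hw₂ hle hcase
    obtain ⟨F₃, hF₃, hw₃⟩ := fm_map t hF₂ h.symm
    rw [h.symm_apply_apply, h.symm_apply_apply] at hF₃
    refine ⟨τ₁, τ₂, F₃, ?_, hle, ?_, ?_, ?_⟩
    · rw [abs_le] at hA hB
      rcases hcase with ⟨e, _⟩ | ⟨e, _⟩ <;> rw [e] <;> omega
    · rw [abs_le] at hA hB
      rcases hcase with ⟨_, e⟩ | ⟨_, e⟩ <;> rw [e] <;> omega
    · intro s hs
      obtain ⟨c1, c2, c3⟩ := hF₃ s hs
      refine ⟨c1, c2, fun z hz => ?_, fun i hi hlt hmem => ?_⟩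
      · obtain ⟨w, hw, rfl⟩ := c3 z (List.mem_cons_of_mem _ hz)
        have e : G.dist (σ 0) (h.symm w) = G.dist (h (σ 0)) w := by
          rw [← dist_iso hG.conn h (σ 0) (h.symm w), h.apply_symm_apply]
        rw [e]; exact hreg w hw
      · obtain ⟨w, hw, e⟩ := c3 _ (List.mem_cons_of_mem _ hmem)
        have e2 : h (σ i) = w := by rw [← e, h.apply_symm_apply]
        have h4 := havoid i hi (by rw [e2]; exact hw)
        rcases hcase with ⟨e3, e4⟩ | ⟨e3, e4⟩ <;> rcases h4 with h4 | h4 <;> omega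
    · have e : (∑ s ∈ F₃, t ^ s.length) = fw t F₁ := by
        change fw t F₃ = _
        rw [hw₃, hw₂]
      rw [e]
      refine hwt.trans ?_
      have h5 : 0 ≤ fw t F₁ := Finset.sum_nonneg fun _ _ => by positivity
      exact mul_le_mul_of_nonneg_left (pow_le_pow_of_le_one ht.le ht1 (Nat.sub_le _ _)) h5
  rcases le_total τA τB with hle | hle
  · exact fin τA τB F₁ hF₁ rfl hle (Or.inl ⟨rfl, rfl⟩)
  · obtain ⟨F₂, hF₂, hw₂⟩ := fm_rev t hF₁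
    exact fin τB τA F₂ hF₂ hw₂ hle (Or.inr ⟨rfl, rfl⟩)

/-- arithmetic: choice of `M` -/
lemma q_choose_M (t : ℝ) (ht : 0 < t) (E : ℕ) : ∃ M : ℕ, 1 ≤ M ∧ 2 ≤ (2 : ℝ) ^ (2 * M) * t ^ E := by
  obtain ⟨n, hn⟩ := pow_unbounded_of_one_lt (2 / t ^ E) (one_lt_two (α := ℝ))
  refine ⟨n + 1, by omega, ?_⟩
  have h1 : (0 : ℝ) < t ^ E := by positivity
  rw [div_lt_iff₀ h1] at hn
  have h2 : (2 : ℝ) ^ n ≤ 2 ^ (2 * (n + 1)) := pow_le_pow_right₀ one_le_two (by omega)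
  nlinarith

/-- arithmetic: choice of `N` -/
lemma q_choose_N (t : ℝ) (ht : 0 < t) (c N₀ : ℕ) : ∃ N : ℕ, N₀ ≤ N ∧ 1 ≤ N ∧ 2 ≤ (2 : ℝ) ^ N * t ^ c := by
  obtain ⟨n, hn⟩ := pow_unbounded_of_one_lt (2 / t ^ c) (one_lt_two (α := ℝ))
  refine ⟨n + N₀ + 1, by omega, by omega, ?_⟩
  have h1 : (0 : ℝ) < t ^ c := by positivity
  rw [div_lt_iff₀ h1] at hn
  have h2 : (2 : ℝ) ^ n ≤ 2 ^ (n + N₀ + 1) := pow_le_pow_right₀ one_le_two (by omega)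
  nlinarith

theorem quad_super_of (hG : TG G) (hs : HS G) (s g : G ≃g G) (x : V) (C : ℕ)
    (hL : LatQI G s g x C)
    (F : Finset (List V))
    (hF : Fm G x (g x) {z | z = g x ∨ (hs.u x ≤ hs.u z ∧ hs.u z < hs.u (g x))} F)
    (t : ℝ) (ht : 0 < t) (ht1 : t ≤ 1) (hw : 2 ≤ fw t F)
    (hrow : ∃ Ce J b₀ : ℕ, ∀ b ≥ b₀, ∀ M ≥ 1, ∃ c : ℕ, ∀ N ≥ 1, ∃ F' : Finset (List V),
      Fm G x ((s ^ ((2 * M - 1) * b : ℕ)) x)
        (RowReg G hs.u s g x Ce J b ((2 * M - 1) * b) N) F' ∧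
      (2 : ℝ) ^ (2 * M * N) * t ^ c ≤ fw t F')
    (hlegs : ∀ w₀ : List V,
      Fm G x (g x) {z | z = g x ∨ (hs.u x ≤ hs.u z ∧ hs.u z < hs.u (g x))} {w₀} →
      ∀ Ce J K₀ : ℕ,
    ∃ b₁ K₁ K₂ K₃ : ℕ, ∀ b ≥ b₁, ∀ iB : ℕ, b ≤ iB → ∃ N₀ : ℕ, ∀ N ≥ N₀,
      ∀ (p : ℕ) (σ : ℤ → V), IsSeg G p σ → K₃ * N ≤ p →
      (∀ i : ℤ, |i| ≤ p → K₁ * N ≤ G.dist x (σ i)) →
      (∃ i₀ : ℤ, |i₀| ≤ K₀ * (K₁ * N) ∧ G.dist x (σ i₀) = K₁ * N) →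
      ∃ (τA τB : ℤ) (a b' : List V), |τA| ≤ K₂ * N ∧ |τB| ≤ K₂ * N ∧
        a.length ≤ K₂ * N ∧ b'.length ≤ K₂ * N ∧
        sa G x a ∧ en x a = σ τA ∧ sa G ((s ^ iB) x) b' ∧ en ((s ^ iB) x) b' = σ τB ∧
        (∀ z ∈ x :: a, ∀ z' ∈ (s ^ iB) x :: b', z ≠ z') ∧
        (∀ z ∈ a, z ∉ RowReg G hs.u s g x Ce J b iB N) ∧
        (∀ z ∈ b', z ∉ RowReg G hs.u s g x Ce J b iB N) ∧
        (∀ z ∈ x :: a, ∀ i : ℤ, |i| ≤ p → z = σ i → i = τA) ∧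
        (∀ z ∈ (s ^ iB) x :: b', ∀ i : ℤ, |i| ≤ p → z = σ i → i = τB) ∧
        (∀ z ∈ RowReg G hs.u s g x Ce J b iB N, G.dist x z < K₁ * N)) :
    ∃ p ρ : ℕ, 2 * ρ < p ∧ Super G t p ρ := by
  -- a single walk of the family
  have hFne : F.Nonempty := by
    by_contra hne
    rw [Finset.not_nonempty_iff_eq_empty] at hne
    subst hne
    simp only [fw, Finset.sum_empty] at hw
    linarith
  obtain ⟨w₀, hw₀⟩ := hFne
  obtain ⟨Ce, J, b₀, hrow⟩ := hrow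
  obtain ⟨K₀, hpt⟩ := exists_point hG s g x C hL
  obtain ⟨b₁, K₁, K₂, K₃, hlegs⟩ := hlegs w₀ (fun w hw => by
    rw [Finset.mem_singleton] at hw
    subst hw
    exact hF _ hw₀) Ce J (K₀ + 1)
  set ρ' : ℕ := K₀ * K₁ + K₁ + K₂ with hρ'
  set P : ℕ := K₃ + 3 * K₀ * K₁ + 2 * ρ' + 1 with hP
  obtain ⟨M, hM, hqM⟩ := q_choose_M t ht (2 * K₂ + P)
  set b : ℕ := max b₀ b₁ with hb
  obtain ⟨c, hrow⟩ := hrow b (le_max_left _ _) M hM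
  have hiB : b ≤ (2 * M - 1) * b := Nat.le_mul_of_pos_left _ (by omega)
  obtain ⟨N₀, hlegs⟩ := hlegs b (le_max_right _ _) ((2 * M - 1) * b) hiB
  obtain ⟨N, hN0, hN1, hqN⟩ := q_choose_N t ht c N₀
  obtain ⟨F', hF', hw'⟩ := hrow N hN1
  have hlegs := hlegs N hN0
  have hρp : 2 * (ρ' * N) < P * N := by
    have : 2 * (ρ' * N) + 1 * N ≤ P * N := by
      rw [← mul_assoc, ← add_mul]
      exact Nat.mul_le_mul_right _ (by omega)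
    omega
  refine ⟨P * N, ρ' * N, hρp, ?_⟩
  intro σ hσ
  -- placement
  obtain ⟨h, hh0, hhD, i₀, hi₀, hhi⟩ : ∃ h : G ≃g G, G.dist (h (σ 0)) x ≤ K₀ * (K₁ * N) ∧
      (∀ i : ℤ, |i| ≤ (P * N : ℕ) → K₁ * N ≤ G.dist x (h (σ i))) ∧
      ∃ i₀ : ℤ, |i₀| ≤ (K₀ + 1 : ℕ) * (K₁ * N) ∧ G.dist x (h (σ i₀)) = K₁ * N := by
    rcases Nat.eq_zero_or_pos (K₁ * N) with h0 | h0
    · obtain ⟨h, hh⟩ := hG.tr (σ 0) x
      refine ⟨h, by rw [hh]; simp, fun i _ => by rw [h0]; exact Nat.zero_le _, 0, ?_, ?_⟩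
      · rw [abs_zero]; positivity
      · rw [hh, h0]; simp
    · obtain ⟨z, hz0, hz1, i₀, hi₀, hz2⟩ := hpt (K₁ * N) h0 (P * N) σ hσ (by
        rw [← mul_assoc]
        exact Nat.mul_le_mul_right _ (by omega))
      obtain ⟨h, hh⟩ := hG.tr z x
      have e : ∀ i, G.dist x (h (σ i)) = G.dist z (σ i) := by
        intro i
        rw [← hh, dist_iso hG.conn]
      refine ⟨h, ?_, fun i hi => by rw [e]; exact hz1 i hi, i₀, ?_, by rw [e]; exact hz2⟩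
      · rw [← hh, dist_iso hG.conn]; exact hz0
      · push_cast at hi₀ ⊢
        exact hi₀
  have hσ' : IsSeg G (P * N) (fun i => h (σ i)) := by
    intro i j hi hj
    beta_reduce
    rw [dist_iso hG.conn]
    exact hσ i j hi hj
  obtain ⟨τA, τB, a, b', hA, hB, hal, hbl, ha, hae, hb', hbe, hdis, haR, hbR, haσ, hbσ, hR⟩ :=
    hlegs (P * N) (fun i => h (σ i)) hσ' (Nat.mul_le_mul_right _ (by omega)) hhD ⟨i₀, hi₀, hhi⟩
  have hF'ne : F'.Nonempty := by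
    by_contra hne
    rw [Finset.not_nonempty_iff_eq_empty] at hne
    subst hne
    simp only [fw, Finset.sum_empty] at hw'
    have : (0 : ℝ) < 2 ^ (2 * M * N) * t ^ c := by positivity
    linarith
  refine q_seg hG t ht ht1 (P * N) (ρ' * N) σ h x _ _ F' hF' hF'ne a b' τA τB (K₁ * N) (K₂ * N)
    (K₀ * (K₁ * N)) (by push_cast; exact hA) (by push_cast; exact hB) hal hbl ha hae hb' hbe hdis
    haR hbR haσ hbσ hR hhD hh0 ?_ ?_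
  · rw [hρ']
    apply le_of_eq
    ring
  · calc (2 : ℝ) ≤ (2 : ℝ) ^ N * t ^ c := hqN
      _ ≤ ((2 : ℝ) ^ (2 * M) * t ^ (2 * K₂ + P)) ^ N * t ^ c := by gcongr
      _ = (2 : ℝ) ^ (2 * M * N) * t ^ c * t ^ (2 * (K₂ * N) + P * N) := by
        rw [mul_pow, ← pow_mul, ← pow_mul]; ring
      _ ≤ fw t F' * t ^ (2 * (K₂ * N) + P * N) := by gcongr

end Pool.H61.ST
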