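import Pool.Agent.H61.ST.Defs

set_option autoImplicit false

/-! Statements of the modules of wave 1 (sorried here; proofs go to their own files). -/

namespace Pool.H61.ST.Spec

open Finset Pool.Agent.H61.SW Pool.H98.C Pool.H61.ST Filter

/-! ### Module UNIM (Unim.lean): unimodularity, subexponential growth -/

section UNIM
variable {V : Type} {G : SimpleGraph V} (hG : TG G)

theorem unimod_of_PG (o : V) (D : ℕ) (hpg : PG hG o D) :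
    ∀ x y, (Pool.H98.C.orb G x y).ncard = (Pool.H98.C.orb G y x).ncard := by
  sorry

theorem subexp (o : V) (D : ℕ) (hpg : PG hG o D) (q : ℝ) (hq : 1 < q) :
    ∃ C : ℝ, 0 < C ∧ ∀ n : ℕ, ((bl hG o n).card : ℝ) ≤ C * q ^ n := by
  sorry

end UNIM

/-! ### Module LOW (Low.lean): low frequency functions -/

section LOW
variable {V : Type} {G : SimpleGraph V} (hG : TG G)

theorem exists_low (hinf : Infinite V) (o : V) (D : ℕ) (hpg : PG hG o D) (η : ℝ) (hη : 0 < η) :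
    ∃ (f : V → ℝ) (S : Finset V), (∀ x, x ∉ S → f x = 0 ∧ gr hG f x = 0 ∧ lap hG f x = 0) ∧
      ∑ x ∈ S, gr hG f x = 1 ∧ ∑ x ∈ S, (lap hG f x) ^ 2 ≤ η := by
  sorry

end LOW

/-! ### Module HARM (Harm.lean): nonconstant Lipschitz harmonic function -/

section HARM
variable {V : Type} {G : SimpleGraph V} (hG : TG G)

theorem exists_harmonic (o : V) (hh : ∀ R, Nonempty (Homog G o R))
    (hlow : ∀ η : ℝ, 0 < η → ∃ (f : V → ℝ) (S : Finset V),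
      (∀ x, x ∉ S → f x = 0 ∧ gr hG f x = 0 ∧ lap hG f x = 0) ∧
      ∑ x ∈ S, gr hG f x = 1 ∧ ∑ x ∈ S, (lap hG f x) ^ 2 ≤ η) :
    ∃ u ∈ LH hG o, u ≠ 0 := by
  sorry

end HARM

/-! ### Module POIN (Poin.lean): Poincare inequality -/

section POIN
variable {V : Type} {G : SimpleGraph V} (hG : TG G)

theorem poincare (o : V) (R : ℕ) (H : Homog G o (2 * R)) (z : V) (u : V → ℝ) :
    ∑ x ∈ bl hG z R, ∑ y ∈ bl hG z R, (u x - u y) ^ 2 ≤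
      (2 * R : ℝ) ^ 2 * (bl hG o (2 * R)).card * ∑ a ∈ bl hG z (3 * R), gr hG u a := by
  sorry

end POIN

/-! ### Module CACC (Cacc.lean): Caccioppoli inequality -/

section CACC
variable {V : Type} {G : SimpleGraph V} (hG : TG G)

theorem caccioppoli (u : V → ℝ) (hu : ∀ x, lap hG u x = 0) (z : V) (R : ℕ) (hR : 1 ≤ R) :
    ∑ a ∈ bl hG z R, gr hG u a ≤
      (8 * dg hG z : ℝ) / (R : ℝ) ^ 2 * ∑ a ∈ bl hG z (3 * R), (u a) ^ 2 := by
  sorry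

end CACC

/-! ### Module LINALG (Linalg.lean): two quadratic forms -/

section LINALG
open Matrix

theorem half_space {m : ℕ} (M₁ M₂ : Matrix (Fin m) (Fin m) ℝ) (h1 : M₁.PosSemidef)
    (h2 : M₂.PosDef) (hle : ∀ x : Fin m → ℝ, x ⬝ᵥ (M₁ *ᵥ x) ≤ x ⬝ᵥ (M₂ *ᵥ x)) (c : ℝ)
    (hc0 : 0 < c) (hc1 : c ≤ 1) (hdet : c ^ m * M₂.det ≤ M₁.det) :
    ∃ U : Submodule ℝ (Fin m → ℝ), m ≤ 2 * Module.finrank ℝ U ∧
      ∀ x ∈ U, c ^ 2 * (x ⬝ᵥ (M₂ *ᵥ x)) ≤ x ⬝ᵥ (M₁ *ᵥ x) := by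
  sorry

theorem det_le_det {m : ℕ} (M₁ M₂ : Matrix (Fin m) (Fin m) ℝ) (h1 : M₁.PosSemidef)
    (h2 : M₂.PosDef) (hle : ∀ x : Fin m → ℝ, x ⬝ᵥ (M₁ *ᵥ x) ≤ x ⬝ᵥ (M₂ *ᵥ x)) :
    M₁.det ≤ M₂.det := by
  sorry

end LINALG

/-! ### Module SCALE (Scale.lean): choice of scales -/

section SCALE

theorem exists_scale (v φ : ℕ → ℝ) (hv : Monotone v) (hφ : Monotone φ) (a b : ℝ) (ha : 0 < a)
    (hK : ∀ N : ℕ, ∃ K ≥ N, v K ≤ a * K + b ∧ φ K ≤ a * K + b) (w k₀ : ℕ) :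
    ∃ k ≥ k₀, w + 1 ≤ k ∧ φ (k + 1) - φ k ≤ 5 * a ∧
      v (k - w + 1) - v (k - w - 1) ≤ 10 * a ∧
      v (k + 1) - v (k - w - 1) ≤ 5 * (w + 2) * a := by
  sorry

end SCALE

/-! ### Module FDIM (Fdim.lean): the space of Lipschitz harmonic functions is finite dimensional -/

section FDIM
variable {V : Type} {G : SimpleGraph V} (hG : TG G)

theorem finite_LH (o : V) (D : ℕ) (hpg : PG hG o D) (hh : ∀ R, Nonempty (Homog G o R)) :
    Module.Finite ℝ (LH hG o) := by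
  sorry

end FDIM

/-! ### Module JORD (Jord.lean): near-identity isometries generating a group of polynomial growth
commute -/

section JORD

theorem jordan_comm {A : Type} [NormedRing A] {Γ : Type} [Group Γ] (ρ : Γ →* A)
    (hρ : ∀ g, ‖ρ g‖ ≤ 1) (D : ℕ) (ε : ℝ) (hε : 0 < ε) (hε' : ε ≤ 1 / (17 * 2 ^ (D + 2)))
    (T : Finset Γ) (hT : ∀ t ∈ T, ‖ρ t - 1‖ ≤ ε) (C : ℝ)
    (hgrow : ∀ N : ℕ, ∃ R ≥ N, ∀ F : Finset A,
      (∀ a ∈ F, ∃ l : List Γ, l.length ≤ R ∧ (∀ g ∈ l, g ∈ T ∨ g⁻¹ ∈ T) ∧ ρ l.prod = a) →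
      (F.card : ℝ) ≤ C * (R : ℝ) ^ D) :
    ∀ s ∈ T, ∀ t ∈ T, ρ (s * t) = ρ (t * s) := by
  sorry

end JORD

/-! ### Module ABEL (Abel.lean): the action on Lipschitz harmonic functions is virtually abelian -/

section ABEL
variable {V : Type} {G : SimpleGraph V} (hG : TG G)

/-- action on functions vanishing at `o` -/
def act (o : V) (g : G ≃g G) (u : V → ℝ) : V → ℝ := fun x => u (g.symm x) - u (g.symm o)

theorem virt_abel (o : V) (D : ℕ) (hpg : PG hG o D) (hfd : Module.Finite ℝ (LH hG o)) :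
    ∃ Γ₀ : Subgroup (G ≃g G), Γ₀.FiniteIndex ∧ ∀ g ∈ Γ₀, ∀ h ∈ Γ₀, ∀ u ∈ LH hG o,
      act o (g * h) u = act o (h * g) u := by
  sorry

end ABEL

/-! ### Module HOM (Hom.lean): homomorphism to the integers -/

section HOM
variable {V : Type} {G : SimpleGraph V} (hG : TG G)

theorem exists_hom (hinf : Infinite V) (o : V) (hfd : Module.Finite ℝ (LH hG o))
    (hne : ∃ u ∈ LH hG o, u ≠ 0) (Γ₀ : Subgroup (G ≃g G)) (hfi : Γ₀.FiniteIndex)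
    (hab : ∀ g ∈ Γ₀, ∀ h ∈ Γ₀, ∀ u ∈ LH hG o, act o (g * h) u = act o (h * g) u) :
    ∃ (Γ₁ : Subgroup (G ≃g G)) (χ : (G ≃g G) → ℤ), Γ₁.FiniteIndex ∧
      (∀ g ∈ Γ₁, ∀ h ∈ Γ₁, χ (g * h) = χ g + χ h) ∧ (∃ g ∈ Γ₁, χ g ≠ 0) ∧
      ∀ g ∈ Γ₁, ∀ x, g x = x → χ g = 0 := by
  sorry

end HOM

/-! ### Module POIS (Pois.lean): harmonic representative -/

section POIS
variable {V : Type} {G : SimpleGraph V} (hG : TG G)

theorem exists_harm_rep (o : V)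
    (huni : ∀ x y, (Pool.H98.C.orb G x y).ncard = (Pool.H98.C.orb G y x).ncard)
    (Γ₁ : Subgroup (G ≃g G)) (hn : Γ₁.Normal) (hfi : Γ₁.FiniteIndex) (χ : (G ≃g G) → ℤ)
    (hmul : ∀ g ∈ Γ₁, ∀ h ∈ Γ₁, χ (g * h) = χ g + χ h)
    (hst : ∀ g ∈ Γ₁, ∀ x, g x = x → χ g = 0) :
    ∃ u : V → ℝ, (∀ g ∈ Γ₁, ∀ x, u (g x) = u x + χ g) ∧ ∀ x, lap hG u x = 0 := by
  sorry

/-- invariant harmonic functions are constant -/
theorem const_of_inv (Γ₁ : Subgroup (G ≃g G)) (hfi : Γ₁.FiniteIndex) (u : V → ℝ)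
    (hu : ∀ g ∈ Γ₁, ∀ x, u (g x) = u x) (hh : ∀ x, lap hG u x = 0) : ∀ x y, u x = u y := by
  sorry

end POIS

/-! ### Module STR (Str.lean): strict height structures -/

section STR
variable {V : Type} {G : SimpleGraph V} (hG : TG G)

theorem exists_HS (o : V)
    (huni : ∀ x y, (Pool.H98.C.orb G x y).ncard = (Pool.H98.C.orb G y x).ncard)
    (Γ₁ : Subgroup (G ≃g G)) (hfi : Γ₁.FiniteIndex) (χ : (G ≃g G) → ℤ)
    (hmul : ∀ g ∈ Γ₁, ∀ h ∈ Γ₁, χ (g * h) = χ g + χ h) (hne : ∃ g ∈ Γ₁, χ g ≠ 0)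
    (hst : ∀ g ∈ Γ₁, ∀ x, g x = x → χ g = 0) : Nonempty (HS G) := by
  sorry

end STR

/-! ### Module HWD (Hwd.lean): Hammersley-Welsh decomposition -/

section HWD
variable {V : Type} {G : SimpleGraph V} (hG : TG G)

/-- monotone pieces: start and end are the extreme heights -/
def Pc (G : SimpleGraph V) (u : V → ℝ) (v : V) (c : List V) : Prop :=
  sa G v c ∧ ((∀ z ∈ v :: c, u v ≤ u z ∧ u z ≤ u (en v c)) ∨
    (∀ z ∈ v :: c, u z ≤ u v ∧ u (en v c) ≤ u z))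

theorem hw_dec (hs : HS G) : ∃ A₀ : ℕ, ∀ (v : V) (s : List V), sa G v s → ∀ H : ℕ, 1 ≤ H →
    ∃ n, CP (Pc G hs.u) n v s ∧ n * H ≤ s.length + 2 * H * (A₀ * H + 1) := by
  sorry

end HWD

/-! ### Module HEAVY (Heavy.lean): heavy families of monotone pieces -/

section HEAVY
variable {V : Type} {G : SimpleGraph V} (hG : TG G)

theorem exists_heavy (hs : HS G) (o : V) (t q : ℝ) (ht : 0 < t) (hq : 1 < q)
    (hc : ∀ᶠ n : ℕ in atTop, q ^ n ≤ (cnt (sa G) o n : ℝ) * t ^ n) (A : ℝ) :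
    ∃ (m : ℕ) (v : V), A < (cnt (Pc G hs.u) v m : ℝ) * t ^ m := by
  sorry

end HEAVY

/-! ### Module TUBE (Tube.lean): families of walks between `x` and `g x` -/

section TUBE
variable {V : Type} {G : SimpleGraph V} (hG : TG G)

/-- all walks of `F` go from `x` to `g x`, with heights in `[u x, u (g x))` except at the end -/
def TubeAt (G : SimpleGraph V) (u : V → ℝ) (g : G ≃g G) (x : V) (F : Finset (List V)) : Prop :=
  ∀ s ∈ F, sa G x s ∧ en x s = g x ∧ ∀ z ∈ x :: s, z ≠ g x → u x ≤ u z ∧ u z < u (g x)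

theorem exists_tube (hs : HS G) (o : V) (D : ℕ) (hpg : PG hG o D) (t q : ℝ) (ht : 0 < t)
    (ht1 : t ≤ 1) (hq : 1 < q)
    (hc : ∀ᶠ n : ℕ in atTop, q ^ n ≤ (cnt (sa G) o n : ℝ) * t ^ n) (Λ : ℝ) :
    ∃ (hs' : HS G) (g : G ≃g G) (x : V) (F : Finset (List V)), g ∈ hs'.Γ ∧ 0 < hs'.χ g ∧
      TubeAt G hs'.u g x F ∧ Λ ≤ ∑ s ∈ F, t ^ s.length := by
  sorry

end TUBE

end Pool.H61.ST.Spec
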