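import Pool.Agent.H61.ST.Defs2

set_option autoImplicit false

/-! Statements of the modules of wave 2 (sorried here; proofs go to their own files). -/

namespace Pool.H61.ST.Spec2

open Finset Pool.Agent.H61.SW Pool.H98.C Pool.H61.ST Filter

/-! ### Module KAP (Kap.lean): thin graphs or quadratic growth -/

section KAP
variable {V : Type} {G : SimpleGraph V} (hG : TG G)

theorem exists_line (hinf : Infinite V) (o : V) : ∃ γ : ℤ → V, IsLine G γ ∧ γ 0 = o := by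
  sorry

theorem thin_or_quad (hinf : Infinite V) (o : V) :
    (∃ (f : V → ℤ) (C : ℕ), QLn G f C) ∨ ∀ R : ℕ, (R : ℝ) ^ 2 / 2 ≤ (bl hG o R).card := by
  sorry

end KAP

/-! ### Module COARSE (Coarse.lean): coarse isometries have a sign -/

section COARSE

theorem coarse_sign {S : Type} (a b : S → ℤ) (K : ℕ)
    (h : ∀ y z, |(|a y - a z|) - (|b y - b z|)| ≤ (K : ℤ)) :
    (∀ y z, |a y - a z - (b y - b z)| ≤ 9 * (K : ℤ)) ∨
      (∀ y z, |a y - a z + (b y - b z)| ≤ 9 * (K : ℤ)) := by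
  sorry

end COARSE

/-! ### Module KERN (Kern.lean): the kernel orbit is coarsely connected -/

section KERN
variable {V : Type} {G : SimpleGraph V} (hG : TG G)

theorem kern_chain (hs : HS G) (o : V) (D : ℕ) (hpg : PG hG o D) (x : V) :
    ∃ C : ℕ, ∀ y ∈ orbK hs x, Relation.ReflTransGen
      (fun a b : V => a ∈ orbK hs x ∧ b ∈ orbK hs x ∧ G.dist a b ≤ C) x y := by
  sorry

end KERN

/-! ### Module LING (Ling.lean): growth of the kernel orbit -/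

section LING
variable {V : Type} {G : SimpleGraph V} (hG : TG G)

theorem orb_linear (hs : HS G) (o x : V)
    (hquad : ∃ F : ℝ, ∀ N : ℕ, ∃ r ≥ N, ((bl hG o r).card : ℝ) ≤ F * (r : ℝ) ^ 2) :
    ∃ A : ℝ, ∀ N : ℕ, ∃ r ≥ N, ((Set.ncard {y | y ∈ orbK hs x ∧ G.dist x y ≤ r} : ℕ) : ℝ) ≤
      A * r := by
  sorry

theorem orb_infinite (hs : HS G) (o x : V)
    (hlow : ∀ R : ℕ, (R : ℝ) ^ 2 / 2 ≤ (bl hG o R).card) : (orbK hs x).Infinite := by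
  sorry

end LING

/-! ### Module SLAB (Slab.lean): the kernel orbit is a quasi-line -/

section SLAB
variable {V : Type} {G : SimpleGraph V} (hG : TG G)

theorem slab_ql (hs : HS G) (o : V) (D : ℕ) (hpg : PG hG o D) (x : V)
    (hquad : ∃ F : ℝ, ∀ N : ℕ, ∃ r ≥ N, ((bl hG o r).card : ℝ) ≤ F * (r : ℝ) ^ 2)
    (hinf : (orbK hs x).Infinite) :
    ∃ (C : ℕ) (f : ↥(orbK hs x) → ℤ) (C' : ℕ), TG (slab hs x C) ∧ QLn (slab hs x C) f C' := by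
  sorry

end SLAB

/-! ### Module QI (Qi.lean): lattice coordinates in the quadratic case -/

section QI
variable {V : Type} {G : SimpleGraph V} (hG : TG G)

theorem exists_lat (hs : HS G) (x : V) (hinf : (orbK hs x).Infinite)
    (hlin : ∃ A : ℝ, ∀ N : ℕ, ∃ r ≥ N,
      ((Set.ncard {y | y ∈ orbK hs x ∧ G.dist x y ≤ r} : ℕ) : ℝ) ≤ A * r)
    (hsl : ∃ (C : ℕ) (f : ↥(orbK hs x) → ℤ) (C' : ℕ), TG (slab hs x C) ∧ QLn (slab hs x C) f C')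
    (g : G ≃g G) (hg : g ∈ hs.Γ) (hχ : 0 < hs.χ g) :
    ∃ (s : G ≃g G) (C : ℕ), s ∈ hs.Γ ∧ hs.χ s = 0 ∧ LatQI G s g x C := by
  sorry

end QI

/-! ### Module FMS (Fms.lean): combining families of walks -/

section FMS
variable {V : Type} {G : SimpleGraph V}

theorem fm_comb {x y z : V} {A B : Set V} {F₁ F₂ : Finset (List V)} (t : ℝ)
    (h1 : Fm G x y A F₁) (h2 : Fm G y z B F₂) (hAB : ∀ v, v ∈ A → v ∈ B → v = y) :
    ∃ F, Fm G x z (A ∪ B) F ∧ fw t F = fw t F₁ * fw t F₂ := by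
  sorry

theorem fm_rev {x y : V} {A : Set V} {F : Finset (List V)} (t : ℝ) (h : Fm G x y A F) :
    ∃ F', Fm G y x A F' ∧ fw t F' = fw t F := by
  sorry

theorem fm_map {x y : V} {A : Set V} {F : Finset (List V)} (t : ℝ) (h : Fm G x y A F)
    (g : G ≃g G) : ∃ F', Fm G (g x) (g y) (g '' A) F' ∧ fw t F' = fw t F := by
  sorry

theorem fm_pow {x : V} {A : Set V} {F : Finset (List V)} (t : ℝ) (h : G ≃g G)
    (hF : Fm G x (h x) A F)
    (hA : ∀ k : ℕ, 1 ≤ k → ∀ z ∈ A, ∀ w ∈ A, z = (h ^ k) w → k = 1 ∧ z = h x) (N : ℕ) :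
    ∃ F', Fm G x ((h ^ N) x) {z | z = x ∨ ∃ k < N, ∃ w ∈ A, z = (h ^ k) w} F' ∧
      fw t F' = (fw t F) ^ N := by
  sorry

end FMS

/-! ### Module SUPTR (Suptr.lean): transfer through isomorphic balls -/

section SUPTR
variable {V W : Type} {G : SimpleGraph V} {G' : SimpleGraph W}

theorem super_transfer (hG : TG G) (hG' : TG G') (o : V) (o' : W) (t : ℝ) (p ρ : ℕ)
    (hρ : 2 * ρ < p) (n : ℕ) (hn : 4 * p ≤ n)
    (φ : G.induce {v | G.dist o v ≤ n} ≃g G'.induce {v | G'.dist o' v ≤ n})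
    (hφ : ∀ x : {v | G.dist o v ≤ n}, (x : V) = o → ((φ x : {v | G'.dist o' v ≤ n}) : W) = o')
    (hS : Super G t p ρ) : Super G' t p ρ := by
  sorry

end SUPTR

/-! ### Module CHAIN2 (Chain2.lean): superblocks along a geodesic line -/

section CHAIN2
variable {V : Type} {G : SimpleGraph V} (hG : TG G)

theorem chain2 (hinf : Infinite V) (o : V) (t : ℝ) (ht : 0 < t) (ht1 : t ≤ 1) (p ρ : ℕ)
    (hρ : 2 * ρ < p) (hS : Super G t p ρ) :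
    ¬ Summable (fun k : ℕ => (cnt (sa G) o k : ℝ) * t ^ k) := by
  sorry

end CHAIN2

/-! ### Module THINS (Thins.lean): superblocks in thin graphs -/

section THINS
variable {V : Type} {G : SimpleGraph V} (hG : TG G)

theorem thin_super (hinf : Infinite V) (hs : HS G) (f : V → ℤ) (C : ℕ) (hf : QLn G f C)
    (g : G ≃g G) (hg : g ∈ hs.Γ) (hχ : 0 < hs.χ g) (x : V) (F : Finset (List V))
    (hF : Fm G x (g x) {z | z = g x ∨ (hs.u x ≤ hs.u z ∧ hs.u z < hs.u (g x))} F)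
    (t : ℝ) (ht : 0 < t) (ht1 : t ≤ 1) (hw : 2 ≤ fw t F) :
    ∃ p ρ : ℕ, 2 * ρ < p ∧ Super G t p ρ := by
  sorry

end THINS

/-! ### Module QPT (Qpt.lean): a point at given distance from a geodesic segment -/

section QPT
variable {V : Type} {G : SimpleGraph V} (hG : TG G)

theorem exists_point (s g : G ≃g G) (x : V) (C : ℕ) (hL : LatQI G s g x C) :
    ∃ K₀ : ℕ, ∀ D₁ : ℕ, 1 ≤ D₁ → ∀ (p : ℕ) (σ : ℤ → V), IsSeg G p σ → 3 * K₀ * D₁ ≤ p →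
      ∃ z, G.dist (σ 0) z ≤ K₀ * D₁ ∧ (∀ i : ℤ, |i| ≤ p → D₁ ≤ G.dist z (σ i)) ∧
        ∃ i : ℤ, |i| ≤ (K₀ + 1) * D₁ ∧ G.dist z (σ i) = D₁ := by
  sorry

end QPT

/-! ### Module ROW (Row.lean): a row of parallel tubes joined by connectors -/

section ROW
variable {V : Type} {G : SimpleGraph V} (hG : TG G)

theorem exists_row (hs : HS G) (s g : G ≃g G) (x : V) (C : ℕ) (hL : LatQI G s g x C)
    (hsΓ : s ∈ hs.Γ) (hχs : hs.χ s = 0) (hg : g ∈ hs.Γ) (hχ : 0 < hs.χ g)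
    (F : Finset (List V))
    (hF : Fm G x (g x) {z | z = g x ∨ (hs.u x ≤ hs.u z ∧ hs.u z < hs.u (g x))} F)
    (t : ℝ) (ht : 0 < t) (ht1 : t ≤ 1) (hw : 2 ≤ fw t F) :
    ∃ Ce J b₀ : ℕ, ∀ b ≥ b₀, ∀ M ≥ 1, ∃ c : ℕ, ∀ N ≥ 1, ∃ F' : Finset (List V),
      Fm G x ((s ^ ((2 * M - 1) * b : ℕ)) x)
        (RowReg G hs.u s g x Ce J b ((2 * M - 1) * b) N) F' ∧
      (2 : ℝ) ^ (2 * M * N) * t ^ c ≤ fw t F' := by
  sorry

end ROW

/-! ### Module LEG (Leg.lean): two disjoint legs from the row to the guide -/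

section LEG
variable {V : Type} {G : SimpleGraph V} (hG : TG G)

theorem exists_legs (hs : HS G) (s g : G ≃g G) (x : V) (C : ℕ) (hL : LatQI G s g x C)
    (hsΓ : s ∈ hs.Γ) (hχs : hs.χ s = 0) (hg : g ∈ hs.Γ) (hχ : 0 < hs.χ g)
    (w₀ : List V) (hw0 : Fm G x (g x) {z | z = g x ∨ (hs.u x ≤ hs.u z ∧ hs.u z < hs.u (g x))}
      {w₀})
    (Ce J K₀ : ℕ) :
    ∃ b₁ K₁ K₂ K₃ : ℕ, ∀ b ≥ b₁, ∀ iB : ℕ, b ≤ iB → ∃ N₀ : ℕ, ∀ N ≥ N₀,
      ∀ (p : ℕ) (σ : ℤ → V), IsSeg G p σ → K₃ * N ≤ p →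
      (∀ i : ℤ, |i| ≤ p → K₁ * N ≤ G.dist x (σ i)) →
      (∃ i₀ : ℤ, |i₀| ≤ K₀ * (K₁ * N) ∧ G.dist x (σ i₀) = K₁ * N) →
      ∃ (τA τB : ℤ) (a b' : List V), |τA| ≤ K₂ * N ∧ |τB| ≤ K₂ * N ∧
        a.length ≤ K₂ * N ∧ b'.length ≤ K₂ * N ∧
        sa G x a ∧ en x a = σ τA ∧ sa G ((s ^ iB) x) b' ∧ en ((s ^ iB) x) b' = σ τB ∧
        (∀ z ∈ x :: a, ∀ z' ∈ (s ^ iB) x :: b', z ≠ z') ∧
        (∀ z ∈ a, z ∉ RowReg G hs.u s g x Ce J b iB N) ∧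
        (∀ z ∈ b', z ∉ RowReg G hs.u s g x Ce J b iB N) ∧
        (∀ z ∈ x :: a, ∀ i : ℤ, |i| ≤ p → z = σ i → i = τA) ∧
        (∀ z ∈ (s ^ iB) x :: b', ∀ i : ℤ, |i| ≤ p → z = σ i → i = τB) ∧
        (∀ z ∈ RowReg G hs.u s g x Ce J b iB N, G.dist x z < K₁ * N) := by
  sorry

end LEG

/-! ### Module QSUP (Qsup.lean): superblocks in the quadratic case (uses QPT, ROW, LEG, FMS) -/

section QSUP
variable {V : Type} {G : SimpleGraph V} (hG : TG G)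

theorem quad_super (hs : HS G) (s g : G ≃g G) (x : V) (C : ℕ) (hL : LatQI G s g x C)
    (hsΓ : s ∈ hs.Γ) (hχs : hs.χ s = 0) (hg : g ∈ hs.Γ) (hχ : 0 < hs.χ g)
    (F : Finset (List V))
    (hF : Fm G x (g x) {z | z = g x ∨ (hs.u x ≤ hs.u z ∧ hs.u z < hs.u (g x))} F)
    (t : ℝ) (ht : 0 < t) (ht1 : t ≤ 1) (hw : 2 ≤ fw t F) :
    ∃ p ρ : ℕ, 2 * ρ < p ∧ Super G t p ρ := by
  sorry

end QSUP

end Pool.H61.ST.Spec2
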