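import Pool.Agent.H61.ST.Hwd
import Pool.Agent.H61.ST.Fms
import Pool.Agent.H61.ST.Coarse

set_option autoImplicit false

/-! Superblocks in thin graphs. -/

namespace Pool.H61.ST

open Finset Pool.Agent.H61.SW Pool.H98.C

section THINS
variable {V : Type} {G : SimpleGraph V}

/-! ### Powers and heights -/

lemma HS.chi_one (hs : HS G) : hs.χ 1 = 0 := by
  have := hs.mul 1 hs.Γ.one_mem 1 hs.Γ.one_mem
  rw [mul_one] at this; omega

lemma HS.chi_zpow (hs : HS G) {g : G ≃g G} (hg : g ∈ hs.Γ) (n : ℤ) :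
    hs.χ (g ^ n) = n * hs.χ g := by
  let ψ : hs.Γ →* Multiplicative ℤ :=
    { toFun := fun a => Multiplicative.ofAdd (hs.χ a)
      map_one' := by simp [HS.chi_one]
      map_mul' := fun a b => by simp [hs.mul a a.2 b b.2] }
  have h1 := congrArg Multiplicative.toAdd (map_zpow ψ ⟨g, hg⟩ n)
  simpa [ψ] using h1

lemma HS.u_zpow (hs : HS G) {g : G ≃g G} (hg : g ∈ hs.Γ) (n : ℤ) (y : V) :
    hs.u ((g ^ n) y) = hs.u y + n * hs.χ g := by
  rw [hs.equi _ (hs.Γ.zpow_mem hg n), hs.chi_zpow hg]; push_cast; ring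

lemma HS.u_pow (hs : HS G) {g : G ≃g G} (hg : g ∈ hs.Γ) (n : ℕ) (y : V) :
    hs.u ((g ^ n) y) = hs.u y + n * hs.χ g := by
  have := hs.u_zpow hg (n : ℤ) y
  rw [zpow_natCast] at this
  rw [this]; push_cast; rfl

/-- heights are Lipschitz with respect to the distance -/
lemma exists_lip_dist (hG : TG G) (hs : HS G) :
    ∃ L : ℕ, ∀ y z, |hs.u y - hs.u z| ≤ L * (G.dist y z : ℝ) := by
  obtain ⟨L, hL⟩ := exists_lip hG hs
  refine ⟨L, fun y z => ?_⟩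
  have h := lip_ch hL y (geo hG y z) (ch_geo hG y z)
  rw [en_geo, length_geo, abs_sub_comm] at h
  exact h

/-- region of a step -/
def rg (hs : HS G) (x y : V) : Set V := {z | z = y ∨ (hs.u x ≤ hs.u z ∧ hs.u z < hs.u y)}

lemma rg_pow (hG : TG G) (hs : HS G) {g : G ≃g G} (hg : g ∈ hs.Γ) (hχ : 0 < hs.χ g) (x : V)
    (F : Finset (List V)) (l : ℕ) (hF : Fm G x (g x) (rg hs x (g x) ∩ {z | G.dist x z ≤ l}) F)
    (t : ℝ) (N : ℕ) (hN : 1 ≤ N) :
    ∃ F', Fm G x ((g ^ N) x)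
      (rg hs x ((g ^ N) x) ∩ {z | ∃ k ≤ N, G.dist ((g ^ k) x) z ≤ l}) F' ∧
      fw t F' = fw t F ^ N := by
  have hχ' : (0 : ℝ) < hs.χ g := by exact_mod_cast hχ
  have hg1 : hs.u (g x) = hs.u x + hs.χ g := hs.equi g hg x
  have hlow : ∀ w ∈ rg hs x (g x), hs.u x ≤ hs.u w ∧ hs.u w ≤ hs.u x + hs.χ g := by
    rintro w (rfl | ⟨h1, h2⟩)
    · rw [hg1]; constructor <;> linarith
    · rw [hg1] at h2; exact ⟨h1, h2.le⟩
  obtain ⟨F', h1, h2⟩ := fm_pow t g hF (by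
    rintro k hk z ⟨hz, -⟩ w ⟨hw, -⟩ hzw
    have e1 := hs.u_pow hg k w
    rw [← hzw] at e1
    have e2 := (hlow w hw).1
    have e3 := (hlow z hz).2
    have e4 : (k : ℝ) * hs.χ g ≤ 1 * hs.χ g := by linarith
    have e5 : (k : ℝ) ≤ 1 := le_of_mul_le_mul_right e4 hχ'
    have e6 : k = 1 := by
      have : k ≤ 1 := by exact_mod_cast e5
      omega
    refine ⟨e6, ?_⟩
    rcases hz with hz | ⟨hz1, hz2⟩
    · exact hz
    · exfalso
      rw [hg1] at hz2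
      subst e6
      push_cast at e1
      linarith) N
  refine ⟨F', h1.mono ?_, h2⟩
  have hN' : (1 : ℝ) ≤ N := by exact_mod_cast hN
  rintro z (rfl | ⟨k, hk, w, ⟨hw1, hw2⟩, rfl⟩)
  · refine ⟨Or.inr ⟨le_rfl, ?_⟩, 0, Nat.zero_le _, ?_⟩
    · rw [hs.u_pow hg]; nlinarith
    · show G.dist z z ≤ l
      rw [SimpleGraph.dist_self]; exact Nat.zero_le _
  · have hk' : (k : ℝ) + 1 ≤ N := by exact_mod_cast hk
    refine ⟨?_, k, by omega, ?_⟩
    · by_cases hz : (g ^ k) w = (g ^ N) x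
      · exact Or.inl hz
      · right
        rw [hs.u_pow hg, hs.u_pow hg]
        have e1 := (hlow w hw1).1
        refine ⟨by have : (0 : ℝ) ≤ k * hs.χ g := by positivity
                   linarith, ?_⟩
        rcases hw1 with rfl | ⟨h3, h4⟩
        · rw [hg1]
          have : k + 1 ≠ N := by
            rintro rfl
            apply hz
            rw [pow_succ]; rfl
          have h5 : k + 2 ≤ N := by omega
          have h6 : (k : ℝ) + 2 ≤ N := by exact_mod_cast h5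
          nlinarith
        · rw [hg1] at h4
          nlinarith
    · show G.dist ((g ^ k) x) ((g ^ k) w) ≤ l
      rw [dist_iso hG.conn]; exact hw2

/-! ### Cutting a walk at its first meeting with a segment -/

lemma exists_split (y v : V) (L : List V) (h : v ∈ y :: L) :
    ∃ s s' : List V, L = s ++ s' ∧ en y s = v := by
  rcases List.mem_cons.1 h with rfl | h
  · exact ⟨[], L, rfl, rfl⟩
  · obtain ⟨s1, s2, rfl⟩ := List.append_of_mem h
    exact ⟨s1 ++ [v], s2, by simp, by rw [en_append]; rfl⟩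

lemma exists_cut (p : ℕ) (σ : ℤ → V) (y : V) (L : List V) (hL : ch G y L) (i0 : ℤ)
    (hi0 : |i0| ≤ p) (hend : en y L = σ i0) :
    ∃ (τ : ℤ) (s : List V), τ ≤ i0 ∧ |τ| ≤ p ∧ sa G y s ∧ en y s = σ τ ∧
      s.length ≤ L.length ∧ (∀ v ∈ s, v ∈ L) ∧ ∀ i : ℤ, |i| ≤ p → i < τ → σ i ∉ y :: s := by
  classical
  obtain ⟨L', h1, h2, h3, h4⟩ := loop_erase y L hL
  let S : Finset ℤ := (Finset.Icc (-(p : ℤ)) p).filter fun i => σ i ∈ y :: L'
  have hS : i0 ∈ S := by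
    rw [abs_le] at hi0
    refine Finset.mem_filter.2 ⟨Finset.mem_Icc.2 hi0, ?_⟩
    rw [← hend, ← h2]; exact en_mem_cons y L'
  obtain ⟨h5, h6⟩ := Finset.mem_filter.1 (S.min'_mem ⟨i0, hS⟩)
  set τ := S.min' ⟨i0, hS⟩ with hτ
  obtain ⟨s, s', h7, h8⟩ := exists_split y (σ τ) L' h6
  refine ⟨τ, s, S.min'_le _ hS, abs_le.2 (Finset.mem_Icc.1 h5), ?_, h8, ?_, ?_, ?_⟩
  · rw [h7] at h1; exact sa_append_left h1
  · rw [h7, List.length_append] at h3; omega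
  · intro v hv
    exact h4 v (by rw [h7]; exact List.mem_append_left _ hv)
  · intro i hi hlt hmem
    have : i ∈ S := by
      refine Finset.mem_filter.2 ⟨Finset.mem_Icc.2 (abs_le.1 hi), ?_⟩
      rw [h7]
      rcases List.mem_cons.1 hmem with h | h
      · rw [h]; simp
      · exact List.mem_cons_of_mem _ (List.mem_append_left _ h)
    exact absurd (S.min'_le _ this) (not_le.2 hlt)

/-! ### The conclusion at one segment -/

/-- body of `Super` -/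
def SupAt (G : SimpleGraph V) (t : ℝ) (p ρ : ℕ) (σ : ℤ → V) : Prop :=
  ∃ (τ₁ τ₂ : ℤ) (F : Finset (List V)), -(ρ : ℤ) ≤ τ₁ ∧ τ₁ ≤ τ₂ ∧ τ₂ ≤ ρ ∧
      (∀ s ∈ F, sa G (σ τ₁) s ∧ en (σ τ₁) s = σ τ₂ ∧ (∀ z ∈ s, G.dist (σ 0) z ≤ ρ) ∧
        ∀ i : ℤ, |i| ≤ p → (i < τ₁ ∨ τ₂ < i) → σ i ∉ s) ∧
      2 ≤ (∑ s ∈ F, t ^ s.length) * t ^ (p - (τ₂ - τ₁).toNat)

lemma SupAt_map (hG : TG G) (t : ℝ) (p ρ : ℕ) (σ : ℤ → V) (φ : G ≃g G)
    (h : SupAt G t p ρ (fun i => φ (σ i))) : SupAt G t p ρ σ := by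
  classical
  obtain ⟨τ₁, τ₂, F, h1, h2, h3, h4, h5⟩ := h
  have hinv : ∀ z, φ.symm (φ z) = z := φ.symm_apply_apply
  refine ⟨τ₁, τ₂, F.image (List.map φ.symm), h1, h2, h3, ?_, ?_⟩
  · intro s' hs'
    obtain ⟨s, hs, rfl⟩ := Finset.mem_image.1 hs'
    obtain ⟨a1, a2, a3, a4⟩ := h4 s hs
    refine ⟨?_, ?_, ?_, ?_⟩
    · have := (sa_map φ.symm (φ (σ τ₁)) s).2 a1
      rwa [hinv] at this
    · have := en_map φ.symm (φ (σ τ₁)) s
      rw [hinv, a2, hinv] at this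
      exact this
    · intro z hz
      obtain ⟨w, hw, rfl⟩ := List.mem_map.1 hz
      have := a3 w hw
      rw [← dist_iso hG.conn φ.symm, hinv] at this
      exact this
    · intro i hi hi' hmem
      obtain ⟨w, hw, hw'⟩ := List.mem_map.1 hmem
      apply a4 i hi hi'
      have : w = φ (σ i) := by rw [← hw']; exact (φ.apply_symm_apply w).symm
      show φ (σ i) ∈ s
      rwa [← this]
  · rw [Finset.sum_image]
    · simpa using h5
    · intro s _ s' _ heq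
      exact List.map_injective_iff.2 φ.symm.injective heq

lemma SupAt_rev (t : ℝ) (p ρ : ℕ) (hρ : ρ ≤ p) (σ : ℤ → V) (hσ : IsSeg G p σ)
    (h : SupAt G t p ρ (fun i => σ (-i))) : SupAt G t p ρ σ := by
  classical
  obtain ⟨τ₁, τ₂, F, h1, h2, h3, h4, h5⟩ := h
  have hρ' : (ρ : ℤ) ≤ p := by exact_mod_cast hρ
  have hτ₁ : |-τ₁| ≤ (p : ℤ) := abs_le.2 ⟨by linarith, by linarith⟩
  refine ⟨-τ₂, -τ₁, F.image (rv (σ (-τ₁))), by linarith, by linarith, by linarith, ?_, ?_⟩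
  · intro s' hs'
    obtain ⟨s, hs, rfl⟩ := Finset.mem_image.1 hs'
    obtain ⟨a1, a2, a3, a4⟩ := h4 s hs
    have hmem : ∀ z ∈ rv (σ (-τ₁)) s, z = σ (-τ₁) ∨ z ∈ s := by
      intro z hz
      have : z ∈ en (σ (-τ₁)) s :: rv (σ (-τ₁)) s := List.mem_cons_of_mem _ hz
      rw [mem_rv] at this
      exact List.mem_cons.1 this
    refine ⟨?_, ?_, ?_, ?_⟩
    · have := sa_rv (σ (-τ₁)) s a1
      rwa [a2] at this
    · have := en_rv (σ (-τ₁)) s
      rwa [a2] at this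
    · intro z hz
      rcases hmem z hz with rfl | hz
      · have := hσ 0 (-τ₁) (by simp) hτ₁
        have h6 : |0 - -τ₁| ≤ (ρ : ℤ) := abs_le.2 ⟨by linarith, by linarith⟩
        rw [← this] at h6
        exact_mod_cast h6
      · have := a3 z hz
        simpa using this
    · intro i hi hi' hz
      rcases hmem _ hz with hz | hz
      · have := hσ i (-τ₁) hi hτ₁
        rw [hz, SimpleGraph.dist_self] at this
        have h6 : i - -τ₁ = 0 := by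
          rw [← abs_eq_zero, ← this]; rfl
        rcases hi' with hi' | hi' <;> omega
      · have := a4 (-i) (by rwa [abs_neg]) (by
          rcases hi' with hi' | hi'
          · right; linarith
          · left; linarith)
        simp only [neg_neg] at this
        exact this hz
  · rw [Finset.sum_image]
    · have e1 : -τ₁ - -τ₂ = τ₂ - τ₁ := by ring
      rw [e1]
      have e2 : ∀ s ∈ F, t ^ (rv (σ (-τ₁)) s).length = t ^ s.length := fun s _ => by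
        rw [length_rv]
      rw [Finset.sum_congr rfl e2]
      exact h5
    · intro s hs s' hs' heq
      have e1 := rv_rv (σ (-τ₁)) s
      have e2 := rv_rv (σ (-τ₁)) s'
      rw [(h4 s hs).2.1] at e1
      rw [(h4 s' hs').2.1] at e2
      rw [← e1, ← e2]
      exact congrArg _ heq

/-! ### Legs -/

lemma exists_step_walk (hG : TG G) (hs : HS G) {h : G ≃g G} (hh : h ∈ hs.Γ) (hχ : 0 < hs.χ h)
    (x : V) (F : Finset (List V)) (l : ℕ)
    (hF : Fm G x (h x) (rg hs x (h x) ∩ {z | G.dist x z ≤ l}) F)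
    (t : ℝ) (hw : 2 ≤ fw t F) (J : ℕ) (hJ : 1 ≤ J) :
    ∃ w : List V, sa G x w ∧ en x w = (h ^ (J : ℤ)) x ∧ ∀ z ∈ x :: w, hs.u x ≤ hs.u z ∧
      (z = (h ^ (J : ℤ)) x ∨ hs.u z < hs.u x + J * hs.χ h) := by
  obtain ⟨F', h1, h2⟩ := rg_pow hG hs hh hχ x F l hF t J hJ
  have hne : F'.Nonempty := by
    rw [Finset.nonempty_iff_ne_empty]
    rintro rfl
    have : (0 : ℝ) < fw t F ^ J := by positivity
    rw [← h2] at this
    simp [fw] at this
  obtain ⟨w, hw'⟩ := hne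
  obtain ⟨a1, a2, a3⟩ := h1 w hw'
  have e : (h ^ (J : ℤ)) x = (h ^ J) x := by rw [zpow_natCast]
  have hχ' : (0 : ℝ) < hs.χ h := by exact_mod_cast hχ
  refine ⟨w, a1, by rw [a2, e], fun z hz => ?_⟩
  rcases (a3 z hz).1 with hz | ⟨hz1, hz2⟩
  · rw [e]
    refine ⟨?_, Or.inl hz⟩
    rw [hz, hs.u_pow hh]
    have : (0 : ℝ) ≤ J * hs.χ h := by positivity
    linarith
  · rw [hs.u_pow hh] at hz2
    exact ⟨hz1, Or.inr hz2⟩

lemma left_leg (hG : TG G) (hs : HS G) (L : ℕ)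
    (hL : ∀ y z, |hs.u y - hs.u z| ≤ L * (G.dist y z : ℝ)) {h : G ≃g G} (hh : h ∈ hs.Γ)
    (x : V) (J : ℕ) (w : List V) (hw1 : sa G x w) (hw2 : en x w = (h ^ (J : ℤ)) x)
    (hw3 : ∀ z ∈ x :: w, hs.u x ≤ hs.u z ∧
      (z = (h ^ (J : ℤ)) x ∨ hs.u z < hs.u x + J * hs.χ h))
    (C2 : ℕ) (hJ : (L : ℝ) * C2 < J * hs.χ h) (q : V) (hq : G.dist ((h ^ (-(J : ℤ))) x) q ≤ C2) :
    ∃ l : List V, ch G x l ∧ en x l = q ∧ l.length ≤ w.length + C2 ∧
      ∀ v ∈ x :: l, v = x ∨ hs.u v < hs.u x := by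
  set φ : G ≃g G := h ^ (-(J : ℤ)) with hφ
  have e1 : φ ((h ^ (J : ℤ)) x) = x := by
    rw [hφ, ← RelIso.mul_apply, ← zpow_add]; simp
  have e2 : en (φ x) (w.map φ) = x := by rw [en_map, hw2, e1]
  have e3 : ch G (φ x) (w.map φ) := (ch_map φ x w).2 hw1.1
  have e4 := ch_rv _ _ e3
  rw [e2] at e4
  have e5 := en_rv (φ x) (w.map φ)
  rw [e2] at e5
  have hup : ∀ y, hs.u (φ y) = hs.u y - J * hs.χ h := fun y => by
    rw [hφ, hs.u_zpow hh]; push_cast; ring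
  refine ⟨rv (φ x) (w.map φ) ++ geo hG (φ x) q, ?_, ?_, ?_, ?_⟩
  · rw [ch_append, e5]
    exact ⟨e4, ch_geo hG _ _⟩
  · rw [en_append, e5, en_geo]
  · rw [List.length_append, length_rv, List.length_map, length_geo]; omega
  · intro v hv
    rw [← List.cons_append, List.mem_append] at hv
    rcases hv with hv | hv
    · have h1 : v ∈ φ x :: w.map φ := by
        have := @mem_rv V (φ x) v (w.map φ)
        rw [e2] at this
        exact this.1 hv
      rw [← List.map_cons] at h1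
      obtain ⟨z, hz, rfl⟩ := List.mem_map.1 h1
      obtain ⟨h2, h3 | h3⟩ := hw3 z hz
      · left; rw [h3, e1]
      · right; rw [hup]; linarith
    · right
      have h1 : G.dist (φ x) v ≤ C2 := (mem_geo_dist hG hv).trans hq
      have h2 := hL v (φ x)
      rw [SimpleGraph.dist_comm] at h2
      have h3 : (L : ℝ) * (G.dist (φ x) v : ℝ) ≤ L * C2 := by
        apply mul_le_mul_of_nonneg_left _ (Nat.cast_nonneg _)
        exact_mod_cast h1
      rw [hup x, abs_le] at h2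
      linarith [h2.2]

lemma right_leg (hG : TG G) (hs : HS G) (L : ℕ)
    (hL : ∀ y z, |hs.u y - hs.u z| ≤ L * (G.dist y z : ℝ)) {h : G ≃g G} (hh : h ∈ hs.Γ)
    (x : V) (J : ℕ) (w : List V) (hw1 : sa G x w) (hw2 : en x w = (h ^ (J : ℤ)) x)
    (hw3 : ∀ z ∈ x :: w, hs.u x ≤ hs.u z ∧
      (z = (h ^ (J : ℤ)) x ∨ hs.u z < hs.u x + J * hs.χ h))
    (C2 : ℕ) (hJ : (L : ℝ) * C2 < J * hs.χ h) (k : ℤ) (q : V)
    (hq : G.dist ((h ^ (k + J : ℤ)) x) q ≤ C2) :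
    ∃ l : List V, ch G ((h ^ k) x) l ∧ en ((h ^ k) x) l = q ∧ l.length ≤ w.length + C2 ∧
      ∀ v ∈ (h ^ k) x :: l, hs.u ((h ^ k) x) ≤ hs.u v := by
  set φ : G ≃g G := h ^ k with hφ
  have e1 : φ ((h ^ (J : ℤ)) x) = (h ^ (k + J : ℤ)) x := by
    rw [hφ, ← RelIso.mul_apply, ← zpow_add]
  have e2 : en (φ x) (w.map φ) = (h ^ (k + J : ℤ)) x := by rw [en_map, hw2, e1]
  have e3 : ch G (φ x) (w.map φ) := (ch_map φ x w).2 hw1.1
  have hup : ∀ y, hs.u (φ y) = hs.u y + k * hs.χ h := fun y => by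
    rw [hφ, hs.u_zpow hh]
  refine ⟨w.map φ ++ geo hG ((h ^ (k + J : ℤ)) x) q, ?_, ?_, ?_, ?_⟩
  · rw [ch_append, e2]
    exact ⟨e3, ch_geo hG _ _⟩
  · rw [en_append, e2, en_geo]
  · rw [List.length_append, List.length_map, length_geo]; omega
  · intro v hv
    rw [← List.cons_append, List.mem_append] at hv
    rcases hv with hv | hv
    · rw [← List.map_cons] at hv
      obtain ⟨z, hz, rfl⟩ := List.mem_map.1 hv
      have := (hw3 z hz).1
      rw [hup, hup]; linarith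
    · have h1 : G.dist ((h ^ (k + J : ℤ)) x) v ≤ C2 := (mem_geo_dist hG hv).trans hq
      have h2 := hL v ((h ^ (k + J : ℤ)) x)
      rw [SimpleGraph.dist_comm] at h2
      have h3 : (L : ℝ) * (G.dist ((h ^ (k + J : ℤ)) x) v : ℝ) ≤ L * C2 := by
        apply mul_le_mul_of_nonneg_left _ (Nat.cast_nonneg _)
        exact_mod_cast h1
      rw [hs.u_zpow hh, abs_le] at h2
      push_cast at h2
      rw [hup x]
      nlinarith [h2.1]

/-! ### The main construction -/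

lemma thin_core (hG : TG G) (hs : HS G) (f : V → ℤ) (C : ℕ) (hf : QLn G f C) {h : G ≃g G}
    (hh : h ∈ hs.Γ) (hχ : 0 < hs.χ h) (K : ℕ)
    (hK : ∀ j : ℤ, ∀ y z, |f ((h ^ j) y) - f ((h ^ j) z) - (f y - f z)| ≤ (K : ℤ))
    (x : V) (hT : (K : ℤ) + 1 ≤ f (h x) - f x) (F : Finset (List V)) (l0 : ℕ)
    (hF : Fm G x (h x) (rg hs x (h x) ∩ {z | G.dist x z ≤ l0}) F)
    (t : ℝ) (ht : 0 < t) (ht1 : t ≤ 1) (hw : 2 ≤ fw t F) :
    ∃ (p ρ : ℕ) (n : ℤ), 2 * ρ < p ∧ ∀ σ : ℤ → V, IsSeg G p σ → σ 0 = (h ^ n) x →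
      (∀ i j : ℤ, |i| ≤ p → |j| ≤ p → |f (σ i) - f (σ j) - (i - j)| ≤ 9 * (C : ℤ)) →
      SupAt G t p ρ σ := by
  classical
  obtain ⟨L, hL⟩ := exists_lip_dist hG hs
  have hχ1 : (1 : ℝ) ≤ hs.χ h := by exact_mod_cast hχ
  have hχ' : (0 : ℝ) < hs.χ h := by linarith
  have hf1 : ∀ y z, |f y - f z| ≤ (G.dist y z : ℤ) + C := fun y z => by
    have := hf y z
    rw [abs_le] at this; linarith [this.2]
  have hf2 : ∀ y z, (G.dist y z : ℤ) ≤ |f y - f z| + C := fun y z => by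
    have := hf y z
    rw [abs_le] at this; linarith [this.1]
  obtain ⟨J, hJ1, hJ2, hJ3⟩ : ∃ J : ℕ, 1 ≤ J ∧ (L : ℝ) * (10 * C : ℕ) < J * hs.χ h ∧
      10 * C + l0 ≤ J := by
    refine ⟨L * (10 * C) + 10 * C + l0 + 1, by omega, ?_, by omega⟩
    have h1 : (L : ℝ) * (10 * C : ℕ) < (L * (10 * C) + 10 * C + l0 + 1 : ℕ) := by
      push_cast
      have : (0 : ℝ) ≤ 10 * C + l0 := by positivity
      linarith
    refine h1.trans_le ?_
    exact le_mul_of_one_le_right (Nat.cast_nonneg _) hχ1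
  obtain ⟨w, hw1, hw2, hw3⟩ := exists_step_walk hG hs hh hχ x F l0 hF t hw J hJ1
  set a : ℤ → ℤ := fun j => f ((h ^ j) x) with ha
  have hstep : ∀ j : ℤ, a j + 1 ≤ a (j + 1) := by
    intro j
    have h1 := hK j (h x) x
    have h2 : (h ^ j) (h x) = (h ^ (j + 1)) x := by rw [zpow_add_one]; rfl
    rw [h2, abs_le] at h1
    simp only [ha]
    linarith [h1.1]
  have hmono : ∀ i j : ℤ, i ≤ j → j - i ≤ a j - a i := by
    intro i j hij
    induction j, hij using Int.leInduction with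
    | base => simp
    | succ j _ ih => have := hstep j; linarith
  have hdJ : ∀ k : ℤ, G.dist ((h ^ k) x) ((h ^ (k + J)) x) ≤ w.length := by
    intro k
    have h1 : (h ^ (k + J)) x = (h ^ k) ((h ^ (J : ℤ)) x) := by
      rw [zpow_add]; rfl
    rw [h1, dist_iso hG.conn, ← hw2]
    exact dist_mem_ch hw1.1 (en_mem_cons x w)
  have haJ : ∀ k : ℤ, |a k - a (k + J)| ≤ (w.length : ℤ) + C := by
    intro k
    have h1 := hf1 ((h ^ k) x) ((h ^ (k + J)) x)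
    have h2 : (G.dist ((h ^ k) x) ((h ^ (k + J)) x) : ℤ) ≤ w.length := by exact_mod_cast hdJ k
    linarith
  obtain ⟨D, hD⟩ : ∃ D : ℕ, D = w.length + 10 * C := ⟨_, rfl⟩
  obtain ⟨c3, hc3⟩ : ∃ c3 : ℕ, c3 = D + 11 * C + K + l0 := ⟨_, rfl⟩
  obtain ⟨E, hE⟩ : ∃ E : ℕ, E = 2 * c3 + 1 + 2 * (D + 10 * C) + K := ⟨_, rfl⟩
  obtain ⟨n, hn1, hn2, hn3⟩ : ∃ n : ℕ, 1 ≤ n ∧ D + C ≤ n ∧
      (2 : ℝ) ≤ 2 ^ (2 * n) * t ^ (2 * D + E) := by
    obtain ⟨n0, hn0⟩ := pow_unbounded_of_one_lt (2 / t ^ (2 * D + E)) (one_lt_two : (1 : ℝ) < 2)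
    refine ⟨n0 + D + C + 1, by omega, by omega, ?_⟩
    have h1 : (2 : ℝ) ^ n0 ≤ 2 ^ (2 * (n0 + D + C + 1)) :=
      pow_le_pow_right₀ (by norm_num) (by omega)
    have h2 : (0 : ℝ) < t ^ (2 * D + E) := by positivity
    rw [div_lt_iff₀ h2] at hn0
    nlinarith
  set R : ℤ := a n - a 0 with hR
  set R' : ℤ := a (2 * n) - a n with hR'
  have hRn : (n : ℤ) ≤ R := by have := hmono 0 n (by omega); linarith
  have hRn' : (n : ℤ) ≤ R' := by have := hmono n (2 * n) (by omega); linarith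
  have hRR : |R' - R| ≤ K := by
    have h1 := hK n ((h ^ (n : ℤ)) x) x
    have h2 : (h ^ (n : ℤ)) ((h ^ (n : ℤ)) x) = (h ^ (2 * n : ℤ)) x := by
      rw [two_mul, zpow_add]; rfl
    rw [h2] at h1
    have h3 : a 0 = f x := by simp [ha]
    rw [hR, hR', h3]
    exact h1
  rw [abs_le] at hRR
  obtain ⟨ρ, hρ⟩ : ∃ ρ : ℕ, (ρ : ℤ) = R + c3 := ⟨R.toNat + c3, by push_cast; omega⟩
  refine ⟨2 * ρ + 1, ρ, n, by omega, fun σ hσ hσ0 hσf => ?_⟩
  have ha0 : a 0 = f x := by simp [ha]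
  have hσ0' : f (σ 0) = a n := by rw [hσ0]
  push_cast at hσf
  have hσf0 : ∀ i : ℤ, |i| ≤ 2 * (ρ : ℤ) + 1 → |f (σ i) - a n - i| ≤ 9 * (C : ℤ) := by
    intro i hi
    have := hσf i 0 hi (by simp; positivity)
    rwa [hσ0', sub_zero] at this
  -- left leg
  have haJl := haJ (-J)
  rw [show -(J : ℤ) + J = 0 by ring, abs_le] at haJl
  have haJr := haJ (2 * n)
  rw [abs_le] at haJr
  have hil : |a (-J) - a n| ≤ 2 * (ρ : ℤ) + 1 := by
    rw [abs_le]; omega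
  have hir : |a (2 * n + J) - a n| ≤ 2 * (ρ : ℤ) + 1 := by
    rw [abs_le]; omega
  have hql : G.dist ((h ^ (-(J : ℤ))) x) (σ (a (-J) - a n)) ≤ 10 * C := by
    have h1 := hσf0 _ hil
    have h2 := hf2 ((h ^ (-(J : ℤ))) x) (σ (a (-J) - a n))
    have h3 : f ((h ^ (-(J : ℤ))) x) = a (-J) := rfl
    rw [h3] at h2
    have h4 : |a (-J) - f (σ (a (-J) - a n))| ≤ 9 * (C : ℤ) := by
      rw [abs_le] at h1 ⊢; omega
    omega
  have hqr : G.dist ((h ^ (2 * n + J : ℤ)) x) (σ (a (2 * n + J) - a n)) ≤ 10 * C := by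
    have h1 := hσf0 _ hir
    have h2 := hf2 ((h ^ (2 * n + J : ℤ)) x) (σ (a (2 * n + J) - a n))
    have h3 : f ((h ^ (2 * n + J : ℤ)) x) = a (2 * n + J) := rfl
    rw [h3] at h2
    have h4 : |a (2 * n + J) - f (σ (a (2 * n + J) - a n))| ≤ 9 * (C : ℤ) := by
      rw [abs_le] at h1 ⊢; omega
    omega
  obtain ⟨l1, b1, b2, b3, b4⟩ := left_leg hG hs L hL hh x J w hw1 hw2 hw3 (10 * C) hJ2 _ hql
  obtain ⟨l2, d1, d2, d3, d4⟩ :=
    right_leg hG hs L hL hh x J w hw1 hw2 hw3 (10 * C) hJ2 (2 * n) _ hqr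
  obtain ⟨τ₁, s1, p1, p2, p3, p4, p5, p6, p7⟩ :=
    exists_cut (2 * ρ + 1) σ x l1 b1 (a (-J) - a n) (by push_cast; exact hil) b2
  obtain ⟨τ', s2, q1, q2, q3, q4, q5, q6, q7⟩ :=
    exists_cut (2 * ρ + 1) (fun i => σ (-i)) ((h ^ (2 * n : ℤ)) x) l2 d1
      (-(a (2 * n + J) - a n)) (by push_cast; rw [abs_neg]; exact hir) (by simpa using d2)
  obtain ⟨τ₂, rfl⟩ : ∃ τ₂, τ' = -τ₂ := ⟨-τ', by ring⟩
  simp only [neg_neg] at q4
  rw [abs_neg] at q2
  push_cast at p2 q2 p7 q7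
  have hs1 : ∀ v ∈ x :: s1, G.dist x v ≤ D := fun v hv =>
    (dist_mem_ch p3.1 hv).trans (by omega)
  have hs2 : ∀ v ∈ (h ^ (2 * n : ℤ)) x :: s2, G.dist ((h ^ (2 * n : ℤ)) x) v ≤ D := fun v hv =>
    (dist_mem_ch q3.1 hv).trans (by omega)
  have hs1f : ∀ v ∈ x :: s1, |f x - f v| ≤ (D : ℤ) + C := fun v hv => by
    have h1 := hf1 x v
    have h2 := hs1 v hv
    omega
  have hs2f : ∀ v ∈ (h ^ (2 * n : ℤ)) x :: s2, |a (2 * n) - f v| ≤ (D : ℤ) + C := fun v hv => by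
    have h1 := hf1 ((h ^ (2 * n : ℤ)) x) v
    have h2 := hs2 v hv
    have h3 : f ((h ^ (2 * n : ℤ)) x) = a (2 * n) := rfl
    rw [h3] at h1
    omega
  have hτ₁ : |τ₁ + R| ≤ (D : ℤ) + 10 * C := by
    have h1 := hσf0 τ₁ p2
    have h2 := hs1f (σ τ₁) (by rw [← p4]; exact en_mem_cons x s1)
    rw [← ha0] at h2
    rw [abs_le] at h1 h2 ⊢
    omega
  have hτ₂ : |τ₂ - R'| ≤ (D : ℤ) + 10 * C := by
    have h1 := hσf0 τ₂ q2
    have h2 := hs2f (σ τ₂) (by rw [← q4]; exact en_mem_cons _ s2)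
    rw [abs_le] at h1 h2 ⊢
    omega
  rw [abs_le] at hτ₁ hτ₂
  -- the three families
  have hPn : (h ^ (2 * n : ℤ)) x = (h ^ (2 * n)) x := by
    rw [← zpow_natCast]; push_cast; rfl
  have huN : hs.u ((h ^ (2 * n : ℤ)) x) = hs.u x + 2 * n * hs.χ h := by
    rw [hs.u_zpow hh]; push_cast; ring
  have huN' : hs.u x < hs.u ((h ^ (2 * n : ℤ)) x) := by
    rw [huN]
    have : (1 : ℝ) ≤ n := by exact_mod_cast hn1
    nlinarith
  obtain ⟨F2, f1, f2⟩ := rg_pow hG hs hh hχ x F l0 hF t (2 * n) (by omega)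
  rw [← hPn] at f1
  have fm1 : Fm G x (σ τ₁) {v | v ∈ x :: s1} {s1} := by
    intro s hs
    rw [Finset.mem_singleton.1 hs]
    exact ⟨p3, p4, fun z hz => hz⟩
  have fm3 : Fm G ((h ^ (2 * n : ℤ)) x) (σ τ₂) {v | v ∈ (h ^ (2 * n : ℤ)) x :: s2} {s2} := by
    intro s hs
    rw [Finset.mem_singleton.1 hs]
    exact ⟨q3, q4, fun z hz => hz⟩
  obtain ⟨F1, g1, g2⟩ := fm_rev t fm1
  have hl1 : ∀ v ∈ x :: s1, v = x ∨ hs.u v < hs.u x := by
    intro v hv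
    rcases List.mem_cons.1 hv with rfl | hv
    · exact Or.inl rfl
    · exact b4 v (List.mem_cons_of_mem _ (p6 v hv))
  have hl2 : ∀ v ∈ (h ^ (2 * n : ℤ)) x :: s2, hs.u ((h ^ (2 * n : ℤ)) x) ≤ hs.u v := by
    intro v hv
    rcases List.mem_cons.1 hv with rfl | hv
    · exact le_rfl
    · exact d4 v (List.mem_cons_of_mem _ (q6 v hv))
  obtain ⟨F12, k1, k2⟩ := fm_comb t g1 f1 (by
    rintro v hv ⟨hv1, -⟩
    rcases hl1 v hv with h1 | h1
    · exact h1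
    · exfalso
      rcases hv1 with h2 | ⟨h2, h3⟩
      · rw [h2] at h1; linarith
      · linarith)
  obtain ⟨F', k3, k4⟩ := fm_comb t k1 fm3 (by
    intro v hv hv'
    have h0 := hl2 v hv'
    rcases hv with hv | ⟨hv, -⟩
    · exfalso
      rcases hl1 v hv with h1 | h1
      · rw [h1] at h0; linarith
      · linarith
    · rcases hv with h2 | ⟨h2, h3⟩
      · exact h2
      · exfalso; linarith)
  -- all vertices
  have hmid : ∀ v, (∃ k ≤ 2 * n, G.dist ((h ^ k) x) v ≤ l0) →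
      a 0 - (l0 + C) ≤ f v ∧ f v ≤ a (2 * n) + (l0 + C) ∧
      (G.dist ((h ^ (n : ℤ)) x) v : ℤ) ≤ ρ := by
    rintro v ⟨k, hk, hkv⟩
    rw [← zpow_natCast] at hkv
    have h1 := hf1 ((h ^ (k : ℤ)) x) v
    have h2 : f ((h ^ (k : ℤ)) x) = a k := rfl
    rw [h2, abs_le] at h1
    have h3 := hmono 0 k (by omega)
    have h4 := hmono k (2 * n) (by omega)
    have h5 : (G.dist ((h ^ (k : ℤ)) x) v : ℤ) ≤ l0 := by exact_mod_cast hkv
    refine ⟨by omega, by omega, ?_⟩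
    have h6 := hG.tri ((h ^ (n : ℤ)) x) ((h ^ (k : ℤ)) x) v
    have h7 := hf2 ((h ^ (n : ℤ)) x) ((h ^ (k : ℤ)) x)
    have h8 : f ((h ^ (n : ℤ)) x) = a n := rfl
    rw [h2, h8] at h7
    have h9 : |a n - a k| ≤ R + K := by rw [abs_le]; omega
    omega
  have hleft : ∀ v ∈ x :: s1, (G.dist ((h ^ (n : ℤ)) x) v : ℤ) ≤ ρ := by
    intro v hv
    have h1 := hs1 v hv
    have h6 := hG.tri ((h ^ (n : ℤ)) x) x v
    have h7 := hf2 ((h ^ (n : ℤ)) x) x
    have h8 : f ((h ^ (n : ℤ)) x) = a n := rfl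
    rw [h8, ← ha0] at h7
    have h9 : |a n - a 0| ≤ R := by rw [abs_le]; omega
    omega
  have hright : ∀ v ∈ (h ^ (2 * n : ℤ)) x :: s2, (G.dist ((h ^ (n : ℤ)) x) v : ℤ) ≤ ρ := by
    intro v hv
    have h1 := hs2 v hv
    have h6 := hG.tri ((h ^ (n : ℤ)) x) ((h ^ (2 * n : ℤ)) x) v
    have h7 := hf2 ((h ^ (n : ℤ)) x) ((h ^ (2 * n : ℤ)) x)
    have h8 : f ((h ^ (n : ℤ)) x) = a n := rfl
    have h8' : f ((h ^ (2 * n : ℤ)) x) = a (2 * n) := rfl
    rw [h8, h8'] at h7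
    have h9 : |a n - a (2 * n)| ≤ R + K := by rw [abs_le]; omega
    omega
  have hJl := hmono (-J) 0 (by omega)
  have hJr := hmono (2 * n) (2 * n + J) (by omega)
  have hll := hmono (-J) (2 * n + J) (by omega)
  refine ⟨τ₁, τ₂, F', by omega, by omega, by omega, ?_, ?_⟩
  · intro s hs'
    obtain ⟨e1, e2, e3⟩ := k3 s hs'
    refine ⟨e1, e2, ?_, ?_⟩
    · intro z hz
      rw [hσ0]
      have h1 : (G.dist ((h ^ (n : ℤ)) x) z : ℤ) ≤ ρ := by
        rcases e3 z (List.mem_cons_of_mem _ hz) with (h2 | ⟨-, h2⟩) | h2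
        · exact hleft z h2
        · exact (hmid z h2).2.2
        · exact hright z h2
      exact_mod_cast h1
    · intro i hi hi' hz
      push_cast at hi
      have hfi := hσf0 i hi
      rw [abs_le] at hfi
      rcases hi' with hi' | hi'
      · rcases e3 _ (List.mem_cons_of_mem _ hz) with (h2 | ⟨-, h2⟩) | h2
        · exact p7 i hi hi' h2
        · have := (hmid _ h2).1
          omega
        · have := hs2f _ h2
          rw [abs_le] at this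
          omega
      · rcases e3 _ (List.mem_cons_of_mem _ hz) with (h2 | ⟨-, h2⟩) | h2
        · have := hs1f _ h2
          rw [abs_le] at this
          omega
        · have := (hmid _ h2).2.1
          omega
        · exact q7 (-i) (by rwa [abs_neg]) (by omega) (by simpa using h2)
  · have e1 : (∑ s ∈ F', t ^ s.length) = t ^ s1.length * fw t F ^ (2 * n) * t ^ s2.length := by
      have : fw t F' = fw t {s1} * fw t F2 * fw t {s2} := by rw [k4, k2, g2]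
      rw [f2] at this
      simpa [fw] using this
    rw [e1]
    have e2 : (2 * ρ + 1) - (τ₂ - τ₁).toNat ≤ E := by omega
    have hw0 : (0 : ℝ) ≤ fw t F := by linarith
    have e3 : t ^ D ≤ t ^ s1.length := pow_le_pow_of_le_one ht.le ht1 (by omega)
    have e4 : t ^ D ≤ t ^ s2.length := pow_le_pow_of_le_one ht.le ht1 (by omega)
    have e5 : t ^ E ≤ t ^ (2 * ρ + 1 - (τ₂ - τ₁).toNat) := pow_le_pow_of_le_one ht.le ht1 e2
    have e6 : (2 : ℝ) ^ (2 * n) ≤ fw t F ^ (2 * n) := pow_le_pow_left₀ (by norm_num) hw _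
    calc (2 : ℝ) ≤ 2 ^ (2 * n) * t ^ (2 * D + E) := hn3
      _ = t ^ D * 2 ^ (2 * n) * t ^ D * t ^ E := by
          rw [two_mul D, pow_add, pow_add]; ring
      _ ≤ t ^ s1.length * fw t F ^ (2 * n) * t ^ s2.length *
          t ^ (2 * ρ + 1 - (τ₂ - τ₁).toNat) := by
          gcongr

/-! ### Reductions -/

lemma IsSeg.rev {p : ℕ} {σ : ℤ → V} (h : IsSeg G p σ) : IsSeg G p (fun i => σ (-i)) := by
  intro i j hi hj
  have := h (-i) (-j) (by rwa [abs_neg]) (by rwa [abs_neg])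
  rw [this, show -i - -j = -(i - j) by ring, abs_neg]

lemma IsSeg.map (hG : TG G) {p : ℕ} {σ : ℤ → V} (h : IsSeg G p σ) (φ : G ≃g G) :
    IsSeg G p (fun i => φ (σ i)) := by
  intro i j hi hj
  show (G.dist (φ (σ i)) (φ (σ j)) : ℤ) = _
  rw [dist_iso hG.conn]
  exact h i j hi hj

lemma QLn.neg {f : V → ℤ} {C : ℕ} (hf : QLn G f C) : QLn G (fun y => -f y) C := by
  intro y z
  have := hf y z
  rwa [show -f y - -f z = -(f y - f z) by ring, abs_neg]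

/-- squares of automorphisms preserve the order -/
lemma sq_pos (hG : TG G) {f : V → ℤ} {C : ℕ} (hf : QLn G f C) (φ : G ≃g G) (y z : V) :
    |f (φ (φ y)) - f (φ (φ z)) - (f y - f z)| ≤ ((36 * C : ℕ) : ℤ) := by
  have h0 : ∀ y z, |(|f (φ y) - f (φ z)|) - (|f y - f z|)| ≤ ((2 * C : ℕ) : ℤ) := by
    intro y z
    have h1 := hf y z
    have h2 := hf (φ y) (φ z)
    rw [dist_iso hG.conn] at h2
    rw [abs_le] at *
    push_cast
    constructor <;> linarith [h1.1, h1.2, h2.1, h2.2]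
  rcases coarse_sign (fun y => f (φ y)) f (2 * C) h0 with h | h
  · have h1 := h (φ y) (φ z)
    have h2 := h y z
    rw [abs_le] at *
    push_cast at *
    constructor <;> linarith [h1.1, h1.2, h2.1, h2.2]
  · have h1 := h (φ y) (φ z)
    have h2 := h y z
    rw [abs_le] at *
    push_cast at *
    constructor <;> linarith [h1.1, h1.2, h2.1, h2.2]

lemma fm_dist {x y : V} {A : Set V} {F : Finset (List V)} (h : Fm G x y A F) :
    ∃ l : ℕ, Fm G x y (A ∩ {z | G.dist x z ≤ l}) F := by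
  refine ⟨F.sup List.length, fun s hs => ?_⟩
  obtain ⟨h1, h2, h3⟩ := h s hs
  refine ⟨h1, h2, fun z hz => ⟨h3 z hz, ?_⟩⟩
  exact (dist_mem_ch h1.1 hz).trans (Finset.le_sup (f := List.length) hs)

lemma thin_core' (hG : TG G) (hs : HS G) (f : V → ℤ) (C : ℕ) (hf : QLn G f C) {h : G ≃g G}
    (hh : h ∈ hs.Γ) (hχ : 0 < hs.χ h) (K : ℕ)
    (hK : ∀ j : ℤ, ∀ y z, |f ((h ^ j) y) - f ((h ^ j) z) - (f y - f z)| ≤ (K : ℤ))
    (x : V) (hT : (K : ℤ) + 1 ≤ f (h x) - f x) (F : Finset (List V)) (l0 : ℕ)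
    (hF : Fm G x (h x) (rg hs x (h x) ∩ {z | G.dist x z ≤ l0}) F)
    (t : ℝ) (ht : 0 < t) (ht1 : t ≤ 1) (hw : 2 ≤ fw t F) :
    ∃ p ρ : ℕ, 2 * ρ < p ∧ Super G t p ρ := by
  obtain ⟨p, ρ, n, hρ, hcore⟩ := thin_core hG hs f C hf hh hχ K hK x hT F l0 hF t ht ht1 hw
  refine ⟨p, ρ, hρ, fun σ hσ => ?_⟩
  show SupAt G t p ρ σ
  obtain ⟨φ, hφ⟩ := hG.tr (σ 0) ((h ^ n) x)
  apply SupAt_map hG t p ρ σ φ
  have hσ1 := hσ.map hG φ
  set σ1 : ℤ → V := fun i => φ (σ i) with hσ1d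
  have h0 : ∀ i j : {i : ℤ // |i| ≤ p},
      |(|f (σ1 i) - f (σ1 j)|) - (|(i : ℤ) - (j : ℤ)|)| ≤ (C : ℤ) := by
    intro i j
    rw [← hσ1 i j i.2 j.2]
    exact hf (σ1 i) (σ1 j)
  rcases coarse_sign (fun i : {i : ℤ // |i| ≤ p} => f (σ1 i)) (fun i => (i : ℤ)) C h0 with h1 | h1
  · exact hcore σ1 hσ1 hφ (fun i j hi hj => h1 ⟨i, hi⟩ ⟨j, hj⟩)
  · apply SupAt_rev t p ρ (by omega) σ1 hσ1
    refine hcore _ hσ1.rev (by simpa using hφ) (fun i j hi hj => ?_)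
    have := h1 ⟨-i, by rwa [abs_neg]⟩ ⟨-j, by rwa [abs_neg]⟩
    simp only at this
    rwa [show f (σ1 (-i)) - f (σ1 (-j)) - (i - j) = f (σ1 (-i)) - f (σ1 (-j)) + (-i - -j) by ring]

theorem thin_super (hG : TG G) (hinf : Infinite V) (hs : HS G) (f : V → ℤ) (C : ℕ)
    (hf : QLn G f C) (g : G ≃g G) (hg : g ∈ hs.Γ) (hχ : 0 < hs.χ g) (x : V)
    (F : Finset (List V))
    (hF : Fm G x (g x) {z | z = g x ∨ (hs.u x ≤ hs.u z ∧ hs.u z < hs.u (g x))} F)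
    (t : ℝ) (ht : 0 < t) (ht1 : t ≤ 1) (hw : 2 ≤ fw t F) :
    ∃ p ρ : ℕ, 2 * ρ < p ∧ Super G t p ρ := by
  have _ := hinf
  obtain ⟨L, hL⟩ := exists_lip_dist hG hs
  have hχ1 : (1 : ℝ) ≤ hs.χ g := by exact_mod_cast hχ
  -- the power
  obtain ⟨n, hn1, hn2⟩ : ∃ n : ℕ, 1 ≤ n ∧ (L : ℝ) * (37 * C) < 2 * n * hs.χ g := by
    refine ⟨L * (37 * C) + 1, by omega, ?_⟩
    have h1 : (L : ℝ) * (37 * C) < 2 * (L * (37 * C) + 1 : ℕ) := by
      push_cast
      have : (0 : ℝ) ≤ L * (37 * C) := by positivity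
      linarith
    exact h1.trans_le (le_mul_of_one_le_right (by positivity) hχ1)
  obtain ⟨l, hFl⟩ := fm_dist hF
  obtain ⟨F', h1, h2⟩ := rg_pow hG hs hg hχ x F l hFl t (2 * n) (by omega)
  obtain ⟨l0, h3⟩ := fm_dist (h1.mono Set.inter_subset_left)
  have hh : g ^ (2 * n) ∈ hs.Γ := hs.Γ.pow_mem hg _
  have hχh : hs.χ (g ^ (2 * n)) = 2 * n * hs.χ g := by
    rw [← zpow_natCast, hs.chi_zpow hg]; push_cast; ring
  have hχ2 : 0 < hs.χ (g ^ (2 * n)) := by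
    rw [hχh]; positivity
  have hw2 : 2 ≤ fw t F' := by
    rw [h2]
    calc (2 : ℝ) ≤ fw t F := hw
      _ = fw t F ^ 1 := (pow_one _).symm
      _ ≤ fw t F ^ (2 * n) := pow_le_pow_right₀ (by linarith) (by omega)
  have hsq : ∀ (f' : V → ℤ), QLn G f' C → ∀ j : ℤ, ∀ y z,
      |f' (((g ^ (2 * n)) ^ j) y) - f' (((g ^ (2 * n)) ^ j) z) - (f' y - f' z)| ≤
        ((36 * C : ℕ) : ℤ) := by
    intro f' hf' j y z
    have e : (g ^ (2 * n)) ^ j = g ^ (n * j : ℤ) * g ^ (n * j : ℤ) := by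
      rw [← zpow_natCast, ← zpow_mul, ← zpow_add]
      congr 1; push_cast; ring
    rw [e]
    exact sq_pos hG hf' (g ^ (n * j : ℤ)) y z
  have hbig : ((36 * C : ℕ) : ℤ) + 1 ≤ |f ((g ^ (2 * n)) x) - f x| := by
    by_contra hcon
    push Not at hcon
    have h4 : |f ((g ^ (2 * n)) x) - f x| ≤ ((36 * C : ℕ) : ℤ) := by omega
    have h5 := hf ((g ^ (2 * n)) x) x
    rw [abs_le] at h5
    have h6 : (G.dist ((g ^ (2 * n)) x) x : ℤ) ≤ 37 * C := by
      push_cast at h4; linarith [h5.1]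
    have h7 : (G.dist ((g ^ (2 * n)) x) x : ℝ) ≤ 37 * C := by exact_mod_cast h6
    have h8 := hL ((g ^ (2 * n)) x) x
    rw [hs.u_pow hg] at h8
    have h9 : (L : ℝ) * (G.dist ((g ^ (2 * n)) x) x : ℝ) ≤ L * (37 * C) :=
      mul_le_mul_of_nonneg_left h7 (Nat.cast_nonneg _)
    rw [abs_le] at h8
    push_cast at h8
    linarith [h8.2]
  rcases le_total 0 (f ((g ^ (2 * n)) x) - f x) with hpos | hneg
  · rw [abs_of_nonneg hpos] at hbig
    exact thin_core' hG hs f C hf hh hχ2 (36 * C) (hsq f hf) x hbig F' l0 h3 t ht ht1 hw2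
  · rw [abs_of_nonpos hneg] at hbig
    obtain ⟨f', hf'⟩ : ∃ f' : V → ℤ, f' = fun y => -f y := ⟨_, rfl⟩
    have hn : QLn G f' C := by rw [hf']; exact hf.neg
    have hb : ((36 * C : ℕ) : ℤ) + 1 ≤ f' ((g ^ (2 * n)) x) - f' x := by
      have e1 : f' ((g ^ (2 * n)) x) = -f ((g ^ (2 * n)) x) := by rw [hf']
      have e2 : f' x = -f x := by rw [hf']
      rw [e1, e2]
      linarith
    exact thin_core' hG hs f' C hn hh hχ2 (36 * C) (hsq f' hn) x hb F' l0 h3 t ht ht1 hw2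

end THINS

end Pool.H61.ST
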